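import Mathlib

/-!
# SSF, algebraic layer: from a symmetric 4-cocycle to trilinear forms, and the vanishing chain

`A` is an additive commutative group with an action of the additive group `P` (the Picard group
of degrees), written `x +ᵥ`-free as a family of additive maps `sh x : A →+ A` (the shifts).
`c x y z w : A` is symmetric and a cocycle in each variable:
`c (x + x') y z w = c x y z w + sh x (c x' y z w)`.
-/

namespace Pool.Agent.SSF

/-- The abstract data coming from the Koszul torsion of a module of dimension `≤ 2`. -/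
structure Cocycle4 (P A : Type*) [AddCommGroup P] [AddCommGroup A] where
  /-- the shift by a degree -/
  sh : P → A →+ A
  /-- the torsion constant -/
  c : P → P → P → P → A
  sh_zero : ∀ a, sh 0 a = a
  sh_add : ∀ x y a, sh (x + y) a = sh x (sh y a)
  cocycle : ∀ x x' y z w, c (x + x') y z w = c x y z w + sh x (c x' y z w)
  swap12 : ∀ x y z w, c x y z w = c y x z w
  swap23 : ∀ x y z w, c x y z w = c x z y w
  swap34 : ∀ x y z w, c x y z w = c x y w z

namespace Cocycle4

variable {P A : Type*} [AddCommGroup P] [AddCommGroup A] (C : Cocycle4 P A)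

theorem c_zero (y z w : P) : C.c 0 y z w = 0 := by
  have h := C.cocycle 0 0 y z w
  rw [add_zero, C.sh_zero] at h
  exact (left_eq_add.mp h)

/-- `(x - 1) c(y, ..) = (y - 1) c(x, ..)`. -/
theorem move (x y z w v : P) :
    C.sh x (C.c y z w v) - C.c y z w v = C.sh y (C.c x z w v) - C.c x z w v := by
  have h1 := C.cocycle x y z w v
  have h2 := C.cocycle y x z w v
  rw [add_comm y x] at h2
  have h3 : C.c x z w v + C.sh x (C.c y z w v) = C.c y z w v + C.sh y (C.c x z w v) := by
    rw [← h1, ← h2]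
  rw [sub_eq_sub_iff_add_eq_add]
  rw [add_comm _ (C.c x z w v), h3, add_comm]

/-- for a 2-torsion degree `g`: `g c(g, ..) = - c(g, ..)`. -/
theorem sh_tors {g : P} (hg : g + g = 0) (y z w : P) : C.sh g (C.c g y z w) = - C.c g y z w := by
  have h := C.cocycle g g y z w
  rw [hg, C.c_zero] at h
  exact (neg_eq_of_add_eq_zero_right h.symm).symm

/-- the subgroup of doubles -/
def two (A : Type*) [AddCommGroup A] : AddSubgroup A := (zsmulAddGroupHom (2 : ℤ)).range

theorem mem_two {a : A} : a ∈ two A ↔ ∃ b, a = b + b := by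
  constructor
  · rintro ⟨b, rfl⟩
    exact ⟨b, by simp [two_zsmul]⟩
  · rintro ⟨b, rfl⟩
    exact ⟨b, by simp [two_zsmul]⟩

theorem sh_two (x : P) {a : A} (ha : a ∈ two A) : C.sh x a ∈ two A := by
  obtain ⟨b, rfl⟩ := mem_two.1 ha
  exact mem_two.2 ⟨C.sh x b, by rw [map_add]⟩

/-- For 2-torsion `g`, `c(g, g, x, y)` is invariant under shifts modulo doubles. -/
theorem sh_Q {g : P} (hg : g + g = 0) (t x y : P) :
    C.sh t (C.c g g x y) - C.c g g x y ∈ two A := by
  rw [C.move t g g x y]
  have h : C.sh g (C.c t g x y) = - C.c t g x y := by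
    rw [C.swap12 t g x y]
    exact C.sh_tors hg _ _ _
  rw [h]
  exact mem_two.2 ⟨- C.c t g x y, by abel⟩

/-- `Q g x y`, the class of `c(g, g, x, y)` modulo doubles. -/
def Q (g x y : P) : A ⧸ two A := QuotientAddGroup.mk' (two A) (C.c g g x y)

theorem mk_eq {a b : A} (h : a - b ∈ two A) :
    QuotientAddGroup.mk' (two A) a = QuotientAddGroup.mk' (two A) b := by
  rw [← sub_eq_zero, ← map_sub]
  exact (QuotientAddGroup.eq_zero_iff _).2 h

theorem Q_symm (g x y : P) : C.Q g x y = C.Q g y x := by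
  unfold Q
  rw [C.swap34]

theorem Q_add_right {g : P} (hg : g + g = 0) (x y y' : P) :
    C.Q g x (y + y') = C.Q g x y + C.Q g x y' := by
  have h : C.c g g x (y + y') = C.c g g x y + C.sh y (C.c g g x y') := by
    have h0 := C.cocycle y y' g g x
    have e : ∀ u, C.c g g x u = C.c u g g x := fun u => by
      rw [C.swap34 g g x u, C.swap23 g g u x, C.swap12 g u g x]
    rw [e, e, e, h0]
  have h2 := C.sh_Q hg y x y'
  unfold Q
  rw [h, map_add, mk_eq h2]

theorem Q_add_left {g : P} (hg : g + g = 0) (x x' y : P) :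
    C.Q g (x + x') y = C.Q g x y + C.Q g x' y := by
  rw [C.Q_symm, C.Q_add_right hg, C.Q_symm g y x, C.Q_symm g y x']

theorem add_self (q : A ⧸ two A) : q + q = 0 := by
  obtain ⟨a, rfl⟩ := QuotientAddGroup.mk'_surjective (two A) q
  rw [← map_add]
  exact (QuotientAddGroup.eq_zero_iff _).2 (mem_two.2 ⟨a, rfl⟩)

/-- `Q` vanishes on doubles (this is all of T1). -/
theorem Q_double_right {g : P} (hg : g + g = 0) (x a : P) : C.Q g x (a + a) = 0 := by
  rw [C.Q_add_right hg, add_self]

/-- The symmetry `{x; y, y} = {y; x, x}` (this is all of (U)). -/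
theorem Q_U (x y : P) : C.Q x y y = C.Q y x x := by
  unfold Q
  rw [C.swap23 x x y y, C.swap12 x y x y, C.swap34 y x x y, C.swap23 y x y x]

/-- Reciprocity: if `A` has no elements of order two modulo doubles, `Q x y z = Q y x z`. -/
theorem Q_rec (hA : ∀ a : A, a + a = 0 → a ∈ two A) {x y : P} (hx : x + x = 0) (hy : y + y = 0)
    (z : P) : C.Q x y z = C.Q y x z := by
  unfold Q
  apply mk_eq
  apply hA
  have h1 : C.sh y (C.c x x y z) = - C.c x x y z := by
    have h := C.sh_tors hy x x z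
    rwa [C.swap12 y x x z, C.swap23 x y x z] at h
  have h2 := C.move y x x y z
  rw [h1] at h2
  have h3 : C.sh x (C.c y x y z) = - C.c y x y z := by
    have h := C.sh_tors hx y y z
    rwa [C.swap12 x y y z] at h
  rw [h3] at h2
  have h4 : C.c y y x z = C.c y x y z := C.swap23 _ _ _ _
  rw [h4]
  have h5 : -C.c x x y z - C.c x x y z = -C.c y x y z - C.c y x y z := h2
  have h6 : C.c x x y z + C.c x x y z = C.c y x y z + C.c y x y z := by
    have := congrArg Neg.neg h5
    simpa [neg_sub, sub_eq_add_neg, add_comm] using this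
  have h7 : C.c x x y z - C.c y x y z + (C.c x x y z - C.c y x y z)
      = (C.c x x y z + C.c x x y z) - (C.c y x y z + C.c y x y z) := by abel
  rw [h7, h6, sub_self]

/-- Two degrees with disjoint sections: `c(x, y, m, m')` is a second difference. -/
def Disj (m m' : P) : Prop :=
  ∃ d : A, ∀ x y, C.c x y m m' = C.sh x (C.sh y d) - C.sh x d - C.sh y d + d

theorem Q_disj {g : P} (hg : g + g = 0) {m m' : P} (h : C.Disj m m') : C.Q g m m' = 0 := by
  obtain ⟨d, hd⟩ := h
  unfold Q
  rw [hd g g, ← C.sh_add, hg, C.sh_zero]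
  refine (QuotientAddGroup.eq_zero_iff _).2 (mem_two.2 ⟨d - C.sh g d, by abel⟩)

theorem Disj.symm {m m' : P} (h : C.Disj m m') : C.Disj m' m := by
  obtain ⟨d, hd⟩ := h
  exact ⟨d, fun x y => by rw [C.swap34, hd]⟩

/-- The block lemma: four pairwise disjoint sections of degrees `n, n + t, n', n' + t + e`
(in fact only the four mixed pairs are used): `Q g t t = Q g t e`. -/
theorem Q_block {g : P} (hg : g + g = 0) {n n' t e : P}
    (h13 : C.Disj n n') (h14 : C.Disj n (n' + t + e)) (h23 : C.Disj (n + t) n')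
    (h24 : C.Disj (n + t) (n' + t + e)) : C.Q g t t = C.Q g t e := by
  have a13 := C.Q_disj hg h13
  have a14 := C.Q_disj hg h14
  have a23 := C.Q_disj hg h23
  have a24 := C.Q_disj hg h24
  have b14 : C.Q g n t + C.Q g n e = 0 := by
    rw [C.Q_add_right hg, C.Q_add_right hg, a13, zero_add] at a14
    exact a14
  have b24 : C.Q g (n + t) t + C.Q g (n + t) e = 0 := by
    rw [C.Q_add_right hg, C.Q_add_right hg, a23, zero_add] at a24
    exact a24
  rw [C.Q_add_left hg, C.Q_add_left hg] at b24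
  have h : C.Q g t t + C.Q g t e = 0 := by
    have h0 : C.Q g n t + C.Q g t t + (C.Q g n e + C.Q g t e)
        = (C.Q g n t + C.Q g n e) + (C.Q g t t + C.Q g t e) := by abel
    rw [h0, b14, zero_add] at b24
    exact b24
  have h' := add_self (C.Q g t e)
  exact (add_right_cancel (h.trans h'.symm))

/-- The whole vanishing chain.  `m j` degrees of the four divisors `x₂ = r_j`, `m 1 = m 0 + e₃`,
`m 2 = m 0 + b₂`, `∑ m j = 2 h + a₁` with `a₁, a₂` divisible by two, `e₄ = a₂ + b₂`;
`ρ, τ` two-torsion, blocks for `(ρ, e₃)` and `(τ, e₄)`; and the one-dimensional inputs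
`Q τ ρ (m 2) = Q τ ρ (m 3) = 0`.  Conclusion `Q τ ρ (m 0) = 0`. -/
theorem chain (hA : ∀ a : A, a + a = 0 → a ∈ two A) {ρ τ e₃ e₄ a₁' a₂' b₂ h : P} {m : Fin 4 → P}
    (hρ : ρ + ρ = 0) (hτ : τ + τ = 0)
    (h1 : m 1 = m 0 + e₃) (h2 : m 2 = m 0 + b₂)
    (hs : m 0 + m 1 + m 2 + m 3 = (h + h) + (a₁' + a₁'))
    (he₄ : e₄ = (a₂' + a₂') + b₂)
    (B3 : C.Q τ ρ ρ = C.Q τ ρ e₃) (B4 : C.Q ρ τ τ = C.Q ρ τ e₄)
    (v2 : C.Q τ ρ (m 2) = 0) (v3 : C.Q τ ρ (m 3) = 0) : C.Q τ ρ (m 0) = 0 := by
  have k1 : C.Q τ ρ e₃ = C.Q τ ρ b₂ := by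
    rw [← B3, C.Q_U τ ρ, B4, he₄, C.Q_add_right hρ, C.Q_double_right hρ, zero_add,
      C.Q_rec hA hρ hτ]
  have k2 : C.Q τ ρ (m 1) = 0 := by
    rw [h1, C.Q_add_right hτ, k1, ← C.Q_add_right hτ, ← h2, v2]
  have k3 := congrArg (C.Q τ ρ) hs
  rw [C.Q_add_right hτ, C.Q_add_right hτ, C.Q_add_right hτ, C.Q_add_right hτ,
    C.Q_double_right hτ, C.Q_double_right hτ, k2, v2, v3] at k3
  simpa using k3

end Cocycle4

/-- The abstract data coming from the Koszul torsion of a module of dimension `≤ 1`. -/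
structure Cocycle3 (P A : Type*) [AddCommGroup P] [AddCommGroup A] where
  /-- the shift by a degree -/
  sh : P → A →+ A
  /-- the torsion constant -/
  c : P → P → P → A
  sh_zero : ∀ a, sh 0 a = a
  cocycle : ∀ x x' y z, c (x + x') y z = c x y z + sh x (c x' y z)
  swap12 : ∀ x y z, c x y z = c y x z
  swap23 : ∀ x y z, c x y z = c x z y

namespace Cocycle3

variable {P A : Type*} [AddCommGroup P] [AddCommGroup A] (C : Cocycle3 P A)

open Cocycle4 (two mem_two mk_eq add_self)

theorem c_zero (y z : P) : C.c 0 y z = 0 := by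
  have h := C.cocycle 0 0 y z
  rw [add_zero, C.sh_zero] at h
  exact (left_eq_add.mp h)

theorem move (x y z w : P) :
    C.sh x (C.c y z w) - C.c y z w = C.sh y (C.c x z w) - C.c x z w := by
  have h1 := C.cocycle x y z w
  have h2 := C.cocycle y x z w
  rw [add_comm y x] at h2
  have h3 : C.c x z w + C.sh x (C.c y z w) = C.c y z w + C.sh y (C.c x z w) := by
    rw [← h1, ← h2]
  rw [sub_eq_sub_iff_add_eq_add]
  rw [add_comm _ (C.c x z w), h3, add_comm]

theorem sh_tors {g : P} (hg : g + g = 0) (y z : P) : C.sh g (C.c g y z) = - C.c g y z := by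
  have h := C.cocycle g g y z
  rw [hg, C.c_zero] at h
  exact (neg_eq_of_add_eq_zero_right h.symm).symm

theorem sh_R {g : P} (hg : g + g = 0) (t x : P) :
    C.sh t (C.c g g x) - C.c g g x ∈ two A := by
  rw [C.move t g g x]
  have h : C.sh g (C.c t g x) = - C.c t g x := by
    rw [C.swap12 t g x]
    exact C.sh_tors hg _ _
  rw [h]
  exact mem_two.2 ⟨- C.c t g x, by abel⟩

/-- `R g x`, the class of `c(g, g, x)` modulo doubles. -/
def R (g x : P) : A ⧸ two A := QuotientAddGroup.mk' (two A) (C.c g g x)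

theorem R_add {g : P} (hg : g + g = 0) (x x' : P) : C.R g (x + x') = C.R g x + C.R g x' := by
  have h : C.c g g (x + x') = C.c g g x + C.sh x (C.c g g x') := by
    have h0 := C.cocycle x x' g g
    have e : ∀ u, C.c g g u = C.c u g g := fun u => by
      rw [C.swap23 g g u, C.swap12 g u g]
    rw [e, e, e, h0]
  have h2 := C.sh_R hg x x'
  unfold R
  rw [h, map_add, mk_eq h2]

theorem R_double {g : P} (hg : g + g = 0) (a : P) : C.R g (a + a) = 0 := by
  rw [C.R_add hg, add_self]

end Cocycle3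

end Pool.Agent.SSF
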