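import Pool.Agent.SSF.G1

/-! # SSF, module G2: `pt p` is a graded prime, and it is proper in every large degree. -/

set_option autoImplicit false
open scoped TensorProduct

namespace Pool.Agent.SSF
namespace Cox

variable {k : Type} [CommRing k] (D : Cox k)

theorem G2.φ_inj {a b : D.A} (h : D.φ a = D.φ b) : a = b := by
  rw [← D.ρφ a, ← D.ρφ b, h]

/-- A homogeneous `x` outside `pt p` has a partner `y` with `x y = φ a`, `a ∉ p`. -/
theorem G2.partner (hD : D.Good) (p : D.Pt) {γ : D.Γ} {x : D.R} (hx : x ∈ D.gR γ)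
    (hxp : x ∉ D.pt p) : ∃ (n : ℕ) (y : D.R) (a : D.A), y ∈ D.gR (n • D.h - γ) ∧ a ∈ D.gA n ∧
      a ∉ p.asHomogeneousIdeal.toIdeal ∧ D.φ a = x * y := by
  by_contra hcon
  apply hxp
  refine (D.mem_ext_iff p.asHomogeneousIdeal.isHomogeneous hx hD).2 fun n y hy => ?_
  have hxy : x * y ∈ D.gR (n • D.h) := by
    have := SetLike.mul_mem_graded hx hy
    rwa [add_sub_cancel] at this
  obtain ⟨a, ha, hax⟩ := D.φ_surj n _ hxy
  refine ⟨a, ?_, hax⟩
  by_contra hap
  exact hcon ⟨n, y, a, hy, ha, hap, hax⟩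

/-- G2: `pt p` is a graded prime. -/
theorem pt_prime (hD : D.Good) (p : D.Pt) {γ δ : D.Γ} {x y : D.R} (hx : x ∈ D.gR γ)
    (hy : y ∈ D.gR δ) (hxy : x * y ∈ D.pt p) : x ∈ D.pt p ∨ y ∈ D.pt p := by
  by_contra hcon
  push Not at hcon
  obtain ⟨n, z, a, hz, ha, hap, hax⟩ := G2.partner D hD p hx hcon.1
  obtain ⟨m, w, b, hw, hb, hbp, hby⟩ := G2.partner D hD p hy hcon.2
  have hzw : z * w ∈ D.gR ((n + m) • D.h - (γ + δ)) := by
    have := SetLike.mul_mem_graded hz hw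
    have e : (n + m) • D.h - (γ + δ) = n • D.h - γ + (m • D.h - δ) := by
      rw [add_smul]; abel
    rwa [e]
  obtain ⟨c, hc, hcx⟩ := (D.mem_ext_iff p.asHomogeneousIdeal.isHomogeneous
    (SetLike.mul_mem_graded hx hy) hD).1 hxy (n + m) _ hzw
  have hcab : c = a * b := by
    apply G2.φ_inj D
    rw [hcx, map_mul, hax, hby]; ring
  rw [hcab] at hc
  rcases p.isPrime.mem_or_mem hc with h | h
  · exact hap h
  · exact hbp h

/-- `φ a ∈ pt p` iff `a ∈ p`. -/
theorem G2.φ_mem_pt (hD : D.Good) (p : D.Pt) (a : D.A) :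
    D.φ a ∈ D.pt p ↔ a ∈ p.asHomogeneousIdeal.toIdeal := by
  rw [← D.comap_pt hD p]; exact Iff.rfl

/-- Some homogeneous element of positive degree is not in `p`. -/
theorem G2.exists_notMem (p : D.Pt) : ∃ n : ℕ, 0 < n ∧ ∃ a ∈ D.gA n,
    a ∉ p.asHomogeneousIdeal.toIdeal := by
  by_contra hcon
  push Not at hcon
  classical
  apply p.not_irrelevant_le
  intro a ha
  rw [HomogeneousIdeal.mem_irrelevant_iff] at ha
  have hdec := DirectSum.sum_support_decompose D.gA a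
  rw [← hdec]
  refine Ideal.sum_mem _ fun n _ => ?_
  rcases Nat.eq_zero_or_pos n with h0 | h0
  · subst h0
    have : ((DirectSum.decompose D.gA a) 0 : D.A) = 0 := by
      simpa [GradedRing.proj_apply] using ha
    rw [this]
    exact Ideal.zero_mem _
  · exact hcon n h0 _ (SetLike.coe_mem _)

/-- If a family `S` generates `A` in high degree, some member of `S` is not in `p`. -/
theorem G2.exists_gen_notMem (p : D.Pt) (S : Set D.A)
    (hS : ∃ N : ℕ, ∀ n : ℕ, N ≤ n → ∀ a ∈ D.gA n, a ∈ Ideal.span S) :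
    ∃ u ∈ S, u ∉ p.asHomogeneousIdeal.toIdeal := by
  obtain ⟨n, hn, a, ha, hap⟩ := G2.exists_notMem D p
  obtain ⟨N, hN⟩ := hS
  by_contra hcon
  push Not at hcon
  have h1 : a ^ (N + 1) ∈ D.gA ((N + 1) * n) := by
    have := SetLike.pow_mem_graded (N + 1) ha
    rwa [smul_eq_mul] at this
  have h2 := hN ((N + 1) * n) (by nlinarith) _ h1
  have h3 : a ^ (N + 1) ∈ p.asHomogeneousIdeal.toIdeal :=
    (Ideal.span_le.2 fun u hu => hcon u hu) h2
  exact hap (p.isPrime.mem_of_pow_mem _ h3)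

/-- `pt p` is proper in every large degree of every class (the hypothesis `hg` says that `A` is
generated in degree one, in high degree). -/
theorem pt_ne_top' (hD : D.Good)
    (hg : ∃ N : ℕ, ∀ n : ℕ, N ≤ n → ∀ a ∈ D.gA n, a ∈ Ideal.span (D.gA 1 : Set D.A))
    (p : D.Pt) (γ : D.Γ) :
    ∃ N : ℕ, ∀ n : ℕ, N ≤ n → ∃ x ∈ D.gR (γ + n • D.h), x ∉ D.pt p := by
  obtain ⟨U, hU, hgen, hch⟩ := hD.charts
  obtain ⟨u, hu, hup⟩ := G2.exists_gen_notMem D p (U : Set D.A) hgen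
  obtain ⟨v, hv, hvp⟩ := G2.exists_gen_notMem D p (D.gA 1 : Set D.A) hg
  obtain ⟨m, c, e, x, hx, y, hy, hxy⟩ := hch u hu γ
  have hxp : x ∉ D.pt p := by
    intro h
    have h1 : x * y ∈ D.pt p := Ideal.mul_mem_right _ _ h
    rw [hxy, G2.φ_mem_pt D hD] at h1
    exact hup (p.isPrime.mem_of_pow_mem _ h1)
  refine ⟨m, fun n hn => ⟨x * D.φ (v ^ (n - m)), ?_, ?_⟩⟩
  · have h1 : v ^ (n - m) ∈ D.gA (n - m) := by
      have := SetLike.pow_mem_graded (n - m) hv
      rwa [smul_eq_mul, mul_one] at this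
    have h2 := SetLike.mul_mem_graded hx (D.φ_mem _ _ h1)
    have e : γ + n • D.h = γ + m • D.h + (n - m) • D.h := by
      rw [add_assoc, ← add_smul, Nat.add_sub_cancel' hn]
    rwa [e]
  · intro h
    have h1 : v ^ (n - m) ∈ D.gA (n - m) := by
      have := SetLike.pow_mem_graded (n - m) hv
      rwa [smul_eq_mul, mul_one] at this
    rcases D.pt_prime hD p hx (D.φ_mem _ _ h1) h with h2 | h2
    · exact hxp h2
    · rw [G2.φ_mem_pt D hD] at h2
      exact hvp (p.isPrime.mem_of_pow_mem _ h2)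

/-- The chart version, without generation in degree one. -/
theorem pt_ne_top (hD : D.Good) (p : D.Pt) (γ : D.Γ) :
    ∀ N : ℕ, ∃ n ≥ N, ∃ x ∈ D.gR (γ + n • D.h), x ∉ D.pt p := by
  intro N
  obtain ⟨U, hU, hgen, hch⟩ := hD.charts
  obtain ⟨u, hu, hup⟩ := G2.exists_gen_notMem D p (U : Set D.A) hgen
  obtain ⟨m, c, e, x, hx, y, hy, hxy⟩ := hch u hu γ
  obtain ⟨d, hd, hud⟩ := hU u hu
  have hxp : x ∉ D.pt p := by
    intro h
    have h1 : x * y ∈ D.pt p := Ideal.mul_mem_right _ _ h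
    rw [hxy, G2.φ_mem_pt D hD] at h1
    exact hup (p.isPrime.mem_of_pow_mem _ h1)
  have h1 : u ^ N ∈ D.gA (N * d) := by
    have := SetLike.pow_mem_graded N hud
    rwa [smul_eq_mul] at this
  refine ⟨m + N * d, by nlinarith, x * D.φ (u ^ N), ?_, ?_⟩
  · have h2 := SetLike.mul_mem_graded hx (D.φ_mem _ _ h1)
    have e : γ + (m + N * d) • D.h = γ + m • D.h + (N * d) • D.h := by
      rw [add_assoc, ← add_smul]
    rwa [e]
  · intro h
    rcases D.pt_prime hD p hx (D.φ_mem _ _ h1) h with h2 | h2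
    · exact hxp h2
    · rw [G2.φ_mem_pt D hD] at h2
      exact hup (p.isPrime.mem_of_pow_mem _ h2)

end Cox
end Pool.Agent.SSF
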