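import Pool.Agent.SSF.G1
import Pool.Agent.SSF.G2
import Pool.Agent.SSF.Br.Dat

/-! # SSF: assembly of the engine facts (the datum of the bridge) -/

set_option autoImplicit false
open scoped TensorProduct

namespace Pool.Agent.SSF
namespace Cox
namespace Asm

section General
variable {k : Type} [CommRing k] {D : Cox k}

/-- `I R ≤ pt p` for the dimension statements. -/
theorem dimLE_map_iff (hD : D.Good) (I : Ideal D.A) (d : ℕ) :
    D.DimLE (I.map D.φ) d ↔ Br.DimLE D.gA I d := by
  constructor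
  · intro h l hl
    exact h l ((map_le_pt D hD I l.head).2 hl)
  · intro h l hl
    exact h l ((map_le_pt D hD I l.head).1 hl)

theorem map_homogeneous {I : Ideal D.A} (hI : I.IsHomogeneous D.gA) :
    (I.map D.φ).IsHomogeneous D.gR := by
  have h1 : I.map D.φ = Ideal.span {x | ∃ n : ℕ, ∃ a ∈ D.gA n, a ∈ I ∧ D.φ a = x} := by
    apply le_antisymm
    · rw [Ideal.map_le_iff_le_comap]
      classical
      intro a ha
      rw [Ideal.mem_comap]
      have h2 := DirectSum.sum_support_decompose D.gA a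
      rw [← h2, map_sum]
      refine Ideal.sum_mem _ fun i _ => Ideal.subset_span ⟨i, _, (DirectSum.decompose D.gA a i).2,
        hI i ha, rfl⟩
    · rw [Ideal.span_le]
      rintro x ⟨n, a, _, ha, rfl⟩
      exact Ideal.mem_map_of_mem _ ha
  rw [h1]
  refine Ideal.homogeneous_span _ _ ?_
  rintro x ⟨n, a, ha, _, rfl⟩
  exact ⟨n • D.h, D.φ_mem n a ha⟩

theorem mem_colon_span {S : Type} [CommRing S] (J : Ideal S) (r x : S) :
    x ∈ J.colon (Ideal.span {r}) ↔ x * r ∈ J := by
  rw [Submodule.mem_colon]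
  constructor
  · intro h
    exact h r (Ideal.mem_span_singleton_self r)
  · intro h s hs
    obtain ⟨c, rfl⟩ := Ideal.mem_span_singleton'.1 hs
    have : x • (c * r) = c * (x * r) := by rw [smul_eq_mul]; ring
    rw [this]
    exact Ideal.mul_mem_left _ _ h

theorem colon_homogeneous {J : Ideal D.R} (hJ : J.IsHomogeneous D.gR) {δ : D.Γ} {r : D.R}
    (hr : r ∈ D.gR δ) : (J.colon (Ideal.span {r})).IsHomogeneous D.gR := by
  intro γ x hx
  rw [mem_colon_span] at hx ⊢
  have h1 := hJ (γ + δ) hx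
  rwa [DirectSum.coe_decompose_mul_add_of_right_mem D.gR hr] at h1

theorem sup_span_homogeneous {J : Ideal D.R} (hJ : J.IsHomogeneous D.gR) {δ : D.Γ} {r : D.R}
    (hr : r ∈ D.gR δ) : (J ⊔ Ideal.span {r}).IsHomogeneous D.gR := by
  refine Ideal.IsHomogeneous.sup hJ (Ideal.homogeneous_span _ _ ?_)
  rintro x rfl
  exact ⟨δ, hr⟩

theorem High.mono {P Q : D.Γ → Prop} (h : D.High P) (hPQ : ∀ γ, P γ → Q γ) : D.High Q := by
  intro γ
  obtain ⟨N, hN⟩ := h γ
  exact ⟨N, fun n hn => hPQ _ (hN n hn)⟩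

theorem High.and {P Q : D.Γ → Prop} (h : D.High P) (h' : D.High Q) :
    D.High fun γ => P γ ∧ Q γ := by
  intro γ
  obtain ⟨N, hN⟩ := h γ
  obtain ⟨M, hM⟩ := h' γ
  exact ⟨max N M, fun n hn => ⟨hN n ((le_max_left _ _).trans hn),
    hM n ((le_max_right _ _).trans hn)⟩⟩

end General

section Image

variable {k : Type} [CommRing k] {D : Cox k} {B B' : Type} [CommRing B] [Algebra k B]
  [CommRing B'] [Algebra k B']

theorem mapR_tmul (f : B →ₐ[k] B') (b : B) (x : D.R) :
    D.mapR f (b ⊗ₜ[k] x) = f b ⊗ₜ[k] x := by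
  simp [mapR]

theorem mapR_smul (f : B →ₐ[k] B') (b : B) (x : (D.bc B).R) :
    D.mapR f (b • x) = f b • D.mapR f x := by
  induction x using TensorProduct.induction_on with
  | zero => simp
  | tmul c y => rw [TensorProduct.smul_tmul', mapR_tmul, mapR_tmul, TensorProduct.smul_tmul',
      smul_eq_mul, smul_eq_mul, map_mul]
  | add x y hx hy => rw [smul_add, map_add, hx, hy, map_add, smul_add]

theorem mapR_mem (f : B →ₐ[k] B') {γ : D.Γ} {x : (D.bc B).R} (hx : x ∈ (D.bc B).gR γ) :
    D.mapR f x ∈ (D.bc B').gR γ := by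
  change x ∈ (D.gR γ).baseChange B at hx
  change _ ∈ (D.gR γ).baseChange B'
  rw [Submodule.baseChange_eq_span] at hx
  induction hx using Submodule.span_induction with
  | mem x hx =>
    obtain ⟨y, hy, rfl⟩ := hx
    rw [TensorProduct.mk_apply, mapR_tmul, map_one]
    exact Submodule.tmul_mem_baseChange_of_mem _ hy
  | zero => rw [map_zero]; exact Submodule.zero_mem _
  | add x y _ _ hx hy => rw [map_add]; exact Submodule.add_mem _ hx hy
  | smul b x _ hx => rw [mapR_smul]; exact Submodule.smul_mem _ _ hx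

/-- `J` and `J'` agree in high degrees. -/
def HighEq {k : Type} [CommRing k] (D : Cox k) (J J' : Ideal D.R) : Prop :=
  D.High fun γ => ∀ x ∈ D.gR γ, x ∈ J ↔ x ∈ J'

theorem HighEq.symm {J J' : Ideal D.R} (h : HighEq D J J') : HighEq D J' J :=
  High.mono h fun _ h x hx => (h x hx).symm

theorem HighEq.trans {J J' J'' : Ideal D.R} (h : HighEq D J J') (h' : HighEq D J' J'') :
    HighEq D J J'' :=
  High.mono (High.and h h') fun _ h x hx => (h.1 x hx).trans (h.2 x hx)

theorem on_of_highEq (hD : D.Good) {J J' : Ideal D.R} (hJ : J.IsHomogeneous D.gR)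
    (h : HighEq D J J') (p : D.Pt) (hp : D.On J' p) : D.On J p := by
  classical
  intro x hx
  rw [← DirectSum.sum_support_decompose D.gR x]
  refine Ideal.sum_mem _ fun γ _ => ?_
  obtain ⟨N, hN⟩ := h γ
  obtain ⟨m, hm, y, hy, hyp⟩ := pt_ne_top D hD p 0 N
  rw [zero_add] at hy
  have hxγ : (DirectSum.decompose D.gR x γ : D.R) ∈ J := hJ γ hx
  have h1 : (DirectSum.decompose D.gR x γ : D.R) * y ∈ D.gR (γ + m • D.h) :=
    SetLike.mul_mem_graded (DirectSum.decompose D.gR x γ).2 hy
  have h2 := (hN m hm _ h1).1 (Ideal.mul_mem_right _ _ hxγ)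
  rcases pt_prime D hD p (DirectSum.decompose D.gR x γ).2 hy (hp h2) with h3 | h3
  · exact h3
  · exact absurd h3 hyp

theorem dimLE_of_highEq (hD : D.Good) {J J' : Ideal D.R}
    (hJ' : J'.IsHomogeneous D.gR) (h : HighEq D J J') {d : ℕ} (hd : D.DimLE J' d) :
    D.DimLE J d := fun l hl => hd l (on_of_highEq hD hJ' h.symm _ hl)

theorem decompose_mapR (f : B →ₐ[k] B') (y : (D.bc B).R) (γ : D.Γ) :
    (DirectSum.decompose (D.bc B').gR (D.mapR f y) γ : (D.bc B').R) =
      D.mapR f (DirectSum.decompose (D.bc B).gR y γ : (D.bc B).R) := by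
  induction y using DirectSum.Decomposition.inductionOn (D.bc B).gR with
  | zero => simp
  | @homogeneous i m =>
    have h1 : D.mapR f (m : (D.bc B).R) ∈ (D.bc B').gR i := mapR_mem f m.2
    by_cases hi : i = γ
    · subst hi
      rw [DirectSum.decompose_of_mem_same _ h1, DirectSum.decompose_of_mem_same _ m.2]
    · rw [DirectSum.decompose_of_mem_ne _ h1 hi, DirectSum.decompose_of_mem_ne _ m.2 hi, map_zero]
  | add x y hx hy =>
    rw [map_add, DirectSum.decompose_add, DirectSum.decompose_add, DirectSum.add_apply,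
      DirectSum.add_apply, Submodule.coe_add, Submodule.coe_add, map_add, hx, hy]

/-- Span of the images of the degree `γ` part. -/
noncomputable def imSpan (f : B →ₐ[k] B') (J : Ideal (D.bc B).R) (γ : D.Γ) :
    Submodule B' (D.bc B').R :=
  Submodule.span B' {z | ∃ y ∈ (D.bc B).gR γ, y ∈ J ∧ D.mapR f y = z}

theorem imSpan_le (f : B →ₐ[k] B') (J : Ideal (D.bc B).R) (γ : D.Γ) {x : (D.bc B').R}
    (hx : x ∈ imSpan f J γ) : x ∈ J.map (D.mapR f) ∧ x ∈ (D.bc B').gR γ := by
  have h : imSpan f J γ ≤ (J.map (D.mapR f)).restrictScalars B' ⊓ (D.bc B').gR γ := by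
    refine Submodule.span_le.2 ?_
    rintro z ⟨y, hy, hyJ, rfl⟩
    exact ⟨Ideal.mem_map_of_mem _ hyJ, mapR_mem f hy⟩
  exact h hx

theorem mul_imSpan (f : B →ₐ[k] B') (J : Ideal (D.bc B).R) {α β : D.Γ} {r x : (D.bc B').R}
    (hr : r ∈ (D.bc B').gR α) (hx : x ∈ imSpan f J β) : r * x ∈ imSpan f J (α + β) := by
  change r ∈ (D.gR α).baseChange B' at hr
  rw [Submodule.baseChange_eq_span] at hr
  induction hr using Submodule.span_induction with
  | mem r hr =>
    obtain ⟨r0, hr0, rfl⟩ := hr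
    rw [TensorProduct.mk_apply]
    induction hx using Submodule.span_induction with
    | mem x hx =>
      obtain ⟨y, hy, hyJ, rfl⟩ := hx
      refine Submodule.subset_span ⟨(1 : B) ⊗ₜ[k] r0 * y, ?_, Ideal.mul_mem_left _ _ hyJ, ?_⟩
      · exact SetLike.mul_mem_graded (A := (D.bc B).gR)
          (Submodule.tmul_mem_baseChange_of_mem _ hr0) hy
      · rw [map_mul, mapR_tmul, map_one]
    | zero => rw [mul_zero]; exact Submodule.zero_mem _
    | add x y _ _ hx hy => rw [mul_add]; exact Submodule.add_mem _ hx hy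
    | smul b x _ hx => rw [mul_smul_comm]; exact Submodule.smul_mem _ _ hx
  | zero => rw [zero_mul]; exact Submodule.zero_mem _
  | add r s _ _ hr hs => rw [add_mul]; exact Submodule.add_mem _ hr hs
  | smul b r _ hr => rw [smul_mul_assoc]; exact Submodule.smul_mem _ _ hr

theorem decompose_mem_imSpan (f : B →ₐ[k] B') {J : Ideal (D.bc B).R}
    (hJ : J.IsHomogeneous (D.bc B).gR) {x : (D.bc B').R} (hx : x ∈ J.map (D.mapR f))
    (γ : D.Γ) : (DirectSum.decompose (D.bc B').gR x γ : (D.bc B').R) ∈ imSpan f J γ := by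
  induction hx using Submodule.span_induction generalizing γ with
  | mem x hx =>
    obtain ⟨y, hy, rfl⟩ := hx
    rw [decompose_mapR]
    exact Submodule.subset_span ⟨_, (DirectSum.decompose (D.bc B).gR y γ).2, hJ γ hy, rfl⟩
  | zero => rw [DirectSum.decompose_zero]; exact Submodule.zero_mem _
  | add x y _ _ hx hy =>
    rw [DirectSum.decompose_add, DirectSum.add_apply, Submodule.coe_add]
    exact Submodule.add_mem _ (hx γ) (hy γ)
  | smul r x _ hx =>
    rw [smul_eq_mul]
    induction r using DirectSum.Decomposition.inductionOn (D.bc B').gR generalizing γ with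
    | zero => rw [zero_mul, DirectSum.decompose_zero]; exact Submodule.zero_mem _
    | @homogeneous i m =>
      have h1 := DirectSum.coe_decompose_mul_add_of_left_mem (D.bc B').gR (j := γ - i)
        (b := x) m.2
      rw [add_sub_cancel] at h1
      rw [h1]
      have h2 := mul_imSpan f J m.2 (hx (γ - i))
      rwa [add_sub_cancel] at h2
    | add r s hr hs =>
      rw [add_mul, DirectSum.decompose_add, DirectSum.add_apply, Submodule.coe_add]
      exact Submodule.add_mem _ (hr γ) (hs γ)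

/-- The degree `γ` part of the extension of a homogeneous ideal. -/
theorem mem_map_mapR_iff (f : B →ₐ[k] B') {J : Ideal (D.bc B).R}
    (hJ : J.IsHomogeneous (D.bc B).gR) {γ : D.Γ} {x : (D.bc B').R} (hx : x ∈ (D.bc B').gR γ) :
    x ∈ J.map (D.mapR f) ↔
      x ∈ Submodule.span B' {z | ∃ y ∈ (D.bc B).gR γ, y ∈ J ∧ D.mapR f y = z} := by
  constructor
  · intro h
    have h1 := decompose_mem_imSpan f hJ h γ
    rwa [DirectSum.decompose_of_mem_same _ hx] at h1
  · intro h
    exact (imSpan_le f J γ h).1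

theorem map_mapR_homogeneous (f : B →ₐ[k] B') {J : Ideal (D.bc B).R}
    (hJ : J.IsHomogeneous (D.bc B).gR) : (J.map (D.mapR f)).IsHomogeneous (D.bc B').gR :=
  fun γ _ hx => (imSpan_le f J γ (decompose_mem_imSpan f hJ hx γ)).1

theorem HighEq.map (f : B →ₐ[k] B') {J J' : Ideal (D.bc B).R}
    (hJ : J.IsHomogeneous (D.bc B).gR) (hJ' : J'.IsHomogeneous (D.bc B).gR)
    (h : HighEq (D.bc B) J J') :
    HighEq (D.bc B') (J.map (D.mapR f)) (J'.map (D.mapR f)) := by
  intro γ
  obtain ⟨N, hN⟩ := h γ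
  refine ⟨N, fun n hn x hx => ?_⟩
  rw [mem_map_mapR_iff f hJ hx, mem_map_mapR_iff f hJ' hx]
  have : {z | ∃ y ∈ (D.bc B).gR (γ + n • D.h), y ∈ J ∧ D.mapR f y = z} =
      {z | ∃ y ∈ (D.bc B).gR (γ + n • D.h), y ∈ J' ∧ D.mapR f y = z} := by
    ext z
    constructor
    · rintro ⟨y, hy, hyJ, rfl⟩
      exact ⟨y, hy, (hN n hn y hy).1 hyJ, rfl⟩
    · rintro ⟨y, hy, hyJ, rfl⟩
      exact ⟨y, hy, (hN n hn y hy).2 hyJ, rfl⟩
  exact iff_of_eq (congrArg (fun s => x ∈ Submodule.span B' s) this)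

theorem mapR_φ (f : B →ₐ[k] B') (a : (D.bc B).A) :
    D.mapR f ((D.bc B).φ a) = (D.bc B').φ (D.mapA f a) := by
  induction a using TensorProduct.induction_on with
  | zero => simp
  | tmul c y => simp [mapR, mapA]
  | add x y hx hy => simp only [map_add, hx, hy]

theorem map_φ_map_mapR (f : B →ₐ[k] B') (I : Ideal (D.bc B).A) :
    (I.map (D.bc B).φ).map (D.mapR f) = (I.map (D.mapA f)).map (D.bc B').φ := by
  have h : (D.mapR f).comp ((D.bc B).φ : (D.bc B).A →+* (D.bc B).R) =
      ((D.bc B').φ : (D.bc B').A →+* (D.bc B').R).comp (D.mapA f) := RingHom.ext (mapR_φ f)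
  change (I.map ((D.bc B).φ : (D.bc B).A →+* (D.bc B).R)).map (D.mapR f) =
    (I.map (D.mapA f)).map ((D.bc B').φ : (D.bc B').A →+* (D.bc B').R)
  rw [Ideal.map_map, Ideal.map_map, h]

end Image

end Asm
end Cox
end Pool.Agent.SSF
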