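import Pool.Agent.SSF.Defs

/-! # SSF, module G0: `Good` is stable under base change -/

set_option autoImplicit false
open scoped TensorProduct

namespace Pool.Agent.SSF
namespace Cox

section G0
variable {k : Type} [CommRing k]

theorem bc_finite_piece (D : Cox k) (B : Type) [CommRing B] [Algebra k B] (γ : D.Γ)
    (h : Module.Finite k (D.gR γ)) : Module.Finite B ((D.gR γ).baseChange B) := by
  classical
  have hfg : (D.gR γ).FG := Module.Finite.iff_fg.mp h
  obtain ⟨s, hs⟩ := hfg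
  refine Module.Finite.iff_fg.mpr ?_
  rw [← hs, Submodule.baseChange_span]
  exact Submodule.fg_span ((s.finite_toSet).image _)

theorem bc_mem_span' (D : Cox k) (B : Type) [CommRing B] [Algebra k B]
    (S : Set D.A) (n : ℕ) (hN : ∀ a ∈ D.gA n, a ∈ Ideal.span S)
    (a : B ⊗[k] D.A) (ha : a ∈ (D.gA n).baseChange B) :
    a ∈ Ideal.span ((fun a : D.A => ((1 : B) ⊗ₜ[k] a : B ⊗[k] D.A)) '' S) := by
  rw [Submodule.baseChange_eq_span] at ha
  induction ha using Submodule.span_induction with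
  | mem x hx =>
    obtain ⟨y, hy, rfl⟩ := hx
    have h1 := Ideal.mem_map_of_mem
      (Algebra.TensorProduct.includeRight : D.A →ₐ[k] B ⊗[k] D.A) (hN y hy)
    rw [Ideal.map_span] at h1
    exact h1
  | zero => exact Ideal.zero_mem _
  | add x y _ _ hx hy => exact Ideal.add_mem _ hx hy
  | smul b x _ hx =>
    rw [Algebra.smul_def]
    exact Ideal.mul_mem_left _ _ hx

/-- G0: `Good` is stable under base change. -/
theorem Good.bc {D : Cox k} (hD : D.Good) (B : Type) [CommRing B] [Algebra k B] :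
    (D.bc B).Good where
  ftR := by
    have := hD.ftR
    exact Algebra.FiniteType.baseChange B
  ftA := by
    have := hD.ftA
    exact Algebra.FiniteType.baseChange B
  fin := fun γ => bc_finite_piece D B γ (hD.fin γ)
  neg := by
    intro (γ : D.Γ)
    obtain ⟨N, hN⟩ := hD.neg γ
    refine ⟨N, fun n hn => ?_⟩
    change (D.gR (γ - n • D.h)).baseChange B = ⊥
    rw [hN n hn, Submodule.baseChange_bot]
  neg0 := fun n hn => by
    change (D.gR (-(n • D.h))).baseChange B = ⊥
    rw [hD.neg0 n hn, Submodule.baseChange_bot]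
  gen1 := by
    obtain ⟨N, hN⟩ := hD.gen1
    refine ⟨N, fun n hn a ha => ?_⟩
    refine Ideal.span_mono ?_ (bc_mem_span' D B (D.gA 1 : Set D.A) n (hN n hn) a ha)
    rintro _ ⟨y, hy, rfl⟩
    exact Submodule.tmul_mem_baseChange_of_mem _ hy
  charts := by
    classical
    obtain ⟨U, hU, ⟨N, hN⟩, hch⟩ := hD.charts
    refine ⟨(U.image (fun a => (1 : B) ⊗ₜ[k] a) : Finset (B ⊗[k] D.A)), ?_, ⟨N, ?_⟩, ?_⟩
    · intro u hu
      obtain ⟨a, ha, rfl⟩ := Finset.mem_image.mp hu
      obtain ⟨n, hn, han⟩ := hU a ha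
      exact ⟨n, hn, Submodule.tmul_mem_baseChange_of_mem _ han⟩
    · intro n hn a ha
      rw [Finset.coe_image]
      exact bc_mem_span' D B (U : Set D.A) n (hN n hn) a ha
    · intro u hu (γ : D.Γ)
      obtain ⟨a, ha, rfl⟩ := Finset.mem_image.mp hu
      obtain ⟨m, c, e, x, hx, y, hy, hxy⟩ := hch a ha γ
      refine ⟨m, c, e, ((1 : B) ⊗ₜ[k] x : B ⊗[k] D.R), Submodule.tmul_mem_baseChange_of_mem _ hx,
        ((1 : B) ⊗ₜ[k] y : B ⊗[k] D.R), Submodule.tmul_mem_baseChange_of_mem _ hy, ?_⟩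
      change ((1 : B) ⊗ₜ[k] x : B ⊗[k] D.R) * ((1 : B) ⊗ₜ[k] y) =
        Algebra.TensorProduct.map (AlgHom.id B B) D.φ (((1 : B) ⊗ₜ[k] a) ^ e)
      rw [Algebra.TensorProduct.tmul_mul_tmul, hxy, Algebra.TensorProduct.tmul_pow,
        Algebra.TensorProduct.map_tmul]
      simp

end G0

end Cox
end Pool.Agent.SSF
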