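import Pool.Agent.SSF.G1

/-! # SSF, module G5: closed sets of `X` defined by ideals of `R`, finiteness of minimal points -/

set_option autoImplicit false

namespace Pool.Agent.SSF
namespace Cox

variable {k : Type} [CommRing k] (D : Cox k)

/-- The ideal of `A` defining the same closed set as the ideal `J` of `R`. -/
def tr (J : Ideal D.R) : Ideal D.A :=
  Ideal.span {a | ∃ n, a ∈ D.gA n ∧ ∃ z ∈ J, ∃ γ, ∃ y ∈ D.gR (n • D.h - γ),
    D.φ a = (DirectSum.decompose D.gR z γ : D.R) * y}

lemma tr_homogeneous (J : Ideal D.R) : (D.tr J).IsHomogeneous D.gA := by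
  apply Ideal.homogeneous_span
  rintro x ⟨n, hx, -⟩
  exact ⟨n, hx⟩

/-- `V(J)` is the zero locus of the homogeneous ideal `tr J` of `A`. -/
theorem on_iff_tr_le (hD : D.Good) (J : Ideal D.R) (p : D.Pt) :
    D.On J p ↔ D.tr J ≤ p.asHomogeneousIdeal.toIdeal := by
  constructor
  · intro h
    apply Ideal.span_le.2
    rintro a ⟨n, ha, z, hz, γ, y, hy, e⟩
    have h1 : (DirectSum.decompose D.gR z γ : D.R) ∈ D.pt p :=
      D.ext_homogeneous _ γ (h hz)
    have h2 : D.φ a ∈ D.pt p := by
      rw [e]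
      exact Ideal.mul_mem_right _ _ h1
    rw [SetLike.mem_coe, ← D.comap_pt hD p]
    exact h2
  · intro h z hz
    classical
    rw [← DirectSum.sum_support_decompose D.gR z]
    refine Ideal.sum_mem _ fun γ _ => ?_
    have h1 : (DirectSum.decompose D.gR z γ : D.R) ∈ D.gR γ := SetLike.coe_mem _
    change _ ∈ D.ext _
    rw [D.mem_ext_iff' h1]
    intro n y hy
    have h2 : (DirectSum.decompose D.gR z γ : D.R) * y ∈ D.gR (n • D.h) := by
      have := SetLike.mul_mem_graded h1 hy
      rwa [add_sub_cancel] at this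
    obtain ⟨a, ha, e⟩ := D.φ_surj n _ h2
    exact ⟨a, h (Ideal.subset_span ⟨n, ha, z, hz, γ, y, hy, e⟩), e⟩

theorem finite_minimal [IsNoetherianRing k] (hD : D.Good) (J : Ideal D.R) :
    ∃ s : Finset D.Pt, (∀ p ∈ s, D.On J p) ∧ ∀ p, D.On J p → ∃ q ∈ s, q ≤ p := by
  classical
  have hft := hD.ftA
  have hN : IsNoetherianRing D.A := Algebra.FiniteType.isNoetherianRing k D.A
  have hfin : {p : D.Pt | p.asHomogeneousIdeal.toIdeal ∈ (D.tr J).minimalPrimes}.Finite := by
    apply Set.Finite.preimage (f := fun p : D.Pt => p.asHomogeneousIdeal.toIdeal) _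
      (Ideal.finite_minimalPrimes_of_isNoetherianRing D.A (D.tr J))
    intro p _ q _ h
    apply ProjectiveSpectrum.ext
    exact HomogeneousIdeal.toIdeal_injective h
  refine ⟨hfin.toFinset, ?_, ?_⟩
  · intro p hp
    rw [Set.Finite.mem_toFinset] at hp
    rw [D.on_iff_tr_le hD]
    exact hp.1.2
  · intro p hp
    rw [D.on_iff_tr_le hD] at hp
    have hpp := p.isPrime
    obtain ⟨q, hq, hqp⟩ := Ideal.exists_minimalPrimes_le hp
    have hqprime : q.IsPrime := hq.1.1
    have hcore : (q.homogeneousCore D.gA).toIdeal = q := by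
      apply le_antisymm (Ideal.toIdeal_homogeneousCore_le D.gA q)
      refine hq.2 ⟨hqprime.homogeneousCore, ?_⟩ (Ideal.toIdeal_homogeneousCore_le D.gA q)
      have h1 := Ideal.homogeneousCore_mono D.gA hq.1.2
      have h2 := (D.tr_homogeneous J).toIdeal_homogeneousCore_eq_self
      rw [← h2]
      exact h1
    refine ⟨⟨q.homogeneousCore D.gA, hqprime.homogeneousCore, ?_⟩, ?_, ?_⟩
    · intro hle
      apply p.not_irrelevant_le
      intro a ha
      have h1 : a ∈ (q.homogeneousCore D.gA).toIdeal := hle ha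
      rw [hcore] at h1
      exact hqp h1
    · rw [Set.Finite.mem_toFinset]
      change (q.homogeneousCore D.gA).toIdeal ∈ (D.tr J).minimalPrimes
      rw [hcore]
      exact hq
    · change (q.homogeneousCore D.gA).toIdeal ≤ p.asHomogeneousIdeal.toIdeal
      rw [hcore]
      exact hqp

end Cox
end Pool.Agent.SSF
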