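import Pool.Agent.SSF.Defs

/-!
# SSF: high degree parts of products of homogeneous ideals
-/

set_option autoImplicit false

namespace Pool.Agent.SSF.Div36

open Cox

variable {k : Type} [CommRing k] (D : Cox k)

/-- A finitely generated homogeneous ideal is generated by finitely many homogeneous elements. -/
theorem exists_homogeneous_generators {Q : Ideal D.R} (hQ : Q.IsHomogeneous D.gR) (hfg : Q.FG) :
    ∃ T : Finset D.R, (∀ t ∈ T, ∃ γ, t ∈ D.gR γ) ∧ Ideal.span (T : Set D.R) = Q := by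
  classical
  obtain ⟨F, hF⟩ := hfg
  refine ⟨F.biUnion fun x => (DirectSum.decompose D.gR x).support.image
    fun i => (DirectSum.decompose D.gR x i : D.R), ?_, ?_⟩
  · intro t ht
    rw [Finset.mem_biUnion] at ht
    obtain ⟨x, _, hx⟩ := ht
    rw [Finset.mem_image] at hx
    obtain ⟨i, _, rfl⟩ := hx
    exact ⟨i, (DirectSum.decompose D.gR x i).2⟩
  · refine le_antisymm (Ideal.span_le.mpr ?_) ?_
    · intro t ht
      rw [Finset.mem_coe, Finset.mem_biUnion] at ht
      obtain ⟨x, hxF, hx⟩ := ht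
      rw [Finset.mem_image] at hx
      obtain ⟨i, _, rfl⟩ := hx
      have hxQ : x ∈ Q := by
        rw [← hF]
        exact Ideal.subset_span hxF
      exact hQ i hxQ
    · rw [← hF]
      refine Ideal.span_le.mpr ?_
      intro x hx
      rw [SetLike.mem_coe, ← DirectSum.sum_support_decompose D.gR x]
      refine Ideal.sum_mem _ fun i hi => Ideal.subset_span ?_
      rw [Finset.mem_coe, Finset.mem_biUnion]
      exact ⟨x, hx, Finset.mem_image.mpr ⟨i, hi, rfl⟩⟩

/-- Homogeneous coefficients. -/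
theorem mem_span_homogeneous {T : Finset D.R} (δ : D.R → D.Γ) (hδ : ∀ t ∈ T, t ∈ D.gR (δ t))
    {γ : D.Γ} {x : D.R} (hx : x ∈ D.gR γ) (hxT : x ∈ Ideal.span (T : Set D.R)) :
    ∃ a : D.R → D.R, (∀ t ∈ T, a t ∈ D.gR (γ - δ t)) ∧ ∑ t ∈ T, a t * t = x := by
  classical
  rw [Ideal.span, Submodule.mem_span_finset] at hxT
  obtain ⟨c, -, hc⟩ := hxT
  refine ⟨fun t => (DirectSum.decompose D.gR (c t) (γ - δ t) : D.R), fun t _ =>
    (DirectSum.decompose D.gR (c t) (γ - δ t)).2, ?_⟩
  have h1 : (DirectSum.decompose D.gR x γ : D.R) = x := DirectSum.decompose_of_mem_same D.gR hx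
  rw [← h1, ← hc, DirectSum.decompose_sum]
  rw [DFinsupp.finsetSum_apply, AddSubmonoidClass.coe_finsetSum]
  refine Finset.sum_congr rfl fun t ht => ?_
  have h2 := DirectSum.coe_decompose_mul_add_of_right_mem D.gR (i := γ - δ t) (j := δ t)
    (a := c t) (hδ t ht)
  rw [sub_add_cancel] at h2
  rw [smul_eq_mul, h2]

/-- If all elements of `R` of high degree are in `J`, then all elements of `Q` of high degree are
in `J * Q`. -/
theorem high_mul {J Q : Ideal D.R} (hQ : Q.IsHomogeneous D.gR) (hfg : Q.FG)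
    (h : D.High fun γ => ∀ x ∈ D.gR γ, x ∈ J) :
    D.High fun γ => ∀ x ∈ D.gR γ, x ∈ Q → x ∈ J * Q := by
  classical
  obtain ⟨T, hT, hTQ⟩ := exists_homogeneous_generators D hQ hfg
  choose! δ hδ using hT
  intro γ
  choose N hN using h
  refine ⟨T.sup fun t => N (γ - δ t), fun n hn x hx hxQ => ?_⟩
  rw [← hTQ] at hxQ
  obtain ⟨a, ha, hax⟩ := mem_span_homogeneous D δ hδ hx hxQ
  rw [← hax]
  refine Ideal.sum_mem _ fun t ht => ?_
  refine Ideal.mul_mem_mul ?_ ?_
  · have h1 : γ + n • D.h - δ t = γ - δ t + n • D.h := by abel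
    have h2 := ha t ht
    rw [h1] at h2
    exact hN (γ - δ t) n ((Finset.le_sup (f := fun t => N (γ - δ t)) ht).trans hn) _ h2
  · rw [← hTQ]
    exact Ideal.subset_span ht

/-- High degree statements can be combined. -/
theorem high_and {P Q : D.Γ → Prop} (hP : D.High P) (hQ : D.High Q) :
    D.High fun γ => P γ ∧ Q γ := by
  intro γ
  obtain ⟨N, hN⟩ := hP γ
  obtain ⟨N', hN'⟩ := hQ γ
  exact ⟨max N N', fun n hn => ⟨hN n ((le_max_left _ _).trans hn),
    hN' n ((le_max_right _ _).trans hn)⟩⟩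

theorem high_mono {P Q : D.Γ → Prop} (hP : D.High P) (h : ∀ γ, P γ → Q γ) : D.High Q := by
  intro γ
  obtain ⟨N, hN⟩ := hP γ
  exact ⟨N, fun n hn => h _ (hN n hn)⟩

/-- A homogeneous element of the sum of a homogeneous ideal and the ideal generated by a
homogeneous element. -/
theorem mem_sup_span_homogeneous {J : Ideal D.R} (hJ : J.IsHomogeneous D.gR) {δ γ : D.Γ}
    {q x : D.R} (hq : q ∈ D.gR δ) (hx : x ∈ D.gR γ) (h : x ∈ J ⊔ Ideal.span {q}) :
    ∃ u ∈ J, ∃ y ∈ D.gR (γ - δ), u ∈ D.gR γ ∧ x = u + y * q := by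
  obtain ⟨u, hu, v, hv, huv⟩ := Submodule.mem_sup.mp h
  obtain ⟨c, rfl⟩ := Ideal.mem_span_singleton'.mp hv
  have h1 : (DirectSum.decompose D.gR x γ : D.R) = x := DirectSum.decompose_of_mem_same D.gR hx
  have h2 := DirectSum.coe_decompose_mul_add_of_right_mem D.gR (i := γ - δ) (j := δ)
    (a := c) hq
  rw [sub_add_cancel] at h2
  refine ⟨(DirectSum.decompose D.gR u γ : D.R), hJ γ hu,
    (DirectSum.decompose D.gR c (γ - δ) : D.R), (DirectSum.decompose D.gR c (γ - δ)).2,
    (DirectSum.decompose D.gR u γ).2, ?_⟩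
  rw [← h2, ← h1, ← huv, DirectSum.decompose_add]
  rfl

end Pool.Agent.SSF.Div36
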