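import Pool.Agent.SSF.G2
import Pool.Agent.SSF.G5
import Pool.Agent.SSF.HighMul

/-! # SSF, modules G3 and G4: the Nullstellensatz in high degree and its consequences -/

set_option autoImplicit false

namespace Pool.Agent.SSF
namespace Cox

variable {k : Type} [CommRing k] (D : Cox k)

/-- If `U` generates `A` in high degree and its members have bounded degree, then so do the powers
of the ideal generated by `U`. -/
theorem G3.high_mem_pow (U : Finset D.A) (hU : ∀ u ∈ U, ∃ n : ℕ, u ∈ D.gA n)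
    (hgen : ∃ N : ℕ, ∀ n : ℕ, N ≤ n → ∀ a ∈ D.gA n, a ∈ Ideal.span (U : Set D.A)) (s : ℕ) :
    ∃ N : ℕ, ∀ n : ℕ, N ≤ n → ∀ a ∈ D.gA n, a ∈ Ideal.span (U : Set D.A) ^ s := by
  classical
  induction s with
  | zero => exact ⟨0, fun n _ a _ => by rw [pow_zero, Ideal.one_eq_top]; trivial⟩
  | succ s ih =>
    obtain ⟨N0, hN0⟩ := hgen
    obtain ⟨N1, hN1⟩ := ih
    choose! d hd using hU
    refine ⟨max N0 (N1 + U.sup d), fun n hn a ha => ?_⟩
    have h1 := hN0 n (le_trans (le_max_left _ _) hn) a ha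
    rw [Ideal.span, Submodule.mem_span_finset] at h1
    obtain ⟨c, -, hc⟩ := h1
    have h2 : (DirectSum.decompose D.gA a n : D.A) = a := DirectSum.decompose_of_mem_same D.gA ha
    rw [← h2, ← hc, DirectSum.decompose_sum, DFinsupp.finsetSum_apply,
      AddSubmonoidClass.coe_finsetSum]
    refine Ideal.sum_mem _ fun u hu => ?_
    have hle : d u ≤ n := by
      have := Finset.le_sup (f := d) hu
      have := le_trans (le_max_right _ _) hn
      omega
    rw [smul_eq_mul, DirectSum.coe_decompose_mul_of_right_mem_of_le D.gA (hd u hu) hle, pow_succ]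
    refine Ideal.mul_mem_mul (hN1 (n - d u) ?_ _ (DirectSum.decompose D.gA (c u) (n - d u)).2)
      (Ideal.subset_span hu)
    have := Finset.le_sup (f := d) hu
    have := le_trans (le_max_right _ _) hn
    omega

/-- A homogeneous ideal of `A` without points contains `A` in high degree. -/
theorem G3.high_of_irrA [IsNoetherianRing k] (hD : D.Good) {I : Ideal D.A}
    (hI : I.IsHomogeneous D.gA)
    (h : ∀ p : D.Pt, ¬ I ≤ p.asHomogeneousIdeal.toIdeal) :
    ∃ N : ℕ, ∀ n : ℕ, N ≤ n → ∀ a ∈ D.gA n, a ∈ I := by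
  have hft := hD.ftA
  have hN : IsNoetherianRing D.A := Algebra.FiniteType.isNoetherianRing k D.A
  obtain ⟨U, hU, hgen, -⟩ := hD.charts
  have hrad : Ideal.span (U : Set D.A) ≤ I.radical := by
    refine Ideal.span_le.2 fun u hu => ?_
    rw [SetLike.mem_coe, Ideal.radical_eq_sInf, Submodule.mem_sInf]
    intro q0 hq0
    let q : Ideal D.A := q0
    obtain ⟨hIq, hq⟩ : I ≤ q ∧ q.IsPrime := hq0
    change u ∈ q
    by_contra huq
    obtain ⟨n, hn, hun⟩ := hU u hu
    have hIc : I ≤ (Ideal.homogeneousCore D.gA q).toIdeal := by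
      have h1 := Ideal.homogeneousCore_mono D.gA hIq
      have h2 := hI.toIdeal_homogeneousCore_eq_self
      rw [← h2]
      exact h1
    refine h ⟨Ideal.homogeneousCore D.gA q, hq.homogeneousCore, fun hle => ?_⟩ hIc
    apply huq
    apply Ideal.toIdeal_homogeneousCore_le D.gA q
    apply hle
    rw [HomogeneousIdeal.mem_irrelevant_iff, GradedRing.proj_apply]
    exact DirectSum.decompose_of_mem_ne D.gA hun (Nat.pos_iff_ne_zero.1 hn)
  obtain ⟨s, hs⟩ := Ideal.exists_pow_le_of_le_radical_of_fg hrad ⟨U, rfl⟩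
  obtain ⟨N, hN'⟩ := G3.high_mem_pow D U (fun u hu => (hU u hu).imp fun n hn => hn.2) hgen s
  exact ⟨N, fun n hn a ha => hs (hN' n hn a ha)⟩

/-- The same for `R`: every class, in high degree, is contained in the extension of `I`. -/
theorem G3.high_of_irr [IsNoetherianRing k] (hD : D.Good) {I : Ideal D.A}
    (hI : I.IsHomogeneous D.gA)
    (h : ∀ p : D.Pt, ¬ I ≤ p.asHomogeneousIdeal.toIdeal) :
    D.High fun γ => ∀ x ∈ D.gR γ, x ∈ I.map D.φ := by
  classical
  have hft := hD.ftR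
  have hN : IsNoetherianRing D.R := Algebra.FiniteType.isNoetherianRing k D.R
  obtain ⟨N1, hN1⟩ := G3.high_of_irrA D hD hI h
  intro γ
  let S : ℕ → Set D.R := fun n => {x | ∃ m : ℕ, m ≤ n ∧ x ∈ D.gR (γ + m • D.h)}
  let E : ℕ →o Ideal D.R := ⟨fun n => Ideal.span (S n), fun a b hab =>
    Ideal.span_mono fun x ⟨m, hm, hx⟩ => ⟨m, hm.trans hab, hx⟩⟩
  obtain ⟨n0, hn0⟩ := monotone_stabilizes_iff_noetherian.2 hN E
  refine ⟨n0 + N1, fun n hn x hx => ?_⟩
  have h1 : x ∈ E n0 := by
    rw [hn0 n (by omega)]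
    exact Ideal.subset_span ⟨n, le_rfl, hx⟩
  have h2 : x ∈ Ideal.span (S n0) := h1
  rw [Ideal.span, Submodule.mem_span_set] at h2
  obtain ⟨c, hc, hcx⟩ := h2
  have h3 : (DirectSum.decompose D.gR x (γ + n • D.h) : D.R) = x :=
    DirectSum.decompose_of_mem_same D.gR hx
  rw [← h3, ← hcx, Finsupp.sum, DirectSum.decompose_sum, DFinsupp.finsetSum_apply,
    AddSubmonoidClass.coe_finsetSum]
  refine Ideal.sum_mem _ fun g hg => ?_
  obtain ⟨m, hm, hgm⟩ := hc hg
  have e1 : (n - m) • D.h + (γ + m • D.h) = γ + n • D.h := by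
    have e2 : n • D.h = (n - m) • D.h + m • D.h := by
      rw [← add_smul, Nat.sub_add_cancel (by omega)]
    rw [e2]; abel
  have h4 := DirectSum.coe_decompose_mul_add_of_right_mem D.gR (i := (n - m) • D.h)
    (a := c g) hgm
  rw [e1] at h4
  rw [smul_eq_mul, h4]
  obtain ⟨a, ha, hae⟩ := D.φ_surj (n - m) _ (DirectSum.decompose D.gR (c g) ((n - m) • D.h)).2
  rw [← hae]
  exact Ideal.mul_mem_right _ _ (Ideal.mem_map_of_mem _ (hN1 (n - m) (by omega) a ha))

theorem G3.map_tr_le {J : Ideal D.R} (hJ : J.IsHomogeneous D.gR) : (D.tr J).map D.φ ≤ J := by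
  rw [Ideal.map_le_iff_le_comap, tr, Ideal.span_le]
  rintro a ⟨n, ha, z, hz, γ, y, hy, e⟩
  change D.φ a ∈ J
  rw [e]
  exact Ideal.mul_mem_right _ _ (hJ γ hz)

/-- G3: high degree Nullstellensatz. -/
theorem high_le_of_noPoint [IsNoetherianRing k] (hD : D.Good) (J : Ideal D.R)
    (hJ : J.IsHomogeneous D.gR) (h : ∀ p : D.Pt, ¬ D.On J p) :
    D.High fun γ => ∀ x ∈ D.gR γ, x ∈ J := by
  have h1 := G3.high_of_irr D hD (D.tr_homogeneous J) fun p hp => h p ((D.on_iff_tr_le hD J p).2 hp)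
  exact Div36.high_mono D h1 fun γ hγ x hx => G3.map_tr_le D hJ (hγ x hx)

/-- Two homogeneous ideals of `R` which agree on all charts agree in high degree. -/
theorem G3.high_le_of_charts [IsNoetherianRing k] (hD : D.Good) {Q Q' : Ideal D.R}
    (hQ : Q.IsHomogeneous D.gR) (hQ' : Q'.IsHomogeneous D.gR)
    (h : ∀ (u : D.A) (γ : D.Γ) (x : D.R), x ∈ D.gR γ → x ∈ Q' →
      ∀ (m c e : ℕ) (z y : D.R), z ∈ D.gR (γ + m • D.h) → y ∈ D.gR (c • D.h - γ) →
        z * y = D.φ (u ^ e) → D.φ (u ^ e) * x ∈ Q) :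
    D.High fun γ => ∀ x ∈ D.gR γ, x ∈ Q' → x ∈ Q := by
  classical
  have hft := hD.ftR
  have hN : IsNoetherianRing D.R := Algebra.FiniteType.isNoetherianRing k D.R
  have hfg : Q'.FG := IsNoetherian.noetherian Q'
  obtain ⟨T, hT, hTQ⟩ := Div36.exists_homogeneous_generators D hQ' hfg
  choose! δ hδ using hT
  have hTQ' : ∀ t ∈ T, t ∈ Q' := fun t ht => by rw [← hTQ]; exact Ideal.subset_span ht
  -- the colon ideal
  let C : Ideal D.R := Q.colon (Q' : Set D.R)
  have hCQ : C * Q' ≤ Q := by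
    rw [Ideal.mul_le]
    intro r hr s hs
    exact Submodule.mem_colon.1 hr s hs
  have hC : C.IsHomogeneous D.gR := by
    intro γ r hr
    apply Submodule.mem_colon.2
    intro s hs
    rw [← hTQ] at hs
    induction hs using Submodule.span_induction with
    | zero => simp
    | add a b _ _ ha hb => rw [smul_add]; exact Ideal.add_mem _ ha hb
    | smul a b _ hb => rw [smul_comm]; exact Ideal.mul_mem_left _ _ hb
    | mem t ht =>
      have h1 : r * t ∈ Q := Submodule.mem_colon.1 hr t (hTQ' t ht)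
      have h2 := hQ (γ + δ t) h1
      rw [DirectSum.coe_decompose_mul_add_of_right_mem D.gR (hδ t ht)] at h2
      exact h2
  have hC0 : ∀ p : D.Pt, ¬ D.On C p := by
    intro p hp
    obtain ⟨U, hU, hgen, hch⟩ := hD.charts
    obtain ⟨u, hu, hup⟩ := G2.exists_gen_notMem D p (U : Set D.A) hgen
    -- a power of `u` is in `C`
    have h1 : ∀ t ∈ T, ∃ e : ℕ, D.φ (u ^ e) * t ∈ Q := by
      intro t ht
      obtain ⟨m, c, e, z, hz, y, hy, hzy⟩ := hch u hu (δ t)
      exact ⟨e, h u (δ t) t (hδ t ht) (hTQ' t ht) m c e z y hz hy hzy⟩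
    choose! e he using h1
    have h2 : D.φ (u ^ (T.sup e)) ∈ C := by
      apply Submodule.mem_colon.2
      intro s hs
      rw [← hTQ] at hs
      induction hs using Submodule.span_induction with
      | zero => simp
      | add a b _ _ ha hb => rw [smul_add]; exact Ideal.add_mem _ ha hb
      | smul a b _ hb => rw [smul_comm]; exact Ideal.mul_mem_left _ _ hb
      | mem t ht =>
        have h3 : T.sup e = (T.sup e - e t) + e t :=
          (Nat.sub_add_cancel (Finset.le_sup (f := e) ht)).symm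
        rw [smul_eq_mul, h3, pow_add, map_mul, mul_assoc]
        exact Ideal.mul_mem_left _ _ (he t ht)
    have h3 := hp h2
    rw [G2.φ_mem_pt D hD] at h3
    exact hup (p.isPrime.mem_of_pow_mem _ h3)
  have h4 := Div36.high_mul D hQ' hfg (high_le_of_noPoint D hD C hC hC0)
  exact Div36.high_mono D h4 fun γ hγ x hx hxQ => hCQ (hγ x hx hxQ)

theorem map_homogeneous {I : Ideal D.A} (hI : I.IsHomogeneous D.gA) :
    (I.map D.φ).IsHomogeneous D.gR := by
  classical
  obtain ⟨S, hS⟩ := (Ideal.IsHomogeneous.iff_exists D.gA I).1 hI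
  rw [hS, Ideal.map_span]
  apply Ideal.homogeneous_span
  rintro x ⟨a, ⟨b, -, rfl⟩, rfl⟩
  obtain ⟨n, hn⟩ := b.2
  exact ⟨n • D.h, D.φ_mem n _ hn⟩

theorem map_le_ext (hD : D.Good) {I : Ideal D.A} (hI : I.IsHomogeneous D.gA) :
    I.map D.φ ≤ D.ext I := by
  rw [Ideal.map_le_iff_le_comap, D.comap_ext hD hI]

theorem comap_map (hD : D.Good) {I : Ideal D.A} (hI : I.IsHomogeneous D.gA) :
    (I.map D.φ).comap D.φ = I := by
  apply le_antisymm
  · have h1 := Ideal.comap_mono (f := D.φ) (D.map_le_ext hD hI)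
    rwa [D.comap_ext hD hI] at h1
  · exact Ideal.le_comap_map

/-- G4: `I R` and `ext I` agree in high degree. -/
theorem high_map_eq_ext [IsNoetherianRing k] (hD : D.Good) {I : Ideal D.A}
    (hI : I.IsHomogeneous D.gA) :
    D.High fun γ => ∀ x ∈ D.gR γ, x ∈ I.map D.φ ↔ x ∈ D.ext I := by
  have h1 := G3.high_le_of_charts D hD (D.map_homogeneous hI) (D.ext_homogeneous I) (by
    intro u γ x hx hxe m c e z y hz hy hzy
    obtain ⟨a, ha, hae⟩ := (D.mem_ext_iff' hx).1 hxe c y hy
    have e1 : D.φ (u ^ e) * x = z * D.φ a := by rw [← hzy, hae]; ring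
    rw [e1]
    exact Ideal.mul_mem_left _ _ (Ideal.mem_map_of_mem _ ha))
  exact Div36.high_mono D h1 fun γ hγ x hx => ⟨fun h => D.map_le_ext hD hI h, hγ x hx⟩

theorem colon_homogeneous_A {I : Ideal D.A} (hI : I.IsHomogeneous D.gA) {m : ℕ} {r : D.A}
    (hr : r ∈ D.gA m) : (I.colon (Ideal.span {r} : Set D.A)).IsHomogeneous D.gA := by
  intro n a ha
  apply Submodule.mem_colon.2
  intro s hs
  obtain ⟨b, rfl⟩ := Ideal.mem_span_singleton'.1 hs
  have h1 : a * r ∈ I := Submodule.mem_colon.1 ha r (Ideal.mem_span_singleton_self r)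
  have h2 := hI (n + m) h1
  rw [DirectSum.coe_decompose_mul_of_right_mem_of_le D.gA hr (by omega), Nat.add_sub_cancel] at h2
  have e1 : ((DirectSum.decompose D.gA a n : D.A)) • (b * r) = b * ((DirectSum.decompose D.gA a n : D.A) * r) := by
    rw [smul_eq_mul]; ring
  rw [e1]
  exact Ideal.mul_mem_left _ _ h2

theorem high_colon [IsNoetherianRing k] (hD : D.Good) {I : Ideal D.A}
    (hI : I.IsHomogeneous D.gA) {m : ℕ} {r : D.A} (hr : r ∈ D.gA m) :
    D.High fun γ => ∀ x ∈ D.gR γ,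
      x ∈ (I.map D.φ).colon (Ideal.span {D.φ r}) ↔
        x ∈ (I.colon (Ideal.span {r})).map D.φ := by
  have hcol : ∀ (x : D.R), x ∈ (I.map D.φ).colon (Ideal.span {D.φ r} : Set D.R) ↔
      x * D.φ r ∈ I.map D.φ := by
    intro x
    constructor
    · intro h
      exact Submodule.mem_colon.1 h _ (Ideal.mem_span_singleton_self _)
    · intro h
      apply Submodule.mem_colon.2
      intro s hs
      obtain ⟨b, rfl⟩ := Ideal.mem_span_singleton'.1 hs
      have e1 : x • (b * D.φ r) = b * (x * D.φ r) := by rw [smul_eq_mul]; ring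
      rw [e1]
      exact Ideal.mul_mem_left _ _ h
  have hcolA : ∀ (a : D.A), a ∈ I.colon (Ideal.span {r} : Set D.A) ↔ a * r ∈ I := by
    intro x
    constructor
    · intro h
      exact Submodule.mem_colon.1 h _ (Ideal.mem_span_singleton_self _)
    · intro h
      apply Submodule.mem_colon.2
      intro s hs
      obtain ⟨b, rfl⟩ := Ideal.mem_span_singleton'.1 hs
      have e1 : x • (b * r) = b * (x * r) := by rw [smul_eq_mul]; ring
      rw [e1]
      exact Ideal.mul_mem_left _ _ h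
  have hmap := D.map_homogeneous hI
  have hhom : ((I.map D.φ).colon (Ideal.span {D.φ r} : Set D.R)).IsHomogeneous D.gR := by
    intro γ x hx
    rw [hcol] at hx ⊢
    have h2 := hmap (γ + m • D.h) hx
    rwa [DirectSum.coe_decompose_mul_add_of_right_mem D.gR (D.φ_mem m r hr)] at h2
  have hle : (I.colon (Ideal.span {r} : Set D.A)).map D.φ ≤
      (I.map D.φ).colon (Ideal.span {D.φ r} : Set D.R) := by
    rw [Ideal.map_le_iff_le_comap]
    intro a ha
    rw [Ideal.mem_comap]
    rw [hcol, ← map_mul]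
    exact Ideal.mem_map_of_mem _ ((hcolA a).1 ha)
  have h1 := G3.high_le_of_charts D hD (D.map_homogeneous (D.colon_homogeneous_A hI hr)) hhom (by
    intro u γ x hx hxe m' c e z y hz hy hzy
    have hxy : y * x ∈ D.gR (c • D.h) := by
      have := SetLike.mul_mem_graded hy hx
      rwa [sub_add_cancel] at this
    obtain ⟨a, ha, hae⟩ := D.φ_surj c _ hxy
    have e1 : D.φ (u ^ e) * x = z * D.φ a := by rw [← hzy, hae]; ring
    rw [e1]
    refine Ideal.mul_mem_left _ _ (Ideal.mem_map_of_mem _ ((hcolA a).2 ?_))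
    rw [← D.comap_map hD hI, Ideal.mem_comap, map_mul, hae, mul_assoc]
    exact Ideal.mul_mem_left _ _ ((hcol x).1 hxe))
  exact Div36.high_mono D h1 fun γ hγ x hx => ⟨hγ x hx, fun h => hle h⟩

/-- G4c: a homogeneous ideal of `R` agrees in high degree with the ideal generated by its
contraction to `A`. -/
theorem high_comap_map [IsNoetherianRing k] (hD : D.Good) {J : Ideal D.R}
    (hJ : J.IsHomogeneous D.gR) :
    D.High fun γ => ∀ x ∈ D.gR γ, x ∈ J ↔ x ∈ (J.comap D.φ).map D.φ := by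
  have hcom : (J.comap D.φ).IsHomogeneous D.gA := by
    intro n a ha
    rw [Ideal.mem_comap] at ha ⊢
    rw [← D.decompose_φ]
    exact hJ (n • D.h) ha
  have h1 := G3.high_le_of_charts D hD (D.map_homogeneous hcom) hJ (by
    intro u γ x hx hxe m' c e z y hz hy hzy
    have hxy : y * x ∈ D.gR (c • D.h) := by
      have := SetLike.mul_mem_graded hy hx
      rwa [sub_add_cancel] at this
    obtain ⟨a, ha, hae⟩ := D.φ_surj c _ hxy
    have e1 : D.φ (u ^ e) * x = z * D.φ a := by rw [← hzy, hae]; ring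
    rw [e1]
    refine Ideal.mul_mem_left _ _ (Ideal.mem_map_of_mem _ ?_)
    rw [Ideal.mem_comap, hae]
    exact Ideal.mul_mem_left _ _ hxe)
  exact Div36.high_mono D h1 fun γ hγ x hx =>
    ⟨hγ x hx, fun h => Ideal.map_comap_le h⟩

end Cox
end Pool.Agent.SSF
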