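import Pool.Agent.SSF.Defs

/-! # SSF, module G7: dimension drop -/

set_option autoImplicit false

namespace Pool.Agent.SSF
namespace Cox

variable {k : Type} [CommRing k] (D : Cox k)

/-- A chain of points starting on `V(J + x)` can be extended by a minimal point of `V(J)`. -/
theorem dim_drop (_hD : D.Good) (J : Ideal D.R) (d : ℕ) (hd : D.DimLE J (d + 1)) (x : D.R)
    (s : Finset D.Pt) (hs' : ∀ q ∈ s, D.On J q) (hs : ∀ p, D.On J p → ∃ q ∈ s, q ≤ p)
    (hx : ∀ q ∈ s, x ∉ D.pt q) :
    D.DimLE (J ⊔ Ideal.span {x}) d := by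
  intro l hl
  have h1 : D.On J l.head := le_trans le_sup_left hl
  have h2 : x ∈ D.pt l.head := hl (Ideal.mem_sup_right (Ideal.mem_span_singleton_self x))
  obtain ⟨q, hq, hle⟩ := hs _ h1
  have hlt : q < l.head := by
    refine lt_of_le_of_ne hle ?_
    rintro rfl
    exact hx _ hq h2
  have h3 := hd (l.cons q hlt) (by
    rw [RelSeries.head_cons]
    exact hs' q hq)
  rw [RelSeries.cons_length] at h3
  omega

end Cox
end Pool.Agent.SSF
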