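import Pool.Agent.SSF.Defs

/-!
# SSF G8: contraction of points along a morphism of Cox data, dimension under integral base change
-/

set_option autoImplicit false

open scoped TensorProduct

namespace Pool.Agent.SSF

namespace Cox

/-- A morphism of Cox data along a change of the base ring (and of the group of degrees). -/
structure Mor {k k' : Type} [CommRing k] [CommRing k'] (D : Cox k) (D' : Cox k') where
  α : D.A →+* D'.A
  α_mem : ∀ n a, a ∈ D.gA n → α a ∈ D'.gA n
  γ : D.Γ →+ D'.Γ
  γ_inj : Function.Injective γ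
  γ_h : γ D.h = D'.h
  ψ : D.R →+* D'.R
  ψ_mem : ∀ g x, x ∈ D.gR g → ψ x ∈ D'.gR (γ g)
  comm : ∀ a, ψ (D.φ a) = D'.φ (α a)
  gen : ∀ g, ∀ x ∈ D'.gR (γ g),
    x ∈ AddSubgroup.closure {z : D'.R | ∃ (c : D'.A), ∃ y ∈ D.gR g, z = D'.φ c * ψ y}

section general

variable {k : Type} [CommRing k] (D : Cox k)

theorem φ_injective : Function.Injective D.φ := fun a b h => by
  rw [← D.ρφ a, ← D.ρφ b, h]

/-- The homogeneous components of the elements of `ext I` satisfy the defining property. -/
theorem ext_comp {I : Ideal D.A} {x : D.R} (hx : x ∈ D.ext I) :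
    ∀ (γ : D.Γ) (n : ℕ), ∀ y ∈ D.gR (n • D.h - γ), ∃ a ∈ I,
      D.φ a = (DirectSum.decompose D.gR x γ : D.R) * y := by
  classical
  unfold ext at hx
  induction hx using Submodule.span_induction with
  | mem x hx =>
    obtain ⟨δ, hδ, hx⟩ := hx
    intro γ n y hy
    by_cases hγ : δ = γ
    · subst hγ
      rw [DirectSum.decompose_of_mem_same _ hδ]
      exact hx n y hy
    · rw [DirectSum.decompose_of_mem_ne _ hδ hγ]
      exact ⟨0, I.zero_mem, by simp⟩
  | zero =>
    intro γ n y hy
    exact ⟨0, I.zero_mem, by simp⟩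
  | add x x' _ _ h h' =>
    intro γ n y hy
    obtain ⟨a, ha, e⟩ := h γ n y hy
    obtain ⟨b, hb, e'⟩ := h' γ n y hy
    refine ⟨a + b, I.add_mem ha hb, ?_⟩
    rw [map_add, e, e', DirectSum.decompose_add, DirectSum.add_apply, Submodule.coe_add, add_mul]
  | smul r x _ h =>
    intro γ n y hy
    induction r using DirectSum.Decomposition.inductionOn D.gR with
    | zero => exact ⟨0, I.zero_mem, by simp⟩
    | @homogeneous δ r =>
      have hr : (r : D.R) * y ∈ D.gR (n • D.h - (γ - δ)) := by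
        have e : n • D.h - (γ - δ) = δ + (n • D.h - γ) := by abel
        rw [e]
        exact SetLike.mul_mem_graded r.2 hy
      obtain ⟨a, ha, e⟩ := h (γ - δ) n _ hr
      refine ⟨a, ha, ?_⟩
      have e2 : (DirectSum.decompose D.gR ((r : D.R) • x) γ : D.R) =
          (r : D.R) * (DirectSum.decompose D.gR x (γ - δ) : D.R) := by
        have := DirectSum.coe_decompose_mul_add_of_left_mem D.gR (i := δ) (j := γ - δ) (a := (r : D.R))
          (b := x) r.2
        rw [smul_eq_mul, ← this, add_sub_cancel]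
      rw [e, e2]
      ring
    | add r r' h1 h2 =>
      obtain ⟨a, ha, e⟩ := h1
      obtain ⟨b, hb, e'⟩ := h2
      refine ⟨a + b, I.add_mem ha hb, ?_⟩
      rw [map_add, e, e', add_smul, DirectSum.decompose_add, DirectSum.add_apply,
        Submodule.coe_add, add_mul]

end general

namespace Mor

variable {k k' : Type} [CommRing k] [CommRing k'] {D : Cox k} {D' : Cox k'} (m : Mor D D')

/-- The graded ring homomorphism of `A`. -/
def αg : D.gA →+*ᵍ D'.gA where
  __ := m.α
  map_mem := fun {n a} h => m.α_mem n a h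

theorem mem_span_of_mem_gA (n : ℕ) (x : D'.A) (hx : x ∈ D'.gA n) :
    x ∈ Ideal.span (m.α '' (D.gA n : Set D.A)) := by
  have h1 := D'.φ_mem n x hx
  rw [← m.γ_h, ← map_nsmul] at h1
  have h2 := m.gen _ _ h1
  have h3 : ∀ z : D'.R, z ∈ AddSubgroup.closure
      {z : D'.R | ∃ (c : D'.A), ∃ y ∈ D.gR (n • D.h), z = D'.φ c * m.ψ y} →
      ∃ w ∈ Ideal.span (m.α '' (D.gA n : Set D.A)), D'.φ w = z := by
    intro z hz
    induction hz using AddSubgroup.closure_induction with
    | mem z hz =>
      obtain ⟨c, y, hy, rfl⟩ := hz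
      obtain ⟨a, ha, rfl⟩ := D.φ_surj n y hy
      refine ⟨c * m.α a, Ideal.mul_mem_left _ _ (Ideal.subset_span ⟨a, ha, rfl⟩), ?_⟩
      rw [map_mul, m.comm]
    | zero => exact ⟨0, Ideal.zero_mem _, map_zero _⟩
    | add z z' _ _ h h' =>
      obtain ⟨w, hw, rfl⟩ := h
      obtain ⟨w', hw', rfl⟩ := h'
      exact ⟨w + w', Ideal.add_mem _ hw hw', map_add _ _ _⟩
    | neg z _ h =>
      obtain ⟨w, hw, rfl⟩ := h
      exact ⟨-w, (Ideal.neg_mem_iff _).2 hw, map_neg _ _⟩
  obtain ⟨w, hw, e⟩ := h3 _ h2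
  rwa [← D'.φ_injective e]

/-- Contraction of a point. -/
noncomputable def down (P : D'.Pt) : D.Pt where
  asHomogeneousIdeal := P.asHomogeneousIdeal.comap m.αg
  isPrime := by
    have : (P.asHomogeneousIdeal.comap m.αg).toIdeal = P.asHomogeneousIdeal.toIdeal.comap m.α := rfl
    rw [this]
    exact Ideal.comap_isPrime _ _
  not_irrelevant_le := by
    intro h
    refine P.not_irrelevant_le ?_
    have key : ∀ n : ℕ, 0 < n → ∀ x ∈ D'.gA n, x ∈ P.asHomogeneousIdeal.toIdeal := by
      intro n hn x hx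
      have h1 := m.mem_span_of_mem_gA n x hx
      refine (Ideal.span_le.2 ?_) h1
      rintro _ ⟨a, ha, rfl⟩
      have ha' : a ∈ HomogeneousIdeal.irrelevant D.gA := by
        rw [HomogeneousIdeal.mem_irrelevant_iff, GradedRing.proj_apply]
        exact DirectSum.decompose_of_mem_ne _ ha hn.ne'
      exact h ha'
    intro x hx
    classical
    rw [← DirectSum.sum_support_decompose D'.gA x]
    refine Ideal.sum_mem _ fun i hi => ?_
    rcases Nat.eq_zero_or_pos i with rfl | hi0
    · have h0 : (DirectSum.decompose D'.gA x 0 : D'.A) = 0 := by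
        have := (HomogeneousIdeal.mem_irrelevant_iff D'.gA x).1 hx
        rwa [GradedRing.proj_apply] at this
      rw [h0]
      exact Ideal.zero_mem _
    · exact key i hi0 _ (SetLike.coe_mem _)

@[simp] theorem mem_down (P : D'.Pt) (a : D.A) :
    a ∈ (m.down P).asHomogeneousIdeal.toIdeal ↔ m.α a ∈ P.asHomogeneousIdeal.toIdeal := Iff.rfl

theorem down_mono {P Q : D'.Pt} (h : P ≤ Q) : m.down P ≤ m.down Q := by
  intro a ha
  exact h ha

theorem down_strictMono (hint : m.α.IsIntegral) : StrictMono m.down := by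
  intro P Q h
  let _ := m.α.toAlgebra
  have : Algebra.IsIntegral D.A D'.A := ⟨hint⟩
  have h1 : P.asHomogeneousIdeal.toIdeal < Q.asHomogeneousIdeal.toIdeal :=
    lt_iff_le_not_ge.2 ⟨fun a ha => h.le ha,
      fun h2 => (lt_iff_le_not_ge.1 h).2 (fun a ha => h2 ha)⟩
  have h2 := Ideal.IsIntegral.comap_lt_comap (R := D.A) h1
  exact lt_iff_le_not_ge.2 ⟨m.down_mono h.le,
    fun h3 => (lt_iff_le_not_ge.1 h2).2 (fun a ha => h3 ha)⟩

/-- Components of `ψ x`. -/
theorem decompose_ψ (x : D.R) (g : D.Γ) :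
    (DirectSum.decompose D'.gR (m.ψ x) (m.γ g) : D'.R) =
      m.ψ (DirectSum.decompose D.gR x g : D.R) := by
  classical
  induction x using DirectSum.Decomposition.inductionOn D.gR with
  | zero => simp
  | @homogeneous δ r =>
    by_cases hδ : δ = g
    · subst hδ
      rw [DirectSum.decompose_of_mem_same _ (m.ψ_mem _ _ r.2), DirectSum.decompose_of_mem_same _ r.2]
    · rw [DirectSum.decompose_of_mem_ne _ (m.ψ_mem _ _ r.2) (fun e => hδ (m.γ_inj e)),
        DirectSum.decompose_of_mem_ne _ r.2 hδ, map_zero]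
  | add x y hx hy =>
    rw [map_add, DirectSum.decompose_add, DirectSum.add_apply, Submodule.coe_add, hx, hy,
      DirectSum.decompose_add, DirectSum.add_apply, Submodule.coe_add, map_add]

theorem comap_pt_le (P : D'.Pt) : (D'.pt P).comap m.ψ ≤ D.pt (m.down P) := by
  classical
  intro x hx
  have hx' : m.ψ x ∈ D'.ext P.asHomogeneousIdeal.toIdeal := hx
  rw [← DirectSum.sum_support_decompose D.gR x]
  refine Ideal.sum_mem _ fun g _ => Ideal.subset_span ⟨g, SetLike.coe_mem _, ?_⟩
  intro n y hy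
  have h1 := D'.ext_comp hx' (m.γ g) n (m.ψ y) (by
    have := m.ψ_mem _ _ hy
    rwa [map_sub, map_nsmul, m.γ_h] at this)
  obtain ⟨a, ha, e⟩ := h1
  rw [m.decompose_ψ, ← map_mul] at e
  have hmem : (DirectSum.decompose D.gR x g : D.R) * y ∈ D.gR (n • D.h) := by
    have := SetLike.mul_mem_graded (SetLike.coe_mem (DirectSum.decompose D.gR x g)) hy
    rwa [add_sub_cancel] at this
  obtain ⟨b, hb, e2⟩ := D.φ_surj n _ hmem
  refine ⟨b, ?_, e2⟩
  rw [← e2, m.comm] at e
  have e3 := D'.φ_injective e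
  change m.α b ∈ P.asHomogeneousIdeal.toIdeal
  rw [← e3]
  exact ha

theorem le_comap_pt (P : D'.Pt) : D.pt (m.down P) ≤ (D'.pt P).comap m.ψ := by
  refine Ideal.span_le.2 ?_
  rintro x ⟨g, hg, hx⟩
  refine Ideal.subset_span ⟨m.γ g, m.ψ_mem _ _ hg, ?_⟩
  intro n y hy
  rw [← m.γ_h, ← map_nsmul, ← map_sub] at hy
  have key : ∀ z : D'.R, z ∈ AddSubgroup.closure
      {z : D'.R | ∃ (c : D'.A), ∃ y ∈ D.gR (n • D.h - g), z = D'.φ c * m.ψ y} →
      ∃ a ∈ P.asHomogeneousIdeal.toIdeal, D'.φ a = m.ψ x * z := by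
    intro z hz
    induction hz using AddSubgroup.closure_induction with
    | mem z hz =>
      obtain ⟨c, y, hy, rfl⟩ := hz
      obtain ⟨a, ha, e⟩ := hx n y hy
      refine ⟨c * m.α a, Ideal.mul_mem_left _ _ ha, ?_⟩
      rw [map_mul, ← m.comm, e, map_mul]
      ring
    | zero => exact ⟨0, Ideal.zero_mem _, by simp⟩
    | add z z' _ _ h h' =>
      obtain ⟨w, hw, e⟩ := h
      obtain ⟨w', hw', e'⟩ := h'
      exact ⟨w + w', Ideal.add_mem _ hw hw', by rw [map_add, e, e', mul_add]⟩
    | neg z _ h =>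
      obtain ⟨w, hw, e⟩ := h
      exact ⟨-w, (Ideal.neg_mem_iff _).2 hw, by rw [map_neg, e, mul_neg]⟩
  exact key y (m.gen _ _ hy)

theorem comap_pt (P : D'.Pt) : (D'.pt P).comap m.ψ = D.pt (m.down P) :=
  le_antisymm (m.comap_pt_le P) (m.le_comap_pt P)

theorem on_down {J : Ideal D.R} {P : D'.Pt} (h : D'.On (J.map m.ψ) P) : D.On J (m.down P) :=
  fun _ hx => m.comap_pt_le P (h (Ideal.mem_map_of_mem _ hx))

theorem on_down_iff {J : Ideal D.R} {P : D'.Pt} : D'.On (J.map m.ψ) P ↔ D.On J (m.down P) := by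
  refine ⟨m.on_down, fun h => ?_⟩
  exact Ideal.map_le_iff_le_comap.2 (le_trans h (m.le_comap_pt P))

/-- The dimension does not increase along a morphism of Cox data with `α` integral. -/
theorem dim (hint : m.α.IsIntegral) {J : Ideal D.R} {d : ℕ} (hd : D.DimLE J d) :
    D'.DimLE (J.map m.ψ) d := by
  intro l hl
  have := hd (l.map m.down (m.down_strictMono hint)) (by
    rw [LTSeries.head_map]
    exact m.on_down hl)
  simpa using this

end Mor

section bc

variable {k : Type} [CommRing k] (D : Cox k)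

theorem mem_closure_of_mem_baseChange {M : Type} [AddCommGroup M] [Module k M] (B : Type)
    [CommRing B] [Algebra k B] (S : Submodule k M) (x : B ⊗[k] M) (hx : x ∈ S.baseChange B) :
    x ∈ AddSubgroup.closure {z : B ⊗[k] M | ∃ (b : B), ∃ y ∈ S, z = b ⊗ₜ[k] y} := by
  rw [Submodule.baseChange_eq_span] at hx
  induction hx using Submodule.span_induction with
  | mem x hx =>
    obtain ⟨y, hy, rfl⟩ := hx
    exact AddSubgroup.subset_closure ⟨1, y, hy, rfl⟩
  | zero => exact AddSubgroup.zero_mem _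
  | add x y _ _ hx hy => exact AddSubgroup.add_mem _ hx hy
  | smul b x hx' hx =>
    clear hx'
    induction hx using AddSubgroup.closure_induction with
    | mem z hz =>
      obtain ⟨c, y, hy, rfl⟩ := hz
      exact AddSubgroup.subset_closure ⟨b * c, y, hy, by rw [TensorProduct.smul_tmul', smul_eq_mul]⟩
    | zero => rw [smul_zero]; exact AddSubgroup.zero_mem _
    | add z z' _ _ h h' => rw [smul_add]; exact AddSubgroup.add_mem _ h h'
    | neg z _ h => rw [smul_neg]; exact AddSubgroup.neg_mem _ h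

theorem map_mem_baseChange {M : Type} [CommRing M] [Algebra k M] {B B' : Type}
    [CommRing B] [Algebra k B] [CommRing B'] [Algebra k B'] (f : B →ₐ[k] B')
    (S : Submodule k M) (x : B ⊗[k] M) (hx : x ∈ S.baseChange B) :
    Algebra.TensorProduct.map f (AlgHom.id k M) x ∈ S.baseChange B' := by
  have h := mem_closure_of_mem_baseChange B S x hx
  clear hx
  induction h using AddSubgroup.closure_induction with
  | mem z hz =>
    obtain ⟨b, y, hy, rfl⟩ := hz
    rw [Algebra.TensorProduct.map_tmul]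
    exact Submodule.tmul_mem_baseChange_of_mem _ hy
  | zero => rw [map_zero]; exact Submodule.zero_mem _
  | add z z' _ _ h h' => rw [map_add]; exact Submodule.add_mem _ h h'
  | neg z _ h => rw [map_neg]; exact Submodule.neg_mem _ h

/-- The morphism `D → D.bc B`. -/
noncomputable def incMor (B : Type) [CommRing B] [Algebra k B] : Mor D (D.bc B) where
  α := (Algebra.TensorProduct.includeRight : D.A →ₐ[k] B ⊗[k] D.A).toRingHom
  α_mem := fun n a ha => Submodule.tmul_mem_baseChange_of_mem _ ha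
  γ := AddMonoidHom.id D.Γ
  γ_inj := Function.injective_id
  γ_h := rfl
  ψ := (Algebra.TensorProduct.includeRight : D.R →ₐ[k] B ⊗[k] D.R).toRingHom
  ψ_mem := fun g x hx => Submodule.tmul_mem_baseChange_of_mem _ hx
  comm := fun a => by
    change (1 : B) ⊗ₜ[k] D.φ a = Algebra.TensorProduct.map (AlgHom.id B B) D.φ ((1 : B) ⊗ₜ[k] a)
    simp
  gen := fun g x hx => by
    refine AddSubgroup.closure_mono ?_ (mem_closure_of_mem_baseChange B (D.gR g) x hx)
    rintro _ ⟨b, y, hy, rfl⟩
    refine ⟨b ⊗ₜ[k] (1 : D.A), y, hy, ?_⟩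
    change b ⊗ₜ[k] y = Algebra.TensorProduct.map (AlgHom.id B B) D.φ (b ⊗ₜ[k] (1 : D.A)) *
      ((1 : B) ⊗ₜ[k] y)
    simp

/-- The morphism `D.bc B → D.bc B'`. -/
noncomputable def mapMor {B B' : Type} [CommRing B] [Algebra k B] [CommRing B'] [Algebra k B']
    (f : B →ₐ[k] B') : Mor (D.bc B) (D.bc B') where
  α := D.mapA f
  α_mem := fun n a ha => map_mem_baseChange f (D.gA n) a ha
  γ := AddMonoidHom.id D.Γ
  γ_inj := Function.injective_id
  γ_h := rfl
  ψ := D.mapR f
  ψ_mem := fun g x hx => map_mem_baseChange f (D.gR g) x hx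
  comm := fun a => by
    change Algebra.TensorProduct.map f (AlgHom.id k D.R)
        (Algebra.TensorProduct.map (AlgHom.id B B) D.φ a) =
      Algebra.TensorProduct.map (AlgHom.id B' B') D.φ
        (Algebra.TensorProduct.map f (AlgHom.id k D.A) a)
    induction a using TensorProduct.induction_on with
    | zero => simp
    | tmul b a => simp
    | add x y hx hy => rw [map_add, map_add, hx, hy, map_add, map_add]
  gen := fun g x hx => by
    refine AddSubgroup.closure_mono ?_ (mem_closure_of_mem_baseChange B' (D.gR g) x hx)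
    rintro _ ⟨b, y, hy, rfl⟩
    refine ⟨b ⊗ₜ[k] (1 : D.A), (1 : B) ⊗ₜ[k] y, Submodule.tmul_mem_baseChange_of_mem _ hy, ?_⟩
    change b ⊗ₜ[k] y = Algebra.TensorProduct.map (AlgHom.id B' B') D.φ (b ⊗ₜ[k] (1 : D.A)) *
      Algebra.TensorProduct.map f (AlgHom.id k D.R) ((1 : B) ⊗ₜ[k] y)
    simp

variable {D}

theorem integral_map {M : Type} [CommRing M] [Algebra k M] {B B' : Type}
    [CommRing B] [Algebra k B] [CommRing B'] [Algebra k B'] (f : B →ₐ[k] B')
    (hf : (f : B →+* B').IsIntegral) :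
    (Algebra.TensorProduct.map f (AlgHom.id k M)).toRingHom.IsIntegral := by
  intro z
  induction z using TensorProduct.induction_on with
  | zero => exact RingHom.isIntegralElem_zero _
  | tmul b y =>
    have e : b ⊗ₜ[k] y = (b ⊗ₜ[k] (1 : M)) * ((1 : B') ⊗ₜ[k] y) := by simp
    rw [e]
    refine RingHom.IsIntegralElem.mul _ ?_ ?_
    · obtain ⟨p, hp, h0⟩ := hf b
      refine ⟨p.map (Algebra.TensorProduct.includeLeft : B →ₐ[k] B ⊗[k] M).toRingHom, hp.map _, ?_⟩
      rw [Polynomial.eval₂_map]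
      have e2 : (Algebra.TensorProduct.map f (AlgHom.id k M)).toRingHom.comp
          (Algebra.TensorProduct.includeLeft : B →ₐ[k] B ⊗[k] M).toRingHom =
          (Algebra.TensorProduct.includeLeft : B' →ₐ[k] B' ⊗[k] M).toRingHom.comp
            (f : B →+* B') := by
        ext b
        simp
      have e3 : b ⊗ₜ[k] (1 : M) =
        (Algebra.TensorProduct.includeLeft : B' →ₐ[k] B' ⊗[k] M).toRingHom b := rfl
      rw [e2, e3, ← Polynomial.hom_eval₂, h0, map_zero]
    · have e3 : (1 : B') ⊗ₜ[k] y =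
        (Algebra.TensorProduct.map f (AlgHom.id k M)).toRingHom ((1 : B) ⊗ₜ[k] y) := by simp
      rw [e3]
      exact RingHom.isIntegralElem_map _
  | add x y hx hy => exact RingHom.IsIntegralElem.add _ hx hy

/-- G8: the dimension does not increase under integral base change `B → B'`. -/
theorem dim_mapR {B B' : Type} [CommRing B] [Algebra k B] [CommRing B'] [Algebra k B']
    (f : B →ₐ[k] B') (hf : (f : B →+* B').IsIntegral) {J : Ideal (D.bc B).R} {d : ℕ}
    (hd : (D.bc B).DimLE J d) : (D.bc B').DimLE (J.map (D.mapR f)) d :=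
  (D.mapMor f).dim (integral_map f hf) hd

end bc

section dim_bc

variable {K : Type} [Field K] {D : Cox K}

theorem incMor_integral (L : Type) [Field L] [Algebra K L] [Algebra.IsAlgebraic K L] :
    (D.incMor L).α.IsIntegral := by
  have h : Algebra.IsIntegral D.A (D.A ⊗[K] L) := inferInstance
  let c : D.A ⊗[K] L ≃ₐ[K] L ⊗[K] D.A := Algebra.TensorProduct.comm K D.A L
  have e : (D.incMor L).α = (c.toRingEquiv.toRingHom).comp
      (algebraMap D.A (D.A ⊗[K] L)) := by
    ext a
    rfl
  rw [e]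
  exact RingHom.IsIntegral.trans _ _ (algebraMap_isIntegral_iff.2 h)
    (RingHom.isIntegral_of_surjective _ c.surjective)

/-- G8: the dimension does not increase under algebraic extension of the base field. -/
theorem dim_bc (L : Type) [Field L] [Algebra K L] [Algebra.IsAlgebraic K L] {J : Ideal D.R}
    {d : ℕ} (hd : D.DimLE J d) :
    (D.bc L).DimLE (J.map (Algebra.TensorProduct.includeRight : D.R →ₐ[K] L ⊗[K] D.R)) d :=
  (D.incMor L).dim (incMor_integral L) hd

end dim_bc

end Cox

end Pool.Agent.SSF
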