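import Mathlib

/-!
# SSF, team S: the abstract torsion engine and its symmetric cocycles

`Eng` is the interface to the Koszul torsion of one fixed module; from it we construct for every
list `l` of sections with `sm j l` (the dimension of `V(M / l)` is `< j`) a cocycle
`C j l : Γ → ... → Γ → A` in `j + 1` degrees, on all of `Γ`.
-/

namespace Pool.Agent.SSF

/-- An action of the group of degrees by shifts. -/
class Shift (Γ V : Type*) [AddCommGroup Γ] [AddCommGroup V] where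
  /-- the shift -/
  sh : Γ → V →+ V
  sh_zero : ∀ a, sh 0 a = a
  sh_add : ∀ x y a, sh (x + y) a = sh x (sh y a)

export Shift (sh)

section Shift

variable {Γ V : Type*} [AddCommGroup Γ] [AddCommGroup V] [Shift Γ V]

theorem sh_zero (a : V) : sh (0 : Γ) a = a := Shift.sh_zero a

theorem sh_add (x y : Γ) (a : V) : sh (x + y) a = sh x (sh y a) := Shift.sh_add x y a

theorem sh_comm (x y : Γ) (a : V) : sh x (sh y a) = sh y (sh x a) := by
  rw [← sh_add, ← sh_add, add_comm]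

/-- Functions with the pointwise shift. -/
instance shiftPi : Shift Γ (Γ → V) where
  sh x :=
    { toFun := fun f w => sh x (f w)
      map_zero' := by funext w; simp
      map_add' := fun f g => by funext w; simp }
  sh_zero f := by funext w; exact sh_zero _
  sh_add x y f := by funext w; exact sh_add _ _ _

theorem sh_apply (x : Γ) (f : Γ → V) (w : Γ) : sh x f w = sh x (f w) := rfl

/-- Cocycles in one variable. -/
def IsCoc (f : Γ → V) : Prop := ∀ x y, f (x + y) = f x + sh x (f y)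

/-- Cocycles which agree in high degrees agree. -/
theorem IsCoc.ext' {f g : Γ → V} (hf : IsCoc f) (hg : IsCoc g) (h : Γ)
    (H : ∀ χ : Γ, ∃ m₀ : ℕ, ∀ m : ℕ, m₀ ≤ m → f (χ + m • h) = g (χ + m • h)) : f = g := by
  funext x
  obtain ⟨m₀, h0⟩ := H x
  obtain ⟨m₁, h1⟩ := H 0
  have e0 := h0 (max m₀ m₁) (le_max_left _ _)
  have e1 := h1 (max m₀ m₁) (le_max_right _ _)
  rw [zero_add] at e1
  rw [hf, hg, e1] at e0
  exact add_right_cancel e0

theorem IsCoc.sub {f g : Γ → V} (hf : IsCoc f) (hg : IsCoc g) : IsCoc (f - g) := by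
  intro x y
  simp only [Pi.sub_apply, map_sub]
  rw [hf, hg]
  abel

theorem IsCoc.shift {f : Γ → V} (hf : IsCoc f) (z : Γ) : IsCoc (sh z f) := by
  intro x y
  simp only [sh_apply]
  rw [hf, map_add, sh_comm z x]

theorem IsCoc.zero {f : Γ → V} (hf : IsCoc f) : f 0 = 0 := by
  have h := hf 0 0
  rw [add_zero, sh_zero] at h
  exact left_eq_add.mp h

/-- The coboundary of `a`. -/
def bd (a : V) (w : Γ) : V := a - sh w a

theorem bd_coc (a : V) : IsCoc (fun w : Γ => bd a w) := by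
  intro x y
  simp only [bd, map_sub]
  rw [sh_add]
  abel

end Shift

section Extension

variable {Γ V S : Type*} [AddCommGroup Γ] [AddCommGroup V] [Shift Γ V] [CommMonoid S]

/-- Data on good sections. -/
structure GoodData (deg : S → Γ) (h : Γ) (P : S → Prop) (v : S → V) : Prop where
  deg_mul : ∀ s t, deg (s * t) = deg s + deg t
  P_mul : ∀ s t, P s → P t → P (s * t)
  v_mul : ∀ s t, P s → P t → v (s * t) = v s + sh (deg s) (v t)
  v_deg : ∀ s t, P s → P t → deg s = deg t → v s = v t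
  ex : ∀ χ : Γ, ∃ m₀ : ℕ, ∀ m : ℕ, m₀ ≤ m → ∃ G, P G ∧ deg G = χ + m • h

variable {deg : S → Γ} {h : Γ} {P : S → Prop} {v : S → V}

theorem GoodData.pair (H : GoodData deg h P v) (x : Γ) :
    ∃ GG : S × S, P GG.1 ∧ P GG.2 ∧ deg GG.1 = x + deg GG.2 := by
  obtain ⟨m₀, h0⟩ := H.ex x
  obtain ⟨m₁, h1⟩ := H.ex 0
  obtain ⟨G, hG, dG⟩ := h0 (max m₀ m₁) (le_max_left _ _)
  obtain ⟨G', hG', dG'⟩ := h1 (max m₀ m₁) (le_max_right _ _)
  exact ⟨(G, G'), hG, hG', by rw [dG, dG', zero_add]⟩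

open Classical in
/-- The extension of `v` to all degrees. -/
noncomputable def extn (deg : S → Γ) (P : S → Prop) (v : S → V) (x : Γ) : V :=
  if H : ∃ GG : S × S, P GG.1 ∧ P GG.2 ∧ deg GG.1 = x + deg GG.2 then
    v H.choose.1 - sh x (v H.choose.2) else 0

theorem GoodData.extn_eq (H : GoodData deg h P v) {x : Γ} {G G' : S} (hG : P G) (hG' : P G')
    (hd : deg G = x + deg G') : extn deg P v x = v G - sh x (v G') := by
  have hp := H.pair x
  have e : extn deg P v x = v hp.choose.1 - sh x (v hp.choose.2) := by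
    unfold extn
    rw [dif_pos hp]
  rw [e]
  obtain ⟨k1, k2, k3⟩ := hp.choose_spec
  set K := hp.choose.1
  set K' := hp.choose.2
  have a1 := H.v_deg (K * G') (G * K') (H.P_mul _ _ k1 hG') (H.P_mul _ _ hG k2)
    (by rw [H.deg_mul, H.deg_mul, k3, hd]; abel)
  have a2 : v (K' * G') = v (G' * K') := by rw [mul_comm]
  rw [H.v_mul _ _ k1 hG', H.v_mul _ _ hG k2] at a1
  rw [H.v_mul _ _ k2 hG', H.v_mul _ _ hG' k2] at a2
  have a3 := congrArg (sh x) a2
  rw [map_add, map_add, ← sh_add, ← sh_add, ← k3, ← hd] at a3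
  have a4 : v K - sh x (v K') = v G - sh x (v G') := by
    have b1 : v K = v G + sh (deg G) (v K') - sh (deg K) (v G') := eq_sub_of_add_eq a1
    have b2 : sh x (v K') = sh x (v G') + sh (deg G) (v K') - sh (deg K) (v G') :=
      eq_sub_of_add_eq a3
    rw [b1, b2]
    abel
  exact a4

theorem GoodData.extn_deg (H : GoodData deg h P v) {G : S} (hG : P G) :
    extn deg P v (deg G) = v G := by
  obtain ⟨GG, h1, h2, h3⟩ := H.pair 0
  rw [H.extn_eq (H.P_mul _ _ hG h2) h2 (H.deg_mul _ _), H.v_mul _ _ hG h2]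
  abel

theorem GoodData.extn_coc (H : GoodData deg h P v) : IsCoc (extn deg P v) := by
  intro x y
  obtain ⟨m₀, h0⟩ := H.ex (x + y)
  obtain ⟨m₁, h1⟩ := H.ex y
  obtain ⟨m₂, h2⟩ := H.ex 0
  set m := max m₀ (max m₁ m₂)
  obtain ⟨G, hG, dG⟩ := h0 m (le_max_left _ _)
  obtain ⟨G', hG', dG'⟩ := h1 m (le_trans (le_max_left _ _) (le_max_right _ _))
  obtain ⟨G'', hG'', dG''⟩ := h2 m (le_trans (le_max_right _ _) (le_max_right _ _))
  rw [H.extn_eq hG hG'' (by rw [dG, dG'', zero_add]),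
    H.extn_eq hG hG' (by rw [dG, dG', add_assoc]),
    H.extn_eq hG' hG'' (by rw [dG', dG'', zero_add]), map_sub, ← sh_add]
  abel

/-- A property closed under differences and shifts passes to the extension. -/
theorem GoodData.extn_mem (H : GoodData deg h P v) (T : V → Prop)
    (hT : ∀ a b (x : Γ), T a → T b → T (a - sh x b)) (hv : ∀ G, P G → T (v G)) (x : Γ) :
    T (extn deg P v x) := by
  obtain ⟨GG, h1, h2, h3⟩ := H.pair x
  rw [H.extn_eq h1 h2 h3]
  exact hT _ _ _ (hv _ h1) (hv _ h2)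

end Extension

/-- The interface to the Koszul torsion of one module `M`. -/
structure Eng (Γ S A : Type*) [AddCommGroup Γ] [CommMonoid S] [AddCommGroup A] [Shift Γ A] where
  /-- the degree of a section -/
  deg : S → Γ
  /-- the ample degree -/
  h : Γ
  /-- the torsion of the Koszul complex -/
  D : List S → A
  /-- `sm j l`: the dimension of `V(M / l)` is smaller than `j` -/
  sm : ℕ → List S → Prop
  deg_mul : ∀ s t, deg (s * t) = deg s + deg t
  sm_perm : ∀ j l l', l.Perm l' → sm j l → sm j l'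
  sm_cons : ∀ j s l, sm j l → sm j (s :: l)
  sm_mul : ∀ j s t l, sm j (s :: l) → sm j (t :: l) → sm j ((s * t) :: l)
  avoid : ∀ (L : List (ℕ × List S)), (∀ p ∈ L, sm (p.1 + 1) p.2) → ∀ χ : Γ,
    ∃ m₀ : ℕ, ∀ m : ℕ, m₀ ≤ m → ∃ G, deg G = χ + m • h ∧ ∀ p ∈ L, sm p.1 (G :: p.2)
  D_perm : ∀ l l', l.Perm l' → D l = D l'
  D_mul : ∀ s t l, sm 0 (s :: l) → sm 0 (t :: l) →
    D ((s * t) :: l) = D (s :: l) + sh (deg s) (D (t :: l))
  D_cone : ∀ s l, sm 0 l → D (s :: l) = D l - sh (deg s) (D l)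

namespace Eng

variable {Γ S A : Type*} [AddCommGroup Γ] [CommMonoid S] [AddCommGroup A] [Shift Γ A]
variable (E : Eng Γ S A)

/-- existence of one good section -/
theorem avoid1 {j : ℕ} {l : List S} (hl : E.sm (j + 1) l) (χ : Γ) :
    ∃ m₀ : ℕ, ∀ m : ℕ, m₀ ≤ m → ∃ G, E.deg G = χ + m • E.h ∧ E.sm j (G :: l) := by
  obtain ⟨m₀, h0⟩ := E.avoid [(j, l)] (by simpa using hl) χ
  refine ⟨m₀, fun m hm => ?_⟩
  obtain ⟨G, h1, h2⟩ := h0 m hm
  exact ⟨G, h1, by simpa using h2⟩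

theorem avoid2 {j₁ j₂ : ℕ} {l₁ l₂ : List S} (h₁ : E.sm (j₁ + 1) l₁) (h₂ : E.sm (j₂ + 1) l₂)
    (χ : Γ) : ∃ m₀ : ℕ, ∀ m : ℕ, m₀ ≤ m →
      ∃ G, E.deg G = χ + m • E.h ∧ E.sm j₁ (G :: l₁) ∧ E.sm j₂ (G :: l₂) := by
  obtain ⟨m₀, h0⟩ := E.avoid [(j₁, l₁), (j₂, l₂)]
    (by simp only [List.mem_cons, List.not_mem_nil, or_false, forall_eq_or_imp, forall_eq]
        exact ⟨h₁, h₂⟩) χ
  refine ⟨m₀, fun m hm => ?_⟩
  obtain ⟨G, h1, h2⟩ := h0 m hm
  simp only [List.mem_cons, List.not_mem_nil, or_false, forall_eq_or_imp, forall_eq] at h2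
  exact ⟨G, h1, h2⟩

theorem avoid3 {j₁ j₂ j₃ : ℕ} {l₁ l₂ l₃ : List S} (h₁ : E.sm (j₁ + 1) l₁)
    (h₂ : E.sm (j₂ + 1) l₂) (h₃ : E.sm (j₃ + 1) l₃)
    (χ : Γ) : ∃ m₀ : ℕ, ∀ m : ℕ, m₀ ≤ m →
      ∃ G, E.deg G = χ + m • E.h ∧ E.sm j₁ (G :: l₁) ∧ E.sm j₂ (G :: l₂) ∧ E.sm j₃ (G :: l₃) := by
  obtain ⟨m₀, h0⟩ := E.avoid [(j₁, l₁), (j₂, l₂), (j₃, l₃)]
    (by simp only [List.mem_cons, List.not_mem_nil, or_false, forall_eq_or_imp, forall_eq]
        exact ⟨h₁, h₂, h₃⟩) χ
  refine ⟨m₀, fun m hm => ?_⟩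
  obtain ⟨G, h1, h2⟩ := h0 m hm
  simp only [List.mem_cons, List.not_mem_nil, or_false, forall_eq_or_imp, forall_eq] at h2
  exact ⟨G, h1, h2⟩

omit [CommMonoid S] in
theorem swap_perm (s t : S) (l : List S) : (s :: t :: l).Perm (t :: s :: l) := List.Perm.swap _ _ _

section Step

variable {V : Type*} [AddCommGroup V] [Shift Γ V]

/-- The inductive facts about a system of cocycles. -/
structure Facts (j : ℕ) (c : List S → V) : Prop where
  good : ∀ l, E.sm (j + 1) l →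
    GoodData E.deg E.h (fun G => E.sm j (G :: l)) (fun G => c (G :: l))
  perm : ∀ l l', l.Perm l' → E.sm j l → c l = c l'

/-- The next system of cocycles. -/
noncomputable def next (j : ℕ) (c : List S → V) (l : List S) : Γ → V :=
  extn E.deg (fun G => E.sm j (G :: l)) (fun G => c (G :: l))

variable {E} {j : ℕ} {c : List S → V}

theorem Facts.coc (F : E.Facts j c) {l : List S} (hl : E.sm (j + 1) l) :
    IsCoc (E.next j c l) := (F.good l hl).extn_coc

theorem Facts.val (F : E.Facts j c) {l : List S} (hl : E.sm (j + 1) l) {G : S}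
    (hG : E.sm j (G :: l)) : E.next j c l (E.deg G) = c (G :: l) :=
  (F.good l hl).extn_deg hG

theorem Facts.mem (F : E.Facts j c) {l : List S} (hl : E.sm (j + 1) l) (T : V → Prop)
    (hT : ∀ a b (x : Γ), T a → T b → T (a - sh x b)) (hv : ∀ G, E.sm j (G :: l) → T (c (G :: l)))
    (x : Γ) : T (E.next j c l x) :=
  (F.good l hl).extn_mem T hT hv x

theorem Facts.next (F : E.Facts j c) : E.Facts (j + 1) (E.next j c) := by
  have hperm : ∀ l l', l.Perm l' → E.sm (j + 1) l → E.next j c l = E.next j c l' := by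
    intro l l' hp hl
    have hl' := E.sm_perm _ _ _ hp hl
    refine (F.coc hl).ext' (F.coc hl') E.h fun χ => ?_
    obtain ⟨m₀, h0⟩ := E.avoid1 hl χ
    refine ⟨m₀, fun m hm => ?_⟩
    obtain ⟨G, h1, h2⟩ := h0 m hm
    have h2' : E.sm j (G :: l') := E.sm_perm _ _ _ (hp.cons G) h2
    rw [← h1, F.val hl h2, F.val hl' h2']
    exact F.perm _ _ (hp.cons G) h2
  refine ⟨fun l hl => ⟨E.deg_mul, fun s t hs ht => E.sm_mul _ s t l hs ht, ?_, ?_, ?_⟩, hperm⟩
  · intro s t hs ht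
    have hst := E.sm_mul _ s t l hs ht
    have hc : IsCoc (E.next j c (s :: l) + sh (E.deg s) (E.next j c (t :: l))) := by
      intro x y
      have a1 := F.coc hs x y
      have a2 := (F.coc ht).shift (E.deg s) x y
      simp only [Pi.add_apply, map_add]
      rw [a1, a2]
      abel
    refine (F.coc hst).ext' hc E.h fun χ => ?_
    obtain ⟨m₀, h0⟩ := E.avoid3 hs ht hl χ
    refine ⟨m₀, fun m hm => ?_⟩
    obtain ⟨G, h1, g1, g2, g3⟩ := h0 m hm
    have g1' := E.sm_perm _ _ _ (swap_perm G s l) g1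
    have g2' := E.sm_perm _ _ _ (swap_perm G t l) g2
    have g4' := E.sm_mul _ s t (G :: l) g1' g2'
    have g4 := E.sm_perm _ _ _ (swap_perm (s * t) G l) g4'
    have e := (F.good (G :: l) g3).v_mul s t g1' g2'
    rw [← h1, F.val hst g4]
    simp only [Pi.add_apply, sh_apply]
    rw [F.val hs g1, F.val ht g2, F.perm _ _ (swap_perm G (s * t) l) g4,
      F.perm _ _ (swap_perm G s l) g1, F.perm _ _ (swap_perm G t l) g2]
    exact e
  · intro s t hs ht hd
    refine (F.coc hs).ext' (F.coc ht) E.h fun χ => ?_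
    obtain ⟨m₀, h0⟩ := E.avoid3 hs ht hl χ
    refine ⟨m₀, fun m hm => ?_⟩
    obtain ⟨G, h1, g1, g2, g3⟩ := h0 m hm
    have g1' := E.sm_perm _ _ _ (swap_perm G s l) g1
    have g2' := E.sm_perm _ _ _ (swap_perm G t l) g2
    rw [← h1, F.val hs g1, F.val ht g2, F.perm _ _ (swap_perm G s l) g1,
      F.perm _ _ (swap_perm G t l) g2]
    exact (F.good (G :: l) g3).v_deg s t g1' g2' hd
  · intro χ
    obtain ⟨m₀, h0⟩ := E.avoid1 hl χ
    refine ⟨m₀, fun m hm => ?_⟩
    obtain ⟨G, h1, h2⟩ := h0 m hm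
    exact ⟨G, h2, h1⟩

end Step

/-- The cocycle in one degree. -/
def C0 (l : List S) : Γ → A := fun w => bd (E.D l) w

/-- The cocycle in two degrees. -/
noncomputable def C1 : List S → Γ → Γ → A := E.next 0 E.C0

/-- The cocycle in three degrees. -/
noncomputable def C2 : List S → Γ → Γ → Γ → A := E.next 1 E.C1

/-- The cocycle in four degrees. -/
noncomputable def C3 : List S → Γ → Γ → Γ → Γ → A := E.next 2 E.C2

theorem facts0 : E.Facts 0 E.C0 := by
  refine ⟨fun l hl => ⟨E.deg_mul, fun s t hs ht => E.sm_mul 0 s t l hs ht, ?_, ?_, ?_⟩, ?_⟩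
  · intro s t hs ht
    funext w
    show bd (E.D ((s * t) :: l)) w = bd (E.D (s :: l)) w + sh (E.deg s) (bd (E.D (t :: l)) w)
    unfold bd
    rw [E.D_mul s t l hs ht, map_add, map_sub, sh_comm w (E.deg s)]
    abel
  · intro s t hs ht hd
    refine (bd_coc (E.D (s :: l))).ext' (bd_coc (E.D (t :: l))) E.h fun χ => ?_
    obtain ⟨m₀, h0⟩ := E.avoid1 hl χ
    refine ⟨m₀, fun m hm => ?_⟩
    obtain ⟨G, h1, h2⟩ := h0 m hm
    rw [← h1]
    show E.D (s :: l) - sh (E.deg G) (E.D (s :: l)) = E.D (t :: l) - sh (E.deg G) (E.D (t :: l))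
    rw [← E.D_cone G _ hs, ← E.D_cone G _ ht, E.D_perm _ _ (swap_perm G s l),
      E.D_perm _ _ (swap_perm G t l), E.D_cone s _ h2, E.D_cone t _ h2, hd]
  · intro χ
    obtain ⟨m₀, h0⟩ := E.avoid1 hl χ
    refine ⟨m₀, fun m hm => ?_⟩
    obtain ⟨G, h1, h2⟩ := h0 m hm
    exact ⟨G, h2, h1⟩
  · intro l l' hp _
    funext w
    show bd (E.D l) w = bd (E.D l') w
    rw [E.D_perm l l' hp]

theorem facts1 : E.Facts 1 E.C1 := E.facts0.next

theorem facts2 : E.Facts 2 E.C2 := E.facts1.next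

theorem facts3 : E.Facts 3 E.C3 := E.facts2.next

/-- `C0` at the degree of any section is the torsion with this section added. -/
theorem C0_deg {l : List S} (hl : E.sm 0 l) (G : S) : E.C0 l (E.deg G) = E.D (G :: l) := by
  rw [E.D_cone G l hl]
  rfl

/-! ### Symmetry -/

section Symm

variable {V : Type*} [AddCommGroup V] [Shift Γ V]

/-- Two functions of two degrees which are cocycles in both variables and agree on good pairs
agree. -/
theorem ext2 (F G : Γ → Γ → V) (hF : IsCoc F) (hG : IsCoc G) (hF' : ∀ x, IsCoc (F x))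
    (hG' : ∀ x, IsCoc (G x))
    (H : ∀ χ : Γ, ∃ m₀ : ℕ, ∀ m : ℕ, m₀ ≤ m → ∀ χ' : Γ, ∃ m₁ : ℕ, ∀ m' : ℕ, m₁ ≤ m' →
      F (χ + m • E.h) (χ' + m' • E.h) = G (χ + m • E.h) (χ' + m' • E.h)) : F = G := by
  refine hF.ext' hG E.h fun χ => ?_
  obtain ⟨m₀, h0⟩ := H χ
  refine ⟨m₀, fun m hm => ?_⟩
  exact (hF' _).ext' (hG' _) E.h (h0 m hm)

/-- If `c (G :: l)` is a cocycle for all good `G`, then so is every value of `next`. -/
theorem next_coc' {j : ℕ} {c : List S → Γ → V} (F : E.Facts j c) {l : List S}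
    (hl : E.sm (j + 1) l) (hc : ∀ G, E.sm j (G :: l) → IsCoc (c (G :: l))) (x : Γ) :
    IsCoc (E.next j c l x) :=
  F.mem hl IsCoc (fun _ _ z ha hb => ha.sub (hb.shift z)) hc x

/-- The swap of the first two variables of `next (next c)`. -/
theorem next_swap {j : ℕ} {c : List S → V} (F : E.Facts j c) {l : List S}
    (hl : E.sm (j + 2) l) (hl' : E.sm (j + 1 + 1) l) (x y : Γ) :
    E.next (j + 1) (E.next j c) l x y = E.next (j + 1) (E.next j c) l y x := by
  have F1 := F.next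
  have c1 : IsCoc (E.next (j + 1) (E.next j c) l) := F1.coc hl'
  have c2 : ∀ z, IsCoc (E.next (j + 1) (E.next j c) l z) :=
    E.next_coc' F1 hl' (fun G hG => F.coc hG)
  have key := E.ext2 (E.next (j + 1) (E.next j c) l)
    (fun x y => E.next (j + 1) (E.next j c) l y x) c1 (fun x x' => by
      funext y
      exact c2 y x x') c2 (fun x y y' => by
      have := congrFun (c1 y y') x
      exact this) ?_
  · exact congrFun (congrFun key x) y
  · intro χ
    obtain ⟨m₀, h0⟩ := E.avoid1 hl' χ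
    refine ⟨m₀, fun m hm χ' => ?_⟩
    obtain ⟨G, h1, h2⟩ := h0 m hm
    obtain ⟨m₁, h3⟩ := E.avoid2 h2 hl' χ'
    refine ⟨m₁, fun m' hm' => ?_⟩
    obtain ⟨K, k1, k2, k3⟩ := h3 m' hm'
    have k2' := E.sm_perm _ _ _ (swap_perm K G l) k2
    rw [← h1, ← k1]
    show E.next (j + 1) (E.next j c) l (E.deg G) (E.deg K) =
      E.next (j + 1) (E.next j c) l (E.deg K) (E.deg G)
    rw [F1.val hl' h2, F1.val hl' k3, F.val h2 k2, F.val k3 k2']
    exact F.perm _ _ (swap_perm K G l) k2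

end Symm

/-- The symmetry of `C1`. -/
theorem C1_swap {l : List S} (hl : E.sm 1 l) (x y : Γ) : E.C1 l x y = E.C1 l y x := by
  have c1 : IsCoc (E.C1 l) := E.facts0.coc hl
  have c2 : ∀ z, IsCoc (E.C1 l z) :=
    E.next_coc' E.facts0 hl (fun G _ => bd_coc (E.D (G :: l)))
  have key := E.ext2 (E.C1 l) (fun x y => E.C1 l y x) c1 (fun x x' => by
      funext y
      exact c2 y x x') c2 (fun x y y' => by
      have := congrFun (c1 y y') x
      exact this) ?_
  · exact congrFun (congrFun key x) y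
  · intro χ
    obtain ⟨m₀, h0⟩ := E.avoid1 hl χ
    refine ⟨m₀, fun m hm χ' => ?_⟩
    obtain ⟨G, h1, h2⟩ := h0 m hm
    obtain ⟨m₁, h3⟩ := E.avoid1 hl χ'
    refine ⟨m₁, fun m' hm' => ?_⟩
    obtain ⟨K, k1, k3⟩ := h3 m' hm'
    rw [← h1, ← k1]
    show E.C1 l (E.deg G) (E.deg K) = E.C1 l (E.deg K) (E.deg G)
    have e1 : E.C1 l (E.deg G) = E.C0 (G :: l) := E.facts0.val hl h2
    have e2 : E.C1 l (E.deg K) = E.C0 (K :: l) := E.facts0.val hl k3
    rw [e1, e2, E.C0_deg h2, E.C0_deg k3]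
    exact E.D_perm _ _ (swap_perm K G l)

theorem C2_swap12 {l : List S} (hl : E.sm 2 l) (x y z : Γ) : E.C2 l x y z = E.C2 l y x z :=
  congrFun (E.next_swap E.facts0 hl hl x y) z

theorem C3_swap12 {l : List S} (hl : E.sm 3 l) (x y z w : Γ) :
    E.C3 l x y z w = E.C3 l y x z w :=
  congrFun (congrFun (E.next_swap E.facts1 hl hl x y) z) w

theorem C2_swap23 {l : List S} (hl : E.sm 2 l) (x y z : Γ) : E.C2 l x y z = E.C2 l x z y := by
  refine E.facts1.mem hl (fun f => ∀ y z, f y z = f z y) ?_ ?_ x y z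
  · intro a b x ha hb y z
    simp only [Pi.sub_apply, sh_apply]
    rw [ha, hb]
  · intro G hG y z
    exact E.C1_swap hG y z

theorem C3_swap23 {l : List S} (hl : E.sm 3 l) (x y z w : Γ) :
    E.C3 l x y z w = E.C3 l x z y w := by
  refine E.facts2.mem hl (fun f => ∀ y z w, f y z w = f z y w) ?_ ?_ x y z w
  · intro a b x ha hb y z w
    simp only [Pi.sub_apply, sh_apply]
    rw [ha, hb]
  · intro G hG y z w
    exact E.C2_swap12 hG y z w

theorem C3_swap34 {l : List S} (hl : E.sm 3 l) (x y z w : Γ) :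
    E.C3 l x y z w = E.C3 l x y w z := by
  refine E.facts2.mem hl (fun f => ∀ y z w, f y z w = f y w z) ?_ ?_ x y z w
  · intro a b x ha hb y z w
    simp only [Pi.sub_apply, sh_apply]
    rw [ha, hb]
  · intro G hG y z w
    exact E.C2_swap23 hG y z w

theorem C3_coc {l : List S} (hl : E.sm 3 l) (x x' y z w : Γ) :
    E.C3 l (x + x') y z w = E.C3 l x y z w + sh x (E.C3 l x' y z w) :=
  congrFun (congrFun (congrFun (E.facts2.coc hl x x') y) z) w

theorem C2_coc {l : List S} (hl : E.sm 2 l) (x x' y z : Γ) :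
    E.C2 l (x + x') y z = E.C2 l x y z + sh x (E.C2 l x' y z) :=
  congrFun (congrFun (E.facts1.coc hl x x') y) z

theorem C1_coc {l : List S} (hl : E.sm 1 l) (x x' y : Γ) :
    E.C1 l (x + x') y = E.C1 l x y + sh x (E.C1 l x' y) :=
  congrFun (E.facts0.coc hl x x') y

theorem C3_deg {l : List S} (hl : E.sm 3 l) {X : S} (hX : E.sm 2 (X :: l)) (y z w : Γ) :
    E.C3 l (E.deg X) y z w = E.C2 (X :: l) y z w :=
  congrFun (congrFun (congrFun (E.facts2.val hl hX) y) z) w

theorem C2_deg {l : List S} (hl : E.sm 2 l) {X : S} (hX : E.sm 1 (X :: l)) (y z : Γ) :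
    E.C2 l (E.deg X) y z = E.C1 (X :: l) y z :=
  congrFun (congrFun (E.facts1.val hl hX) y) z

theorem C1_deg {l : List S} (hl : E.sm 1 l) {X : S} (hX : E.sm 0 (X :: l)) (y : Γ) :
    E.C1 l (E.deg X) y = bd (E.D (X :: l)) y :=
  congrFun (E.facts0.val hl hX) y

/-- The main formula: `C3` on good triples. -/
theorem C3_triple {X Y Z : S} (h3 : E.sm 3 []) (h2 : E.sm 2 [Z]) (h1 : E.sm 1 [Y, Z])
    (h0 : E.sm 0 [X, Y, Z]) (w : Γ) :
    E.C3 [] (E.deg Z) (E.deg Y) (E.deg X) w = E.D [X, Y, Z] - sh w (E.D [X, Y, Z]) := by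
  rw [E.C3_deg h3 h2, E.C2_deg h2 h1, E.C1_deg h1 h0]
  rfl

end Eng

end Pool.Agent.SSF
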