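import Mathlib
import Pool.Agent.SSF.AlgChain
import Pool.Agent.SSF.Eng

/-!
# SSF, team S: the symbol of one module from the abstract torsion engine

`Eng.sy l f` is the class modulo doubles of `D (s² :: l) - D (a² :: l)`, `deg s = f + deg a`,
for a list `l` with `sm 1 l` (the sections of `l` cut out dimension at most zero).
-/

namespace Pool.Agent.SSF

namespace Eng

variable {Γ S A : Type*} [AddCommGroup Γ] [CommMonoid S] [AddCommGroup A] [Shift Γ A]
variable (E : Eng Γ S A)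

/-! ### general position -/

theorem avoid_pair (L : List (ℕ × List S)) (hL : ∀ p ∈ L, E.sm (p.1 + 1) p.2) (χ : Γ) :
    ∃ s t, E.deg s = χ + E.deg t ∧ (∀ p ∈ L, E.sm p.1 (s :: p.2)) ∧
      ∀ p ∈ L, E.sm p.1 (t :: p.2) := by
  obtain ⟨N, hN⟩ := E.avoid L hL χ
  obtain ⟨N', hN'⟩ := E.avoid L hL 0
  obtain ⟨s, hs, hs'⟩ := hN (max N N') (le_max_left _ _)
  obtain ⟨t, ht, ht'⟩ := hN' (max N N') (le_max_right _ _)
  exact ⟨s, t, by rw [hs, ht, zero_add], hs', ht'⟩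

/-! ### constants -/

theorem inv_of {l : List S} (hl : E.sm 1 l) {ψ : A}
    (hψ : ∀ u, E.sm 0 (u :: l) → sh (E.deg u) ψ = ψ) (x : Γ) : sh x ψ = ψ := by
  obtain ⟨s, t, hd, hs, ht⟩ := E.avoid_pair [(0, l)] (by simpa using hl) x
  have h1 := hψ s (by simpa using hs)
  have h2 := hψ t (by simpa using ht)
  rw [hd, sh_add, h2] at h1
  exact h1

theorem move {l : List S} {s t : S} (hs : E.sm 0 (s :: l)) (ht : E.sm 0 (t :: l)) :
    E.D (s :: l) - sh (E.deg t) (E.D (s :: l)) = E.D (t :: l) - sh (E.deg s) (E.D (t :: l)) := by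
  have h1 := E.D_mul _ _ _ hs ht
  have h2 := E.D_mul _ _ _ ht hs
  rw [mul_comm t s, h1] at h2
  rw [sub_eq_sub_iff_add_eq_add, h2]

/-- two sections of the same degree differ by a constant -/
theorem inv_sub {l : List S} (hl : E.sm 1 l) {s t : S} (hs : E.sm 0 (s :: l))
    (ht : E.sm 0 (t :: l)) (hd : E.deg s = E.deg t) (x : Γ) :
    sh x (E.D (s :: l) - E.D (t :: l)) = E.D (s :: l) - E.D (t :: l) := by
  refine E.inv_of hl (fun u hu => ?_) x
  have h1 := E.move hs hu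
  have h2 := E.move ht hu
  rw [hd, ← h2] at h1
  rw [map_sub]
  have h3 : sh (E.deg u) (E.D (s :: l)) = E.D (s :: l) -
      (E.D (t :: l) - sh (E.deg u) (E.D (t :: l))) := by
    rw [← h1]
    abel
  rw [h3]
  abel

/-! ### the symbol of a list of sections cutting out dimension zero -/

open Cocycle4 (two mem_two mk_eq add_self)

theorem D_sq {l : List S} {s : S} (hs : E.sm 0 (s :: l)) :
    E.D (s * s :: l) = E.D (s :: l) + sh (E.deg s) (E.D (s :: l)) := E.D_mul _ _ _ hs hs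

/-- the symbol is a constant -/
theorem sv_inv {l : List S} (hl : E.sm 1 l) {s a f} (hf : f + f = 0) (hs : E.sm 0 (s :: l))
    (ha : E.sm 0 (a :: l)) (hd : E.deg s = f + E.deg a) (x : Γ) :
    sh x (E.D (s * s :: l) - E.D (a * a :: l)) = E.D (s * s :: l) - E.D (a * a :: l) := by
  refine E.inv_sub hl (E.sm_mul _ _ _ _ hs hs) (E.sm_mul _ _ _ _ ha ha) ?_ x
  rw [E.deg_mul, E.deg_mul, hd]
  have : f + E.deg a + (f + E.deg a) = (f + f) + (E.deg a + E.deg a) := by abel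
  rw [this, hf, zero_add]

theorem sv_indep {l : List S} (hl : E.sm 1 l) {s a s' a' : S} {f : Γ} (hf : f + f = 0)
    (hs : E.sm 0 (s :: l)) (ha : E.sm 0 (a :: l)) (hd : E.deg s = f + E.deg a)
    (hs' : E.sm 0 (s' :: l)) (ha' : E.sm 0 (a' :: l)) (hd' : E.deg s' = f + E.deg a') :
    (E.D (s * s :: l) - E.D (a * a :: l)) - (E.D (s' * s' :: l) - E.D (a' * a' :: l)) ∈ two A := by
  have h2s : E.deg (s * s) = E.deg (a * a) := by
    rw [E.deg_mul, E.deg_mul, hd]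
    have : f + E.deg a + (f + E.deg a) = (f + f) + (E.deg a + E.deg a) := by abel
    rw [this, hf, zero_add]
  have hsa := E.sm_mul _ _ _ _ hs ha'
  have has := E.sm_mul _ _ _ _ ha hs'
  have hdd : E.deg (s * a') = E.deg (a * s') := by
    rw [E.deg_mul, E.deg_mul, hd, hd']
    abel
  have e1 : E.D (s * a' * (s * a') :: l) =
      E.D (s * s :: l) + sh (E.deg (s * s)) (E.D (a' * a' :: l)) := by
    rw [mul_mul_mul_comm]
    exact E.D_mul _ _ _ (E.sm_mul _ _ _ _ hs hs) (E.sm_mul _ _ _ _ ha' ha')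
  have e2 : E.D (a * s' * (a * s') :: l) =
      E.D (a * a :: l) + sh (E.deg (a * a)) (E.D (s' * s' :: l)) := by
    rw [mul_mul_mul_comm]
    exact E.D_mul _ _ _ (E.sm_mul _ _ _ _ ha ha) (E.sm_mul _ _ _ _ hs' hs')
  have e3 := E.sv_inv hl hf hs' ha' hd' (E.deg (a * a))
  rw [map_sub] at e3
  have e4 : E.D (s * s :: l) - E.D (a * a :: l) - (E.D (s' * s' :: l) - E.D (a' * a' :: l)) =
      E.D (s * a' * (s * a') :: l) - E.D (a * s' * (a * s') :: l) := by
    rw [e1, e2, h2s, ← e3]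
    abel
  rw [e4, E.D_sq hsa, E.D_sq has, hdd]
  have e5 := E.inv_sub hl hsa has hdd (E.deg (a * s'))
  rw [map_sub] at e5
  refine mem_two.2 ⟨E.D (s * a' :: l) - E.D (a * s' :: l), ?_⟩
  have e6 : E.D (s * a' :: l) + sh (E.deg (a * s')) (E.D (s * a' :: l)) -
      (E.D (a * s' :: l) + sh (E.deg (a * s')) (E.D (a * s' :: l))) =
      (E.D (s * a' :: l) - E.D (a * s' :: l)) + (sh (E.deg (a * s')) (E.D (s * a' :: l)) -
        sh (E.deg (a * s')) (E.D (a * s' :: l))) := by abel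
  rw [e6, e5]

open Classical in
/-- The symbol `sy l f`, the class of `D(s²) - D(a²)` modulo doubles, for `deg s = f + deg a`. -/
noncomputable def sy (l : List S) (f : Γ) : A ⧸ two A :=
  if H : ∃ p : S × S, E.sm 0 (p.1 :: l) ∧ E.sm 0 (p.2 :: l) ∧ E.deg p.1 = f + E.deg p.2 then
    QuotientAddGroup.mk' (two A)
      (E.D (H.choose.1 * H.choose.1 :: l) - E.D (H.choose.2 * H.choose.2 :: l))
  else 0

theorem sy_eq {l : List S} (hl : E.sm 1 l) {s a : S} {f : Γ} (hf : f + f = 0)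
    (hs : E.sm 0 (s :: l)) (ha : E.sm 0 (a :: l)) (hd : E.deg s = f + E.deg a) :
    E.sy l f = QuotientAddGroup.mk' (two A) (E.D (s * s :: l) - E.D (a * a :: l)) := by
  have H : ∃ p : S × S, E.sm 0 (p.1 :: l) ∧ E.sm 0 (p.2 :: l) ∧ E.deg p.1 = f + E.deg p.2 :=
    ⟨(s, a), hs, ha, hd⟩
  rw [sy, dif_pos H]
  obtain ⟨h1, h2, h3⟩ := H.choose_spec
  exact mk_eq (E.sv_indep hl hf h1 h2 h3 hs ha hd)

theorem sy_perm {l l' : List S} (hl : E.sm 1 l) (hp : l.Perm l') {f : Γ} (hf : f + f = 0) :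
    E.sy l f = E.sy l' f := by
  obtain ⟨s, a, hd, hs, ha⟩ := E.avoid_pair [(0, l)] (by simpa using hl) f
  have hs : E.sm 0 (s :: l) := by simpa using hs
  have ha : E.sm 0 (a :: l) := by simpa using ha
  have ps := hp.cons s
  have pa := hp.cons a
  rw [E.sy_eq hl hf hs ha hd,
    E.sy_eq (E.sm_perm _ _ _ hp hl) hf (E.sm_perm _ _ _ ps hs) (E.sm_perm _ _ _ pa ha) hd,
    E.D_perm _ _ (hp.cons (s * s)), E.D_perm _ _ (hp.cons (a * a))]

theorem sy_add {l : List S} (hl : E.sm 1 l) {f f' : Γ} (hf : f + f = 0) (hf' : f' + f' = 0) :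
    E.sy l (f + f') = E.sy l f + E.sy l f' := by
  obtain ⟨s, a, hd, hs, ha⟩ := E.avoid_pair [(0, l)] (by simpa using hl) f
  obtain ⟨s', a', hd', hs', ha'⟩ := E.avoid_pair [(0, l)] (by simpa using hl) f'
  have hs : E.sm 0 (s :: l) := by simpa using hs
  have ha : E.sm 0 (a :: l) := by simpa using ha
  have hs' : E.sm 0 (s' :: l) := by simpa using hs'
  have ha' : E.sm 0 (a' :: l) := by simpa using ha'
  have hff : (f + f') + (f + f') = 0 := by
    have : (f + f') + (f + f') = (f + f) + (f' + f') := by abel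
    rw [this, hf, hf', zero_add]
  rw [E.sy_eq hl hf hs ha hd, E.sy_eq hl hf' hs' ha' hd',
    E.sy_eq (s := s * s') (a := a * a') hl hff (E.sm_mul _ _ _ _ hs hs') (E.sm_mul _ _ _ _ ha ha')
      (by rw [E.deg_mul, E.deg_mul, hd, hd']; abel), ← map_add]
  congr 1
  have h2s : E.deg (s * s) = E.deg (a * a) := by
    rw [E.deg_mul, E.deg_mul, hd]
    have : f + E.deg a + (f + E.deg a) = (f + f) + (E.deg a + E.deg a) := by abel
    rw [this, hf, zero_add]
  rw [mul_mul_mul_comm, mul_mul_mul_comm a, E.D_mul _ _ _ (E.sm_mul _ _ _ _ hs hs) (E.sm_mul _ _ _ _ hs' hs'),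
    E.D_mul _ _ _ (E.sm_mul _ _ _ _ ha ha) (E.sm_mul _ _ _ _ ha' ha'), h2s]
  have e3 := E.sv_inv hl hf' hs' ha' hd' (E.deg (a * a))
  rw [map_sub] at e3
  rw [← e3]
  abel

theorem sy_mul {l : List S} {X X' : S} (h1 : E.sm 1 (X :: l)) (h2 : E.sm 1 (X' :: l)) {f : Γ}
    (hf : f + f = 0) : E.sy (X * X' :: l) f = E.sy (X :: l) f + E.sy (X' :: l) f := by
  obtain ⟨s, a, hd, hs, ha⟩ := E.avoid_pair [(0, X :: l), (0, X' :: l)] (by simp [h1, h2]) f
  have hs1 : E.sm 0 (s :: X :: l) := hs (0, X :: l) (by simp)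
  have hs2 : E.sm 0 (s :: X' :: l) := hs (0, X' :: l) (by simp)
  have ha1 : E.sm 0 (a :: X :: l) := ha (0, X :: l) (by simp)
  have ha2 : E.sm 0 (a :: X' :: l) := ha (0, X' :: l) (by simp)
  have sw : ∀ u v : S, (u :: v :: l).Perm (v :: u :: l) := fun u v => List.Perm.swap _ _ _
  have key : ∀ u : S, E.sm 0 (u :: X :: l) → E.sm 0 (u :: X' :: l) →
      E.sm 0 (u :: X * X' :: l) := fun u hu hu' =>
    E.sm_perm _ _ _ (sw _ _) (E.sm_mul _ _ _ _ (E.sm_perm _ _ _ (sw _ _) hu) (E.sm_perm _ _ _ (sw _ _) hu'))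
  have key2 : ∀ u : S, E.sm 0 (u :: X :: l) → E.sm 0 (u :: X' :: l) →
      E.D (u :: X * X' :: l) = E.D (u :: X :: l) + sh (E.deg X) (E.D (u :: X' :: l)) := by
    intro u hu hu'
    rw [E.D_perm _ _ (sw u (X * X')), E.D_mul _ _ _ (E.sm_perm _ _ _ (sw _ _) hu)
      (E.sm_perm _ _ _ (sw _ _) hu'), E.D_perm _ _ (sw u X), E.D_perm _ _ (sw u X')]
  rw [E.sy_eq h1 hf hs1 ha1 hd, E.sy_eq h2 hf hs2 ha2 hd,
    E.sy_eq (E.sm_mul _ _ _ _ h1 h2) hf (key s hs1 hs2) (key a ha1 ha2) hd, ← map_add]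
  congr 1
  rw [key2 (s * s) (E.sm_mul _ _ _ _ hs1 hs1) (E.sm_mul _ _ _ _ hs2 hs2),
    key2 (a * a) (E.sm_mul _ _ _ _ ha1 ha1) (E.sm_mul _ _ _ _ ha2 ha2)]
  have e3 := E.sv_inv h2 hf hs2 ha2 hd (E.deg X)
  rw [map_sub] at e3
  rw [← e3]
  abel

theorem sy_deg {l : List S} (hl : E.sm 2 l) {X X' : S} (h1 : E.sm 1 (X :: l))
    (h2 : E.sm 1 (X' :: l)) (hX : E.deg X = E.deg X') {f : Γ} (hf : f + f = 0) :
    E.sy (X :: l) f = E.sy (X' :: l) f := by
  obtain ⟨s, a, hd, hs, ha⟩ := E.avoid_pair [(0, X :: l), (0, X' :: l), (1, l)]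
    (by simp [h1, h2, hl]) f
  have hs1 : E.sm 0 (s :: X :: l) := hs (0, X :: l) (by simp)
  have hs2 : E.sm 0 (s :: X' :: l) := hs (0, X' :: l) (by simp)
  have hs3 : E.sm 1 (s :: l) := hs (1, l) (by simp)
  have ha1 : E.sm 0 (a :: X :: l) := ha (0, X :: l) (by simp)
  have ha2 : E.sm 0 (a :: X' :: l) := ha (0, X' :: l) (by simp)
  have ha3 : E.sm 1 (a :: l) := ha (1, l) (by simp)
  have sw : ∀ u v : S, (u :: v :: l).Perm (v :: u :: l) := fun u v => List.Perm.swap _ _ _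
  have key : ∀ u : S, E.sm 0 (u :: X :: l) → E.sm 0 (u :: X' :: l) → E.sm 1 (u :: l) →
      E.D (u * u :: X :: l) - E.D (u * u :: X' :: l) ∈ two A := by
    intro u hu hu' hu3
    refine mem_two.2 ⟨E.D (u :: X :: l) - E.D (u :: X' :: l), ?_⟩
    rw [E.D_sq hu, E.D_sq hu']
    have e := E.inv_sub hu3 (E.sm_perm _ _ _ (sw u X) hu) (E.sm_perm _ _ _ (sw u X') hu') hX (E.deg u)
    rw [← E.D_perm _ _ (sw u X), ← E.D_perm _ _ (sw u X'), map_sub] at e
    have e6 : E.D (u :: X :: l) + sh (E.deg u) (E.D (u :: X :: l)) -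
      (E.D (u :: X' :: l) + sh (E.deg u) (E.D (u :: X' :: l))) =
      (E.D (u :: X :: l) - E.D (u :: X' :: l)) + (sh (E.deg u) (E.D (u :: X :: l)) -
        sh (E.deg u) (E.D (u :: X' :: l))) := by abel
    rw [e6, e]
  rw [E.sy_eq h1 hf hs1 ha1 hd, E.sy_eq h2 hf hs2 ha2 hd]
  apply mk_eq
  have e7 : E.D (s * s :: X :: l) - E.D (a * a :: X :: l) -
      (E.D (s * s :: X' :: l) - E.D (a * a :: X' :: l)) =
      (E.D (s * s :: X :: l) - E.D (s * s :: X' :: l)) -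
        (E.D (a * a :: X :: l) - E.D (a * a :: X' :: l)) := by abel
  rw [e7]
  exact (two A).sub_mem (key s hs1 hs2 hs3) (key a ha1 ha2 ha3)

/-- if the list is good the symbol vanishes -/
theorem sy_red {l : List S} (hl : E.sm 0 l) (hl1 : E.sm 1 l) {f : Γ} (hf : f + f = 0) :
    E.sy l f = 0 := by
  obtain ⟨s, a, hd, hs, ha⟩ := E.avoid_pair [(0, l)] (by simpa using hl1) f
  have hs : E.sm 0 (s :: l) := by simpa using hs
  have ha : E.sm 0 (a :: l) := by simpa using ha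
  have h2s : E.deg (s * s) = E.deg (a * a) := by
    rw [E.deg_mul, E.deg_mul, hd]
    have : f + E.deg a + (f + E.deg a) = (f + f) + (E.deg a + E.deg a) := by abel
    rw [this, hf, zero_add]
  rw [E.sy_eq hl1 hf hs ha hd, E.D_cone _ _ hl, E.D_cone _ _ hl, h2s, sub_self, map_zero]

end Eng

end Pool.Agent.SSF
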