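import Mathlib
import Pool.Agent.SSF.SAbs

/-!
# SSF, team S: the trilinear symbol of a module of dimension at most two

For an engine `E` with `sm 3 []` we get a `Cocycle4` and `Eng.sb f x y : A / two A`, for all degrees
`x, y`: symmetric, bi-additive, additive in the 2-torsion degree `f`, `T2`, `U`, `NB`.
-/

namespace Pool.Agent.SSF

namespace Eng

variable {Γ S A : Type*} [AddCommGroup Γ] [CommMonoid S] [AddCommGroup A] [Shift Γ A]
variable (E : Eng Γ S A)

open Cocycle4 (two mem_two mk_eq add_self)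

/-- The symbol is a value of the cocycle `C1`. -/
theorem sy_eq_C1 {l : List S} (hl : E.sm 1 l) {f : Γ} (hf : f + f = 0) :
    E.sy l f = QuotientAddGroup.mk' (two A) (E.C1 l f f) := by
  obtain ⟨s, a, hd, hs, ha⟩ := E.avoid_pair [(0, l)] (by simpa using hl) f
  have hs : E.sm 0 (s :: l) := by simpa using hs
  have ha : E.sm 0 (a :: l) := by simpa using ha
  rw [E.sy_eq hl hf hs ha hd]
  apply mk_eq
  have e1 : E.C1 l f = E.C0 (s :: l) - sh f (E.C0 (a :: l)) :=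
    (E.facts0.good l hl).extn_eq hs ha hd
  have e2 : E.C1 l f f = (E.D (s :: l) - sh f (E.D (s :: l))) -
      sh f (E.D (a :: l) - sh f (E.D (a :: l))) := by
    rw [e1]
    rfl
  have e3 : sh f (sh f (E.D (a :: l))) = E.D (a :: l) := by
    rw [← sh_add, hf, sh_zero]
  rw [map_sub, e3] at e2
  have e4 := E.move hs ha
  have e5 := congrArg (sh f) e4
  rw [map_sub, map_sub, ← sh_add, ← sh_add] at e5
  have e6 : f + E.deg s = E.deg a := by
    rw [hd, ← add_assoc, hf, zero_add]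
  rw [e6, ← hd] at e5
  rw [E.D_sq hs, E.D_sq ha, e2]
  have e7 : sh (E.deg a) (E.D (a :: l)) = sh f (E.D (a :: l)) -
      (sh f (E.D (s :: l)) - sh (E.deg s) (E.D (s :: l))) := by
    rw [e5]
    abel
  rw [e7]
  refine mem_two.2 ⟨sh f (E.D (s :: l)) - E.D (a :: l), ?_⟩
  abel

/-- The four-cocycle of a module of dimension at most two. -/
noncomputable def coc4 (h3 : E.sm 3 []) : Cocycle4 Γ A where
  sh := fun x => sh x
  c := E.C3 []
  sh_zero := sh_zero
  sh_add := sh_add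
  cocycle := E.C3_coc h3
  swap12 := E.C3_swap12 h3
  swap23 := E.C3_swap23 h3
  swap34 := E.C3_swap34 h3

/-- The symbol of a module of dimension at most two, for all degrees `x, y`. -/
noncomputable def sb (f x y : Γ) : A ⧸ two A := QuotientAddGroup.mk' (two A) (E.C3 [] x y f f)

variable {E}

theorem sb_eq_Q (h3 : E.sm 3 []) (f x y : Γ) : E.sb f x y = (E.coc4 h3).Q f x y := by
  show QuotientAddGroup.mk' (two A) (E.C3 [] x y f f) =
    QuotientAddGroup.mk' (two A) (E.C3 [] f f x y)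
  rw [E.C3_swap23 h3, E.C3_swap12 h3, E.C3_swap34 h3, E.C3_swap23 h3]

theorem sb_comm (h3 : E.sm 3 []) (f x y : Γ) : E.sb f x y = E.sb f y x := by
  rw [sb_eq_Q h3, sb_eq_Q h3, Cocycle4.Q_symm]

theorem sb_add_right (h3 : E.sm 3 []) {f : Γ} (hf : f + f = 0) (x y y' : Γ) :
    E.sb f x (y + y') = E.sb f x y + E.sb f x y' := by
  rw [sb_eq_Q h3, sb_eq_Q h3, sb_eq_Q h3, Cocycle4.Q_add_right _ hf]

theorem sb_add_left (h3 : E.sm 3 []) {f : Γ} (hf : f + f = 0) (x x' y : Γ) :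
    E.sb f (x + x') y = E.sb f x y + E.sb f x' y := by
  rw [sb_eq_Q h3, sb_eq_Q h3, sb_eq_Q h3, Cocycle4.Q_add_left _ hf]

theorem sb_add (h3 : E.sm 3 []) {f f' : Γ} (hf : f + f = 0) (x y : Γ) :
    E.sb (f + f') x y = E.sb f x y + E.sb f' x y := by
  have key : ∀ C : Cocycle4 Γ A, C.Q (f + f') x y = C.Q f x y + C.Q f' x y := by
    intro C
    unfold Cocycle4.Q
    rw [← map_add]
    apply mk_eq
    have e1 : C.c (f + f') (f + f') x y =
        C.c f (f + f') x y + C.sh f (C.c f' (f + f') x y) := C.cocycle _ _ _ _ _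
    have e2 : ∀ g : Γ, C.c g (f + f') x y = C.c g f x y + C.sh f (C.c g f' x y) := by
      intro g
      rw [C.swap12 g (f + f'), C.cocycle, C.swap12 f g, C.swap12 f' g]
    have e3 : C.sh f (C.sh f (C.c f' f' x y)) = C.c f' f' x y := by
      rw [← C.sh_add, hf, C.sh_zero]
    rw [e1, e2, e2, map_add, e3, C.swap12 f' f]
    refine mem_two.2 ⟨C.sh f (C.c f f' x y), ?_⟩
    abel
  rw [sb_eq_Q h3, sb_eq_Q h3, sb_eq_Q h3, key]

theorem sb_U (h3 : E.sm 3 []) (f g : Γ) : E.sb f g g = E.sb g f f := by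
  rw [sb_eq_Q h3, sb_eq_Q h3, Cocycle4.Q_U]

theorem sb_T2 (h3 : E.sm 3 []) (hA : ∀ a : A, a + a = 0 → a ∈ two A) {f g : Γ} (hf : f + f = 0)
    (hg : g + g = 0) (x : Γ) : E.sb f g x = E.sb g f x := by
  rw [sb_eq_Q h3, sb_eq_Q h3, Cocycle4.Q_rec _ hA hf hg]

/-- The value on good sections. -/
theorem sb_deg (h3 : E.sm 3 []) {X Y : S} (hX : E.sm 2 [X]) (hXY : E.sm 1 [Y, X]) {f : Γ}
    (hf : f + f = 0) : E.sb f (E.deg X) (E.deg Y) = E.sy [Y, X] f := by
  rw [E.sy_eq_C1 hXY hf]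
  unfold sb
  rw [E.C3_deg h3 hX, E.C2_deg hX hXY]

/-- The value on good sections, explicitly. -/
theorem sb_val (h3 : E.sm 3 []) {X Y s a : S} (hX : E.sm 2 [X]) (hXY : E.sm 1 [Y, X]) {f : Γ}
    (hf : f + f = 0) (hs : E.sm 0 [s, Y, X]) (ha : E.sm 0 [a, Y, X])
    (hd : E.deg s = f + E.deg a) : E.sb f (E.deg X) (E.deg Y) =
      QuotientAddGroup.mk' (two A) (E.D [s * s, Y, X] - E.D [a * a, Y, X]) := by
  rw [sb_deg h3 hX hXY hf, E.sy_eq hXY hf hs ha hd]

/-- Vanishing on generic degrees implies vanishing. -/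
theorem sb_zero_of (h3 : E.sm 3 []) {f : Γ} (hf : f + f = 0) (L : List (ℕ × List S))
    (hL : ∀ p ∈ L, E.sm (p.1 + 1) p.2) (y : Γ)
    (H : ∀ X, (∀ p ∈ L, E.sm p.1 (X :: p.2)) → E.sb f (E.deg X) y = 0) (x : Γ) :
    E.sb f x y = 0 := by
  obtain ⟨X, X', hX, a1, a2⟩ := E.avoid_pair L hL x
  have k1 := H X a1
  rw [hX, sb_add_left h3 hf, H X' a2, add_zero] at k1
  exact k1

/-- The symbol vanishes for modules of dimension at most one. -/
theorem sb_low (h3 : E.sm 3 []) (h2 : E.sm 2 []) {f : Γ} (hf : f + f = 0) (x y : Γ) :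
    E.sb f x y = 0 := by
  refine sb_zero_of h3 hf [(2, []), (1, [])] (by simp [h3, h2]) y (fun X hX => ?_) x
  have b1 : E.sm 2 [X] := hX (2, []) (by simp)
  have b2 : E.sm 1 [X] := hX (1, []) (by simp)
  rw [sb_comm h3]
  refine sb_zero_of h3 hf [(1, [X]), (0, [X])] (by simp [b1, b2]) _ (fun Y hY => ?_) y
  have c1 : E.sm 1 [Y, X] := hY (1, [X]) (by simp)
  have c2 : E.sm 0 [Y, X] := hY (0, [X]) (by simp)
  rw [sb_comm h3, sb_deg h3 b1 c1 hf, E.sy_red c2 c1 hf]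

/-- If one section `y` already has no zero the symbol vanishes in its degree. -/
theorem sb_unit (h3 : E.sm 3 []) {y : S} (h2 : E.sm 2 [y]) (h0 : E.sm 0 [y]) {f : Γ}
    (hf : f + f = 0) (x : Γ) : E.sb f x (E.deg y) = 0 := by
  refine sb_zero_of h3 hf [(1, [y])] (by simpa using h2) _ (fun X hX => ?_) x
  have c1 : E.sm 1 [X, y] := hX (1, [y]) (by simp)
  rw [sb_comm h3, sb_deg h3 h2 c1 hf, E.sy_red (E.sm_cons _ _ _ h0) c1 hf]

/-- (NB): sections `x`, `y` without common zero, each in general position or vanishing on the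
module. -/
theorem sb_NB (h3 : E.sm 3 []) (hm : ∀ j l, E.sm j l → E.sm (j + 1) l) {x y : S}
    (hxy : E.sm 0 [x, y]) (hx : E.sm 2 [x] ∨ ∀ l, E.sm 0 (x :: l) → E.sm 0 l)
    (hy : E.sm 2 [y] ∨ ∀ l, E.sm 0 (y :: l) → E.sm 0 l) {f : Γ} (hf : f + f = 0) :
    E.sb f (E.deg x) (E.deg y) = 0 := by
  have hyx : E.sm 0 [y, x] := E.sm_perm _ _ _ (List.Perm.swap _ _ _) hxy
  rcases hx with hx | hx
  · rcases hy with hy | hy
    · have h1 : E.sm 1 [y, x] := hm _ _ hyx
      rw [sb_deg h3 hx h1 hf, E.sy_red hyx h1 hf]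
    · have h0 : E.sm 0 [x] := hy _ hyx
      rw [sb_comm h3]
      exact sb_unit h3 hx h0 hf _
  · have h0 : E.sm 0 [y] := hx _ hxy
    exact sb_unit h3 (hm _ _ (hm _ _ h0)) h0 hf _

end Eng

end Pool.Agent.SSF
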