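import Mathlib
import Pool.Agent.SSF.SCoc

/-!
# SSF, team S: germs of functions of the degree

`Germ Γ V h` is the group of functions `Γ → V` modulo those which vanish at `χ + n h` for `n`
large, for every `χ`.
-/

namespace Pool.Agent.SSF

open Cocycle4 (two mem_two mk_eq add_self)

/-- Functions which vanish in high degrees. -/
def evz (Γ V : Type*) [AddCommGroup Γ] [AddCommGroup V] (h : Γ) : AddSubgroup (Γ → V) where
  carrier := {φ | ∀ χ : Γ, ∃ N : ℕ, ∀ n : ℕ, N ≤ n → φ (χ + n • h) = 0}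
  zero_mem' := fun χ => ⟨0, fun n _ => rfl⟩
  add_mem' := by
    intro φ ψ hφ hψ χ
    obtain ⟨N, hN⟩ := hφ χ
    obtain ⟨N', hN'⟩ := hψ χ
    refine ⟨max N N', fun n hn => ?_⟩
    rw [Pi.add_apply, hN n (le_trans (le_max_left _ _) hn),
      hN' n (le_trans (le_max_right _ _) hn), add_zero]
  neg_mem' := by
    intro φ hφ χ
    obtain ⟨N, hN⟩ := hφ χ
    exact ⟨N, fun n hn => by rw [Pi.neg_apply, hN n hn, neg_zero]⟩

/-- Germs of functions of the degree in the direction `h`. -/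
def Germ (Γ V : Type*) [AddCommGroup Γ] [AddCommGroup V] (h : Γ) : Type _ := (Γ → V) ⧸ evz Γ V h

namespace Germ

variable {Γ V : Type*} [AddCommGroup Γ] [AddCommGroup V] {h : Γ}

instance : AddCommGroup (Germ Γ V h) := inferInstanceAs (AddCommGroup ((Γ → V) ⧸ evz Γ V h))

/-- The germ of a function. -/
def mk (h : Γ) : (Γ → V) →+ Germ Γ V h := QuotientAddGroup.mk' (evz Γ V h)

theorem mk_surj (a : Germ Γ V h) : ∃ φ : Γ → V, mk h φ = a :=
  QuotientAddGroup.mk'_surjective (evz Γ V h) a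

theorem mk_eq_zero {φ : Γ → V} :
    mk h φ = 0 ↔ ∀ χ : Γ, ∃ N : ℕ, ∀ n : ℕ, N ≤ n → φ (χ + n • h) = 0 :=
  QuotientAddGroup.eq_zero_iff φ

theorem mk_eq_mk {φ ψ : Γ → V} :
    mk h φ = mk h ψ ↔ ∀ χ : Γ, ∃ N : ℕ, ∀ n : ℕ, N ≤ n → φ (χ + n • h) = ψ (χ + n • h) := by
  rw [← sub_eq_zero, ← map_sub, mk_eq_zero]
  simp only [Pi.sub_apply, sub_eq_zero]

/-- The translation of a function. -/
def shf (x : Γ) : (Γ → V) →+ (Γ → V) where
  toFun := fun φ n => φ (n - x)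
  map_zero' := rfl
  map_add' := fun _ _ => rfl

theorem shf_mem (x : Γ) {φ : Γ → V} (hφ : φ ∈ evz Γ V h) : shf x φ ∈ evz Γ V h := by
  intro χ
  obtain ⟨N, hN⟩ := hφ (χ - x)
  refine ⟨N, fun n hn => ?_⟩
  show φ (χ + n • h - x) = 0
  rw [add_sub_right_comm]
  exact hN n hn

instance : Shift Γ (Germ Γ V h) where
  sh := fun x => QuotientAddGroup.map (evz Γ V h) (evz Γ V h) (shf x) (fun _ hφ => shf_mem x hφ)
  sh_zero := by
    intro a
    obtain ⟨φ, rfl⟩ := mk_surj a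
    show mk h (shf 0 φ) = mk h φ
    congr 1
    funext n
    show φ (n - 0) = φ n
    rw [sub_zero]
  sh_add := by
    intro x y a
    obtain ⟨φ, rfl⟩ := mk_surj a
    show mk h (shf (x + y) φ) = mk h (shf x (shf y φ))
    congr 1
    funext n
    show φ (n - (x + y)) = φ (n - x - y)
    rw [sub_sub]

theorem sh_mk (x : Γ) (φ : Γ → V) : sh x (mk h φ) = mk h (fun n => φ (n - x)) := rfl

/-- Constant germs. -/
def const (h : Γ) : V →+ Germ Γ V h :=
  (mk h).comp (Pi.constAddMonoidHom Γ V)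

theorem const_apply (v : V) : const h v = mk h (fun _ : Γ => v) := rfl

theorem const_inj {v w : V} (e : const (Γ := Γ) h v = const h w) : v = w := by
  rw [const_apply, const_apply, mk_eq_mk] at e
  obtain ⟨N, hN⟩ := e 0
  exact hN N le_rfl

/-- Invariant germs are constant. -/
theorem exists_const {a : Germ Γ V h} (ha : ∀ x : Γ, sh x a = a) : ∃ v : V, a = const h v := by
  obtain ⟨φ, rfl⟩ := mk_surj a
  have h1 := ha h
  rw [sh_mk, mk_eq_mk] at h1
  obtain ⟨N, hN⟩ := h1 0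
  refine ⟨φ (0 + N • h), ?_⟩
  rw [const_apply, mk_eq_mk]
  intro χ
  have h2 := ha (-χ)
  rw [sh_mk, mk_eq_mk] at h2
  obtain ⟨M, hM⟩ := h2 0
  have h3 : ∀ n : ℕ, N ≤ n → φ (0 + n • h) = φ (0 + N • h) := by
    intro n hn
    induction n, hn using Nat.le_induction with
    | base => rfl
    | succ n hn ih =>
      rw [← ih, ← hN (n + 1) (le_trans hn (Nat.le_succ n))]
      congr 1
      rw [succ_nsmul]
      abel
  refine ⟨max N M, fun n hn => ?_⟩
  rw [← h3 n (le_trans (le_max_left _ _) hn), ← hM n (le_trans (le_max_right _ _) hn)]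
  congr 1
  abel

theorem const_mem_two {v : V} (hv : const (Γ := Γ) h v ∈ two (Germ Γ V h)) : v ∈ two V := by
  obtain ⟨b, hb⟩ := mem_two.1 hv
  obtain ⟨φ, rfl⟩ := mk_surj b
  rw [const_apply, ← map_add, mk_eq_mk] at hb
  obtain ⟨N, hN⟩ := hb 0
  exact mem_two.2 ⟨φ (0 + N • h), hN N le_rfl⟩

/-- If elements killed by two are doubles in `V`, the same holds for germs. -/
theorem two_of (hV : ∀ v : V, v + v = 0 → v ∈ two V) (a : Germ Γ V h) (ha : a + a = 0) :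
    a ∈ two (Germ Γ V h) := by
  classical
  obtain ⟨φ, rfl⟩ := mk_surj a
  have hH : ∀ n : Γ, ∃ w : V, φ n + φ n = 0 → φ n = w + w := by
    intro n
    by_cases hn : φ n + φ n = 0
    · obtain ⟨w, hw⟩ := mem_two.1 (hV _ hn)
      exact ⟨w, fun _ => hw⟩
    · exact ⟨0, fun h' => absurd h' hn⟩
  choose ψ hψ using hH
  refine mem_two.2 ⟨mk h ψ, ?_⟩
  rw [← map_add, mk_eq_mk]
  intro χ
  rw [← map_add, mk_eq_zero] at ha
  obtain ⟨N, hN⟩ := ha χ
  exact ⟨N, fun n hn => hψ _ (hN n hn)⟩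

/-- The classes of constants modulo doubles. -/
def cq (h : Γ) : V ⧸ two V →+ Germ Γ V h ⧸ two (Germ Γ V h) :=
  QuotientAddGroup.map (two V) (two (Germ Γ V h)) (const h) (by
    intro v hv
    obtain ⟨w, rfl⟩ := mem_two.1 hv
    exact mem_two.2 ⟨const h w, by rw [map_add]⟩)

theorem cq_mk (v : V) : cq (Γ := Γ) h (QuotientAddGroup.mk' (two V) v) =
    QuotientAddGroup.mk' (two (Germ Γ V h)) (const h v) := rfl

theorem cq_inj : Function.Injective (cq (Γ := Γ) (V := V) h) := by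
  rw [injective_iff_map_eq_zero]
  intro q hq
  obtain ⟨v, rfl⟩ := QuotientAddGroup.mk'_surjective (two V) q
  rw [cq_mk] at hq
  exact (QuotientAddGroup.eq_zero_iff _).2 (const_mem_two ((QuotientAddGroup.eq_zero_iff _).1 hq))

end Germ

namespace Eng

variable {Γ S V : Type*} [AddCommGroup Γ] [CommMonoid S] [AddCommGroup V] {h : Γ}
variable {E : Eng Γ S (Germ Γ V h)}

/-- The symbol of a good list is the class of a constant. -/
theorem sy_range {l : List S} (hl : E.sm 1 l) {f : Γ} (hf : f + f = 0) :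
    ∃ v : V ⧸ two V, E.sy l f = Germ.cq h v := by
  obtain ⟨s, a, hd, hs, ha⟩ := E.avoid_pair [(0, l)] (by simpa using hl) f
  have hs : E.sm 0 (s :: l) := by simpa using hs
  have ha : E.sm 0 (a :: l) := by simpa using ha
  obtain ⟨v, hv⟩ := Germ.exists_const (E.sv_inv hl hf hs ha hd)
  refine ⟨QuotientAddGroup.mk' (two V) v, ?_⟩
  rw [Germ.cq_mk, ← hv, E.sy_eq hl hf hs ha hd]

/-- The symbol is the class of a constant. -/
theorem sb_range (h3 : E.sm 3 []) {f : Γ} (hf : f + f = 0) (x y : Γ) :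
    ∃ v : V ⧸ two V, E.sb f x y = Germ.cq h v := by
  obtain ⟨X, X', hX, a1, a2⟩ := E.avoid_pair [(2, [])] (by simp [h3]) x
  have b1 : E.sm 2 [X] := a1 (2, []) (by simp)
  have b2 : E.sm 2 [X'] := a2 (2, []) (by simp)
  obtain ⟨Y, Y', hY, c1, c2⟩ := E.avoid_pair [(1, [X]), (1, [X'])] (by simp [b1, b2]) y
  have key : ∀ X Y : S, E.sm 2 [X] → E.sm 1 [Y, X] →
      ∃ v : V ⧸ two V, E.sb f (E.deg X) (E.deg Y) = Germ.cq h v := by
    intro X Y h2 h1
    rw [sb_deg h3 h2 h1 hf]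
    exact sy_range h1 hf
  obtain ⟨v1, h1⟩ := key X Y b1 (c1 (1, [X]) (by simp))
  obtain ⟨v2, h2⟩ := key X Y' b1 (c2 (1, [X]) (by simp))
  obtain ⟨v3, h4⟩ := key X' Y b2 (c1 (1, [X']) (by simp))
  obtain ⟨v4, h5⟩ := key X' Y' b2 (c2 (1, [X']) (by simp))
  refine ⟨v1 - v2 - (v3 - v4), ?_⟩
  rw [map_sub, map_sub, map_sub, ← h1, ← h2, ← h4, ← h5, hX, hY, sb_add_left h3 hf,
    sb_add_left h3 hf, sb_add_right h3 hf, sb_add_right h3 hf]
  abel

open Classical in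
/-- The symbol with values in `V / 2`. -/
noncomputable def vb (E : Eng Γ S (Germ Γ V h)) (f x y : Γ) : V ⧸ two V :=
  if H : ∃ v : V ⧸ two V, E.sb f x y = Germ.cq h v then H.choose else 0

theorem cq_vb (h3 : E.sm 3 []) {f : Γ} (hf : f + f = 0) (x y : Γ) :
    Germ.cq h (E.vb f x y) = E.sb f x y := by
  have H := sb_range h3 hf x y
  unfold vb
  rw [dif_pos H]
  exact H.choose_spec.symm

theorem vb_unique (h3 : E.sm 3 []) {f : Γ} (hf : f + f = 0) {x y : Γ} {v : V ⧸ two V}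
    (hv : E.sb f x y = Germ.cq h v) : E.vb f x y = v :=
  Germ.cq_inj ((cq_vb h3 hf x y).trans hv)

theorem vb_comm (h3 : E.sm 3 []) {f : Γ} (hf : f + f = 0) (x y : Γ) :
    E.vb f x y = E.vb f y x :=
  vb_unique h3 hf (by rw [sb_comm h3, cq_vb h3 hf])

theorem vb_add_left (h3 : E.sm 3 []) {f : Γ} (hf : f + f = 0) (x x' y : Γ) :
    E.vb f (x + x') y = E.vb f x y + E.vb f x' y :=
  vb_unique h3 hf (by rw [sb_add_left h3 hf, map_add, cq_vb h3 hf, cq_vb h3 hf])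

theorem vb_add_right (h3 : E.sm 3 []) {f : Γ} (hf : f + f = 0) (x y y' : Γ) :
    E.vb f x (y + y') = E.vb f x y + E.vb f x y' :=
  vb_unique h3 hf (by rw [sb_add_right h3 hf, map_add, cq_vb h3 hf, cq_vb h3 hf])

theorem two_tors {f f' : Γ} (hf : f + f = 0) (hf' : f' + f' = 0) : (f + f') + (f + f') = 0 := by
  have : (f + f') + (f + f') = (f + f) + (f' + f') := by abel
  rw [this, hf, hf', zero_add]

theorem vb_add (h3 : E.sm 3 []) {f f' : Γ} (hf : f + f = 0) (hf' : f' + f' = 0) (x y : Γ) :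
    E.vb (f + f') x y = E.vb f x y + E.vb f' x y :=
  vb_unique h3 (two_tors hf hf')
    (by rw [sb_add h3 hf, map_add, cq_vb h3 hf, cq_vb h3 hf'])

theorem vb_U (h3 : E.sm 3 []) {f g : Γ} (hf : f + f = 0) (hg : g + g = 0) :
    E.vb f g g = E.vb g f f :=
  vb_unique h3 hf (by rw [sb_U h3, cq_vb h3 hg])

theorem vb_T2 (h3 : E.sm 3 []) (hV : ∀ v : V, v + v = 0 → v ∈ two V) {f g : Γ}
    (hf : f + f = 0) (hg : g + g = 0) (x : Γ) : E.vb f g x = E.vb g f x :=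
  vb_unique h3 hf (by rw [sb_T2 h3 (Germ.two_of hV) hf hg, cq_vb h3 hg])

theorem vb_low (h3 : E.sm 3 []) (h2 : E.sm 2 []) {f : Γ} (hf : f + f = 0) (x y : Γ) :
    E.vb f x y = 0 :=
  vb_unique h3 hf (by rw [sb_low h3 h2 hf, map_zero])

theorem vb_NB (h3 : E.sm 3 []) (hm : ∀ j l, E.sm j l → E.sm (j + 1) l) {x y : S}
    (hxy : E.sm 0 [x, y]) (hx : E.sm 2 [x] ∨ ∀ l, E.sm 0 (x :: l) → E.sm 0 l)
    (hy : E.sm 2 [y] ∨ ∀ l, E.sm 0 (y :: l) → E.sm 0 l) {f : Γ} (hf : f + f = 0) :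
    E.vb f (E.deg x) (E.deg y) = 0 :=
  vb_unique h3 hf (by rw [sb_NB h3 hm hxy hx hy hf, map_zero])

/-- The value on good sections: the difference of torsions is a constant germ. -/
theorem vb_val (h3 : E.sm 3 []) {X Y s a : S} (hX : E.sm 2 [X]) (hXY : E.sm 1 [Y, X]) {f : Γ}
    (hf : f + f = 0) (hs : E.sm 0 [s, Y, X]) (ha : E.sm 0 [a, Y, X])
    (hd : E.deg s = f + E.deg a) :
    ∃ v : V, E.D [s * s, Y, X] - E.D [a * a, Y, X] = Germ.const h v ∧
      E.vb f (E.deg X) (E.deg Y) = QuotientAddGroup.mk' (two V) v := by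
  obtain ⟨v, hv⟩ := Germ.exists_const (E.sv_inv hXY hf hs ha hd)
  refine ⟨v, hv, vb_unique h3 hf ?_⟩
  rw [sb_val h3 hX hXY hf hs ha hd, hv, Germ.cq_mk]

/-- The value on good sections, from the values of the torsion in one high degree. -/
theorem vb_eval (h3 : E.sm 3 []) {X Y s a : S} (hX : E.sm 2 [X]) (hXY : E.sm 1 [Y, X]) {f : Γ}
    (hf : f + f = 0) (hs : E.sm 0 [s, Y, X]) (ha : E.sm 0 [a, Y, X])
    (hd : E.deg s = f + E.deg a) {v : V} (χ : Γ) {φ ψ : Γ → V}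
    (hφ : E.D [s * s, Y, X] = Germ.mk h φ) (hψ : E.D [a * a, Y, X] = Germ.mk h ψ)
    (hv : ∀ N : ℕ, ∃ n : ℕ, N ≤ n ∧ φ (χ + n • h) - ψ (χ + n • h) = v) :
    E.vb f (E.deg X) (E.deg Y) = QuotientAddGroup.mk' (two V) v := by
  obtain ⟨w, hw, hw'⟩ := vb_val h3 hX hXY hf hs ha hd
  rw [hw']
  rw [hφ, hψ, ← map_sub, Germ.const_apply, Germ.mk_eq_mk] at hw
  obtain ⟨N, hN⟩ := hw χ
  obtain ⟨n, hn, hn'⟩ := hv N
  rw [← hn', ← hN n hn]
  rfl

end Eng

end Pool.Agent.SSF
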