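import Mathlib
import Pool.Agent.SSF.Germ

/-!
# SSF, team S: the symbol of a module of dimension at most one
-/

namespace Pool.Agent.SSF

open Cocycle4 (two mem_two mk_eq add_self)

namespace Eng

section

variable {Γ S A : Type*} [AddCommGroup Γ] [CommMonoid S] [AddCommGroup A] [Shift Γ A]
variable (E : Eng Γ S A)

/-- The three-cocycle of a module of dimension at most one. -/
noncomputable def coc3 (h2 : E.sm 2 []) : Cocycle3 Γ A where
  sh := fun x => sh x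
  c := E.C2 []
  sh_zero := sh_zero
  cocycle := E.C2_coc h2
  swap12 := E.C2_swap12 h2
  swap23 := E.C2_swap23 h2

/-- The symbol of a module of dimension at most one, for all degrees `x`. -/
noncomputable def sb1 (f x : Γ) : A ⧸ two A := QuotientAddGroup.mk' (two A) (E.C2 [] x f f)

variable {E}

theorem sb1_eq_R (h2 : E.sm 2 []) (f x : Γ) : E.sb1 f x = (E.coc3 h2).R f x := by
  show QuotientAddGroup.mk' (two A) (E.C2 [] x f f) =
    QuotientAddGroup.mk' (two A) (E.C2 [] f f x)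
  rw [E.C2_swap12 h2, E.C2_swap23 h2]

theorem sb1_add (h2 : E.sm 2 []) {f : Γ} (hf : f + f = 0) (x x' : Γ) :
    E.sb1 f (x + x') = E.sb1 f x + E.sb1 f x' := by
  rw [sb1_eq_R h2, sb1_eq_R h2, sb1_eq_R h2, Cocycle3.R_add _ hf]

theorem sb1_deg (h2 : E.sm 2 []) {X : S} (hX : E.sm 1 [X]) {f : Γ} (hf : f + f = 0) :
    E.sb1 f (E.deg X) = E.sy [X] f := by
  rw [E.sy_eq_C1 hX hf]
  unfold sb1
  rw [E.C2_deg h2 hX]

end

variable {Γ S V : Type*} [AddCommGroup Γ] [CommMonoid S] [AddCommGroup V] {h : Γ}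
variable {E : Eng Γ S (Germ Γ V h)}

theorem sb1_range (h2 : E.sm 2 []) {f : Γ} (hf : f + f = 0) (x : Γ) :
    ∃ v : V ⧸ two V, E.sb1 f x = Germ.cq h v := by
  obtain ⟨X, X', hX, a1, a2⟩ := E.avoid_pair [(1, [])] (by simp [h2]) x
  have b1 : E.sm 1 [X] := a1 (1, []) (by simp)
  have b2 : E.sm 1 [X'] := a2 (1, []) (by simp)
  obtain ⟨v1, h1⟩ := sy_range b1 hf
  obtain ⟨v2, h3⟩ := sy_range b2 hf
  refine ⟨v1 - v2, ?_⟩
  rw [map_sub, ← h1, ← h3, ← sb1_deg h2 b1 hf, ← sb1_deg h2 b2 hf, hX, sb1_add h2 hf]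
  abel

open Classical in
/-- The one-dimensional symbol with values in `V / 2`. -/
noncomputable def vb1 (E : Eng Γ S (Germ Γ V h)) (f x : Γ) : V ⧸ two V :=
  if H : ∃ v : V ⧸ two V, E.sb1 f x = Germ.cq h v then H.choose else 0

theorem cq_vb1 (h2 : E.sm 2 []) {f : Γ} (hf : f + f = 0) (x : Γ) :
    Germ.cq h (E.vb1 f x) = E.sb1 f x := by
  have H := sb1_range h2 hf x
  unfold vb1
  rw [dif_pos H]
  exact H.choose_spec.symm

theorem vb1_unique (h2 : E.sm 2 []) {f : Γ} (hf : f + f = 0) {x : Γ} {v : V ⧸ two V}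
    (hv : E.sb1 f x = Germ.cq h v) : E.vb1 f x = v :=
  Germ.cq_inj ((cq_vb1 h2 hf x).trans hv)

theorem vb1_add (h2 : E.sm 2 []) {f : Γ} (hf : f + f = 0) (x x' : Γ) :
    E.vb1 f (x + x') = E.vb1 f x + E.vb1 f x' :=
  vb1_unique h2 hf (by rw [sb1_add h2 hf, map_add, cq_vb1 h2 hf, cq_vb1 h2 hf])

/-- The value on good sections: the difference of torsions is a constant germ. -/
theorem vb1_val (h2 : E.sm 2 []) {X s a : S} (hX : E.sm 1 [X]) {f : Γ}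
    (hf : f + f = 0) (hs : E.sm 0 [s, X]) (ha : E.sm 0 [a, X])
    (hd : E.deg s = f + E.deg a) :
    ∃ v : V, E.D [s * s, X] - E.D [a * a, X] = Germ.const h v ∧
      E.vb1 f (E.deg X) = QuotientAddGroup.mk' (two V) v := by
  obtain ⟨v, hv⟩ := Germ.exists_const (E.sv_inv hX hf hs ha hd)
  refine ⟨v, hv, vb1_unique h2 hf ?_⟩
  rw [sb1_deg h2 hX hf, E.sy_eq hX hf hs ha hd, hv, Germ.cq_mk]

/-! ### degrees modulo doubles -/

theorem vb1_double (h2 : E.sm 2 []) {f : Γ} (hf : f + f = 0) (x z : Γ) (m : ℕ) :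
    E.vb1 f (x + (2 * m) • z) = E.vb1 f x := by
  rw [mul_nsmul, two_nsmul, nsmul_add, vb1_add h2 hf, vb1_add h2 hf, add_self, add_zero]

theorem vb_double_left (h3 : E.sm 3 []) {f : Γ} (hf : f + f = 0) (x y z : Γ) (m : ℕ) :
    E.vb f (x + (2 * m) • z) y = E.vb f x y := by
  rw [mul_nsmul, two_nsmul, nsmul_add, vb_add_left h3 hf, vb_add_left h3 hf, add_self, add_zero]

theorem vb_double_right (h3 : E.sm 3 []) {f : Γ} (hf : f + f = 0) (x y z : Γ) (m : ℕ) :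
    E.vb f x (y + (2 * m) • z) = E.vb f x y := by
  rw [mul_nsmul, two_nsmul, nsmul_add, vb_add_right h3 hf, vb_add_right h3 hf, add_self, add_zero]

/-- The value on good sections whose degrees are `x`, `y` modulo doubles. -/
theorem vb_data (h3 : E.sm 3 []) {X Y s a : S} (hX : E.sm 2 [X]) (hXY : E.sm 1 [X, Y]) {f : Γ}
    (hf : f + f = 0) (hs : E.sm 0 [s, X, Y]) (ha : E.sm 0 [a, X, Y])
    (hd : E.deg s = f + E.deg a) {x y z : Γ} {m m' : ℕ} (hx : E.deg X = x + (2 * m) • z)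
    (hy : E.deg Y = y + (2 * m') • z) :
    ∃ v : V, E.D [s * s, X, Y] - E.D [a * a, X, Y] = Germ.const h v ∧
      E.vb f x y = QuotientAddGroup.mk' (two V) v := by
  have p1 : ([X, Y] : List S).Perm [Y, X] := List.Perm.swap _ _ _
  obtain ⟨v, h1, h2⟩ := vb_val h3 hX (E.sm_perm _ _ _ p1 hXY) hf
    (E.sm_perm _ _ _ (p1.cons s) hs) (E.sm_perm _ _ _ (p1.cons a) ha) hd
  refine ⟨v, ?_, ?_⟩
  · rw [E.D_perm _ _ (p1.cons (s * s)), E.D_perm _ _ (p1.cons (a * a)), h1]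
  · rw [hx, hy, vb_double_left h3 hf, vb_double_right h3 hf] at h2
    exact h2

theorem vb1_data (h2 : E.sm 2 []) {X s a : S} (hX : E.sm 1 [X]) {f : Γ}
    (hf : f + f = 0) (hs : E.sm 0 [s, X]) (ha : E.sm 0 [a, X])
    (hd : E.deg s = f + E.deg a) {x z : Γ} {m : ℕ} (hx : E.deg X = x + (2 * m) • z) :
    ∃ v : V, E.D [s * s, X] - E.D [a * a, X] = Germ.const h v ∧
      E.vb1 f x = QuotientAddGroup.mk' (two V) v := by
  obtain ⟨v, h1, h3⟩ := vb1_val h2 hX hf hs ha hd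
  refine ⟨v, h1, ?_⟩
  rw [hx, vb1_double h2 hf] at h3
  exact h3

/-- Existence of data. -/
theorem exists_data (h3 : E.sm 3 []) (f x y : Γ) : ∃ (X Y s a : S) (m m' : ℕ),
    E.deg X = x + (2 * m) • E.h ∧ E.deg Y = y + (2 * m') • E.h ∧ E.deg s = f + E.deg a ∧
    E.sm 2 [X] ∧ E.sm 2 [Y] ∧ E.sm 1 [X, Y] ∧ E.sm 0 [s, X, Y] ∧ E.sm 0 [a, X, Y] := by
  obtain ⟨m₀, h0⟩ := E.avoid [(2, [])] (by simp [h3]) x
  obtain ⟨X, dX, hX⟩ := h0 (2 * m₀) (by omega)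
  have hX : E.sm 2 [X] := by simpa using hX
  obtain ⟨m₁, h1⟩ := E.avoid [(2, []), (1, [X])] (by simp [h3, hX]) y
  obtain ⟨Y, dY, hY⟩ := h1 (2 * m₁) (by omega)
  have hY2 : E.sm 2 [Y] := hY (2, []) (by simp)
  have hY1 : E.sm 1 [Y, X] := hY (1, [X]) (by simp)
  have hXY : E.sm 1 [X, Y] := E.sm_perm _ _ _ (List.Perm.swap _ _ _) hY1
  obtain ⟨s, a, hd, hs, ha⟩ := E.avoid_pair [(0, [X, Y])] (by simp [hXY]) f
  exact ⟨X, Y, s, a, m₀, m₁, dX, dY, hd, hX, hY2, hXY, by simpa using hs, by simpa using ha⟩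

theorem exists_data1 (h2 : E.sm 2 []) (f x : Γ) : ∃ (X s a : S) (m : ℕ),
    E.deg X = x + (2 * m) • E.h ∧ E.deg s = f + E.deg a ∧
    E.sm 1 [X] ∧ E.sm 0 [s, X] ∧ E.sm 0 [a, X] := by
  obtain ⟨m₀, h0⟩ := E.avoid [(1, [])] (by simp [h2]) x
  obtain ⟨X, dX, hX⟩ := h0 (2 * m₀) (by omega)
  have hX : E.sm 1 [X] := by simpa using hX
  obtain ⟨s, a, hd, hs, ha⟩ := E.avoid_pair [(0, [X])] (by simp [hX]) f
  exact ⟨X, s, a, m₀, dX, hd, hX, by simpa using hs, by simpa using ha⟩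

end Eng

end Pool.Agent.SSF
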