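import Pool.Agent.SSF.Inst
import Pool.Agent.SSF.Germ1

/-!
# SSF: the symbol of `R / J` with values in `K^* / K^*2`
-/

set_option autoImplicit false

namespace Pool.Agent.SSF

open Pool.Agent.Helper88.SSF
open Cocycle4 (two mem_two mk_eq add_self)

namespace Cox

section Value

variable {K : Type} [Field K]

/-- The class of a nonzero element in `K^* / K^*2`. -/
noncomputable def cls (u : Kˣ) : SqCl K := QuotientGroup.mk u

/-- Fourth roots of unity are squares. -/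
def Roots (K : Type) [Field K] : Prop := ∀ x : K, x ^ 4 = 1 → IsSquare x

theorem cls_mul (u v : Kˣ) : cls (u * v) = cls u * cls v := rfl

theorem cls_one : cls (1 : Kˣ) = 1 := rfl

theorem cls_eq_iff (u v : Kˣ) : cls u = cls v ↔ ∃ w : Kˣ, v = u * (w * w) := by
  refine QuotientGroup.eq.trans ?_
  constructor
  · rintro ⟨w, hw⟩
    refine ⟨w, ?_⟩
    have h1 : w * w = u⁻¹ * v := by
      rw [← hw]
      simp [sq]
    rw [h1, mul_inv_cancel_left]
  · rintro ⟨w, hw⟩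
    refine ⟨w, ?_⟩
    rw [hw, inv_mul_cancel_left]
    simp [sq]

theorem cls_sq (u : Kˣ) : cls (u * u) = 1 := by
  rw [← cls_one, cls_eq_iff]
  exact ⟨u⁻¹, by rw [mul_mul_mul_comm, mul_inv_cancel, one_mul]⟩

theorem isSquare_unit {u : Kˣ} (h : IsSquare (u : K)) : ∃ v : Kˣ, u = v * v := by
  obtain ⟨v, hv⟩ := h
  have hv0 : v ≠ 0 := by
    rintro rfl
    exact u.ne_zero (by rw [hv, mul_zero])
  exact ⟨Units.mk0 v hv0, Units.ext hv⟩

theorem cls_neg (hK : Roots K) (u : Kˣ) : cls (-u) = cls u := by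
  obtain ⟨v, hv⟩ := isSquare_unit (u := (-1 : Kˣ)) (hK _ (by
    rw [Units.val_neg, Units.val_one]
    norm_num))
  rw [cls_eq_iff]
  exact ⟨v, by rw [← hv, mul_neg, mul_one, neg_neg]⟩

variable (K) in
/-- The value group `K^*/±1`, written additively. -/
abbrev Vg : Type := Additive (Sg K)

theorem vg_two_iff (u : Kˣ) : Additive.ofMul (sg K u) ∈ two (Vg K) ↔ ∃ v : Kˣ, u = v * v ∨
    u = -(v * v) := by
  rw [mem_two]
  constructor
  · rintro ⟨b, hb⟩
    obtain ⟨v, hv⟩ := sg_surjective (R := K) b.toMul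
    refine ⟨v, (sg_eq_iff u (v * v)).1 ?_⟩
    have : b = Additive.ofMul (sg K v) := by rw [hv]; rfl
    rw [this, ← ofMul_mul, ← map_mul] at hb
    exact Additive.ofMul.injective hb
  · rintro ⟨v, hv⟩
    refine ⟨Additive.ofMul (sg K v), ?_⟩
    rw [← ofMul_mul, ← map_mul]
    congr 1
    exact (sg_eq_iff u (v * v)).2 hv

/-- Elements killed by two are doubles. -/
theorem vg_two (hK : Roots K) (v : Vg K) (hv : v + v = 0) : v ∈ two (Vg K) := by
  obtain ⟨u, hu⟩ := sg_surjective (R := K) v.toMul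
  have e : v = Additive.ofMul (sg K u) := by rw [hu]; rfl
  rw [e] at hv ⊢
  rw [← ofMul_mul, ← map_mul, ofMul_eq_zero, sg_eq_one_iff] at hv
  have h4 : (u : K) ^ 4 = 1 := by
    rcases hv with h | h
    · have := congrArg (fun x : Kˣ => (x : K)) h
      simp only [Units.val_mul, Units.val_one] at this
      linear_combination ((u : K) * u + 1) * this
    · have := congrArg (fun x : Kˣ => (x : K)) h
      simp only [Units.val_mul, Units.val_neg, Units.val_one] at this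
      linear_combination ((u : K) * u - 1) * this
  obtain ⟨w, hw⟩ := isSquare_unit (hK _ h4)
  exact (vg_two_iff u).2 ⟨w, Or.inl hw⟩

theorem exists_rep (q : Vg K ⧸ two (Vg K)) :
    ∃ u : Kˣ, q = QuotientAddGroup.mk' (two (Vg K)) (Additive.ofMul (sg K u)) := by
  obtain ⟨v, rfl⟩ := QuotientAddGroup.mk'_surjective (two (Vg K)) q
  obtain ⟨u, hu⟩ := sg_surjective (R := K) v.toMul
  exact ⟨u, by rw [hu]; rfl⟩

/-- The isomorphism `V / 2 → K^* / K^*2` for `V = K^*/±1` (if `-1` is a square). -/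
noncomputable def toSq (q : Vg K ⧸ two (Vg K)) : SqCl K := cls (exists_rep q).choose

theorem toSq_mk (hK : Roots K) (u : Kˣ) :
    toSq (QuotientAddGroup.mk' (two (Vg K)) (Additive.ofMul (sg K u))) = cls u := by
  unfold toSq
  have h := (exists_rep (QuotientAddGroup.mk' (two (Vg K)) (Additive.ofMul (sg K u)))).choose_spec
  set w := (exists_rep (QuotientAddGroup.mk' (two (Vg K)) (Additive.ofMul (sg K u)))).choose
  rw [← sub_eq_zero, ← map_sub] at h
  have h2 : Additive.ofMul (sg K (u / w)) ∈ two (Vg K) := by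
    rw [map_div, ofMul_div]
    exact (QuotientAddGroup.eq_zero_iff _).1 h
  obtain ⟨v, hv⟩ := (vg_two_iff _).1 h2
  have h3 : u = w * (v * v) ∨ u = -(w * (v * v)) := by
    rcases hv with hv | hv
    · left
      rw [← hv, mul_div_cancel]
    · right
      rw [← mul_neg, ← hv, mul_div_cancel]
  rcases h3 with h3 | h3
  · exact (cls_eq_iff _ _).2 ⟨v, h3⟩
  · rw [h3, cls_neg hK]
    exact (cls_eq_iff _ _).2 ⟨v, rfl⟩

theorem toSq_add (hK : Roots K) (q q' : Vg K ⧸ two (Vg K)) :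
    toSq (q + q') = toSq q * toSq q' := by
  obtain ⟨u, rfl⟩ := exists_rep q
  obtain ⟨u', rfl⟩ := exists_rep q'
  rw [← map_add, ← ofMul_mul, ← map_mul, toSq_mk hK, toSq_mk hK, toSq_mk hK, cls_mul]

theorem toSq_zero (hK : Roots K) : toSq (0 : Vg K ⧸ two (Vg K)) = 1 := by
  have h := toSq_mk hK (1 : Kˣ)
  rw [map_one, ofMul_one, map_zero] at h
  exact h

theorem toSq_inj (hK : Roots K) {q q' : Vg K ⧸ two (Vg K)} (h : toSq q = toSq q') : q = q' := by
  obtain ⟨u, rfl⟩ := exists_rep q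
  obtain ⟨u', rfl⟩ := exists_rep q'
  rw [toSq_mk hK, toSq_mk hK] at h
  apply mk_eq
  rw [← ofMul_div, ← map_div, vg_two_iff]
  obtain ⟨w, hw⟩ := (cls_eq_iff _ _).1 h.symm
  refine ⟨w, Or.inl ?_⟩
  rw [hw, mul_div_cancel_left]

end Value

section Symb

variable {K : Type} [Field K] {D : Cox K}

open Classical in
variable (D) in
/-- The symbol `S_(R/J)(f; a, b)`. -/
noncomputable def symb (J : Ideal D.R) (f a b : D.Γ) : SqCl K :=
  if H : D.Good ∧ J.IsHomogeneous D.gR then toSq ((D.tors H.1 J H.2).vb f a b) else 1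

open Classical in
variable (D) in
/-- The symbol in dimension one. -/
noncomputable def symb1 (J : Ideal D.R) (f a : D.Γ) : SqCl K :=
  if H : D.Good ∧ J.IsHomogeneous D.gR then toSq ((D.tors H.1 J H.2).vb1 f a) else 1

theorem symb_eq_vb (hD : D.Good) {J : Ideal D.R} (hJ : J.IsHomogeneous D.gR) (f a b : D.Γ) :
    D.symb J f a b = toSq ((D.tors hD J hJ).vb f a b) := by
  unfold symb
  rw [dif_pos ⟨hD, hJ⟩]

theorem symb1_eq_vb1 (hD : D.Good) {J : Ideal D.R} (hJ : J.IsHomogeneous D.gR) (f a : D.Γ) :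
    D.symb1 J f a = toSq ((D.tors hD J hJ).vb1 f a) := by
  unfold symb1
  rw [dif_pos ⟨hD, hJ⟩]

theorem tors_sm3 (hD : D.Good) {J : Ideal D.R} (hJ : J.IsHomogeneous D.gR)
    (hd : D.DimLE J 2) : (D.tors hD J hJ).sm 3 [] := by
  rw [tors_sm]
  exact dm_nil_iff'.2 hd

theorem tors_sm2 (hD : D.Good) {J : Ideal D.R} (hJ : J.IsHomogeneous D.gR)
    (hd : D.DimLE J 1) : (D.tors hD J hJ).sm 2 [] := by
  rw [tors_sm]
  exact dm_nil_iff'.2 hd

theorem two_nsmul_zero {f : D.Γ} (hf : 2 • f = 0) : f + f = 0 := by rw [← two_nsmul, hf]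

/-- Two ideals whose engines have the same `sb` have the same symbol. -/
theorem symb_congr (hD : D.Good) {J J' : Ideal D.R} (hJ : J.IsHomogeneous D.gR)
    (hJ' : J'.IsHomogeneous D.gR) (hd : D.DimLE J 2) (hd' : D.DimLE J' 2) {f : D.Γ}
    (hf : 2 • f = 0) (a b : D.Γ) (h : (D.tors hD J hJ).sb f a b = (D.tors hD J' hJ').sb f a b) :
    D.symb J f a b = D.symb J' f a b := by
  rw [symb_eq_vb hD hJ, symb_eq_vb hD hJ']
  refine congrArg toSq (Eng.vb_unique (tors_sm3 hD hJ hd) (two_nsmul_zero hf) ?_)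
  rw [h, Eng.cq_vb (tors_sm3 hD hJ' hd') (two_nsmul_zero hf)]

theorem const_high {φ ψ : D.Γ → Sg K} {v : Vg K}
    (h : Germ.mk D.h (fun n => Additive.ofMul (φ n)) - Germ.mk D.h (fun n => Additive.ofMul (ψ n))
      = Germ.const D.h v) : D.High fun n => v.toMul = φ n / ψ n := by
  rw [← map_sub, Germ.const_apply, Germ.mk_eq_mk] at h
  intro γ
  obtain ⟨N, hN⟩ := h γ
  refine ⟨N, fun n hn => ?_⟩
  rw [← hN n hn]
  rfl

/-- The main formula: evaluation of the symbol on data. -/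
theorem symb_data (hD : D.Good) (hK : Roots K) {J : Ideal D.R} (hJ : J.IsHomogeneous D.gR)
    (hd : D.DimLE J 2) {f : D.Γ} (hf : 2 • f = 0) (a b : D.Γ) {X Y s t : D.Sec} {m m' : ℕ}
    (hX : X.1 = a + (2 * m) • D.h) (hY : Y.1 = b + (2 * m') • D.h) (hst : s.1 = f + t.1)
    (h2 : D.dm J 2 [X]) (h1 : D.dm J 1 [X, Y]) (hs : D.dm J 0 [s, X, Y])
    (ht : D.dm J 0 [t, X, Y]) :
    D.High fun n => ∀ u : Kˣ, sg K u = (D.sys J (ff_field hD J)).D n [s * s, X, Y] /
      (D.sys J (ff_field hD J)).D n [t * t, X, Y] → D.symb J f a b = cls u := by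
  obtain ⟨v, hv, hv'⟩ := Eng.vb_data (E := D.tors hD J hJ) (tors_sm3 hD hJ hd) (X := X) (Y := Y)
    (s := s) (a := t) (by rw [tors_sm]; exact h2) (by rw [tors_sm]; exact h1)
    (two_nsmul_zero hf) (by rw [tors_sm]; exact hs) (by rw [tors_sm]; exact ht)
    (by rw [tors_deg, tors_deg]; exact hst) (x := a) (y := b) (z := D.h) (m := m) (m' := m')
    (by rw [tors_deg]; exact hX) (by rw [tors_deg]; exact hY)
  rw [tors_D, tors_D] at hv
  have hh := const_high hv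
  intro γ
  obtain ⟨N, hN⟩ := hh γ
  refine ⟨N, fun n hn u hu => ?_⟩
  have e := hN n hn
  rw [symb_eq_vb hD hJ, hv']
  have e2 : v = Additive.ofMul (sg K u) := by
    rw [hu, ← e]
    rfl
  rw [e2, toSq_mk hK]

theorem symb1_data (hD : D.Good) (hK : Roots K) {J : Ideal D.R} (hJ : J.IsHomogeneous D.gR)
    (hd : D.DimLE J 1) {f : D.Γ} (hf : 2 • f = 0) (a : D.Γ) {X s t : D.Sec} {m : ℕ}
    (hX : X.1 = a + (2 * m) • D.h) (hst : s.1 = f + t.1)
    (h1 : D.dm J 1 [X]) (hs : D.dm J 0 [s, X]) (ht : D.dm J 0 [t, X]) :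
    D.High fun n => ∀ u : Kˣ, sg K u = (D.sys J (ff_field hD J)).D n [s * s, X] /
      (D.sys J (ff_field hD J)).D n [t * t, X] → D.symb1 J f a = cls u := by
  obtain ⟨v, hv, hv'⟩ := Eng.vb1_data (E := D.tors hD J hJ) (tors_sm2 hD hJ hd) (X := X)
    (s := s) (a := t) (by rw [tors_sm]; exact h1)
    (two_nsmul_zero hf) (by rw [tors_sm]; exact hs) (by rw [tors_sm]; exact ht)
    (by rw [tors_deg, tors_deg]; exact hst) (x := a) (z := D.h) (m := m)
    (by rw [tors_deg]; exact hX)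
  rw [tors_D, tors_D] at hv
  have hh := const_high hv
  intro γ
  obtain ⟨N, hN⟩ := hh γ
  refine ⟨N, fun n hn u hu => ?_⟩
  have e := hN n hn
  rw [symb1_eq_vb1 hD hJ, hv']
  have e2 : v = Additive.ofMul (sg K u) := by
    rw [hu, ← e]
    rfl
  rw [e2, toSq_mk hK]

variable (D) in
/-- `IsSymb J f a b u`: the unit `u` computes the symbol. -/
def IsSymb (J : Ideal D.R) (f a b : D.Γ) (u : Kˣ) : Prop :=
  ∃ (hD : D.Good) (_ : J.IsHomogeneous D.gR) (X Y s t : D.Sec) (m m' : ℕ),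
    X.1 = a + (2 * m) • D.h ∧ Y.1 = b + (2 * m') • D.h ∧ s.1 = f + t.1 ∧
    D.dm J 2 [X] ∧ D.dm J 2 [Y] ∧ D.dm J 1 [X, Y] ∧ D.dm J 0 [s, X, Y] ∧ D.dm J 0 [t, X, Y] ∧
    D.High fun n => sg K u = (D.sys J (ff_field hD J)).D n [s * s, X, Y] /
      (D.sys J (ff_field hD J)).D n [t * t, X, Y]

variable (D) in
/-- `IsSymb1 J f a u`: the unit `u` computes the one dimensional symbol. -/
def IsSymb1 (J : Ideal D.R) (f a : D.Γ) (u : Kˣ) : Prop :=
  ∃ (hD : D.Good) (_ : J.IsHomogeneous D.gR) (X s t : D.Sec) (m : ℕ),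
    X.1 = a + (2 * m) • D.h ∧ s.1 = f + t.1 ∧
    D.dm J 1 [X] ∧ D.dm J 0 [s, X] ∧ D.dm J 0 [t, X] ∧
    D.High fun n => sg K u = (D.sys J (ff_field hD J)).D n [s * s, X] /
      (D.sys J (ff_field hD J)).D n [t * t, X]

/-- For given data there is a unit which computes the symbol. -/
theorem exists_unit (hD : D.Good) {J : Ideal D.R} (hJ : J.IsHomogeneous D.gR)
    (hd : D.DimLE J 2) {f : D.Γ} (hf : 2 • f = 0) {a b : D.Γ} {X Y s t : D.Sec} {m m' : ℕ}
    (hX : X.1 = a + (2 * m) • D.h) (hY : Y.1 = b + (2 * m') • D.h) (hst : s.1 = f + t.1)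
    (h2 : D.dm J 2 [X]) (h1 : D.dm J 1 [X, Y]) (hs : D.dm J 0 [s, X, Y])
    (ht : D.dm J 0 [t, X, Y]) :
    ∃ u : Kˣ, D.High fun n => sg K u = (D.sys J (ff_field hD J)).D n [s * s, X, Y] /
      (D.sys J (ff_field hD J)).D n [t * t, X, Y] := by
  obtain ⟨v, hv, hv'⟩ := Eng.vb_data (E := D.tors hD J hJ) (tors_sm3 hD hJ hd) (X := X) (Y := Y)
    (s := s) (a := t) (by rw [tors_sm]; exact h2) (by rw [tors_sm]; exact h1)
    (two_nsmul_zero hf) (by rw [tors_sm]; exact hs) (by rw [tors_sm]; exact ht)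
    (by rw [tors_deg, tors_deg]; exact hst) (x := a) (y := b) (z := D.h) (m := m) (m' := m')
    (by rw [tors_deg]; exact hX) (by rw [tors_deg]; exact hY)
  rw [tors_D, tors_D] at hv
  have hh := const_high hv
  obtain ⟨u, hu⟩ := sg_surjective (R := K) v.toMul
  refine ⟨u, ?_⟩
  rw [hu]
  exact hh

/-- Existence of data. -/
theorem exists_symb (hD : D.Good) {J : Ideal D.R} (hJ : J.IsHomogeneous D.gR)
    (hd : D.DimLE J 2) {f : D.Γ} (hf : 2 • f = 0) (a b : D.Γ) :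
    ∃ u : Kˣ, D.IsSymb J f a b u := by
  obtain ⟨X, Y, s, t, m, m', dX, dY, dst, hX, hY, hXY, hs, ht⟩ :=
    Eng.exists_data (E := D.tors hD J hJ) (tors_sm3 hD hJ hd) f a b
  rw [tors_deg, tors_h] at dX dY
  rw [tors_deg, tors_deg] at dst
  rw [tors_sm] at hX hY hXY hs ht
  obtain ⟨u, hu⟩ := exists_unit hD hJ hd hf dX dY dst hX hXY hs ht
  exact ⟨u, hD, hJ, X, Y, s, t, m, m', dX, dY, dst, hX, hY, hXY, hs, ht, hu⟩

/-- Uniqueness. -/
theorem symb_eq_of (hK : Roots K) {J : Ideal D.R} (hd : D.DimLE J 2) {f : D.Γ} (hf : 2 • f = 0)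
    {a b : D.Γ} {u : Kˣ} (h : D.IsSymb J f a b u) : D.symb J f a b = cls u := by
  obtain ⟨hD, hJ, X, Y, s, t, m, m', dX, dY, dst, hX, hY, hXY, hs, ht, hu⟩ := h
  obtain ⟨N, hN⟩ := symb_data hD hK hJ hd hf a b dX dY dst hX hXY hs ht 0
  obtain ⟨N', hN'⟩ := hu 0
  exact hN (max N N') (le_max_left _ _) u (hN' (max N N') (le_max_right _ _))

/-- For given data there is a unit which computes the symbol. -/
theorem exists_unit1 (hD : D.Good) {J : Ideal D.R} (hJ : J.IsHomogeneous D.gR)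
    (hd : D.DimLE J 1) {f : D.Γ} (hf : 2 • f = 0) {a : D.Γ} {X s t : D.Sec} {m : ℕ}
    (hX : X.1 = a + (2 * m) • D.h) (hst : s.1 = f + t.1)
    (h1 : D.dm J 1 [X]) (hs : D.dm J 0 [s, X]) (ht : D.dm J 0 [t, X]) :
    ∃ u : Kˣ, D.High fun n => sg K u = (D.sys J (ff_field hD J)).D n [s * s, X] /
      (D.sys J (ff_field hD J)).D n [t * t, X] := by
  obtain ⟨v, hv, hv'⟩ := Eng.vb1_data (E := D.tors hD J hJ) (tors_sm2 hD hJ hd) (X := X)
    (s := s) (a := t) (by rw [tors_sm]; exact h1)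
    (two_nsmul_zero hf) (by rw [tors_sm]; exact hs) (by rw [tors_sm]; exact ht)
    (by rw [tors_deg, tors_deg]; exact hst) (x := a) (z := D.h) (m := m)
    (by rw [tors_deg]; exact hX)
  rw [tors_D, tors_D] at hv
  have hh := const_high hv
  obtain ⟨u, hu⟩ := sg_surjective (R := K) v.toMul
  refine ⟨u, ?_⟩
  rw [hu]
  exact hh

theorem exists_symb1 (hD : D.Good) {J : Ideal D.R} (hJ : J.IsHomogeneous D.gR)
    (hd : D.DimLE J 1) {f : D.Γ} (hf : 2 • f = 0) (a : D.Γ) :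
    ∃ u : Kˣ, D.IsSymb1 J f a u := by
  obtain ⟨X, s, t, m, dX, dst, hX, hs, ht⟩ :=
    Eng.exists_data1 (E := D.tors hD J hJ) (tors_sm2 hD hJ hd) f a
  rw [tors_deg, tors_h] at dX
  rw [tors_deg, tors_deg] at dst
  rw [tors_sm] at hX hs ht
  obtain ⟨u, hu⟩ := exists_unit1 hD hJ hd hf dX dst hX hs ht
  exact ⟨u, hD, hJ, X, s, t, m, dX, dst, hX, hs, ht, hu⟩

theorem symb1_eq_of (hK : Roots K) {J : Ideal D.R} (hd : D.DimLE J 1) {f : D.Γ}
    (hf : 2 • f = 0) {a : D.Γ} {u : Kˣ} (h : D.IsSymb1 J f a u) : D.symb1 J f a = cls u := by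
  obtain ⟨hD, hJ, X, s, t, m, dX, dst, hX, hs, ht, hu⟩ := h
  obtain ⟨N, hN⟩ := symb1_data hD hK hJ hd hf a dX dst hX hs ht 0
  obtain ⟨N', hN'⟩ := hu 0
  exact hN (max N N') (le_max_left _ _) u (hN' (max N N') (le_max_right _ _))

end Symb

end Cox

end Pool.Agent.SSF
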