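import Pool.Agent.SSF.RatE
import Pool.Agent.SSF.Symb

/-!
# SSF: rational equivalence

Invariance of the symbol of `pt p + (φ a)` under `a ↦ b`.
-/

set_option autoImplicit false

namespace Pool.Agent.SSF

open Pool.Agent.Helper88.SSF

namespace Cox

section Rat

variable {K : Type} [Field K] {D : Cox K}

/-- S13 rational equivalence -/
theorem symb_rat (hD : D.Good) (hK : Roots K) (p : D.Pt) (hd : D.DimLE (D.pt p) 3)
    {f : D.Γ} (hf : 2 • f = 0) (α β : D.Γ) {i : ℕ} {a b : D.A} (ha : a ∈ D.gA i)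
    (hb : b ∈ D.gA i) (hap : a ∉ p.asHomogeneousIdeal.toIdeal)
    (hbp : b ∉ p.asHomogeneousIdeal.toIdeal) :
    D.symb (D.pt p ⊔ Ideal.span {D.φ a}) f α β =
      D.symb (D.pt p ⊔ Ideal.span {D.φ b}) f α β := by
  have _ := hK
  have hf2 : f + f = 0 := by
    rw [← two_nsmul]
    exact hf
  have h1 := Rat.tors_rat hD p hd hf2 α β ha hb hap hbp
  exact symb_congr hD (Rat.hom_sup p ha) (Rat.hom_sup p hb) (Rat.dim_sup hD p hd ha hap)
    (Rat.dim_sup hD p hd hb hbp) hf α β h1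

end Rat

end Cox

end Pool.Agent.SSF
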