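import Pool.Agent.SSF.G2

/-! # SSF, module G6: homogeneous avoidance of finitely many points in a prescribed class -/

set_option autoImplicit false

namespace Pool.Agent.SSF
namespace Cox

variable {k : Type} [CommRing k] (D : Cox k)

/-- If `q` is not contained in `p` there is a homogeneous element in `q` and not in `p`. -/
lemma exists_hom_of_not_le {p q : D.Pt} (h : ¬ q ≤ p) :
    ∃ (d : ℕ) (a : D.A), a ∈ D.gA d ∧ a ∈ q.asHomogeneousIdeal.toIdeal ∧
      a ∉ p.asHomogeneousIdeal.toIdeal := by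
  classical
  by_contra hcon
  push Not at hcon
  apply h
  intro x hx
  have hx' : x ∈ q.asHomogeneousIdeal.toIdeal := hx
  show x ∈ p.asHomogeneousIdeal.toIdeal
  rw [← DirectSum.sum_support_decompose D.gA x]
  refine Ideal.sum_mem _ fun i _ => ?_
  exact hcon i _ (SetLike.coe_mem _) (q.asHomogeneousIdeal.isHomogeneous i hx')

/-- One homogeneous element in finitely many points, and not in `p`. -/
lemma exists_hom_of_forall_not_le (p : D.Pt) (t : Finset D.Pt) (h : ∀ q ∈ t, ¬ q ≤ p) :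
    ∃ (d : ℕ) (a : D.A), a ∈ D.gA d ∧ (∀ q ∈ t, a ∈ q.asHomogeneousIdeal.toIdeal) ∧
      a ∉ p.asHomogeneousIdeal.toIdeal := by
  classical
  induction t using Finset.induction_on with
  | empty =>
    refine ⟨0, 1, SetLike.one_mem_graded D.gA, by simp, ?_⟩
    exact fun h1 => p.isPrime.ne_top ((Ideal.eq_top_iff_one _).2 h1)
  | insert q t hq ih =>
    obtain ⟨d, a, ha, hat, hap⟩ := ih fun q' hq' => h q' (Finset.mem_insert_of_mem hq')
    obtain ⟨e, b, hb, hbq, hbp⟩ := D.exists_hom_of_not_le (h q (Finset.mem_insert_self _ _))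
    refine ⟨d + e, a * b, SetLike.mul_mem_graded ha hb, ?_, ?_⟩
    · intro q' hq'
      rcases Finset.mem_insert.1 hq' with rfl | hq'
      · exact Ideal.mul_mem_left _ _ hbq
      · exact Ideal.mul_mem_right _ _ (hat q' hq')
    · intro hab
      rcases p.isPrime.mem_or_mem hab with h1 | h1
      · exact hap h1
      · exact hbp h1

/-- Avoidance, from the graded primality of the `pt p` and the existence of sections. -/
theorem avoid_core (hD : D.Good)
    (hprime : ∀ (p : D.Pt) (γ δ : D.Γ) (x y : D.R), x ∈ D.gR γ → y ∈ D.gR δ →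
      x * y ∈ D.pt p → x ∈ D.pt p ∨ y ∈ D.pt p)
    (hne : ∀ (p : D.Pt) (γ : D.Γ), ∃ N : ℕ, ∀ n : ℕ, N ≤ n →
      ∃ x ∈ D.gR (γ + n • D.h), x ∉ D.pt p)
    (s : Finset D.Pt) (γ : D.Γ) :
    ∃ N : ℕ, ∀ n : ℕ, N ≤ n → ∃ x ∈ D.gR (γ + n • D.h), ∀ p ∈ s, x ∉ D.pt p := by
  classical
  set t : Finset D.Pt := s.filter (fun p => Maximal (· ∈ s) p) with ht
  have hts : ∀ p ∈ s, ∃ m ∈ t, p ≤ m := by
    intro p hp
    obtain ⟨m, hpm, hm⟩ := s.exists_le_maximal hp
    exact ⟨m, by rw [ht, Finset.mem_filter]; exact ⟨hm.1, hm⟩, hpm⟩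
  have hanti : ∀ p ∈ t, ∀ q ∈ t, q ≤ p → q = p := by
    intro p hp q hq hqp
    rw [ht, Finset.mem_filter] at hp hq
    exact le_antisymm hqp (hq.2.2 hp.1 hqp)
  have key : ∀ p ∈ t, ∃ N : ℕ, ∀ n : ℕ, N ≤ n → ∃ z, z ∈ D.gR (γ + n • D.h) ∧ z ∉ D.pt p ∧
      ∀ q ∈ t, q ≠ p → z ∈ D.pt q := by
    intro p hp
    obtain ⟨d, a, ha, hat, hap⟩ := D.exists_hom_of_forall_not_le p (t.erase p) (by
      intro q hq hqp
      rw [Finset.mem_erase] at hq
      exact hq.1 (hanti p hp q hq.2 hqp))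
    obtain ⟨N, hN⟩ := hne p γ
    refine ⟨N + d, fun n hn => ?_⟩
    obtain ⟨w, hw, hwp⟩ := hN (n - d) (by omega)
    refine ⟨D.φ a * w, ?_, ?_, ?_⟩
    · have h1 := SetLike.mul_mem_graded (D.φ_mem d a ha) hw
      have e1 : d • D.h + (γ + (n - d) • D.h) = γ + n • D.h := by
        have e2 : n • D.h = d • D.h + (n - d) • D.h := by
          rw [← add_nsmul]
          congr 1
          omega
        rw [e2]
        abel
      rwa [e1] at h1
    · intro h1
      rcases hprime p _ _ _ _ (D.φ_mem d a ha) hw h1 with h2 | h2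
      · apply hap
        rw [← D.comap_pt hD p]
        exact h2
      · exact hwp h2
    · intro q hq hqp
      apply Ideal.mul_mem_right
      have h1 := hat q (Finset.mem_erase.2 ⟨hqp, hq⟩)
      rw [← D.comap_pt hD q] at h1
      exact h1
  choose! Nf hN using key
  refine ⟨t.sup Nf, fun n hn => ?_⟩
  have key2 : ∀ p ∈ t, ∃ z, z ∈ D.gR (γ + n • D.h) ∧ z ∉ D.pt p ∧
      ∀ q ∈ t, q ≠ p → z ∈ D.pt q := fun p hp =>
    hN p hp n (le_trans (Finset.le_sup hp) hn)
  choose! z hz1 hz2 hz3 using key2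
  refine ⟨∑ p ∈ t, z p, Submodule.sum_mem _ fun p hp => hz1 p hp, ?_⟩
  intro p hp hx
  obtain ⟨m, hm, hpm⟩ := hts p hp
  have hx' : (∑ p ∈ t, z p) ∈ D.pt m := (D.pt_le_pt hD p m).2 hpm hx
  rw [← Finset.add_sum_erase t z hm] at hx'
  have h2 : ∑ q ∈ t.erase m, z q ∈ D.pt m := by
    refine Ideal.sum_mem _ fun q hq => ?_
    rw [Finset.mem_erase] at hq
    exact hz3 q hq.2 m hm (Ne.symm hq.1)
  exact hz2 m hm ((Ideal.add_mem_iff_left _ h2).1 hx')

/-- G6: homogeneous avoidance in a prescribed class, every high degree. -/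
theorem avoid_high (hD : D.Good) (s : Finset D.Pt) (γ : D.Γ) :
    ∃ N : ℕ, ∀ n : ℕ, N ≤ n → ∃ x ∈ D.gR (γ + n • D.h), ∀ p ∈ s, x ∉ D.pt p :=
  D.avoid_core hD (fun p _ _ _ _ hx hy h => D.pt_prime hD p hx hy h)
    (fun p γ => D.pt_ne_top' hD hD.gen1 p γ) s γ

/-- G6: homogeneous avoidance in prescribed class, even high degree. -/
theorem avoid (hD : D.Good) (s : Finset D.Pt) (γ : D.Γ) (N : ℕ) :
    ∃ n ≥ N, ∃ x ∈ D.gR (γ + (2 * n) • D.h), ∀ p ∈ s, x ∉ D.pt p := by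
  obtain ⟨M, hM⟩ := D.avoid_high hD s γ
  exact ⟨max N M, le_max_left _ _, hM (2 * max N M) (by have := le_max_right N M; omega)⟩

end Cox
end Pool.Agent.SSF
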