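import Pool.Agent.SSF.Defs
import Pool.Agent.helper88.SSF.Quot

/-!
# SSF: the graded system of `R / J`, comparison theorems

Homogeneous elements, the pieces of `R / J`, the graded system with chosen bases, the colon
sequence, nonzerodivisors in given degrees, ideals which agree in given degrees.
-/

set_option autoImplicit false

open scoped TensorProduct

namespace Pool.Agent.Helper88.SSF

open Module

theorem sdet_of_subsingleton {R : Type*} [CommRing R] {ι κ M N : Type*} [AddCommGroup M]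
    [AddCommGroup N] [Module R M] [Module R N] [Subsingleton M] (b : Basis ι R M)
    (c : Basis κ R N) (f : M ≃ₗ[R] N) : sdet b c f = 1 := by
  unfold sdet
  split_ifs with h
  · have : f.trans (c.equiv b h.some.symm) = LinearEquiv.refl R M := by
      ext x
      exact Subsingleton.elim _ _
    rw [this, LinearEquiv.det_refl, map_one]
  · rfl

universe u v w x y

theorem PC.tors_of_subsingleton {R : Type u} [CommRing R] (A : PC.{u, v, w} R)
    [Subsingleton A.C0] : A.tors = 1 := by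
  unfold PC.tors
  split_ifs with h
  · exact sdet_of_subsingleton _ _ _
  · rfl

/-- Zero pieces in all relevant degrees: the Koszul complex is zero. -/
theorem GSys.cones_subsingleton {R : Type u} [CommRing R] {Γ : Type x} [AddCommGroup Γ]
    {S : Type y} {deg : S → Γ} : ∀ (l : List S) {X : GSys.{u, v, w} R Γ S deg} (U : Γ → Prop)
    (_ : ∀ b, U b → Subsingleton (X.A b).C0 ∧ Subsingleton (X.A b).C1)
    (a : Γ) (_ : AllSub U (l.map deg) a),
    Subsingleton ((X.cones l).A a).C0 ∧ Subsingleton ((X.cones l).A a).C1 := by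
  intro l
  induction l with
  | nil =>
    intro X U hU a ha
    exact hU a ha
  | cons s l ih =>
    intro X U hU a ha
    refine ih (X := X.cone s) (fun b => U b ∧ U (b - deg s)) ?_ a ha
    intro b hb
    have h1 := hU b hb.1
    have h2 := hU (b - deg s) hb.2
    have i1 := h1.1
    have i2 := h1.2
    have i3 := h2.1
    have i4 := h2.2
    constructor
    · change Subsingleton (_ × _)
      infer_instance
    · change Subsingleton (_ × _)
      infer_instance

theorem GSys.D_of_zero {R : Type u} [CommRing R] {Γ : Type x} [AddCommGroup Γ]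
    {S : Type y} {deg : S → Γ} {X : GSys.{u, v, w} R Γ S deg} (U : Γ → Prop)
    (hU : ∀ b, U b → Subsingleton (X.A b).C0 ∧ Subsingleton (X.A b).C1) (l : List S)
    (a : Γ) (ha : AllSub U (l.map deg) a) : X.D a l = 1 := by
  have h := (GSys.cones_subsingleton l U hU a ha).1
  exact PC.tors_of_subsingleton _

end Pool.Agent.Helper88.SSF

namespace Pool.Agent.SSF

open Pool.Agent.Helper88.SSF

namespace Cox

section Sys

variable {k : Type} [CommRing k] (D : Cox k)

/-- Homogeneous elements of `R` with their degree; a commutative monoid. -/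
abbrev Sec : Type := GradedMonoid fun γ => D.gR γ

/-- The underlying element. -/
abbrev val {D : Cox k} (s : D.Sec) : D.R := (s.2 : D.R)

/-- The set of elements of a list of sections. -/
abbrev vals {D : Cox k} (l : List D.Sec) : Set D.R := {x | ∃ s ∈ l, val s = x}

/-- The section given by a homogeneous element. -/
abbrev mkSec {D : Cox k} {γ : D.Γ} (x : D.R) (hx : x ∈ D.gR γ) : D.Sec := ⟨γ, ⟨x, hx⟩⟩

/-- The degree `γ` piece of `R / J`, a submodule of `R / J`. -/
abbrev Pc (J : Ideal D.R) (γ : D.Γ) : Submodule k (D.R ⧸ J) := qpiece D.gR J γ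

/-- The class of a homogeneous element. -/
abbrev pcl {D : Cox k} (J : Ideal D.R) {γ : D.Γ} (x : D.R) (hx : x ∈ D.gR γ) : D.Pc J γ :=
  ⟨Ideal.Quotient.mk J x, x, hx, rfl⟩

/-- The pieces of `R / J` are finite and free. -/
abbrev FF (J : Ideal D.R) : Prop := Pool.Agent.Helper88.SSF.FF D.gR J

variable {D} in
theorem FF.free {J : Ideal D.R} (hJ : D.FF J) (γ : D.Γ) : Module.Free k (D.Pc J γ) := (hJ γ).1

variable {D} in
theorem FF.fin {J : Ideal D.R} (hJ : D.FF J) (γ : D.Γ) : Module.Finite k (D.Pc J γ) := (hJ γ).2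

/-- The graded system of `R / J`. -/
noncomputable def sys (J : Ideal D.R) (hJ : D.FF J) :
    GSys.{0, 0, 0, 0, 0} k D.Γ D.Sec (fun s => s.1) := qsys D.gR J hJ

end Sys

section General

variable {k : Type} [CommRing k] {D : Cox k}

/-- products of sections -/
theorem sys_mulRel {J : Ideal D.R} (h1 : D.FF J) (s t : D.Sec) :
    (D.sys J h1).MulRel s t (s * t) := qsys_mulRel D.gR J h1 s t

/-- sums of sections -/
theorem sys_addRel {J : Ideal D.R} (h1 : D.FF J) (s' s h t : D.Sec)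
    (H : val s' = val s + val h * val t) : (D.sys J h1).AddRel s' s h t :=
  qsys_addRel D.gR J h1 s' s h t H

/-- zero pieces in all relevant degrees -/
theorem sys_zero {J : Ideal D.R} (h1 : D.FF J) (n : D.Γ) (l : List D.Sec)
    (h : AllSub (fun γ => ∀ x ∈ D.gR γ, x ∈ J) (l.map fun s => s.1) n) :
    (D.sys _ h1).Good n l ∧ (D.sys _ h1).D n l = 1 := by
  refine ⟨good_of_pieces D.gR J h1 _ (fun _ ha => ha) n l h, ?_⟩
  refine GSys.D_of_zero (X := D.sys J h1) (fun γ => ∀ x ∈ D.gR γ, x ∈ J) ?_ l n h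
  intro b hb
  constructor
  · change Subsingleton (qpiece D.gR J b)
    refine ⟨fun x y => Subtype.ext ?_⟩
    obtain ⟨x', hx, hx'⟩ := x.2
    obtain ⟨y', hy, hy'⟩ := y.2
    rw [← hx', ← hy']
    exact (Ideal.Quotient.eq_zero_iff_mem.2 (hb x' hx)).trans
      (Ideal.Quotient.eq_zero_iff_mem.2 (hb y' hy)).symm
  · change Subsingleton PUnit
    infer_instance

end General

section Dom

variable {k : Type} [CommRing k] [IsDomain k] {D : Cox k}

/-- (R2) exact sequence `0 → (R/(J : r))(-δ) → R/J → R/(J + r) → 0` -/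
theorem sys_colon {J : Ideal D.R} (hJh : J.IsHomogeneous D.gR) {δ : D.Γ} {r : D.R}
    (hr : r ∈ D.gR δ) (h1 : D.FF J) (h2 : D.FF (J.colon (Ideal.span {r})))
    (h3 : D.FF (J ⊔ Ideal.span {r})) :
    ∃ ρ : D.Γ → Sg k, ∀ (n : D.Γ) (l : List D.Sec), (D.sys _ h2).Good (n - δ) l →
      (D.sys _ h3).Good n l → (D.sys _ h1).Good n l ∧
      (D.sys _ h1).D n l = (D.sys _ h2).D (n - δ) l * (D.sys _ h3).D n l *
        diffs (l.map fun s => s.1) ρ n := by
  have hcol : ∀ x, x ∈ J.colon (Ideal.span {r}) ↔ r * x ∈ J := by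
    intro x
    rw [Submodule.mem_colon]
    constructor
    · intro h
      have := h r (Ideal.mem_span_singleton_self r)
      rwa [smul_eq_mul, mul_comm] at this
    · intro h y hy
      obtain ⟨c, rfl⟩ := Ideal.mem_span_singleton.1 hy
      have := Ideal.mul_mem_right c J h
      have e : x • (r * c) = r * x * c := by rw [smul_eq_mul]; ring
      rw [e]
      exact this
  obtain ⟨ρ, h⟩ := colon_seq D.gR J hJh hr _ hcol h1 h2 h3
  exact ⟨ρ, fun n l g2 g3 => ⟨(h n l).1 g2 g3, (h n l).2.2.2 inferInstance g2 g3⟩⟩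

/-- (R3) nonzerodivisor in the degrees in `U`, with a ratio independent of `U` -/
theorem sys_nzd_all {J : Ideal D.R} (hJh : J.IsHomogeneous D.gR) (r : D.Sec)
    (h1 : D.FF J) (h3 : D.FF (J ⊔ Ideal.span {val r})) :
    ∃ ρ : D.Γ → Sg k, ∀ (U : D.Γ → Prop)
      (_ : ∀ γ, U γ → ∀ x ∈ D.gR (γ - r.1), x * val r ∈ J → x ∈ J)
      (n : D.Γ) (l : List D.Sec), AllSub U (l.map fun s => s.1) n →
      (((D.sys _ h1).Good n (r :: l) ↔ (D.sys _ h3).Good n l) ∧
      ((D.sys _ h3).Good n l → (D.sys _ h1).D n (r :: l) = (D.sys _ h3).D n l *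
        diffs (l.map fun s => s.1) ρ n)) := by
  obtain ⟨ρ, h⟩ := nzd_seq D.gR J hJh r h1 h3
  refine ⟨ρ, fun U hU n l hn => ?_⟩
  have h4 := h U (fun a ha x hx hrx => hU a ha x hx (by rw [mul_comm]; exact hrx)) n l hn
  exact ⟨h4.1, h4.2 inferInstance⟩

/-- (R3) nonzerodivisor, in the degrees in `U` -/
theorem sys_nzd {J : Ideal D.R} (hJh : J.IsHomogeneous D.gR) (r : D.Sec)
    (U : D.Γ → Prop) (hU : ∀ γ, U γ → ∀ x ∈ D.gR (γ - r.1), x * val r ∈ J → x ∈ J)
    (h1 : D.FF J) (h3 : D.FF (J ⊔ Ideal.span {val r})) :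
    ∃ ρ : D.Γ → Sg k, ∀ (n : D.Γ) (l : List D.Sec), AllSub U (l.map fun s => s.1) n →
      (((D.sys _ h1).Good n (r :: l) ↔ (D.sys _ h3).Good n l) ∧
      ((D.sys _ h3).Good n l → (D.sys _ h1).D n (r :: l) = (D.sys _ h3).D n l *
        diffs (l.map fun s => s.1) ρ n)) := by
  obtain ⟨ρ, h⟩ := sys_nzd_all hJh r h1 h3
  exact ⟨ρ, h U hU⟩

/-- (R4) ideals `J ≤ J'` which agree in the degrees in `U`, over a domain -/
theorem sys_high_le {J J' : Ideal D.R} (hle : J ≤ J') (h1 : D.FF J) (h2 : D.FF J') :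
    ∃ ρ : D.Γ → Sg k, ∀ (U : D.Γ → Prop) (_ : ∀ γ, U γ → ∀ x ∈ D.gR γ, x ∈ J' → x ∈ J)
      (n : D.Γ) (l : List D.Sec), AllSub U (l.map fun s => s.1) n →
      (((D.sys _ h1).Good n l ↔ (D.sys _ h2).Good n l) ∧
      ((D.sys _ h1).Good n l → (D.sys _ h2).D n l = (D.sys _ h1).D n l *
        diffs (l.map fun s => s.1) ρ n)) := by
  obtain ⟨ρ, h⟩ := high_eq_le D.gR J J' hle h1 h2
  exact ⟨ρ, fun U hU n l hn => ⟨(h U hU n l hn).1, (h U hU n l hn).2 inferInstance⟩⟩

end Dom

section Field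

variable {K : Type} [Field K] {D : Cox K}

/-- Over a field every ideal is fine. -/
theorem ff_field (hD : D.Good) (J : Ideal D.R) : D.FF J := FF_of_finite D.gR hD.fin J

/-- The pieces of `R / J` are finite dimensional as soon as those of `R` are. -/
theorem ff_of_fin (h : ∀ γ, Module.Finite K (D.gR γ)) (J : Ideal D.R) : D.FF J :=
  FF_of_finite D.gR h J

/-- (R4) ideals which agree in the degrees in `U`, with a ratio independent of `U` -/
theorem sys_high_all (hD : D.Good) {J J' : Ideal D.R} (h1 : D.FF J) (h2 : D.FF J') :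
    ∃ ρ : D.Γ → Sg K, ∀ (U : D.Γ → Prop) (_ : ∀ γ, U γ → ∀ x ∈ D.gR γ, x ∈ J ↔ x ∈ J')
      (n : D.Γ) (l : List D.Sec), AllSub U (l.map fun s => s.1) n →
      (((D.sys _ h1).Good n l ↔ (D.sys _ h2).Good n l) ∧
      ((D.sys _ h1).Good n l → (D.sys _ h2).D n l = (D.sys _ h1).D n l *
        diffs (l.map fun s => s.1) ρ n)) := by
  obtain ⟨ρ, h⟩ := high_eq D.gR J J' h1 h2 (ff_field hD _)
  exact ⟨ρ, fun U hU n l hn => ⟨(h U hU n l hn).1, (h U hU n l hn).2 inferInstance⟩⟩

/-- (R4) ideals which agree in the degrees in `U` -/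
theorem sys_high (hD : D.Good) {J J' : Ideal D.R} (U : D.Γ → Prop)
    (hU : ∀ γ, U γ → ∀ x ∈ D.gR γ, x ∈ J ↔ x ∈ J') (h1 : D.FF J) (h2 : D.FF J') :
    ∃ ρ : D.Γ → Sg K, ∀ (n : D.Γ) (l : List D.Sec), AllSub U (l.map fun s => s.1) n →
      (((D.sys _ h1).Good n l ↔ (D.sys _ h2).Good n l) ∧
      ((D.sys _ h1).Good n l → (D.sys _ h2).D n l = (D.sys _ h1).D n l *
        diffs (l.map fun s => s.1) ρ n)) := by
  obtain ⟨ρ, h⟩ := sys_high_all hD h1 h2
  exact ⟨ρ, h U hU⟩

end Field

end Cox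

end Pool.Agent.SSF
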