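import Pool.Agent.SSF.G2
import Pool.Agent.SSF.G5
import Pool.Agent.SSF.G6
import Pool.Agent.SSF.G7
import Pool.Agent.SSF.Sys

/-! # SSF: dimension of the zero locus of a list of sections, avoidance -/

set_option autoImplicit false

namespace Pool.Agent.SSF

open Pool.Agent.Helper88.SSF

namespace Cox

section Dim

variable {k : Type} [CommRing k] (D : Cox k)

/-- `dim V(J) < j`: chains of points of `V(J)` have length smaller than `j`. -/
def DLT (J : Ideal D.R) (j : ℕ) : Prop := ∀ l : LTSeries D.Pt, D.On J l.head → l.length < j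

variable {D}

theorem dlt_iff {J : Ideal D.R} {d : ℕ} : D.DLT J (d + 1) ↔ D.DimLE J d :=
  forall_congr' fun _ => forall_congr' fun _ => Nat.lt_succ_iff

theorem dlt_zero_iff {J : Ideal D.R} : D.DLT J 0 ↔ ∀ p : D.Pt, ¬ D.On J p := by
  constructor
  · intro h p hp
    exact absurd (h (RelSeries.singleton _ p) hp) (Nat.not_lt_zero _)
  · intro h l hl
    exact absurd hl (h _)

theorem dlt_mono {J J' : Ideal D.R} (h : J ≤ J') {j : ℕ} (hd : D.DLT J j) : D.DLT J' j :=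
  fun l hl => hd l (le_trans h hl)

theorem dlt_mono_nat {J : Ideal D.R} {j j' : ℕ} (h : j ≤ j') (hd : D.DLT J j) : D.DLT J j' :=
  fun l hl => lt_of_lt_of_le (hd l hl) h

variable (D) in
/-- `dim V(J, l) < j`. -/
def dm (J : Ideal D.R) (j : ℕ) (l : List D.Sec) : Prop :=
  D.DLT (J ⊔ Ideal.span (vals l)) j

theorem on_sup_iff {J : Ideal D.R} {l : List D.Sec} {p : D.Pt} :
    D.On (J ⊔ Ideal.span (vals l)) p ↔
      D.On J p ∧ ∀ s ∈ l, val s ∈ D.pt p := by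
  unfold On
  rw [sup_le_iff, Ideal.span_le]
  refine and_congr Iff.rfl ⟨fun h s hs => h ⟨s, hs, rfl⟩, ?_⟩
  rintro h _ ⟨s, hs, rfl⟩
  exact h s hs

theorem dm_iff {J : Ideal D.R} {j : ℕ} {l : List D.Sec} :
    D.dm J j l ↔ ∀ c : LTSeries D.Pt, D.On J c.head → (∀ s ∈ l, val s ∈ D.pt c.head) →
      c.length < j := by
  constructor
  · intro h c h1 h2
    exact h c (on_sup_iff.2 ⟨h1, h2⟩)
  · intro h c hc
    rw [on_sup_iff] at hc
    exact h c hc.1 hc.2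

theorem dm_zero_iff {J : Ideal D.R} {l : List D.Sec} :
    D.dm J 0 l ↔ ∀ p : D.Pt, D.On J p → ∃ s ∈ l, val s ∉ D.pt p := by
  unfold dm
  rw [dlt_zero_iff]
  refine forall_congr' fun p => ?_
  rw [on_sup_iff]
  push Not
  rfl

theorem dm_zero_iff_ZF {J : Ideal D.R} {l : List D.Sec} :
    D.dm J 0 l ↔ D.ZF J (l.map val) := by
  rw [dm_zero_iff]
  unfold ZF
  refine forall_congr' fun p => forall_congr' fun _ => ?_
  simp

theorem dm_nil_iff {J : Ideal D.R} {j : ℕ} : D.dm J j [] ↔ D.DLT J j := by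
  rw [dm_iff]
  exact ⟨fun h c hc => h c hc (by simp), fun h c hc _ => h c hc⟩

theorem dm_nil_iff' {J : Ideal D.R} {d : ℕ} : D.dm J (d + 1) [] ↔ D.DimLE J d :=
  dm_nil_iff.trans dlt_iff

theorem dm_mono {J J' : Ideal D.R} (h : J ≤ J') {j j' : ℕ} (hj : j ≤ j') {l l' : List D.Sec}
    (hl : ∀ s ∈ l, s ∈ l') (hd : D.dm J j l) : D.dm J' j' l' := by
  rw [dm_iff] at hd ⊢
  intro c h1 h2
  exact lt_of_lt_of_le (hd c (le_trans h h1) fun s hs => h2 s (hl s hs)) hj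

theorem dm_perm {J : Ideal D.R} {j : ℕ} {l l' : List D.Sec} (h : l.Perm l')
    (hd : D.dm J j l) : D.dm J j l' :=
  dm_mono le_rfl le_rfl (fun _ hs => h.subset hs) hd

theorem dm_cons {J : Ideal D.R} {j : ℕ} (s : D.Sec) {l : List D.Sec}
    (hd : D.dm J j l) : D.dm J j (s :: l) :=
  dm_mono le_rfl le_rfl (fun _ hs => List.mem_cons_of_mem _ hs) hd

theorem dm_cons_iff {J : Ideal D.R} {j : ℕ} {s : D.Sec} {l : List D.Sec} :
    D.dm J j (s :: l) ↔ D.dm (J ⊔ Ideal.span {val s}) j l := by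
  rw [dm_iff, dm_iff]
  refine forall_congr' fun c => ?_
  have h : D.On (J ⊔ Ideal.span {val s}) c.head ↔
      D.On J c.head ∧ val s ∈ D.pt c.head := by
    unfold On
    rw [sup_le_iff, Ideal.span_singleton_le_iff_mem]
  rw [h]
  constructor
  · rintro h1 ⟨h2, h3⟩ h4
    exact h1 h2 (by
      intro t ht
      rcases List.mem_cons.1 ht with rfl | ht
      · exact h3
      · exact h4 t ht)
  · intro h1 h2 h3
    exact h1 ⟨h2, h3 s (List.mem_cons_self ..)⟩ fun t ht => h3 t (List.mem_cons_of_mem _ ht)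

theorem dm_mul (hD : D.Good) {J : Ideal D.R} {j : ℕ} {s t : D.Sec} {l : List D.Sec}
    (h1 : D.dm J j (s :: l)) (h2 : D.dm J j (t :: l)) : D.dm J j (s * t :: l) := by
  rw [dm_iff] at h1 h2 ⊢
  intro c hc h3
  have h4 : val s * val t ∈ D.pt c.head := h3 (s * t) (List.mem_cons_self ..)
  rcases D.pt_prime hD c.head s.2.2 t.2.2 h4 with h5 | h5
  · refine h1 c hc fun u hu => ?_
    rcases List.mem_cons.1 hu with rfl | hu
    · exact h5
    · exact h3 u (List.mem_cons_of_mem _ hu)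
  · refine h2 c hc fun u hu => ?_
    rcases List.mem_cons.1 hu with rfl | hu
    · exact h5
    · exact h3 u (List.mem_cons_of_mem _ hu)

/-- Avoidance of finitely many points lowers the dimension. -/
theorem exists_avoid_set [IsNoetherianRing k] (hD : D.Good) (J : Ideal D.R) (l : List D.Sec) :
    ∃ F : Finset D.Pt, (∀ p ∈ F, D.On J p ∧ ∀ s ∈ l, val s ∈ D.pt p) ∧
      ∀ t : D.Sec, (∀ p ∈ F, val t ∉ D.pt p) → ∀ j, D.dm J (j + 1) l →
      D.dm J j (t :: l) := by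
  obtain ⟨F, h1, h2⟩ := D.finite_minimal hD (J ⊔ Ideal.span (vals l))
  refine ⟨F, fun p hp => on_sup_iff.1 (h1 p hp), fun t ht j hd => ?_⟩
  rw [dm_iff]
  intro c hc h3
  have h4 : D.On (J ⊔ Ideal.span (vals l)) c.head :=
    on_sup_iff.2 ⟨hc, fun s hs => h3 s (List.mem_cons_of_mem _ hs)⟩
  obtain ⟨q, hq, hle⟩ := h2 _ h4
  have hlt : q < c.head := by
    refine lt_of_le_of_ne hle ?_
    rintro rfl
    exact ht _ hq (h3 t (List.mem_cons_self ..))
  have h5 := hd (c.cons q hlt) (by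
    rw [RelSeries.head_cons]
    exact h1 q hq)
  rw [RelSeries.cons_length] at h5
  omega

/-- Homogeneous avoidance for a finite family of closed sets. -/
theorem avoid_family [IsNoetherianRing k] (hD : D.Good)
    (L : List (Ideal D.R × ℕ × List D.Sec)) (F : Finset D.Pt)
    (χ : D.Γ) : ∃ m₀ : ℕ, ∀ m : ℕ, m₀ ≤ m → ∃ G : D.Sec, G.1 = χ + m • D.h ∧
      (∀ p ∈ F, val G ∉ D.pt p) ∧
      ∀ p ∈ L, D.dm p.1 (p.2.1 + 1) p.2.2 → D.dm p.1 p.2.1 (G :: p.2.2) := by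
  classical
  have key : ∃ F' : Finset D.Pt, ∀ t : D.Sec, (∀ p ∈ F', val t ∉ D.pt p) →
      (∀ p ∈ F, val t ∉ D.pt p) ∧
      ∀ p ∈ L, D.dm p.1 (p.2.1 + 1) p.2.2 → D.dm p.1 p.2.1 (t :: p.2.2) := by
    induction L with
    | nil => exact ⟨F, fun t ht => ⟨ht, by simp⟩⟩
    | cons p L ih =>
      obtain ⟨F', hF'⟩ := ih
      obtain ⟨F'', -, hF''⟩ := exists_avoid_set hD p.1 p.2.2
      refine ⟨F' ∪ F'', fun t ht => ?_⟩
      have h1 := hF' t fun q hq => ht q (Finset.mem_union_left _ hq)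
      have h2 := hF'' t fun q hq => ht q (Finset.mem_union_right _ hq)
      refine ⟨h1.1, fun q hq => ?_⟩
      rcases List.mem_cons.1 hq with rfl | hq
      · exact h2 _
      · exact h1.2 q hq
  obtain ⟨F', hF'⟩ := key
  obtain ⟨N, hN⟩ := D.avoid_high hD F' χ
  refine ⟨N, fun m hm => ?_⟩
  obtain ⟨x, hx, hx'⟩ := hN m hm
  exact ⟨mkSec x hx, rfl, (hF' (mkSec x hx) hx').1, (hF' (mkSec x hx) hx').2⟩

theorem dm_avoid [IsNoetherianRing k] (hD : D.Good) (J : Ideal D.R)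
    (L : List (ℕ × List D.Sec)) (hL : ∀ p ∈ L, D.dm J (p.1 + 1) p.2) (χ : D.Γ) :
    ∃ m₀ : ℕ, ∀ m : ℕ, m₀ ≤ m → ∃ G : D.Sec, G.1 = χ + m • D.h ∧
      ∀ p ∈ L, D.dm J p.1 (G :: p.2) := by
  obtain ⟨m₀, h⟩ := avoid_family hD (L.map fun p => (J, p.1, p.2)) ∅ χ
  refine ⟨m₀, fun m hm => ?_⟩
  obtain ⟨G, h1, -, h2⟩ := h m hm
  exact ⟨G, h1, fun p hp => h2 (J, p.1, p.2) (List.mem_map.2 ⟨p, hp, rfl⟩) (hL p hp)⟩

end Dim

end Cox
end Pool.Agent.SSF
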