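import Pool.Agent.SSF.Defs

/-! # SSF: morphisms of Cox data over the same base (change of the group of degrees) -/

set_option autoImplicit false

namespace Pool.Agent.SSF

namespace Cox

/-- A morphism of Cox data over the same base: bigger group of degrees, same `A`. -/
structure Emb {k : Type} [CommRing k] (D D' : Cox k) where
  α : D.A ≃ₐ[k] D'.A
  α_mem : ∀ n a, a ∈ D.gA n ↔ α a ∈ D'.gA n
  γ : D.Γ →+ D'.Γ
  γ_inj : Function.Injective γ
  γ_h : γ D.h = D'.h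
  ψ : D.R →ₐ[k] D'.R
  ψ_inj : Function.Injective ψ
  ψ_mem : ∀ g x, x ∈ D.gR g → ψ x ∈ D'.gR (γ g)
  ψ_surj : ∀ g, ∀ y ∈ D'.gR (γ g), ∃ x ∈ D.gR g, ψ x = y
  comm : ∀ a, ψ (D.φ a) = D'.φ (α a)

end Cox

end Pool.Agent.SSF
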