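import Pool.Agent.SSF.Sys
import Pool.Agent.SSF.Emb
import Pool.Agent.helper88.SSF.EmbSeq

/-!
# SSF: the graded system of `R / J` under a change of the group of degrees
-/

set_option autoImplicit false

namespace Pool.Agent.SSF

open Pool.Agent.Helper88.SSF

namespace Cox

variable {k : Type} [CommRing k] {D D' : Cox k}

/-- The image of a section under a morphism of Cox data. -/
def Emb.sec (E : Emb D D') (s : D.Sec) : D'.Sec :=
  ⟨E.γ s.1, ⟨E.ψ s.2, E.ψ_mem _ _ s.2.2⟩⟩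

theorem Emb.sec_val (E : Emb D D') (s : D.Sec) : val (E.sec s) = E.ψ (val s) := rfl

theorem Emb.sec_fst (E : Emb D D') (s : D.Sec) : (E.sec s).1 = E.γ s.1 := rfl

/-- (R5), in the degrees in `U` -/
theorem sys_emb_on [IsDomain k] (E : Emb D D') {J : Ideal D.R} {J' : Ideal D'.R}
    (hJ : ∀ x ∈ J, E.ψ x ∈ J') (h1 : D.FF J) (h2 : D'.FF J') :
    ∃ ρ : D.Γ → Sg k, ∀ (U : D.Γ → Prop)
      (_ : ∀ g, U g → ∀ x ∈ D.gR g, E.ψ x ∈ J' → x ∈ J) (n : D.Γ) (l : List D.Sec),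
      AllSub U (l.map fun s => s.1) n →
      (((D.sys J h1).Good n l ↔ (D'.sys J' h2).Good (E.γ n) (l.map E.sec)) ∧
      ((D.sys J h1).Good n l → (D'.sys J' h2).D (E.γ n) (l.map E.sec) =
        (D.sys J h1).D n l * diffs (l.map fun s => s.1) ρ n)) := by
  obtain ⟨ρ, h⟩ := emb_seq D.gR D'.gR E.γ E.ψ E.ψ_mem J J' hJ h1 h2
  refine ⟨ρ, fun U hU n l hn => ?_⟩
  have h3 := h U hU (fun g _ y hy => by
    obtain ⟨x, hx, rfl⟩ := E.ψ_surj g y hy
    exact ⟨x, hx, by rw [sub_self]; exact J'.zero_mem⟩) n l hn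
  exact ⟨h3.1, h3.2 inferInstance⟩

theorem allSub_true {Γ : Type} [AddCommGroup Γ] {U : Γ → Prop} (hU : ∀ g, U g) (l : List Γ) :
    ∀ n : Γ, AllSub U l n := by
  induction l generalizing U with
  | nil => exact hU
  | cons g l ih =>
    intro n
    exact ih (U := fun b => U b ∧ U (b - g)) (fun b => ⟨hU _, hU _⟩) n

/-- (R5) the graded system under a change of the group of degrees -/
theorem sys_emb [IsDomain k] (E : Emb D D') {J : Ideal D.R} {J' : Ideal D'.R}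
    (hJ : ∀ x ∈ J, E.ψ x ∈ J') (hJ' : ∀ g, ∀ x ∈ D.gR g, E.ψ x ∈ J' → x ∈ J)
    (h1 : D.FF J) (h2 : D'.FF J') :
    ∃ ρ : D.Γ → Sg k, ∀ (n : D.Γ) (l : List D.Sec),
      ((D.sys J h1).Good n l ↔ (D'.sys J' h2).Good (E.γ n) (l.map E.sec)) ∧
      ((D.sys J h1).Good n l → (D'.sys J' h2).D (E.γ n) (l.map E.sec) =
        (D.sys J h1).D n l * diffs (l.map fun s => s.1) ρ n) := by
  obtain ⟨ρ, h⟩ := sys_emb_on E hJ h1 h2
  exact ⟨ρ, fun n l => h (fun _ => True) (fun g _ => hJ' g) n l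
    (allSub_true (fun _ => trivial) _ _)⟩

/-- The image of `J = I R` is contained in `I R'`. -/
theorem Emb.map_mem (E : Emb D D') {I : Ideal D.A} {x : D.R} (hx : x ∈ I.map D.φ) :
    E.ψ x ∈ (I.map (E.α : D.A →+* D'.A)).map D'.φ := by
  have h1 : I.map D.φ ≤ ((I.map (E.α : D.A →+* D'.A)).map D'.φ).comap E.ψ := by
    rw [Ideal.map_le_iff_le_comap]
    intro a ha
    rw [Ideal.mem_comap, Ideal.mem_comap, E.comm]
    exact Ideal.mem_map_of_mem _ (Ideal.mem_map_of_mem (E.α : D.A →+* D'.A) ha)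
  exact h1 hx

end Cox

end Pool.Agent.SSF
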