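import Pool.Agent.SSF.EmbPt
import Pool.Agent.SSF.SysEmb
import Pool.Agent.SSF.Dim

/-! # SSF: dimension and zero-free families under a change of the group of degrees -/

set_option autoImplicit false

namespace Pool.Agent.SSF

open Pool.Agent.Helper88.SSF

namespace Cox

/-- The ideal of `R` generated by a homogeneous ideal of `A` is homogeneous. -/
theorem map_φ_homogeneous {k : Type} [CommRing k] (D : Cox k) {I : Ideal D.A}
    (hI : I.IsHomogeneous D.gA) : (I.map D.φ).IsHomogeneous D.gR := by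
  have h : I.map D.φ = Ideal.span (D.φ '' {a : D.A | a ∈ I ∧ ∃ n, a ∈ D.gA n}) := by
    apply le_antisymm
    · rw [Ideal.map_le_iff_le_comap]
      intro a ha
      rw [Ideal.mem_comap]
      classical
      rw [← DirectSum.sum_support_decompose D.gA a, map_sum]
      refine Ideal.sum_mem _ fun n _ => Ideal.subset_span ⟨_, ⟨?_, n, SetLike.coe_mem _⟩, rfl⟩
      exact hI n ha
    · rw [Ideal.span_le]
      rintro _ ⟨a, ⟨ha, -⟩, rfl⟩
      exact Ideal.mem_map_of_mem D.φ ha
  rw [h]
  refine Ideal.homogeneous_span D.gR _ ?_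
  rintro _ ⟨a, ⟨-, n, hn⟩, rfl⟩
  exact ⟨n • D.h, D.φ_mem n a hn⟩

namespace Emb

variable {k : Type} [CommRing k] {D D' : Cox k} (E : Emb D D')

theorem down_up (p : D.Pt) : E.down (E.up p) = p := E.ptIso.left_inv p

theorem dm_iff (hD : D.Good) (hD' : D'.Good) (I : Ideal D.A) (j : ℕ) (l : List D.Sec) :
    D'.dm ((E.mapI I).map D'.φ) j (l.map E.sec) ↔ D.dm (I.map D.φ) j l := by
  rw [Cox.dm_iff, Cox.dm_iff]
  constructor
  · intro h c h1 h2
    have h3 := h (c.map E.ptIso E.ptIso.strictMono) (by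
      rw [LTSeries.head_map]
      exact (E.on_iff hD hD' I _).2 h1) (by
      intro s hs
      obtain ⟨t, ht, rfl⟩ := List.mem_map.1 hs
      rw [LTSeries.head_map]
      exact (E.mem_pt_iff _ t.2.2).1 (h2 t ht))
    exact h3
  · intro h c h1 h2
    have e : E.up (E.down c.head) = c.head := E.up_down _
    have h3 := h (c.map E.ptIso.symm E.ptIso.symm.strictMono) (by
      rw [LTSeries.head_map]
      refine (E.on_iff hD hD' I _).1 ?_
      change D'.On _ (E.up (E.down c.head))
      rw [e]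
      exact h1) (by
      intro s hs
      rw [LTSeries.head_map]
      refine (E.mem_pt_iff _ s.2.2).2 ?_
      change E.ψ (s.2 : D.R) ∈ D'.pt (E.up (E.down c.head))
      rw [e]
      exact h2 _ (List.mem_map.2 ⟨s, hs, rfl⟩))
    exact h3

theorem dimLE_iff (hD : D.Good) (hD' : D'.Good) (I : Ideal D.A) (d : ℕ) :
    D'.DimLE ((E.mapI I).map D'.φ) d ↔ D.DimLE (I.map D.φ) d := by
  rw [← dm_nil_iff', ← dm_nil_iff', ← E.dm_iff hD hD' I (d + 1) []]
  rfl

theorem sec_mul (s t : D.Sec) : E.sec (s * t) = E.sec s * E.sec t := by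
  refine Sigma.subtype_ext ?_ ?_
  · exact map_add E.γ s.1 t.1
  · exact map_mul E.ψ (s.2 : D.R) (t.2 : D.R)

end Emb

end Cox

end Pool.Agent.SSF
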