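import Pool.Agent.SSF.Symb
import Pool.Agent.SSF.EmbDim

/-! # SSF: the symbol under a change of the group of degrees -/

set_option autoImplicit false

namespace Pool.Agent.SSF

open Pool.Agent.Helper88.SSF

namespace Cox

variable {K : Type} [Field K] {D D' : Cox K}

/-- S11 change of the group of degrees -/
theorem symb_regrade (E : Emb D D') (hD : D.Good) (hD' : D'.Good) (hK : Roots K)
    {I : Ideal D.A} (hI : I.IsHomogeneous D.gA) (hd : D.DimLE (I.map D.φ) 2) {f : D.Γ}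
    (hf : 2 • f = 0) (a b : D.Γ) :
    D.symb (I.map D.φ) f a b =
      D'.symb ((I.map (E.α : D.A →+* D'.A)).map D'.φ) (E.γ f) (E.γ a) (E.γ b) := by
  have hJ := D.map_φ_homogeneous hI
  have hJ' := D'.map_φ_homogeneous (E.mapI_homogeneous hI)
  have hd' := (E.dimLE_iff hD hD' I 2).2 hd
  have hf' : 2 • E.γ f = 0 := by rw [← map_nsmul, hf, map_zero]
  obtain ⟨u, hu⟩ := exists_symb hD hJ hd hf a b
  rw [symb_eq_of hK hd hf hu]
  obtain ⟨_, _, X, Y, s, t, m, m', hX, hY, hst, h2, -, h1, hs, ht, hu⟩ := hu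
  have hX' : (E.sec X).1 = E.γ a + (2 * m) • D'.h := by
    rw [E.sec_fst, hX, map_add, map_nsmul, E.γ_h]
  have hY' : (E.sec Y).1 = E.γ b + (2 * m') • D'.h := by
    rw [E.sec_fst, hY, map_add, map_nsmul, E.γ_h]
  have hst' : (E.sec s).1 = E.γ f + (E.sec t).1 := by
    rw [E.sec_fst, E.sec_fst, hst, map_add]
  have e0 := symb_data hD' hK hJ' hd' hf' (E.γ a) (E.γ b) hX' hY' hst'
    ((E.dm_iff hD hD' I 2 [X]).2 h2) ((E.dm_iff hD hD' I 1 [X, Y]).2 h1)
    ((E.dm_iff hD hD' I 0 [s, X, Y]).2 hs) ((E.dm_iff hD hD' I 0 [t, X, Y]).2 ht)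
  have gs := sys_good hD hJ (ff_field hD _) (dm_mul hD hs hs)
  have gt := sys_good hD hJ (ff_field hD _) (dm_mul hD ht ht)
  obtain ⟨ρ, hρ⟩ := sys_emb E (J := I.map D.φ) (J' := (E.mapI I).map D'.φ)
    (fun x hx => E.map_mem hx) (fun g x hx h => (E.mem_map_iff hI hx).2 h)
    (ff_field hD _) (ff_field hD' _)
  obtain ⟨N0, hN0⟩ := e0 0
  obtain ⟨N1, hN1⟩ := gs 0
  obtain ⟨N2, hN2⟩ := gt 0
  obtain ⟨N3, hN3⟩ := hu 0
  have l0 : N0 ≤ N0 + N1 + N2 + N3 := by omega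
  have l1 : N1 ≤ N0 + N1 + N2 + N3 := by omega
  have l2 : N2 ≤ N0 + N1 + N2 + N3 := by omega
  have l3 : N3 ≤ N0 + N1 + N2 + N3 := by omega
  generalize N0 + N1 + N2 + N3 = N at l0 l1 l2 l3
  refine (hN0 N l0 u ?_).symm
  have k1 := hN1 N l1
  have k2 := hN2 N l2
  have k3 := hN3 N l3
  have e : (0 : D'.Γ) + N • D'.h = E.γ (0 + N • D.h) := by
    rw [map_add, map_zero, map_nsmul, E.γ_h]
  have r1 := (hρ (0 + N • D.h) [s * s, X, Y]).2 k1
  have r2 := (hρ (0 + N • D.h) [t * t, X, Y]).2 k2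
  simp only [List.map_cons, List.map_nil, E.sec_mul] at r1 r2
  have hdeg : (s * s).1 = (t * t).1 := by
    change s.1 + s.1 = t.1 + t.1
    have h3 : f + t.1 + (f + t.1) = 2 • f + (t.1 + t.1) := by
      rw [two_nsmul]
      abel
    rw [hst, h3, hf, zero_add]
  rw [e, r1, r2, k3, hdeg, mul_div_mul_right_eq_div]

end Cox

end Pool.Agent.SSF
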