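import Pool.Agent.SSF.Contr
import Pool.Agent.SSF.Sys

/-! # SSF: the map on sections induced by a map of base rings -/

set_option autoImplicit false
open scoped TensorProduct

namespace Pool.Agent.SSF
namespace Cox

theorem sec_ext {k : Type} [CommRing k] {D : Cox k} {s t : D.Sec} (h : s.1 = t.1)
    (h' : val s = val t) : s = t := by
  obtain ⟨a, x⟩ := s
  obtain ⟨b, y⟩ := t
  obtain rfl : a = b := h
  obtain rfl : x = y := Subtype.ext h'
  rfl

variable {k : Type} [CommRing k] (D : Cox k) {B B' : Type} [CommRing B] [Algebra k B]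
  [CommRing B'] [Algebra k B'] (f : B →ₐ[k] B')

/-- The image of a section under a change of the base ring. -/
noncomputable def mapSec (s : (D.bc B).Sec) : (D.bc B').Sec :=
  ⟨s.1, ⟨D.mapR f s.2, D.mapR_mem f s.2.2⟩⟩

theorem mapSec_fst (s : (D.bc B).Sec) : (D.mapSec f s).1 = s.1 := rfl

theorem val_mapSec (s : (D.bc B).Sec) : val (D.mapSec f s) = D.mapR f (val s) := rfl

theorem mapSec_mul (s t : (D.bc B).Sec) : D.mapSec f (s * t) = D.mapSec f s * D.mapSec f t :=
  sec_ext rfl (map_mul (D.mapR f) _ _)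

end Cox
end Pool.Agent.SSF
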