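import Pool.Agent.SSF.Dim
import Pool.Agent.SSF.MapSec
import Pool.Agent.SSF.G0

/-! # SSF: common data of the symbol for two changes of the base ring -/

set_option autoImplicit false
open scoped TensorProduct

namespace Pool.Agent.SSF
namespace Cox

/-- Data which compute the symbol. -/
structure Data {K : Type} [Field K] (D : Cox K) (J : Ideal D.R) (f a b : D.Γ)
    (X Y s t : D.Sec) : Prop where
  hX : ∃ m : ℕ, X.1 = a + (2 * m) • D.h
  hY : ∃ m : ℕ, Y.1 = b + (2 * m) • D.h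
  hst : s.1 = f + t.1
  h2 : D.dm J 2 [X]
  h2' : D.dm J 2 [Y]
  h1 : D.dm J 1 [X, Y]
  hs : D.dm J 0 [s, X, Y]
  ht : D.dm J 0 [t, X, Y]

section Common

variable {k : Type} [CommRing k] {D : Cox k} {O K κ : Type} [CommRing O] [CommRing K]
  [CommRing κ] [Algebra k O] [Algebra k K] [Algebra k κ]

/-- Avoidance over `O` of finitely many points over `K` and over `κ`. -/
theorem exists_common_avoid (hD : D.Good) (i : O →ₐ[k] K) (j : O →ₐ[k] κ)
    (F1 : Finset (D.bc K).Pt) (F2 : Finset (D.bc κ).Pt) (χ : D.Γ) :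
    ∃ N : ℕ, ∀ n : ℕ, N ≤ n → ∃ x : (D.bc O).Sec, x.1 = χ + n • D.h ∧
      (∀ p ∈ F1, val (D.mapSec i x) ∉ (D.bc K).pt p) ∧
      ∀ p ∈ F2, val (D.mapSec j x) ∉ (D.bc κ).pt p := by
  classical
  obtain ⟨N, hN⟩ := (D.bc O).avoid_high (hD.bc O)
    (F1.image (D.contr i) ∪ F2.image (D.contr j)) χ
  refine ⟨N, fun n hn => ?_⟩
  obtain ⟨x, hx, hx'⟩ := hN n hn
  refine ⟨⟨χ + n • D.h, ⟨x, hx⟩⟩, rfl, fun p hp h => ?_, fun p hp h => ?_⟩
  · refine hx' (D.contr i p) (Finset.mem_union_left _ (Finset.mem_image_of_mem _ hp)) ?_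
    exact (D.mem_pt_contr i p hx).2 h
  · refine hx' (D.contr j p) (Finset.mem_union_right _ (Finset.mem_image_of_mem _ hp)) ?_
    exact (D.mem_pt_contr j p hx).2 h

/-- One step: a section over `O` whose images over `K` and `κ` lower the dimension of finitely
many closed sets. -/
theorem exists_common_step [IsNoetherianRing K] [IsNoetherianRing κ] (hD : D.Good)
    (i : O →ₐ[k] K) (j : O →ₐ[k] κ) (J1 : Ideal (D.bc K).R) (J2 : Ideal (D.bc κ).R)
    (L1 : List (ℕ × List (D.bc K).Sec)) (L2 : List (ℕ × List (D.bc κ).Sec))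
    (h1 : ∀ p ∈ L1, (D.bc K).dm J1 (p.1 + 1) p.2) (h2 : ∀ p ∈ L2, (D.bc κ).dm J2 (p.1 + 1) p.2)
    (χ : D.Γ) :
    ∃ N : ℕ, ∀ n : ℕ, N ≤ n → ∃ x : (D.bc O).Sec, x.1 = χ + n • D.h ∧
      (∀ p ∈ L1, (D.bc K).dm J1 p.1 (D.mapSec i x :: p.2)) ∧
      ∀ p ∈ L2, (D.bc κ).dm J2 p.1 (D.mapSec j x :: p.2) := by
  classical
  have key : ∀ {B : Type} [CommRing B] [Algebra k B] [IsNoetherianRing B]
      (J : Ideal (D.bc B).R) (L : List (ℕ × List (D.bc B).Sec)),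
      (∀ p ∈ L, (D.bc B).dm J (p.1 + 1) p.2) →
      ∃ F : Finset (D.bc B).Pt, ∀ t : (D.bc B).Sec, (∀ p ∈ F, val t ∉ (D.bc B).pt p) →
        ∀ p ∈ L, (D.bc B).dm J p.1 (t :: p.2) := by
    intro B _ _ _ J L
    induction L with
    | nil => exact fun _ => ⟨∅, fun t _ p hp => absurd hp (by simp)⟩
    | cons p L ih =>
      intro hL
      obtain ⟨F, hF⟩ := ih fun q hq => hL q (List.mem_cons_of_mem _ hq)
      obtain ⟨G, -, hG⟩ := exists_avoid_set (hD.bc B) J p.2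
      refine ⟨F ∪ G, fun t ht q hq => ?_⟩
      rcases List.mem_cons.1 hq with rfl | hq
      · exact hG t (fun r hr => ht r (Finset.mem_union_right _ hr)) _
          (hL q (List.mem_cons_self ..))
      · exact hF t (fun r hr => ht r (Finset.mem_union_left _ hr)) q hq
  obtain ⟨F1, hF1⟩ := key J1 L1 h1
  obtain ⟨F2, hF2⟩ := key J2 L2 h2
  obtain ⟨N, hN⟩ := exists_common_avoid hD i j F1 F2 χ
  refine ⟨N, fun n hn => ?_⟩
  obtain ⟨x, hx, hx1, hx2⟩ := hN n hn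
  exact ⟨x, hx, hF1 _ hx1, hF2 _ hx2⟩

end Common

/-- Sections over `O` which are data of the symbol over `K` and over `κ`. -/
theorem exists_common_data {F : Type} [CommRing F] {D : Cox F} (hD : D.Good) (O : Type)
    [CommRing O] [Algebra F O] (K κ : Type) [Field K] [Field κ] [Algebra F K]
    [Algebra F κ] (i : O →ₐ[F] K) (j : O →ₐ[F] κ)
    (J1 : Ideal (D.bc K).R) (hd1 : (D.bc K).DimLE J1 2)
    (J2 : Ideal (D.bc κ).R) (hd2 : (D.bc κ).DimLE J2 2) (f a b : D.Γ) :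
    ∃ X Y s t : (D.bc O).Sec,
      (D.bc K).Data J1 f a b (D.mapSec i X) (D.mapSec i Y) (D.mapSec i s) (D.mapSec i t) ∧
      (D.bc κ).Data J2 f a b (D.mapSec j X) (D.mapSec j Y) (D.mapSec j s) (D.mapSec j t) := by
  have e1 : (D.bc K).dm J1 3 [] := dm_nil_iff'.2 hd1
  have e2 : (D.bc κ).dm J2 3 [] := dm_nil_iff'.2 hd2
  obtain ⟨N, hN⟩ := exists_common_step hD i j J1 J2 [(2, [])] [(2, [])]
    (by simpa using e1) (by simpa using e2) a
  obtain ⟨X, hX, hX1, hX2⟩ := hN (2 * N) (by omega)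
  have hX1' := hX1 (2, []) (List.mem_cons_self ..)
  have hX2' := hX2 (2, []) (List.mem_cons_self ..)
  obtain ⟨M, hM⟩ := exists_common_step hD i j J1 J2 [(2, []), (1, [D.mapSec i X])]
    [(2, []), (1, [D.mapSec j X])]
    (by
      intro p hp
      simp only [List.mem_cons, List.not_mem_nil, or_false] at hp
      rcases hp with rfl | rfl
      · exact e1
      · exact hX1')
    (by
      intro p hp
      simp only [List.mem_cons, List.not_mem_nil, or_false] at hp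
      rcases hp with rfl | rfl
      · exact e2
      · exact hX2') b
  obtain ⟨Y, hY, hY1, hY2⟩ := hM (2 * M) (by omega)
  have hY1a := hY1 (2, []) (by simp)
  have hY1b := dm_perm (List.Perm.swap _ _ _) (hY1 (1, [D.mapSec i X]) (by simp))
  have hY2a := hY2 (2, []) (by simp)
  have hY2b := dm_perm (List.Perm.swap _ _ _) (hY2 (1, [D.mapSec j X]) (by simp))
  have key : ∀ χ : D.Γ, ∃ N : ℕ, ∀ n : ℕ, N ≤ n → ∃ x : (D.bc O).Sec, x.1 = χ + n • D.h ∧
      (D.bc K).dm J1 0 [D.mapSec i x, D.mapSec i X, D.mapSec i Y] ∧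
      (D.bc κ).dm J2 0 [D.mapSec j x, D.mapSec j X, D.mapSec j Y] := by
    intro χ
    obtain ⟨N, hN⟩ := exists_common_step hD i j J1 J2 [(0, [D.mapSec i X, D.mapSec i Y])]
      [(0, [D.mapSec j X, D.mapSec j Y])] (by simpa using hY1b) (by simpa using hY2b) χ
    refine ⟨N, fun n hn => ?_⟩
    obtain ⟨x, hx, hx1, hx2⟩ := hN n hn
    exact ⟨x, hx, hx1 (0, [D.mapSec i X, D.mapSec i Y]) (List.mem_cons_self ..),
      hx2 (0, [D.mapSec j X, D.mapSec j Y]) (List.mem_cons_self ..)⟩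
  obtain ⟨N1, hN1⟩ := key f
  obtain ⟨N2, hN2⟩ := key 0
  obtain ⟨s, hs, hs1, hs2⟩ := hN1 (max N1 N2) (le_max_left _ _)
  obtain ⟨t, ht, ht1, ht2⟩ := hN2 (max N1 N2) (le_max_right _ _)
  have hst : s.1 = f + t.1 := by rw [hs, ht, zero_add]
  exact ⟨X, Y, s, t,
    ⟨⟨N, hX⟩, ⟨M, hY⟩, hst, hX1', hY1a, hY1b, hs1, ht1⟩,
    ⟨⟨N, hX⟩, ⟨M, hY⟩, hst, hX2', hY2a, hY2b, hs2, ht2⟩⟩

end Cox
end Pool.Agent.SSF
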