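import Pool.Agent.SSF.SysBc

/-!
# SSF: quotients of `R` over a principal ideal domain which are flat have finite free pieces
-/

set_option autoImplicit false

open scoped TensorProduct

namespace Pool.Agent.SSF

open Pool.Agent.Helper88.SSF

namespace Cox

/-- Over a principal ideal domain: finite pieces and torsion free quotient. -/
theorem ff_pid {k : Type} [CommRing k] [IsDomain k] [IsPrincipalIdealRing k] {D : Cox k}
    (hfin : ∀ γ, Module.Finite k (D.gR γ)) {J : Ideal D.R}
    (hflat : ∀ c : k, c ≠ 0 → ∀ x : D.R, c • x ∈ J → x ∈ J) : D.FF J := by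
  intro γ
  have h1 : Module.Finite k (qpiece D.gR J γ) := by
    have := hfin γ
    unfold qpiece
    infer_instance
  have h2 : Module.IsTorsionFree k (qpiece D.gR J γ) := by
    refine ⟨fun c hc => ?_⟩
    have hc0 : c ≠ 0 := hc.ne_zero
    intro x y hxy
    have h3 : c • (x - y) = 0 := by
      have hxy' : c • x = c • y := hxy
      rw [smul_sub, hxy', sub_self]
    obtain ⟨z, hz, hz'⟩ := (x - y).2
    have h4 : Ideal.Quotient.mk J (c • z) = 0 := by
      have h5 : (c • (x - y) : qpiece D.gR J γ).1 = 0 := congrArg Subtype.val h3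
      have h6 : c • ((x - y : qpiece D.gR J γ) : D.R ⧸ J) = 0 := h5
      rw [← hz'] at h6
      exact h6
    rw [Ideal.Quotient.eq_zero_iff_mem] at h4
    have h5 := hflat c hc0 z h4
    have h6 : ((x - y : qpiece D.gR J γ) : D.R ⧸ J) = 0 := by
      rw [← hz']
      exact Ideal.Quotient.eq_zero_iff_mem.2 h5
    exact sub_eq_zero.1 (Subtype.ext h6)
  exact ⟨inferInstance, h1⟩

/-- over a discrete valuation ring: torsion free pieces -/
theorem ff_dvr {k : Type} [CommRing k] [IsDomain k] [IsPrincipalIdealRing k] {D : Cox k}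
    (hD : D.Good) {J : Ideal D.R}
    (hflat : ∀ c : k, c ≠ 0 → ∀ x : D.R, c • x ∈ J → x ∈ J) : D.FF J :=
  ff_pid hD.fin hflat

/-- Finiteness of the pieces is preserved by base change. -/
theorem fin_bc {k : Type} [CommRing k] {D : Cox k} (hfin : ∀ γ, Module.Finite k (D.gR γ))
    (B : Type) [CommRing B] [Algebra k B] (γ : D.Γ) : Module.Finite B ((D.bc B).gR γ) := by
  classical
  change Module.Finite B ((D.gR γ).baseChange B)
  have h1 : (D.gR γ).FG := Module.Finite.iff_fg.1 (hfin γ)
  obtain ⟨s, hs⟩ := h1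
  rw [Module.Finite.iff_fg]
  refine ⟨(s.image fun x => (1 : B) ⊗ₜ[k] x), ?_⟩
  rw [← hs, Submodule.baseChange_span, Finset.coe_image]
  rfl

/-- flat quotients of the base change to a discrete valuation ring (or a principal ideal
domain) -/
theorem ff_dvr_bc {F : Type} [Field F] {D : Cox F} (hD : D.Good) (O : Type) [CommRing O]
    [IsDomain O] [IsPrincipalIdealRing O] [Algebra F O] {J : Ideal (D.bc O).R}
    (hflat : ∀ c : O, c ≠ 0 → ∀ x : (D.bc O).R, c • x ∈ J → x ∈ J) : (D.bc O).FF J :=
  ff_pid (D := D.bc O) (fin_bc hD.fin O) hflat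

end Cox

end Pool.Agent.SSF
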