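import Pool.Agent.SSF.Sys
import Pool.Agent.SSF.MapSec
import Pool.Agent.helper88.SSF.BCSeq

/-!
# SSF: the graded system of `R / J` under base change
-/

set_option autoImplicit false

open scoped TensorProduct

namespace Pool.Agent.SSF

open Pool.Agent.Helper88.SSF

namespace Cox

section Map

variable {k : Type} [CommRing k] (D : Cox k) {B B' : Type} [CommRing B] [Algebra k B]
  [CommRing B'] [Algebra k B'] (f : B →ₐ[k] B')

/-- `R_B → R_B'` is a base change map. -/
theorem bcRing_mapR : BCRing (f : B →+* B') (D.bc B).gR (D.bc B').gR (D.mapR f) where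
  smul := D.mapR_smul f
  mem := fun _ _ hx => D.mapR_mem f hx
  gen := by
    intro g y hy
    change y ∈ (D.gR g).baseChange B' at hy
    rw [Submodule.baseChange_eq_span] at hy
    refine Submodule.span_mono ?_ hy
    rintro _ ⟨x, hx, rfl⟩
    refine ⟨(1 : B) ⊗ₜ[k] x, Submodule.tmul_mem_baseChange_of_mem _ hx, ?_⟩
    rw [mapR_tmul, map_one]
    rfl
  gen' := by
    intro y
    change B' ⊗[k] D.R at y
    induction y using TensorProduct.induction_on with
    | zero => exact Submodule.zero_mem _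
    | tmul c x =>
      have : (c ⊗ₜ[k] x : B' ⊗[k] D.R) = c • D.mapR f ((1 : B) ⊗ₜ[k] x) := by
        rw [mapR_tmul, map_one]
        exact (by rw [TensorProduct.smul_tmul', smul_eq_mul, mul_one] :
          (c ⊗ₜ[k] x : B' ⊗[k] D.R) = c • ((1 : B') ⊗ₜ[k] x))
      rw [this]
      exact Submodule.smul_mem _ _ (Submodule.subset_span ⟨_, rfl⟩)
    | add a b ha hb => exact Submodule.add_mem _ ha hb
  ext := by
    intro ℓ
    let g : D.R →ₗ[k] B' := f.toLinearMap.comp
      ((ℓ.restrictScalars k).comp (TensorProduct.mk k B D.R 1))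
    refine ⟨g.liftBaseChange B', ?_⟩
    intro x
    change B ⊗[k] D.R at x
    induction x using TensorProduct.induction_on with
    | zero => rw [map_zero, map_zero, map_zero, map_zero]
    | tmul c x =>
      rw [mapR_tmul, LinearMap.liftBaseChange_tmul]
      have : (c ⊗ₜ[k] x : B ⊗[k] D.R) = c • ((1 : B) ⊗ₜ[k] x) := by
        rw [TensorProduct.smul_tmul', smul_eq_mul, mul_one]
      rw [this, map_smul, smul_eq_mul, smul_eq_mul, map_mul]
      rfl
    | add a b ha hb => rw [map_add, map_add, map_add, map_add, ha, hb]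

theorem sysBc_map_homogeneous {J : Ideal (D.bc B).R} (hJ : J.IsHomogeneous (D.bc B).gR) :
    (J.map (D.mapR f)).IsHomogeneous (D.bc B').gR := by
  obtain ⟨s, rfl⟩ := (Ideal.IsHomogeneous.iff_exists (D.bc B).gR J).1 hJ
  rw [Ideal.map_span]
  refine Ideal.homogeneous_span (D.bc B').gR _ ?_
  rintro _ ⟨_, ⟨x, hx, rfl⟩, rfl⟩
  obtain ⟨g, hg⟩ := x.2
  exact ⟨g, D.mapR_mem f hg⟩

theorem ff_map {J : Ideal (D.bc B).R} (hJh : J.IsHomogeneous (D.bc B).gR)
    (hJ : (D.bc B).FF J) : (D.bc B').FF (J.map (D.mapR f)) :=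
  (D.bcRing_mapR f).ff J hJh hJ

/-- (R1) base change -/
theorem sys_map [IsDomain B] [IsDomain B'] {J : Ideal (D.bc B).R}
    (hJh : J.IsHomogeneous (D.bc B).gR) (hJ : (D.bc B).FF J)
    (hJ' : (D.bc B').FF (J.map (D.mapR f))) :
    ∃ ρ : D.Γ → Sg B', ∀ (n : D.Γ) (l : List (D.bc B).Sec), ((D.bc B).sys J hJ).Good n l →
      ((D.bc B').sys _ hJ').Good n (l.map (D.mapSec f)) ∧
      ((D.bc B').sys _ hJ').D n (l.map (D.mapSec f)) =
        Sg.map (f : B →+* B') (((D.bc B).sys J hJ).D n l) *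
          diffs (l.map fun s => s.1) ρ n := by
  obtain ⟨ρ, h⟩ := (D.bcRing_mapR f).seq J hJh hJ hJ'
  exact ⟨ρ, fun n l hg => ⟨(h n l).1 hg, (h n l).2.2 inferInstance inferInstance hg⟩⟩

/-- (R1') lifting along a surjective local homomorphism -/
theorem sys_map_local [IsLocalHom (f : B →+* B')] (hf : Function.Surjective f)
    {J : Ideal (D.bc B).R} (hJh : J.IsHomogeneous (D.bc B).gR) (hJ : (D.bc B).FF J)
    (hJ' : (D.bc B').FF (J.map (D.mapR f))) (n : D.Γ) (l : List (D.bc B).Sec)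
    (h : ((D.bc B').sys _ hJ').Good n (l.map (D.mapSec f))) :
    ((D.bc B).sys J hJ).Good n l := by
  obtain ⟨ρ, h1⟩ := (D.bcRing_mapR f).seq J hJh hJ hJ'
  exact (h1 n l).2.1 hf inferInstance h

end Map

section BC

variable {k : Type} [CommRing k] (D : Cox k) (B : Type) [CommRing B] [Algebra k B]

/-- The ring homomorphism `R → B ⊗ R`. -/
noncomputable abbrev incl : D.R →+* (D.bc B).R :=
  (Algebra.TensorProduct.includeRight : D.R →ₐ[k] B ⊗[k] D.R).toRingHom

/-- The image of a section. -/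
noncomputable def inclSec (s : D.Sec) : (D.bc B).Sec :=
  ⟨s.1, ⟨(1 : B) ⊗ₜ[k] (s.2 : D.R), Submodule.tmul_mem_baseChange_of_mem _ s.2.2⟩⟩

theorem inclSec_val (s : D.Sec) : val (D.inclSec B s) = D.incl B (val s) := rfl

/-- `R → R_B` is a base change map. -/
theorem bcRing_incl : BCRing (algebraMap k B) D.gR (D.bc B).gR (D.incl B) where
  smul := by
    intro b x
    change (1 : B) ⊗ₜ[k] (b • x) = algebraMap k B b • ((1 : B) ⊗ₜ[k] x)
    rw [TensorProduct.tmul_smul, algebraMap_smul]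
  mem := fun _ _ hx => Submodule.tmul_mem_baseChange_of_mem _ hx
  gen := by
    intro g y hy
    change y ∈ (D.gR g).baseChange B at hy
    rw [Submodule.baseChange_eq_span] at hy
    exact hy
  gen' := by
    intro y
    change B ⊗[k] D.R at y
    induction y using TensorProduct.induction_on with
    | zero => exact Submodule.zero_mem _
    | tmul c x =>
      have : (c ⊗ₜ[k] x : B ⊗[k] D.R) = c • D.incl B x :=
        (by rw [TensorProduct.smul_tmul', smul_eq_mul, mul_one] :
          (c ⊗ₜ[k] x : B ⊗[k] D.R) = c • ((1 : B) ⊗ₜ[k] x))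
      rw [this]
      exact Submodule.smul_mem _ _ (Submodule.subset_span ⟨_, rfl⟩)
    | add a b ha hb => exact Submodule.add_mem _ ha hb
  ext := by
    intro ℓ
    refine ⟨((Algebra.linearMap k B).comp ℓ).liftBaseChange B, ?_⟩
    intro x
    change ((Algebra.linearMap k B).comp ℓ).liftBaseChange B ((1 : B) ⊗ₜ[k] x) = _
    rw [LinearMap.liftBaseChange_tmul, one_smul]
    rfl

theorem ff_bc {J : Ideal D.R} (hJh : J.IsHomogeneous D.gR) (hJ : D.FF J) :
    (D.bc B).FF (J.map (D.incl B)) := (D.bcRing_incl B).ff J hJh hJ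

/-- (R1) base change -/
theorem sys_bc [IsDomain k] [IsDomain B] {J : Ideal D.R} (hJh : J.IsHomogeneous D.gR)
    (hJ : D.FF J) (hJ' : (D.bc B).FF (J.map (D.incl B))) :
    ∃ ρ : D.Γ → Sg B, ∀ (n : D.Γ) (l : List D.Sec), (D.sys J hJ).Good n l →
      ((D.bc B).sys _ hJ').Good n (l.map (D.inclSec B)) ∧
      ((D.bc B).sys _ hJ').D n (l.map (D.inclSec B)) =
        Sg.map (algebraMap k B) ((D.sys J hJ).D n l) * diffs (l.map fun s => s.1) ρ n := by
  obtain ⟨ρ, h⟩ := (D.bcRing_incl B).seq J hJh hJ hJ'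
  exact ⟨ρ, fun n l hg => ⟨(h n l).1 hg, (h n l).2.2 inferInstance inferInstance hg⟩⟩

/-- (R1') lifting along the residue map of a local ring -/
theorem sys_local [IsLocalHom (algebraMap k B)]
    (hf : Function.Surjective (algebraMap k B))
    {J : Ideal D.R} (hJh : J.IsHomogeneous D.gR) (hJ : D.FF J)
    (hJ' : (D.bc B).FF (J.map (D.incl B))) (n : D.Γ) (l : List D.Sec)
    (h : ((D.bc B).sys _ hJ').Good n (l.map (D.inclSec B))) :
    (D.sys J hJ).Good n l := by
  obtain ⟨ρ, h1⟩ := (D.bcRing_incl B).seq J hJh hJ hJ'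
  exact (h1 n l).2.1 hf inferInstance h

end BC

end Cox

end Pool.Agent.SSF
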