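import Pool.Agent.SSF.Symb
import Pool.Agent.SSF.Common
import Pool.Agent.SSF.SysBc
import Pool.Agent.SSF.FFDvr
import Pool.Agent.SSF.G0

/-!
# SSF: specialisation of the symbol (S10)
-/

set_option autoImplicit false
open scoped TensorProduct

namespace Pool.Agent.SSF

open Pool.Agent.Helper88.SSF

namespace Cox

/-- A unit of `B` which computes the symbol for two field valued points of `B`. -/
theorem exists_unit_of_data {F : Type} [Field F] {D : Cox F} {B : Type} [CommRing B]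
    [IsDomain B] [Algebra F B] {K κ : Type} [Field K] [Field κ] [Algebra F K] [Algebra F κ]
    (i : B →ₐ[F] K) (j : B →ₐ[F] κ) (hDK : (D.bc K).Good) (hDκ : (D.bc κ).Good) (hK : Roots K)
    (hκ : Roots κ) {J : Ideal (D.bc B).R} (hJ : J.IsHomogeneous (D.bc B).gR)
    (hFF : (D.bc B).FF J) (hJK : (J.map (D.mapR i)).IsHomogeneous (D.bc K).gR)
    (hJκ : (J.map (D.mapR j)).IsHomogeneous (D.bc κ).gR)
    (hdK : (D.bc K).DimLE (J.map (D.mapR i)) 2) (hdκ : (D.bc κ).DimLE (J.map (D.mapR j)) 2)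
    {f : D.Γ} (hf : 2 • f = 0) (a b : D.Γ) {X Y s t : (D.bc B).Sec}
    (h1 : (D.bc K).Data (J.map (D.mapR i)) f a b (D.mapSec i X) (D.mapSec i Y) (D.mapSec i s)
      (D.mapSec i t))
    (h2 : (D.bc κ).Data (J.map (D.mapR j)) f a b (D.mapSec j X) (D.mapSec j Y) (D.mapSec j s)
      (D.mapSec j t))
    (hgs : D.High fun n => ((D.bc B).sys J hFF).Good n [s * s, X, Y])
    (hgt : D.High fun n => ((D.bc B).sys J hFF).Good n [t * t, X, Y]) :
    ∃ u : Bˣ, (D.bc K).symb (J.map (D.mapR i)) f a b = cls (Units.map (i : B →* K) u) ∧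
      (D.bc κ).symb (J.map (D.mapR j)) f a b = cls (Units.map (j : B →* κ) u) := by
  obtain ⟨ρ, hρ⟩ := D.sys_map i hJ hFF (ff_field hDK _)
  obtain ⟨ρ', hρ'⟩ := D.sys_map j hJ hFF (ff_field hDκ _)
  obtain ⟨m1, hX1⟩ := h1.hX
  obtain ⟨m2, hY1⟩ := h1.hY
  obtain ⟨m3, hX2⟩ := h2.hX
  obtain ⟨m4, hY2⟩ := h2.hY
  obtain ⟨N1, H1⟩ := symb_data hDK hK hJK hdK (f := f) hf a b hX1 hY1 h1.hst h1.h2 h1.h1 h1.hs
    h1.ht 0
  obtain ⟨N2, H2⟩ := symb_data hDκ hκ hJκ hdκ (f := f) hf a b hX2 hY2 h2.hst h2.h2 h2.h1 h2.hs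
    h2.ht 0
  obtain ⟨N3, H3⟩ := hgs 0
  obtain ⟨N4, H4⟩ := hgt 0
  set N := max (max N1 N2) (max N3 N4) with hN
  have H1' := H1 N (by omega)
  have H2' := H2 N (by omega)
  have H3' := H3 N (by omega)
  have H4' := H4 N (by omega)
  clear H1 H2 H3 H4
  obtain ⟨n, hn⟩ : ∃ n : D.Γ, n = 0 + N • D.h := ⟨_, rfl⟩
  change ∀ u : Kˣ, sg K u = ((D.bc K).sys _ (ff_field hDK _)).D (0 + N • D.h) _ /
    ((D.bc K).sys _ (ff_field hDK _)).D (0 + N • D.h) _ → _ at H1'
  change ∀ u : κˣ, sg κ u = ((D.bc κ).sys _ (ff_field hDκ _)).D (0 + N • D.h) _ /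
    ((D.bc κ).sys _ (ff_field hDκ _)).D (0 + N • D.h) _ → _ at H2'
  rw [← hn] at H1' H2' H3' H4'
  obtain ⟨u, hu⟩ := sg_surjective (((D.bc B).sys J hFF).D n [s * s, X, Y] /
    ((D.bc B).sys J hFF).D n [t * t, X, Y])
  have hdeg : (s * s).1 = (t * t).1 := by
    change s.1 + s.1 = t.1 + t.1
    have e1 : s.1 = f + t.1 := h1.hst
    have e2 : f + f = 0 := by rw [← two_nsmul]; exact hf
    rw [e1, show f + t.1 + (f + t.1) = (f + f) + (t.1 + t.1) by abel, e2, zero_add]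
  refine ⟨u, H1' _ ?_, H2' _ ?_⟩
  · have e1 := (hρ n _ H3').2
    have e2 := (hρ n _ H4').2
    simp only [List.map_cons, List.map_nil, mapSec_mul] at e1 e2
    rw [e1, e2, hdeg, mul_div_mul_right_eq_div, ← map_div, ← hu]
    rfl
  · have e1 := (hρ' n _ H3').2
    have e2 := (hρ' n _ H4').2
    simp only [List.map_cons, List.map_nil, mapSec_mul] at e1 e2
    rw [e1, e2, hdeg, mul_div_mul_right_eq_div, ← map_div, ← hu]
    rfl

/-- The image of a homogeneous ideal is homogeneous. -/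
theorem isHomogeneous_mapR {k : Type} [CommRing k] (D : Cox k) {B B' : Type} [CommRing B]
    [Algebra k B] [CommRing B'] [Algebra k B'] (f : B →ₐ[k] B') {J : Ideal (D.bc B).R}
    (hJ : J.IsHomogeneous (D.bc B).gR) : (J.map (D.mapR f)).IsHomogeneous (D.bc B').gR := by
  let g : GradedRingHom (D.bc B).gR (D.bc B').gR := D.gmapR f
  let I : HomogeneousIdeal (D.bc B).gR := ⟨J, hJ⟩
  exact (HomogeneousIdeal.map g I).isHomogeneous

/-- S10 specialisation over a discrete valuation ring -/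
theorem symb_spec {F : Type} [Field F] {D : Cox F} (hD : D.Good) (O : Type) [CommRing O]
    [IsDomain O] [IsDiscreteValuationRing O] [Algebra F O] (K κ : Type) [Field K] [Field κ]
    [Algebra F K] [Algebra F κ] (i : O →ₐ[F] K) (_hi : Function.Injective i)
    (_hfrac : ∀ x : K, ∃ a b : O, b ≠ 0 ∧ x * i b = i a)
    (j : O →ₐ[F] κ) (hj : Function.Surjective j) (hK : Roots K) (hκ : Roots κ)
    (J : Ideal (D.bc O).R) (hJ : J.IsHomogeneous (D.bc O).gR)
    (hflat : ∀ c : O, c ≠ 0 → ∀ x : (D.bc O).R, c • x ∈ J → x ∈ J)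
    (hdK : (D.bc K).DimLE (J.map (D.mapR i)) 2)
    (hdκ : (D.bc κ).DimLE (J.map (D.mapR j)) 2)
    {f : D.Γ} (hf : 2 • f = 0) (a b : D.Γ) :
    ∃ u : Oˣ, (D.bc K).symb (J.map (D.mapR i)) f a b =
        cls (Units.map (i : O →* K) u) ∧
      (D.bc κ).symb (J.map (D.mapR j)) f a b = cls (Units.map (j : O →* κ) u) := by
  have hDO : (D.bc O).Good := hD.bc O
  have hDK : (D.bc K).Good := hD.bc K
  have hDκ : (D.bc κ).Good := hD.bc κ
  have hFF : (D.bc O).FF J := ff_dvr hDO hflat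
  have hJK := D.isHomogeneous_mapR i hJ
  have hJκ := D.isHomogeneous_mapR j hJ
  obtain ⟨X, Y, s, t, h1, h2⟩ := exists_common_data hD O K κ i j _ hdK _ hdκ f a b
  have hloc : IsLocalHom (j : O →+* κ) := IsLocalHom.of_surjective _ hj
  have hgs : D.High fun n => ((D.bc O).sys J hFF).Good n [s * s, X, Y] := by
    intro γ
    obtain ⟨N, hN⟩ := sys_good hDκ hJκ (ff_field hDκ _) (dm_mul hDκ h2.hs h2.hs) γ
    refine ⟨N, fun n hn => ?_⟩
    refine D.sys_map_local j hj hJ hFF (ff_field hDκ _) _ _ ?_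
    have h3 := hN n hn
    simp only [List.map_cons, List.map_nil, mapSec_mul]
    exact h3
  have hgt : D.High fun n => ((D.bc O).sys J hFF).Good n [t * t, X, Y] := by
    intro γ
    obtain ⟨N, hN⟩ := sys_good hDκ hJκ (ff_field hDκ _) (dm_mul hDκ h2.ht h2.ht) γ
    refine ⟨N, fun n hn => ?_⟩
    refine D.sys_map_local j hj hJ hFF (ff_field hDκ _) _ _ ?_
    have h3 := hN n hn
    simp only [List.map_cons, List.map_nil, mapSec_mul]
    exact h3
  exact exists_unit_of_data i j hDK hDκ hK hκ hJ hFF hJK hJκ hdK hdκ hf a b h1 h2 hgs hgt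

end Cox
end Pool.Agent.SSF
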