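import Pool.Agent.SSF.Spec

/-!
# SSF: base change of the symbol along a homomorphism of fields (S9)
-/

set_option autoImplicit false
open scoped TensorProduct

namespace Pool.Agent.SSF

open Pool.Agent.Helper88.SSF

namespace Cox

namespace SBc

theorem map_mapR_id {k : Type} [CommRing k] (D : Cox k) {B : Type} [CommRing B] [Algebra k B]
    (J : Ideal (D.bc B).R) : J.map (D.mapR (AlgHom.id k B)) = J := by
  have h : D.mapR (AlgHom.id k B) = RingHom.id (D.bc B).R := by
    refine RingHom.ext fun x => ?_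
    change Algebra.TensorProduct.map (AlgHom.id k B) (AlgHom.id k D.R) x = x
    rw [Algebra.TensorProduct.map_id]
    rfl
  rw [h, Ideal.map_id]

theorem mapSec_id {k : Type} [CommRing k] (D : Cox k) {B : Type} [CommRing B] [Algebra k B]
    (s : (D.bc B).Sec) : D.mapSec (AlgHom.id k B) s = s := by
  refine sec_ext rfl ?_
  change Algebra.TensorProduct.map (AlgHom.id k B) (AlgHom.id k D.R) (val s) = val s
  rw [Algebra.TensorProduct.map_id]
  rfl

end SBc

/-- S9 base change along a homomorphism of fields over `F` -/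
theorem symb_bc {F : Type} [Field F] {D : Cox F} (hD : D.Good) (K L : Type) [Field K]
    [Algebra F K] [Field L] [Algebra F L]
    (j : K →ₐ[F] L) (hK : Roots K) (hL : Roots L) {J : Ideal (D.bc K).R}
    (hJ : J.IsHomogeneous (D.bc K).gR) (hd : (D.bc K).DimLE J 2)
    (hdL : (D.bc L).DimLE (J.map (D.mapR j)) 2) {f : D.Γ} (hf : 2 • f = 0) (a b : D.Γ)
    (u : Kˣ) (hu : (D.bc K).symb J f a b = cls u) :
    (D.bc L).symb (J.map (D.mapR j)) f a b = cls (Units.map (j : K →* L) u) := by
  have hDK : (D.bc K).Good := hD.bc K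
  have hDL : (D.bc L).Good := hD.bc L
  have hFF : (D.bc K).FF J := ff_field hDK J
  have hJL := D.isHomogeneous_mapR j hJ
  have hid := SBc.map_mapR_id D J
  obtain ⟨X, Y, s, t, h1, h2⟩ := exists_common_data hD K K L (AlgHom.id F K) j J hd _ hdL f a b
  have hgs : D.High fun n => ((D.bc K).sys J hFF).Good n [s * s, X, Y] := by
    have h := dm_mul hDK h1.hs h1.hs
    simp only [SBc.mapSec_id] at h
    exact sys_good hDK hJ hFF h
  have hgt : D.High fun n => ((D.bc K).sys J hFF).Good n [t * t, X, Y] := by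
    have h := dm_mul hDK h1.ht h1.ht
    simp only [SBc.mapSec_id] at h
    exact sys_good hDK hJ hFF h
  have hJ' : (J.map (D.mapR (AlgHom.id F K))).IsHomogeneous (D.bc K).gR := by
    rw [hid]; exact hJ
  have hd' : (D.bc K).DimLE (J.map (D.mapR (AlgHom.id F K))) 2 := by
    rw [hid]; exact hd
  have h1' : (D.bc K).Data (J.map (D.mapR (AlgHom.id F K))) f a b (D.mapSec (AlgHom.id F K) X)
      (D.mapSec (AlgHom.id F K) Y) (D.mapSec (AlgHom.id F K) s)
      (D.mapSec (AlgHom.id F K) t) := by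
    rw [hid]; exact h1
  obtain ⟨v, hv1, hv2⟩ := exists_unit_of_data (AlgHom.id F K) j hDK hDL hK hL hJ hFF hJ' hJL hd'
    hdL hf a b h1' h2 hgs hgt
  rw [hid, hu] at hv1
  rw [hv2]
  have hv3 : (cls u : SqCl K) = cls v := hv1
  rw [cls, cls, QuotientGroup.eq] at hv3
  obtain ⟨w, hw⟩ := hv3
  rw [cls, cls, eq_comm, QuotientGroup.eq]
  refine ⟨Units.map (j : K →* L) w, ?_⟩
  change (Units.map (j : K →* L) w) ^ 2 = _
  have hw' : w ^ 2 = u⁻¹ * v := hw
  rw [← map_pow, hw', map_mul, map_inv]

end Cox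
end Pool.Agent.SSF
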