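import Pool.Agent.SSF.Symb

/-!
# SSF: additivity of the symbol (colon ideals) and dependence on high degrees only
-/

set_option autoImplicit false
open scoped TensorProduct

namespace Pool.Agent.SSF

open Pool.Agent.Helper88.SSF

namespace CH

open Cox

section Pts

variable {k : Type} [CommRing k] {D : Cox k}

theorem high_and {P Q : D.Γ → Prop} (hP : D.High P) (hQ : D.High Q) :
    D.High fun γ => P γ ∧ Q γ := HighP.and (h := D.h) hP hQ

theorem high_mono {P Q : D.Γ → Prop} (h : ∀ γ, P γ → Q γ) (hP : D.High P) : D.High Q :=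
  HighP.mono (h := D.h) h hP

theorem high_sub {P : D.Γ → Prop} (hP : D.High P) (g : D.Γ) : D.High fun γ => P (γ - g) :=
  HighP.sub (h := D.h) hP g

theorem high_allSub {P : D.Γ → Prop} (hP : D.High P) (l : List D.Γ) : D.High (AllSub P l) :=
  HighP.allSub (h := D.h) hP l

theorem on_sup {J I : Ideal D.R} {p : D.Pt} : D.On (J ⊔ I) p ↔ D.On J p ∧ D.On I p :=
  sup_le_iff

theorem on_of_high (hD : D.Good) {J J' : Ideal D.R} (hJ : J.IsHomogeneous D.gR)
    (h : D.High fun γ => ∀ x ∈ D.gR γ, x ∈ J → x ∈ J') {p : D.Pt} (hp : D.On J' p) :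
    D.On J p := by
  classical
  intro x hx
  rw [← DirectSum.sum_support_decompose D.gR x]
  refine Ideal.sum_mem _ fun γ _ => ?_
  have hc : (DirectSum.decompose D.gR x γ : D.R) ∈ J := hJ γ hx
  have hγ : (DirectSum.decompose D.gR x γ : D.R) ∈ D.gR γ := SetLike.coe_mem _
  obtain ⟨N, hN⟩ := h γ
  obtain ⟨n, hn, y, hy, hyp⟩ := D.pt_ne_top hD p 0 N
  rw [zero_add] at hy
  have h1 : (DirectSum.decompose D.gR x γ : D.R) * y ∈ D.pt p :=
    hp (hN n hn _ (SetLike.mul_mem_graded hγ hy) (J.mul_mem_right _ hc))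
  exact (D.pt_prime hD p hγ hy h1).resolve_right hyp

theorem on_iff_of_high (hD : D.Good) {J J' : Ideal D.R} (hJ : J.IsHomogeneous D.gR)
    (hJ' : J'.IsHomogeneous D.gR) (h : D.High fun γ => ∀ x ∈ D.gR γ, x ∈ J ↔ x ∈ J')
    (p : D.Pt) : D.On J p ↔ D.On J' p := by
  constructor
  · refine on_of_high hD hJ' fun γ => ?_
    obtain ⟨N, hN⟩ := h γ
    exact ⟨N, fun n hn x hx hx' => (hN n hn x hx).2 hx'⟩
  · refine on_of_high hD hJ fun γ => ?_
    obtain ⟨N, hN⟩ := h γ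
    exact ⟨N, fun n hn x hx hx' => (hN n hn x hx).1 hx'⟩

theorem dimLE_of_on {J J' : Ideal D.R} (h : ∀ p, D.On J' p → D.On J p) {d : ℕ}
    (hd : D.DimLE J d) : D.DimLE J' d := fun l hl => hd l (h _ hl)

theorem dm_of_on {J J' : Ideal D.R} (h : ∀ p, D.On J' p → D.On J p) {j : ℕ}
    {l : List D.Sec} (hd : D.dm J j l) : D.dm J' j l := fun c hc =>
  hd c (on_sup.2 ⟨h _ (on_sup.1 hc).1, (on_sup.1 hc).2⟩)

theorem on_mono {J J' : Ideal D.R} (h : J ≤ J') (p : D.Pt) (hp : D.On J' p) : D.On J p :=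
  h.trans hp

/-- `V(s s, l) = V(s, l)`. -/
theorem dm_sq (hD : D.Good) {J : Ideal D.R} {j : ℕ} {s : D.Sec} {l : List D.Sec}
    (hd : D.dm J j (s :: l)) : D.dm J j (s * s :: l) := by
  intro c hc
  refine hd c (on_sup.2 ⟨(on_sup.1 hc).1, ?_⟩)
  have h1 := (on_sup.1 hc).2
  refine Ideal.span_le.2 ?_
  rintro _ ⟨t, ht, rfl⟩
  rcases List.mem_cons.1 ht with rfl | ht
  · have h2 : val t * val t ∈ D.pt c.head :=
      h1 (Ideal.subset_span ⟨t * t, List.mem_cons_self, rfl⟩)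
    rcases D.pt_prime hD c.head t.2.2 t.2.2 h2 with h3 | h3
    · exact h3
    · exact h3
  · exact h1 (Ideal.subset_span ⟨t, List.mem_cons_of_mem _ ht, rfl⟩)

theorem colon_homogeneous {J : Ideal D.R} (hJ : J.IsHomogeneous D.gR) {δ : D.Γ} {r : D.R}
    (hr : r ∈ D.gR δ) : (J.colon (Ideal.span {r})).IsHomogeneous D.gR := by
  classical
  intro γ x hx
  rw [Submodule.mem_colon_span_singleton] at hx ⊢
  have h1 := hJ (γ + δ) hx
  rw [smul_eq_mul, DirectSum.decompose_mul] at h1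
  rw [smul_eq_mul]
  have h2 : (DirectSum.decompose D.gR (x * r) (γ + δ) : D.R) =
      (DirectSum.decompose D.gR x γ : D.R) * r := by
    rw [DirectSum.coe_decompose_mul_add_of_right_mem D.gR hr]
  rw [← h2, DirectSum.decompose_mul]
  exact h1

theorem sup_homogeneous {J : Ideal D.R} (hJ : J.IsHomogeneous D.gR) {δ : D.Γ} {r : D.R}
    (hr : r ∈ D.gR δ) : (J ⊔ Ideal.span {r}).IsHomogeneous D.gR := by
  refine Ideal.IsHomogeneous.sup hJ (Ideal.homogeneous_span _ _ ?_)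
  rintro _ rfl
  exact ⟨δ, hr⟩

theorem le_colon (J : Ideal D.R) (r : D.R) : J ≤ J.colon (Ideal.span {r}) := fun x hx => by
  rw [Submodule.mem_colon_span_singleton, smul_eq_mul]
  exact J.mul_mem_right _ hx

end Pts

section Main

variable {K : Type} [Field K] {D : Cox K}

theorem sec_sq_deg {f : D.Γ} (hf : 2 • f = 0) {s t : D.Sec} (hst : s.1 = f + t.1) :
    (s * s).1 = (t * t).1 := by
  show s.1 + s.1 = t.1 + t.1
  rw [hst]
  have h2 : f + f = 0 := by rw [← two_nsmul]; exact hf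
  calc f + t.1 + (f + t.1) = (f + f) + (t.1 + t.1) := by abel
    _ = t.1 + t.1 := by rw [h2, zero_add]

/-- High degree form of the comparison of ideals which agree in high degrees. -/
theorem sys_high' (hD : D.Good) {J J' : Ideal D.R} (h : D.High fun γ => ∀ x ∈ D.gR γ, x ∈ J ↔ x ∈ J')
    (h1 : D.FF J) (h2 : D.FF J') :
    ∃ ρ : D.Γ → Sg K, ∀ l : List D.Sec, D.High fun n =>
      (((D.sys _ h1).Good n l ↔ (D.sys _ h2).Good n l) ∧
      ((D.sys _ h1).Good n l → (D.sys _ h2).D n l = (D.sys _ h1).D n l *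
        diffs (l.map fun s => s.1) ρ n)) := by
  obtain ⟨ρ, hρ⟩ := sys_high hD (J := J) (J' := J')
    (fun γ => ∀ x ∈ D.gR γ, x ∈ J ↔ x ∈ J') (fun _ hγ => hγ) h1 h2
  exact ⟨ρ, fun l => high_mono (fun n hn => hρ n l hn) (high_allSub h (l.map fun s => s.1))⟩

/-- The unit computing the symbol depends on the high degrees only. -/
theorem isSymb_high (hD : D.Good) {J J' : Ideal D.R} (hJ : J.IsHomogeneous D.gR)
    (hJ' : J'.IsHomogeneous D.gR) (h : D.High fun γ => ∀ x ∈ D.gR γ, x ∈ J ↔ x ∈ J')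
    {f : D.Γ} (hf : 2 • f = 0) {a b : D.Γ} {u : Kˣ} (hu : D.IsSymb J f a b u) :
    D.IsSymb J' f a b u := by
  obtain ⟨_, _, X, Y, s, t, m, m', hX, hY, hst, hdX, hdY, hdXY, hds, hdt, hH⟩ := hu
  have hon : ∀ p, D.On J' p → D.On J p := fun p => (on_iff_of_high hD hJ hJ' h p).2
  refine ⟨hD, hJ', X, Y, s, t, m, m', hX, hY, hst, dm_of_on hon hdX, dm_of_on hon hdY,
    dm_of_on hon hdXY, dm_of_on hon hds, dm_of_on hon hdt, ?_⟩
  obtain ⟨ρ, hρ⟩ := sys_high' hD h (ff_field hD J) (ff_field hD J')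
  have hg : ∀ q : D.Sec, D.dm J 0 [q, X, Y] →
      D.High fun n => (D.sys J (ff_field hD J)).Good n [q * q, X, Y] :=
    fun q hq => sys_good hD hJ _ (dm_sq hD hq)
  refine high_mono ?_ (high_and (high_and hH (high_and (hρ [s * s, X, Y])
    (hρ [t * t, X, Y]))) (high_and (hg s hds) (hg t hdt)))
  rintro n ⟨⟨h1, ⟨-, h2⟩, ⟨-, h3⟩⟩, h4, h5⟩
  rw [h1, h2 h4, h3 h5]
  have e : ([s * s, X, Y] : List D.Sec).map (fun s => s.1) =
      ([t * t, X, Y] : List D.Sec).map (fun s => s.1) := by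
    simp only [List.map_cons, List.map_nil, sec_sq_deg hf hst]
  rw [e, mul_div_mul_right_eq_div]

end Main

end CH

namespace Cox

open CH

variable {K : Type} [Field K] {D : Cox K}

/-- S2: only high degrees matter. -/
theorem symb_high (hD : D.Good) (hK : Roots K) {J J' : Ideal D.R}
    (hJ : J.IsHomogeneous D.gR) (hJ' : J'.IsHomogeneous D.gR) (hd : D.DimLE J 2)
    (h : D.High fun γ => ∀ x ∈ D.gR γ, x ∈ J ↔ x ∈ J') {f : D.Γ} (hf : 2 • f = 0)
    (a b : D.Γ) : D.symb J f a b = D.symb J' f a b := by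
  obtain ⟨u, hu⟩ := exists_symb hD hJ hd hf a b
  rw [symb_eq_of hK hd hf hu, symb_eq_of hK
    (dimLE_of_on (fun p => (on_iff_of_high hD hJ hJ' h p).2) hd) hf
    (isSymb_high hD hJ hJ' h hf hu)]

/-- S1: additivity. -/
theorem symb_colon (hD : D.Good) (hK : Roots K) {J : Ideal D.R} (hJ : J.IsHomogeneous D.gR)
    (hd : D.DimLE J 2) {f : D.Γ} (hf : 2 • f = 0) (a b : D.Γ) {δ : D.Γ} {r : D.R}
    (hr : r ∈ D.gR δ) :
    D.symb J f a b = D.symb (J.colon (Ideal.span {r})) f a b *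
      D.symb (J ⊔ Ideal.span {r}) f a b := by
  obtain ⟨_, _, _, X, Y, s, t, m, m', hX, hY, hst, hdX, -, hdXY, hds, hdt, -⟩ :=
    exists_symb hD hJ hd hf a b
  have hJ1 := colon_homogeneous hJ hr
  have hJ2 := sup_homogeneous hJ hr
  have k1 : J ≤ J.colon (Ideal.span {r}) := le_colon J r
  have k2 : J ≤ J ⊔ Ideal.span {r} := le_sup_left
  obtain ⟨ρ, hρ⟩ := sys_colon hJ hr (ff_field hD J)
    (ff_field hD (J.colon (Ideal.span {r}))) (ff_field hD (J ⊔ Ideal.span {r}))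
  have A0 := symb_data hD hK hJ hd hf a b hX hY hst hdX hdXY hds hdt
  have key : ∀ J' : Ideal D.R, J ≤ J' → J'.IsHomogeneous D.gR → D.High fun n =>
      (∀ u : Kˣ, sg K u = (D.sys J' (ff_field hD J')).D n [s * s, X, Y] /
        (D.sys J' (ff_field hD J')).D n [t * t, X, Y] → D.symb J' f a b = cls u) ∧
      (D.sys J' (ff_field hD J')).Good n [s * s, X, Y] ∧
      (D.sys J' (ff_field hD J')).Good n [t * t, X, Y] := by
    intro J' hle hJ'
    have hdm : ∀ {j : ℕ} {l : List D.Sec}, D.dm J j l → D.dm J' j l :=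
      fun h => dm_of_on (on_mono hle) h
    exact high_and (symb_data hD hK hJ' (dimLE_of_on (on_mono hle) hd) hf a b hX hY hst
      (hdm hdX) (hdm hdXY) (hdm hds) (hdm hdt))
      (high_and (sys_good hD hJ' _ (dm_sq hD (hdm hds)))
        (sys_good hD hJ' _ (dm_sq hD (hdm hdt))))
  have A1 := high_sub (key _ k1 hJ1) δ
  have A2 := key _ k2 hJ2
  obtain ⟨N, hN⟩ := high_and A0 (high_and A1 A2) 0
  obtain ⟨B0, ⟨B1, G1, G1'⟩, B2, G2, G2'⟩ := hN N le_rfl
  generalize (0 : D.Γ) + N • D.h = n at *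
  obtain ⟨u1, hu1⟩ := sg_surjective ((D.sys _ (ff_field hD
    (J.colon (Ideal.span {r})))).D (n - δ) [s * s, X, Y] /
    (D.sys _ (ff_field hD (J.colon (Ideal.span {r})))).D (n - δ) [t * t, X, Y])
  obtain ⟨u2, hu2⟩ := sg_surjective ((D.sys _ (ff_field hD
    (J ⊔ Ideal.span {r}))).D n [s * s, X, Y] /
    (D.sys _ (ff_field hD (J ⊔ Ideal.span {r}))).D n [t * t, X, Y])
  have e : ([s * s, X, Y] : List D.Sec).map (fun s => s.1) =
      ([t * t, X, Y] : List D.Sec).map (fun s => s.1) := by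
    simp only [List.map_cons, List.map_nil, sec_sq_deg hf hst]
  have e0 : sg K (u1 * u2) = (D.sys J (ff_field hD J)).D n [s * s, X, Y] /
      (D.sys J (ff_field hD J)).D n [t * t, X, Y] := by
    rw [map_mul, hu1, hu2, (hρ n _ G1 G2).2, (hρ n _ G1' G2').2, e, mul_div_mul_right_eq_div,
      mul_div_mul_comm]
  rw [B0 _ e0, B1 _ hu1, B2 _ hu2]
  rfl

end Cox

end Pool.Agent.SSF
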