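import Pool.Agent.SSF.Symb

/-!
# SSF: the formal properties (S3) - (S7) of the symbol
-/

set_option autoImplicit false

namespace Pool.Agent.SSF

open Pool.Agent.Helper88.SSF

namespace Cox

variable {K : Type} [Field K] {D : Cox K}

/-- S3 dimension one -/
theorem symb_one (hD : D.Good) (hK : Roots K) {J : Ideal D.R} (hJ : J.IsHomogeneous D.gR)
    (hd : D.DimLE J 1) {f : D.Γ} (hf : 2 • f = 0) (a b : D.Γ) :
    D.symb J f a b = 1 := by
  have hd2 : D.DimLE J 2 := fun l hl => le_trans (hd l hl) (by norm_num)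
  have h2 : (D.tors hD J hJ).sm 2 [] := by
    rw [tors_sm]
    exact dm_nil_iff'.2 hd
  rw [symb_eq_vb hD hJ, Eng.vb_low (tors_sm3 hD hJ hd2) h2 (two_nsmul_zero hf), toSq_zero hK]

/-- S4 bi-additive, symmetric, additive in `f` -/
theorem symb_add_left (hD : D.Good) (hK : Roots K) {J : Ideal D.R}
    (hJ : J.IsHomogeneous D.gR) (hd : D.DimLE J 2) {f : D.Γ} (hf : 2 • f = 0)
    (a a' b : D.Γ) :
    D.symb J f (a + a') b = D.symb J f a b * D.symb J f a' b := by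
  rw [symb_eq_vb hD hJ, symb_eq_vb hD hJ, symb_eq_vb hD hJ,
    Eng.vb_add_left (tors_sm3 hD hJ hd) (two_nsmul_zero hf), toSq_add hK]

theorem symb_comm (hD : D.Good) (_hK : Roots K) {J : Ideal D.R}
    (hJ : J.IsHomogeneous D.gR) (hd : D.DimLE J 2) {f : D.Γ} (hf : 2 • f = 0)
    (a b : D.Γ) : D.symb J f a b = D.symb J f b a := by
  rw [symb_eq_vb hD hJ, symb_eq_vb hD hJ,
    Eng.vb_comm (tors_sm3 hD hJ hd) (two_nsmul_zero hf)]

theorem symb_add (hD : D.Good) (hK : Roots K) {J : Ideal D.R}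
    (hJ : J.IsHomogeneous D.gR) (hd : D.DimLE J 2) {f f' : D.Γ} (hf : 2 • f = 0)
    (hf' : 2 • f' = 0) (a b : D.Γ) :
    D.symb J (f + f') a b = D.symb J f a b * D.symb J f' a b := by
  rw [symb_eq_vb hD hJ, symb_eq_vb hD hJ, symb_eq_vb hD hJ,
    Eng.vb_add (tors_sm3 hD hJ hd) (two_nsmul_zero hf) (two_nsmul_zero hf'), toSq_add hK]

/-- S5 (T2) -/
theorem symb_T2 (hD : D.Good) (hK : Roots K) {J : Ideal D.R}
    (hJ : J.IsHomogeneous D.gR) (hd : D.DimLE J 2) {f g : D.Γ} (hf : 2 • f = 0)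
    (hg : 2 • g = 0) (b : D.Γ) : D.symb J f g b = D.symb J g f b := by
  rw [symb_eq_vb hD hJ, symb_eq_vb hD hJ,
    Eng.vb_T2 (tors_sm3 hD hJ hd) (vg_two hK) (two_nsmul_zero hf) (two_nsmul_zero hg)]

/-- S6 (U) -/
theorem symb_U (hD : D.Good) (_hK : Roots K) {J : Ideal D.R}
    (hJ : J.IsHomogeneous D.gR) (hd : D.DimLE J 2) {f g : D.Γ} (hf : 2 • f = 0)
    (hg : 2 • g = 0) : D.symb J f g g = D.symb J g f f := by
  rw [symb_eq_vb hD hJ, symb_eq_vb hD hJ,
    Eng.vb_U (tors_sm3 hD hJ hd) (two_nsmul_zero hf) (two_nsmul_zero hg)]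

/-- A section outside the point `p` lowers the dimension. -/
theorem dm_pt_cons {p : D.Pt} {j : ℕ} (hd : D.DLT (D.pt p) (j + 1)) (hD : D.Good)
    (x : D.Sec) (hx : val x ∉ D.pt p) : D.dm (D.pt p) j [x] := by
  rw [dm_iff]
  intro c hc hs
  have hxc : val x ∈ D.pt c.head := hs x (List.mem_singleton_self x)
  have hle : p ≤ c.head := (D.pt_le_pt hD p c.head).1 hc
  have hlt : p < c.head := by
    refine lt_of_le_of_ne hle ?_
    rintro rfl
    exact hx hxc
  have h1 := hd (c.cons p hlt) (by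
    rw [RelSeries.head_cons]
    exact le_refl _)
  rw [RelSeries.cons_length] at h1
  omega

/-- S7 (NB) -/
theorem symb_NB (hD : D.Good) (hK : Roots K) (p : D.Pt) (hd : D.DimLE (D.pt p) 2)
    {f : D.Γ} (hf : 2 • f = 0) {α β : D.Γ} {x y : D.R} (hx : x ∈ D.gR α)
    (hy : y ∈ D.gR β) (hxy : D.ZF (D.pt p) [x, y]) : D.symb (D.pt p) f α β = 1 := by
  have hJ : (D.pt p).IsHomogeneous D.gR := D.ext_homogeneous _
  set E := D.tors hD (D.pt p) hJ with hE
  have key : ∀ z : D.Sec, E.sm 2 [z] ∨ ∀ l, E.sm 0 (z :: l) → E.sm 0 l := by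
    intro z
    by_cases hz : val z ∈ D.pt p
    · right
      intro l hl
      rw [hE, tors_sm] at hl ⊢
      rw [dm_zero_iff] at hl ⊢
      intro q hq
      obtain ⟨s, hs, hsq⟩ := hl q hq
      rcases List.mem_cons.1 hs with rfl | hs'
      · exact absurd (hq hz) hsq
      · exact ⟨s, hs', hsq⟩
    · left
      rw [hE, tors_sm]
      exact dm_pt_cons (dlt_iff.2 hd) hD z hz
  have h0 : E.sm 0 [mkSec x hx, mkSec y hy] := by
    rw [hE, tors_sm, dm_zero_iff_ZF]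
    exact hxy
  have h1 := Eng.vb_NB (E := E) (tors_sm3 hD hJ hd)
    (fun j l h => by
      rw [hE, tors_sm] at h ⊢
      exact dlt_mono_nat (Nat.le_succ j) h) h0 (key _) (key _) (two_nsmul_zero hf)
  rw [hE, tors_deg, tors_deg] at h1
  rw [symb_eq_vb hD hJ]
  refine Eq.trans ?_ (toSq_zero hK)
  rw [← h1]

end Cox

end Pool.Agent.SSF
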