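import Pool.Agent.SSF.AsmA
import Pool.Agent.SSF.G0
import Pool.Agent.SSF.G7
import Pool.Agent.SSF.G8
import Pool.Agent.SSF.G3
import Pool.Agent.SSF.SymbCH
import Pool.Agent.SSF.SymbProps
import Pool.Agent.SSF.Rat
import Pool.Agent.SSF.Spec
import Pool.Agent.SSF.SymbBc
import Pool.Agent.SSF.Regrade

/-! # SSF: the datum of the bridge from the symbol -/

set_option autoImplicit false
open scoped TensorProduct

namespace Pool.Agent.SSF
namespace Cox
namespace Asm

section Flat

variable {F : Type} [Field F] {D : Cox F} {O K : Type} [CommRing O] [Algebra F O] [Field K]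
  [Algebra F K]

theorem smul_bc_A_one (D : Cox F) (B : Type) [CommRing B] [Algebra F B] (c : B)
    (x : (D.bc B).A) : c • x = algebraMap B (D.bc B).A c * x := Algebra.smul_def _ _

theorem mapA_tmul {B B' : Type} [CommRing B] [Algebra F B] [CommRing B'] [Algebra F B']
    (f : B →ₐ[F] B') (b : B) (x : D.A) : D.mapA f (b ⊗ₜ[F] x) = f b ⊗ₜ[F] x := by
  simp [mapA]

theorem mapA_smul {B B' : Type} [CommRing B] [Algebra F B] [CommRing B'] [Algebra F B']
    (f : B →ₐ[F] B') (b : B) (x : (D.bc B).A) :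
    D.mapA f (b • x) = f b • D.mapA f x := by
  induction x using TensorProduct.induction_on with
  | zero => simp
  | tmul c y => rw [TensorProduct.smul_tmul', mapA_tmul, mapA_tmul, TensorProduct.smul_tmul',
      smul_eq_mul, smul_eq_mul, map_mul]
  | add x y hx hy => rw [smul_add, map_add, hx, hy, map_add, smul_add]

theorem mapA_mem {B B' : Type} [CommRing B] [Algebra F B] [CommRing B'] [Algebra F B']
    (f : B →ₐ[F] B') {n : ℕ} {x : (D.bc B).A} (hx : x ∈ (D.bc B).gA n) :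
    D.mapA f x ∈ (D.bc B').gA n := by
  change x ∈ (D.gA n).baseChange B at hx
  change _ ∈ (D.gA n).baseChange B'
  rw [Submodule.baseChange_eq_span] at hx
  induction hx using Submodule.span_induction with
  | mem x hx =>
    obtain ⟨y, hy, rfl⟩ := hx
    rw [TensorProduct.mk_apply, mapA_tmul, map_one]
    exact Submodule.tmul_mem_baseChange_of_mem _ hy
  | zero => rw [map_zero]; exact Submodule.zero_mem _
  | add x y _ _ hx hy => rw [map_add]; exact Submodule.add_mem _ hx hy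
  | smul b x _ hx => rw [mapA_smul]; exact Submodule.smul_mem _ _ hx

theorem decompose_mapA {B B' : Type} [CommRing B] [Algebra F B] [CommRing B'] [Algebra F B']
    (f : B →ₐ[F] B') (y : (D.bc B).A) (n : ℕ) :
    (DirectSum.decompose (D.bc B').gA (D.mapA f y) n : (D.bc B').A) =
      D.mapA f (DirectSum.decompose (D.bc B).gA y n : (D.bc B).A) := by
  induction y using DirectSum.Decomposition.inductionOn (D.bc B).gA with
  | zero => simp
  | @homogeneous i m =>
    have h1 : D.mapA f (m : (D.bc B).A) ∈ (D.bc B').gA i := mapA_mem f m.2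
    by_cases hi : i = n
    · subst hi
      rw [DirectSum.decompose_of_mem_same _ h1, DirectSum.decompose_of_mem_same _ m.2]
    · rw [DirectSum.decompose_of_mem_ne _ h1 hi, DirectSum.decompose_of_mem_ne _ m.2 hi, map_zero]
  | add x y hx hy =>
    rw [map_add, DirectSum.decompose_add, DirectSum.decompose_add, DirectSum.add_apply,
      DirectSum.add_apply, Submodule.coe_add, Submodule.coe_add, map_add, hx, hy]

theorem comap_mapA_homogeneous {B B' : Type} [CommRing B] [Algebra F B] [CommRing B']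
    [Algebra F B'] (f : B →ₐ[F] B') {I : Ideal (D.bc B').A} (hI : I.IsHomogeneous (D.bc B').gA) :
    (I.comap (D.mapA f)).IsHomogeneous (D.bc B).gA := by
  intro n x hx
  rw [Ideal.mem_comap] at hx ⊢
  rw [← decompose_mapA]
  exact hI n hx

/-- Clearing denominators. -/
theorem exists_smul_eq_mapA (i : O →ₐ[F] K)
    (hfrac : ∀ x : K, ∃ a b : O, i b ≠ 0 ∧ x * i b = i a) (x : (D.bc K).A) :
    ∃ (b : O) (y : (D.bc O).A), i b ≠ 0 ∧ i b • x = D.mapA i y := by
  induction x using TensorProduct.induction_on with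
  | zero => exact ⟨1, 0, by simp, by simp⟩
  | tmul c y =>
    obtain ⟨a, b, hb, hab⟩ := hfrac c
    refine ⟨b, a ⊗ₜ y, hb, ?_⟩
    rw [mapA_tmul, TensorProduct.smul_tmul', smul_eq_mul, mul_comm, hab]
  | add x y hx hy =>
    obtain ⟨b, x', hb, hx⟩ := hx
    obtain ⟨c, y', hc, hy⟩ := hy
    refine ⟨b * c, c • x' + b • y', ?_, ?_⟩
    · rw [map_mul]; exact mul_ne_zero hb hc
    · rw [map_add, mapA_smul, mapA_smul, ← hx, ← hy, map_mul, smul_add, mul_smul, mul_smul,
        smul_comm (i b) (i c) x]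

theorem map_comap_mapA (i : O →ₐ[F] K)
    (hfrac : ∀ x : K, ∃ a b : O, i b ≠ 0 ∧ x * i b = i a) (I : Ideal (D.bc K).A) :
    (I.comap (D.mapA i)).map (D.mapA i) = I := by
  refine le_antisymm Ideal.map_comap_le ?_
  intro x hx
  obtain ⟨b, y, hb, hy⟩ := exists_smul_eq_mapA i hfrac x
  have hyI : y ∈ I.comap (D.mapA i) := by
    rw [Ideal.mem_comap, ← hy, Algebra.smul_def]
    exact Ideal.mul_mem_left _ _ hx
  have : x = (i b)⁻¹ • D.mapA i y := by rw [← hy, smul_smul, inv_mul_cancel₀ hb, one_smul]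
  rw [this, Algebra.smul_def]
  exact Ideal.mul_mem_left _ _ (Ideal.mem_map_of_mem _ hyI)

theorem φ_inj {k : Type} [CommRing k] (D : Cox k) : Function.Injective D.φ := by
  intro a b h
  rw [← D.ρφ a, ← D.ρφ b, h]

/-- The extension to `R` of the contraction of a homogeneous ideal is flat over `O`. -/
theorem ext_flat (hO : (D.bc O).Good) (i : O →ₐ[F] K) (hi : Function.Injective i)
    {I : Ideal (D.bc K).A} (hI : I.IsHomogeneous (D.bc K).gA) (c : O) (hc : c ≠ 0)
    (x : (D.bc O).R) (hx : c • x ∈ (D.bc O).ext (I.comap (D.mapA i))) :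
    x ∈ (D.bc O).ext (I.comap (D.mapA i)) := by
  classical
  have hIO := comap_mapA_homogeneous i hI
  rw [← DirectSum.sum_support_decompose (D.bc O).gR x]
  refine Ideal.sum_mem _ fun γ _ => ?_
  have hcγ : c • (DirectSum.decompose (D.bc O).gR x γ : (D.bc O).R) ∈
      (D.bc O).ext (I.comap (D.mapA i)) := by
    have h1 := ext_homogeneous (D.bc O) (I.comap (D.mapA i)) γ hx
    rwa [DirectSum.decompose_smul, DirectSum.smul_apply, Submodule.coe_smul] at h1
  rw [mem_ext_iff _ hIO (Submodule.smul_mem _ _ (DirectSum.decompose (D.bc O).gR x γ).2) hO]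
    at hcγ
  rw [mem_ext_iff _ hIO (DirectSum.decompose (D.bc O).gR x γ).2 hO]
  intro n y hy
  obtain ⟨a, ha, hay⟩ := hcγ n y hy
  have h2 : (DirectSum.decompose (D.bc O).gR x γ : (D.bc O).R) * y ∈
      (D.bc O).gR (n • (D.bc O).h) := by
    have := SetLike.mul_mem_graded (A := (D.bc O).gR)
      (DirectSum.decompose (D.bc O).gR x γ).2 hy
    rwa [add_sub_cancel] at this
  obtain ⟨b, _, hb⟩ := (D.bc O).φ_surj n _ h2
  refine ⟨b, ?_, hb⟩
  have h3 : a = c • b := by
    apply φ_inj (D.bc O)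
    rw [hay, map_smul, hb, smul_mul_assoc]
  rw [Ideal.mem_comap]
  rw [h3, Ideal.mem_comap, mapA_smul, Algebra.smul_def] at ha
  have hci : i c ≠ 0 := by
    intro h
    exact hc (hi (by rw [h, map_zero]))
  have h4 : D.mapA i b = algebraMap K _ ((i c)⁻¹) * (algebraMap K _ (i c) * D.mapA i b) := by
    rw [← mul_assoc, ← map_mul, inv_mul_cancel₀ hci, map_one, one_mul]
  rw [h4]
  exact Ideal.mul_mem_left _ _ ha

end Flat

section Sup

variable {k : Type} [CommRing k] {D : Cox k}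

theorem mem_sup_span_iff {J : Ideal D.R} (hJ : J.IsHomogeneous D.gR) {δ γ : D.Γ} {r x : D.R}
    (hr : r ∈ D.gR δ) (hx : x ∈ D.gR γ) :
    x ∈ J ⊔ Ideal.span {r} ↔ ∃ c ∈ D.gR (γ - δ), ∃ j ∈ D.gR γ, j ∈ J ∧ x = j + c * r := by
  constructor
  · intro h
    obtain ⟨j, hj, z, hz, rfl⟩ := Submodule.mem_sup.1 h
    obtain ⟨c, rfl⟩ := Ideal.mem_span_singleton'.1 hz
    refine ⟨DirectSum.decompose D.gR c (γ - δ), (DirectSum.decompose D.gR c (γ - δ)).2,
      DirectSum.decompose D.gR j γ, (DirectSum.decompose D.gR j γ).2, hJ γ hj, ?_⟩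
    have h1 := DirectSum.decompose_of_mem_same D.gR hx
    rw [DirectSum.decompose_add, DirectSum.add_apply, Submodule.coe_add] at h1
    have h2 := DirectSum.coe_decompose_mul_add_of_right_mem D.gR (i := γ - δ) (a := c) hr
    rw [sub_add_cancel] at h2
    rw [h2] at h1
    exact h1.symm
  · rintro ⟨c, _, j, _, hj, rfl⟩
    exact Submodule.add_mem_sup hj (Ideal.mul_mem_left _ _ (Ideal.mem_span_singleton_self r))

theorem HighEq.sup_span {J J' : Ideal D.R} (hJ : J.IsHomogeneous D.gR)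
    (hJ' : J'.IsHomogeneous D.gR) (h : HighEq D J J') {δ : D.Γ} {r : D.R} (hr : r ∈ D.gR δ) :
    HighEq D (J ⊔ Ideal.span {r}) (J' ⊔ Ideal.span {r}) := by
  intro γ
  obtain ⟨N, hN⟩ := h γ
  refine ⟨N, fun n hn x hx => ?_⟩
  rw [mem_sup_span_iff hJ hr hx, mem_sup_span_iff hJ' hr hx]
  constructor
  · rintro ⟨c, hc, j, hj, hjJ, rfl⟩
    exact ⟨c, hc, j, hj, (hN n hn j hj).1 hjJ, rfl⟩
  · rintro ⟨c, hc, j, hj, hjJ, rfl⟩
    exact ⟨c, hc, j, hj, (hN n hn j hj).2 hjJ, rfl⟩

/-- Cutting by an element outside the point drops the dimension. -/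
theorem dimLE_pt_sup (hD : D.Good) (p : D.Pt) (d : ℕ) (hd : D.DimLE (D.pt p) (d + 1)) {x : D.R}
    (hx : x ∉ D.pt p) : D.DimLE (D.pt p ⊔ Ideal.span {x}) d := by
  refine dim_drop D hD (D.pt p) d hd x {p} ?_ ?_ ?_
  · intro q hq
    rw [Finset.mem_singleton] at hq
    subst hq
    exact le_refl _
  · intro q hq
    exact ⟨p, Finset.mem_singleton_self p, (pt_le_pt D hD p q).1 hq⟩
  · intro q hq
    rw [Finset.mem_singleton] at hq
    subst hq
    exact hx

end Sup

section Functional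

variable {F : Type} [Field F] (D : Cox F) (τ W ε : D.Γ)

/-- The functional on ideals of `K ⊗ A`. -/
noncomputable def phi (K : Type) [Field K] [Algebra F K] (I : Ideal (K ⊗[F] D.A)) : SqCl K :=
  (D.bc K).symb (Ideal.map (D.bc K).φ (show Ideal (D.bc K).A from I)) τ W ε

variable {D τ W ε}
variable (hD : D.Good) (hτ : 2 • τ = 0)

include hD hτ

theorem phi_add {K : Type} [Field K] [Algebra F K] (hK : Roots K) {I : Ideal (D.bc K).A}
    (hI : I.IsHomogeneous (D.bc K).gA) (hd : Br.DimLE (D.bc K).gA I 2) {m : ℕ}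
    {r : (D.bc K).A} (hr : r ∈ (D.bc K).gA m) :
    phi D τ W ε K I = phi D τ W ε K (I.colon (Ideal.span {r})) *
      phi D τ W ε K (I ⊔ Ideal.span {r}) := by
  have hG := hD.bc K
  have hIR := map_homogeneous (D := D.bc K) hI
  have hdR : (D.bc K).DimLE (I.map (D.bc K).φ) 2 := (dimLE_map_iff hG I 2).2 hd
  have hr' := (D.bc K).φ_mem m r hr
  have h1 := symb_colon hG hK hIR hdR hτ W ε hr'
  have h2 : (I ⊔ Ideal.span {r}).map (D.bc K).φ =
      I.map (D.bc K).φ ⊔ Ideal.span {(D.bc K).φ r} := by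
    rw [Ideal.map_sup, Ideal.map_span, Set.image_singleton]
  have hcol : (I.colon (Ideal.span {r})).IsHomogeneous (D.bc K).gA := by
    intro n x hx
    rw [mem_colon_span] at hx ⊢
    have h3 := hI (n + m) hx
    rwa [DirectSum.coe_decompose_mul_add_of_right_mem (D.bc K).gA hr] at h3
  have h3 : (D.bc K).symb ((I.map (D.bc K).φ).colon (Ideal.span {(D.bc K).φ r})) τ W ε =
      (D.bc K).symb ((I.colon (Ideal.span {r})).map (D.bc K).φ) τ W ε := by
    refine symb_high hG hK (colon_homogeneous hIR hr') (map_homogeneous hcol) ?_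
      (high_colon (D.bc K) hG hI hr) hτ W ε
    intro l hl
    refine hdR l (le_trans ?_ hl)
    intro x hx
    rw [mem_colon_span]
    exact Ideal.mul_mem_right _ _ hx
  unfold phi
  change (D.bc K).symb (I.map (D.bc K).φ) τ W ε =
    (D.bc K).symb ((I.colon (Ideal.span {r})).map (D.bc K).φ) τ W ε *
      (D.bc K).symb ((I ⊔ Ideal.span {r}).map (D.bc K).φ) τ W ε
  rw [h1, h3, h2]

theorem phi_low {K : Type} [Field K] [Algebra F K] (hK : Roots K) {I : Ideal (D.bc K).A}
    (hI : I.IsHomogeneous (D.bc K).gA) (hd : Br.DimLE (D.bc K).gA I 1) :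
    phi D τ W ε K I = 1 :=
  symb_one (hD.bc K) hK (map_homogeneous (D := D.bc K) hI)
    ((dimLE_map_iff (hD.bc K) I 1).2 hd) hτ W ε

theorem phi_pt {K : Type} [Field K] [Algebra F K] (hK : Roots K) {I : Ideal (D.bc K).A}
    (hI : I.IsHomogeneous (D.bc K).gA) (hd : Br.DimLE (D.bc K).gA I 2) :
    phi D τ W ε K I = (D.bc K).symb ((D.bc K).ext I) τ W ε :=
  symb_high (hD.bc K) hK (map_homogeneous (D := D.bc K) hI) (ext_homogeneous _ I)
    ((dimLE_map_iff (hD.bc K) I 2).2 hd) (high_map_eq_ext (D.bc K) (hD.bc K) hI) hτ W ε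

theorem phi_rat {K : Type} [Field K] [Algebra F K] (hK : Roots K) (p : (D.bc K).Pt)
    (hd : Br.DimLE (D.bc K).gA p.asHomogeneousIdeal.toIdeal 3) {m : ℕ} {a b : (D.bc K).A}
    (ha : a ∈ (D.bc K).gA m) (hb : b ∈ (D.bc K).gA m)
    (hap : a ∉ p.asHomogeneousIdeal.toIdeal) (hbp : b ∉ p.asHomogeneousIdeal.toIdeal) :
    phi D τ W ε K (p.asHomogeneousIdeal.toIdeal ⊔ Ideal.span {a}) =
      phi D τ W ε K (p.asHomogeneousIdeal.toIdeal ⊔ Ideal.span {b}) := by
  have hG := hD.bc K
  have hp : (p.asHomogeneousIdeal.toIdeal).IsHomogeneous (D.bc K).gA :=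
    p.asHomogeneousIdeal.isHomogeneous
  have key : ∀ c ∈ (D.bc K).gA m, c ∉ p.asHomogeneousIdeal.toIdeal →
      phi D τ W ε K (p.asHomogeneousIdeal.toIdeal ⊔ Ideal.span {c}) =
        (D.bc K).symb ((D.bc K).pt p ⊔ Ideal.span {(D.bc K).φ c}) τ W ε := by
    intro c hc hcp
    have hc' := (D.bc K).φ_mem m c hc
    have h2 : (p.asHomogeneousIdeal.toIdeal ⊔ Ideal.span {c}).map (D.bc K).φ =
        (p.asHomogeneousIdeal.toIdeal).map (D.bc K).φ ⊔ Ideal.span {(D.bc K).φ c} := by
      rw [Ideal.map_sup, Ideal.map_span, Set.image_singleton]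
    have h3 : HighEq (D.bc K) ((p.asHomogeneousIdeal.toIdeal).map (D.bc K).φ ⊔
        Ideal.span {(D.bc K).φ c}) ((D.bc K).pt p ⊔ Ideal.span {(D.bc K).φ c}) :=
      HighEq.sup_span (map_homogeneous (D := D.bc K) hp) (ext_homogeneous _ _)
        (high_map_eq_ext (D.bc K) hG hp) hc'
    have hcp' : (D.bc K).φ c ∉ (D.bc K).pt p := by
      intro h
      apply hcp
      rw [← comap_pt (D.bc K) hG p]
      exact h
    have h4 : (D.bc K).DimLE ((D.bc K).pt p) 3 := by
      intro l hl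
      refine hd l ?_
      have := (pt_le_pt (D.bc K) hG p l.head).1 hl
      exact this
    have h5 := dimLE_pt_sup hG p 2 h4 hcp'
    unfold phi
    change (D.bc K).symb ((p.asHomogeneousIdeal.toIdeal ⊔ Ideal.span {c}).map (D.bc K).φ) τ W ε
      = _
    rw [h2]
    exact symb_high hG hK (sup_span_homogeneous (map_homogeneous (D := D.bc K) hp) hc')
      (sup_span_homogeneous (ext_homogeneous _ _) hc')
      (dimLE_of_highEq hG (sup_span_homogeneous (ext_homogeneous _ _) hc') h3 h5) h3 hτ W ε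
  rw [key a ha hap, key b hb hbp]
  have h4 : (D.bc K).DimLE ((D.bc K).pt p) 3 := by
    intro l hl
    exact hd l ((pt_le_pt (D.bc K) hG p l.head).1 hl)
  exact symb_rat hG hK p h4 hτ W ε ha hb hap hbp

theorem phi_iso (hroots : ∀ (K : Type) [Field K] [Algebra F K], Roots K) {K L : Type} [Field K]
    [Algebra F K] [Field L] [Algebra F L] (j : K →ₐ[F] L) (hj : Function.Bijective j)
    {I : Ideal (D.bc K).A} (u : Kˣ) (hI : I.IsHomogeneous (D.bc K).gA)
    (hd : Br.DimLE (D.bc K).gA I 2) (hu : phi D τ W ε K I = cls u) :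
    phi D τ W ε L (I.map (D.mapA j)) = cls (Units.map (j : K →* L) u) := by
  have hG := hD.bc K
  have hIR := map_homogeneous (D := D.bc K) hI
  have hdR : (D.bc K).DimLE (I.map (D.bc K).φ) 2 := (dimLE_map_iff hG I 2).2 hd
  have hint : (j : K →+* L).IsIntegral := RingHom.isIntegral_of_surjective _ hj.2
  have hdL : (D.bc L).DimLE ((I.map (D.bc K).φ).map (D.mapR j)) 2 := dim_mapR j hint hdR
  have h1 := symb_bc hD K L j (hroots K) (hroots L) hIR hdR hdL hτ W ε u hu
  rw [map_φ_map_mapR] at h1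
  exact h1

theorem phi_dvr (hroots : ∀ (K : Type) [Field K] [Algebra F K], Roots K) {O K κ : Type}
    [CommRing O] [IsDomain O] [IsDiscreteValuationRing O] [Algebra F O] [Field K] [Algebra F K]
    [Field κ] [Algebra F κ] (i : O →ₐ[F] K) (j : O →ₐ[F] κ) (hi : Function.Injective i)
    (hfrac : Br.FracLike i) (hj : Function.Surjective j) {I : Ideal (D.bc K).A}
    (hI : I.IsHomogeneous (D.bc K).gA) (hdK : Br.DimLE (D.bc K).gA I 2)
    (hdκ : Br.DimLE (D.bc κ).gA ((I.comap (D.mapA i)).map (D.mapA j)) 2) :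
    ∃ u : Oˣ, phi D τ W ε K I = cls (Units.map (i : O →* K) u) ∧
      phi D τ W ε κ ((I.comap (D.mapA i)).map (D.mapA j)) = cls (Units.map (j : O →* κ) u) := by
  have hO := hD.bc O
  have hG := hD.bc K
  have hGκ := hD.bc κ
  have hIO : (I.comap (D.mapA i)).IsHomogeneous (D.bc O).gA := comap_mapA_homogeneous i hI
  have hfrac' : ∀ x : K, ∃ a b : O, i b ≠ 0 ∧ x * i b = i a := by
    intro x
    obtain ⟨a, b, hb, hab⟩ := hfrac x
    exact ⟨a, b, hb.ne_zero, hab⟩
  have hfrac'' : ∀ x : K, ∃ a b : O, b ≠ 0 ∧ x * i b = i a := by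
    intro x
    obtain ⟨a, b, hb, hab⟩ := hfrac' x
    refine ⟨a, b, ?_, hab⟩
    rintro rfl
    exact hb (map_zero i)
  have hHE : HighEq (D.bc O) ((I.comap (D.mapA i)).map (D.bc O).φ)
      ((D.bc O).ext (I.comap (D.mapA i))) := high_map_eq_ext (D.bc O) hO hIO
  have hJhom : ((D.bc O).ext (I.comap (D.mapA i))).IsHomogeneous (D.bc O).gR :=
    ext_homogeneous _ _
  have hmhom : ((I.comap (D.mapA i)).map (D.bc O).φ).IsHomogeneous (D.bc O).gR :=
    map_homogeneous hIO
  -- the generic fibre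
  have hEK : HighEq (D.bc K) (I.map (D.bc K).φ)
      (((D.bc O).ext (I.comap (D.mapA i))).map (D.mapR i)) := by
    have h1 := HighEq.map i hmhom hJhom hHE
    rwa [map_φ_map_mapR, map_comap_mapA i hfrac' I] at h1
  have hEκ : HighEq (D.bc κ) (((I.comap (D.mapA i)).map (D.mapA j)).map (D.bc κ).φ)
      (((D.bc O).ext (I.comap (D.mapA i))).map (D.mapR j)) := by
    have h1 := HighEq.map j hmhom hJhom hHE
    rwa [map_φ_map_mapR] at h1
  have hdKR : (D.bc K).DimLE (I.map (D.bc K).φ) 2 := (dimLE_map_iff hG I 2).2 hdK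
  have hdκR : (D.bc κ).DimLE (((I.comap (D.mapA i)).map (D.mapA j)).map (D.bc κ).φ) 2 :=
    (dimLE_map_iff hGκ _ 2).2 hdκ
  have hκhom : ((I.comap (D.mapA i)).map (D.mapA j)).IsHomogeneous (D.bc κ).gA := by
    intro n x hx
    have h1 : ((I.comap (D.mapA i)).map (D.mapA j)).IsHomogeneous (D.bc κ).gA := by
      rw [Ideal.IsHomogeneous.iff_exists] at hIO
      obtain ⟨S, hS⟩ := hIO
      rw [hS, Ideal.map_span]
      refine Ideal.homogeneous_span _ _ ?_
      rintro _ ⟨_, ⟨⟨a, m, ha⟩, _, rfl⟩, rfl⟩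
      exact ⟨m, mapA_mem j ha⟩
    exact h1 n hx
  have hJK := map_mapR_homogeneous i hJhom
  have hJκ := map_mapR_homogeneous j hJhom
  obtain ⟨u, hu1, hu2⟩ := symb_spec hD O K κ i hi hfrac'' j hj (hroots K) (hroots κ) _ hJhom
    (fun c hc x hx => ext_flat hO i hi hI c hc x hx)
    (dimLE_of_highEq hG (map_homogeneous hI) hEK.symm hdKR)
    (dimLE_of_highEq hGκ (map_homogeneous hκhom) hEκ.symm hdκR) hτ W ε
  refine ⟨u, ?_, ?_⟩
  · rw [← hu1]
    exact symb_high hG (hroots K) (map_homogeneous hI) hJK hdKR hEK hτ W ε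
  · rw [← hu2]
    exact symb_high hGκ (hroots κ) (map_homogeneous hκhom) hJκ hdκR hEκ hτ W ε

end Functional

section Assembly

variable {F : Type} [Field F] (D : Cox F) (τ W ε : D.Γ)

/-- The datum of the bridge. -/
noncomputable def datum (hD : D.Good) (hτ : 2 • τ = 0)
    (hroots : ∀ (K : Type) [Field K] [Algebra F K], Roots K) (n : Fˣ)
    (hvan : ∀ (K : Type) [Field K] [Algebra F K], ¬ IsSquare (algebraMap F K n) →
      ∀ I : Ideal (D.bc K).A, I.IsHomogeneous (D.bc K).gA →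
        (D.bc K).DimLE (I.map (D.bc K).φ) 2 →
        (D.bc K).symb (I.map (D.bc K).φ) τ W ε = 1 ∨
          (D.bc K).symb (I.map (D.bc K).φ) τ W ε =
            cls (Units.map (algebraMap F K).toMonoidHom n)) : Br.Datum D.gA n where
  φ := fun K _ _ I => phi D τ W ε K I
  add := fun K _ _ I hI hd i r hr => phi_add hD hτ (hroots K) hI hd hr
  low := fun K _ _ I hI hd => phi_low hD hτ (hroots K) hI hd
  rat := fun K _ _ y hd i a ha b hb hay hby =>
    phi_rat hD hτ (hroots K) y hd ha hb hay hby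
  dvr := fun O K κ _ _ _ _ _ _ _ _ i j hi hfrac hj P hdK hdκ =>
    phi_dvr hD hτ hroots i j hi hfrac hj P.asHomogeneousIdeal.isHomogeneous hdK hdκ
  iso := fun K L _ _ _ _ j hj I u hI hd hu => phi_iso hD hτ hroots j hj u hI hd hu
  van := fun K _ _ hn I hI hd => hvan K hn I hI ((dimLE_map_iff (hD.bc K) I 2).2 hd)

end Assembly

end Asm
end Cox
end Pool.Agent.SSF
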