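import Pool.Agent.SSF.EmbPt

/-! # SSF: the base change to the base field itself -/

set_option autoImplicit false
open scoped TensorProduct

namespace Pool.Agent.SSF
namespace Cox
namespace Asm

variable {F : Type} [Field F] (D : Cox F)

theorem lid_mem {M : Type} [CommRing M] [Algebra F M] (S : Submodule F M) (x : F ⊗[F] M) :
    x ∈ S.baseChange F ↔ Algebra.TensorProduct.lid F M x ∈ S := by
  constructor
  · intro hx
    rw [Submodule.baseChange_eq_span] at hx
    induction hx using Submodule.span_induction with
    | mem x hx =>
      obtain ⟨y, hy, rfl⟩ := hx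
      rw [TensorProduct.mk_apply, Algebra.TensorProduct.lid_tmul, one_smul]
      exact hy
    | zero => rw [map_zero]; exact S.zero_mem
    | add x y _ _ hx hy => rw [map_add]; exact S.add_mem hx hy
    | smul c x _ hx => rw [map_smul]; exact S.smul_mem _ hx
  · intro hx
    have h1 : x = (1 : F) ⊗ₜ[F] Algebra.TensorProduct.lid F M x := by
      apply (Algebra.TensorProduct.lid F M).injective
      rw [Algebra.TensorProduct.lid_tmul, one_smul]
    rw [h1]
    exact Submodule.tmul_mem_baseChange_of_mem _ hx

/-- The base change to the base field itself. -/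
noncomputable def embSelf : Emb (D.bc F) D where
  α := Algebra.TensorProduct.lid F D.A
  α_mem := fun n a => lid_mem (D.gA n) a
  γ := AddMonoidHom.id D.Γ
  γ_inj := Function.injective_id
  γ_h := rfl
  ψ := (Algebra.TensorProduct.lid F D.R).toAlgHom
  ψ_inj := (Algebra.TensorProduct.lid F D.R).injective
  ψ_mem := fun g x hx => (lid_mem (D.gR g) x).1 hx
  ψ_surj := fun g y hy => ⟨(1 : F) ⊗ₜ[F] y, Submodule.tmul_mem_baseChange_of_mem _ hy, by
    change Algebra.TensorProduct.lid F D.R ((1 : F) ⊗ₜ[F] y) = y
    rw [Algebra.TensorProduct.lid_tmul, one_smul]⟩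
  comm := fun a => by
    change Algebra.TensorProduct.lid F D.R (Algebra.TensorProduct.map (AlgHom.id F F) D.φ a) =
      D.φ (Algebra.TensorProduct.lid F D.A a)
    induction a using TensorProduct.induction_on with
    | zero => simp
    | tmul c y => simp
    | add x y hx hy => rw [map_add, map_add, hx, hy, map_add, map_add]


/-- The dimension of `Proj A` in terms of the base change to the base field. -/
theorem dimLE_bot_of_bc (d : ℕ) (h : ∀ c : LTSeries (D.bc F).Pt, c.length ≤ d) :
    D.DimLE ⊥ d := by
  intro l _
  have hmono : StrictMono (embSelf D).down := by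
    intro p q hpq
    have e : ∀ p q : D.Pt, (embSelf D).down p ≤ (embSelf D).down q ↔ p ≤ q := by
      intro p q
      rw [← (embSelf D).up_le_up, (embSelf D).up_down, (embSelf D).up_down]
    refine lt_iff_le_not_ge.2 ⟨(e p q).2 hpq.le, fun h1 => ?_⟩
    exact (lt_iff_le_not_ge.1 hpq).2 ((e q p).1 h1)
  have := h (l.map (embSelf D).down hmono)
  simpa using this

end Asm
end Cox
end Pool.Agent.SSF
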