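import Pool.Agent.SSF.AsmB
import Pool.Agent.SSF.EmbSelf

/-! # SSF: the value of the functional over the base field itself -/

set_option autoImplicit false
open scoped TensorProduct

namespace Pool.Agent.SSF
namespace Cox
namespace Asm

variable {F : Type} [Field F] (D : Cox F)

variable {D} {τ W ε : D.Γ}

/-- The value of the functional at the contraction of a homogeneous ideal of `R`. -/
theorem phi_self (hD : D.Good) (hτ : 2 • τ = 0) (hF : Roots F) {J : Ideal D.R}
    (hJ : J.IsHomogeneous D.gR) (hd : D.DimLE J 2) :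
    phi D τ W ε F ((J.comap D.φ).map
      (Algebra.TensorProduct.includeRight : D.A →ₐ[F] F ⊗[F] D.A)) = D.symb J τ W ε := by
  classical
  have hC : (J.comap D.φ).IsHomogeneous D.gA := by
    intro n a ha
    rw [Ideal.mem_comap] at ha ⊢
    have h1 : D.φ (DirectSum.decompose D.gA a n : D.A) =
        (DirectSum.decompose D.gR (D.φ a) (n • D.h) : D.R) := by
      clear ha
      induction a using DirectSum.Decomposition.inductionOn D.gA with
      | zero => simp
      | @homogeneous i m =>
        have hm := D.φ_mem i m m.2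
        by_cases hi : i = n
        · subst hi
          rw [DirectSum.decompose_of_mem_same _ hm, DirectSum.decompose_of_mem_same _ m.2]
        · have hi' : i • D.h ≠ n • D.h := by
            intro h
            apply hi
            have := D.h_inj (i : ℤ) (n : ℤ) (by rw [natCast_zsmul, natCast_zsmul]; exact h)
            exact_mod_cast this
          rw [DirectSum.decompose_of_mem_ne _ hm hi', DirectSum.decompose_of_mem_ne _ m.2 hi,
            map_zero]
      | add x y hx hy =>
        rw [DirectSum.decompose_add, map_add D.φ x y, DirectSum.decompose_add,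
          DirectSum.add_apply, DirectSum.add_apply, Submodule.coe_add, Submodule.coe_add,
          map_add, hx, hy]
    rw [h1]
    exact hJ _ ha
  have hH : HighEq D J ((J.comap D.φ).map D.φ) := high_comap_map D hD hJ
  have hd2 : D.DimLE ((J.comap D.φ).map D.φ) 2 :=
    dimLE_of_highEq hD hJ hH.symm hd
  set I : Ideal (D.bc F).A := (J.comap D.φ).map
      (Algebra.TensorProduct.includeRight : D.A →ₐ[F] F ⊗[F] D.A) with hI
  have hIh : I.IsHomogeneous (D.bc F).gA := by
    rw [Ideal.IsHomogeneous.iff_exists] at hC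
    obtain ⟨S, hS⟩ := hC
    rw [hI, hS, Ideal.map_span]
    refine Ideal.homogeneous_span _ _ ?_
    rintro _ ⟨_, ⟨⟨a, m, ha⟩, _, rfl⟩, rfl⟩
    exact ⟨m, Submodule.tmul_mem_baseChange_of_mem _ ha⟩
  have e1 : I.map (D.bc F).φ = ((J.comap D.φ).map D.φ).map
      (Algebra.TensorProduct.includeRight : D.R →ₐ[F] F ⊗[F] D.R) := by
    rw [hI]
    change ((J.comap D.φ).map ((Algebra.TensorProduct.includeRight : D.A →ₐ[F] F ⊗[F] D.A) :
        D.A →+* F ⊗[F] D.A)).map ((D.bc F).φ : (D.bc F).A →+* (D.bc F).R) =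
      ((J.comap D.φ).map (D.φ : D.A →+* D.R)).map
        ((Algebra.TensorProduct.includeRight : D.R →ₐ[F] F ⊗[F] D.R) : D.R →+* F ⊗[F] D.R)
    rw [Ideal.map_map, Ideal.map_map]
    refine congrArg (fun g : D.A →+* F ⊗[F] D.R => (J.comap D.φ).map g)
      (RingHom.ext fun a => ?_)
    change Algebra.TensorProduct.map (AlgHom.id F F) D.φ ((1 : F) ⊗ₜ[F] a) =
      (1 : F) ⊗ₜ[F] D.φ a
    simp
  have hdI : (D.bc F).DimLE (I.map (D.bc F).φ) 2 := by
    rw [e1]
    exact dim_bc F hd2
  have e2 : I.map ((embSelf D).α : (D.bc F).A →+* D.A) = J.comap D.φ := by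
    rw [hI]
    change ((J.comap D.φ).map ((Algebra.TensorProduct.includeRight : D.A →ₐ[F] F ⊗[F] D.A) :
        D.A →+* F ⊗[F] D.A)).map ((embSelf D).α : (D.bc F).A →+* D.A) = _
    rw [Ideal.map_map]
    have : ((embSelf D).α : (D.bc F).A →+* D.A).comp
        ((Algebra.TensorProduct.includeRight : D.A →ₐ[F] F ⊗[F] D.A) :
        D.A →+* F ⊗[F] D.A) = RingHom.id _ := by
      refine RingHom.ext fun a => ?_
      change Algebra.TensorProduct.lid F D.A ((1 : F) ⊗ₜ[F] a) = a
      rw [Algebra.TensorProduct.lid_tmul, one_smul]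
    rw [this, Ideal.map_id]
  have h3 := symb_regrade (embSelf D) (hD.bc F) hD hF hIh hdI (f := τ) hτ W ε
  rw [e2] at h3
  have h4 : D.symb J τ W ε = D.symb ((J.comap D.φ).map D.φ) τ W ε :=
    symb_high hD hF hJ (map_homogeneous hC) hd hH hτ W ε
  rw [h4]
  exact h3

end Asm
end Cox
end Pool.Agent.SSF
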