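import Mathlib

/-!
Regular local rings, in the form the maximal ideal is generated by at most `d` elements and the
dimension is at least `d`: such rings are domains, and so are their quotients by a part of a
regular system of parameters.
-/

namespace Pool.Agent.SSF.Reg

open IsLocalRing

/-- `A` is local Noetherian of dimension at least `d` with maximal ideal generated by at most `d`
elements. -/
def RegD (d : ℕ) (A : Type*) [CommRing A] : Prop :=
  ∃ (_ : IsLocalRing A) (_ : IsNoetherianRing A) (s : Finset A), s.card ≤ d ∧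
    Ideal.span (s : Set A) = maximalIdeal A ∧ (d : WithBot ℕ∞) ≤ ringKrullDim A

theorem exists_exchange {A : Type*} [CommRing A] [DecidableEq A] [IsLocalRing A] {s : Finset A}
    (hs : Ideal.span (s : Set A) = maximalIdeal A) {x : A} (hx : x ∈ maximalIdeal A)
    (hx2 : x ∉ maximalIdeal A ^ 2) :
    ∃ y ∈ s, Ideal.span (insert x ((s.erase y : Finset A) : Set A)) = maximalIdeal A := by
  rw [← hs] at hx
  obtain ⟨c, hc⟩ := Submodule.mem_span_finset'.1 hx
  have hex : ∃ y : s, c y ∉ maximalIdeal A := by
    by_contra hcon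
    push Not at hcon
    apply hx2
    rw [← hc, pow_two]
    refine Ideal.sum_mem _ fun y _ => ?_
    rw [smul_eq_mul]
    refine Ideal.mul_mem_mul (hcon y) ?_
    rw [← hs]
    exact Ideal.subset_span y.2
  obtain ⟨y, hy⟩ := hex
  have hu : IsUnit (c y) := by
    rwa [mem_maximalIdeal, mem_nonunits_iff, not_not] at hy
  refine ⟨y, y.2, le_antisymm ?_ ?_⟩
  · rw [Ideal.span_le]
    intro z hz
    rcases Set.mem_insert_iff.1 hz with rfl | hz
    · rw [← hs]; exact hx
    · rw [← hs]
      exact Ideal.subset_span (Finset.mem_of_mem_erase (Finset.mem_coe.1 hz))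
  · rw [← hs, Ideal.span_le]
    intro z hz
    by_cases hzy : z = y
    · subst hzy
      have h1 : c y * (y : A) = x - ∑ w ∈ Finset.univ.erase y, c w • (w : A) := by
        rw [← hc, ← Finset.add_sum_erase _ _ (Finset.mem_univ y)]
        simp
      have h2 : c y * (y : A) ∈ Ideal.span (insert x ((s.erase y : Finset A) : Set A)) := by
        rw [h1]
        refine Ideal.sub_mem _ (Ideal.subset_span (Set.mem_insert _ _)) ?_
        refine Ideal.sum_mem _ fun w hw => ?_
        rw [smul_eq_mul]
        refine Ideal.mul_mem_left _ _ (Ideal.subset_span (Set.mem_insert_of_mem _ ?_))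
        rw [Finset.mem_coe, Finset.mem_erase]
        exact ⟨fun h => Finset.ne_of_mem_erase hw (Subtype.ext h), w.2⟩
      exact (Ideal.unit_mul_mem_iff_mem _ hu).1 h2
    · refine Ideal.subset_span (Set.mem_insert_of_mem _ ?_)
      rw [Finset.mem_coe, Finset.mem_erase]
      exact ⟨hzy, hz⟩

theorem isLocalRing_quot {A : Type*} [CommRing A] [IsLocalRing A] {x : A}
    (hx : x ∈ maximalIdeal A) : IsLocalRing (A ⧸ Ideal.span {x}) := by
  have hne : Ideal.span {x} ≠ ⊤ := by
    intro h
    have : Ideal.span {x} ≤ maximalIdeal A := (Ideal.span_singleton_le_iff_mem _).2 hx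
    rw [h, top_le_iff] at this
    exact (maximalIdeal.isMaximal A).ne_top this
  have : Nontrivial (A ⧸ Ideal.span {x}) := Ideal.Quotient.nontrivial_iff.2 hne
  exact IsLocalRing.of_surjective' (Ideal.Quotient.mk _) Ideal.Quotient.mk_surjective

theorem dim_quot {A : Type*} [CommRing A] [IsLocalRing A] [IsNoetherianRing A] {d : ℕ}
    (hd : ((d + 1 : ℕ) : WithBot ℕ∞) ≤ ringKrullDim A) {x : A} (hx : x ∈ maximalIdeal A) :
    (d : WithBot ℕ∞) ≤ ringKrullDim (A ⧸ Ideal.span {x}) := by
  have h1 := ringKrullDim_le_ringKrullDim_quotient_add_card (R := A) {x} (by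
    rw [IsLocalRing.ringJacobson_eq_maximalIdeal]
    simpa using hx)
  rw [Finset.coe_singleton, Finset.card_singleton] at h1
  have h2 := hd.trans h1
  rw [Nat.cast_add] at h2
  exact ENat.WithBot.add_le_add_natCast_right_iff.1 h2

/-- The quotient of a regular local ring by an element of `m` outside `m ^ 2`. -/
theorem RegD.quot {d : ℕ} {A : Type*} [CommRing A] (hA : RegD (d + 1) A)
    [IsLocalRing A] {x : A} (hx : x ∈ maximalIdeal A)
    (hx2 : x ∉ maximalIdeal A ^ 2) : RegD d (A ⧸ Ideal.span {x}) := by
  classical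
  obtain ⟨_, hN, s, hcard, hs, hd⟩ := hA
  have := isLocalRing_quot hx
  obtain ⟨y, hy, hspan⟩ := exists_exchange hs hx hx2
  refine ⟨this, inferInstance, (s.erase y).image (Ideal.Quotient.mk (Ideal.span {x})),
    ?_, ?_, dim_quot hd hx⟩
  · refine Finset.card_image_le.trans ?_
    rw [Finset.card_erase_of_mem hy]
    omega
  · have h1 := map_maximalIdeal_of_surjective (Ideal.Quotient.mk (Ideal.span {x}))
      Ideal.Quotient.mk_surjective
    rw [← h1, ← hspan, Ideal.map_span, Finset.coe_image, Set.image_insert_eq]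
    have h0 : Ideal.Quotient.mk (Ideal.span {x}) x = 0 :=
      Ideal.Quotient.eq_zero_iff_mem.2 (Ideal.mem_span_singleton_self x)
    rw [h0]
    exact (Submodule.span_insert_zero).symm

/-- A regular local ring is a domain. -/
theorem RegD.isDomain {d : ℕ} : ∀ {A : Type*} [CommRing A], RegD d A → IsDomain A := by
  induction d with
  | zero =>
    intro A _ hA
    obtain ⟨_, hN, s, hcard, hs, hd⟩ := hA
    have h0 : s = ∅ := Finset.card_eq_zero.1 (Nat.le_zero.1 hcard)
    rw [h0, Finset.coe_empty, Ideal.span_empty] at hs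
    exact ((isField_iff_maximalIdeal_eq (R := A)).2 hs.symm).isDomain
  | succ d ih =>
    intro A _ hA
    obtain ⟨_, hN, s, hcard, hs, hd⟩ := id hA
    have hmin : (minimalPrimes A).Finite := minimalPrimes.finite_of_isNoetherianRing A
    -- the maximal ideal is not a minimal prime
    have hnot : maximalIdeal A ∉ minimalPrimes A := by
      intro hmem
      have h1 : (maximalIdeal A).height = 0 := Ideal.height_eq_zero_iff.2 hmem
      have h2 := IsLocalRing.maximalIdeal_height_eq_ringKrullDim (R := A)
      rw [h1] at h2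
      rw [← h2] at hd
      have h3 : ((d + 1 : ℕ) : WithBot ℕ∞) ≤ ((0 : ℕ) : WithBot ℕ∞) := hd
      rw [Nat.cast_le] at h3
      omega
    have hsq : ¬ maximalIdeal A ≤ maximalIdeal A ^ 2 := by
      intro hle
      have : maximalIdeal A = ⊥ := by
        refine Submodule.eq_bot_of_le_smul_of_le_jacobson_bot (maximalIdeal A) (maximalIdeal A)
          ((isNoetherianRing_iff_ideal_fg A).1 hN _) ?_ (maximalIdeal_le_jacobson _)
        rw [smul_eq_mul, ← pow_two]
        exact hle
      apply hnot
      rw [this]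
      have hp : (⊥ : Ideal A).IsPrime := this ▸ (maximalIdeal.isMaximal A).isPrime
      have := IsDomain.of_bot_isPrime A
      rw [IsDomain.minimalPrimes_eq_singleton_bot]
      exact Set.mem_singleton _
    obtain ⟨x, hx, hx2⟩ : ∃ x ∈ maximalIdeal A, x ∉ maximalIdeal A ^ 2 ∧
        ∀ P ∈ minimalPrimes A, x ∉ P := by
      by_contra hcon
      push Not at hcon
      have hsub : ((maximalIdeal A : Ideal A) : Set A) ⊆
          ⋃ I ∈ insert (maximalIdeal A ^ 2) (minimalPrimes A), (I : Set A) := by
        intro y hy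
        by_cases hy2 : y ∈ maximalIdeal A ^ 2
        · exact Set.mem_biUnion (Set.mem_insert _ _) hy2
        · obtain ⟨P, hP, hyP⟩ := hcon y hy hy2
          exact Set.mem_biUnion (Set.mem_insert_of_mem _ hP) hyP
      obtain ⟨I, hI, hle⟩ := (Ideal.subset_union_prime_finite (hmin.insert _)
        (maximalIdeal A ^ 2) (maximalIdeal A ^ 2) (fun I hI h1 _ => by
          rcases Set.mem_insert_iff.1 hI with h | h
          · exact absurd h h1
          · exact h.1.1)).1 hsub
      rcases Set.mem_insert_iff.1 hI with rfl | hI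
      · exact hsq hle
      · apply hnot
        have hIp : I.IsPrime := hI.1.1
        have : maximalIdeal A = I := le_antisymm hle (le_maximalIdeal hIp.ne_top)
        rwa [this]
    obtain ⟨hx2, hx3⟩ := hx2
    have hdom := ih (hA.quot hx hx2)
    have hprime : (Ideal.span {x}).IsPrime := (Ideal.Quotient.isDomain_iff_prime _).1 hdom
    obtain ⟨P, hP, hPx⟩ := Ideal.exists_minimalPrimes_le (I := (⊥ : Ideal A))
      (J := Ideal.span {x}) bot_le
    have hxP : x ∉ P := hx3 P hP
    have hPprime : P.IsPrime := hP.1.1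
    have hP0 : P = ⊥ := by
      refine Submodule.eq_bot_of_le_smul_of_le_jacobson_bot (maximalIdeal A) P
          ((isNoetherianRing_iff_ideal_fg A).1 hN _) ?_ (maximalIdeal_le_jacobson _)
      intro y hy
      obtain ⟨a, rfl⟩ := Ideal.mem_span_singleton'.1 (hPx hy)
      have ha : a ∈ P := (hPprime.mem_or_mem hy).resolve_right hxP
      rw [smul_eq_mul, mul_comm a x]
      exact Ideal.mul_mem_mul hx ha
    subst hP0
    exact IsDomain.of_bot_isPrime A

/-- `f` is a regular system of parameters of the Noetherian local ring `A` of dimension `d`. -/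
structure RSP (d : ℕ) (A : Type*) [CommRing A] (f : Fin d → A) : Prop where
  isLocal : IsLocalRing A
  isNoeth : IsNoetherianRing A
  span_eq : Ideal.span (Set.range f) = maximalIdeal A
  le_dim : (d : WithBot ℕ∞) ≤ ringKrullDim A

theorem RSP.regD {d : ℕ} {A : Type*} [CommRing A] {f : Fin d → A} (h : RSP d A f) :
    RegD d A := by
  classical
  obtain ⟨h1, h2, h3, h4⟩ := h
  refine ⟨h1, h2, Finset.univ.image f, ?_, ?_, h4⟩
  · exact Finset.card_image_le.trans (by simp)
  · rw [Finset.coe_image, Finset.coe_univ, Set.image_univ]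
    exact h3

theorem RSP.isDomain {d : ℕ} {A : Type*} [CommRing A] {f : Fin d → A} (h : RSP d A f) :
    IsDomain A := h.regD.isDomain

theorem dim_le_card {A : Type*} [CommRing A] [IsLocalRing A] [IsNoetherianRing A]
    (s : Finset A) (hs : Ideal.span (s : Set A) = maximalIdeal A) :
    ringKrullDim A ≤ (s.card : WithBot ℕ∞) := by
  refine (ringKrullDim_le_spanFinrank_maximalIdeal A).trans ?_
  rw [← hs]
  have := Submodule.spanFinrank_span_le_ncard_of_finite (R := A) s.finite_toSet
  rw [Set.ncard_coe_finset] at this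
  exact_mod_cast this

theorem RSP.dim_eq {d : ℕ} {A : Type*} [CommRing A] {f : Fin d → A} (h : RSP d A f) :
    ringKrullDim A = d := by
  classical
  have hl := h.isLocal
  have hn := h.isNoeth
  refine le_antisymm ?_ h.le_dim
  refine (dim_le_card (Finset.univ.image f) ?_).trans ?_
  · rw [Finset.coe_image, Finset.coe_univ, Set.image_univ]
    exact h.span_eq
  · have : (Finset.univ.image f).card ≤ d := Finset.card_image_le.trans (by simp)
    exact_mod_cast this

theorem RSP.mem {d : ℕ} {A : Type*} [CommRing A] {f : Fin d → A} (h : RSP d A f) (i : Fin d) :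
    haveI := h.isLocal
    f i ∈ maximalIdeal A := by
  have := h.isLocal
  rw [← h.span_eq]
  exact Ideal.subset_span ⟨i, rfl⟩

theorem RSP.notMem_sq {d : ℕ} {A : Type*} [CommRing A] {f : Fin (d + 1) → A}
    (h : RSP (d + 1) A f) :
    haveI := h.isLocal
    f 0 ∉ maximalIdeal A ^ 2 := by
  classical
  have hl := h.isLocal
  have hn := h.isNoeth
  intro hsq
  have hle : maximalIdeal A ≤ Ideal.span (Set.range (Fin.tail f)) ⊔
      maximalIdeal A • maximalIdeal A := by
    rw [smul_eq_mul, ← pow_two]
    conv_lhs => rw [← h.span_eq]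
    rw [Ideal.span_le]
    rintro _ ⟨i, rfl⟩
    refine Fin.cases ?_ (fun j => ?_) i
    · exact Ideal.mem_sup_right hsq
    · exact Ideal.mem_sup_left (Ideal.subset_span ⟨j, rfl⟩)
  have h1 : maximalIdeal A ≤ Ideal.span (Set.range (Fin.tail f)) :=
    Submodule.le_of_le_smul_of_le_jacobson_bot ((isNoetherianRing_iff_ideal_fg A).1 hn _)
      (maximalIdeal_le_jacobson _) hle
  have h2 : Ideal.span (Set.range (Fin.tail f)) = maximalIdeal A := by
    refine le_antisymm ?_ h1
    rw [Ideal.span_le]
    rintro _ ⟨i, rfl⟩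
    exact h.mem _
  have h3 := dim_le_card (Finset.univ.image (Fin.tail f)) (by
    rw [Finset.coe_image, Finset.coe_univ, Set.image_univ]
    exact h2)
  have h4 : (Finset.univ.image (Fin.tail f)).card ≤ d := Finset.card_image_le.trans (by simp)
  have h5 : ((d + 1 : ℕ) : WithBot ℕ∞) ≤ (d : WithBot ℕ∞) :=
    (h.le_dim.trans h3).trans (by exact_mod_cast h4)
  rw [Nat.cast_le] at h5
  omega

/-- The quotient by the first parameter. -/
theorem RSP.tail {d : ℕ} {A : Type*} [CommRing A] {f : Fin (d + 1) → A}
    (h : RSP (d + 1) A f) :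
    RSP d (A ⧸ Ideal.span {f 0}) (fun i => Ideal.Quotient.mk (Ideal.span {f 0}) (f i.succ)) := by
  have hl := h.isLocal
  have hn := h.isNoeth
  have hloc := isLocalRing_quot (h.mem 0)
  refine ⟨hloc, inferInstance, ?_, dim_quot h.le_dim (h.mem 0)⟩
  have h1 := map_maximalIdeal_of_surjective (Ideal.Quotient.mk (Ideal.span {f 0}))
      Ideal.Quotient.mk_surjective
  rw [← h1, ← h.span_eq, Ideal.map_span, ← Set.range_comp]
  have h0 : Ideal.Quotient.mk (Ideal.span {f 0}) (f 0) = 0 :=
    Ideal.Quotient.eq_zero_iff_mem.2 (Ideal.mem_span_singleton_self _)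
  apply le_antisymm
  · rw [Ideal.span_le]
    rintro _ ⟨i, rfl⟩
    exact Ideal.subset_span ⟨i.succ, rfl⟩
  · rw [Ideal.span_le]
    rintro _ ⟨i, rfl⟩
    refine Fin.cases ?_ (fun j => ?_) i
    · rw [Function.comp_apply, h0]
      exact Ideal.zero_mem _
    · exact Ideal.subset_span ⟨j, rfl⟩

theorem RSP.isDomain_quot {d : ℕ} {A : Type*} [CommRing A] {f : Fin (d + 1) → A}
    (h : RSP (d + 1) A f) : IsDomain (A ⧸ Ideal.span {f 0}) := h.tail.isDomain

theorem RSP.isPrime {d : ℕ} {A : Type*} [CommRing A] {f : Fin (d + 1) → A}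
    (h : RSP (d + 1) A f) : (Ideal.span {f 0}).IsPrime :=
  (Ideal.Quotient.isDomain_iff_prime _).1 h.isDomain_quot

theorem RSP.ne_zero {d : ℕ} {A : Type*} [CommRing A] {f : Fin (d + 1) → A}
    (h : RSP (d + 1) A f) : f 0 ≠ 0 := by
  have hl := h.isLocal
  intro h0
  apply h.notMem_sq
  rw [h0]
  exact Ideal.zero_mem _

/-- Any localization at the prime generated by the first parameter is a discrete valuation ring
with this parameter as a uniformizer. -/
theorem RSP.dvr {d : ℕ} {A : Type*} [CommRing A] {f : Fin (d + 1) → A}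
    (h : RSP (d + 1) A f) [(Ideal.span {f 0}).IsPrime] (O : Type*) [CommRing O] [Algebra A O]
    [IsLocalization.AtPrime O (Ideal.span {f 0})] :
    ∃ (_ : IsDomain O) (_ : IsDiscreteValuationRing O),
      Irreducible (algebraMap A O (f 0)) := by
  have hl := h.isLocal
  have hn := h.isNoeth
  have hd := h.isDomain
  have hdom : IsDomain O := IsLocalization.isDomain_of_le_nonZeroDivisors O
    (Ideal.primeCompl_le_nonZeroDivisors (Ideal.span {f 0}))
  have hloc : IsLocalRing O := IsLocalization.AtPrime.isLocalRing O (Ideal.span {f 0})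
  have hno : IsNoetherianRing O := IsLocalization.isNoetherianRing (Ideal.span {f 0}).primeCompl O hn
  have hmax : maximalIdeal O = Ideal.span {algebraMap A O (f 0)} := by
    rw [← IsLocalization.AtPrime.map_eq_maximalIdeal (Ideal.span {f 0}) O, Ideal.map_span,
      Set.image_singleton]
  have hinj : Function.Injective (algebraMap A O) :=
    IsLocalization.injective O (Ideal.primeCompl_le_nonZeroDivisors (Ideal.span {f 0}))
  have hne : algebraMap A O (f 0) ≠ 0 := by
    intro h0
    exact h.ne_zero (hinj (h0.trans (map_zero _).symm))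
  have hnf : ¬ IsField O := by
    rw [isField_iff_maximalIdeal_eq, hmax]
    intro h0
    exact hne (Ideal.span_singleton_eq_bot.1 h0)
  have hpr : (maximalIdeal O).IsPrincipal := ⟨algebraMap A O (f 0), hmax⟩
  have hdvr : IsDiscreteValuationRing O :=
    ((IsDiscreteValuationRing.TFAE O hnf).out 0 4).2 hpr
  exact ⟨hdom, hdvr, (IsDiscreteValuationRing.irreducible_iff_uniformizer _).2 hmax⟩

end Pool.Agent.SSF.Reg
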