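import Mathlib
import Pool.Agent.SSF.Reg1

/-!
Smooth schemes over a field have regular local rings.
-/

namespace Pool.Agent.SSF.Reg

open IsLocalRing AlgebraicGeometry CategoryTheory

/-- An algebra etale over a regular ring is regular. -/
theorem isRegularRing_of_etale (P S : Type*) [CommRing P] [CommRing S] [Algebra P S]
    [Algebra.Etale P S] [IsRegularRing P] : IsRegularRing S := by
  have hN : IsNoetherianRing S := Algebra.FiniteType.isNoetherianRing P S
  rw [isRegularRing_iff]
  intro q hq
  let p : Ideal P := q.under P
  have hpq : q.LiesOver p := ⟨rfl⟩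
  have hp : p.IsPrime := inferInstance
  let _ := Localization.AtPrime.algebraOfLiesOver p q
  have hreg : IsRegularLocalRing (Localization.AtPrime p) := inferInstance
  have hunr : Algebra.IsUnramifiedAt P q := inferInstance
  have hmap := ((Algebra.isUnramifiedAt_iff_map_eq P p q).1 hunr).2
  have hmap2 : (maximalIdeal (Localization.AtPrime p)).map
      (algebraMap (Localization.AtPrime p) (Localization.AtPrime q)) =
      maximalIdeal (Localization.AtPrime q) := by
    rw [← hmap, ← Localization.AtPrime.map_eq_maximalIdeal, Ideal.map_map,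
      ← IsScalarTower.algebraMap_eq]
  have hht : p.height ≤ q.height := by
    rw [Ideal.height_eq_height_add_of_liesOver_of_hasGoingDown p q]
    exact le_self_add
  apply IsRegularLocalRing.of_spanFinrank_maximalIdeal_le
  have h1 : (maximalIdeal (Localization.AtPrime q)).spanFinrank ≤
      (maximalIdeal (Localization.AtPrime p)).spanFinrank := by
    rw [← hmap2]
    exact Ideal.spanFinrank_map_le_of_fg _
      ((isNoetherianRing_iff_ideal_fg _).1 inferInstance _)
  have h2 : (((maximalIdeal (Localization.AtPrime p)).spanFinrank : ℕ) : WithBot ℕ∞) =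
      ringKrullDim (Localization.AtPrime p) := hreg.spanFinrank_maximalIdeal
  calc (((maximalIdeal (Localization.AtPrime q)).spanFinrank : ℕ) : WithBot ℕ∞)
      ≤ (((maximalIdeal (Localization.AtPrime p)).spanFinrank : ℕ) : WithBot ℕ∞) := by
        exact_mod_cast h1
    _ = ringKrullDim (Localization.AtPrime p) := h2
    _ = (p.height : WithBot ℕ∞) := IsLocalization.AtPrime.ringKrullDim_eq_height p _
    _ ≤ (q.height : WithBot ℕ∞) := by exact_mod_cast hht
    _ = ringKrullDim (Localization.AtPrime q) :=
        (IsLocalization.AtPrime.ringKrullDim_eq_height q _).symm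

theorem isRegularRing_of_ringHom_standardSmooth {R S : Type*} [CommRing R] [CommRing S]
    [IsRegularRing R] {f : R →+* S} (hf : f.IsStandardSmooth) : IsRegularRing S := by
  obtain ⟨n, g, -, hg⟩ := hf.exists_etale_mvPolynomial
  let _ := g.toAlgebra
  have : Algebra.Etale (MvPolynomial (Fin n) R) S := hg
  exact isRegularRing_of_etale (MvPolynomial (Fin n) R) S

theorem isRegularRing_of_field_of_equiv {k R : Type*} [Field k] [CommRing R] (e : k ≃+* R) :
    IsRegularRing R := IsRegularRing.of_ringEquiv e

/-- The local rings of a smooth scheme over a field are regular. -/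
theorem isRegularLocalRing_stalk {k : Type*} [Field k] {X : Scheme}
    (f : X ⟶ Spec (CommRingCat.of k)) [Smooth f] (x : X) :
    IsRegularLocalRing (X.presheaf.stalk x) := by
  obtain ⟨U, hU, V, hV, hx, e, hs⟩ := Smooth.exists_isStandardSmooth f x
  have hfx : f x ∈ U := e hx
  have hUtop : U = ⊤ := by
    ext y
    simp only [TopologicalSpace.Opens.coe_top, Set.mem_univ, iff_true]
    have : Subsingleton (Spec (CommRingCat.of k)) :=
      inferInstanceAs (Subsingleton (PrimeSpectrum k))
    rwa [Subsingleton.elim y (f x)]
  subst hUtop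
  have hreg : IsRegularRing Γ(Spec (CommRingCat.of k), ⊤) :=
    isRegularRing_of_field_of_equiv (k := k)
      ((Scheme.ΓSpecIso (CommRingCat.of k)).symm.commRingCatIsoToRingEquiv)
  have hregV : IsRegularRing Γ(X, V) := isRegularRing_of_ringHom_standardSmooth hs
  have hloc := hV.isLocalization_stalk ⟨x, hx⟩
  have h2 : IsRegularLocalRing (Localization.AtPrime (hV.primeIdealOf ⟨x, hx⟩).asIdeal) :=
    inferInstance
  let _ := X.presheaf.algebra_section_stalk (U := V) ⟨x, hx⟩
  exact IsRegularLocalRing.of_ringEquiv
    (IsLocalization.algEquiv (hV.primeIdealOf ⟨x, hx⟩).asIdeal.primeCompl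
      (Localization.AtPrime (hV.primeIdealOf ⟨x, hx⟩).asIdeal)
      (X.presheaf.stalk x)).toRingEquiv

end Pool.Agent.SSF.Reg
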