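import Mathlib
import Pool.Agent.SSF.Reg2

/-!
A connected smooth scheme over a field is integral.
-/

namespace Pool.Agent.SSF.Reg

open IsLocalRing AlgebraicGeometry CategoryTheory TopologicalSpace

/-- A connected space covered by irreducible open sets is irreducible. -/
theorem irreducibleSpace_of_local {T : Type*} [TopologicalSpace T] [ConnectedSpace T]
    (h : ∀ x : T, ∃ W : Set T, IsOpen W ∧ x ∈ W ∧ IsPreirreducible W) : IrreducibleSpace T := by
  have hdense : ∀ U : Set T, IsOpen U → U.Nonempty → closure U = Set.univ := by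
    intro U hU hne
    have hopen : IsOpen (closure U) := by
      rw [isOpen_iff_mem_nhds]
      intro x hx
      obtain ⟨W, hW, hxW, hirr⟩ := h x
      refine Filter.mem_of_superset (hW.mem_nhds hxW) ?_
      intro y hy
      rw [mem_closure_iff]
      intro V hV hyV
      have h1 : (W ∩ V).Nonempty := ⟨y, hy, hyV⟩
      have h2 : (W ∩ U).Nonempty := by
        obtain ⟨z, hz1, hz2⟩ := mem_closure_iff.1 hx W hW hxW
        exact ⟨z, hz1, hz2⟩
      obtain ⟨z, hz1, hz2, hz3⟩ := hirr V U hV hU h1 h2
      exact ⟨z, hz2, hz3⟩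
    exact IsClopen.eq_univ ⟨isClosed_closure, hopen⟩ (hne.mono subset_closure)
  have hpre : PreirreducibleSpace T := ⟨by
    intro U V hU hV hUne hVne
    rw [Set.univ_inter] at hUne hVne
    rw [Set.univ_inter]
    obtain ⟨x, hx⟩ := hVne
    have : x ∈ closure U := by rw [hdense U hU hUne]; trivial
    obtain ⟨y, hy1, hy2⟩ := mem_closure_iff.1 this V hV hx
    exact ⟨y, hy2, hy1⟩⟩
  exact { hpre with toNonempty := inferInstance }

/-- If `A_p` is a domain, then so is `A_f` for some `f` not in `p` (Noetherian rings). -/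
theorem exists_away_isDomain {A : Type*} [CommRing A] [IsNoetherianRing A] (p : Ideal A)
    [p.IsPrime] [IsDomain (Localization.AtPrime p)] :
    ∃ f, f ∉ p ∧ IsDomain (Localization.Away f) := by
  classical
  let K : Ideal A := RingHom.ker (algebraMap A (Localization.AtPrime p))
  obtain ⟨s, hs⟩ := (isNoetherianRing_iff_ideal_fg A).1 inferInstance K
  have hkill : ∀ a ∈ K, ∃ g, g ∉ p ∧ g * a = 0 := by
    intro a ha
    have h1 : algebraMap A (Localization.AtPrime p) a = 0 := ha
    obtain ⟨g, hg⟩ := (IsLocalization.map_eq_zero_iff p.primeCompl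
      (Localization.AtPrime p) a).1 h1
    exact ⟨g, g.2, hg⟩
  have hs2 : ∀ a ∈ s, ∃ g, g ∉ p ∧ g * a = 0 := fun a ha =>
    hkill a (by rw [← hs]; exact Ideal.subset_span ha)
  choose! g hg1 hg2 using hs2
  let f : A := ∏ a ∈ s, g a
  have hf : f ∉ p := by
    intro hmem
    obtain ⟨a, ha, hga⟩ := (Ideal.IsPrime.prod_mem_iff (hp := inferInstance)).1 hmem
    exact hg1 a ha hga
  have hfK : ∀ a ∈ K, f * a = 0 := by
    intro a ha
    rw [← hs] at ha
    refine Submodule.span_induction (p := fun a _ => f * a = 0) ?_ (mul_zero _) ?_ ?_ ha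
    · intro x hx
      have : f = (∏ a ∈ s.erase x, g a) * g x := (Finset.prod_erase_mul s g hx).symm
      rw [this, mul_assoc, hg2 x hx, mul_zero]
    · intro x y _ _ h1 h2
      rw [mul_add, h1, h2, add_zero]
    · intro c x _ h1
      rw [smul_eq_mul, mul_left_comm, h1, mul_zero]
  refine ⟨f, hf, ?_⟩
  have hfu : IsUnit (algebraMap A (Localization.AtPrime p) f) :=
    IsLocalization.map_units (Localization.AtPrime p) (⟨f, hf⟩ : p.primeCompl)
  let φ : Localization.Away f →+* Localization.AtPrime p := IsLocalization.Away.lift f hfu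
  have hφ : Function.Injective φ := by
    rw [injective_iff_map_eq_zero]
    intro x hx
    obtain ⟨a, ⟨_, n, rfl⟩, rfl⟩ := IsLocalization.exists_mk'_eq (Submonoid.powers f) x
    have h1 : φ (algebraMap A (Localization.Away f) a) = 0 := by
      rw [← IsLocalization.mk'_spec (Localization.Away f) a (⟨f ^ n, n, rfl⟩ :
        Submonoid.powers f), map_mul, hx, zero_mul]
    have h2 : algebraMap A (Localization.AtPrime p) a = 0 := by
      rw [← h1]
      exact (IsLocalization.Away.lift_eq f hfu a).symm
    have h3 : f * a = 0 := hfK a h2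
    exact (IsLocalization.mk'_eq_zero_iff a _).2 ⟨⟨f, 1, pow_one f⟩, h3⟩
  exact hφ.isDomain φ

theorem regD_of_isRegularLocalRing {A : Type*} [CommRing A] [h : IsRegularLocalRing A] :
    ∃ d, RegD d A := by
  obtain ⟨s, hs1, hs2⟩ := Submodule.FG.exists_span_finset_card_eq_spanFinrank
    ((isNoetherianRing_iff_ideal_fg A).1 inferInstance (maximalIdeal A))
  exact ⟨(maximalIdeal A).spanFinrank, inferInstance, inferInstance, s, hs1.le, hs2,
    h.spanFinrank_maximalIdeal.le⟩

theorem isDomain_of_isRegularLocalRing {A : Type*} [CommRing A] [IsRegularLocalRing A] :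
    IsDomain A := by
  obtain ⟨d, hd⟩ := regD_of_isRegularLocalRing (A := A)
  exact hd.isDomain

/-- A regular local ring has a regular system of parameters. -/
theorem exists_rsp {A : Type*} [CommRing A] [h : IsRegularLocalRing A] :
    ∃ (d : ℕ) (f : Fin d → A), RSP d A f := by
  obtain ⟨s, hs1, hs2⟩ := Submodule.FG.exists_span_finset_card_eq_spanFinrank
    ((isNoetherianRing_iff_ideal_fg A).1 inferInstance (maximalIdeal A))
  refine ⟨s.card, fun i => s.equivFin.symm i, inferInstance, inferInstance, ?_, ?_⟩
  · rw [← hs2]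
    congr 1
    ext y
    constructor
    · rintro ⟨i, rfl⟩
      exact (s.equivFin.symm i).2
    · intro hy
      exact ⟨s.equivFin ⟨y, hy⟩, by simp⟩
  · rw [hs1]
    exact h.spanFinrank_maximalIdeal.le

theorem isPreirreducible_of_isAffineOpen {T : Scheme} {W : T.Opens} (hW : IsAffineOpen W)
    [IsDomain Γ(T, W)] : IsPreirreducible (W : Set T) := by
  rw [← hW.range_fromSpec, ← Set.image_univ]
  have : IrreducibleSpace (Spec Γ(T, W)) :=
    inferInstanceAs (IrreducibleSpace (PrimeSpectrum Γ(T, W)))
  exact (IrreducibleSpace.isIrreducible_univ _).isPreirreducible.image _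
    hW.fromSpec.continuous.continuousOn

theorem exists_open_irreducible {T : Scheme} [IsLocallyNoetherian T]
    [∀ x : T, IsDomain (T.presheaf.stalk x)] (x : T) :
    ∃ W : Set T, IsOpen W ∧ x ∈ W ∧ IsPreirreducible W := by
  obtain ⟨_, ⟨V : T.Opens, hV, rfl⟩, hx, -⟩ :=
      T.isBasis_affineOpens.exists_subset_of_mem_open (Set.mem_univ x) isOpen_univ
  have hN : IsNoetherianRing Γ(T, V) := IsLocallyNoetherian.component_noetherian ⟨V, hV⟩
  have hloc := hV.isLocalization_stalk ⟨x, hx⟩
  let p := (hV.primeIdealOf ⟨x, hx⟩).asIdeal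
  let _ := T.presheaf.algebra_section_stalk (U := V) ⟨x, hx⟩
  have e : Localization.AtPrime p ≃+* T.presheaf.stalk x :=
    (IsLocalization.algEquiv p.primeCompl (Localization.AtPrime p)
      (T.presheaf.stalk x)).toRingEquiv
  have hdom : IsDomain (Localization.AtPrime p) := e.toMulEquiv.isDomain _
  obtain ⟨f, hf, hdomf⟩ := exists_away_isDomain p
  have hbo : IsPreirreducible ((T.basicOpen f : T.Opens) : Set T) := by
    have hl2 := hV.isLocalization_basicOpen f
    have e2 : Localization.Away f ≃+* Γ(T, T.basicOpen f) :=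
      (IsLocalization.algEquiv (Submonoid.powers f) (Localization.Away f)
        Γ(T, T.basicOpen f)).toRingEquiv
    have : IsDomain Γ(T, T.basicOpen f) := e2.symm.toMulEquiv.isDomain _
    exact isPreirreducible_of_isAffineOpen (hV.basicOpen f)
  refine ⟨(T.basicOpen f : T.Opens), (T.basicOpen f).isOpen, ?_, hbo⟩
  rw [SetLike.mem_coe, T.mem_basicOpen f x hx]
  exact (IsLocalization.AtPrime.isUnit_to_map_iff (T.presheaf.stalk x) p f).2 hf

/-- A connected smooth scheme over a field is integral. -/
theorem isIntegral_of_smooth {k : Type*} [Field k] {T : Scheme} [ConnectedSpace T]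
    (f : T ⟶ Spec (CommRingCat.of k)) [Smooth f] : IsIntegral T := by
  have hln : IsLocallyNoetherian T := LocallyOfFiniteType.isLocallyNoetherian f
  have hdom : ∀ x : T, IsDomain (T.presheaf.stalk x) := fun x => by
    have := isRegularLocalRing_stalk f x
    exact isDomain_of_isRegularLocalRing
  have hirr : IrreducibleSpace T := irreducibleSpace_of_local exists_open_irreducible
  have hred : ∀ x : T, _root_.IsReduced (T.presheaf.stalk x) := fun x => inferInstance
  have : IsReduced T := isReduced_of_isReduced_stalk T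
  exact isIntegral_of_irreducibleSpace_of_isReduced T

end Pool.Agent.SSF.Reg
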