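import Mathlib
import Pool.Agent.SSF.Reg3

/-!
The chain lemma: intersecting a cycle over a regular local ring successively with the members of
a regular system of parameters, only the components over the successive primes
`(f_0, ..., f_(i-1))` matter.
-/

namespace Pool.Agent.SSF.Chain

open IsLocalRing Pool.Agent.SSF.Reg

variable {B : Type*} [CommRing B] {d : ℕ}

/-- The ideal generated by the first `i` parameters. -/
def qI (f : Fin d → B) (i : ℕ) : Ideal B := Ideal.span (f '' {j | (j : ℕ) < i})

theorem qI_zero (f : Fin d → B) : qI f 0 = ⊥ := by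
  have : f '' {j | (j : ℕ) < 0} = ∅ := by simp
  rw [qI, this, Ideal.span_empty]

theorem qI_mono (f : Fin d → B) {i j : ℕ} (h : i ≤ j) : qI f i ≤ qI f j :=
  Ideal.span_mono (Set.image_mono fun _ hk => lt_of_lt_of_le hk h)

theorem mem_qI (f : Fin d → B) {i : ℕ} (j : Fin d) (h : (j : ℕ) < i) : f j ∈ qI f i :=
  Ideal.subset_span ⟨j, h, rfl⟩

theorem qI_full (f : Fin d → B) : qI f d = Ideal.span (Set.range f) := by
  rw [qI]
  congr 1
  ext y
  constructor
  · rintro ⟨j, -, rfl⟩
    exact ⟨j, rfl⟩
  · rintro ⟨j, rfl⟩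
    exact ⟨j, j.2, rfl⟩

theorem qI_succ (f : Fin d → B) (i : Fin d) : qI f (i + 1) = qI f i ⊔ Ideal.span {f i} := by
  rw [qI, qI, ← Ideal.span_union]
  congr 1
  ext y
  constructor
  · rintro ⟨j, hj, rfl⟩
    rcases Nat.lt_succ_iff_lt_or_eq.1 hj with h | h
    · exact Or.inl ⟨j, h, rfl⟩
    · exact Or.inr (by rw [Fin.ext h]; rfl)
  · rintro (⟨j, hj, rfl⟩ | h)
    · exact ⟨j, Nat.lt_succ_of_lt hj, rfl⟩
    · rw [Set.mem_singleton_iff.1 h]
      exact ⟨i, Nat.lt_succ_self _, rfl⟩

/-- The remaining parameters form a regular system of parameters of the quotient. -/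
theorem rsp_quot {f : Fin d → B} (h : RSP d B f) (i : ℕ) (hi : i ≤ d) :
    RSP (d - i) (B ⧸ qI f i)
      (fun j => Ideal.Quotient.mk (qI f i) (f ⟨i + j, by omega⟩)) := by
  classical
  have hl := h.isLocal
  have hn := h.isNoeth
  have hle : qI f i ≤ maximalIdeal B := by
    rw [← h.span_eq, ← qI_full]
    exact qI_mono f hi
  have hne : qI f i ≠ ⊤ := fun h0 => (maximalIdeal.isMaximal B).ne_top
    (top_le_iff.1 (h0 ▸ hle))
  have hnt : Nontrivial (B ⧸ qI f i) := Ideal.Quotient.nontrivial_iff.2 hne
  have hloc : IsLocalRing (B ⧸ qI f i) :=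
    IsLocalRing.of_surjective' (Ideal.Quotient.mk _) Ideal.Quotient.mk_surjective
  refine ⟨hloc, inferInstance, ?_, ?_⟩
  · have h1 := map_maximalIdeal_of_surjective (Ideal.Quotient.mk (qI f i))
      Ideal.Quotient.mk_surjective
    rw [← h1, ← h.span_eq, Ideal.map_span, ← Set.range_comp]
    apply le_antisymm
    · rw [Ideal.span_le]
      rintro _ ⟨j, rfl⟩
      exact Ideal.subset_span ⟨⟨i + j, by omega⟩, rfl⟩
    · rw [Ideal.span_le]
      rintro _ ⟨j, rfl⟩
      by_cases hj : (j : ℕ) < i
      · have : Ideal.Quotient.mk (qI f i) (f j) = 0 :=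
          Ideal.Quotient.eq_zero_iff_mem.2 (mem_qI f j hj)
        rw [Function.comp_apply, this]
        exact Ideal.zero_mem _
      · refine Ideal.subset_span ⟨⟨(j : ℕ) - i, by omega⟩, ?_⟩
        simp only [Function.comp_apply]
        congr 2
        apply Fin.ext
        simp only
        omega
  · have hcard : ((Finset.univ.filter fun j : Fin d => (j : ℕ) < i).image f).card ≤ i := by
      refine Finset.card_image_le.trans ?_
      have : (Finset.univ.filter fun j : Fin d => (j : ℕ) < i).card ≤ (Finset.range i).card := by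
        apply Finset.card_le_card_of_injOn (fun j : Fin d => (j : ℕ))
        · intro j hj
          simpa using hj
        · intro a _ b _ hab
          exact Fin.ext hab
      simpa using this
    have hspan : Ideal.span (((Finset.univ.filter fun j : Fin d => (j : ℕ) < i).image f :
        Finset B) : Set B) = qI f i := by
      rw [qI]
      congr 1
      ext y
      simp
    have h1 := ringKrullDim_le_ringKrullDim_quotient_add_card (R := B)
      ((Finset.univ.filter fun j : Fin d => (j : ℕ) < i).image f) (by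
        rw [IsLocalRing.ringJacobson_eq_maximalIdeal]
        intro y hy
        apply hle
        rw [← hspan]
        exact Ideal.subset_span hy)
    rw [hspan, h.dim_eq] at h1
    have h2 : (d : WithBot ℕ∞) ≤ ringKrullDim (B ⧸ qI f i) + (i : WithBot ℕ∞) := by
      refine h1.trans ?_
      gcongr
    have h3 : (((d - i : ℕ) : WithBot ℕ∞) + (i : WithBot ℕ∞)) = (d : WithBot ℕ∞) := by
      rw [← Nat.cast_add, Nat.sub_add_cancel hi]
    rw [← h3] at h2
    exact ENat.WithBot.add_le_add_natCast_right_iff.1 h2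

theorem isPrime_qI {f : Fin d → B} (h : RSP d B f) {i : ℕ} (hi : i ≤ d) : (qI f i).IsPrime :=
  (Ideal.Quotient.isDomain_iff_prime _).1 (rsp_quot h i hi).isDomain

theorem height_qI_le {f : Fin d → B} (h : RSP d B f) (i : ℕ) (hi : i ≤ d) :
    (qI f i).height ≤ i := by
  classical
  have hn := h.isNoeth
  have := isPrime_qI h hi
  have hcard : ((Finset.univ.filter fun j : Fin d => (j : ℕ) < i).image f).card ≤ i := by
    refine Finset.card_image_le.trans ?_
    have : (Finset.univ.filter fun j : Fin d => (j : ℕ) < i).card ≤ (Finset.range i).card := by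
      apply Finset.card_le_card_of_injOn (fun j : Fin d => (j : ℕ))
      · intro j hj
        simpa using hj
      · intro a _ b _ hab
        exact Fin.ext hab
    simpa using this
  have hspan : Ideal.span (((Finset.univ.filter fun j : Fin d => (j : ℕ) < i).image f :
      Finset B) : Set B) = qI f i := by
    rw [qI]
    congr 1
    ext y
    simp
  refine (Ideal.height_le_card_of_mem_minimalPrimes_span_finset (s :=
    ((Finset.univ.filter fun j : Fin d => (j : ℕ) < i).image f)) ?_).trans ?_
  · rw [hspan]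
    exact (Ideal.minimalPrimes_eq_subsingleton_self (I := qI f i)).symm ▸ Set.mem_singleton _
  · exact_mod_cast hcard

/-- Between two consecutive primes of the chain there is nothing. -/
theorem eq_of_between {f : Fin d → B} (h : RSP d B f) (i : Fin d) {p : Ideal B} [p.IsPrime]
    (h1 : qI f i ≤ p) (h2 : p ≤ qI f (i + 1)) (h3 : f i ∉ p) : p = qI f i := by
  have hl := h.isLocal
  have hn := h.isNoeth
  refine le_antisymm ?_ h1
  have hle : p ≤ qI f i ⊔ maximalIdeal B • p := by
    intro x hx
    have hx2 := h2 hx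
    rw [qI_succ, Submodule.mem_sup] at hx2
    obtain ⟨a, ha, b, hb, rfl⟩ := hx2
    obtain ⟨c, rfl⟩ := Ideal.mem_span_singleton'.1 hb
    have hcf : c * f i ∈ p := by
      have := Ideal.sub_mem p hx (h1 ha)
      rwa [add_sub_cancel_left] at this
    have hc : c ∈ p := (‹p.IsPrime›.mem_or_mem hcf).resolve_right h3
    refine Submodule.mem_sup.2 ⟨a, ha, c * f i, ?_, rfl⟩
    rw [smul_eq_mul, mul_comm c]
    exact Ideal.mul_mem_mul (h.mem i) hc
  exact Submodule.le_of_le_smul_of_le_jacobson_bot ((isNoetherianRing_iff_ideal_fg B).1 hn _)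
    (maximalIdeal_le_jacobson _) hle

section Lemma

variable {Y : Type*} {M : Type*} [AddCommGroup M]

open Classical in
/-- The total of the function `Φ` on the part of the cycle `c` which lies over the prime `q`. -/
noncomputable def total (π : Y → PrimeSpectrum B) (q : Ideal B) (c : Y →₀ ℤ) (Φ : Y → M) : M :=
  ∑ y ∈ c.support.filter (fun y => (π y).asIdeal = q), c y • Φ y

open Classical in
theorem total_eq (π : Y → PrimeSpectrum B) (q : Ideal B) (c : Y →₀ ℤ) (Φ : Y → M)
    (S : Finset Y) (hS : ∀ y, c y ≠ 0 → (π y).asIdeal = q → y ∈ S) :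
    total π q c Φ = ∑ y ∈ S.filter (fun y => (π y).asIdeal = q), c y • Φ y := by
  rw [total]
  refine Finset.sum_subset_zero_on_sdiff ?_ ?_ ?_
  · intro y hy
    rw [Finset.mem_filter] at hy ⊢
    exact ⟨hS y (Finsupp.mem_support_iff.1 hy.1) hy.2, hy.2⟩
  · intro y hy
    rw [Finset.mem_sdiff, Finset.mem_filter, Finset.mem_filter] at hy
    have : c y = 0 := by
      by_contra h
      exact hy.2 ⟨Finsupp.mem_support_iff.2 h, hy.1.2⟩
    rw [this, zero_smul]
  · intro y _
    rfl

/-- Chain lemma. `Y` is the set of points of a scheme over `Spec B`, `π` the structure map,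
`mult i y x` the multiplicity of `x` in the intersection of the closure of `y` with `f_i = 0`. -/
theorem chain {f : Fin d → B} (h : RSP d B f) (π : Y → PrimeSpectrum B)
    (mult : Fin d → Y → Y → ℤ)
    (hm : ∀ i y x, mult i y x ≠ 0 → (π y).asIdeal ≤ (π x).asIdeal ∧
      f i ∉ (π y).asIdeal ∧ f i ∈ (π x).asIdeal)
    (C : ℕ → (Y →₀ ℤ)) (hC : ∀ (i : Fin d) x, C (i + 1) x = (C i).sum fun y n => n * mult i y x)
    (good : ℕ → Y → Prop) (h0 : ∀ y, C 0 y ≠ 0 → good 0 y)
    (hgood : ∀ (i : Fin d) y x, mult i y x ≠ 0 → good i y → good (i + 1) x)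
    (Φ : ℕ → Y → M)
    (hΦ : ∀ (i : Fin d) (y : Y), (π y).asIdeal = qI f i → good i y →
      ∃ S : Finset Y, (∀ x ∈ S, (π x).asIdeal = qI f (i + 1)) ∧
        (∀ x, (π x).asIdeal = qI f (i + 1) → mult i y x ≠ 0 → x ∈ S) ∧
        Φ i y = ∑ x ∈ S, mult i y x • Φ (i + 1) x) :
    total π (qI f 0) (C 0) (Φ 0) = total π (qI f d) (C d) (Φ d) := by
  classical
  -- the invariants of the supports
  have hinv : ∀ i ≤ d, ∀ y, C i y ≠ 0 → good i y ∧ qI f i ≤ (π y).asIdeal := by
    intro i
    induction i with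
    | zero =>
      intro _ y hy
      exact ⟨h0 y hy, by rw [qI_zero]; exact bot_le⟩
    | succ i ih =>
      intro hi x hx
      have hC' := hC ⟨i, hi⟩ x
      rw [hC', Finsupp.sum] at hx
      obtain ⟨y, hy, hne⟩ := Finset.exists_ne_zero_of_sum_ne_zero hx
      have hyC : C i y ≠ 0 := Finsupp.mem_support_iff.1 hy
      have hmul : mult ⟨i, hi⟩ y x ≠ 0 := right_ne_zero_of_mul hne
      obtain ⟨h1, h2, h3⟩ := hm _ _ _ hmul
      obtain ⟨hg, hq⟩ := ih (by omega) y hyC
      refine ⟨hgood ⟨i, hi⟩ y x hmul hg, ?_⟩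
      have := qI_succ f ⟨i, hi⟩
      rw [this]
      refine sup_le (hq.trans h1) ?_
      rw [Ideal.span_singleton_le_iff_mem]
      exact h3
  have hstep : ∀ i : Fin d, total π (qI f i) (C i) (Φ i) =
      total π (qI f (i + 1)) (C (i + 1)) (Φ (i + 1)) := by
    intro i
    -- finite sets
    have hex : ∀ y, ∃ S : Finset Y, (π y).asIdeal = qI f i → C i y ≠ 0 →
        ((∀ x ∈ S, (π x).asIdeal = qI f (i + 1)) ∧
        (∀ x, (π x).asIdeal = qI f (i + 1) → mult i y x ≠ 0 → x ∈ S) ∧
        Φ i y = ∑ x ∈ S, mult i y x • Φ (i + 1) x) := by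
      intro y
      by_cases hy : (π y).asIdeal = qI f i ∧ C i y ≠ 0
      · obtain ⟨S, hS⟩ := hΦ i y hy.1 (hinv i (by omega) y hy.2).1
        exact ⟨S, fun _ _ => hS⟩
      · exact ⟨∅, fun h1 h2 => absurd ⟨h1, h2⟩ hy⟩
    choose S hS using hex
    let U : Finset Y := (C (i + 1)).support ∪ (C i).support.biUnion S
    have hU : ∀ y, C (i + 1) y ≠ 0 → (π y).asIdeal = qI f (i + 1) → y ∈ U := fun y hy _ =>
      Finset.mem_union_left _ (Finsupp.mem_support_iff.2 hy)
    rw [total_eq π (qI f (i + 1)) (C (i + 1)) (Φ (i + 1)) U hU]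
    have e1 : ∀ x, C (i + 1) x • Φ (i + 1) x =
        ∑ y ∈ (C i).support, C i y • (mult i y x • Φ (i + 1) x) := by
      intro x
      rw [hC i x, Finsupp.sum, Finset.sum_smul]
      exact Finset.sum_congr rfl fun y _ => mul_smul _ _ _
    rw [Finset.sum_congr rfl fun x _ => e1 x, Finset.sum_comm]
    rw [total, Finset.sum_filter]
    refine Finset.sum_congr rfl fun y hy => ?_
    have hyC : C i y ≠ 0 := Finsupp.mem_support_iff.1 hy
    have hq := (hinv i (by omega) y hyC).2
    by_cases hπ : (π y).asIdeal = qI f i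
    · rw [if_pos hπ, ← Finset.smul_sum]
      congr 1
      obtain ⟨hS1, hS2, hS3⟩ := hS y hπ hyC
      rw [hS3]
      refine Finset.sum_subset_zero_on_sdiff ?_ ?_ fun _ _ => rfl
      · intro x hx
        rw [Finset.mem_filter]
        exact ⟨Finset.mem_union_right _ (Finset.mem_biUnion.2 ⟨y, hy, hx⟩), hS1 x hx⟩
      · intro x hx
        rw [Finset.mem_sdiff, Finset.mem_filter] at hx
        have : mult i y x = 0 := by
          by_contra hne
          exact hx.2 (hS2 x hx.1.2 hne)
        rw [this, zero_smul]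
    · rw [if_neg hπ]
      symm
      refine Finset.sum_eq_zero fun x hx => ?_
      rw [Finset.mem_filter] at hx
      have : mult i y x = 0 := by
        by_contra hne
        obtain ⟨h1, h2, -⟩ := hm _ _ _ hne
        rw [hx.2] at h1
        exact hπ (eq_of_between h i hq h1 h2)
      rw [this, zero_smul, smul_zero]
  have hall : ∀ i ≤ d, total π (qI f 0) (C 0) (Φ 0) = total π (qI f i) (C i) (Φ i) := by
    intro i
    induction i with
    | zero => intro _; rfl
    | succ i ih =>
      intro hi
      rw [ih (by omega)]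
      exact hstep ⟨i, hi⟩
  exact hall d le_rfl

end Lemma

end Pool.Agent.SSF.Chain
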