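import Mathlib

/-!
# Algebraic equivalence of cycles over a field: the definitions of the question
-/

namespace Pool.Agent.SSF

open CategoryTheory AlgebraicGeometry MonoidalCategory CartesianMonoidalCategory Limits

/-! ### Points, local rings and cycles -/

/-- The points of a scheme. -/
abbrev Pts (X : Scheme.{0}) : Type := X

/-- The local ring of `X` at `x`. -/
noncomputable abbrev Stk (X : Scheme.{0}) (x : Pts X) : CommRingCat.{0} := X.presheaf.stalk x

/-- The residue field of `X` at `x`. -/
noncomputable abbrev Res (X : Scheme.{0}) (x : Pts X) : CommRingCat.{0} := X.residueField x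

/-- Cycles: finite formal sums of points of `X`, a point standing for its closure. -/
abbrev Cycles (X : Scheme.{0}) : Type := Pts X →₀ ℤ

/-- The ring of global functions. -/
abbrev Fun (X : Scheme.{0}) : CommRingCat.{0} := Γ(X, ⊤)

/-- The maximal ideal of the local ring at `x`. -/
noncomputable abbrev maxId (X : Scheme.{0}) (x : Pts X) : Ideal (Stk X x) :=
  IsLocalRing.maximalIdeal (Stk X x)

/-- The map from the local ring at `x` to the local ring at a generization `y` of `x`. -/
noncomputable abbrev spMap {X : Scheme.{0}} {x y : Pts X} (h : y ⤳ x) : Stk X x →+* Stk X y :=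
  (X.presheaf.stalkSpecializes h).hom

/-- The map from the local ring to the residue field. -/
noncomputable abbrev resMap (X : Scheme.{0}) (x : Pts X) : Stk X x →+* Res X x :=
  (X.residue x).hom

/-- The germ of a global function. -/
noncomputable abbrev germAt {X : Scheme.{0}} (f : Fun X) (x : Pts X) : Stk X x :=
  (X.presheaf.germ ⊤ x trivial).hom f

/-- The map on points given by a morphism. -/
noncomputable abbrev mapPt {Y X : Scheme.{0}} (f : Y ⟶ X) (y : Pts Y) : Pts X := f y

/-- The map of local rings given by a morphism. -/
noncomputable abbrev stkMap {Y X : Scheme.{0}} (f : Y ⟶ X) (y : Pts Y) :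
    Stk X (mapPt f y) →+* Stk Y y :=
  (f.stalkMap y).hom

/-- The map on global functions given by a morphism. -/
noncomputable abbrev funMap {Y X : Scheme.{0}} (f : Y ⟶ X) : Fun X →+* Fun Y := f.appTop.hom

/-- An element of a ring as a function on its spectrum. -/
noncomputable abbrev toFun (R : CommRingCat.{0}) : R →+* Fun (Spec R) :=
  (Scheme.ΓSpecIso R).inv.hom

/-! ### Cycles and rational equivalence -/

section Cycles

variable {X : Scheme.{0}}

/-- For a point `y` and a specialization `x` of `y`, the prime ideal of the local ring of `X` at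
`x` which defines the closure of `y`. -/
noncomputable def primeAt {x y : Pts X} (h : y ⤳ x) : Ideal (Stk X x) :=
  (maxId X y).comap (spMap h)

/-- The local ring at `x` of the closure of `y` (with its reduced structure). -/
abbrev LocRing {x y : Pts X} (h : y ⤳ x) : Type := Stk X x ⧸ primeAt h

theorem toRes_aux {x y : Pts X} (h : y ⤳ x) (a : Stk X x) (ha : a ∈ primeAt h) :
    ((resMap X y).comp (spMap h)) a = 0 := by
  have h1 : spMap h a ∈ maxId X y := ha
  rw [RingHom.comp_apply]
  exact (IsLocalRing.residue_eq_zero_iff _).2 h1

/-- The map from the local ring at `x` of the closure of `y` to the residue field of `y`, which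
is the field of rational functions of the closure of `y`. -/
noncomputable def toRes {x y : Pts X} (h : y ⤳ x) : LocRing h →+* Res X y :=
  Ideal.Quotient.lift (primeAt h) ((resMap X y).comp (spMap h)) (toRes_aux h)

/-- The point `x` has codimension one in the closure of `y`. -/
def IsDivisorOf (x y : Pts X) : Prop := ∃ h : y ⤳ x, ringKrullDim (LocRing h) = 1

/-- The length of `O / a` for an element `a` of the local ring `O` at `x` of the closure of `y`. -/
noncomputable abbrev ordAt {x y : Pts X} (h : y ⤳ x) (a : LocRing h) : ℤ :=
  (Ring.ord (LocRing h) a).toNat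

/-- The cycle `c` is the divisor of the rational function `g ≠ 0` on the closure of `y`: for
every point `x` of codimension one of the closure of `y` with local ring `O`, the coefficient of
`c` at `x` is `length (O / a) - length (O / b)` for all `a, b ∈ O` with `g = a / b`. -/
structure IsDiv (y : Pts X) (g : Res X y) (c : Cycles X) : Prop where
  ne_zero : g ≠ 0
  off : ∀ x, ¬ IsDivisorOf x y → c x = 0
  on : ∀ (x : Pts X) (h : y ⤳ x), ringKrullDim (LocRing h) = 1 →
    ∀ a b : LocRing h, a ≠ 0 → b ≠ 0 → toRes h a = g * toRes h b →
      c x = ordAt h a - ordAt h b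

variable (X)

/-- All the points of the cycle `c` have codimension `p`. -/
def HasCodim (p : ℕ) (c : Cycles X) : Prop := ∀ x ∈ c.support, Order.coheight x = p

/-- The group of cycles of codimension `p` on `X`. -/
noncomputable def Cyc (p : ℕ) : AddSubgroup (Cycles X) where
  carrier := {c | HasCodim X p c}
  zero_mem' := by intro x hx; simp at hx
  add_mem' := by
    classical
    intro a b ha hb x hx
    rcases Finset.mem_union.1 (Finsupp.support_add hx) with h | h
    exacts [ha x h, hb x h]
  neg_mem' := by
    intro a ha x hx
    rw [Finsupp.support_neg] at hx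
    exact ha x hx

/-- The group of cycles of codimension `p` rationally equivalent to zero. -/
noncomputable def Rat (p : ℕ) : AddSubgroup (Cycles X) :=
  AddSubgroup.closure {c | ∃ (y : Pts X) (g : Res X y), Order.coheight y + 1 = p ∧ IsDiv y g c}

/-- The Chow group `CHᵖ(X)` of cycles of codimension `p` modulo rational equivalence. -/
def CH (p : ℕ) : Type := Cyc X p ⧸ (Rat X p).addSubgroupOf (Cyc X p)

/-- The group structure of the Chow group. -/
noncomputable instance CH.group (p : ℕ) : AddCommGroup (CH X p) :=
  QuotientAddGroup.Quotient.addCommGroup ((Rat X p).addSubgroupOf (Cyc X p))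

/-- The class of a cycle. -/
noncomputable def CH.mk {X : Scheme.{0}} {p : ℕ} (c : Cyc X p) : CH X p :=
  QuotientAddGroup.mk c

end Cycles

/-! ### Intersection with the divisor of a function; Gysin fibres -/

section Gysin

variable {X : Scheme.{0}}

/-- The germ at `x` of the restriction of `f` to the closure of `y`. -/
noncomputable abbrev germOn (f : Fun X) {x y : Pts X} (h : y ⤳ x) : LocRing h :=
  Ideal.Quotient.mk (primeAt h) (germAt f x)

/-- The point `x` has codimension one in the closure of `y`, and `f` does not vanish at `y`. -/
abbrev IsProper (f : Fun X) {x y : Pts X} (h : y ⤳ x) : Prop :=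
  ringKrullDim (LocRing h) = 1 ∧ germAt f x ∉ primeAt h

open Classical in
/-- The multiplicity of `x` in the intersection of the closure of `y` with the Cartier divisor
`f = 0` of a global function `f` on `X`: if `x` has codimension one in the closure of `y` and `f`
does not vanish at `y`, it is the length of `O / f`, where `O` is the local ring of the
closure of `y` at `x`. If `f` vanishes at `y` the intersection class is zero because the normal
bundle of `f = 0` is trivial. -/
noncomputable def mult (f : Fun X) (y x : Pts X) : ℤ :=
  if h : ∃ h : y ⤳ x, IsProper f h then ordAt h.choose (germOn f h.choose) else 0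

/-- The intersection of the cycle `c` with the divisor `f = 0`. -/
noncomputable def cap (f : Fun X) (c : Cycles X) (x : Pts X) : ℤ :=
  c.sum fun y n => n * mult f y x

end Gysin

section Field

variable {k : Type} [Field k]

/-- Schemes over `k`. -/
abbrev Sch (k : Type) [Field k] : Type 1 := Over (Spec (CommRingCat.of k))

/-- The scheme underlying a scheme over `k`. -/
noncomputable abbrev tot (X : Sch k) : Scheme.{0} := X.left

/-- The spectrum of `k`. -/
noncomputable abbrev pt (k : Type) [Field k] : Sch k := 𝟙_ (Sch k)

/-- The `k`-rational points of `T`. -/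
abbrev RatPt (T : Sch k) : Type := pt k ⟶ T

/-- The product over `k`. -/
noncomputable abbrev prod (X T : Sch k) : Scheme.{0} := (X ⊗ T).left

/-- The point of the scheme `T` given by a `k`-rational point `t`. -/
noncomputable def imPt {T : Sch k} (t : RatPt T) : Pts (tot T) :=
  mapPt t.left (IsLocalRing.closedPoint k)

/-- The local ring of the scheme `T` at the `k`-rational point `t`. -/
noncomputable abbrev locAt {T : Sch k} (t : RatPt T) : CommRingCat.{0} := Stk (tot T) (imPt t)

/-- The spectrum of the local ring of `T` at `t`. -/
noncomputable def specLoc {T : Sch k} (t : RatPt T) : Sch k :=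
  Over.mk (T.left.fromSpecStalk (imPt t) ≫ T.hom)

/-- The canonical morphism `Spec O_{T,t} → T`. -/
noncomputable def specLocTo {T : Sch k} (t : RatPt T) : specLoc t ⟶ T :=
  Over.homMk (T.left.fromSpecStalk (imPt t)) rfl

/-- The closed point of `Spec O_{T,t}`. -/
noncomputable def ptLoc {T : Sch k} (t : RatPt T) : RatPt (specLoc t) :=
  Over.homMk (Spec.map (Scheme.stalkClosedPointTo t.left))
    ((Category.assoc _ _ _).symm.trans
      ((congrArg (· ≫ T.hom) (Scheme.Spec_stalkClosedPointTo_fromSpecStalk t.left)).trans
        (Over.w t)))

/-- The closed immersion `X → X × Spec O_{T,t}` given by the closed point. -/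
noncomputable def secLoc (X : Sch k) {T : Sch k} (t : RatPt T) : X ⟶ X ⊗ specLoc t :=
  lift (𝟙 X) (toUnit X ≫ ptLoc t)

/-- The scheme `X × Spec O_{T,t}`. -/
noncomputable abbrev prodLoc (X : Sch k) {T : Sch k} (t : RatPt T) : Scheme.{0} :=
  prod X (specLoc t)

/-- The morphism `X × Spec O_{T,t} → X × T` on points. -/
noncomputable abbrev locTo (X : Sch k) {T : Sch k} (t : RatPt T) (w : Pts (prodLoc X t)) :
    Pts (prod X T) := mapPt (X ◁ specLocTo t).left w

/-- The morphism `X → X × Spec O_{T,t}` on points. -/
noncomputable abbrev toLoc (X : Sch k) {T : Sch k} (t : RatPt T) (x : Pts (tot X)) :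
    Pts (prodLoc X t) := mapPt (secLoc X t).left x

/-- The projection `X × Spec O_{T,t} → Spec O_{T,t}`. -/
noncomputable abbrev sndLoc (X : Sch k) {T : Sch k} (t : RatPt T) :
    prodLoc X t ⟶ Spec (locAt t) := (snd X (specLoc t)).left

/-- The function on `X × Spec O_{T,t}` given by an element of `O_{T,t}`. -/
noncomputable def funOf (X : Sch k) {T : Sch k} (t : RatPt T) (f : locAt t) :
    Fun (prodLoc X t) :=
  funMap (sndLoc X t) (toFun (locAt t) f)

/-- `c` is a Gysin fibre over the rational point `t` of the cycle `Z` on `X × T`: the local ring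
`O_{T,t}` is regular with a regular system of parameters `f₁, ..., f_d`, and `c` is obtained from
the restriction of `Z` to `X × Spec O_{T,t}` by intersecting with the divisors `f₁ = 0`, ...,
`f_d = 0` one after the other. The cycle `c` may depend on the choice of the parameters, its class
in the Chow group of `X` does not: it is the image of the class of `Z` under the Gysin homomorphism
of the regular embedding of `X` in `X × T` given by `t` (Fulton, Intersection Theory, 2.3, 2.4, 6.4,
6.5). -/
def IsFibre (X : Sch k) {T : Sch k} (t : RatPt T) (Z : Cycles (prod X T))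
    (c : Cycles (tot X)) : Prop :=
  ∃ (d : ℕ) (f : Fin d → locAt t) (C : ℕ → Cycles (prodLoc X t)),
    Ideal.span (Set.range f) = maxId (tot T) (imPt t) ∧
    ringKrullDim (locAt t) = d ∧
    (∀ w, C 0 w = Z (locTo X t w)) ∧
    (∀ (i : Fin d) w, C (i + 1) w = cap (funOf X t (f i)) (C i) w) ∧
    ∀ x, c x = C d (toLoc X t x)

/-- `T` is a smooth connected variety over `k`. -/
structure IsSmoothVar (T : Sch k) : Prop where
  smooth : Smooth T.hom
  separated : IsSeparated T.hom
  quasiCompact : QuasiCompact T.hom
  connected : ConnectedSpace T.left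

/-- The classes `Z_{t₁} - Z_{t₀}` in `CHᵖ(X)`, for a smooth connected variety `T` over `k`, two
rational points `t₀`, `t₁` of `T` and a cycle `Z` of codimension `p` on `X × T`. All the choices of
the parameters at `t₀` and `t₁` are allowed. -/
def IsDifference (X : Sch k) (p : ℕ) (z : CH (tot X) p) : Prop :=
  ∃ (T : Sch k) (t₀ t₁ : RatPt T) (Z : Cycles (prod X T)) (c₀ c₁ : Cyc (tot X) p),
    IsSmoothVar T ∧ Z ∈ Cyc (prod X T) p ∧ IsFibre X t₀ Z c₀ ∧ IsFibre X t₁ Z c₁ ∧
    z = CH.mk c₁ - CH.mk c₀

/-- The subgroup of `CHᵖ(X)` of the classes algebraically equivalent to zero over `k`. -/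
noncomputable def AlgEquivZero (X : Sch k) (p : ℕ) : AddSubgroup (CH (tot X) p) :=
  AddSubgroup.closure {z | IsDifference X p z}

/-! ### Extension of the ground field -/

/-- The base change `X ×ₖ K` to an extension field `K` of `k`, as a scheme over `K`. -/
noncomputable def baseChange (K : Type) [Field K] [Algebra k K] (X : Sch k) : Sch K :=
  (Over.pullback (Spec.map (CommRingCat.ofHom (algebraMap k K)))).obj X

/-- The projection `X ×ₖ K → X`. -/
noncomputable def baseProj (K : Type) [Field K] [Algebra k K] (X : Sch k) :
    tot (baseChange K X) ⟶ tot X :=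
  pullback.fst X.hom (Spec.map (CommRingCat.ofHom (algebraMap k K)))

/-- The length of `O_{Y,y} / m_{X,f(y)} O_{Y,y}`, for a morphism `f : Y → X`. -/
noncomputable def ramification {Y X : Scheme.{0}} (f : Y ⟶ X) (y : Pts Y) : ℤ :=
  (Module.length (Stk Y y) (Stk Y y ⧸ (maxId X (mapPt f y)).map (stkMap f y))).toNat

/-- The cycle `c'` is the flat pullback `f^* c` of the cycle `c` of codimension `p`, for the
projection `f` from `X ×ₖ K` with `K` algebraic over `k`: the coefficient at a point `y` of
codimension `p` is `length (O_y / m_{f(y)} O_y) * c (f y)`. -/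
def IsFlatPullback {Y X : Scheme.{0}} (f : Y ⟶ X) (p : ℕ) (c : Cycles X) (c' : Cycles Y) :
    Prop :=
  ∀ y : Pts Y, Order.coheight y = p → c' y = ramification f y * c (mapPt f y)

/-- The classes in `CHᵖ(X)` of the cycles `c` on `X` whose image in `CHᵖ(X ×ₖ k̄)` is algebraically
equivalent to zero over the algebraic closure `k̄` of `k`. -/
def GeomAlgEquivZero (X : Sch k) (p : ℕ) : Set (CH (tot X) p) :=
  {z | ∃ (c : Cyc (tot X) p) (c' : Cyc (tot (baseChange (AlgebraicClosure k) X)) p),
    z = CH.mk c ∧ IsFlatPullback (baseProj (AlgebraicClosure k) X) p c c' ∧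
    CH.mk c' ∈ AlgEquivZero (baseChange (AlgebraicClosure k) X) p}

/-! ### Smooth projective varieties -/

/-- The homogeneous polynomials of degree `i` in `n + 1` variables over `k`. -/
def homPoly (k : Type) [Field k] (n i : ℕ) : Submodule k (MvPolynomial (Fin (n + 1)) k) :=
  MvPolynomial.homogeneousSubmodule (Fin (n + 1)) k i

/-- The grading of the polynomial ring. -/
noncomputable instance homPoly.graded (k : Type) [Field k] (n : ℕ) :
    GradedAlgebra (homPoly k n) :=
  MvPolynomial.gradedAlgebra

/-- The scheme `Proj k[x₀, ..., xₙ]`. -/
noncomputable def projScheme (k : Type) [Field k] (n : ℕ) : Scheme.{0} := Proj (homPoly k n)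

/-- The ring structure on the homogeneous polynomials of degree zero. -/
noncomputable instance homPoly.zeroCommRing (k : Type) [Field k] (n : ℕ) :
    CommRing (homPoly k n 0) := inferInstance

/-- The homogeneous polynomials of degree zero form an algebra over `k`. -/
noncomputable instance homPoly.zeroAlgebra (k : Type) [Field k] (n : ℕ) :
    Algebra k (homPoly k n 0) := inferInstance

/-- Projective space of dimension `n` over `k`. -/
noncomputable def projSpace (k : Type) [Field k] (n : ℕ) : Sch k :=
  Over.mk (show projScheme k n ⟶ Spec (CommRingCat.of k) from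
    Proj.toSpecZero (homPoly k n) ≫
      Spec.map (CommRingCat.ofHom (algebraMap k (homPoly k n 0))))

/-- `X` is a smooth projective geometrically connected variety over `k`. -/
structure IsNice (X : Sch k) : Prop where
  smooth : Smooth X.hom
  projective : ∃ (n : ℕ) (i : X ⟶ projSpace k n), IsClosedImmersion i.left
  connected : GeometricallyConnected X.hom

end Field

/-- The question: there is a finite field `F`, a smooth projective geometrically connected variety
`X` over `F` and a class in `CH²(X)` which is algebraically equivalent to zero over the algebraic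
closure of `F` but not over `F`. -/
def Answer : Prop :=
  ∃ (F : Type) (_ : Field F) (_ : Finite F) (X : Sch F), IsNice X ∧
    ∃ z ∈ GeomAlgEquivZero X 2, z ∉ AlgEquivZero X 2

end Pool.Agent.SSF
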