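import Pool.Agent.SSF.G1

/-! # SSF, contraction of points along a base change `B → B'` -/

set_option autoImplicit false
open scoped TensorProduct

namespace Pool.Agent.SSF
namespace Cox

section Contr

variable {k : Type} [CommRing k] (D : Cox k) {B B' : Type} [CommRing B] [Algebra k B]
  [CommRing B'] [Algebra k B'] (f : B →ₐ[k] B')

theorem mapR_tmul (b : B) (x : D.R) : D.mapR f (b ⊗ₜ[k] x) = f b ⊗ₜ[k] x := rfl

theorem mapA_tmul (b : B) (x : D.A) : D.mapA f (b ⊗ₜ[k] x) = f b ⊗ₜ[k] x := rfl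

theorem mapR_smul (b : B) (x : (D.bc B).R) : D.mapR f (b • x) = f b • D.mapR f x := by
  induction x using TensorProduct.induction_on with
  | zero => simp
  | tmul c y => rw [TensorProduct.smul_tmul', mapR_tmul, mapR_tmul, TensorProduct.smul_tmul',
      smul_eq_mul, smul_eq_mul, map_mul]
  | add x y hx hy => rw [smul_add, map_add, map_add, smul_add, hx, hy]

theorem mapA_smul (b : B) (x : (D.bc B).A) : D.mapA f (b • x) = f b • D.mapA f x := by
  induction x using TensorProduct.induction_on with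
  | zero => simp
  | tmul c y => rw [TensorProduct.smul_tmul', mapA_tmul, mapA_tmul, TensorProduct.smul_tmul',
      smul_eq_mul, smul_eq_mul, map_mul]
  | add x y hx hy => rw [smul_add, map_add, map_add, smul_add, hx, hy]

theorem mapR_φ (a : (D.bc B).A) : D.mapR f ((D.bc B).φ a) = (D.bc B').φ (D.mapA f a) := by
  induction a using TensorProduct.induction_on with
  | zero => simp
  | tmul c y => rfl
  | add x y hx hy => rw [map_add, map_add, map_add, map_add, hx, hy]

theorem mapR_mem {γ : D.Γ} {x : (D.bc B).R} (hx : x ∈ (D.bc B).gR γ) :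
    D.mapR f x ∈ (D.bc B').gR γ := by
  change x ∈ (D.gR γ).baseChange B at hx
  change D.mapR f x ∈ (D.gR γ).baseChange B'
  rw [Submodule.baseChange_eq_span] at hx
  induction hx using Submodule.span_induction with
  | mem x hx =>
    obtain ⟨y, hy, rfl⟩ := hx
    exact Submodule.tmul_mem_baseChange_of_mem _ hy
  | zero => rw [map_zero]; exact Submodule.zero_mem _
  | add x y _ _ hx hy => rw [map_add]; exact Submodule.add_mem _ hx hy
  | smul b x _ hx => rw [mapR_smul]; exact Submodule.smul_mem _ _ hx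

theorem mapA_mem {n : ℕ} {x : (D.bc B).A} (hx : x ∈ (D.bc B).gA n) :
    D.mapA f x ∈ (D.bc B').gA n := by
  change x ∈ (D.gA n).baseChange B at hx
  change D.mapA f x ∈ (D.gA n).baseChange B'
  rw [Submodule.baseChange_eq_span] at hx
  induction hx using Submodule.span_induction with
  | mem x hx =>
    obtain ⟨y, hy, rfl⟩ := hx
    exact Submodule.tmul_mem_baseChange_of_mem _ hy
  | zero => rw [map_zero]; exact Submodule.zero_mem _
  | add x y _ _ hx hy => rw [map_add]; exact Submodule.add_mem _ hx hy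
  | smul b x _ hx => rw [mapA_smul]; exact Submodule.smul_mem _ _ hx

/-- `mapA` as a graded ring homomorphism. -/
noncomputable def gmapA : GradedRingHom (D.bc B).gA (D.bc B').gA where
  toRingHom := D.mapA f
  map_mem := D.mapA_mem f

/-- `mapR` as a graded ring homomorphism. -/
noncomputable def gmapR : GradedRingHom (D.bc B).gR (D.bc B').gR where
  toRingHom := D.mapR f
  map_mem := D.mapR_mem f

/-- The homogeneous pieces over `B'` are spanned by the images of the pieces over `B`. -/
theorem mapR_span {γ : D.Γ} {y : (D.bc B').R} (hy : y ∈ (D.bc B').gR γ) :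
    y ∈ Submodule.span B' (D.mapR f '' ((D.bc B).gR γ : Set (D.bc B).R)) := by
  change y ∈ (D.gR γ).baseChange B' at hy
  rw [Submodule.baseChange_eq_span] at hy
  refine Submodule.span_mono ?_ hy
  rintro _ ⟨x, hx, rfl⟩
  exact ⟨(1 : B) ⊗ₜ[k] x, Submodule.tmul_mem_baseChange_of_mem _ hx, by
    rw [mapR_tmul, map_one]; rfl⟩

theorem mapA_span {n : ℕ} {y : (D.bc B').A} (hy : y ∈ (D.bc B').gA n) :
    y ∈ Submodule.span B' (D.mapA f '' ((D.bc B).gA n : Set (D.bc B).A)) := by
  change y ∈ (D.gA n).baseChange B' at hy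
  rw [Submodule.baseChange_eq_span] at hy
  refine Submodule.span_mono ?_ hy
  rintro _ ⟨x, hx, rfl⟩
  exact ⟨(1 : B) ⊗ₜ[k] x, Submodule.tmul_mem_baseChange_of_mem _ hx, by
    rw [mapA_tmul, map_one]; rfl⟩

/-- Contraction of a point. -/
noncomputable def contr (P : (D.bc B').Pt) : (D.bc B).Pt where
  asHomogeneousIdeal := P.asHomogeneousIdeal.comap (D.gmapA f)
  isPrime := Ideal.comap_isPrime (D.mapA f) P.asHomogeneousIdeal.toIdeal
  not_irrelevant_le := by
    intro h
    apply P.not_irrelevant_le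
    change (HomogeneousIdeal.irrelevant (D.bc B').gA).toIdeal ≤ P.asHomogeneousIdeal.toIdeal
    rw [HomogeneousIdeal.toIdeal_irrelevant_le]
    intro n hn y hy
    have h1 := D.mapA_span f hy
    change y ∈ P.asHomogeneousIdeal.toIdeal
    refine Submodule.span_induction (p := fun y _ => y ∈ P.asHomogeneousIdeal.toIdeal)
      ?_ ?_ ?_ ?_ h1
    · rintro _ ⟨z, hz, rfl⟩
      have h2 : z ∈ HomogeneousIdeal.irrelevant (D.bc B).gA :=
        HomogeneousIdeal.mem_irrelevant_of_mem _ hn hz
      exact h h2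
    · exact Ideal.zero_mem _
    · exact fun x y _ _ hx hy => Ideal.add_mem _ hx hy
    · intro b x _ hx
      rw [Algebra.smul_def]
      exact Ideal.mul_mem_left _ _ hx

theorem mem_contr (P : (D.bc B').Pt) (a : (D.bc B).A) :
    a ∈ (D.contr f P).asHomogeneousIdeal.toIdeal ↔
      D.mapA f a ∈ P.asHomogeneousIdeal.toIdeal := Iff.rfl

theorem contr_mono {P Q : (D.bc B').Pt} (h : P ≤ Q) : D.contr f P ≤ D.contr f Q :=
  fun _ ha => h ha

/-- Homogeneous elements in the ideal of a contracted point. -/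
theorem mem_pt_contr (P : (D.bc B').Pt) {γ : D.Γ} {x : (D.bc B).R} (hx : x ∈ (D.bc B).gR γ) :
    x ∈ (D.bc B).pt (D.contr f P) ↔ D.mapR f x ∈ (D.bc B').pt P := by
  rw [pt, pt, (D.bc B).mem_ext_iff' hx, (D.bc B').mem_ext_iff' (D.mapR_mem f hx)]
  constructor
  · intro h n y hy
    have h1 := D.mapR_span f hy
    refine Submodule.span_induction (p := fun y _ => ∃ a ∈ P.asHomogeneousIdeal.toIdeal,
      (D.bc B').φ a = D.mapR f x * y) ?_ ?_ ?_ ?_ h1
    · rintro _ ⟨z, hz, rfl⟩
      obtain ⟨a, ha, e⟩ := h n z hz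
      exact ⟨D.mapA f a, ha, by rw [← mapR_φ, e, map_mul]⟩
    · exact ⟨0, Ideal.zero_mem _, by rw [map_zero, mul_zero]⟩
    · rintro y y' _ _ ⟨a, ha, e⟩ ⟨a', ha', e'⟩
      exact ⟨a + a', Ideal.add_mem _ ha ha', by rw [map_add, e, e', mul_add]⟩
    · rintro b y _ ⟨a, ha, e⟩
      refine ⟨b • a, ?_, ?_⟩
      · rw [Algebra.smul_def]
        exact Ideal.mul_mem_left _ _ ha
      · rw [map_smul, e, mul_smul_comm]
  · intro h n y hy
    obtain ⟨a, ha, e⟩ := h n (D.mapR f y) (D.mapR_mem f hy)
    obtain ⟨c, hc, e'⟩ := (D.bc B).φ_surj n (x * y) (by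
      have := SetLike.mul_mem_graded hx hy
      rwa [add_sub_cancel] at this)
    refine ⟨c, ?_, e'⟩
    rw [mem_contr]
    have h2 : D.mapA f c = a := by
      apply (D.bc B').φ_inj
      rw [← mapR_φ, e', e, map_mul]
    rw [h2]
    exact ha

theorem contr_on (P : (D.bc B').Pt) {J : Ideal (D.bc B).R} (hJ : J.IsHomogeneous (D.bc B).gR) :
    (D.bc B).On J (D.contr f P) ↔ (D.bc B').On (J.map (D.mapR f)) P := by
  unfold On
  rw [Ideal.map_le_iff_le_comap]
  constructor
  · intro h x hx
    rw [Ideal.mem_comap]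
    classical
    rw [← DirectSum.sum_support_decompose (D.bc B).gR x, map_sum]
    exact Ideal.sum_mem _ fun γ _ => (D.mem_pt_contr f P (SetLike.coe_mem _)).1 (h (hJ γ hx))
  · intro h x hx
    classical
    rw [← DirectSum.sum_support_decompose (D.bc B).gR x]
    exact Ideal.sum_mem _ fun γ _ => (D.mem_pt_contr f P (SetLike.coe_mem _)).2 (h (hJ γ hx))

end Contr

end Cox
end Pool.Agent.SSF
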