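import Pool.Agent.SSF.Contr

/-! # SSF, contraction of points along maps of Cox data -/

set_option autoImplicit false
open scoped TensorProduct

namespace Pool.Agent.SSF
namespace Cox

/-- A map of Cox data whose pieces are spanned by images (base change, change of degrees). -/
structure Mp {k k' : Type} [CommRing k] [CommRing k'] (D : Cox k) (D' : Cox k') where
  g : D.Γ →+ D'.Γ
  g_h : g D.h = D'.h
  fA : D.A →+* D'.A
  fR : D.R →+* D'.R
  fA_mem : ∀ (n : ℕ) (a : D.A), a ∈ D.gA n → fA a ∈ D'.gA n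
  fR_mem : ∀ (γ : D.Γ) (x : D.R), x ∈ D.gR γ → fR x ∈ D'.gR (g γ)
  comm : ∀ a : D.A, fR (D.φ a) = D'.φ (fA a)
  spanA : ∀ (n : ℕ) (y : D'.A), y ∈ D'.gA n →
    y ∈ Submodule.span k' (fA '' (D.gA n : Set D.A))
  spanR : ∀ (γ : D.Γ) (y : D'.R), y ∈ D'.gR (g γ) →
    y ∈ Submodule.span k' (fR '' (D.gR γ : Set D.R))

namespace Mp

section

variable {k k' : Type} [CommRing k] [CommRing k'] {D : Cox k} {D' : Cox k'} (F : Mp D D')

/-- The map of `A` as a graded ring homomorphism. -/
def gA : GradedRingHom D.gA D'.gA where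
  toRingHom := F.fA
  map_mem {n a} h := F.fA_mem n a h

/-- Contraction of a point. -/
noncomputable def contr (P : D'.Pt) : D.Pt where
  asHomogeneousIdeal := P.asHomogeneousIdeal.comap F.gA
  isPrime := Ideal.comap_isPrime F.fA P.asHomogeneousIdeal.toIdeal
  not_irrelevant_le := by
    intro h
    apply P.not_irrelevant_le
    change (HomogeneousIdeal.irrelevant D'.gA).toIdeal ≤ P.asHomogeneousIdeal.toIdeal
    rw [HomogeneousIdeal.toIdeal_irrelevant_le]
    intro n hn y hy
    have h1 := F.spanA n y hy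
    change y ∈ P.asHomogeneousIdeal.toIdeal
    refine Submodule.span_induction (p := fun y _ => y ∈ P.asHomogeneousIdeal.toIdeal)
      ?_ ?_ ?_ ?_ h1
    · rintro _ ⟨z, hz, rfl⟩
      have h2 : z ∈ HomogeneousIdeal.irrelevant D.gA :=
        HomogeneousIdeal.mem_irrelevant_of_mem _ hn hz
      exact h h2
    · exact Ideal.zero_mem _
    · exact fun x y _ _ hx hy => Ideal.add_mem _ hx hy
    · intro b x _ hx
      rw [Algebra.smul_def]
      exact Ideal.mul_mem_left _ _ hx

theorem mem_contr (P : D'.Pt) (a : D.A) :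
    a ∈ (F.contr P).asHomogeneousIdeal.toIdeal ↔ F.fA a ∈ P.asHomogeneousIdeal.toIdeal :=
  Iff.rfl

theorem contr_mono {P Q : D'.Pt} (h : P ≤ Q) : F.contr P ≤ F.contr Q := fun _ ha => h ha

/-- Homogeneous elements in the ideal of a contracted point. -/
theorem mem_pt_contr (P : D'.Pt) {γ : D.Γ} {x : D.R} (hx : x ∈ D.gR γ) :
    x ∈ D.pt (F.contr P) ↔ F.fR x ∈ D'.pt P := by
  have hd : ∀ n : ℕ, F.g (n • D.h - γ) = n • D'.h - F.g γ := by
    intro n
    rw [map_sub, map_nsmul, F.g_h]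
  rw [pt, pt, D.mem_ext_iff' hx, D'.mem_ext_iff' (F.fR_mem γ x hx)]
  constructor
  · intro h n y hy
    rw [← hd n] at hy
    have h1 := F.spanR _ y hy
    refine Submodule.span_induction (p := fun y _ => ∃ a ∈ P.asHomogeneousIdeal.toIdeal,
      D'.φ a = F.fR x * y) ?_ ?_ ?_ ?_ h1
    · rintro _ ⟨z, hz, rfl⟩
      obtain ⟨a, ha, e⟩ := h n z hz
      exact ⟨F.fA a, ha, by rw [← F.comm, e, map_mul]⟩
    · exact ⟨0, Ideal.zero_mem _, by rw [map_zero, mul_zero]⟩
    · rintro y y' _ _ ⟨a, ha, e⟩ ⟨a', ha', e'⟩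
      exact ⟨a + a', Ideal.add_mem _ ha ha', by rw [map_add, e, e', mul_add]⟩
    · rintro b y _ ⟨a, ha, e⟩
      refine ⟨b • a, ?_, ?_⟩
      · rw [Algebra.smul_def]
        exact Ideal.mul_mem_left _ _ ha
      · rw [map_smul, e, mul_smul_comm]
  · intro h n y hy
    have hy' := F.fR_mem _ y hy
    rw [hd n] at hy'
    obtain ⟨a, ha, e⟩ := h n (F.fR y) hy'
    obtain ⟨c, hc, e'⟩ := D.φ_surj n (x * y) (by
      have := SetLike.mul_mem_graded hx hy
      rwa [add_sub_cancel] at this)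
    refine ⟨c, ?_, e'⟩
    rw [mem_contr]
    have h2 : F.fA c = a := by
      apply D'.φ_inj
      rw [← F.comm, e', e, map_mul]
    rw [h2]
    exact ha

theorem contr_on (P : D'.Pt) {J : Ideal D.R} (hJ : J.IsHomogeneous D.gR) :
    D.On J (F.contr P) ↔ D'.On (J.map F.fR) P := by
  unfold On
  rw [Ideal.map_le_iff_le_comap]
  constructor
  · intro h x hx
    rw [Ideal.mem_comap]
    classical
    rw [← DirectSum.sum_support_decompose D.gR x, map_sum]
    exact Ideal.sum_mem _ fun γ _ => (F.mem_pt_contr P (SetLike.coe_mem _)).1 (h (hJ γ hx))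
  · intro h x hx
    classical
    rw [← DirectSum.sum_support_decompose D.gR x]
    exact Ideal.sum_mem _ fun γ _ => (F.mem_pt_contr P (SetLike.coe_mem _)).2 (h (hJ γ hx))

end

end Mp

section

variable {k : Type} [CommRing k] (D : Cox k)

/-- Base change along `B → B'`. -/
noncomputable def mpBc {B B' : Type} [CommRing B] [Algebra k B] [CommRing B'] [Algebra k B']
    (f : B →ₐ[k] B') : Mp (D.bc B) (D.bc B') where
  g := AddMonoidHom.id D.Γ
  g_h := rfl
  fA := D.mapA f
  fR := D.mapR f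
  fA_mem _ _ h := D.mapA_mem f h
  fR_mem _ _ h := D.mapR_mem f h
  comm a := D.mapR_φ f a
  spanA _ _ h := D.mapA_span f h
  spanR _ _ h := D.mapR_span f h

/-- The map from a Cox datum to its base change. -/
noncomputable def mpIncl (B : Type) [CommRing B] [Algebra k B] : Mp D (D.bc B) where
  g := AddMonoidHom.id D.Γ
  g_h := rfl
  fA := (Algebra.TensorProduct.includeRight : D.A →ₐ[k] B ⊗[k] D.A).toRingHom
  fR := (Algebra.TensorProduct.includeRight : D.R →ₐ[k] B ⊗[k] D.R).toRingHom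
  fA_mem _ _ h := Submodule.tmul_mem_baseChange_of_mem _ h
  fR_mem _ _ h := Submodule.tmul_mem_baseChange_of_mem _ h
  comm _ := rfl
  spanA n y hy := by
    change y ∈ (D.gA n).baseChange B at hy
    rw [Submodule.baseChange_eq_span] at hy
    refine Submodule.span_mono ?_ hy
    rintro _ ⟨x, hx, rfl⟩
    exact ⟨x, hx, rfl⟩
  spanR γ y hy := by
    change y ∈ (D.gR γ).baseChange B at hy
    rw [Submodule.baseChange_eq_span] at hy
    refine Submodule.span_mono ?_ hy
    rintro _ ⟨x, hx, rfl⟩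
    exact ⟨x, hx, rfl⟩

end

end Cox
end Pool.Agent.SSF
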