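import Mathlib

/-!
Project SSF (MP_5928ba): gradings induced on subalgebras which are stable under taking
homogeneous components, indexed along an injective map of grading monoids.
-/

namespace Pool.Agent.SSF

open DirectSum

set_option linter.unusedSectionVars false

variable {ι κ k₀ k A : Type*} [DecidableEq ι] [AddMonoid ι] [DecidableEq κ] [AddMonoid κ]
  [CommRing k₀] [CommRing k] [CommRing A] [Algebra k₀ k] [Algebra k₀ A] [Algebra k A]
  [IsScalarTower k₀ k A]
  (𝒜 : ι → Submodule k A) [GradedAlgebra 𝒜] (B : Subalgebra k₀ A) (φ : κ →+ ι)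

/-- The grading of a subalgebra `B`, indexed along `φ : κ → ι`. -/
def subGr (j : κ) : Submodule k₀ B where
  carrier := {x | (x : A) ∈ 𝒜 (φ j)}
  zero_mem' := (𝒜 (φ j)).zero_mem
  add_mem' := fun ha hb => (𝒜 (φ j)).add_mem ha hb
  smul_mem' := by
    intro c x hx
    change ((c • x : B) : A) ∈ 𝒜 (φ j)
    have : ((c • x : B) : A) = (algebraMap k₀ k c) • (x : A) := by
      rw [algebraMap_smul]; rfl
    rw [this]
    exact (𝒜 (φ j)).smul_mem _ hx

theorem mem_subGr {j : κ} {x : B} : x ∈ subGr 𝒜 B φ j ↔ (x : A) ∈ 𝒜 (φ j) := Iff.rfl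

instance subGr_graded : SetLike.GradedMonoid (subGr 𝒜 B φ) where
  one_mem := by
    change ((1 : B) : A) ∈ 𝒜 (φ 0)
    rw [map_zero]
    exact SetLike.one_mem_graded 𝒜
  mul_mem := by
    intro i j x y hx hy
    change ((x * y : B) : A) ∈ 𝒜 (φ (i + j))
    rw [map_add]
    exact SetLike.mul_mem_graded hx hy

theorem subGr_decompose_coe (hφ : Function.Injective φ) (f : ⨁ j, subGr 𝒜 B φ j) (j : κ) :
    (DirectSum.decompose 𝒜 ((DirectSum.coeAddMonoidHom (subGr 𝒜 B φ) f : B) : A) (φ j) : A) =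
      ((f j : B) : A) := by
  classical
  induction f using DirectSum.induction_on with
  | zero => simp
  | of i x =>
    rw [DirectSum.coeAddMonoidHom_of]
    have hx : ((x : B) : A) ∈ 𝒜 (φ i) := x.2
    rw [DirectSum.decompose_of_mem 𝒜 hx]
    by_cases hij : i = j
    · subst hij
      rw [DirectSum.of_eq_same, DirectSum.of_eq_same]
    · rw [DirectSum.of_eq_of_ne _ _ _ (Ne.symm hij),
        DirectSum.of_eq_of_ne _ _ _ (fun h => hij (hφ h).symm)]
      simp
  | add x y hx hy =>
    rw [map_add, Subalgebra.coe_add, DirectSum.decompose_add, DirectSum.add_apply,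
      Submodule.coe_add, hx, hy, DirectSum.add_apply, Submodule.coe_add, Subalgebra.coe_add]

/-- A subalgebra stable under homogeneous components, with degrees in the image of `φ`, is graded
along `φ`. -/
theorem subGr_internal (hφ : Function.Injective φ)
    (hB : ∀ x ∈ B, ∀ i, (DirectSum.decompose 𝒜 x i : A) ∈ B)
    (hr : ∀ x ∈ B, ∀ i, i ∉ Set.range φ → (DirectSum.decompose 𝒜 x i : A) = 0) :
    DirectSum.IsInternal (subGr 𝒜 B φ) := by
  classical
  constructor
  · intro f g hfg
    refine DFunLike.ext _ _ fun j => ?_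
    apply Subtype.ext
    apply Subtype.ext
    rw [← subGr_decompose_coe 𝒜 B φ hφ f j, ← subGr_decompose_coe 𝒜 B φ hφ g j]
    change (DirectSum.coeAddMonoidHom (subGr 𝒜 B φ)) f =
      (DirectSum.coeAddMonoidHom (subGr 𝒜 B φ)) g at hfg
    rw [hfg]
  · intro x
    have key : ∀ i, (⟨(DirectSum.decompose 𝒜 (x : A) i : A), hB x x.2 i⟩ : B) ∈
        AddMonoidHom.mrange (DirectSum.coeAddMonoidHom (subGr 𝒜 B φ)) := by
      intro i
      by_cases hi : i ∈ Set.range φ
      · obtain ⟨j, rfl⟩ := hi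
        refine ⟨DirectSum.of (fun j => subGr 𝒜 B φ j) j
          ⟨⟨(DirectSum.decompose 𝒜 (x : A) (φ j) : A), hB x x.2 _⟩, ?_⟩, ?_⟩
        · exact (DirectSum.decompose 𝒜 (x : A) (φ j)).2
        · rw [DirectSum.coeAddMonoidHom_of]
      · have h0 : (⟨(DirectSum.decompose 𝒜 (x : A) i : A), hB x x.2 i⟩ : B) = 0 :=
          Subtype.ext (hr x x.2 i hi)
        rw [h0]
        exact zero_mem _
    have hsum : x = ∑ i ∈ (DirectSum.decompose 𝒜 (x : A)).support,
        (⟨(DirectSum.decompose 𝒜 (x : A) i : A), hB x x.2 i⟩ : B) := by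
      apply Subtype.ext
      rw [AddSubmonoidClass.coe_finsetSum]
      exact (DirectSum.sum_support_decompose 𝒜 (x : A)).symm
    have : x ∈ AddMonoidHom.mrange (DirectSum.coeAddMonoidHom (subGr 𝒜 B φ)) := by
      rw [hsum]
      exact sum_mem fun i _ => key i
    exact this

/-- The graded algebra structure of `subGr_internal`. -/
@[reducible] noncomputable def subGradedAlgebra (hφ : Function.Injective φ)
    (hB : ∀ x ∈ B, ∀ i, (DirectSum.decompose 𝒜 x i : A) ∈ B)
    (hr : ∀ x ∈ B, ∀ i, i ∉ Set.range φ → (DirectSum.decompose 𝒜 x i : A) = 0) :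
    GradedAlgebra (subGr 𝒜 B φ) where
  toGradedMonoid := subGr_graded 𝒜 B φ
  toDecomposition := (subGr_internal 𝒜 B φ hφ hB hr).chooseDecomposition

theorem subGr_decompose [GradedAlgebra (subGr 𝒜 B φ)] (hφ : Function.Injective φ) (x : B) (j : κ) :
    (((DirectSum.decompose (subGr 𝒜 B φ) x j : B)) : A) =
      (DirectSum.decompose 𝒜 (x : A) (φ j) : A) := by
  classical
  have h := subGr_decompose_coe 𝒜 B φ hφ (DirectSum.decompose (subGr 𝒜 B φ) x) j
  rw [← h]
  congr 3
  exact congrArg _ ((DirectSum.decompose (subGr 𝒜 B φ)).symm_apply_apply x)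

end Pool.Agent.SSF
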