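import Pool.Agent.SSF.Defs
import Pool.Agent.SSF.SubGr

/-!
Project SSF (MP_5928ba): the Cox datum attached to a graded algebra `R` and a degree `h`.
-/

set_option autoImplicit false

namespace Pool.Agent.SSF

open DirectSum

set_option linter.unusedSectionVars false

section veronese

variable {k R Γ : Type} [CommRing k] [CommRing R] [Algebra k R] [AddCommGroup Γ] [DecidableEq Γ]
  (gR : Γ → Submodule k R) [GradedAlgebra gR] (h : Γ)

/-- Multiples of `h`. -/
def mulH : ℕ →+ Γ := multiplesHom Γ h

theorem mulH_apply (n : ℕ) : mulH h n = n • h := rfl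

/-- The Veronese subalgebra of `R` in the direction `h`. -/
def ver : Subalgebra k R where
  carrier := {x | ∀ γ, γ ∉ Set.range (mulH h) → (DirectSum.decompose gR x γ : R) = 0}
  mul_mem' := by
    intro x y hx hy γ hγ
    classical
    rw [DirectSum.decompose_mul, DirectSum.mul_eq_dfinsuppSum, DFinsupp.sum, DFinsupp.finsetSum_apply]
    rw [AddSubmonoidClass.coe_finsetSum]
    refine Finset.sum_eq_zero fun i _ => ?_
    rw [DFinsupp.sum, DFinsupp.finsetSum_apply, AddSubmonoidClass.coe_finsetSum]
    refine Finset.sum_eq_zero fun j _ => ?_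
    by_cases hij : i + j = γ
    · have : i ∉ Set.range (mulH h) ∨ j ∉ Set.range (mulH h) := by
        by_contra hc
        push Not at hc
        obtain ⟨⟨a, rfl⟩, ⟨b, rfl⟩⟩ := hc
        exact hγ ⟨a + b, by rw [map_add, hij]⟩
      subst hij
      rw [DirectSum.of_eq_same]
      change (DirectSum.decompose gR x i : R) * (DirectSum.decompose gR y j : R) = 0
      rcases this with h1 | h1
      · rw [hx i h1, zero_mul]
      · rw [hy j h1, mul_zero]
    · rw [DirectSum.of_eq_of_ne _ _ _ (Ne.symm hij)]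
      rfl
  add_mem' := by
    intro x y hx hy γ hγ
    rw [DirectSum.decompose_add, DirectSum.add_apply, Submodule.coe_add, hx γ hγ, hy γ hγ, add_zero]
  algebraMap_mem' := by
    intro c γ hγ
    have h1 : algebraMap k R c ∈ gR 0 := SetLike.algebraMap_mem_graded gR c
    rw [DirectSum.decompose_of_mem gR h1, DirectSum.of_eq_of_ne]
    · rfl
    · rintro rfl
      exact hγ ⟨0, map_zero _⟩

theorem mem_ver {x : R} : x ∈ ver gR h ↔
    ∀ γ, γ ∉ Set.range (mulH h) → (DirectSum.decompose gR x γ : R) = 0 := Iff.rfl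

theorem mem_ver_of_mem {n : ℕ} {x : R} (hx : x ∈ gR (n • h)) : x ∈ ver gR h := by
  intro γ hγ
  rw [DirectSum.decompose_of_mem gR hx, DirectSum.of_eq_of_ne]
  · rfl
  · rintro rfl
    exact hγ ⟨n, rfl⟩

theorem mem_ver_of_mem' {γ : Γ} (hγ : γ ∈ Set.range (mulH h)) {x : R} (hx : x ∈ gR γ) :
    x ∈ ver gR h := by
  obtain ⟨n, rfl⟩ := hγ
  exact mem_ver_of_mem gR h hx

theorem ver_comp {x : R} (hx : x ∈ ver gR h) (γ : Γ) :
    (DirectSum.decompose gR x γ : R) ∈ ver gR h := by
  by_cases hγ : γ ∈ Set.range (mulH h)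
  · obtain ⟨n, rfl⟩ := hγ
    exact mem_ver_of_mem gR h (DirectSum.decompose gR x _).2
  · rw [hx γ hγ]
    exact zero_mem _

/-- The grading of the Veronese subalgebra. -/
def verGr : ℕ → Submodule k (ver gR h) := subGr gR (ver gR h) (mulH h)

theorem mem_verGr {n : ℕ} {x : ver gR h} : x ∈ verGr gR h n ↔ (x : R) ∈ gR (n • h) := Iff.rfl

variable {h} in
theorem mulH_inj (hinj : ∀ n m : ℤ, n • h = m • h → n = m) : Function.Injective (mulH h) := by
  intro a b hab
  have h1 : ((a : ℤ)) • h = ((b : ℤ)) • h := by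
    rw [natCast_zsmul, natCast_zsmul]
    exact hab
  exact_mod_cast hinj _ _ h1

variable {h} in
@[reducible] noncomputable def verGraded (hinj : ∀ n m : ℤ, n • h = m • h → n = m) :
    GradedAlgebra (verGr gR h) :=
  subGradedAlgebra gR (ver gR h) (mulH h) (mulH_inj hinj)
    (fun x hx i => ver_comp gR h hx i) (fun _ hx i hi => hx i hi)

open Classical in
/-- The projection of `R` onto the Veronese subalgebra. -/
noncomputable def verProj : R →ₗ[k] ver gR h :=
  (DirectSum.toModule k Γ (ver gR h) fun γ =>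
    if hγ : γ ∈ Set.range (mulH h) then
      ({ toFun := fun x : gR γ => (⟨(x : R), mem_ver_of_mem' gR h hγ x.2⟩ : ver gR h)
         map_add' := fun _ _ => rfl
         map_smul' := fun _ _ => rfl } : gR γ →ₗ[k] ver gR h)
    else 0).comp (DirectSum.decomposeLinearEquiv gR).toLinearMap

theorem verProj_of_mem {γ : Γ} {x : R} (hx : x ∈ gR γ) (hγ : γ ∈ Set.range (mulH h)) :
    (verProj gR h x : R) = x := by
  unfold verProj
  simp only [LinearMap.comp_apply, LinearEquiv.coe_coe, DirectSum.decomposeLinearEquiv_apply]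
  rw [DirectSum.decompose_of_mem gR hx]
  erw [DirectSum.toModule_lof]
  rw [dif_pos hγ]
  rfl

theorem verProj_of_not_mem {γ : Γ} {x : R} (hx : x ∈ gR γ) (hγ : γ ∉ Set.range (mulH h)) :
    verProj gR h x = 0 := by
  unfold verProj
  simp only [LinearMap.comp_apply, LinearEquiv.coe_coe, DirectSum.decomposeLinearEquiv_apply]
  rw [DirectSum.decompose_of_mem gR hx]
  erw [DirectSum.toModule_lof]
  rw [dif_neg hγ]
  rfl

theorem verProj_coe (x : ver gR h) : verProj gR h (x : R) = x := by
  classical
  apply Subtype.ext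
  conv_lhs => rw [← DirectSum.sum_support_decompose gR (x : R)]
  conv_rhs => rw [← DirectSum.sum_support_decompose gR (x : R)]
  rw [map_sum, AddSubmonoidClass.coe_finsetSum]
  refine Finset.sum_congr rfl fun γ _ => ?_
  by_cases hγ : γ ∈ Set.range (mulH h)
  · exact verProj_of_mem gR h (SetLike.coe_mem _) hγ
  · rw [x.2 γ hγ, map_zero]
    rfl

variable {h} in
/-- The Cox datum attached to a graded algebra and a degree. -/
noncomputable def mkCox (hinj : ∀ n m : ℤ, n • h = m • h → n = m) : Cox k :=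
  let _ := verGraded gR hinj
  { A := ver gR h
    gA := verGr gR h
    Γ := Γ
    R := R
    gR := gR
    h := h
    φ := (ver gR h).val
    φ_mem := fun _ _ ha => ha
    φ_surj := fun _ x hx => ⟨⟨x, mem_ver_of_mem gR h hx⟩, hx, rfl⟩
    ρ := verProj gR h
    ρφ := fun a => verProj_coe gR h a
    h_inj := hinj }

end veronese

end Pool.Agent.SSF
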