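import Mathlib

/-!
# SSF, definitions: Cox data, base change, points, saturated extension, zero-free families

A *Cox datum* over a commutative ring `k` is an `ℕ`-graded `k`-algebra `A` together with a
`Γ`-graded `k`-algebra `R`, a degree `h : Γ` and an algebra map `φ : A → R` identifying `A n` with
`R (n h)`.  `X = Proj A`, the homogeneous pieces of `R` are (sections of) line bundles on `X`.
-/

set_option autoImplicit false

open scoped TensorProduct

namespace Pool.Agent.SSF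

/-- A Cox datum over `k`. -/
structure Cox (k : Type) [CommRing k] where
  A : Type
  [crA : CommRing A]
  [algA : Algebra k A]
  gA : ℕ → Submodule k A
  [grA : GradedAlgebra gA]
  Γ : Type
  [grpΓ : AddCommGroup Γ]
  [decΓ : DecidableEq Γ]
  R : Type
  [crR : CommRing R]
  [algR : Algebra k R]
  gR : Γ → Submodule k R
  [grR : GradedAlgebra gR]
  h : Γ
  φ : A →ₐ[k] R
  φ_mem : ∀ n a, a ∈ gA n → φ a ∈ gR (n • h)
  φ_surj : ∀ n, ∀ x ∈ gR (n • h), ∃ a ∈ gA n, φ a = x
  ρ : R →ₗ[k] A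
  ρφ : ∀ a, ρ (φ a) = a
  h_inj : ∀ n m : ℤ, n • h = m • h → n = m

attribute [instance] Cox.crA Cox.algA Cox.grA Cox.grpΓ Cox.decΓ Cox.crR Cox.algR Cox.grR

namespace Cox

variable {k : Type} [CommRing k]

/-- Base change of a Cox datum along `k → B`. -/
noncomputable abbrev bc (D : Cox k) (B : Type) [CommRing B] [Algebra k B] : Cox B where
  A := B ⊗[k] D.A
  gA := fun n => (D.gA n).baseChange B
  Γ := D.Γ
  R := B ⊗[k] D.R
  gR := fun γ => (D.gR γ).baseChange B
  h := D.h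
  φ := Algebra.TensorProduct.map (AlgHom.id B B) D.φ
  φ_mem := by
    intro n a ha
    rw [Submodule.baseChange_eq_span] at ha ⊢
    induction ha using Submodule.span_induction with
    | mem x hx =>
      obtain ⟨y, hy, rfl⟩ := hx
      refine Submodule.subset_span ⟨D.φ y, D.φ_mem n y hy, ?_⟩
      simp
    | zero => simp
    | add x y _ _ hx hy => rw [map_add]; exact Submodule.add_mem _ hx hy
    | smul b x _ hx => rw [map_smul]; exact Submodule.smul_mem _ _ hx
  φ_surj := by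
    intro n x hx
    rw [Submodule.baseChange_eq_span] at hx
    induction hx using Submodule.span_induction with
    | mem x hx =>
      obtain ⟨y, hy, rfl⟩ := hx
      obtain ⟨a, ha, rfl⟩ := D.φ_surj n y hy
      exact ⟨1 ⊗ₜ a, Submodule.tmul_mem_baseChange_of_mem _ ha, by simp⟩
    | zero => exact ⟨0, Submodule.zero_mem _, by simp⟩
    | add x y _ _ hx hy =>
      obtain ⟨a, ha, rfl⟩ := hx
      obtain ⟨b, hb, rfl⟩ := hy
      exact ⟨a + b, Submodule.add_mem _ ha hb, by simp⟩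
    | smul b x _ hx =>
      obtain ⟨a, ha, rfl⟩ := hx
      exact ⟨b • a, Submodule.smul_mem _ _ ha, by simp⟩
  ρ := D.ρ.baseChange B
  ρφ := by
    intro a
    induction a using TensorProduct.induction_on with
    | zero => simp
    | tmul b a => simp [D.ρφ]
    | add x y hx hy => rw [map_add, map_add, hx, hy]
  h_inj := D.h_inj

/-- The ring homomorphism `B ⊗ R → B' ⊗ R` induced by `B → B'`. -/
noncomputable def mapR (D : Cox k) {B B' : Type} [CommRing B] [Algebra k B] [CommRing B']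
    [Algebra k B'] (f : B →ₐ[k] B') : (D.bc B).R →+* (D.bc B').R :=
  (Algebra.TensorProduct.map f (AlgHom.id k D.R)).toRingHom

/-- The ring homomorphism `B ⊗ A → B' ⊗ A` induced by `B → B'`. -/
noncomputable def mapA (D : Cox k) {B B' : Type} [CommRing B] [Algebra k B] [CommRing B']
    [Algebra k B'] (f : B →ₐ[k] B') : (D.bc B).A →+* (D.bc B').A :=
  (Algebra.TensorProduct.map f (AlgHom.id k D.A)).toRingHom

/-- Points of `X = Proj A`. -/
abbrev Pt (D : Cox k) : Type := ProjectiveSpectrum D.gA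

/-- Saturated extension to `R` of a (homogeneous) ideal of `A`: generated by the homogeneous
`x ∈ R γ` with `x * R (n h - γ) ⊆ I` for all `n`. -/
def ext (D : Cox k) (I : Ideal D.A) : Ideal D.R :=
  Ideal.span {x | ∃ γ, x ∈ D.gR γ ∧ ∀ (n : ℕ), ∀ y ∈ D.gR (n • D.h - γ), ∃ a ∈ I, D.φ a = x * y}

/-- The ideal of `R` attached to a point of `X`. -/
def pt (D : Cox k) (p : D.Pt) : Ideal D.R := D.ext p.asHomogeneousIdeal.toIdeal

/-- `p` lies in the closed set defined by the ideal `J` of `R`. -/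
def On (D : Cox k) (J : Ideal D.R) (p : D.Pt) : Prop := J ≤ D.pt p

/-- The sections in the list `l` have no common zero on `V(J) ⊆ X`. -/
def ZF (D : Cox k) (J : Ideal D.R) (l : List D.R) : Prop :=
  ∀ p : D.Pt, D.On J p → ∃ x ∈ l, x ∉ D.pt p

/-- `dim V(J) ≤ d`: chains of points of `V(J)` have length at most `d`. -/
def DimLE (D : Cox k) (J : Ideal D.R) (d : ℕ) : Prop :=
  ∀ l : LTSeries D.Pt, D.On J l.head → l.length ≤ d

/-- `x ∈ R` is homogeneous of degree `γ`, and high degree statements: `P` holds in all degrees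
`γ + n h`, `n` large, for every `γ`. -/
def High (D : Cox k) (P : D.Γ → Prop) : Prop :=
  ∀ γ : D.Γ, ∃ N : ℕ, ∀ n : ℕ, N ≤ n → P (γ + n • D.h)

/-- Finiteness and charts. -/
structure Good (D : Cox k) : Prop where
  ftR : Algebra.FiniteType k D.R
  ftA : Algebra.FiniteType k D.A
  fin : ∀ γ, Module.Finite k (D.gR γ)
  neg : ∀ γ, ∃ N : ℕ, ∀ n : ℕ, N ≤ n → D.gR (γ - n • D.h) = ⊥
  neg0 : ∀ n : ℕ, 0 < n → D.gR (-(n • D.h)) = ⊥
  gen1 : ∃ N : ℕ, ∀ n : ℕ, N ≤ n → ∀ a ∈ D.gA n, a ∈ Ideal.span (D.gA 1 : Set D.A)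
  charts : ∃ U : Finset D.A, (∀ u ∈ U, ∃ n : ℕ, 0 < n ∧ u ∈ D.gA n) ∧
    (∃ N : ℕ, ∀ n : ℕ, N ≤ n → ∀ a ∈ D.gA n, a ∈ Ideal.span (U : Set D.A)) ∧
    ∀ u ∈ U, ∀ γ : D.Γ, ∃ (m c e : ℕ), ∃ x ∈ D.gR (γ + m • D.h), ∃ y ∈ D.gR (c • D.h - γ),
      x * y = D.φ (u ^ e)

end Cox

/-- Square classes of a field. -/
abbrev SqCl (K : Type) [Field K] : Type := Kˣ ⧸ (MonoidHom.range (powMonoidHom 2 : Kˣ →* Kˣ))

end Pool.Agent.SSF
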