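import Mathlib

/-! # Chains of points of `Proj` and integral charts -/

set_option autoImplicit false

open AlgebraicGeometry HomogeneousLocalization TopologicalSpace

namespace Pool.Agent.SSF

section chart

variable {k A : Type} [CommRing k] [CommRing A] [Algebra k A] {𝒜 : ℕ → Submodule k A}
  [GradedAlgebra 𝒜]

/-- The prime ideal of the degree zero localization attached to a point of `D(u)`. -/
noncomputable def chartPt (u : A) (p : ProjectiveSpectrum 𝒜) : Ideal (Away 𝒜 u) :=
  Ideal.comap (algebraMap (Away 𝒜 u) (Localization.Away u))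
    (p.asHomogeneousIdeal.toIdeal.map (algebraMap A (Localization.Away u)))

theorem chartPt_prime {u : A} {p : ProjectiveSpectrum 𝒜} (hp : u ∉ p.asHomogeneousIdeal) :
    (chartPt u p).IsPrime :=
  ProjIsoSpecTopComponent.ToSpec.isPrime_carrier (𝒜 := 𝒜) (f := u) ⟨p, hp⟩

theorem chartPt_mk {u : A} {p : ProjectiveSpectrum 𝒜} (hp : u ∉ p.asHomogeneousIdeal)
    (z : HomogeneousLocalization.NumDenSameDeg 𝒜 (.powers u)) :
    HomogeneousLocalization.mk z ∈ chartPt u p ↔ z.num.1 ∈ p.asHomogeneousIdeal :=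
  ProjIsoSpecTopComponent.ToSpec.mk_mem_carrier (𝒜 := 𝒜) (f := u) ⟨p, hp⟩ z

theorem chartPt_le {u : A} {p q : ProjectiveSpectrum 𝒜} (h : p ≤ q) :
    chartPt u p ≤ chartPt u q :=
  Ideal.comap_mono (Ideal.map_mono h)

theorem exists_chart_diff {u : A} {m : ℕ} (hu : u ∈ 𝒜 m) {p q : ProjectiveSpectrum 𝒜} (h : p < q)
    (hq : u ∉ q.asHomogeneousIdeal) (hm : 0 < m) :
    ∃ x ∈ chartPt u q, x ∉ chartPt u p := by
  classical
  have hp : u ∉ p.asHomogeneousIdeal := fun h' => hq (h.le h')
  obtain ⟨a, haq, hap⟩ : ∃ a ∈ q.asHomogeneousIdeal, a ∉ p.asHomogeneousIdeal := by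
    by_contra hcon
    push Not at hcon
    exact h.not_ge fun a ha => hcon a ha
  -- a homogeneous component
  obtain ⟨n, hn⟩ : ∃ n, (DirectSum.decompose 𝒜 a n : A) ∉ p.asHomogeneousIdeal := by
    by_contra hcon
    push Not at hcon
    apply hap
    rw [← DirectSum.sum_support_decompose 𝒜 a]
    exact Ideal.sum_mem _ fun n _ => hcon n
  have hnq : (DirectSum.decompose 𝒜 a n : A) ∈ q.asHomogeneousIdeal :=
    q.asHomogeneousIdeal.isHomogeneous n haq
  set b : A := (DirectSum.decompose 𝒜 a n : A) with hb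
  have hbn : b ∈ 𝒜 n := (DirectSum.decompose 𝒜 a n).2
  have hbm : b ^ m ∈ 𝒜 (m * n) := by
    have := SetLike.pow_mem_graded m hbn
    simpa using this
  have hun : u ^ n ∈ 𝒜 (m * n) := by
    have := SetLike.pow_mem_graded n hu
    simpa [mul_comm] using this
  set z : HomogeneousLocalization.NumDenSameDeg 𝒜 (.powers u) :=
    ⟨m * n, ⟨b ^ m, hbm⟩, ⟨u ^ n, hun⟩, ⟨n, rfl⟩⟩ with hz
  refine ⟨HomogeneousLocalization.mk z, ?_, ?_⟩
  · rw [chartPt_mk hq]
    exact Ideal.pow_mem_of_mem _ hnq m hm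
  · rw [chartPt_mk hp]
    intro h1
    exact hn (p.isPrime.mem_of_pow_mem m h1)

/-- If the degree zero localization at `u` is integral over `S`, then chains of points of `Proj`
ending in `D(u)` have length at most the dimension of `S`. -/
theorem length_le_of_chart {u : A} {m : ℕ} (hu : u ∈ 𝒜 m) (hm : 0 < m) {S : Type} [CommRing S]
    (θ : S →+* Away 𝒜 u) (hθ : θ.IsIntegral) (l : LTSeries (ProjectiveSpectrum 𝒜))
    (hl : u ∉ l.last.asHomogeneousIdeal) : (l.length : WithBot ℕ∞) ≤ ringKrullDim S := by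
  have hall : ∀ i, u ∉ (l i).asHomogeneousIdeal := fun i h =>
    hl ((l.strictMono.monotone (Fin.le_last i)) h)
  let g : Fin (l.length + 1) → PrimeSpectrum S := fun i =>
    ⟨(chartPt u (l i)).comap θ, (chartPt_prime (hall i)).comap θ⟩
  have hg : StrictMono g := by
    intro i j hij
    have hlt : l i < l j := l.strictMono hij
    obtain ⟨x, hxq, hxp⟩ := exists_chart_diff hu hlt (hall j) hm
    let _ := θ.toAlgebra
    have := chartPt_prime (hall i)
    have h1 := Ideal.comap_lt_comap_of_integral_mem_sdiff (R := S) (S := Away 𝒜 u)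
      (chartPt_le (u := u) hlt.le) ⟨hxq, hxp⟩ (hθ x)
    exact h1
  let l' : LTSeries (PrimeSpectrum S) := ⟨l.length, g, fun i => hg i.castSucc_lt_succ⟩
  exact Order.LTSeries.length_le_krullDim l'

end chart

end Pool.Agent.SSF
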