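import Pool.Agent.SSF.Defs
import Pool.Agent.SSF.DimChart

/-! # Cox data with bihomogeneous coordinates: dimension of `Proj` -/

set_option autoImplicit false

open HomogeneousLocalization
open scoped TensorProduct

namespace Pool.Agent.SSF.Dim

noncomputable section

variable {k : Type} [CommRing k]

/-- Monomials in `x`, `y`. -/
def mon {R : Type} [CommRing R] (x y : Fin 4 → R) (b c : Fin 4 → ℕ) : R :=
  ∏ i, x i ^ b i * y i ^ c i

/-- Span of the monomials `∏ x i ^ b i * y i ^ c i`, `b i + c i = N`. -/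
def bimon (k : Type) [CommRing k] {R : Type} [CommRing R] [Algebra k R] (x y : Fin 4 → R)
    (N : ℕ) : Submodule k R :=
  Submodule.span k {r | ∃ b c : Fin 4 → ℕ, (∀ i, b i + c i = N) ∧ r = mon x y b c}

/-- Bihomogeneous coordinates `x i`, `y i` on a Cox datum such that all pieces `gR (n • h)` are
spanned by elements which are integral over the monomials. -/
structure Chartable (D : Cox k) where
  F : Fin 4 → D.Γ
  x : Fin 4 → D.R
  y : Fin 4 → D.R
  hx : ∀ i, x i ∈ D.gR (F i)
  hy : ∀ i, y i ∈ D.gR (F i)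
  hh : D.h = ∑ i, 2 • F i
  G : ℕ → Set D.R
  G_mem : ∀ n, ∀ g ∈ G n, g ∈ D.gR (n • D.h)
  G_span : ∀ n, D.gR (n • D.h) ≤ Submodule.span k (G n)
  G_quart : ∀ n, ∀ g ∈ G n, ∃ p ∈ bimon k x y (4 * n), ∃ q ∈ bimon k x y (8 * n),
    (g * g - p) * (g * g - p) = q

theorem bimon_map {k k' R R' : Type} [CommRing k] [CommRing k'] [CommRing R] [CommRing R']
    [Algebra k R] [Algebra k' R'] [Algebra k k'] [Algebra k R'] [IsScalarTower k k' R']
    (f : R →ₐ[k] R') (x y : Fin 4 → R) {N : ℕ} {p : R} (hp : p ∈ bimon k x y N) :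
    f p ∈ bimon k' (fun i => f (x i)) (fun i => f (y i)) N := by
  unfold bimon at hp
  induction hp using Submodule.span_induction with
  | mem r hr =>
    obtain ⟨b, c, hbc, rfl⟩ := hr
    exact Submodule.subset_span ⟨b, c, hbc, by simp [mon]⟩
  | zero => rw [map_zero]; exact Submodule.zero_mem _
  | add a b _ _ ha hb => rw [map_add]; exact Submodule.add_mem _ ha hb
  | smul a b _ hb =>
    rw [map_smul, ← algebraMap_smul k' a (f b)]
    exact Submodule.smul_mem _ _ hb

/-- Base change. -/
def Chartable.bc {D : Cox k} (C : Chartable D) (B : Type) [CommRing B] [Algebra k B] :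
    Chartable (D.bc B) where
  F := C.F
  x := fun i => 1 ⊗ₜ C.x i
  y := fun i => 1 ⊗ₜ C.y i
  hx := fun i => Submodule.tmul_mem_baseChange_of_mem _ (C.hx i)
  hy := fun i => Submodule.tmul_mem_baseChange_of_mem _ (C.hy i)
  hh := C.hh
  G := fun n => (TensorProduct.mk k B D.R 1) '' C.G n
  G_mem := by
    rintro n _ ⟨g, hg, rfl⟩
    exact Submodule.tmul_mem_baseChange_of_mem _ (C.G_mem n g hg)
  G_span := by
    intro n
    rw [← Submodule.baseChange_span]
    exact Submodule.baseChange_mono B (C.G_span n)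
  G_quart := by
    rintro n _ ⟨g, hg, rfl⟩
    obtain ⟨p, hp, q, hq, h⟩ := C.G_quart n g hg
    let f : D.R →ₐ[k] B ⊗[k] D.R := Algebra.TensorProduct.includeRight
    refine ⟨f p, bimon_map f C.x C.y hp, f q, bimon_map f C.x C.y hq, ?_⟩
    rw [← h, map_mul, map_sub, map_mul]
    rfl

section swap

variable {R : Type} [CommRing R]

/-- Exchange `x i` and `y i` if `T i`. -/
def sw {α : Type} (T : Fin 4 → Bool) (a b : Fin 4 → α) : Fin 4 → α := fun i => if T i then b i else a i

theorem mon_sw (T : Fin 4 → Bool) (x y : Fin 4 → R) (b c : Fin 4 → ℕ) :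
    mon (sw T x y) (sw T y x) (sw T b c) (sw T c b) = mon x y b c := by
  unfold mon
  refine Finset.prod_congr rfl fun i _ => ?_
  cases hT : T i
  · simp [sw, hT]
  · simp [sw, hT, mul_comm]

theorem bimon_sw [Algebra k R] (T : Fin 4 → Bool) (x y : Fin 4 → R) (N : ℕ) :
    bimon k x y N ≤ bimon k (sw T x y) (sw T y x) N := by
  refine Submodule.span_mono ?_
  rintro _ ⟨b, c, hbc, rfl⟩
  refine ⟨sw T b c, sw T c b, fun i => ?_, (mon_sw T x y b c).symm⟩
  cases hT : T i
  · simpa [sw, hT] using hbc i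
  · simpa [sw, hT, add_comm] using hbc i

end swap

/-- Exchange of coordinates. -/
def Chartable.swap {D : Cox k} (C : Chartable D) (T : Fin 4 → Bool) : Chartable D where
  F := C.F
  x := sw T C.x C.y
  y := sw T C.y C.x
  hx := fun i => by
    cases hT : T i
    · simpa [sw, hT] using C.hx i
    · simpa [sw, hT] using C.hy i
  hy := fun i => by
    cases hT : T i
    · simpa [sw, hT] using C.hy i
    · simpa [sw, hT] using C.hx i
  hh := C.hh
  G := C.G
  G_mem := C.G_mem
  G_span := C.G_span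
  G_quart := fun n g hg => by
    obtain ⟨p, hp, q, hq, h⟩ := C.G_quart n g hg
    exact ⟨p, bimon_sw T _ _ _ hp, q, bimon_sw T _ _ _ hq, h⟩

section cox

variable {D : Cox k}

theorem phi_rho {n : ℕ} {r : D.R} (hr : r ∈ D.gR (n • D.h)) : D.φ (D.ρ r) = r := by
  obtain ⟨a, -, rfl⟩ := D.φ_surj n r hr
  rw [D.ρφ]

theorem rho_mem {n : ℕ} {r : D.R} (hr : r ∈ D.gR (n • D.h)) : D.ρ r ∈ D.gA n := by
  obtain ⟨a, ha, rfl⟩ := D.φ_surj n r hr
  rwa [D.ρφ]

theorem phi_inj : Function.Injective D.φ := fun a b h => by rw [← D.ρφ a, h, D.ρφ]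

theorem rho_mul {n m : ℕ} {r t : D.R} (hr : r ∈ D.gR (n • D.h)) (ht : t ∈ D.gR (m • D.h)) :
    D.ρ (r * t) = D.ρ r * D.ρ t := by
  apply phi_inj
  have h : r * t ∈ D.gR ((n + m) • D.h) := by
    rw [add_smul]
    exact SetLike.mul_mem_graded hr ht
  rw [phi_rho h, map_mul D.φ, phi_rho hr, phi_rho ht]

theorem mon_mem (C : Chartable D) {b c : Fin 4 → ℕ} {m : ℕ} (h : ∀ i, b i + c i = 2 * m) :
    mon C.x C.y b c ∈ D.gR (m • D.h) := by
  have h1 : mon C.x C.y b c ∈ D.gR (∑ i, (b i • C.F i + c i • C.F i)) :=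
    SetLike.prod_mem_graded _ _ _ fun i _ => SetLike.mul_mem_graded
      (SetLike.pow_mem_graded _ (C.hx i)) (SetLike.pow_mem_graded _ (C.hy i))
  have h2 : ∑ i, (b i • C.F i + c i • C.F i) = m • D.h := by
    rw [C.hh, Finset.smul_sum]
    refine Finset.sum_congr rfl fun i _ => ?_
    rw [← add_smul, h i, mul_comm, mul_smul]
  rwa [h2] at h1

theorem bimon_mem (C : Chartable D) {m N : ℕ} (hN : N = 2 * m) {r : D.R}
    (h : r ∈ bimon k C.x C.y N) : r ∈ D.gR (m • D.h) := by
  subst hN
  unfold bimon at h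
  induction h using Submodule.span_induction with
  | mem r hr =>
    obtain ⟨b, c, hbc, rfl⟩ := hr
    exact mon_mem C hbc
  | zero => exact Submodule.zero_mem _
  | add a b _ _ ha hb => exact Submodule.add_mem _ ha hb
  | smul a b _ hb => exact Submodule.smul_mem _ _ hb

/-- The chart element. -/
def Chartable.top (C : Chartable D) : D.R := mon C.x C.y (fun _ => 0) (fun _ => 2)

theorem Chartable.top_mem (C : Chartable D) : C.top ∈ D.gR (1 • D.h) :=
  mon_mem C (m := 1) fun _ => by simp

theorem mon_factor (x y : Fin 4 → D.R) (b c : Fin 4 → ℕ) (h : ∀ i, 4 ≤ b i + c i) :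
    mon x y b c = mon (sw (fun i => decide (2 ≤ b i)) x y) (sw (fun i => decide (2 ≤ b i)) y x)
      (fun _ => 0) (fun _ => 2) * mon x y (fun i => if 2 ≤ b i then b i - 2 else b i)
        (fun i => if 2 ≤ b i then c i else c i - 2) := by
  unfold mon
  rw [← Finset.prod_mul_distrib]
  refine Finset.prod_congr rfl fun i _ => ?_
  by_cases hb : 2 ≤ b i
  · obtain ⟨m, hm⟩ := Nat.exists_eq_add_of_le hb
    simp only [sw, hb, decide_true, if_true, pow_zero, one_mul]
    rw [hm, Nat.add_sub_cancel_left]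
    ring
  · have hc : 2 ≤ c i := by have := h i; omega
    obtain ⟨m, hm⟩ := Nat.exists_eq_add_of_le hc
    simp only [sw, hb, decide_false, if_false, pow_zero, one_mul, Bool.false_eq_true]
    rw [hm, Nat.add_sub_cancel_left]
    ring

theorem bimon_mem_pt (C : Chartable D) {p : D.Pt}
    (hp : ∀ T, D.ρ (C.swap T).top ∈ p.asHomogeneousIdeal) {m N : ℕ} (hm : 2 ≤ m)
    (hN : N = 2 * m) {r : D.R} (h : r ∈ bimon k C.x C.y N) : D.ρ r ∈ p.asHomogeneousIdeal := by
  subst hN
  unfold bimon at h
  induction h using Submodule.span_induction with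
  | mem r hr =>
    obtain ⟨b, c, hbc, rfl⟩ := hr
    obtain ⟨m', rfl⟩ := Nat.exists_eq_add_of_le' (le_trans one_le_two hm)
    rw [mon_factor C.x C.y b c fun i => by rw [hbc i]; omega]
    have h1 := hp fun i => decide (2 ≤ b i)
    have h2 : mon C.x C.y (fun i => if 2 ≤ b i then b i - 2 else b i)
        (fun i => if 2 ≤ b i then c i else c i - 2) ∈ D.gR (m' • D.h) := by
      refine mon_mem C fun i => ?_
      have := hbc i
      split_ifs <;> omega
    have h3 := rho_mul (C.swap fun i => decide (2 ≤ b i)).top_mem h2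
    unfold Chartable.top Chartable.swap at h3
    dsimp only at h3
    rw [h3]
    exact Ideal.mul_mem_right _ _ h1
  | zero => rw [map_zero]; exact Ideal.zero_mem _
  | add a b _ _ ha hb => rw [map_add]; exact Ideal.add_mem _ ha hb
  | smul a b _ hb =>
    rw [map_smul, Algebra.smul_def]
    exact Ideal.mul_mem_left _ _ hb

theorem exists_swap (C : Chartable D) (p : D.Pt) :
    ∃ T, D.ρ (C.swap T).top ∉ p.asHomogeneousIdeal := by
  by_contra hcon
  push Not at hcon
  apply p.not_irrelevant_le
  have key : ∀ n : ℕ, 0 < n → ∀ a ∈ D.gA n, a ∈ p.asHomogeneousIdeal := by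
    intro n hn a ha
    have h1 : D.φ a ∈ Submodule.span k (C.G n) := C.G_span n (D.φ_mem n a ha)
    have h2 : ∀ r ∈ Submodule.span k (C.G n), D.ρ r ∈ p.asHomogeneousIdeal := by
      intro r hr
      induction hr using Submodule.span_induction with
      | mem g hg =>
        obtain ⟨q1, h1, q2, h2, h3⟩ := C.G_quart n g hg
        have hg' := C.G_mem n g hg
        have e1 : D.ρ q1 ∈ p.asHomogeneousIdeal :=
          bimon_mem_pt C hcon (m := 2 * n) (by omega) (by omega) h1
        have e2 : D.ρ q2 ∈ p.asHomogeneousIdeal :=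
          bimon_mem_pt C hcon (m := 4 * n) (by omega) (by omega) h2
        have e3 : (D.ρ g * D.ρ g - D.ρ q1) * (D.ρ g * D.ρ g - D.ρ q1) = D.ρ q2 := by
          apply phi_inj
          rw [map_mul, map_sub, map_mul, phi_rho hg', phi_rho (bimon_mem C (m := 2 * n) (by omega) h1),
            phi_rho (bimon_mem C (m := 4 * n) (by omega) h2), h3]
        rw [← e3] at e2
        have e4 : D.ρ g * D.ρ g - D.ρ q1 ∈ p.asHomogeneousIdeal :=
          (p.isPrime.mem_or_mem e2).elim id id
        have e5 : D.ρ g * D.ρ g ∈ p.asHomogeneousIdeal := by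
          have := Ideal.add_mem p.asHomogeneousIdeal.toIdeal e4 e1
          rwa [sub_add_cancel] at this
        exact (p.isPrime.mem_or_mem e5).elim id id
      | zero => rw [map_zero]; exact Ideal.zero_mem _
      | add a b _ _ ha hb => rw [map_add]; exact Ideal.add_mem _ ha hb
      | smul a b _ hb =>
        rw [map_smul, Algebra.smul_def]
        exact Ideal.mul_mem_left _ _ hb
    have h3 := h2 _ h1
    rwa [D.ρφ] at h3
  intro a ha
  classical
  have ha' : a ∈ HomogeneousIdeal.irrelevant D.gA := ha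
  rw [HomogeneousIdeal.mem_irrelevant_iff, GradedRing.proj_apply] at ha'
  change a ∈ p.asHomogeneousIdeal.toIdeal
  rw [← DirectSum.sum_support_decompose D.gA a]
  refine Ideal.sum_mem _ fun n _ => ?_
  rcases Nat.eq_zero_or_pos n with rfl | hn
  · rw [ha']; exact Ideal.zero_mem _
  · exact key n hn _ (DirectSum.decompose D.gA a n).2

/-! ### Integrality of the chart -/

/-- `k → Away`. -/
def kAway {A : Type} [CommRing A] [Algebra k A] {𝒜 : ℕ → Submodule k A} [GradedAlgebra 𝒜] (u : A) :
    k →+* Away 𝒜 u :=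
  (fromZeroRingHom 𝒜 (.powers u)).comp (algebraMap k (𝒜 0))

theorem kAway_val {A : Type} [CommRing A] [Algebra k A] {𝒜 : ℕ → Submodule k A} [GradedAlgebra 𝒜]
    (u : A) (c : k) : (kAway (𝒜 := 𝒜) u c).val =
      algebraMap A (Localization.Away u) (algebraMap k A c) := by
  rw [← Localization.mk_one_eq_algebraMap]
  rfl

/-- The numerator of the `j`-th coordinate. -/
def Chartable.num (C : Chartable D) (j : Fin 4) : D.R :=
  mon C.x C.y (fun i => if i = j then 1 else 0) (fun i => if i = j then 1 else 2)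

theorem Chartable.num_mem (C : Chartable D) (j : Fin 4) : C.num j ∈ D.gR (1 • D.h) :=
  mon_mem C (m := 1) fun i => by split_ifs <;> rfl

theorem Chartable.num_eq (C : Chartable D) (j : Fin 4) : C.num j * C.y j = C.x j * C.top := by
  unfold Chartable.num Chartable.top mon
  rw [← Finset.mul_prod_erase _ _ (Finset.mem_univ j),
    ← Finset.mul_prod_erase Finset.univ (fun i => C.x i ^ 0 * C.y i ^ 2) (Finset.mem_univ j)]
  have h : ∏ i ∈ Finset.univ.erase j, C.x i ^ (if i = j then 1 else 0) *
      C.y i ^ (if i = j then 1 else 2) = ∏ i ∈ Finset.univ.erase j, C.x i ^ 0 * C.y i ^ 2 := by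
    refine Finset.prod_congr rfl fun i hi => ?_
    rw [if_neg (Finset.ne_of_mem_erase hi), if_neg (Finset.ne_of_mem_erase hi)]
  rw [h]
  simp only [if_true, pow_zero, pow_one, one_mul]
  ring

theorem num_prod (C : Chartable D) {b c : Fin 4 → ℕ} {n : ℕ} (h : ∀ i, b i + c i = 2 * n) :
    (∏ j, C.num j ^ b j) * C.top ^ n = mon C.x C.y b c * C.top ^ (∑ j, b j) := by
  have h1 : C.top ^ n = ∏ j, C.y j ^ (b j + c j) := by
    unfold Chartable.top mon
    rw [← Finset.prod_pow]
    refine Finset.prod_congr rfl fun j _ => ?_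
    rw [h j]
    ring
  rw [h1, ← Finset.prod_mul_distrib, ← Finset.prod_pow_eq_pow_sum]
  unfold mon
  rw [← Finset.prod_mul_distrib]
  refine Finset.prod_congr rfl fun j _ => ?_
  rw [pow_add, ← mul_assoc, ← mul_pow, C.num_eq j]
  ring

variable (C : Chartable D)

/-- The chart element in `A`. -/
def Chartable.u (C : Chartable D) : D.A := D.ρ C.top

theorem Chartable.u_mem (C : Chartable D) : C.u ∈ D.gA 1 := rho_mem C.top_mem

/-- The coordinates of the chart. -/
def Chartable.t (C : Chartable D) (j : Fin 4) : Away D.gA C.u :=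
  Away.mk D.gA C.u_mem 1 (D.ρ (C.num j)) (rho_mem (C.num_mem j))

/-- The map from the polynomial ring to the chart. -/
def Chartable.θ (C : Chartable D) : MvPolynomial (Fin 4) k →+* Away D.gA C.u :=
  MvPolynomial.eval₂Hom (kAway C.u) C.t

theorem mk_val {A : Type} [CommRing A] [Algebra k A] {𝒜 : ℕ → Submodule k A} [GradedAlgebra 𝒜]
    {u : A} (hu : u ∈ 𝒜 1) (n : ℕ) (a : A) (ha : a ∈ 𝒜 (n • 1)) :
    (Away.mk 𝒜 hu n a ha).val * algebraMap A (Localization.Away u) u ^ n =
      algebraMap A (Localization.Away u) a := by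
  rw [Away.val_mk, Localization.mk_eq_mk', ← map_pow]
  exact IsLocalization.mk'_spec (Localization.Away u) a (⟨u ^ n, n, rfl⟩ : Submonoid.powers u)

theorem isUnit_u {A : Type} [CommRing A] (u : A) :
    IsUnit (algebraMap A (Localization.Away u) u) := IsLocalization.Away.algebraMap_isUnit u

/-- ring hom `val`. -/
def valHom {A : Type} [CommRing A] [Algebra k A] {𝒜 : ℕ → Submodule k A} [GradedAlgebra 𝒜]
    (u : A) : Away 𝒜 u →+* Localization.Away u := algebraMap _ _

theorem valHom_apply {A : Type} [CommRing A] [Algebra k A] {𝒜 : ℕ → Submodule k A}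
    [GradedAlgebra 𝒜] (u : A) (z : Away 𝒜 u) : valHom u z = z.val := rfl

theorem theta_mon (C : Chartable D) {b c : Fin 4 → ℕ} {n : ℕ} (h : ∀ i, b i + c i = 2 * n) :
    valHom C.u (C.θ (∏ j, MvPolynomial.X j ^ b j)) *
      algebraMap D.A (Localization.Away C.u) C.u ^ n =
      algebraMap D.A (Localization.Away C.u) (D.ρ (mon C.x C.y b c)) := by
  have h1 : ∀ j, valHom C.u (C.t j) * algebraMap D.A (Localization.Away C.u) C.u =
      algebraMap D.A (Localization.Away C.u) (D.ρ (C.num j)) := by
    intro j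
    have := mk_val C.u_mem 1 (D.ρ (C.num j)) (rho_mem (C.num_mem j))
    rwa [pow_one] at this
  have h2 : valHom C.u (C.θ (∏ j, MvPolynomial.X j ^ b j)) = ∏ j, valHom C.u (C.t j) ^ b j := by
    rw [map_prod, map_prod]
    refine Finset.prod_congr rfl fun j _ => ?_
    rw [map_pow, map_pow]
    unfold Chartable.θ
    rw [MvPolynomial.eval₂Hom_X']
  have h3 : (∏ j, D.ρ (C.num j) ^ b j) * C.u ^ n = D.ρ (mon C.x C.y b c) * C.u ^ (∑ j, b j) := by
    apply phi_inj
    rw [map_mul, map_mul, map_prod, map_pow, map_pow, phi_rho (mon_mem C h)]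
    unfold Chartable.u
    rw [phi_rho C.top_mem, ← num_prod C h]
    congr 1
    refine Finset.prod_congr rfl fun j _ => ?_
    rw [map_pow, phi_rho (C.num_mem j)]
  have h4 := congrArg (algebraMap D.A (Localization.Away C.u)) h3
  rw [map_mul, map_mul, map_prod, map_pow, map_pow] at h4
  refine ((isUnit_u C.u).pow (∑ j, b j)).mul_right_cancel ?_
  rw [← h4, h2, mul_right_comm, ← Finset.prod_pow_eq_pow_sum, ← Finset.prod_mul_distrib]
  congr 1
  refine Finset.prod_congr rfl fun j _ => ?_
  rw [← mul_pow, h1 j, map_pow]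

theorem theta_C (C : Chartable D) (a : k) :
    valHom C.u (C.θ (MvPolynomial.C a)) =
      algebraMap D.A (Localization.Away C.u) (algebraMap k D.A a) := by
  unfold Chartable.θ
  rw [MvPolynomial.eval₂Hom_C]
  exact kAway_val C.u a

theorem theta_bimon (C : Chartable D) {n N : ℕ} (hN : N = 2 * n) {r : D.R}
    (h : r ∈ bimon k C.x C.y N) :
    ∃ s, valHom C.u (C.θ s) * algebraMap D.A (Localization.Away C.u) C.u ^ n =
      algebraMap D.A (Localization.Away C.u) (D.ρ r) := by
  subst hN
  unfold bimon at h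
  induction h using Submodule.span_induction with
  | mem r hr =>
    obtain ⟨b, c, hbc, rfl⟩ := hr
    exact ⟨_, theta_mon C hbc⟩
  | zero => exact ⟨0, by simp⟩
  | add a b _ _ ha hb =>
    obtain ⟨s, hs⟩ := ha
    obtain ⟨t, ht⟩ := hb
    exact ⟨s + t, by rw [map_add, map_add, map_add, map_add, add_mul, hs, ht]⟩
  | smul a b _ hb =>
    obtain ⟨t, ht⟩ := hb
    refine ⟨MvPolynomial.C a * t, ?_⟩
    rw [map_mul, map_mul, mul_assoc, ht, theta_C, map_smul, Algebra.smul_def, map_mul]

theorem theta_integral (C : Chartable D) : C.θ.IsIntegral := by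
  let _ := C.θ.toAlgebra
  have key : ∀ n, ∀ r ∈ Submodule.span k (C.G n), ∃ z : Away D.gA C.u,
      valHom C.u z * algebraMap D.A (Localization.Away C.u) C.u ^ n =
        algebraMap D.A (Localization.Away C.u) (D.ρ r) ∧
      IsIntegral (MvPolynomial (Fin 4) k) z := by
    intro n r hr
    induction hr using Submodule.span_induction with
    | mem g hg =>
      obtain ⟨q1, h1, q2, h2, h3⟩ := C.G_quart n g hg
      have hg' := C.G_mem n g hg
      obtain ⟨s1, hs1⟩ := theta_bimon C (n := 2 * n) (by omega) h1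
      obtain ⟨s2, hs2⟩ := theta_bimon C (n := 4 * n) (by omega) h2
      have e3 : (D.ρ g * D.ρ g - D.ρ q1) * (D.ρ g * D.ρ g - D.ρ q1) = D.ρ q2 := by
        apply phi_inj
        rw [map_mul, map_sub, map_mul, phi_rho hg', phi_rho (bimon_mem C (m := 2 * n) (by omega) h1),
          phi_rho (bimon_mem C (m := 4 * n) (by omega) h2), h3]
      have hz := mk_val C.u_mem n (D.ρ g) (by simpa using rho_mem hg')
      set z : Away D.gA C.u := Away.mk D.gA C.u_mem n (D.ρ g) (by simpa using rho_mem hg') with hzdef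
      refine ⟨z, hz, ?_⟩
      have e4 : (z ^ 2 - C.θ s1) ^ 2 = C.θ s2 := by
        apply HomogeneousLocalization.val_injective
        change valHom C.u _ = valHom C.u _
        refine ((isUnit_u C.u).pow (4 * n)).mul_right_cancel ?_
        rw [hs2, ← e3, map_mul, map_sub, map_mul, ← hs1, ← hz, map_pow, map_sub, map_pow,
          valHom_apply]
        ring
      have i1 : IsIntegral (MvPolynomial (Fin 4) k) ((z ^ 2 - C.θ s1) ^ 2) := by
        rw [e4]
        exact isIntegral_algebraMap (R := MvPolynomial (Fin 4) k) (A := Away D.gA C.u) (x := s2)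
      have i2 := i1.of_pow (by norm_num)
      have i3 : IsIntegral (MvPolynomial (Fin 4) k) (C.θ s1) :=
        isIntegral_algebraMap (R := MvPolynomial (Fin 4) k) (A := Away D.gA C.u) (x := s1)
      have i4 : IsIntegral (MvPolynomial (Fin 4) k) (z ^ 2) := by
        have := i2.add i3
        rwa [sub_add_cancel] at this
      exact i4.of_pow (by norm_num)
    | zero => exact ⟨0, by simp, isIntegral_zero⟩
    | add a b _ _ ha hb =>
      obtain ⟨s, hs, hs'⟩ := ha
      obtain ⟨t, ht, ht'⟩ := hb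
      exact ⟨s + t, by rw [map_add, map_add, map_add, add_mul, hs, ht], hs'.add ht'⟩
    | smul a b _ hb =>
      obtain ⟨t, ht, ht'⟩ := hb
      refine ⟨C.θ (MvPolynomial.C a) * t, ?_, ?_⟩
      · rw [map_mul, mul_assoc, ht, theta_C, map_smul, Algebra.smul_def, map_mul]
      · exact IsIntegral.mul (isIntegral_algebraMap (R := MvPolynomial (Fin 4) k)
          (A := Away D.gA C.u) (x := MvPolynomial.C a)) ht'
  intro z
  obtain ⟨n, a, ha, rfl⟩ := Away.mk_surjective D.gA C.u_mem z
  have ha' : a ∈ D.gA n := by simpa using ha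
  obtain ⟨z', hz', hi⟩ := key n (D.φ a) (C.G_span n (D.φ_mem n a ha'))
  rw [D.ρφ, ← mk_val C.u_mem n a ha] at hz'
  have h1 := ((isUnit_u C.u).pow n).mul_right_cancel hz'
  have h2 : z' = Away.mk D.gA C.u_mem n a ha := HomogeneousLocalization.val_injective _ h1
  rw [← h2]
  exact hi

/-- Chains of points of `Proj`. -/
theorem length_le (C : Chartable D) (l : LTSeries D.Pt) :
    (l.length : WithBot ℕ∞) ≤ ringKrullDim (MvPolynomial (Fin 4) k) := by
  obtain ⟨T, hT⟩ := exists_swap C l.last
  exact length_le_of_chart (C.swap T).u_mem one_pos (C.swap T).θ (theta_integral (C.swap T)) l hT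

theorem length_le_field {K : Type} [Field K] {D : Cox K} (C : Chartable D) (l : LTSeries D.Pt) :
    l.length ≤ 4 := by
  have h := length_le C l
  rw [MvPolynomial.ringKrullDim_of_isNoetherianRing, ringKrullDim_eq_zero_of_field] at h
  simp at h
  exact_mod_cast h

theorem length_le_dvr {O : Type} [CommRing O] [IsDomain O] [IsDiscreteValuationRing O] {D : Cox O}
    (C : Chartable D) (l : LTSeries D.Pt) : l.length ≤ 5 := by
  have h := length_le C l
  rw [MvPolynomial.ringKrullDim_of_isNoetherianRing,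
    IsDiscreteValuationRing.ringKrullDim_eq_one O] at h
  have h2 : (l.length : WithBot ℕ∞) ≤ ((5 : ℕ) : WithBot ℕ∞) := by
    refine h.trans (le_of_eq ?_)
    simp
    norm_num
  exact_mod_cast h2

end cox

end

end Pool.Agent.SSF.Dim
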