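import Pool.Agent.SSF.XCox
import Pool.Agent.SSF.DimCox

/-! # The dimension of the example -/

set_option autoImplicit false


open MvPolynomial

namespace Pool.Agent.SSF.Dim

noncomputable section

section rows

variable {k S : Type} [CommRing k] [CommRing S] [Algebra k S]

theorem span_pair_pow (x y : S) (N : ℕ) :
    (Submodule.span k {x, y}) ^ N ≤ Submodule.span k {r | ∃ b c : ℕ, b + c = N ∧ r = x ^ b * y ^ c} := by
  induction N with
  | zero =>
    rw [pow_zero, Submodule.one_eq_span]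
    refine Submodule.span_mono ?_
    rintro _ rfl
    exact ⟨0, 0, rfl, by simp⟩
  | succ N ih =>
    rw [pow_succ]
    refine (mul_le_mul' ih le_rfl).trans ?_
    rw [Submodule.span_mul_span]
    refine Submodule.span_mono ?_
    rintro _ ⟨_, ⟨b, c, hbc, rfl⟩, z, hz, rfl⟩
    rcases hz with rfl | rfl
    · exact ⟨b + 1, c, by omega, by simp only; ring⟩
    · exact ⟨b, c + 1, by omega, by simp only; ring⟩

theorem rows_le (x y : Fin 4 → S) (N : ℕ) :
    ∏ i, (Submodule.span k {x i, y i}) ^ N ≤ bimon k x y N := by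
  rw [Fin.prod_univ_four]
  refine (mul_le_mul' (mul_le_mul' (mul_le_mul' (span_pair_pow _ _ N)
    (span_pair_pow _ _ N)) (span_pair_pow _ _ N)) (span_pair_pow _ _ N)).trans ?_
  rw [Submodule.span_mul_span, Submodule.span_mul_span, Submodule.span_mul_span]
  refine Submodule.span_mono ?_
  rintro _ ⟨_, ⟨_, ⟨_, ⟨b0, c0, h0, rfl⟩, _, ⟨b1, c1, h1, rfl⟩, rfl⟩, _, ⟨b2, c2, h2, rfl⟩, rfl⟩,
    _, ⟨b3, c3, h3, rfl⟩, rfl⟩
  refine ⟨![b0, b1, b2, b3], ![c0, c1, c2, c3], ?_, ?_⟩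
  · intro i
    fin_cases i
    · exact h0
    · exact h1
    · exact h2
    · exact h3
  · unfold mon
    rw [Fin.prod_univ_four]
    rfl

/-- Squares of monomials. -/
theorem mono_sq_mem (ξ : V → S) (x y : Fin 4 → S)
    (hξ : ∀ v : V, ξ v ^ 2 ∈ Submodule.span k {x v.1, y v.1}) (m : V → ℕ) {N : ℕ}
    (hm : ∀ i, ∑ j, m (i, j) = N) : (∏ v, ξ v ^ m v) * (∏ v, ξ v ^ m v) ∈ bimon k x y N := by
  refine rows_le x y N ?_
  have h1 : (∏ v, ξ v ^ m v) * (∏ v, ξ v ^ m v) = ∏ i, ∏ j, (ξ (i, j) ^ 2) ^ m (i, j) := by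
    rw [← Finset.prod_mul_distrib, ← Finset.univ_product_univ, Finset.prod_product]
    refine Finset.prod_congr rfl fun i _ => Finset.prod_congr rfl fun j _ => ?_
    rw [← pow_mul, ← pow_add, two_mul]
  rw [h1]
  have h2 : ∀ i, ∏ j, (ξ (i, j) ^ 2) ^ m (i, j) ∈ (Submodule.span k {x i, y i}) ^ N := by
    intro i
    rw [← hm i, ← Finset.prod_pow_eq_pow_sum]
    rw [Fin.prod_univ_four, Fin.prod_univ_four]
    exact Submodule.mul_mem_mul (Submodule.mul_mem_mul (Submodule.mul_mem_mul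
      (Submodule.pow_mem_pow _ (hξ (i, 0)) _) (Submodule.pow_mem_pow _ (hξ (i, 1)) _))
      (Submodule.pow_mem_pow _ (hξ (i, 2)) _)) (Submodule.pow_mem_pow _ (hξ (i, 3)) _)
  rw [Fin.prod_univ_four, Fin.prod_univ_four]
  exact Submodule.mul_mem_mul (Submodule.mul_mem_mul (Submodule.mul_mem_mul (h2 0) (h2 1)) (h2 2))
    (h2 3)

end rows

/-- `Chartable` for a Cox datum of the form `mkCox`. -/
def mkChart {k R Γ : Type} [CommRing k] [CommRing R] [Algebra k R] [AddCommGroup Γ]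
    [DecidableEq Γ] (gR : Γ → Submodule k R) [GradedAlgebra gR] {h : Γ}
    (hinj : ∀ n m : ℤ, n • h = m • h → n = m) (F : Fin 4 → Γ) (x y : Fin 4 → R)
    (hx : ∀ i, x i ∈ gR (F i)) (hy : ∀ i, y i ∈ gR (F i)) (hh : h = ∑ i, 2 • F i)
    (G : ℕ → Set R) (G_mem : ∀ n, ∀ g ∈ G n, g ∈ gR (n • h))
    (G_span : ∀ n, gR (n • h) ≤ Submodule.span k (G n))
    (G_quart : ∀ n, ∀ g ∈ G n, ∃ p ∈ bimon k x y (4 * n), ∃ q ∈ bimon k x y (8 * n),
      (g * g - p) * (g * g - p) = q) : Chartable (mkCox gR hinj) where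
  F := F
  x := x
  y := y
  hx := hx
  hy := hy
  hh := hh
  G := G
  G_mem := G_mem
  G_span := G_span
  G_quart := G_quart

section split

variable (k : Type) [CommRing k] (s : k)

theorem gr_le_span (γ : Lam) : gr k s γ ≤ Submodule.span k
    {x | ∃ m : V → ℕ, ∑ v, m v • e v = γ ∧ x = ∏ v, xi k s v ^ m v} := by
  rintro _ ⟨p, hp, rfl⟩
  have hp' : IsWeightedHomogeneous e p γ := hp
  rw [p.as_sum, AlgHom.toLinearMap_apply, map_sum]
  refine Submodule.sum_mem _ fun d hd => ?_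
  have hw : Finsupp.weight e d = γ := hp' (MvPolynomial.mem_support_iff.1 hd)
  have h1 : (Ideal.Quotient.mkₐ k (relI k s)) (monomial d (coeff d p)) =
      coeff d p • ∏ v, xi k s v ^ d v := by
    rw [monomial_eq, Algebra.smul_def (coeff d p) (∏ v, xi k s v ^ d v), map_mul,
      Finsupp.prod_fintype _ _ (fun v => pow_zero _), map_prod]
    rfl
  rw [h1]
  refine Submodule.smul_mem _ _ (Submodule.subset_span ⟨d, ?_, rfl⟩)
  rw [← hw, Finsupp.weight_apply]
  exact (Finsupp.sum_fintype d (fun i c => c • e i) (fun v => zero_smul _ _)).symm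

theorem weight_row {m : V → ℕ} {n : ℕ} (h : ∑ v, m v • e v = n • hh) (i : Fin 4) :
    ∑ j, m (i, j) = 4 * n := by
  have h1 := congrFun (congrArg Prod.fst h) i
  rw [Prod.fst_sum, Finset.sum_apply, ← Finset.univ_product_univ, Finset.sum_product] at h1
  have h2 : ∀ i' j : Fin 4, ((m (i', j) • e (i', j)).1 : Fin 4 → ℤ) i =
      if i' = i then (m (i', j) : ℤ) else 0 := by
    intro i' j
    rw [Prod.smul_fst, Pi.smul_apply]
    change m (i', j) • (Pi.single (M := fun _ => ℤ) i' 1) i = _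
    by_cases hi : i' = i
    · subst hi
      rw [if_pos rfl, Pi.single_eq_same]
      simp
    · rw [if_neg hi, Pi.single_eq_of_ne (Ne.symm hi)]
      simp
  simp only [h2] at h1
  rw [Finset.sum_eq_single i (fun b _ hb => by simp [hb]) (by simp)] at h1
  simp only [if_true] at h1
  have h3 : ((n • hh).1 : Fin 4 → ℤ) i = 4 * n := by
    rw [Prod.smul_fst, Pi.smul_apply]
    change n • (4 : ℤ) = _
    rw [nsmul_eq_mul, mul_comm]
  rw [h3] at h1
  exact_mod_cast h1

theorem xi_sq_mem_span (v : V) : xi k s v ^ 2 ∈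
    Submodule.span k {xi k s (v.1, 0) ^ 2, xi k s (v.1, 1) ^ 2} := by
  obtain ⟨i, j⟩ := v
  have h0 : xi k s (i, 0) ^ 2 ∈ Submodule.span k {xi k s (i, 0) ^ 2, xi k s (i, 1) ^ 2} :=
    Submodule.subset_span (by simp)
  have h1 : xi k s (i, 1) ^ 2 ∈ Submodule.span k {xi k s (i, 0) ^ 2, xi k s (i, 1) ^ 2} :=
    Submodule.subset_span (by simp)
  fin_cases j
  · exact h0
  · exact h1
  · change xi k s (i, 2) ^ 2 ∈ _
    rw [xi2_sq, ← Algebra.smul_def, ← Algebra.smul_def]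
    exact Submodule.add_mem _ (Submodule.smul_mem _ _ h0) (Submodule.smul_mem _ _ h1)
  · change xi k s (i, 3) ^ 2 ∈ _
    rw [xi3_sq, ← Algebra.smul_def, ← Algebra.smul_def]
    exact Submodule.add_mem _ (Submodule.smul_mem _ _ h0) (Submodule.smul_mem _ _ h1)

theorem prod_mem_gr (m : V → ℕ) : ∏ v, xi k s v ^ m v ∈ gr k s (∑ v, m v • e v) :=
  SetLike.prod_mem_graded _ _ _ fun v _ => SetLike.pow_mem_graded _ (xi_mem k s v)

theorem hh_eq : hh = ∑ i, 2 • Fc i := by decide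

/-- Monomials of degree `n hh`. -/
def GS (n : ℕ) : Set (R k s) := {x | ∃ m : V → ℕ, ∑ v, m v • e v = n • hh ∧ x = ∏ v, xi k s v ^ m v}

theorem GS_mem (n : ℕ) (g : R k s) (hg : g ∈ GS k s n) : g ∈ gr k s (n • hh) := by
  obtain ⟨m, hm, rfl⟩ := hg
  rw [← hm]
  exact prod_mem_gr k s m

theorem zz {S : Type} [CommRing S] (a : S) : (a - a) * (a - a) = 0 := by
  rw [sub_self, zero_mul]

theorem GS_quart (n : ℕ) (g : R k s) (hg : g ∈ GS k s n) :
    ∃ p ∈ bimon k (fun i => xi k s (i, 0) ^ 2) (fun i => xi k s (i, 1) ^ 2) (4 * n),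
    ∃ q ∈ bimon k (fun i => xi k s (i, 0) ^ 2) (fun i => xi k s (i, 1) ^ 2) (8 * n),
      (g * g - p) * (g * g - p) = q := by
  obtain ⟨m, hm, rfl⟩ := hg
  have h := mono_sq_mem (k := k) (xi k s) (fun i => xi k s (i, 0) ^ 2)
    (fun i => xi k s (i, 1) ^ 2) (xi_sq_mem_span k s) m (weight_row hm)
  refine ⟨(∏ v, xi k s v ^ m v) * ∏ v, xi k s v ^ m v, h, 0, Submodule.zero_mem _, ?_⟩
  exact zz _

/-- The split form. -/
def chartDS : Chartable (DS k s) :=
  mkChart (gr k s) hh_inj Fc (fun i => xi k s (i, 0) ^ 2) (fun i => xi k s (i, 1) ^ 2)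
    (fun i => by
      have h := SetLike.pow_mem_graded 2 (xi_mem k s (i, 0))
      rwa [two_e] at h)
    (fun i => by
      have h := SetLike.pow_mem_graded 2 (xi_mem k s (i, 1))
      rwa [two_e] at h)
    hh_eq
    (GS k s)
    (GS_mem k s)
    (fun n => gr_le_span k s (n • hh))
    (GS_quart k s)

theorem DS_dim (K : Type) [Field K] (s : K) (l : LTSeries (DS K s).Pt) : l.length ≤ 4 :=
  length_le_field (chartDS K s) l

theorem DS_dim_dvr (O : Type) [CommRing O] [IsDomain O] [IsDiscreteValuationRing O] (s : O)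
    (l : LTSeries (DS O s).Pt) : l.length ≤ 5 :=
  length_le_dvr (chartDS O s) l

theorem DS_bc_dim (k : Type) [CommRing k] (s : k) (K : Type) [Field K] [Algebra k K]
    (l : LTSeries ((DS k s).bc K).Pt) : l.length ≤ 4 :=
  length_le_field ((chartDS k s).bc K) l

theorem DS_bc_dim_dvr (k : Type) [CommRing k] (s : k) (O : Type) [CommRing O] [IsDomain O]
    [IsDiscreteValuationRing O] [Algebra k O] (l : LTSeries ((DS k s).bc O).Pt) : l.length ≤ 5 :=
  length_le_dvr ((chartDS k s).bc O) l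

end split

end

end Pool.Agent.SSF.Dim
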