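import Pool.Agent.SSF.Symb
import Pool.Agent.SSF.G6

/-!
# SSF: the one-dimensional symbol
-/

set_option autoImplicit false

namespace Pool.Agent.SSF

open Pool.Agent.Helper88.SSF

namespace Cox

namespace S1

variable {K : Type} [Field K] {D : Cox K}

theorem dm_sq (hD : D.Good) {J : Ideal D.R} {s : D.Sec} {l : List D.Sec}
    (h : D.dm J 0 (s :: l)) : D.dm J 0 (s * s :: l) :=
  dm_mul hD h h

/-- Existence of one-dimensional data, avoiding finitely many points. -/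
theorem exists_data1 (hD : D.Good) {J : Ideal D.R} (_hJ : J.IsHomogeneous D.gR)
    (hd : D.DimLE J 1) (f a : D.Γ) (F : Finset D.Pt) :
    ∃ (X s t : D.Sec) (m : ℕ), X.1 = a + (2 * m) • D.h ∧ s.1 = f + t.1 ∧
      (∀ p ∈ F, val X ∉ D.pt p) ∧ D.dm J 1 [X] ∧ D.dm J 0 [s, X] ∧ D.dm J 0 [t, X] := by
  classical
  obtain ⟨F0, -, hF0⟩ := exists_avoid_set hD J []
  obtain ⟨m, -, x, hx, hxF⟩ := D.avoid hD (F ∪ F0) a 0
  set X : D.Sec := mkSec x hx with hX
  have hX1 : D.dm J 1 [X] :=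
    hF0 X (fun p hp => hxF p (Finset.mem_union_right _ hp)) 1 (dm_nil_iff'.2 hd)
  obtain ⟨F1, -, hF1⟩ := exists_avoid_set hD J [X]
  obtain ⟨N, hN⟩ := D.avoid_high hD F1 f
  obtain ⟨N', hN'⟩ := D.avoid_high hD F1 0
  obtain ⟨s, hs, hsF⟩ := hN (max N N') (le_max_left _ _)
  obtain ⟨t, ht, htF⟩ := hN' (max N N') (le_max_right _ _)
  refine ⟨X, mkSec s hs, mkSec t ht, m, rfl, ?_,
    fun p hp => hxF p (Finset.mem_union_left _ hp), hX1,
    hF1 (mkSec s hs) hsF 0 hX1, hF1 (mkSec t ht) htF 0 hX1⟩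
  show f + max N N' • D.h = f + (0 + max N N' • D.h)
  rw [zero_add]

theorem deg_sq {f : D.Γ} (hf : 2 • f = 0) {s t : D.Sec} (h : s.1 = f + t.1) :
    (s * s).1 = (t * t).1 := by
  show s.1 + s.1 = t.1 + t.1
  rw [h]
  have h1 : f + t.1 + (f + t.1) = 2 • f + (t.1 + t.1) := by
    rw [two_nsmul]
    abel
  rw [h1, hf, zero_add]

theorem high_sub {P : D.Γ → Prop} (h : D.High P) (g : D.Γ) : D.High fun n => P (n - g) :=
  HighP.sub (h := D.h) h g

theorem high_and {P Q : D.Γ → Prop} (h : D.High P) (h' : D.High Q) :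
    D.High fun n => P n ∧ Q n :=
  HighP.and (h := D.h) h h'

theorem high_allSub {P : D.Γ → Prop} (h : D.High P) (l : List D.Γ) : D.High (AllSub P l) := by
  have h' : HighP D.h P := h
  exact h'.allSub l

theorem high_exists {P : D.Γ → Prop} (h : D.High P) : ∃ n, P n := by
  obtain ⟨N, hN⟩ := h 0
  exact ⟨_, hN N le_rfl⟩

theorem exists_sg (x : Sg K) : ∃ u : Kˣ, sg K u = x := sg_surjective x

theorem cls_mul (u v : Kˣ) : cls (u * v) = cls u * cls v := rfl

/-- (i) additivity of the one-dimensional symbol -/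
theorem symb1_colon (hD : D.Good) (hK : Roots K) {J : Ideal D.R} (hJ : J.IsHomogeneous D.gR)
    (hd : D.DimLE J 1) {f : D.Γ} (hf : 2 • f = 0) (a : D.Γ) {δ : D.Γ} {r : D.R}
    (hr : r ∈ D.gR δ) (hJ1 : (J.colon (Ideal.span {r} : Ideal D.R)).IsHomogeneous D.gR)
    (hJ2 : (J ⊔ Ideal.span {r}).IsHomogeneous D.gR)
    (hd1 : D.DimLE (J.colon (Ideal.span {r} : Ideal D.R)) 1)
    (hd2 : D.DimLE (J ⊔ Ideal.span {r}) 1) :
    D.symb1 J f a = D.symb1 (J.colon (Ideal.span {r} : Ideal D.R)) f a *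
      D.symb1 (J ⊔ Ideal.span {r}) f a := by
  have hle1 : J ≤ J.colon (Ideal.span {r} : Ideal D.R) := by
    intro x hx
    rw [Submodule.mem_colon_span_singleton, smul_eq_mul]
    exact Ideal.mul_mem_right _ _ hx
  have hle2 : J ≤ J ⊔ Ideal.span {r} := le_sup_left
  obtain ⟨X, s, t, m, hX, hst, -, hX1, hs, ht⟩ := exists_data1 hD hJ hd f a ∅
  have hdeg := deg_sq hf hst
  obtain ⟨ρ, hρ⟩ := sys_colon hJ hr (ff_field hD J)
    (ff_field hD (J.colon (Ideal.span {r} : Ideal D.R))) (ff_field hD (J ⊔ Ideal.span {r}))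
  have e0 := symb1_data hD hK hJ hd hf a hX hst hX1 hs ht
  have e1 := symb1_data hD hK hJ1 hd1 hf a hX hst (dm_mono hle1 le_rfl (fun _ h => h) hX1)
    (dm_mono hle1 le_rfl (fun _ h => h) hs) (dm_mono hle1 le_rfl (fun _ h => h) ht)
  have e2 := symb1_data hD hK hJ2 hd2 hf a hX hst (dm_mono hle2 le_rfl (fun _ h => h) hX1)
    (dm_mono hle2 le_rfl (fun _ h => h) hs) (dm_mono hle2 le_rfl (fun _ h => h) ht)
  have g1s := sys_good hD hJ1 (ff_field hD _) (dm_mono hle1 le_rfl (fun _ h => h) (dm_sq hD hs))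
  have g1t := sys_good hD hJ1 (ff_field hD _) (dm_mono hle1 le_rfl (fun _ h => h) (dm_sq hD ht))
  have g2s := sys_good hD hJ2 (ff_field hD _) (dm_mono hle2 le_rfl (fun _ h => h) (dm_sq hD hs))
  have g2t := sys_good hD hJ2 (ff_field hD _) (dm_mono hle2 le_rfl (fun _ h => h) (dm_sq hD ht))
  obtain ⟨n, h0, h1, h2, h3, h4, h5, h6⟩ := high_exists
    (high_and e0 (high_and (high_sub e1 δ) (high_and e2 (high_and (high_sub g1s δ)
      (high_and (high_sub g1t δ) (high_and g2s g2t))))))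
  obtain ⟨u1, hu1⟩ := exists_sg
    ((D.sys (J.colon (Ideal.span {r} : Ideal D.R)) (ff_field hD _)).D (n - δ) [s * s, X] /
      (D.sys (J.colon (Ideal.span {r} : Ideal D.R)) (ff_field hD _)).D (n - δ) [t * t, X])
  obtain ⟨u2, hu2⟩ := exists_sg
    ((D.sys (J ⊔ Ideal.span {r}) (ff_field hD _)).D n [s * s, X] /
      (D.sys (J ⊔ Ideal.span {r}) (ff_field hD _)).D n [t * t, X])
  rw [h1 u1 hu1, h2 u2 hu2, ← cls_mul]
  refine h0 (u1 * u2) ?_
  obtain ⟨-, k1⟩ := hρ n [s * s, X] h3 h5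
  obtain ⟨-, k2⟩ := hρ n [t * t, X] h4 h6
  have k3 : ([s * s, X].map fun s : D.Sec => s.1) = [t * t, X].map fun s : D.Sec => s.1 := by
    simp only [List.map_cons, List.map_nil, hdeg]
  rw [k1, k2, k3, map_mul, hu1, hu2, mul_div_mul_right_eq_div, mul_div_mul_comm]

/-- (ii) only high degrees matter -/
theorem symb1_high (hD : D.Good) (hK : Roots K) {J J' : Ideal D.R}
    (hJ : J.IsHomogeneous D.gR) (hJ' : J'.IsHomogeneous D.gR) (hd : D.DimLE J 1)
    (hd' : D.DimLE J' 1) (h : D.High fun γ => ∀ x ∈ D.gR γ, x ∈ J ↔ x ∈ J') {f : D.Γ}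
    (hf : 2 • f = 0) (a : D.Γ) : D.symb1 J f a = D.symb1 J' f a := by
  have hlt : ∀ {I : Ideal D.R}, J ≤ I → ∀ {j : ℕ} {l : List D.Sec}, D.dm J j l → D.dm I j l :=
    fun hI _ _ hh => dm_mono hI le_rfl (fun _ h => h) hh
  -- data for the intersection of the two dimension conditions
  classical
  obtain ⟨F0, -, hF0⟩ := exists_avoid_set hD J []
  obtain ⟨F0', -, hF0'⟩ := exists_avoid_set hD J' []
  obtain ⟨m, -, x, hx, hxF⟩ := D.avoid hD (F0 ∪ F0') a 0
  set X : D.Sec := mkSec x hx with hX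
  have hX1 : D.dm J 1 [X] :=
    hF0 X (fun p hp => hxF p (Finset.mem_union_left _ hp)) 1 (dm_nil_iff'.2 hd)
  have hX1' : D.dm J' 1 [X] :=
    hF0' X (fun p hp => hxF p (Finset.mem_union_right _ hp)) 1 (dm_nil_iff'.2 hd')
  obtain ⟨F1, -, hF1⟩ := exists_avoid_set hD J [X]
  obtain ⟨F1', -, hF1'⟩ := exists_avoid_set hD J' [X]
  obtain ⟨N, hN⟩ := D.avoid_high hD (F1 ∪ F1') f
  obtain ⟨N', hN'⟩ := D.avoid_high hD (F1 ∪ F1') 0
  obtain ⟨s, hs, hsF⟩ := hN (max N N') (le_max_left _ _)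
  obtain ⟨t, ht, htF⟩ := hN' (max N N') (le_max_right _ _)
  set s' : D.Sec := mkSec s hs with hs'
  set t' : D.Sec := mkSec t ht with ht'
  have hst : s'.1 = f + t'.1 := by
    show f + max N N' • D.h = f + (0 + max N N' • D.h)
    rw [zero_add]
  have h1 := hF1 s' (fun p hp => hsF p (Finset.mem_union_left _ hp)) 0 hX1
  have h2 := hF1 t' (fun p hp => htF p (Finset.mem_union_left _ hp)) 0 hX1
  have h1' := hF1' s' (fun p hp => hsF p (Finset.mem_union_right _ hp)) 0 hX1'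
  have h2' := hF1' t' (fun p hp => htF p (Finset.mem_union_right _ hp)) 0 hX1'
  have hdeg := deg_sq hf hst
  obtain ⟨ρ, hρ⟩ := sys_high hD (J := J) (J' := J') _ (fun γ hγ => hγ) (ff_field hD J)
    (ff_field hD J')
  have e0 := symb1_data hD hK hJ hd hf a (m := m) rfl hst hX1 h1 h2
  have e1 := symb1_data hD hK hJ' hd' hf a (m := m) rfl hst hX1' h1' h2'
  have gs := sys_good hD hJ (ff_field hD _) (dm_sq hD h1)
  have gt := sys_good hD hJ (ff_field hD _) (dm_sq hD h2)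
  have hUs := high_allSub h ([s' * s', X].map fun s : D.Sec => s.1)
  have hUt := high_allSub h ([t' * t', X].map fun s : D.Sec => s.1)
  obtain ⟨n, k0, k1, k2, k3, k4, k5⟩ := high_exists
    (high_and e0 (high_and e1 (high_and gs (high_and gt (high_and hUs hUt)))))
  obtain ⟨u, hu⟩ := exists_sg
    ((D.sys J (ff_field hD _)).D n [s' * s', X] / (D.sys J (ff_field hD _)).D n [t' * t', X])
  rw [k0 u hu, eq_comm]
  refine k1 u ?_
  have r1 := (hρ n _ k4).2 k2
  have r2 := (hρ n _ k5).2 k3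
  have r3 : ([s' * s', X].map fun s : D.Sec => s.1) = [t' * t', X].map fun s : D.Sec => s.1 := by
    simp only [List.map_cons, List.map_nil, hdeg]
  rw [r1, r2, r3, hu, mul_div_mul_right_eq_div]

/-- (iii) the relation with the two-dimensional symbol -/
theorem symb_reg' (hD : D.Good) (hK : Roots K) {J : Ideal D.R} (hJ : J.IsHomogeneous D.gR)
    (hd : D.DimLE J 2) {f : D.Γ} (hf : 2 • f = 0) (a : D.Γ) {δ : D.Γ} {q : D.R}
    (hq : q ∈ D.gR δ) (hreg : D.High fun γ => ∀ x ∈ D.gR γ, x * q ∈ J → x ∈ J)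
    (hJq : (J ⊔ Ideal.span {q}).IsHomogeneous D.gR)
    (hd1 : D.DimLE (J ⊔ Ideal.span {q}) 1) :
    D.symb J f a δ = D.symb1 (J ⊔ Ideal.span {q}) f a := by
  classical
  set Q : D.Sec := mkSec q hq with hQ
  obtain ⟨F0, -, hF0⟩ := exists_avoid_set hD J []
  obtain ⟨X, s, t, m, hX, hst, hXF, hX1, hs, ht⟩ := exists_data1 hD hJq hd1 f a F0
  have hX2 : D.dm J 2 [X] := hF0 X hXF 2 (dm_nil_iff'.2 hd)
  -- dimension conditions for `J` with `q` in the list
  have hv : ∀ (l : List D.Sec) (j : ℕ), D.dm (J ⊔ Ideal.span {q}) j l → D.dm J j (l ++ [Q]) := by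
    intro l j h p hp
    refine h p (le_trans ?_ hp)
    refine sup_le (sup_le le_sup_left ?_) (le_trans (Ideal.span_mono ?_) le_sup_right)
    · rw [Ideal.span_le, Set.singleton_subset_iff]
      exact le_sup_right (a := J) (Ideal.subset_span ⟨Q, by simp, rfl⟩)
    · rintro y ⟨z, hz, rfl⟩
      exact ⟨z, List.mem_append_left _ hz, rfl⟩
  have hdeg := deg_sq hf hst
  have e0 := symb_data hD hK hJ hd hf a δ (Y := Q) (m' := 0) hX (by simp [hQ]) hst hX2
    (hv [X] 1 hX1) (hv [s, X] 0 hs) (hv [t, X] 0 ht)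
  have e1 := symb1_data hD hK hJq hd1 hf a hX hst hX1 hs ht
  obtain ⟨ρ, hρ⟩ := sys_nzd hJ Q _ (fun γ hγ => hγ) (ff_field hD J)
    (ff_field hD (J ⊔ Ideal.span {q}))
  have hreg' := high_sub hreg Q.1
  have gs := sys_good hD hJq (ff_field hD _) (dm_sq hD hs)
  have gt := sys_good hD hJq (ff_field hD _) (dm_sq hD ht)
  have hUs := high_allSub hreg' ([s * s, X].map fun s : D.Sec => s.1)
  have hUt := high_allSub hreg' ([t * t, X].map fun s : D.Sec => s.1)
  obtain ⟨n, k0, k1, k2, k3, k4, k5⟩ := high_exists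
    (high_and e0 (high_and e1 (high_and gs (high_and gt (high_and hUs hUt)))))
  obtain ⟨u, hu⟩ := exists_sg
    ((D.sys (J ⊔ Ideal.span {q}) (ff_field hD _)).D n [s * s, X] /
      (D.sys (J ⊔ Ideal.span {q}) (ff_field hD _)).D n [t * t, X])
  rw [k1 u hu]
  refine k0 u ?_
  obtain ⟨g1, r1⟩ := hρ n [s * s, X] k4
  obtain ⟨g2, r2⟩ := hρ n [t * t, X] k5
  have r3 : ([s * s, X].map fun s : D.Sec => s.1) = [t * t, X].map fun s : D.Sec => s.1 := by
    simp only [List.map_cons, List.map_nil, hdeg]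
  have pm : ∀ w : D.Sec, [Q, w, X].Perm [w, X, Q] := fun w => by
    refine (List.perm_append_singleton Q [w, X]).symm.trans ?_
    rfl
  rw [GSys.D_perm _ (pm (s * s)) n (g1.2 k2), GSys.D_perm _ (pm (t * t)) n (g2.2 k3),
    r1 k2, r2 k3, r3, hu, mul_div_mul_right_eq_div]

end S1

end Cox
end Pool.Agent.SSF
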