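import Pool.Agent.SSF.HighMul
import Pool.Agent.SSF.G7
import Pool.Agent.SSF.G3
import Pool.Agent.SSF.Symb1

/-!
# SSF, (DIV): the symbol of a class with a section `q` such that `q q' = c l ^ 2` vanishes
-/

set_option autoImplicit false

namespace Pool.Agent.SSF

namespace Div36

section Ideals

variable {k : Type} [CommRing k] {D : Cox k}

theorem colon_homogeneous {J : Ideal D.R} (hJ : J.IsHomogeneous D.gR) {δ : D.Γ} {r : D.R}
    (hr : r ∈ D.gR δ) : (J.colon (Ideal.span {r} : Ideal D.R)).IsHomogeneous D.gR := by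
  intro i x hx
  rw [Submodule.mem_colon_span_singleton] at hx ⊢
  have h1 := DirectSum.coe_decompose_mul_add_of_right_mem D.gR (i := i) (j := δ) (a := x) hr
  rw [smul_eq_mul, ← h1]
  exact hJ (i + δ) hx

theorem sup_span_homogeneous {J : Ideal D.R} (hJ : J.IsHomogeneous D.gR) {δ : D.Γ} {r : D.R}
    (hr : r ∈ D.gR δ) : (J ⊔ Ideal.span {r}).IsHomogeneous D.gR :=
  hJ.sup (Ideal.homogeneous_span _ _ (by
    rintro x rfl
    exact ⟨δ, hr⟩))

/-- If `q, q'` have no common zero on `V(J)` and `x q, x q' ∈ J`, then `x ∈ J` in high degree. -/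
theorem high_of_ZF [IsNoetherianRing k] (hD : D.Good) {J : Ideal D.R}
    (hJ : J.IsHomogeneous D.gR) {δ δ' : D.Γ} {q q' : D.R} (hq : q ∈ D.gR δ)
    (hq' : q' ∈ D.gR δ') (hZ : D.ZF J [q, q']) :
    D.High fun γ => ∀ x ∈ D.gR γ, x * q ∈ J → x * q' ∈ J → x ∈ J := by
  have hNoeth : IsNoetherianRing D.R := by
    have := hD.ftR
    exact Algebra.FiniteType.isNoetherianRing k D.R
  set Q : Ideal D.R := J.colon (Ideal.span {q} : Ideal D.R) ⊓
    J.colon (Ideal.span {q'} : Ideal D.R) with hQ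
  have hQh : Q.IsHomogeneous D.gR := (colon_homogeneous hJ hq).inf (colon_homogeneous hJ hq')
  have hI : (J ⊔ Ideal.span {q} ⊔ Ideal.span {q'}).IsHomogeneous D.gR :=
    sup_span_homogeneous (sup_span_homogeneous hJ hq) hq'
  have h1 : D.High fun γ => ∀ x ∈ D.gR γ, x ∈ J ⊔ Ideal.span {q} ⊔ Ideal.span {q'} := by
    refine D.high_le_of_noPoint hD _ hI ?_
    intro p hp
    have hJp : D.On J p := le_trans (le_trans le_sup_left le_sup_left) hp
    obtain ⟨x, hx, hxp⟩ := hZ p hJp
    rw [List.mem_cons, List.mem_singleton] at hx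
    rcases hx with rfl | rfl
    · exact hxp (hp (le_sup_left (a := J ⊔ Ideal.span {x})
        (le_sup_right (a := J) (Ideal.mem_span_singleton_self x))))
    · exact hxp (hp (le_sup_right (a := J ⊔ Ideal.span {q}) (Ideal.mem_span_singleton_self x)))
  have h2 := high_mul D hQh (IsNoetherian.noetherian Q) h1
  refine high_mono D h2 fun γ h x hx hxq hxq' => ?_
  have hxQ : x ∈ Q := by
    rw [hQ, Submodule.mem_inf, Submodule.mem_colon_span_singleton,
      Submodule.mem_colon_span_singleton]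
    exact ⟨hxq, hxq'⟩
  have h3 := h x hx hxQ
  refine (Ideal.mul_le.mpr ?_) h3
  intro a ha b hb
  rw [hQ, Submodule.mem_inf, Submodule.mem_colon_span_singleton,
      Submodule.mem_colon_span_singleton, smul_eq_mul, smul_eq_mul] at hb
  obtain ⟨u, hu, v, hv, rfl⟩ := Submodule.mem_sup.mp ha
  obtain ⟨u₁, hu₁, u₂, hu₂, rfl⟩ := Submodule.mem_sup.mp hu
  obtain ⟨c, rfl⟩ := Ideal.mem_span_singleton'.mp hu₂
  obtain ⟨c', rfl⟩ := Ideal.mem_span_singleton'.mp hv
  have e : (u₁ + c * q + c' * q') * b = b * u₁ + c * (b * q) + c' * (b * q') := by ring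
  rw [e]
  exact J.add_mem (J.add_mem (J.mul_mem_left _ hu₁) (J.mul_mem_left _ hb.1))
    (J.mul_mem_left _ hb.2)

end Ideals

end Div36

namespace Cox

open Div36

section Div

variable {K : Type} [Field K] {D : Cox K}

/-- The high degree form of `ker l = l` on `R / (pt p + q)`. -/
theorem div_colon (hD : D.Good) (p : D.Pt) {δ δ' lam : D.Γ} {q q' l : D.R}
    (hq : q ∈ D.gR δ) (hq' : q' ∈ D.gR δ') (hl : l ∈ D.gR lam) {c : K} (hc : c ≠ 0)
    (hqq : q * q' = c • l ^ 2) (hZ : D.ZF (D.pt p) [q, q']) (hlp : l ∉ D.pt p) :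
    D.High fun γ => ∀ x ∈ D.gR γ,
      x ∈ (D.pt p ⊔ Ideal.span {q}).colon (Ideal.span {l} : Ideal D.R) ↔
        x ∈ D.pt p ⊔ Ideal.span {q} ⊔ Ideal.span {l} := by
  have hP : (D.pt p).IsHomogeneous D.gR := D.ext_homogeneous _
  have hJ : (D.pt p ⊔ Ideal.span {q}).IsHomogeneous D.gR := sup_span_homogeneous hP hq
  have hJl : (D.pt p ⊔ Ideal.span {q} ⊔ Ideal.span {l}).IsHomogeneous D.gR :=
    sup_span_homogeneous hJ hl
  have hqJ : q ∈ D.pt p ⊔ Ideal.span {q} :=
    le_sup_right (a := D.pt p) (Ideal.mem_span_singleton_self q)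
  have hl2 : l * l ∈ D.pt p ⊔ Ideal.span {q} := by
    have h1 : l * l = (c⁻¹ • q') * q := by
      rw [smul_mul_assoc, mul_comm q' q, hqq, smul_smul, inv_mul_cancel₀ hc, one_smul, sq]
    rw [h1]
    exact Ideal.mul_mem_left _ _ hqJ
  -- the degrees
  have hll : l * l ∉ D.pt p := fun h => by
    rcases D.pt_prime hD p hl hl h with h | h <;> exact hlp h
  have hdeg : lam + lam = δ + δ' := by
    by_contra hne
    have h1 : l * l ∈ D.gR (lam + lam) := SetLike.mul_mem_graded hl hl
    have h2 : l * l ∈ D.gR (δ + δ') := by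
      have h3 : l * l = c⁻¹ • (q * q') := by
        rw [hqq, smul_smul, inv_mul_cancel₀ hc, one_smul, sq]
      rw [h3]
      exact Submodule.smul_mem _ _ (SetLike.mul_mem_graded hq hq')
    have h4 : (DirectSum.decompose D.gR (l * l) (δ + δ') : D.R) = 0 :=
      DirectSum.decompose_of_mem_ne D.gR h1 hne
    rw [DirectSum.decompose_of_mem_same D.gR h2] at h4
    rw [h4] at hll
    exact hll (Ideal.zero_mem _)
  have hZ' : D.ZF (D.pt p ⊔ Ideal.span {q} ⊔ Ideal.span {l}) [q, q'] := by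
    intro r hr
    exact hZ r (le_trans (le_trans le_sup_left le_sup_left) hr)
  have h1 := high_of_ZF hD hJl hq hq' hZ'
  refine high_mono D h1 fun γ h x hx => ?_
  rw [Submodule.mem_colon_span_singleton, smul_eq_mul]
  constructor
  · intro hxl
    refine h x hx ?_ ?_
    · exact Ideal.mul_mem_left _ _ (le_sup_left (a := D.pt p ⊔ Ideal.span {q}) hqJ)
    · have hxl' : x * l ∈ D.gR (γ + lam) := SetLike.mul_mem_graded hx hl
      obtain ⟨u, hu, y, hy, -, huy⟩ := mem_sup_span_homogeneous D hP hq hxl' hxl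
      -- l (q' x - c l y) = q' u
      have e1 : l * (x * q' - c • (l * y)) = q' * u := by
        have e2 : q' * (x * l) = q' * u + y * (q * q') := by
          rw [huy]
          ring
        rw [hqq] at e2
        rw [mul_sub]
        have e3 : l * (x * q') = q' * (x * l) := by ring
        rw [e3, e2, mul_smul_comm, mul_smul_comm]
        have e4 : y * l ^ 2 = l * (l * y) := by ring
        rw [e4]
        abel
      have hdg : x * q' - c • (l * y) ∈ D.gR (γ + δ') := by
        refine Submodule.sub_mem _ (SetLike.mul_mem_graded hx hq') (Submodule.smul_mem _ _ ?_)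
        have h5 : l * y ∈ D.gR (lam + (γ + lam - δ)) := SetLike.mul_mem_graded hl hy
        have h6 : lam + (γ + lam - δ) = γ + δ' := by
          have : lam + (γ + lam - δ) = γ + (lam + lam) - δ := by abel
          rw [this, hdeg]
          abel
        rwa [h6] at h5
      have h7 : l * (x * q' - c • (l * y)) ∈ D.pt p := by
        rw [e1]
        exact Ideal.mul_mem_left _ _ hu
      have h8 : x * q' - c • (l * y) ∈ D.pt p := by
        rcases D.pt_prime hD p hl hdg h7 with h9 | h9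
        · exact absurd h9 hlp
        · exact h9
      have h9 : x * q' = (x * q' - c • (l * y)) + (c • y) * l := by
        rw [smul_mul_assoc, mul_comm y l]
        abel
      rw [h9]
      refine Ideal.add_mem _ (le_sup_left (a := D.pt p ⊔ Ideal.span {q})
        (le_sup_left (a := D.pt p) h8)) ?_
      exact Ideal.mul_mem_left _ _ (le_sup_right (a := D.pt p ⊔ Ideal.span {q})
        (Ideal.mem_span_singleton_self l))
  · intro hx'
    obtain ⟨u, hu, v, hv, rfl⟩ := Submodule.mem_sup.mp hx'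
    obtain ⟨d, rfl⟩ := Ideal.mem_span_singleton'.mp hv
    rw [add_mul]
    refine Ideal.add_mem _ (Ideal.mul_mem_right _ _ hu) ?_
    rw [mul_assoc]
    exact Ideal.mul_mem_left _ _ hl2

/-- (DIV) -/
theorem symb_DIV (hD : D.Good) (hK : Roots K) (p : D.Pt) (hd : D.DimLE (D.pt p) 2)
    {f : D.Γ} (hf : 2 • f = 0) (g : D.Γ) {δ δ' lam : D.Γ} {q q' l : D.R}
    (hq : q ∈ D.gR δ) (hq' : q' ∈ D.gR δ') (hl : l ∈ D.gR lam) {c : K} (hc : c ≠ 0)
    (hqq : q * q' = c • l ^ 2) (hZ : D.ZF (D.pt p) [q, q']) (hlp : l ∉ D.pt p) :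
    D.symb (D.pt p) f g δ = 1 := by
  have hP : (D.pt p).IsHomogeneous D.gR := D.ext_homogeneous _
  have hJ : (D.pt p ⊔ Ideal.span {q}).IsHomogeneous D.gR := sup_span_homogeneous hP hq
  have hqp : q ∉ D.pt p := by
    intro h
    have h1 : c • l ^ 2 ∈ D.pt p := by
      rw [← hqq]
      exact Ideal.mul_mem_right _ _ h
    have h2 : l * l ∈ D.pt p := by
      have h3 : l * l = c⁻¹ • (c • l ^ 2) := by
        rw [smul_smul, inv_mul_cancel₀ hc, one_smul, sq]
      rw [h3, Algebra.smul_def]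
      exact Ideal.mul_mem_left _ _ h1
    rcases D.pt_prime hD p hl hl h2 with h | h <;> exact hlp h
  have hd1 : D.DimLE (D.pt p ⊔ Ideal.span {q}) 1 := by
    refine D.dim_drop hD (D.pt p) 1 hd q {p} ?_ ?_ ?_
    · intro r hr
      rw [Finset.mem_singleton] at hr
      rw [hr]
      exact le_refl _
    · intro r hr
      exact ⟨p, Finset.mem_singleton_self p, (D.pt_le_pt hD p r).mp hr⟩
    · intro r hr
      rw [Finset.mem_singleton] at hr
      rw [hr]
      exact hqp
  have hreg : D.High fun γ => ∀ x ∈ D.gR γ, x * q ∈ D.pt p → x ∈ D.pt p := by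
    intro γ
    refine ⟨0, fun n _ x hx h => ?_⟩
    rcases D.pt_prime hD p hx hq h with h | h
    · exact h
    · exact absurd h hqp
  have hdc : D.DimLE ((D.pt p ⊔ Ideal.span {q}).colon (Ideal.span {l} : Ideal D.R)) 1 := by
    intro s hs
    refine hd1 s ?_
    refine le_trans ?_ hs
    intro x hx
    rw [Submodule.mem_colon_span_singleton, smul_eq_mul]
    exact Ideal.mul_mem_right _ _ hx
  have hds : D.DimLE (D.pt p ⊔ Ideal.span {q} ⊔ Ideal.span {l}) 1 := by
    intro s hs
    exact hd1 s (le_trans le_sup_left hs)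
  rw [S1.symb_reg' hD hK hP hd hf g hq hreg hJ hd1,
    S1.symb1_colon hD hK hJ hd1 hf g hl (colon_homogeneous hJ hl) (sup_span_homogeneous hJ hl)
      hdc hds,
    S1.symb1_high hD hK (colon_homogeneous hJ hl) (sup_span_homogeneous hJ hl) hdc hds
      (div_colon hD p hq hq' hl hc hqq hZ hlp) hf g]
  obtain ⟨u, hu⟩ := QuotientGroup.mk_surjective
    (D.symb1 (D.pt p ⊔ Ideal.span {q} ⊔ Ideal.span {l}) f g)
  rw [← hu, ← QuotientGroup.mk_mul, QuotientGroup.eq_one_iff]
  exact ⟨u, by rw [powMonoidHom_apply, sq]⟩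

/-- (DIV) in the form used by the chain -/
theorem symb_div (hD : D.Good) (hK : Roots K) (p : D.Pt) (hd : D.DimLE (D.pt p) 2)
    {f : D.Γ} (hf : 2 • f = 0) (g : D.Γ) {α lam : D.Γ} {qp qm l : D.R}
    (hqp : qp ∈ D.gR α) (hqm : qm ∈ D.gR α) (hl : l ∈ D.gR lam) (h : qp * qm = l * l)
    (hz : D.ZF (D.pt p) [qp, qm]) (hlp : l ∉ D.pt p) : D.symb (D.pt p) f g α = 1 :=
  symb_DIV hD hK p hd hf g hqp hqm hl one_ne_zero (by rw [one_smul, sq]; exact h) hz hlp

end Div

end Cox
end Pool.Agent.SSF
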