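import Mathlib

/-!
# SSF, E2a: nonzerodivisors modulo ideals generated by monic equations

`NZ J f`: `f` is a nonzerodivisor modulo the ideal `J`.
-/

set_option autoImplicit false

namespace Pool.Agent.SSF.E2

open MvPolynomial

/-- `f` is a nonzerodivisor modulo `J`. -/
def NZ {A : Type*} [CommRing A] (J : Ideal A) (f : A) : Prop := ∀ m, f * m ∈ J → m ∈ J

namespace NZ

variable {A B : Type*} [CommRing A] [CommRing B]

theorem mul {J : Ideal A} {f g : A} (hf : NZ J f) (hg : NZ J g) : NZ J (f * g) := by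
  intro m hm
  refine hg m (hf _ ?_)
  rwa [← mul_assoc]

theorem pow {J : Ideal A} {f : A} (hf : NZ J f) (n : ℕ) : NZ J (f ^ n) := by
  induction n with
  | zero => intro m hm; simpa using hm
  | succ n ih => rw [pow_succ]; exact ih.mul hf

theorem of_mul_left {J : Ideal A} {f g : A} (h : NZ J (f * g)) : NZ J f := by
  intro m hm
  refine h m ?_
  have := J.mul_mem_left g hm
  rwa [← mul_assoc, mul_comm g f] at this

theorem of_mul_right {J : Ideal A} {f g : A} (h : NZ J (f * g)) : NZ J g := by
  rw [mul_comm] at h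
  exact h.of_mul_left

theorem congr {J : Ideal A} {f g : A} (h : NZ J f) (hfg : f - g ∈ J) : NZ J g := by
  intro m hm
  refine h m ?_
  have h1 : f * m = (f - g) * m + g * m := by ring
  rw [h1]
  exact J.add_mem (J.mul_mem_right m hfg) hm

theorem of_equiv (e : A ≃+* B) {J : Ideal A} {f : A}
    (h : NZ (J.map (e : A →+* B)) (e f)) : NZ J f := by
  intro m hm
  have h1 : e m ∈ J.map (e : A →+* B) := by
    refine h (e m) ?_
    rw [← map_mul]
    exact Ideal.mem_map_of_mem (e : A →+* B) hm
  have h2 : J.map (e : A →+* B) = J.comap (e.symm : B →+* A) := Ideal.map_comap_of_equiv e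
  rw [h2, Ideal.mem_comap] at h1
  simpa using h1

/-- If `h = q * q'` and `g = y * y'` modulo `J`, `h` nonzerodivisor mod `J`, and `g` a
nonzerodivisor mod `J + (h)`, then `y` is a nonzerodivisor mod `J + (q)`. -/
theorem of_norm {J : Ideal A} {q q' y y' h g : A} (hq : q * q' - h ∈ J) (hy : y * y' - g ∈ J)
    (hh : NZ J h) (hg : NZ (J ⊔ Ideal.span {h}) g) : NZ (J ⊔ Ideal.span {q}) y := by
  intro m hm
  obtain ⟨j, hj, c, hc, hjc⟩ := Submodule.mem_sup.1 hm
  obtain ⟨m', rfl⟩ := Ideal.mem_span_singleton'.1 hc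
  -- y m = j + m' q
  have h1 : g * (q' * m) ∈ J ⊔ Ideal.span {h} := by
    have e : g * (q' * m) = (-(y * y' - g) * (q' * m) + (y' * q') * j + (y' * m') * (q * q' - h)) +
        (y' * m') * h := by
      linear_combination (-(y' * q')) * hjc
    rw [e]
    refine Submodule.add_mem_sup ?_ (Ideal.mul_mem_left _ _ (Ideal.mem_span_singleton_self h))
    refine J.add_mem (J.add_mem ?_ ?_) ?_
    · exact J.mul_mem_right _ (J.neg_mem hy)
    · exact J.mul_mem_left _ hj
    · exact J.mul_mem_left _ hq
  obtain ⟨j2, hj2, c2, hc2, hjc2⟩ := Submodule.mem_sup.1 (hg _ h1)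
  obtain ⟨m2, rfl⟩ := Ideal.mem_span_singleton'.1 hc2
  -- q' m = j2 + m2 h
  have hq' : NZ J q' := by
    have : NZ J (q * q') := hh.congr (by simpa using J.neg_mem hq)
    exact this.of_mul_right
  have h3 : m - m2 * q ∈ J := by
    refine hq' _ ?_
    have e : q' * (m - m2 * q) = j2 - m2 * (q * q' - h) := by
      linear_combination (-1 : A) * hjc2
    rw [e]
    exact J.sub_mem hj2 (J.mul_mem_left _ hq)
  have e : m = (m - m2 * q) + m2 * q := by ring
  rw [e]
  exact Submodule.add_mem_sup h3 (Ideal.mul_mem_left _ _ (Ideal.mem_span_singleton_self q))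

/-- exchange: if `f` is a nonzerodivisor mod `J` and `q` mod `J + (f)`, then `f` is a
nonzerodivisor mod `J + (q)`. -/
theorem swap {J : Ideal A} {f q : A} (hf : NZ J f) (hq : NZ (J ⊔ Ideal.span {f}) q) :
    NZ (J ⊔ Ideal.span {q}) f := by
  intro m hm
  obtain ⟨j, hj, c, hc, hjc⟩ := Submodule.mem_sup.1 hm
  obtain ⟨m', rfl⟩ := Ideal.mem_span_singleton'.1 hc
  have h1 : q * m' ∈ J ⊔ Ideal.span {f} := by
    have e : q * m' = -j + m * f := by linear_combination (1 : A) * hjc
    rw [e]
    exact Submodule.add_mem_sup (J.neg_mem hj)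
      (Ideal.mul_mem_left _ _ (Ideal.mem_span_singleton_self f))
  obtain ⟨j2, hj2, c2, hc2, hjc2⟩ := Submodule.mem_sup.1 (hq _ h1)
  obtain ⟨m2, rfl⟩ := Ideal.mem_span_singleton'.1 hc2
  have h3 : m - m2 * q ∈ J := by
    refine hf _ ?_
    have e : f * (m - m2 * q) = j + q * j2 := by
      linear_combination (-1 : A) * hjc - q * hjc2
    rw [e]
    exact J.add_mem hj (J.mul_mem_left _ hj2)
  have e : m = (m - m2 * q) + m2 * q := by ring
  rw [e]
  exact Submodule.add_mem_sup h3 (Ideal.mul_mem_left _ _ (Ideal.mem_span_singleton_self q))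

/-- products in the ideal. -/
theorem sup_mul {J : Ideal A} {f a b : A} (hb : NZ J b) (h1 : NZ (J ⊔ Ideal.span {a}) f)
    (h2 : NZ (J ⊔ Ideal.span {b}) f) : NZ (J ⊔ Ideal.span {a * b}) f := by
  intro m hm
  obtain ⟨j, hj, c, hc, hjc⟩ := Submodule.mem_sup.1 hm
  obtain ⟨m', rfl⟩ := Ideal.mem_span_singleton'.1 hc
  have hm2 : m ∈ J ⊔ Ideal.span {b} := by
    refine h2 _ ?_
    rw [← hjc]
    refine Submodule.add_mem_sup hj ?_
    rw [← mul_assoc]
    exact Ideal.mul_mem_left _ _ (Ideal.mem_span_singleton_self b)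
  obtain ⟨j2, hj2, c2, hc2, hjc2⟩ := Submodule.mem_sup.1 hm2
  obtain ⟨m2, rfl⟩ := Ideal.mem_span_singleton'.1 hc2
  -- m = j2 + m2 b ; f m = j + m' a b
  have h3 : f * m2 - m' * a ∈ J := by
    refine hb _ ?_
    have e : b * (f * m2 - m' * a) = j - f * j2 := by
      linear_combination f * hjc2 - hjc
    rw [e]
    exact J.sub_mem hj (J.mul_mem_left _ hj2)
  have h4 : m2 ∈ J ⊔ Ideal.span {a} := by
    refine h1 _ ?_
    have e : f * m2 = (f * m2 - m' * a) + m' * a := by ring
    rw [e]
    exact Submodule.add_mem_sup h3 (Ideal.mul_mem_left _ _ (Ideal.mem_span_singleton_self a))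
  obtain ⟨j3, hj3, c3, hc3, hjc3⟩ := Submodule.mem_sup.1 h4
  obtain ⟨m3, rfl⟩ := Ideal.mem_span_singleton'.1 hc3
  have e : m = (j2 + b * j3) + m3 * (a * b) := by
    linear_combination (-1 : A) * hjc2 - b * hjc3
  rw [e]
  exact Submodule.add_mem_sup (J.add_mem hj2 (J.mul_mem_left _ hj3))
    (Ideal.mul_mem_left _ _ (Ideal.mem_span_singleton_self _))

theorem sup_pow {J : Ideal A} {f a : A} (ha : NZ J a) (h1 : NZ (J ⊔ Ideal.span {a}) f)
    (n : ℕ) : NZ (J ⊔ Ideal.span {a ^ n}) f := by
  induction n with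
  | zero =>
    intro m _
    have : J ⊔ Ideal.span {a ^ 0} = ⊤ := by simp
    rw [this]; trivial
  | succ n ih =>
    rw [pow_succ]
    exact sup_mul ha ih h1

end NZ

section one

open Polynomial

variable {A : Type*} [CommRing A]

theorem modByMonic_mem (J : Ideal A) (p : A[X]) {j : A[X]}
    (hj : j ∈ J.map (Polynomial.C : A →+* A[X])) :
    j %ₘ p ∈ J.map (Polynomial.C : A →+* A[X]) := by
  rw [Ideal.map] at hj
  refine Submodule.span_induction (p := fun x _ => ∀ q : A[X],
    (q * x) %ₘ p ∈ J.map (Polynomial.C : A →+* A[X])) ?_ ?_ ?_ ?_ hj 1 |> fun h => by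
      simpa using h
  · rintro x ⟨a, ha, rfl⟩ q
    have e : (q * Polynomial.C a) %ₘ p = Polynomial.C a * (q %ₘ p) := by
      rw [mul_comm, ← Polynomial.smul_eq_C_mul, Polynomial.smul_modByMonic,
        Polynomial.smul_eq_C_mul]
    rw [e]
    exact Ideal.mul_mem_right _ _ (Ideal.mem_map_of_mem _ ha)
  · intro q
    simp
  · intro x y _ _ hx hy q
    rw [mul_add, Polynomial.add_modByMonic]
    exact Ideal.add_mem _ (hx q) (hy q)
  · intro c x _ hx q
    rw [smul_eq_mul, ← mul_assoc]
    exact hx (q * c)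

theorem nz_one (J : Ideal A) (p : A[X]) (hp : p.Monic) {f : A} (hf : NZ J f) :
    NZ (J.map (Polynomial.C : A →+* A[X]) ⊔ Ideal.span {p}) (Polynomial.C f) := by
  intro m hm
  obtain ⟨j, hj, c, hc, hjc⟩ := Submodule.mem_sup.1 hm
  obtain ⟨m', rfl⟩ := Ideal.mem_span_singleton'.1 hc
  have h1 : (Polynomial.C f * m) %ₘ p = j %ₘ p := by
    rw [← hjc, Polynomial.add_modByMonic]
    have : (m' * p) %ₘ p = 0 := by
      rw [Polynomial.modByMonic_eq_zero_iff_dvd hp]
      exact Dvd.intro_left m' rfl
    rw [this, add_zero]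
  have h2 : Polynomial.C f * (m %ₘ p) ∈ J.map (Polynomial.C : A →+* A[X]) := by
    have e : (Polynomial.C f * m) %ₘ p = Polynomial.C f * (m %ₘ p) := by
      rw [← Polynomial.smul_eq_C_mul, Polynomial.smul_modByMonic, Polynomial.smul_eq_C_mul]
    rw [← e, h1]
    exact modByMonic_mem J p hj
  have h3 : m %ₘ p ∈ J.map (Polynomial.C : A →+* A[X]) := by
    rw [Ideal.mem_map_C_iff] at h2 ⊢
    intro n
    have := h2 n
    rw [Polynomial.coeff_C_mul] at this
    exact hf _ this
  have e : m = m %ₘ p + (m /ₘ p) * p := by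
    have := Polynomial.modByMonic_add_div m p
    rw [mul_comm p] at this
    exact this.symm
  rw [e]
  exact Submodule.add_mem_sup h3 (Ideal.mul_mem_left _ _ (Ideal.mem_span_singleton_self p))

end one

section fin

theorem nz_fin (n : ℕ) : ∀ (A : Type) [CommRing A] (J : Ideal A) (p : Fin n → Polynomial A)
    (_ : ∀ i, (p i).Monic) {f : A} (_ : NZ J f),
    NZ (J.map (C : A →+* MvPolynomial (Fin n) A) ⊔
      Ideal.span (Set.range fun i => (p i).eval₂ C (X i))) (C f) := by
  induction n with
  | zero =>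
    intro A _ J p _ f hf
    refine NZ.of_equiv (isEmptyAlgEquiv A (Fin 0)).toRingEquiv ?_
    have e1 : (J.map (C : A →+* MvPolynomial (Fin 0) A) ⊔
      Ideal.span (Set.range fun i => (p i).eval₂ C (X i))).map
        ((isEmptyAlgEquiv A (Fin 0)).toRingEquiv : MvPolynomial (Fin 0) A →+* A) = J := by
      rw [Set.range_eq_empty, Ideal.span_empty, sup_bot_eq, Ideal.map_map]
      have : ((isEmptyAlgEquiv A (Fin 0)).toRingEquiv : MvPolynomial (Fin 0) A →+* A).comp
          (C : A →+* MvPolynomial (Fin 0) A) = RingHom.id A := by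
        refine RingHom.ext fun a => ?_
        exact (isEmptyAlgEquiv A (Fin 0)).commutes a
      rw [this, Ideal.map_id]
    rw [e1]
    have e2 : (isEmptyAlgEquiv A (Fin 0)).toRingEquiv (C f) = f :=
      (isEmptyAlgEquiv A (Fin 0)).commutes f
    rw [e2]
    exact hf
  | succ n ih =>
    intro A _ J p hp f hf
    refine NZ.of_equiv (finSuccEquiv A n).toRingEquiv ?_
    have key := nz_one (J.map (C : A →+* MvPolynomial (Fin n) A) ⊔
      Ideal.span (Set.range fun i => (p (Fin.succ i)).eval₂ C (X i)))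
      ((p 0).map C) ((hp 0).map _) (ih A J (fun i => p i.succ) (fun i => hp _) hf)
    have e1 : (J.map (C : A →+* MvPolynomial (Fin (n + 1)) A) ⊔
      Ideal.span (Set.range fun i => (p i).eval₂ C (X i))).map
        ((finSuccEquiv A n).toRingEquiv :
          MvPolynomial (Fin (n + 1)) A →+* Polynomial (MvPolynomial (Fin n) A)) =
        (J.map (C : A →+* MvPolynomial (Fin n) A) ⊔
          Ideal.span (Set.range fun i => (p (Fin.succ i)).eval₂ C (X i))).map
          (Polynomial.C : MvPolynomial (Fin n) A →+* _) ⊔ Ideal.span {(p 0).map C} := by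
      rw [Ideal.map_sup, Ideal.map_sup, Ideal.map_map, Ideal.map_map, Ideal.map_span,
        Ideal.map_span]
      have h1 : ((finSuccEquiv A n).toRingEquiv :
          MvPolynomial (Fin (n + 1)) A →+* Polynomial (MvPolynomial (Fin n) A)).comp
          (C : A →+* MvPolynomial (Fin (n + 1)) A) =
          (Polynomial.C : MvPolynomial (Fin n) A →+* _).comp C := by
        refine RingHom.ext fun a => ?_
        exact (finSuccEquiv A n).commutes a
      have h2 : ∀ (q : Polynomial A) (i : Fin n), (finSuccEquiv A n).toRingEquiv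
          (q.eval₂ C (X i.succ)) = Polynomial.C (q.eval₂ C (X i)) := by
        intro q i
        have := Polynomial.hom_eval₂ q (C : A →+* MvPolynomial (Fin (n + 1)) A)
          ((finSuccEquiv A n).toRingEquiv :
          MvPolynomial (Fin (n + 1)) A →+* Polynomial (MvPolynomial (Fin n) A)) (X i.succ)
        have h3 := Polynomial.hom_eval₂ q (C : A →+* MvPolynomial (Fin n) A)
          (Polynomial.C : MvPolynomial (Fin n) A →+* _) (X i)
        rw [h3, ← h1]
        refine this.trans ?_
        congr 1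
        simp [finSuccEquiv_X_succ]
      have h3 : ∀ (q : Polynomial A), (finSuccEquiv A n).toRingEquiv
          (q.eval₂ C (X 0)) = q.map C := by
        intro q
        have := Polynomial.hom_eval₂ q (C : A →+* MvPolynomial (Fin (n + 1)) A)
          ((finSuccEquiv A n).toRingEquiv :
          MvPolynomial (Fin (n + 1)) A →+* Polynomial (MvPolynomial (Fin n) A)) (X 0)
        refine this.trans ?_
        rw [h1, Polynomial.map]
        congr 1
        simp [finSuccEquiv_X_zero]
      rw [h1, sup_assoc]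
      congr 1
      rw [← Ideal.span_union]
      congr 1
      ext x
      simp only [Set.mem_image, Set.mem_range, Set.mem_union, Set.mem_singleton_iff,
        exists_exists_eq_and]
      constructor
      · rintro ⟨i, rfl⟩
        induction i using Fin.cases with
        | zero => right; exact h3 _
        | succ i => left; exact ⟨i, (h2 _ _).symm⟩
      · rintro (⟨i, rfl⟩ | rfl)
        · exact ⟨i.succ, h2 _ _⟩
        · exact ⟨0, h3 _⟩
    rw [e1]
    have e2 : (finSuccEquiv A n).toRingEquiv (C f) = Polynomial.C (C f) := by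
      simp [finSuccEquiv_apply]
    rw [e2]
    exact key

end fin

section split

variable {σ : Type} [Finite σ] {k : Type} [CommRing k]

/-- View a polynomial ring as a polynomial ring in the variables satisfying `P` over the
polynomial ring in the others. -/
noncomputable def spl (σ : Type) [Finite σ] (k : Type) [CommRing k] (P : σ → Prop)
    [DecidablePred P] : MvPolynomial σ k ≃+*
      MvPolynomial (Fin (Nat.card {v // P v})) (MvPolynomial {v // ¬ P v} k) :=
  ((renameEquiv k (Equiv.sumCompl P).symm).toRingEquiv.trans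
    (sumRingEquiv k {v // P v} {v // ¬ P v})).trans
    (renameEquiv (MvPolynomial {v // ¬ P v} k) (Finite.equivFin {v // P v})).toRingEquiv

theorem spl_X (P : σ → Prop) [DecidablePred P] (v : σ) (hv : P v) :
    spl σ k P (X v) = X (Finite.equivFin {v // P v} ⟨v, hv⟩) := by
  have h1 : (Equiv.sumCompl P).symm v = Sum.inl ⟨v, hv⟩ :=
    Equiv.sumCompl_symm_apply_of_pos hv
  simp [spl, h1, sumRingEquiv_X_inl]

theorem spl_rename (P : σ → Prop) [DecidablePred P] (g : MvPolynomial {v // ¬ P v} k) :
    spl σ k P (rename Subtype.val g) = C g := by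
  have key : ((spl σ k P : MvPolynomial σ k →+*
        MvPolynomial (Fin (Nat.card {v // P v})) (MvPolynomial {v // ¬ P v} k)).comp
      ((rename Subtype.val : MvPolynomial {v // ¬ P v} k →ₐ[k] MvPolynomial σ k) :
        MvPolynomial {v // ¬ P v} k →+* MvPolynomial σ k)) = C := by
    refine MvPolynomial.ringHom_ext ?_ ?_
    · intro r
      simp [spl, sumRingEquiv_C]
    · rintro ⟨v, hv⟩
      have h1 : (Equiv.sumCompl P).symm v = Sum.inr ⟨v, hv⟩ :=
        Equiv.sumCompl_symm_apply_of_neg hv
      simp [spl, h1, sumRingEquiv_X_inr]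
  exact RingHom.congr_fun key g

theorem nz_split [IsDomain k] (P : σ → Prop) [DecidablePred P]
    (a : σ → MvPolynomial {v // ¬ P v} k) (d : σ → ℕ) (hd : ∀ v, P v → d v ≠ 0)
    {f : MvPolynomial {v // ¬ P v} k} (hf : f ≠ 0) :
    NZ (Ideal.span {x : MvPolynomial σ k | ∃ v, P v ∧ x = X v ^ d v - rename Subtype.val (a v)})
      (rename Subtype.val f) := by
  refine NZ.of_equiv (spl σ k P) ?_
  rw [spl_rename]
  have key := nz_fin (Nat.card {v // P v}) (MvPolynomial {v // ¬ P v} k) ⊥
    (fun i => Polynomial.X ^ d ((Finite.equivFin {v // P v}).symm i).1 -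
      Polynomial.C (a ((Finite.equivFin {v // P v}).symm i).1))
    (fun i => Polynomial.monic_X_pow_sub_C _ (hd _ ((Finite.equivFin {v // P v}).symm i).2))
    (f := f) (by
      intro m hm
      rw [Ideal.mem_bot] at hm ⊢
      exact (mul_eq_zero.1 hm).resolve_left hf)
  rw [Ideal.map_bot, bot_sup_eq] at key
  have e : Ideal.map ((spl σ k P : MvPolynomial σ k ≃+* MvPolynomial (Fin (Nat.card {v // P v}))
      (MvPolynomial {v // ¬ P v} k)) : MvPolynomial σ k →+* MvPolynomial
        (Fin (Nat.card {v // P v})) (MvPolynomial {v // ¬ P v} k))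
      (Ideal.span {x : MvPolynomial σ k | ∃ v, P v ∧ x = X v ^ d v - rename Subtype.val (a v)}) =
      Ideal.span (Set.range fun i : Fin (Nat.card {v // P v}) =>
        (Polynomial.X ^ d ((Finite.equivFin {v // P v}).symm i).1 -
          Polynomial.C (a ((Finite.equivFin {v // P v}).symm i).1)).eval₂ C (X i)) := by
    rw [Ideal.map_span]
    congr 1
    ext x
    simp only [Set.mem_image, Set.mem_ofPred_eq, Set.mem_range]
    constructor
    · rintro ⟨_, ⟨v, hv, rfl⟩, rfl⟩
      refine ⟨Finite.equivFin {v // P v} ⟨v, hv⟩, ?_⟩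
      rw [Equiv.symm_apply_apply]
      change _ = spl σ k P _
      rw [map_sub, map_pow, spl_X P v hv, spl_rename]
      simp
    · rintro ⟨i, rfl⟩
      refine ⟨_, ⟨((Finite.equivFin {v // P v}).symm i).1,
        ((Finite.equivFin {v // P v}).symm i).2, rfl⟩, ?_⟩
      change spl σ k P _ = _
      rw [map_sub, map_pow, spl_X P _ ((Finite.equivFin {v // P v}).symm i).2, spl_rename]
      simp
  rw [e]
  exact key

end split

end Pool.Agent.SSF.E2
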