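import Pool.Agent.SSF.QuotGr

/-!
Project SSF (MP_5928ba): the multigraded ring of the example.

`V = Fin 4 × Fin 4` indexes the generators `ξ_ij` (row `i`, column `j`, zero-based), `Lam` is the
grading group `ℤ^4 ⊕ (ℤ/2)^8`, `e v = deg ξ_v`.  For a commutative ring `k` with an element `s`
(in the application `17 = 0` and `s^2 = 3`), `R k s` is the quotient of `k[ξ_ij]` by the eight
relations `rel2`, `rel3`.
-/

namespace Pool.Agent.SSF

open MvPolynomial

/-- Index set of the sixteen generators. -/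
abbrev V : Type := Fin 4 × Fin 4

/-- The grading group. -/
abbrev Lam : Type := (Fin 4 → ℤ) × (Fin 8 → ZMod 2)

/-- Standard basis of the torsion part. -/
def u (i : Fin 8) : Fin 8 → ZMod 2 := Pi.single i 1

/-- Torsion part of the degrees. -/
def tt : Fin 4 → Fin 4 → (Fin 8 → ZMod 2) :=
  ![![0, u 0, u 1, u 0 + u 1],
    ![0, u 2, u 3, u 0 + u 2 + u 3],
    ![0, u 4, u 5, u 2 + u 4 + u 5],
    ![0, u 6, u 7, u 1 + u 3 + u 6 + u 7]]

/-- The degree of `ξ_v`. -/
def e (v : V) : Lam := (Pi.single v.1 1, tt v.1 v.2)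

/-- The class of a fibre of row `i`. -/
def Fc (i : Fin 4) : Lam := (Pi.single i 2, 0)

/-- The ample class `2 (F_1 + F_2 + F_3 + F_4)`. -/
def hh : Lam := (fun _ => 4, 0)

/-- The permutation of the generators which belongs to the Frobenius. -/
def sV : V → V
  | (0, 2) => (0, 3)
  | (0, 3) => (0, 2)
  | (1, 0) => (1, 1)
  | (1, 1) => (1, 0)
  | (1, 2) => (1, 3)
  | (1, 3) => (1, 2)
  | (2, 0) => (2, 1)
  | (2, 1) => (2, 0)
  | (2, 2) => (2, 3)
  | (2, 3) => (2, 2)
  | v => v

theorem sV_sV (v : V) : sV (sV v) = v := by revert v; decide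

/-- The action of the Frobenius on the grading group. -/
def sL : Lam →+ Lam where
  toFun x := (x.1, fun j => x.2 j + (if j = 0 then x.2 1 + x.2 3 else 0) +
    (if j = 2 then x.2 5 + ((x.1 1 : ℤ) : ZMod 2) else 0) +
    (if j = 4 then ((x.1 2 : ℤ) : ZMod 2) else 0))
  map_zero' := by
    refine Prod.ext rfl (funext fun j => ?_)
    simp
  map_add' x y := by
    refine Prod.ext rfl (funext fun j => ?_)
    simp only [Prod.fst_add, Prod.snd_add, Pi.add_apply, Int.cast_add]
    split_ifs <;> ring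

theorem sL_e (v : V) : sL (e v) = e (sV v) := by
  obtain ⟨i, j⟩ := v
  fin_cases i <;> fin_cases j <;> (refine Prod.ext rfl (funext fun l => ?_)) <;>
    (fin_cases l <;> decide)

theorem sL_hh : sL hh = hh := by
  refine Prod.ext rfl (funext fun l => ?_)
  fin_cases l <;> decide

/-- The classes fixed by the Frobenius. -/
def Lsig : AddSubgroup Lam where
  carrier := {x | sL x = x}
  zero_mem' := map_zero sL
  add_mem' := by
    intro a b (ha : sL a = a) (hb : sL b = b)
    change sL (a + b) = a + b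
    rw [map_add, ha, hb]
  neg_mem' := by
    intro a (ha : sL a = a)
    change sL (-a) = -a
    rw [map_neg, ha]

section ring

variable (k : Type*) [CommRing k] (s : k)

/-- Coefficients of the relations: `ξ_i2² = ca i ξ_i0² + cb i ξ_i1²`,
`ξ_i3² = cc i ξ_i0² + cd i ξ_i1²`. -/
def ca {k : Type*} [CommRing k] (s : k) : Fin 4 → k := ![1, 1 + (s + s), 1 + (s + s), 1]
/-- see `ca` -/
def cb {k : Type*} [CommRing k] (s : k) : Fin 4 → k := ![-s, -1, -1, -1]
/-- see `ca` -/
def cc {k : Type*} [CommRing k] (_ : k) : Fin 4 → k := ![1, -1, -1, 1]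
/-- see `ca` -/
def cd {k : Type*} [CommRing k] (s : k) : Fin 4 → k := ![s, 1 - (s + s), 1 - (s + s), 1]

/-- The relation for `ξ_i2²`. -/
noncomputable def rel2 (i : Fin 4) : MvPolynomial V k :=
  X (i, 2) ^ 2 - (C (ca s i) * X (i, 0) ^ 2 + C (cb s i) * X (i, 1) ^ 2)

/-- The relation for `ξ_i3²`. -/
noncomputable def rel3 (i : Fin 4) : MvPolynomial V k :=
  X (i, 3) ^ 2 - (C (cc s i) * X (i, 0) ^ 2 + C (cd s i) * X (i, 1) ^ 2)

/-- The ideal of relations. -/
noncomputable def relI : Ideal (MvPolynomial V k) :=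
  Ideal.span (Set.range (rel2 k s) ∪ Set.range (rel3 k s))

/-- The multigraded ring. -/
abbrev R : Type _ := MvPolynomial V k ⧸ relI k s

/-- The class of the generator `ξ_v`. -/
noncomputable def xi (v : V) : R k s := Ideal.Quotient.mk _ (X v)

theorem xi2_sq (i : Fin 4) : xi k s (i, 2) ^ 2 =
    algebraMap k _ (ca s i) * xi k s (i, 0) ^ 2 + algebraMap k _ (cb s i) * xi k s (i, 1) ^ 2 := by
  have h : rel2 k s i ∈ relI k s := Ideal.subset_span (Or.inl ⟨i, rfl⟩)
  exact (Ideal.Quotient.mk_eq_mk_iff_sub_mem _ _).2 h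

theorem xi3_sq (i : Fin 4) : xi k s (i, 3) ^ 2 =
    algebraMap k _ (cc s i) * xi k s (i, 0) ^ 2 + algebraMap k _ (cd s i) * xi k s (i, 1) ^ 2 := by
  have h : rel3 k s i ∈ relI k s := Ideal.subset_span (Or.inr ⟨i, rfl⟩)
  exact (Ideal.Quotient.mk_eq_mk_iff_sub_mem _ _).2 h

/-- The grading of the polynomial ring. -/
noncomputable instance polyGraded :
    GradedAlgebra (weightedHomogeneousSubmodule k e) := weightedGradedAlgebra k e

theorem two_e (v : V) : 2 • e v = Fc v.1 := by revert v; decide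

theorem isHom_sq (v : V) (i : Fin 4) (h : v.1 = i) :
    IsWeightedHomogeneous e (X v ^ 2 : MvPolynomial V k) (Fc i) := by
  have h1 := (isWeightedHomogeneous_X k e v).pow 2
  have h2 : 2 • e v = Fc i := by
    subst h
    exact two_e v
  rwa [h2] at h1

theorem rel2_hom (i : Fin 4) : IsWeightedHomogeneous e (rel2 k s i) (Fc i) := by
  unfold rel2
  refine (isHom_sq k _ _ rfl).sub (((isHom_sq k _ _ rfl).C_mul _).add ((isHom_sq k _ _ rfl).C_mul _))

theorem rel3_hom (i : Fin 4) : IsWeightedHomogeneous e (rel3 k s i) (Fc i) := by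
  unfold rel3
  refine (isHom_sq k _ _ rfl).sub (((isHom_sq k _ _ rfl).C_mul _).add ((isHom_sq k _ _ rfl).C_mul _))

theorem relI_hom : (relI k s).IsHomogeneous (weightedHomogeneousSubmodule k e) := by
  refine Ideal.homogeneous_span _ _ ?_
  rintro _ (⟨i, rfl⟩ | ⟨i, rfl⟩)
  · exact ⟨Fc i, rel2_hom k s i⟩
  · exact ⟨Fc i, rel3_hom k s i⟩

/-- The grading of `R k s`. -/
noncomputable def gr : Lam → Submodule k (R k s) :=
  quotGr (weightedHomogeneousSubmodule k e) (relI k s)

noncomputable instance gr_graded : GradedAlgebra (gr k s) :=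
  quotGradedAlgebra _ _ (relI_hom k s)

theorem xi_mem (v : V) : xi k s v ∈ gr k s (e v) := ⟨X v, isWeightedHomogeneous_X k e v, rfl⟩

end ring

section maps

variable {k k' : Type*} [CommRing k] [CommRing k'] {s : k} {s' : k'}

theorem map_rel2 (f : k →+* k') (h : f s = s') (i : Fin 4) :
    MvPolynomial.map f (rel2 k s i) = rel2 k' s' i := by
  subst h
  unfold rel2
  fin_cases i <;> simp [ca, cb]

theorem map_rel3 (f : k →+* k') (h : f s = s') (i : Fin 4) :
    MvPolynomial.map f (rel3 k s i) = rel3 k' s' i := by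
  subst h
  unfold rel3
  fin_cases i <;> simp [cc, cd]

theorem relI_le_comap (f : k →+* k') (h : f s = s') :
    relI k s ≤ (relI k' s').comap (MvPolynomial.map f) := by
  unfold relI
  rw [Ideal.span_le]
  rintro _ (⟨i, rfl⟩ | ⟨i, rfl⟩)
  · change MvPolynomial.map f (rel2 k s i) ∈ Ideal.span _
    rw [map_rel2 f h]
    exact Ideal.subset_span (Or.inl ⟨i, rfl⟩)
  · change MvPolynomial.map f (rel3 k s i) ∈ Ideal.span _
    rw [map_rel3 f h]
    exact Ideal.subset_span (Or.inr ⟨i, rfl⟩)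

/-- Functoriality of `R k s` in `(k, s)`. -/
noncomputable def mapR (f : k →+* k') (h : f s = s') : R k s →+* R k' s' :=
  Ideal.quotientMap _ (MvPolynomial.map f) (relI_le_comap f h)

/-- The semilinear map of polynomial rings inducing the Frobenius. -/
noncomputable def conjP (c : k →+* k) : MvPolynomial V k →+* MvPolynomial V k :=
  eval₂Hom (C.comp c) (fun v => X (sV v))

theorem conjP_rel2 (c : k →+* k) (h : c s = -s) (i : Fin 4) :
    conjP c (rel2 k s i) ∈ relI k s := by
  fin_cases i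
  · refine (?_ : conjP c (rel2 k s 0) = rel3 k s 0) ▸ Ideal.subset_span (Or.inr ⟨0, rfl⟩)
    simp [conjP, rel2, rel3, ca, cb, cc, cd, sV, h]
  · refine (?_ : conjP c (rel2 k s 1) = rel3 k s 1) ▸ Ideal.subset_span (Or.inr ⟨1, rfl⟩)
    simp [conjP, rel2, rel3, ca, cb, cc, cd, sV, h]
    ring
  · refine (?_ : conjP c (rel2 k s 2) = rel3 k s 2) ▸ Ideal.subset_span (Or.inr ⟨2, rfl⟩)
    simp [conjP, rel2, rel3, ca, cb, cc, cd, sV, h]
    ring
  · have h3 : conjP c (rel2 k s 3) = rel2 k s 3 := by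
      simp [conjP, rel2, ca, cb, sV]
    change conjP c (rel2 k s 3) ∈ relI k s
    rw [h3]
    exact Ideal.subset_span (Or.inl ⟨3, rfl⟩)

theorem conjP_rel3 (c : k →+* k) (h : c s = -s) (i : Fin 4) :
    conjP c (rel3 k s i) ∈ relI k s := by
  fin_cases i
  · refine (?_ : conjP c (rel3 k s 0) = rel2 k s 0) ▸ Ideal.subset_span (Or.inl ⟨0, rfl⟩)
    simp [conjP, rel2, rel3, ca, cb, cc, cd, sV, h]
  · refine (?_ : conjP c (rel3 k s 1) = rel2 k s 1) ▸ Ideal.subset_span (Or.inl ⟨1, rfl⟩)
    simp [conjP, rel2, rel3, ca, cb, cc, cd, sV, h]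
    ring
  · refine (?_ : conjP c (rel3 k s 2) = rel2 k s 2) ▸ Ideal.subset_span (Or.inl ⟨2, rfl⟩)
    simp [conjP, rel2, rel3, ca, cb, cc, cd, sV, h]
    ring
  · have h3 : conjP c (rel3 k s 3) = rel3 k s 3 := by
      simp [conjP, rel3, cc, cd, sV]
    change conjP c (rel3 k s 3) ∈ relI k s
    rw [h3]
    exact Ideal.subset_span (Or.inr ⟨3, rfl⟩)

theorem relI_le_comap_conj (c : k →+* k) (h : c s = -s) :
    relI k s ≤ (relI k s).comap (conjP c) := by
  conv_lhs => unfold relI
  rw [Ideal.span_le]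
  rintro _ (⟨i, rfl⟩ | ⟨i, rfl⟩)
  · exact conjP_rel2 c h i
  · exact conjP_rel3 c h i

/-- The semilinear endomorphism of `R k s` (the Frobenius of the example). -/
noncomputable def conjR (c : k →+* k) (h : c s = -s) : R k s →+* R k s :=
  Ideal.quotientMap _ (conjP c) (relI_le_comap_conj c h)

theorem conjR_xi (c : k →+* k) (h : c s = -s) (v : V) :
    conjR c h (xi k s v) = xi k s (sV v) := by
  change Ideal.Quotient.mk _ (conjP c (X v)) = _
  simp [conjP, xi]

theorem conjR_algebraMap (c : k →+* k) (h : c s = -s) (a : k) :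
    conjR c h (algebraMap k _ a) = algebraMap k _ (c a) := by
  change Ideal.Quotient.mk _ (conjP c (C a)) = _
  simp [conjP]
  rfl

end maps

end Pool.Agent.SSF
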