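import Pool.Agent.SSF.E2a
import Pool.Agent.SSF.XDefs

/-!
# SSF, E2b: concrete nonzerodivisors
-/

set_option autoImplicit false

namespace Pool.Agent.SSF.E2

open MvPolynomial

section

variable {k : Type} [Field k]

/-- The ideal of the equations `x_v ^ D v = a v`. -/
noncomputable def KI (D : V → ℕ) (a : V → MvPolynomial V k) : Ideal (MvPolynomial V k) :=
  Ideal.span {x | ∃ v : V, D v ≠ 0 ∧ x = X v ^ D v - a v}

theorem nz_KI (D : V → ℕ) (a : V → MvPolynomial V k)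
    (ha : ∀ v, D v ≠ 0 → a v ∈ supported k {v : V | D v = 0})
    {f : MvPolynomial V k} (hf : f ∈ supported k {v : V | D v = 0}) (hf0 : f ≠ 0) :
    NZ (KI D a) f := by
  have hlift : ∀ g ∈ supported k {v : V | D v = 0},
      ∃ g' : MvPolynomial {v : V // ¬ (D v ≠ 0)} k, rename Subtype.val g' = g := by
    intro g hg
    have h1 : {v : V | D v = 0} = Set.range
        (Subtype.val : {v : V // ¬ (D v ≠ 0)} → V) := by
      ext v
      simp
    rw [h1] at hg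
    rw [supported_eq_range_rename] at hg
    obtain ⟨g1, hg1⟩ := hg
    let e : Set.range (Subtype.val : {v : V // ¬ (D v ≠ 0)} → V) →
        {v : V // ¬ (D v ≠ 0)} := fun w => ⟨w.1, by
          obtain ⟨u, hu⟩ := w.2
          rw [← hu]; exact u.2⟩
    refine ⟨rename e g1, ?_⟩
    rw [rename_rename]
    exact hg1
  choose! L hL using hlift
  have key := nz_split (σ := V) (k := k) (fun v : V => D v ≠ 0)
    (fun v => L (a v)) (fun v => D v) (fun v hv => hv) (f := L f) (by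
      intro h
      apply hf0
      rw [← hL f hf, h, map_zero])
  rw [hL f hf] at key
  have e1 : KI D a = Ideal.span {x : MvPolynomial V k | ∃ v, D v ≠ 0 ∧
      x = X v ^ D v - rename Subtype.val (L (a v))} := by
    rw [KI]
    congr 1
    ext x
    simp only [Set.mem_ofPred_eq]
    constructor
    · rintro ⟨v, hv, rfl⟩
      exact ⟨v, hv, by rw [hL _ (ha _ hv)]⟩
    · rintro ⟨v, hv, rfl⟩
      exact ⟨v, hv, by rw [hL _ (ha _ hv)]⟩
  rw [e1]
  exact key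

theorem KI_step {D D' : V → ℕ} {a a' : V → MvPolynomial V k} (w : V) (d : ℕ) (hd : d ≠ 0)
    (b : MvPolynomial V k) (hw : D w = 0) (hD : ∀ v, D' v = if v = w then d else D v)
    (hb : a' w = b) (h : ∀ v, D v ≠ 0 → (X w ^ d - b) ∣ a v - a' v) :
    KI D a ⊔ Ideal.span {X w ^ d - b} = KI D' a' := by
  have hDw : D' w = d := by rw [hD]; simp
  have hDv : ∀ v, v ≠ w → D' v = D v := fun v hv => by rw [hD, if_neg hv]
  apply le_antisymm
  · have he : X w ^ d - b ∈ KI D' a' := by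
      refine Ideal.subset_span ⟨w, by rw [hDw]; exact hd, ?_⟩
      rw [hDw, hb]
    refine sup_le ?_ ((Ideal.span_singleton_le_iff_mem _).2 he)
    rw [KI, Ideal.span_le]
    rintro _ ⟨v, hv, rfl⟩
    have hvw : v ≠ w := by
      rintro rfl
      exact hv hw
    obtain ⟨c, hc⟩ := h v hv
    have e : X v ^ D v - a v = (X v ^ D' v - a' v) - (X w ^ d - b) * c := by
      rw [← hc, hDv v hvw]; ring
    rw [SetLike.mem_coe, e]
    refine Ideal.sub_mem _ (Ideal.subset_span ⟨v, by rwa [hDv v hvw], rfl⟩) ?_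
    exact Ideal.mul_mem_right _ _ he
  · rw [KI, Ideal.span_le]
    rintro _ ⟨v, hv, rfl⟩
    by_cases hvw : v = w
    · subst hvw
      rw [SetLike.mem_coe, hDw, hb]
      exact Ideal.mem_sup_right (Ideal.mem_span_singleton_self _)
    · rw [hDv v hvw] at hv ⊢
      obtain ⟨c, hc⟩ := h v hv
      have e : X v ^ D v - a' v = (X v ^ D v - a v) + (X w ^ d - b) * c := by
        rw [← hc]; ring
      rw [SetLike.mem_coe, e]
      exact Submodule.add_mem_sup (Ideal.subset_span ⟨v, hv, rfl⟩)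
        (Ideal.mul_mem_right _ _ (Ideal.mem_span_singleton_self _))

theorem C_two : (C (2 : k) : MvPolynomial V k) = 2 := map_ofNat C 2

/-- The variable `x_ij`. -/
noncomputable abbrev x (i j : Fin 4) : MvPolynomial V k := X (i, j)

variable (s : k)

def D0 : V → ℕ := fun v => (![![0,0,2,2], ![0,0,2,2], ![0,0,2,2], ![0,0,2,2]] :
  Fin 4 → Fin 4 → ℕ) v.1 v.2

noncomputable def r0 : Fin 4 → MvPolynomial V k :=
  ![0, 0, x 0 0 ^ 2 - C s * x 0 1 ^ 2, x 0 0 ^ 2 + C s * x 0 1 ^ 2]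
noncomputable def r1 : Fin 4 → MvPolynomial V k :=
  ![0, 0, C (1 + 2 * s) * x 1 0 ^ 2 - x 1 1 ^ 2, - x 1 0 ^ 2 + C (1 - 2 * s) * x 1 1 ^ 2]
noncomputable def r2 : Fin 4 → MvPolynomial V k :=
  ![0, 0, C (1 + 2 * s) * x 2 0 ^ 2 - x 2 1 ^ 2, - x 2 0 ^ 2 + C (1 - 2 * s) * x 2 1 ^ 2]
noncomputable def r3 : Fin 4 → MvPolynomial V k :=
  ![0, 0, x 3 0 ^ 2 - x 3 1 ^ 2, x 3 0 ^ 2 + x 3 1 ^ 2]
noncomputable def r2' : Fin 4 → MvPolynomial V k :=
  ![x 2 1 ^ 2, 0, C (2 * s) * x 2 1 ^ 2, - C (2 * s) * x 2 1 ^ 2]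
noncomputable def r3' : Fin 2 → Fin 4 → MvPolynomial V k :=
  ![![0, 0, - x 3 1 ^ 2, x 3 1 ^ 2], ![0, 0, x 3 0 ^ 2, x 3 0 ^ 2]]

noncomputable def a0 : V → MvPolynomial V k := fun v => ![r0 s, r1 s, r2 s, r3] v.1 v.2

theorem relI_eq : relI k s = KI D0 (a0 s) := by
  rw [relI, KI]
  congr 1
  ext y
  simp only [Set.mem_union, Set.mem_range, Set.mem_ofPred_eq, Prod.exists]
  constructor
  · rintro (⟨i, rfl⟩ | ⟨i, rfl⟩)
    · refine ⟨i, 2, ?_, ?_⟩
      · revert i; decide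
      · fin_cases i <;> simp [D0, a0, r0, r1, r2, r3, rel2, ca, cb, two_mul, sub_eq_add_neg]
    · refine ⟨i, 3, ?_, ?_⟩
      · revert i; decide
      · fin_cases i <;> simp [D0, a0, r0, r1, r2, r3, rel3, cc, cd, two_mul, sub_eq_add_neg]
  · rintro ⟨i, j, hv, rfl⟩
    fin_cases j
    · exact absurd (by revert i; decide) hv
    · exact absurd (by revert i; decide) hv
    · left
      refine ⟨i, ?_⟩
      fin_cases i <;> simp [D0, a0, r0, r1, r2, r3, rel2, ca, cb, two_mul, sub_eq_add_neg]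
    · right
      refine ⟨i, ?_⟩
      fin_cases i <;> simp [D0, a0, r0, r1, r2, r3, rel3, cc, cd, two_mul, sub_eq_add_neg]

/-- Tables: row `3` after setting `x_3a = 0`. -/
def d3 : Fin 2 → Fin 4 → ℕ := ![![1,0,2,2], ![0,1,2,2]]

def Dl : V → ℕ := fun v => (![![0,0,2,2], ![0,0,2,2], ![2,0,2,2], ![0,0,2,2]] :
  Fin 4 → Fin 4 → ℕ) v.1 v.2
noncomputable def al : V → MvPolynomial V k := fun v => ![r0 s, r1 s, r2' s, r3] v.1 v.2

def D1 (a : Fin 2) : V → ℕ := fun v => (![![0,0,2,2], ![0,0,2,2], ![2,0,2,2], d3 a] :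
  Fin 4 → Fin 4 → ℕ) v.1 v.2
noncomputable def a1 (a : Fin 2) : V → MvPolynomial V k :=
  fun v => ![r0 s, r1 s, r2' s, r3' a] v.1 v.2

noncomputable def r0' : Fin 4 → MvPolynomial V k := ![0, 0, - C s * x 0 1 ^ 2, C s * x 0 1 ^ 2]
noncomputable def r1' : Fin 4 → MvPolynomial V k :=
  ![- x 1 1 ^ 2, 0, - C (2 + 2 * s) * x 1 1 ^ 2, C (2 - 2 * s) * x 1 1 ^ 2]

def D2 (a : Fin 2) : V → ℕ := fun v => (![![1,0,2,2], ![0,0,2,2], ![2,0,2,2], d3 a] :
  Fin 4 → Fin 4 → ℕ) v.1 v.2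
noncomputable def a2 (a : Fin 2) : V → MvPolynomial V k :=
  fun v => ![r0' s, r1 s, r2' s, r3' a] v.1 v.2

def D3 (a : Fin 2) : V → ℕ := fun v => (![![0,0,2,2], ![0,0,2,2], ![2,1,2,2], d3 a] :
  Fin 4 → Fin 4 → ℕ) v.1 v.2
noncomputable def a3 (a : Fin 2) : V → MvPolynomial V k :=
  fun v => ![r0 s, r1 s, ![0, 0, 0, 0], r3' a] v.1 v.2

def D4 (a : Fin 2) : V → ℕ := fun v => (![![0,0,2,2], ![2,0,2,2], ![2,0,2,2], d3 a] :
  Fin 4 → Fin 4 → ℕ) v.1 v.2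
noncomputable def a4 (a : Fin 2) : V → MvPolynomial V k :=
  fun v => ![r0 s, r1' s, r2' s, r3' a] v.1 v.2

/-- The variable vanishing on `P_a`. -/
def va : Fin 2 → V := ![(3, 0), (3, 1)]

/-- The ideal of `P_a` in the polynomial ring. -/
noncomputable def Ja (a : Fin 2) : Ideal (MvPolynomial V k) :=
  relI k s ⊔ Ideal.span {x 2 0 ^ 2 - x 2 1 ^ 2} ⊔ Ideal.span {X (va a)}

theorem Ja_eq (a : Fin 2) : Ja s a = KI (D1 a) (a1 s a) := by
  have h1 : relI k s ⊔ Ideal.span {x 2 0 ^ 2 - x 2 1 ^ 2} = KI Dl (al s) := by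
    rw [relI_eq]
    refine KI_step (2, 0) 2 two_ne_zero _ rfl (by decide) rfl ?_
    rintro ⟨i, j⟩ hv
    fin_cases i
    · exact ⟨0, by simp [a0, al]⟩
    · exact ⟨0, by simp [a0, al]⟩
    · fin_cases j
      · exact absurd rfl hv
      · exact absurd rfl hv
      · refine ⟨C (1 + 2 * s), ?_⟩
        simp [a0, al, r2, r2']
        ring
      · refine ⟨-1, ?_⟩
        simp [a0, al, r2, r2']
        ring
    · exact ⟨0, by simp [a0, al]⟩
  rw [Ja, h1]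
  have h2 := KI_step (D := Dl) (D' := D1 a) (a := al s) (a' := a1 s a) (va a) 1 one_ne_zero 0
    (by revert a; decide) (by revert a; decide) (by fin_cases a <;> rfl) (by
      rintro ⟨i, j⟩ hv
      fin_cases i
      · exact ⟨0, by simp [a1, al]⟩
      · exact ⟨0, by simp [a1, al]⟩
      · exact ⟨0, by simp [a1, al]⟩
      · fin_cases j
        · exact absurd rfl hv
        · exact absurd rfl hv
        · fin_cases a
          · exact ⟨X (3, 0), by simp [a1, al, r3, r3', va]; ring⟩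
          · exact ⟨- X (3, 1), by simp [a1, al, r3, r3', va]; ring⟩
        · fin_cases a
          · exact ⟨X (3, 0), by simp [a1, al, r3, r3', va]; ring⟩
          · exact ⟨X (3, 1), by simp [a1, al, r3, r3', va]; ring⟩)
  simpa using h2

theorem J2_eq (a : Fin 2) : Ja s a ⊔ Ideal.span {x 0 0} = KI (D2 a) (a2 s a) := by
  rw [Ja_eq]
  have h2 := KI_step (D := D1 a) (D' := D2 a) (a := a1 s a) (a' := a2 s a) (0, 0) 1 one_ne_zero 0
    rfl (by revert a; decide) rfl (by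
      rintro ⟨i, j⟩ hv
      fin_cases i
      · fin_cases j
        · exact absurd rfl hv
        · exact absurd rfl hv
        · exact ⟨X (0, 0), by simp [a1, a2, r0, r0']; ring⟩
        · exact ⟨X (0, 0), by simp [a1, a2, r0, r0']; ring⟩
      · exact ⟨0, by simp [a1, a2]⟩
      · exact ⟨0, by simp [a1, a2]⟩
      · exact ⟨0, by simp [a1, a2]⟩)
  simpa using h2

theorem J3_eq (a : Fin 2) : Ja s a ⊔ Ideal.span {x 2 1} = KI (D3 a) (a3 s a) := by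
  rw [Ja_eq]
  have h2 := KI_step (D := D1 a) (D' := D3 a) (a := a1 s a) (a' := a3 s a) (2, 1) 1 one_ne_zero 0
    rfl (by revert a; decide) rfl (by
      rintro ⟨i, j⟩ hv
      fin_cases i
      · exact ⟨0, by simp [a1, a3]⟩
      · exact ⟨0, by simp [a1, a3]⟩
      · fin_cases j
        · exact ⟨X (2, 1), by simp [a1, a3, r2']; ring⟩
        · exact absurd rfl hv
        · exact ⟨C (2 * s) * X (2, 1), by simp [a1, a3, r2']; ring⟩
        · exact ⟨- C (2 * s) * X (2, 1), by simp [a1, a3, r2']; ring⟩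
      · exact ⟨0, by simp [a1, a3]⟩)
  simpa using h2

theorem J4_eq (a : Fin 2) : Ja s a ⊔ Ideal.span {x 1 0 ^ 2 + x 1 1 ^ 2} =
    KI (D4 a) (a4 s a) := by
  rw [Ja_eq]
  have h2 := KI_step (D := D1 a) (D' := D4 a) (a := a1 s a) (a' := a4 s a) (1, 0) 2 two_ne_zero
    (- x 1 1 ^ 2) rfl (by revert a; decide) rfl (by
      rintro ⟨i, j⟩ hv
      fin_cases i
      · exact ⟨0, by simp [a1, a4]⟩
      · fin_cases j
        · exact absurd rfl hv
        · exact absurd rfl hv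
        · exact ⟨C (1 + 2 * s), by simp [a1, a4, r1, r1', C_two]; ring⟩
        · exact ⟨-1, by simp [a1, a4, r1, r1', C_two]; ring⟩
      · exact ⟨0, by simp [a1, a4]⟩
      · exact ⟨0, by simp [a1, a4]⟩)
  rw [sub_neg_eq_add] at h2
  exact h2

theorem C_mem_supported (S : Set V) (c : k) : (C c : MvPolynomial V k) ∈ supported k S :=
  Subalgebra.algebraMap_mem _ c

theorem sq_mem_supp {S : Set V} {v : V} (h : v ∈ S) :
    (X v ^ 2 : MvPolynomial V k) ∈ supported k S :=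
  Subalgebra.pow_mem _ (X_mem_supported.2 h) 2

theorem csq_mem_supp {S : Set V} {v : V} (h : v ∈ S) (c : k) :
    (C c * X v ^ 2 : MvPolynomial V k) ∈ supported k S :=
  Subalgebra.mul_mem _ (C_mem_supported S c) (sq_mem_supp h)

theorem r0_mem {S : Set V} (h0 : ((0, 0) : V) ∈ S) (h1 : ((0, 1) : V) ∈ S) (j : Fin 4) :
    r0 s j ∈ supported k S := by
  fin_cases j
  · exact zero_mem _
  · exact zero_mem _
  · exact Subalgebra.sub_mem _ (sq_mem_supp h0) (csq_mem_supp h1 _)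
  · exact Subalgebra.add_mem _ (sq_mem_supp h0) (csq_mem_supp h1 _)

theorem r1_mem {S : Set V} (h0 : ((1, 0) : V) ∈ S) (h1 : ((1, 1) : V) ∈ S) (j : Fin 4) :
    r1 s j ∈ supported k S := by
  fin_cases j
  · exact zero_mem _
  · exact zero_mem _
  · exact Subalgebra.sub_mem _ (csq_mem_supp h0 _) (sq_mem_supp h1)
  · exact Subalgebra.add_mem _ (Subalgebra.neg_mem _ (sq_mem_supp h0)) (csq_mem_supp h1 _)

theorem r2'_mem {S : Set V} (h1 : ((2, 1) : V) ∈ S) (j : Fin 4) :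
    r2' s j ∈ supported k S := by
  fin_cases j
  · exact sq_mem_supp h1
  · exact zero_mem _
  · exact csq_mem_supp h1 _
  · change - C (2 * s) * x 2 1 ^ 2 ∈ supported k S
    rw [neg_mul]
    exact Subalgebra.neg_mem _ (csq_mem_supp h1 _)

theorem r0'_mem {S : Set V} (h1 : ((0, 1) : V) ∈ S) (j : Fin 4) :
    r0' s j ∈ supported k S := by
  fin_cases j
  · exact zero_mem _
  · exact zero_mem _
  · change - C s * x 0 1 ^ 2 ∈ supported k S
    rw [neg_mul]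
    exact Subalgebra.neg_mem _ (csq_mem_supp h1 _)
  · exact csq_mem_supp h1 _

theorem r1'_mem {S : Set V} (h1 : ((1, 1) : V) ∈ S) (j : Fin 4) :
    r1' s j ∈ supported k S := by
  fin_cases j
  · exact Subalgebra.neg_mem _ (sq_mem_supp h1)
  · exact zero_mem _
  · change - C (2 + 2 * s) * x 1 1 ^ 2 ∈ supported k S
    rw [neg_mul]
    exact Subalgebra.neg_mem _ (csq_mem_supp h1 _)
  · exact csq_mem_supp h1 _

theorem r3'_mem {S : Set V} (a : Fin 2) (h0 : a = 1 → ((3, 0) : V) ∈ S)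
    (h1 : a = 0 → ((3, 1) : V) ∈ S) (j : Fin 4) :
    (r3' a j : MvPolynomial V k) ∈ supported k S := by
  fin_cases a
  · fin_cases j
    · exact zero_mem _
    · exact zero_mem _
    · exact Subalgebra.neg_mem _ (sq_mem_supp (h1 rfl))
    · exact sq_mem_supp (h1 rfl)
  · fin_cases j
    · exact zero_mem _
    · exact zero_mem _
    · exact sq_mem_supp (h0 rfl)
    · exact sq_mem_supp (h0 rfl)

theorem mem_z {D : V → ℕ} {v : V} (h : D v = 0) : v ∈ {v : V | D v = 0} := h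

theorem supp1 (a : Fin 2) (v : V) : a1 s a v ∈ supported k {v : V | D1 a v = 0} := by
  obtain ⟨i, j⟩ := v
  fin_cases i
  · exact r0_mem s (mem_z rfl) (mem_z rfl) j
  · exact r1_mem s (mem_z rfl) (mem_z rfl) j
  · exact r2'_mem s (mem_z rfl) j
  · exact r3'_mem a (by rintro rfl; rfl) (by rintro rfl; rfl) j

theorem supp2 (a : Fin 2) (v : V) : a2 s a v ∈ supported k {v : V | D2 a v = 0} := by
  obtain ⟨i, j⟩ := v
  fin_cases i
  · exact r0'_mem s (mem_z rfl) j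
  · exact r1_mem s (mem_z rfl) (mem_z rfl) j
  · exact r2'_mem s (mem_z rfl) j
  · exact r3'_mem a (by rintro rfl; rfl) (by rintro rfl; rfl) j

theorem supp3 (a : Fin 2) (v : V) : a3 s a v ∈ supported k {v : V | D3 a v = 0} := by
  obtain ⟨i, j⟩ := v
  fin_cases i
  · exact r0_mem s (mem_z rfl) (mem_z rfl) j
  · exact r1_mem s (mem_z rfl) (mem_z rfl) j
  · fin_cases j <;> exact zero_mem _
  · exact r3'_mem a (by rintro rfl; rfl) (by rintro rfl; rfl) j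

theorem supp4 (a : Fin 2) (v : V) : a4 s a v ∈ supported k {v : V | D4 a v = 0} := by
  obtain ⟨i, j⟩ := v
  fin_cases i
  · exact r0_mem s (mem_z rfl) (mem_z rfl) j
  · exact r1'_mem s (mem_z rfl) j
  · exact r2'_mem s (mem_z rfl) j
  · exact r3'_mem a (by rintro rfl; rfl) (by rintro rfl; rfl) j

/-! Basic nonzerodivisors. -/

theorem nz1 (a : Fin 2) {f : MvPolynomial V k} (hf : f ∈ supported k {v : V | D1 a v = 0})
    (h0 : f ≠ 0) : NZ (Ja s a) f := by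
  rw [Ja_eq]
  exact nz_KI _ _ (fun v _ => supp1 s a v) hf h0

theorem nz2 (a : Fin 2) {f : MvPolynomial V k} (hf : f ∈ supported k {v : V | D2 a v = 0})
    (h0 : f ≠ 0) : NZ (Ja s a ⊔ Ideal.span {x 0 0}) f := by
  rw [J2_eq]
  exact nz_KI _ _ (fun v _ => supp2 s a v) hf h0

theorem nz3 (a : Fin 2) {f : MvPolynomial V k} (hf : f ∈ supported k {v : V | D3 a v = 0})
    (h0 : f ≠ 0) : NZ (Ja s a ⊔ Ideal.span {x 2 1}) f := by
  rw [J3_eq]
  exact nz_KI _ _ (fun v _ => supp3 s a v) hf h0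

theorem nz4 (a : Fin 2) {f : MvPolynomial V k} (hf : f ∈ supported k {v : V | D4 a v = 0})
    (h0 : f ≠ 0) : NZ (Ja s a ⊔ Ideal.span {x 1 0 ^ 2 + x 1 1 ^ 2}) f := by
  rw [J4_eq]
  exact nz_KI _ _ (fun v _ => supp4 s a v) hf h0

/-- the sum of two squares of distinct variables. -/
theorem add_sq_ne {v w : V} (h : v ≠ w) (c : k) :
    (X v ^ 2 + C c * X w ^ 2 : MvPolynomial V k) ≠ 0 := by
  intro h0
  have := congrArg (eval (fun u => if u = v then (1 : k) else 0)) h0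
  simp [Ne.symm h] at this

/-! The sections. -/

noncomputable def qW : MvPolynomial V k := x 2 0 * x 2 2 * x 1 0 + x 2 1 * x 2 3 * x 1 1
noncomputable def qm : MvPolynomial V k := x 2 0 * x 2 2 * x 1 0 - x 2 1 * x 2 3 * x 1 1
noncomputable def Y2 : MvPolynomial V k := C s * (x 0 2 * x 1 1 * x 1 2 - x 0 3 * x 1 0 * x 1 3)
noncomputable def Y1 : MvPolynomial V k := x 0 2 * x 1 1 * x 1 2 + x 0 3 * x 1 0 * x 1 3
noncomputable def be : MvPolynomial V k := C s * (x 1 0 ^ 2 - x 1 1 ^ 2)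
noncomputable def EE : MvPolynomial V k := x 1 0 ^ 2 + x 1 1 ^ 2
noncomputable def gg : MvPolynomial V k := C s * ((x 0 0 ^ 2 - C s * x 0 1 ^ 2) * x 1 1 ^ 2 *
  (C (1 + 2 * s) * x 1 0 ^ 2 - x 1 1 ^ 2) - (x 0 0 ^ 2 + C s * x 0 1 ^ 2) * x 1 0 ^ 2 *
  (- x 1 0 ^ 2 + C (1 - 2 * s) * x 1 1 ^ 2))

theorem gen_mem (a : Fin 2) (v : V) (hv : ∀ a, D1 a v ≠ 0) :
    X v ^ D1 a v - a1 s a v ∈ Ja s a := by
  rw [Ja_eq]
  exact Ideal.subset_span ⟨v, hv a, rfl⟩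

theorem qq_mem (a : Fin 2) (hs : s ≠ 0) (h2 : (2 : k) ≠ 0) :
    qW * (C ((2 * s)⁻¹) * qm) - x 2 1 ^ 4 * EE ∈ Ja s a := by
  have h20 : x 2 0 ^ 2 - x 2 1 ^ 2 ∈ Ja s a := gen_mem s a (2, 0) (by decide)
  have h22 : x 2 2 ^ 2 - C (2 * s) * x 2 1 ^ 2 ∈ Ja s a :=
    gen_mem s a (2, 2) (by decide)
  have h23 : x 2 3 ^ 2 - - C (2 * s) * x 2 1 ^ 2 ∈ Ja s a :=
    gen_mem s a (2, 3) (by decide)
  have hc : (C ((2 * s)⁻¹) : MvPolynomial V k) * C (2 * s) = 1 := by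
    rw [← C_mul, inv_mul_cancel₀ (mul_ne_zero h2 hs), C_1]
  have e : qW * (C ((2 * s)⁻¹) * qm) - x 2 1 ^ 4 * EE =
      (C ((2 * s)⁻¹) * x 2 2 ^ 2 * x 1 0 ^ 2) * (x 2 0 ^ 2 - x 2 1 ^ 2) +
      (C ((2 * s)⁻¹) * x 2 1 ^ 2 * x 1 0 ^ 2) * (x 2 2 ^ 2 - C (2 * s) * x 2 1 ^ 2) +
      (- C ((2 * s)⁻¹) * x 2 1 ^ 2 * x 1 1 ^ 2) * (x 2 3 ^ 2 - - C (2 * s) * x 2 1 ^ 2) := by
    rw [qW, qm, EE]
    linear_combination (x 2 1 ^ 4 * (x 1 0 ^ 2 + x 1 1 ^ 2)) * hc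
  rw [e]
  exact Ideal.add_mem _ (Ideal.add_mem _ (Ideal.mul_mem_left _ _ h20)
    (Ideal.mul_mem_left _ _ h22)) (Ideal.mul_mem_left _ _ h23)

theorem yy_mem (a : Fin 2) : Y2 s * Y1 - gg s ∈ Ja s a := by
  have h02 : x 0 2 ^ 2 - (x 0 0 ^ 2 - C s * x 0 1 ^ 2) ∈ Ja s a :=
    gen_mem s a (0, 2) (by decide)
  have h03 : x 0 3 ^ 2 - (x 0 0 ^ 2 + C s * x 0 1 ^ 2) ∈ Ja s a :=
    gen_mem s a (0, 3) (by decide)
  have h12 : x 1 2 ^ 2 - (C (1 + 2 * s) * x 1 0 ^ 2 - x 1 1 ^ 2) ∈ Ja s a :=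
    gen_mem s a (1, 2) (by decide)
  have h13 : x 1 3 ^ 2 - (- x 1 0 ^ 2 + C (1 - 2 * s) * x 1 1 ^ 2) ∈ Ja s a :=
    gen_mem s a (1, 3) (by decide)
  have e : Y2 s * Y1 - gg s =
      (C s * x 1 1 ^ 2 * x 1 2 ^ 2) * (x 0 2 ^ 2 - (x 0 0 ^ 2 - C s * x 0 1 ^ 2)) +
      (C s * x 1 1 ^ 2 * (x 0 0 ^ 2 - C s * x 0 1 ^ 2)) *
        (x 1 2 ^ 2 - (C (1 + 2 * s) * x 1 0 ^ 2 - x 1 1 ^ 2)) +
      ((- C s * x 1 0 ^ 2 * x 1 3 ^ 2) * (x 0 3 ^ 2 - (x 0 0 ^ 2 + C s * x 0 1 ^ 2)) +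
      (- C s * x 1 0 ^ 2 * (x 0 0 ^ 2 + C s * x 0 1 ^ 2)) *
        (x 1 3 ^ 2 - (- x 1 0 ^ 2 + C (1 - 2 * s) * x 1 1 ^ 2))) := by
    rw [Y2, Y1, gg]
    ring
  rw [e]
  exact Ideal.add_mem _ (Ideal.add_mem _ (Ideal.mul_mem_left _ _ h02)
    (Ideal.mul_mem_left _ _ h12)) (Ideal.add_mem _ (Ideal.mul_mem_left _ _ h03)
    (Ideal.mul_mem_left _ _ h13))

theorem EE_mem {S : Set V} (h0 : ((1, 0) : V) ∈ S) (h1 : ((1, 1) : V) ∈ S) :
    (EE : MvPolynomial V k) ∈ supported k S :=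
  Subalgebra.add_mem _ (sq_mem_supp h0) (sq_mem_supp h1)

theorem EE_ne : (EE : MvPolynomial V k) ≠ 0 := by
  have := add_sq_ne (k := k) (v := (1, 0)) (w := (1, 1)) (by decide) 1
  simpa [EE] using this

theorem be_mem {S : Set V} (h0 : ((1, 0) : V) ∈ S) (h1 : ((1, 1) : V) ∈ S) :
    be s ∈ supported k S :=
  Subalgebra.mul_mem _ (C_mem_supported _ _)
    (Subalgebra.sub_mem _ (sq_mem_supp h0) (sq_mem_supp h1))

theorem be_ne (hs : s ≠ 0) : be s ≠ 0 := by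
  have h1 := add_sq_ne (k := k) (v := (1, 0)) (w := (1, 1)) (by decide) (-1)
  rw [be]
  refine mul_ne_zero (by simpa using hs) ?_
  intro h
  apply h1
  rw [← h]
  simp
  ring

theorem gg_mem {S : Set V} (h00 : ((0, 0) : V) ∈ S) (h01 : ((0, 1) : V) ∈ S)
    (h0 : ((1, 0) : V) ∈ S) (h1 : ((1, 1) : V) ∈ S) : gg s ∈ supported k S := by
  rw [gg]
  refine Subalgebra.mul_mem _ (C_mem_supported _ _) (Subalgebra.sub_mem _
    (Subalgebra.mul_mem _ (Subalgebra.mul_mem _ (Subalgebra.sub_mem _ (sq_mem_supp h00)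
      (csq_mem_supp h01 _)) (sq_mem_supp h1)) (Subalgebra.sub_mem _ (csq_mem_supp h0 _)
      (sq_mem_supp h1)))
    (Subalgebra.mul_mem _ (Subalgebra.mul_mem _ (Subalgebra.add_mem _ (sq_mem_supp h00)
      (csq_mem_supp h01 _)) (sq_mem_supp h0)) (Subalgebra.add_mem _ (Subalgebra.neg_mem _
      (sq_mem_supp h0)) (csq_mem_supp h1 _))))

theorem gg_ne (hs : s ≠ 0) : gg s ≠ 0 := by
  intro h0
  have := congrArg (eval (fun u : V => if u = (0, 0) ∨ u = (1, 0) then (1 : k) else 0)) h0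
  simp [gg, hs] at this

theorem nz_qW (a : Fin 2) (hs : s ≠ 0) (h2 : (2 : k) ≠ 0) : NZ (Ja s a) qW := by
  have h1 : NZ (Ja s a) (x 2 1 ^ 4 * EE) := by
    refine nz1 s a ?_ (mul_ne_zero (pow_ne_zero _ (X_ne_zero _)) EE_ne)
    exact Subalgebra.mul_mem _ (Subalgebra.pow_mem _ (X_mem_supported.2 (mem_z rfl)) 4)
      (EE_mem (mem_z rfl) (mem_z rfl))
  exact (h1.congr (by
    have := Ideal.neg_mem_iff _ |>.2 (qq_mem s a hs h2)
    rwa [neg_sub] at this)).of_mul_left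

theorem nz_x00 (a : Fin 2) (hs : s ≠ 0) (h2 : (2 : k) ≠ 0) :
    NZ (Ja s a ⊔ Ideal.span {qW}) (x 0 0) := by
  refine NZ.swap (nz1 s a (X_mem_supported.2 (mem_z rfl)) (X_ne_zero _)) ?_
  have h1 : NZ (Ja s a ⊔ Ideal.span {x 0 0}) (x 2 1 ^ 4 * EE) := by
    refine nz2 s a ?_ (mul_ne_zero (pow_ne_zero _ (X_ne_zero _)) EE_ne)
    exact Subalgebra.mul_mem _ (Subalgebra.pow_mem _ (X_mem_supported.2 (mem_z rfl)) 4)
      (EE_mem (mem_z rfl) (mem_z rfl))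
  exact (h1.congr (by
    have := Ideal.neg_mem_iff _ |>.2 (qq_mem s a hs h2)
    rw [neg_sub] at this
    exact Ideal.mem_sup_left this)).of_mul_left

theorem nz_h_of (a : Fin 2) {f : MvPolynomial V k}
    (h3 : NZ (Ja s a ⊔ Ideal.span {x 2 1}) f) (h4 : NZ (Ja s a ⊔ Ideal.span {EE}) f) :
    NZ (Ja s a ⊔ Ideal.span {x 2 1 ^ 4 * EE}) f := by
  refine NZ.sup_mul (nz1 s a (EE_mem (mem_z rfl) (mem_z rfl)) EE_ne) (NZ.sup_pow ?_ h3 4) h4
  exact nz1 s a (X_mem_supported.2 (mem_z rfl)) (X_ne_zero _)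

theorem nz_be (a : Fin 2) (hs : s ≠ 0) (h2 : (2 : k) ≠ 0) :
    NZ (Ja s a ⊔ Ideal.span {qW}) (be s) := by
  have h4 : NZ (Ja s a ⊔ Ideal.span {EE}) (be s) := by
    have h5 : NZ (Ja s a ⊔ Ideal.span {EE}) (C (-(2 * s)) * x 1 1 ^ 2) := by
      refine nz4 s a (csq_mem_supp (mem_z rfl) _) ?_
      refine mul_ne_zero ?_ (pow_ne_zero _ (X_ne_zero _))
      simpa using And.intro h2 hs
    refine h5.congr ?_
    have e : (C (-(2 * s)) * x 1 1 ^ 2 - be s : MvPolynomial V k) = (- C s) * EE := by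
      rw [be, EE]
      simp only [map_neg, map_mul, C_two]
      ring
    rw [e]
    exact Ideal.mem_sup_right (Ideal.mul_mem_left _ _ (Ideal.mem_span_singleton_self _))
  refine NZ.of_norm (q' := C ((2 * s)⁻¹) * qm) (y' := 1) (h := x 2 1 ^ 4 * EE) (g := be s)
    (qq_mem s a hs h2) (by simp) ?_ (nz_h_of s a ?_ h4)
  · refine nz1 s a ?_ (mul_ne_zero (pow_ne_zero _ (X_ne_zero _)) EE_ne)
    exact Subalgebra.mul_mem _ (Subalgebra.pow_mem _ (X_mem_supported.2 (mem_z rfl)) 4)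
      (EE_mem (mem_z rfl) (mem_z rfl))
  · exact nz3 s a (be_mem s (mem_z rfl) (mem_z rfl)) (be_ne s hs)

theorem nz_gg (a : Fin 2) (hs : s ≠ 0) (h2 : (2 : k) ≠ 0) :
    NZ (Ja s a ⊔ Ideal.span {x 2 1 ^ 4 * EE}) (gg s) := by
  refine nz_h_of s a (nz3 s a (gg_mem s (mem_z rfl) (mem_z rfl) (mem_z rfl) (mem_z rfl))
    (gg_ne s hs)) ?_
  have h5 : NZ (Ja s a ⊔ Ideal.span {EE})
      (C (-(4 * s ^ 2)) * (x 0 0 ^ 2 + C (-1) * x 0 1 ^ 2) * (x 1 1 ^ 2) ^ 2) := by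
    refine nz4 s a ?_ ?_
    · refine Subalgebra.mul_mem _ (Subalgebra.mul_mem _ (C_mem_supported _ _)
        (Subalgebra.add_mem _ (sq_mem_supp (mem_z rfl)) (csq_mem_supp (mem_z rfl) _)))
        (Subalgebra.pow_mem _ (sq_mem_supp (mem_z rfl)) 2)
    · refine mul_ne_zero (mul_ne_zero ?_ (add_sq_ne (by decide) _))
        (pow_ne_zero _ (pow_ne_zero _ (X_ne_zero _)))
      have h4 : (4 : k) ≠ 0 := by
        have := mul_ne_zero h2 h2
        norm_num at this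
        exact this
      rw [Ne, C_eq_zero, neg_eq_zero]
      exact mul_ne_zero h4 (pow_ne_zero 2 hs)
  refine h5.congr ?_
  have e : (C (-(4 * s ^ 2)) * (x 0 0 ^ 2 + C (-1) * x 0 1 ^ 2) * (x 1 1 ^ 2) ^ 2 - gg s :
      MvPolynomial V k) = (- C s * ((x 0 0 ^ 2 - C s * x 0 1 ^ 2) * x 1 1 ^ 2 * C (1 + 2 * s) -
        (x 0 0 ^ 2 + C s * x 0 1 ^ 2) * (- x 1 0 ^ 2 + C (2 - 2 * s) * x 1 1 ^ 2))) * EE := by
    have h4 : (C (4 : k) : MvPolynomial V k) = 4 := map_ofNat C 4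
    rw [gg, EE]
    simp only [map_neg, map_mul, map_add, map_sub, map_pow, C_two, C_1, h4]
    ring
  rw [e]
  exact Ideal.mem_sup_right (Ideal.mul_mem_left _ _ (Ideal.mem_span_singleton_self _))

theorem nz_Y2 (a : Fin 2) (hs : s ≠ 0) (h2 : (2 : k) ≠ 0) :
    NZ (Ja s a ⊔ Ideal.span {qW}) (Y2 s) := by
  refine NZ.of_norm (q' := C ((2 * s)⁻¹) * qm) (y' := Y1) (h := x 2 1 ^ 4 * EE) (g := gg s)
    (qq_mem s a hs h2) (yy_mem s a) ?_ (nz_gg s a hs h2)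
  refine nz1 s a ?_ (mul_ne_zero (pow_ne_zero _ (X_ne_zero _)) EE_ne)
  exact Subalgebra.mul_mem _ (Subalgebra.pow_mem _ (X_mem_supported.2 (mem_z rfl)) 4)
    (EE_mem (mem_z rfl) (mem_z rfl))

end

end Pool.Agent.SSF.E2
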