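import Pool.Agent.SSF.XDefs
import Pool.Agent.SSF.CoxOf

/-!
Project SSF (MP_5928ba): the two Cox data of the example.

* `DS k s` : the split form over a ring `k` with `s` (all degrees `Lam`);
* `DF` : the form over `ZMod 17` (degrees `Lsig`).
-/

set_option autoImplicit false

namespace Pool.Agent.SSF

open MvPolynomial DirectSum

theorem hh_inj : ∀ n m : ℤ, n • hh = m • hh → n = m := by
  intro n m h
  have h1 := congrFun (congrArg Prod.fst h) 0
  simp only [Prod.smul_fst, Pi.smul_apply, hh, smul_eq_mul] at h1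
  omega

/-- The split Cox datum. -/
noncomputable def DS (k : Type) [CommRing k] (s : k) : Cox k := mkCox (gr k s) hh_inj

section conj

variable {k : Type*} [CommRing k] {s : k} (c : k →+* k)

theorem conjP_hom {γ : Lam} {p : MvPolynomial V k} (hp : IsWeightedHomogeneous e p γ) :
    IsWeightedHomogeneous e (conjP c p) (sL γ) := by
  rw [p.as_sum, map_sum]
  refine IsWeightedHomogeneous.sum _ _ _ fun d hd => ?_
  have hd' : Finsupp.weight e d = γ := hp (MvPolynomial.mem_support_iff.1 hd)
  have h1 : conjP c (monomial d (coeff d p)) =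
      C (c (coeff d p)) * d.prod fun v n => X (sV v) ^ n := by
    rw [conjP, coe_eval₂Hom, eval₂_monomial]
    rfl
  rw [h1]
  refine IsWeightedHomogeneous.C_mul ?_ _
  rw [Finsupp.prod]
  have h2 : sL γ = ∑ v ∈ d.support, d v • e (sV v) := by
    rw [← hd', Finsupp.weight_apply, Finsupp.sum, map_sum]
    refine Finset.sum_congr rfl fun v _ => ?_
    rw [map_nsmul, sL_e]
  rw [h2]
  exact IsWeightedHomogeneous.prod _ _ _ fun v _ => (isWeightedHomogeneous_X k e (sV v)).pow _

theorem conjR_mem (h : c s = -s) {γ : Lam} {x : R k s} (hx : x ∈ gr k s γ) :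
    conjR c h x ∈ gr k s (sL γ) := by
  obtain ⟨p, hp, rfl⟩ := hx
  exact ⟨conjP c p, conjP_hom c hp, rfl⟩

theorem sL_sL (γ : Lam) : sL (sL γ) = γ := by
  obtain ⟨a, b⟩ := γ
  refine Prod.ext rfl (funext fun j => ?_)
  have h2 : ∀ x y : ZMod 2, x + y + y = x := by decide
  fin_cases j <;> simp [sL, h2]

theorem conjR_decompose (h : c s = -s) (x : R k s) (γ : Lam) :
    conjR c h (decompose (gr k s) x γ : R k s) = (decompose (gr k s) (conjR c h x) (sL γ) : R k s) := by
  classical
  induction x using DirectSum.Decomposition.inductionOn (gr k s) with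
  | zero => simp
  | @homogeneous i m =>
    rw [decompose_of_mem (gr k s) m.2, decompose_of_mem (gr k s) (conjR_mem c h m.2)]
    by_cases hij : i = γ
    · subst hij
      rw [of_eq_same, of_eq_same]
    · rw [of_eq_of_ne _ _ _ (Ne.symm hij), of_eq_of_ne _ _ _ ?_]
      · simp
      · intro h1
        apply hij
        rw [← sL_sL i, ← h1, sL_sL]
  | add a b ha hb =>
    rw [decompose_add, DirectSum.add_apply, Submodule.coe_add, map_add, ha, hb, map_add,
      decompose_add, DirectSum.add_apply, Submodule.coe_add]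

theorem conjR_conjR (h : c s = -s) (hc : ∀ a, c (c a) = a) (x : R k s) :
    conjR c h (conjR c h x) = x := by
  obtain ⟨p, rfl⟩ := Ideal.Quotient.mk_surjective x
  change Ideal.Quotient.mk _ (conjP c (conjP c p)) = _
  congr 1
  induction p using MvPolynomial.induction_on with
  | C a => simp [conjP, hc]
  | add p q hp hq => rw [map_add, map_add, hp, hq]
  | mul_X p v hp => rw [map_mul, map_mul, hp]; simp [conjP, sV_sV]

end conj

section Fform

/-- The field with 17 elements. -/
abbrev F17 : Type := ZMod 17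

instance : Fact (Nat.Prime 17) := ⟨by norm_num⟩

instance : Fact (∀ r : ZMod 17, r ^ 2 ≠ 3 + 0 * r) := ⟨by decide⟩

/-- The field with `17^2` elements. -/
abbrev F2 : Type := QuadraticAlgebra (ZMod 17) 3 0

/-- The square root of `3`. -/
def sF : F2 := QuadraticAlgebra.omega

theorem sF_sq : sF ^ 2 = 3 := by
  refine QuadraticAlgebra.ext ?_ ?_ <;>
    simp [sF, sq, QuadraticAlgebra.re_ofNat, QuadraticAlgebra.im_ofNat]

/-- The Frobenius of `F2`. -/
def starF : F2 →+* F2 := starRingEnd F2

theorem starF_sF : starF sF = -sF := by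
  refine QuadraticAlgebra.ext ?_ ?_ <;> simp [sF, starF, starRingEnd_apply]

theorem starF_starF (a : F2) : starF (starF a) = a := star_star a

/-- The Frobenius of the split ring over `F2`. -/
noncomputable def sigR : R F2 sF →+* R F2 sF := conjR starF starF_sF

/-- The `F17`-form of the multigraded ring: Frobenius invariants with degrees in `Lsig`. -/
noncomputable def RF : Subalgebra F17 (R F2 sF) where
  carrier := {x | sigR x = x ∧ ∀ γ, γ ∉ Lsig → (decompose (gr F2 sF) x γ : R F2 sF) = 0}
  mul_mem' := by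
    rintro x y ⟨hx1, hx2⟩ ⟨hy1, hy2⟩
    refine ⟨by rw [map_mul, hx1, hy1], fun γ hγ => ?_⟩
    classical
    rw [DirectSum.decompose_mul, DirectSum.mul_eq_dfinsuppSum, DFinsupp.sum,
      DFinsupp.finsetSum_apply]
    rw [AddSubmonoidClass.coe_finsetSum]
    refine Finset.sum_eq_zero fun i _ => ?_
    rw [DFinsupp.sum, DFinsupp.finsetSum_apply, AddSubmonoidClass.coe_finsetSum]
    refine Finset.sum_eq_zero fun j _ => ?_
    by_cases hij : i + j = γ
    · have : i ∉ Lsig ∨ j ∉ Lsig := by
        by_contra hc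
        push Not at hc
        exact hγ (hij ▸ Lsig.add_mem hc.1 hc.2)
      subst hij
      rw [DirectSum.of_eq_same]
      change (DirectSum.decompose (gr F2 sF) x i : R F2 sF) *
        (DirectSum.decompose (gr F2 sF) y j : R F2 sF) = 0
      rcases this with h1 | h1
      · rw [hx2 i h1, zero_mul]
      · rw [hy2 j h1, mul_zero]
    · rw [DirectSum.of_eq_of_ne _ _ _ (Ne.symm hij)]
      rfl
  add_mem' := by
    rintro x y ⟨hx1, hx2⟩ ⟨hy1, hy2⟩
    refine ⟨by rw [map_add, hx1, hy1], fun γ hγ => ?_⟩
    rw [DirectSum.decompose_add, DirectSum.add_apply, Submodule.coe_add, hx2 γ hγ, hy2 γ hγ,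
      add_zero]
  algebraMap_mem' := by
    intro c
    refine ⟨?_, fun γ hγ => ?_⟩
    · have h1 : algebraMap F17 (R F2 sF) c = algebraMap F2 (R F2 sF) (algebraMap F17 F2 c) :=
        IsScalarTower.algebraMap_apply _ _ _ _
      rw [h1, sigR, conjR_algebraMap]
      congr 1
      refine QuadraticAlgebra.ext ?_ ?_ <;> simp [starF, starRingEnd_apply]
    · have h1 : algebraMap F17 (R F2 sF) c ∈ gr F2 sF 0 := by
        rw [IsScalarTower.algebraMap_apply F17 F2 (R F2 sF)]
        exact SetLike.algebraMap_mem_graded (gr F2 sF) _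
      rw [DirectSum.decompose_of_mem _ h1, DirectSum.of_eq_of_ne]
      · rfl
      · rintro rfl
        exact hγ Lsig.zero_mem

/-- The grading of the `F17`-form. -/
noncomputable def grF : Lsig → Submodule F17 RF := subGr (gr F2 sF) RF Lsig.subtype

noncomputable instance grF_graded : GradedAlgebra grF := by
  refine subGradedAlgebra (gr F2 sF) RF Lsig.subtype Subtype.val_injective ?_ ?_
  · rintro x ⟨hx1, hx2⟩ γ
    by_cases hγ : γ ∈ Lsig
    · refine ⟨?_, fun δ hδ => ?_⟩
      · rw [sigR, conjR_decompose, ← sigR, hx1]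
        have : sL γ = γ := hγ
        rw [this]
      · rw [decompose_of_mem _ (decompose (gr F2 sF) x γ).2, of_eq_of_ne]
        · rfl
        · rintro rfl
          exact hδ hγ
    · rw [hx2 γ hγ]
      exact zero_mem _
  · rintro x ⟨_, hx2⟩ γ hγ
    refine hx2 γ fun h => hγ ⟨⟨γ, h⟩, rfl⟩

/-- The ample class in `Lsig`. -/
def hF : Lsig := ⟨hh, sL_hh⟩

theorem hF_inj : ∀ n m : ℤ, n • hF = m • hF → n = m := by
  intro n m h
  exact hh_inj n m (congrArg Subtype.val h)

/-- The Cox datum over `F17`. -/
noncomputable def DF : Cox F17 := mkCox grF hF_inj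

end Fform

end Pool.Agent.SSF
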