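import Pool.Agent.SSF.E2b
import Pool.Agent.SSF.XCox

/-!
# SSF, E2c: the nonzerodivisors in `R k s` and in the `F17`-form `RF`
-/

set_option autoImplicit false

namespace Pool.Agent.SSF.E2

open MvPolynomial DirectSum

theorem NZ.quot {A : Type*} [CommRing A] {I K : Ideal A} {f : A} (h : NZ (I ⊔ K) f) :
    NZ (K.map (Ideal.Quotient.mk I)) (Ideal.Quotient.mk I f) := by
  intro m hm
  obtain ⟨m, rfl⟩ := Ideal.Quotient.mk_surjective m
  have hc : (K.map (Ideal.Quotient.mk I)).comap (Ideal.Quotient.mk I) = I ⊔ K := by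
    rw [Ideal.comap_map_of_surjective _ Ideal.Quotient.mk_surjective, sup_comm]
    congr 1
    rw [← RingHom.ker_eq_comap_bot, Ideal.mk_ker]
  have h1 : f * m ∈ I ⊔ K := by
    rw [← hc, Ideal.mem_comap, map_mul]
    exact hm
  have h2 := h m h1
  rw [← hc, Ideal.mem_comap] at h2
  exact h2

section split

variable {k : Type} [Field k] (s : k)

/-- The ideal of `P_a` in `R k s`. -/
noncomputable def JR (a : Fin 2) : Ideal (R k s) :=
  Ideal.span {xi k s (2, 0) ^ 2 - xi k s (2, 1) ^ 2, xi k s (va a)}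

/-- The section `q_W`. -/
noncomputable def qR : R k s :=
  xi k s (2, 0) * xi k s (2, 2) * xi k s (1, 0) + xi k s (2, 1) * xi k s (2, 3) * xi k s (1, 1)

/-- The section `Y_2`. -/
noncomputable def Y2R : R k s := algebraMap k _ s *
  (xi k s (0, 2) * xi k s (1, 1) * xi k s (1, 2) - xi k s (0, 3) * xi k s (1, 0) * xi k s (1, 3))

/-- The section `beta`. -/
noncomputable def beR : R k s := algebraMap k _ s * (xi k s (1, 0) ^ 2 - xi k s (1, 1) ^ 2)

theorem map_Ja (a : Fin 2) :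
    (Ideal.span {x 2 0 ^ 2 - x 2 1 ^ 2} ⊔ Ideal.span {X (va a)} :
      Ideal (MvPolynomial V k)).map (Ideal.Quotient.mk (relI k s)) = JR s a := by
  rw [Ideal.map_sup, Ideal.map_span, Ideal.map_span, Set.image_singleton, Set.image_singleton,
    JR, Ideal.span_insert]
  rfl

theorem JR_qR (a : Fin 2) (hs : s ≠ 0) (h2 : (2 : k) ≠ 0) : NZ (JR s a) (qR s) := by
  rw [← map_Ja]
  refine NZ.quot (f := qW) ?_
  rw [← sup_assoc]
  exact nz_qW s a hs h2

theorem JR_aux (a : Fin 2) {f : MvPolynomial V k} (h : NZ (Ja s a ⊔ Ideal.span {qW}) f) :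
    NZ (JR s a ⊔ Ideal.span {qR s}) (Ideal.Quotient.mk (relI k s) f) := by
  have e : JR s a ⊔ Ideal.span {qR s} = ((Ideal.span {x 2 0 ^ 2 - x 2 1 ^ 2} ⊔
      Ideal.span {X (va a)}) ⊔ Ideal.span {qW} : Ideal (MvPolynomial V k)).map
        (Ideal.Quotient.mk (relI k s)) := by
    rw [Ideal.map_sup, map_Ja, Ideal.map_span, Set.image_singleton]
    rfl
  rw [e]
  refine NZ.quot (f := f) ?_
  rw [← sup_assoc, ← sup_assoc]
  exact h

theorem JR_x00 (a : Fin 2) (hs : s ≠ 0) (h2 : (2 : k) ≠ 0) :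
    NZ (JR s a ⊔ Ideal.span {qR s}) (xi k s (0, 0)) :=
  JR_aux s a (nz_x00 s a hs h2)

theorem JR_Y2 (a : Fin 2) (hs : s ≠ 0) (h2 : (2 : k) ≠ 0) :
    NZ (JR s a ⊔ Ideal.span {qR s}) (Y2R s) :=
  JR_aux s a (nz_Y2 s a hs h2)

theorem JR_be (a : Fin 2) (hs : s ≠ 0) (h2 : (2 : k) ≠ 0) :
    NZ (JR s a ⊔ Ideal.span {qR s}) (beR s) :=
  JR_aux s a (nz_be s a hs h2)

end split

section descent

/-- Projection on the degrees in `Lsig`. -/
noncomputable def PL : R F2 sF →+ R F2 sF := by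
  classical
  exact (DirectSum.toAddMonoid (fun γ => if γ ∈ Lsig then
    ((gr F2 sF γ).subtype.toAddMonoidHom : gr F2 sF γ →+ R F2 sF) else 0)).comp
    (DirectSum.decomposeAddEquiv (gr F2 sF)).toAddMonoidHom

theorem PL_of_mem {γ : Lam} {x : R F2 sF} (hx : x ∈ gr F2 sF γ) (hγ : γ ∈ Lsig) : PL x = x := by
  classical
  unfold PL
  simp only [AddMonoidHom.comp_apply]
  change DirectSum.toAddMonoid _ (DirectSum.decompose (gr F2 sF) x) = _
  rw [DirectSum.decompose_of_mem _ hx, DirectSum.toAddMonoid_of, if_pos hγ]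
  rfl

theorem PL_of_mem' {γ : Lam} {x : R F2 sF} (hx : x ∈ gr F2 sF γ) (hγ : γ ∉ Lsig) :
    PL x = 0 := by
  classical
  unfold PL
  simp only [AddMonoidHom.comp_apply]
  change DirectSum.toAddMonoid _ (DirectSum.decompose (gr F2 sF) x) = _
  rw [DirectSum.decompose_of_mem _ hx, DirectSum.toAddMonoid_of, if_neg hγ]
  rfl

/-- `x` has only degrees in `Lsig`. -/
def InL (x : R F2 sF) : Prop := ∀ γ, γ ∉ Lsig → (decompose (gr F2 sF) x γ : R F2 sF) = 0

theorem InL.add {x y : R F2 sF} (hx : InL x) (hy : InL y) : InL (x + y) := by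
  intro γ hγ
  rw [DirectSum.decompose_add, DirectSum.add_apply, Submodule.coe_add, hx γ hγ, hy γ hγ,
    add_zero]

theorem PL_InL (x : R F2 sF) : InL (PL x) := by
  classical
  induction x using DirectSum.Decomposition.inductionOn (gr F2 sF) with
  | zero => intro γ _; simp
  | @homogeneous i m =>
    by_cases hi : i ∈ Lsig
    · rw [PL_of_mem m.2 hi]
      intro γ hγ
      rw [decompose_of_mem _ m.2, of_eq_of_ne]
      · rfl
      · rintro rfl
        exact hγ hi
    · rw [PL_of_mem' m.2 hi]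
      intro γ _; simp
  | add a b ha hb => rw [map_add]; exact ha.add hb

theorem PL_mul (y : R F2 sF) (hy : InL y) (x : R F2 sF) : PL (y * x) = y * PL x := by
  classical
  have hsum : ∑ β ∈ (decompose (gr F2 sF) y).support, (decompose (gr F2 sF) y β : R F2 sF) = y :=
    DirectSum.sum_support_decompose (gr F2 sF) y
  induction x using DirectSum.Decomposition.inductionOn (gr F2 sF) with
  | zero => simp
  | @homogeneous i m =>
    conv_lhs => rw [← hsum]
    conv_rhs => rw [← hsum]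
    rw [Finset.sum_mul, Finset.sum_mul, map_sum]
    refine Finset.sum_congr rfl fun β _ => ?_
    by_cases hβ : β ∈ Lsig
    · have h1 : (decompose (gr F2 sF) y β : R F2 sF) * (m : R F2 sF) ∈ gr F2 sF (β + i) :=
        SetLike.mul_mem_graded (SetLike.coe_mem _) m.2
      by_cases hi : i ∈ Lsig
      · rw [PL_of_mem h1 (Lsig.add_mem hβ hi), PL_of_mem m.2 hi]
      · rw [PL_of_mem' h1 (fun h => hi ((Lsig.add_mem_cancel_left hβ).1 h)),
          PL_of_mem' m.2 hi, mul_zero]
    · rw [hy β hβ, zero_mul, zero_mul, map_zero]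
  | add a b ha hb => rw [mul_add, map_add, map_add, ha, hb, mul_add]

theorem PL_eq (x : R F2 sF) (hx : InL x) : PL x = x := by
  have h1 := PL_mul x hx 1
  rw [mul_one] at h1
  rw [h1, PL_of_mem (SetLike.one_mem_graded (gr F2 sF)) Lsig.zero_mem, mul_one]

theorem sig_InL {x : R F2 sF} (hx : InL x) : InL (sigR x) := by
  intro γ hγ
  have h1 := conjR_decompose starF starF_sF x (sL γ)
  rw [sL_sL] at h1
  rw [sigR, ← h1, hx (sL γ) ?_, map_zero]
  intro h
  apply hγ
  have h2 : sL (sL γ) = sL γ := h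
  rw [sL_sL] at h2
  exact h2.symm

theorem sig_sig (x : R F2 sF) : sigR (sigR x) = x :=
  conjR_conjR starF starF_sF starF_starF x

/-- The retraction of `R F2 sF` onto `RF`. -/
noncomputable def ret (x : R F2 sF) : R F2 sF := 9 * (PL x + sigR (PL x))

theorem ret_add (x y : R F2 sF) : ret (x + y) = ret x + ret y := by
  unfold ret
  simp only [map_add]
  ring

theorem ret_zero : ret 0 = 0 := by simp [ret]

theorem ret_mem (x : R F2 sF) : ret x ∈ RF := by
  have h9 : (9 : R F2 sF) ∈ RF := by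
    have := RF.algebraMap_mem 9
    rwa [map_ofNat] at this
  refine RF.mul_mem h9 ⟨?_, ?_⟩
  · rw [map_add, sig_sig, add_comm]
  · exact (PL_InL x).add (sig_InL (PL_InL x))

theorem ret_mul (y : RF) (x : R F2 sF) : ret ((y : R F2 sF) * x) = y * ret x := by
  unfold ret
  rw [PL_mul _ y.2.2, map_mul, y.2.1]
  ring

theorem ret_coe (y : RF) : ret (y : R F2 sF) = y := by
  unfold ret
  rw [PL_eq _ y.2.2, y.2.1]
  have h17 : (17 : R F2 sF) = 0 := by
    have h1 : (17 : R F2 sF) = algebraMap F17 (R F2 sF) 17 := by rw [map_ofNat]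
    rw [h1]
    have : (17 : F17) = 0 := by decide
    rw [this, map_zero]
  linear_combination (y : R F2 sF) * h17

/-- Ideals of `RF` are contracted from `R F2 sF`. -/
theorem contract (J : Ideal RF) (x : RF)
    (hx : (x : R F2 sF) ∈ J.map (algebraMap RF (R F2 sF))) : x ∈ J := by
  have key : ∀ z ∈ J.map (algebraMap RF (R F2 sF)), ∀ r : R F2 sF,
      ∃ w ∈ J, (w : R F2 sF) = ret (r * z) := by
    intro z hz
    rw [Ideal.map] at hz
    refine Submodule.span_induction (p := fun z _ => ∀ r : R F2 sF,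
      ∃ w ∈ J, (w : R F2 sF) = ret (r * z)) ?_ ?_ ?_ ?_ hz
    · rintro _ ⟨j, hj, rfl⟩ r
      refine ⟨j * ⟨ret r, ret_mem r⟩, J.mul_mem_right _ hj, ?_⟩
      rw [mul_comm r]
      exact (ret_mul j r).symm
    · intro r
      exact ⟨0, J.zero_mem, by rw [mul_zero, ret_zero]; rfl⟩
    · intro a b _ _ ha hb r
      obtain ⟨w1, h1, e1⟩ := ha r
      obtain ⟨w2, h2, e2⟩ := hb r
      refine ⟨w1 + w2, J.add_mem h1 h2, ?_⟩
      rw [mul_add, ret_add, ← e1, ← e2]
      rfl
    · intro c a _ ha r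
      obtain ⟨w1, h1, e1⟩ := ha (r * c)
      exact ⟨w1, h1, by rw [e1, smul_eq_mul, mul_assoc]⟩
  obtain ⟨w, hw, e⟩ := key _ hx 1
  rw [one_mul, ret_coe] at e
  rwa [← Subtype.ext e]

theorem NZ.down {J : Ideal RF} {f : RF}
    (h : NZ (J.map (algebraMap RF (R F2 sF))) (f : R F2 sF)) : NZ J f := by
  intro m hm
  refine contract J m (h _ ?_)
  exact Ideal.mem_map_of_mem (algebraMap RF (R F2 sF)) hm

end descent

section final

theorem sF_ne : sF ≠ 0 := by
  intro h
  have := sF_sq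
  rw [h] at this
  have h3 : (3 : F2) ≠ 0 := by decide
  exact h3 (by rw [← this]; simp)

theorem two_F2 : (2 : F2) ≠ 0 := by decide

variable (a : Fin 2) {l v q : RF}
  (hl : (l : R F2 sF) = algebraMap F2 (R F2 sF) sF * (xi F2 sF (2, 0) ^ 2 - xi F2 sF (2, 1) ^ 2))
  (hv : (v : R F2 sF) = xi F2 sF (va a)) (hq : (q : R F2 sF) = qR sF)

theorem sF_unit : IsUnit (algebraMap F2 (R F2 sF) sF) :=
  (isUnit_iff_ne_zero.2 sF_ne).map _

include hl hv in
theorem map_span : (Ideal.span {v, l}).map (algebraMap RF (R F2 sF)) = JR sF a := by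
  rw [Ideal.map_span, Set.image_pair, JR]
  change Ideal.span {(v : R F2 sF), (l : R F2 sF)} = _
  rw [hl, hv, Set.pair_comm, Ideal.span_insert, Ideal.span_insert,
    Ideal.span_singleton_mul_left_unit sF_unit]

include hl hv hq in
theorem map_span2 : (Ideal.span {v, l} ⊔ Ideal.span {q}).map (algebraMap RF (R F2 sF)) =
    JR sF a ⊔ Ideal.span {qR sF} := by
  rw [Ideal.map_sup, map_span a hl hv, Ideal.map_span, Set.image_singleton]
  change _ ⊔ Ideal.span {(q : R F2 sF)} = _
  rw [hq]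

include hl hv hq in
/-- `q_W` is a nonzerodivisor on `M_a`. -/
theorem RF_q : NZ (Ideal.span {v, l}) q := by
  apply NZ.down
  rw [map_span a hl hv, hq]
  exact JR_qR sF a sF_ne two_F2

include hl hv hq in
/-- `ξ11` is a nonzerodivisor on `M_a / q_W`. -/
theorem RF_x00 {y : RF} (hy : (y : R F2 sF) = xi F2 sF (0, 0)) :
    NZ (Ideal.span {v, l} ⊔ Ideal.span {q}) y := by
  apply NZ.down
  rw [map_span2 a hl hv hq, hy]
  exact JR_x00 sF a sF_ne two_F2

include hl hv hq in
/-- `Y_2` is a nonzerodivisor on `M_a / q_W`. -/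
theorem RF_Y2 {y : RF} (hy : (y : R F2 sF) = Y2R sF) :
    NZ (Ideal.span {v, l} ⊔ Ideal.span {q}) y := by
  apply NZ.down
  rw [map_span2 a hl hv hq, hy]
  exact JR_Y2 sF a sF_ne two_F2

include hl hv hq in
/-- `beta` is a nonzerodivisor on `M_a / q_W`. -/
theorem RF_be {y : RF} (hy : (y : R F2 sF) = beR sF) :
    NZ (Ideal.span {v, l} ⊔ Ideal.span {q}) y := by
  apply NZ.down
  rw [map_span2 a hl hv hq, hy]
  exact JR_be sF a sF_ne two_F2

end final

end Pool.Agent.SSF.E2
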