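import Pool.Agent.SSF.XHyp

/-!
Project SSF (MP_5928ba), module X1: spanning by (reduced) monomials, finiteness of the graded
pieces and degree bounds for `R k s`, over any commutative ring `k` with an element `s`.
-/

set_option autoImplicit false

namespace Pool.Agent.SSF

open MvPolynomial DirectSum

/-- The monomial `ξ^m`. -/
noncomputable def mon (k : Type*) [CommRing k] (s : k) (m : V →₀ ℕ) : R k s :=
  m.prod fun v n => xi k s v ^ n

/-- Reduced exponents. -/
def Red (m : V →₀ ℕ) : Prop := ∀ i : Fin 4, m (i, 2) ≤ 1 ∧ m (i, 3) ≤ 1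

section X1

variable (k : Type*) [CommRing k] (s : k)

/-- A monomial is the class of the monomial polynomial. -/
theorem mon_eq_mk (m : V →₀ ℕ) :
    mon k s m = Ideal.Quotient.mk (relI k s) (monomial m (1 : k)) := by
  rw [monomial_eq, C_1, one_mul, Finsupp.prod, map_prod]
  unfold mon Finsupp.prod
  refine Finset.prod_congr rfl fun v _ => ?_
  rw [map_pow]
  rfl

/-- The class of a term. -/
theorem mk_monomial (m : V →₀ ℕ) (a : k) :
    Ideal.Quotient.mk (relI k s) (monomial m a) = a • mon k s m := by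
  have h : (monomial m a : MvPolynomial V k) = a • monomial m (1 : k) := by
    rw [smul_monomial, smul_eq_mul, mul_one]
  rw [h, mon_eq_mk]
  rfl

theorem mon_zero : mon k s 0 = 1 := by
  unfold mon
  rw [Finsupp.prod_zero_index]

theorem mon_add (m m' : V →₀ ℕ) : mon k s (m + m') = mon k s m * mon k s m' := by
  unfold mon
  classical
  rw [Finsupp.prod_add_index']
  · intro a
    rw [pow_zero]
  · intro a b c
    rw [pow_add]

theorem mon_single (v : V) (n : ℕ) : mon k s (Finsupp.single v n) = xi k s v ^ n := by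
  unfold mon
  exact Finsupp.prod_single_index (pow_zero _)

theorem mon_mem (m : V →₀ ℕ) : mon k s m ∈ gr k s (Finsupp.weight e m) := by
  rw [mon_eq_mk]
  exact ⟨monomial m 1, isWeightedHomogeneous_monomial e m 1 rfl, rfl⟩

theorem gr_eq_span (γ : Lam) : gr k s γ =
    Submodule.span k {x | ∃ m : V →₀ ℕ, Finsupp.weight e m = γ ∧ x = mon k s m} := by
  apply le_antisymm
  · rintro _ ⟨p, hp, rfl⟩
    have hp' : IsWeightedHomogeneous e p γ := hp
    change Ideal.Quotient.mk (relI k s) p ∈ _
    rw [p.as_sum, map_sum]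
    refine Submodule.sum_mem _ fun d hd => ?_
    rw [mk_monomial]
    exact Submodule.smul_mem _ _
      (Submodule.subset_span ⟨d, hp' (MvPolynomial.mem_support_iff.1 hd), rfl⟩)
  · rw [Submodule.span_le]
    rintro _ ⟨m, rfl, rfl⟩
    exact mon_mem k s m

/-- The measure of the reduction. -/
def red (m : V →₀ ℕ) : ℕ := ∑ i : Fin 4, (m (i, 2) + m (i, 3))

theorem weight_single_two (v : V) : Finsupp.weight e (Finsupp.single v 2) = Fc v.1 := by
  rw [Finsupp.weight_single, two_e]

/-- One reduction step: a square of the third or fourth coordinate of a row is replaced. -/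
theorem red_step (m : V →₀ ℕ) (i : Fin 4) (j : Fin 4) (hj : j = 2 ∨ j = 3) (h : 2 ≤ m (i, j)) :
    ∃ m' : V →₀ ℕ, ∃ a b : k, m = m' + Finsupp.single (i, j) 2 ∧
      mon k s m = a • mon k s (m' + Finsupp.single (i, 0) 2) +
        b • mon k s (m' + Finsupp.single (i, 1) 2) := by
  have hm : m = (m - Finsupp.single (i, j) 2) + Finsupp.single (i, j) 2 := by
    refine (tsub_add_cancel_of_le ?_).symm
    rw [Finsupp.single_le_iff]
    exact h
  have key : ∃ a b : k, xi k s (i, j) ^ 2 =
      algebraMap k _ a * xi k s (i, 0) ^ 2 + algebraMap k _ b * xi k s (i, 1) ^ 2 := by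
    rcases hj with rfl | rfl
    · exact ⟨_, _, xi2_sq k s i⟩
    · exact ⟨_, _, xi3_sq k s i⟩
  obtain ⟨a, b, hab⟩ := key
  refine ⟨m - Finsupp.single (i, j) 2, a, b, hm, ?_⟩
  conv_lhs => rw [hm]
  rw [mon_add, mon_add, mon_add, mon_single, mon_single, mon_single, hab, mul_add,
    ← Algebra.smul_def, ← Algebra.smul_def, mul_smul_comm, mul_smul_comm]

theorem red_add (m m' : V →₀ ℕ) : red (m + m') = red m + red m' := by
  unfold red
  rw [← Finset.sum_add_distrib]
  refine Finset.sum_congr rfl fun i _ => ?_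
  rw [Finsupp.add_apply, Finsupp.add_apply]
  omega

theorem red_single_low (i j : Fin 4) (hj : j = 0 ∨ j = 1) :
    red (Finsupp.single (i, j) 2) = 0 := by
  unfold red
  refine Finset.sum_eq_zero fun l _ => ?_
  have h2 : (i, j) ≠ (l, 2) := by
    intro h
    have h1 : j = 2 := congrArg Prod.snd h
    revert h1
    rcases hj with rfl | rfl <;> decide
  have h3 : (i, j) ≠ (l, 3) := by
    intro h
    have h1 : j = 3 := congrArg Prod.snd h
    revert h1
    rcases hj with rfl | rfl <;> decide
  rw [Finsupp.single_apply, Finsupp.single_apply, if_neg h2, if_neg h3, add_zero]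

theorem red_single_high (i j : Fin 4) (hj : j = 2 ∨ j = 3) :
    0 < red (Finsupp.single (i, j) 2) := by
  unfold red
  refine Finset.sum_pos' (fun _ _ => Nat.zero_le _) ⟨i, Finset.mem_univ _, ?_⟩
  rcases hj with rfl | rfl
  · rw [Finsupp.single_eq_same]
    omega
  · rw [Finsupp.single_eq_same]
    omega

theorem mon_mem_span_red (n : ℕ) : ∀ m : V →₀ ℕ, red m ≤ n → mon k s m ∈
    Submodule.span k {x | ∃ m' : V →₀ ℕ, Finsupp.weight e m' = Finsupp.weight e m ∧ Red m' ∧
      x = mon k s m'} := by
  induction n with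
  | zero =>
    intro m hm
    refine Submodule.subset_span ⟨m, rfl, fun i => ?_, rfl⟩
    have h0 : red m = 0 := Nat.le_zero.1 hm
    have h1 := (Finset.sum_eq_zero_iff.1 h0) i (Finset.mem_univ _)
    omega
  | succ n ih =>
    intro m hm
    by_cases hr : Red m
    · exact Submodule.subset_span ⟨m, rfl, hr, rfl⟩
    · have hex : ∃ i j : Fin 4, (j = 2 ∨ j = 3) ∧ 2 ≤ m (i, j) := by
        by_contra hc
        apply hr
        intro i
        constructor
        · by_contra h2
          exact hc ⟨i, 2, Or.inl rfl, by omega⟩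
        · by_contra h2
          exact hc ⟨i, 3, Or.inr rfl, by omega⟩
      obtain ⟨i, j, hj, h2⟩ := hex
      obtain ⟨m', a, b, hmm, hab⟩ := red_step k s m i j hj h2
      have hw : ∀ l : Fin 4, Finsupp.weight e (m' + Finsupp.single (i, l) 2) =
          Finsupp.weight e m := by
        intro l
        rw [hmm, map_add, map_add, weight_single_two, weight_single_two]
      have hn : ∀ l : Fin 4, (l = 0 ∨ l = 1) → red (m' + Finsupp.single (i, l) 2) ≤ n := by
        intro l hl
        have h3 := red_single_high i j hj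
        rw [hmm, red_add] at hm
        rw [red_add, red_single_low i l hl]
        omega
      rw [hab]
      refine Submodule.add_mem _ (Submodule.smul_mem _ _ ?_) (Submodule.smul_mem _ _ ?_)
      · have h4 := ih _ (hn 0 (Or.inl rfl))
        rwa [hw 0] at h4
      · have h4 := ih _ (hn 1 (Or.inr rfl))
        rwa [hw 1] at h4

theorem gr_eq_span_red (γ : Lam) : gr k s γ =
    Submodule.span k {x | ∃ m : V →₀ ℕ, Finsupp.weight e m = γ ∧ Red m ∧ x = mon k s m} := by
  apply le_antisymm
  · rw [gr_eq_span, Submodule.span_le]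
    rintro _ ⟨m, rfl, rfl⟩
    exact mon_mem_span_red k s (red m) m le_rfl
  · rw [Submodule.span_le]
    rintro _ ⟨m, rfl, _, rfl⟩
    exact mon_mem k s m

theorem weight_fst (m : V →₀ ℕ) (i : Fin 4) :
    (Finsupp.weight e m).1 i = ∑ j : Fin 4, (m (i, j) : ℤ) := by
  rw [Finsupp.weight_apply, Finsupp.sum_fintype m (fun v c => c • e v) (fun v => zero_smul ℕ _),
    Prod.fst_sum, Finset.sum_apply, Fintype.sum_prod_type, Finset.sum_eq_single i]
  · refine Finset.sum_congr rfl fun j _ => ?_
    simp [e]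
  · intro b _ hb
    refine Finset.sum_eq_zero fun j _ => ?_
    simp [e, Pi.single_eq_of_ne (Ne.symm hb)]
  · intro h
    exact absurd (Finset.mem_univ i) h

/-- Exponents of given weight are bounded. -/
theorem le_of_weight (γ : Lam) (m : V →₀ ℕ) (h : Finsupp.weight e m = γ) (v : V) :
    (m v : ℤ) ≤ γ.1 v.1 := by
  subst h
  rw [weight_fst]
  exact Finset.single_le_sum (f := fun j : Fin 4 => (m (v.1, j) : ℤ))
    (fun j _ => Int.natCast_nonneg _) (Finset.mem_univ v.2)

theorem finite_weight (γ : Lam) : {m : V →₀ ℕ | Finsupp.weight e m = γ}.Finite := by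
  refine (Set.finite_Icc (0 : V →₀ ℕ)
    (Finsupp.equivFunOnFinite.symm fun v : V => (γ.1 v.1).toNat)).subset ?_
  intro m hm
  refine ⟨bot_le, fun v => ?_⟩
  have h := le_of_weight γ m hm v
  change m v ≤ (γ.1 v.1).toNat
  omega

theorem gr_fg (γ : Lam) : (gr k s γ).FG := by
  have hf : {x | ∃ m : V →₀ ℕ, Finsupp.weight e m = γ ∧ x = mon k s m}.Finite := by
    refine ((finite_weight γ).image (mon k s)).subset ?_
    rintro _ ⟨m, hm, rfl⟩
    exact ⟨m, hm, rfl⟩
  rw [gr_eq_span]
  exact Submodule.fg_span hf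

theorem gr_finite (γ : Lam) : Module.Finite k (gr k s γ) :=
  Module.Finite.iff_fg.2 (gr_fg k s γ)

theorem gr_eq_bot_of_neg (γ : Lam) (i : Fin 4) (h : γ.1 i < 0) : gr k s γ = ⊥ := by
  rw [gr_eq_span, Submodule.span_eq_bot]
  rintro _ ⟨m, hm, rfl⟩
  have h1 := le_of_weight γ m hm (i, 0)
  have h2 : (0 : ℤ) ≤ (m (i, 0) : ℤ) := Int.natCast_nonneg _
  exact absurd (lt_of_le_of_lt (le_trans h2 h1) h) (lt_irrefl _)

theorem eq_zero_of_weight (m : V →₀ ℕ) (h : Finsupp.weight e m = 0) : m = 0 := by
  ext v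
  have h1 := le_of_weight 0 m h v
  have h2 : (0 : Lam).1 v.1 = 0 := rfl
  rw [h2] at h1
  simpa using h1

theorem gr_zero : gr k s 0 = LinearMap.range (Algebra.linearMap k (R k s)) := by
  apply le_antisymm
  · rw [gr_eq_span, Submodule.span_le]
    rintro _ ⟨m, hm, rfl⟩
    rw [eq_zero_of_weight m hm, mon_zero]
    exact ⟨1, map_one (algebraMap k (R k s))⟩
  · rintro _ ⟨a, rfl⟩
    have h1 : (1 : R k s) ∈ gr k s 0 := by
      have h2 := mon_mem k s 0
      rwa [mon_zero, map_zero] at h2
    rw [Algebra.linearMap_apply, Algebra.algebraMap_eq_smul_one]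
    exact Submodule.smul_mem _ _ h1

end X1

end Pool.Agent.SSF
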