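import Pool.Agent.SSF.EDefs
import Pool.Agent.SSF.XSpan
import Pool.Agent.SSF.G2

/-!
# SSF, layer E: pairs of sections without common zeros
-/

set_option autoImplicit false

namespace Pool.Agent.SSF.Ev

open MvPolynomial DirectSum XDesc

/-- In row degree at least five everything lies in the ideal of the two squares. -/
theorem mem_sq_of_deg (k : Type) [CommRing k] (s : k) (i : Fin 4) (γ : Lam) (hγ : 5 ≤ γ.1 i)
    (x : R k s) (hx : x ∈ gr k s γ) :
    x ∈ Ideal.span {xi k s (i, 0) ^ 2, xi k s (i, 1) ^ 2} := by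
  rw [gr_eq_span] at hx
  have hle : Submodule.span k {x | ∃ m : V →₀ ℕ, Finsupp.weight e m = γ ∧ x = mon k s m} ≤
      (Ideal.span {xi k s (i, 0) ^ 2, xi k s (i, 1) ^ 2}).restrictScalars k := by
    rw [Submodule.span_le]
    rintro _ ⟨m, hm, rfl⟩
    have h1 : ∑ j : Fin 4, (m (i, j) : ℤ) = γ.1 i := by rw [← weight_fst, hm]
    obtain ⟨j, hj⟩ : ∃ j : Fin 4, 2 ≤ m (i, j) := by
      by_contra hc
      push Not at hc
      have h2 : ∑ j : Fin 4, (m (i, j) : ℤ) ≤ ∑ _j : Fin 4, (1 : ℤ) := by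
        refine Finset.sum_le_sum fun j _ => ?_
        have := hc j
        omega
      simp at h2
      omega
    obtain ⟨m', rfl⟩ : ∃ m' : V →₀ ℕ, m = m' + Finsupp.single (i, j) 2 := by
      refine ⟨m - Finsupp.single (i, j) 2, (tsub_add_cancel_of_le ?_).symm⟩
      rw [Finsupp.single_le_iff]
      exact hj
    change mon k s (m' + Finsupp.single (i, j) 2) ∈ Ideal.span _
    rw [mon_add, mon_single]
    refine Ideal.mul_mem_left _ _ ?_
    have hq0 : xi k s (i, 0) ^ 2 ∈ Ideal.span {xi k s (i, 0) ^ 2, xi k s (i, 1) ^ 2} :=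
      Ideal.subset_span (by simp)
    have hq1 : xi k s (i, 1) ^ 2 ∈ Ideal.span {xi k s (i, 0) ^ 2, xi k s (i, 1) ^ 2} :=
      Ideal.subset_span (by simp)
    fin_cases j
    · exact hq0
    · exact hq1
    · change xi k s (i, 2) ^ 2 ∈ _
      rw [xi2_sq]
      exact Ideal.add_mem _ (Ideal.mul_mem_left _ _ hq0) (Ideal.mul_mem_left _ _ hq1)
    · change xi k s (i, 3) ^ 2 ∈ _
      rw [xi3_sq]
      exact Ideal.add_mem _ (Ideal.mul_mem_left _ _ hq0) (Ideal.mul_mem_left _ _ hq1)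
  exact hle hx

/-- Criterion: two elements of `RF` which generate the squares of the coordinates of a row
have no common zero. -/
theorem no_zero (hD : DF.Good) (i : Fin 4) (a b : RF)
    (h0 : xx i 0 ^ 2 ∈ Ideal.span {(a : R F2 sF), (b : R F2 sF)})
    (h1 : xx i 1 ^ 2 ∈ Ideal.span {(a : R F2 sF), (b : R F2 sF)})
    (p : DF.Pt) (ha : (a : DF.R) ∈ DF.pt p) (hb : (b : DF.R) ∈ DF.pt p) : False := by
  obtain ⟨u, hu, hup⟩ : ∃ u ∈ DF.gA 1, u ∉ p.asHomogeneousIdeal := by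
    exact Cox.G2.exists_gen_notMem DF p (DF.gA 1 : Set DF.A) hD.gen1
  have hu2 : u ^ 2 ∉ p.asHomogeneousIdeal.toIdeal := by
    intro h
    exact hup (p.isPrime.mem_of_pow_mem 2 h)
  apply hu2
  rw [← DF.comap_pt hD p, Ideal.mem_comap]
  have hJ : (Ideal.span {(a : DF.R), (b : DF.R)} : Ideal DF.R) ≤ DF.pt p := by
    refine Ideal.span_le.2 ?_
    rintro _ (rfl | rfl)
    · exact ha
    · exact hb
  refine hJ (mem_of_mem_map (Ideal.span {a, b} : Ideal RF) (DF.φ (u ^ 2)) ?_)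
  have hmap : (Ideal.span {a, b} : Ideal RF).map (algebraMap RF (R F2 sF)) =
      Ideal.span {(a : R F2 sF), (b : R F2 sF)} := by
    rw [Ideal.map_span, Set.image_pair]
    rfl
  rw [hmap]
  have hle : Ideal.span {xi F2 sF (i, 0) ^ 2, xi F2 sF (i, 1) ^ 2} ≤
      Ideal.span {(a : R F2 sF), (b : R F2 sF)} := by
    rw [Ideal.span_le]
    rintro _ (rfl | rfl)
    · exact h0
    · exact h1
  apply hle
  have hu' : DF.φ (u ^ 2) ∈ DF.gR (2 • DF.h) := by
    refine DF.φ_mem 2 _ ?_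
    have := SetLike.pow_mem_graded 2 hu
    simpa using this
  have hu3 : ∀ z : RF, z ∈ grF (2 • hF) → (z : R F2 sF) ∈ gr F2 sF (2 • hh) :=
    fun z hz => hz
  have hu2 := hu3 (DF.φ (u ^ 2)) hu'
  refine mem_sq_of_deg F2 sF i (2 • hh) ?_ _ hu2
  simp [hh]

theorem B1 (hD : DF.Good) (p : DF.Pt) (ha : (fx 0 0 rfl : DF.R) ∈ DF.pt p)
    (hb : (fx 0 1 rfl : DF.R) ∈ DF.pt p) : False := by
  refine no_zero hD 0 (fx 0 0 rfl) (fx 0 1 rfl) ?_ ?_ p ha hb
  · rw [sq]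
    exact Ideal.mul_mem_left _ _ (Ideal.subset_span (Or.inl rfl))
  · rw [sq]
    exact Ideal.mul_mem_left _ _ (Ideal.subset_span (Or.inr rfl))

theorem B4 (hD : DF.Good) (p : DF.Pt) (ha : (fx 3 0 rfl : DF.R) ∈ DF.pt p)
    (hb : (fx 3 1 rfl : DF.R) ∈ DF.pt p) : False := by
  refine no_zero hD 3 (fx 3 0 rfl) (fx 3 1 rfl) ?_ ?_ p ha hb
  · rw [sq]
    exact Ideal.mul_mem_left _ _ (Ideal.subset_span (Or.inl rfl))
  · rw [sq]
    exact Ideal.mul_mem_left _ _ (Ideal.subset_span (Or.inr rfl))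

theorem sq_mem_ab0 (i : Fin 4) : xx i 0 ^ 2 ∈ Ideal.span {al i xx, be i SS xx} := by
  have h0 : al i xx ∈ Ideal.span {al i xx, be i SS xx} := Ideal.subset_span (Or.inl rfl)
  have h1 : be i SS xx ∈ Ideal.span {al i xx, be i SS xx} := Ideal.subset_span (Or.inr rfl)
  have e : xx i 0 ^ 2 = 9 * al i xx + (54 * SS) * be i SS xx := by
    have e1 := SS_sq
    have e2 := h17
    unfold al be
    generalize SS = t at e1
    generalize xx i 0 = a
    generalize xx i 1 = b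
    linear_combination (-54 * (a ^ 2 - b ^ 2)) * e1 - (10 * a ^ 2 - 9 * b ^ 2) * e2
  rw [e]
  exact Ideal.add_mem _ (Ideal.mul_mem_left _ _ h0) (Ideal.mul_mem_left _ _ h1)

theorem sq_mem_ab1 (i : Fin 4) : xx i 1 ^ 2 ∈ Ideal.span {al i xx, be i SS xx} := by
  have h0 : al i xx ∈ Ideal.span {al i xx, be i SS xx} := Ideal.subset_span (Or.inl rfl)
  have h1 : be i SS xx ∈ Ideal.span {al i xx, be i SS xx} := Ideal.subset_span (Or.inr rfl)
  have e : xx i 1 ^ 2 = 9 * al i xx + (-(54 * SS)) * be i SS xx := by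
    have e1 := SS_sq
    have e2 := h17
    unfold al be
    generalize SS = t at e1
    generalize xx i 0 = a
    generalize xx i 1 = b
    linear_combination (54 * (a ^ 2 - b ^ 2)) * e1 + (9 * a ^ 2 - 10 * b ^ 2) * e2
  rw [e]
  exact Ideal.add_mem _ (Ideal.mul_mem_left _ _ h0) (Ideal.mul_mem_left _ _ h1)

theorem fa2_coe : (fa2 : R F2 sF) = al 1 xx := rfl
theorem fb2_coe' : (fb2 : R F2 sF) = be 1 SS xx := rfl
theorem fa3_coe : (fa3 : R F2 sF) = al 2 xx := rfl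
theorem fb3_coe' : (fb3 : R F2 sF) = be 2 SS xx := rfl

theorem B2 (hD : DF.Good) (p : DF.Pt) (ha : (fa2 : DF.R) ∈ DF.pt p)
    (hb : (fb2 : DF.R) ∈ DF.pt p) : False := by
  refine no_zero hD 1 fa2 fb2 ?_ ?_ p ha hb
  · rw [fa2_coe, fb2_coe']
    exact sq_mem_ab0 1
  · rw [fa2_coe, fb2_coe']
    exact sq_mem_ab1 1

theorem B3 (hD : DF.Good) (p : DF.Pt) (ha : (fa3 : DF.R) ∈ DF.pt p)
    (hb : (fb3 : DF.R) ∈ DF.pt p) : False := by
  refine no_zero hD 2 fa3 fb3 ?_ ?_ p ha hb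
  · rw [fa3_coe, fb3_coe']
    exact sq_mem_ab0 2
  · rw [fa3_coe, fb3_coe']
    exact sq_mem_ab1 2

end Pool.Agent.SSF.Ev
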