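import Mathlib

/-! # SSF, layer E: polynomial identities between the sections used in the evaluation -/

set_option autoImplicit false

namespace Pool.Agent.SSF.Ev

variable {R : Type*} [CommRing R]

/-- The relations of the coordinate ring, in an arbitrary commutative ring. -/
structure Rel (s : R) (x : Fin 4 → Fin 4 → R) : Prop where
  c17 : (17 : R) = 0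
  ss : s ^ 2 = 3
  h02 : x 0 2 ^ 2 = x 0 0 ^ 2 - s * x 0 1 ^ 2
  h03 : x 0 3 ^ 2 = x 0 0 ^ 2 + s * x 0 1 ^ 2
  h12 : x 1 2 ^ 2 = (1 + 2 * s) * x 1 0 ^ 2 - x 1 1 ^ 2
  h13 : x 1 3 ^ 2 = - x 1 0 ^ 2 + (1 - 2 * s) * x 1 1 ^ 2
  h22 : x 2 2 ^ 2 = (1 + 2 * s) * x 2 0 ^ 2 - x 2 1 ^ 2
  h23 : x 2 3 ^ 2 = - x 2 0 ^ 2 + (1 - 2 * s) * x 2 1 ^ 2
  h32 : x 3 2 ^ 2 = x 3 0 ^ 2 - x 3 1 ^ 2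
  h33 : x 3 3 ^ 2 = x 3 0 ^ 2 + x 3 1 ^ 2

/-- The section `q_W`. -/
def qW (x : Fin 4 → Fin 4 → R) : R := x 2 0 * x 2 2 * x 1 0 + x 2 1 * x 2 3 * x 1 1

/-- The conjugate section. -/
def qWm (s : R) (x : Fin 4 → Fin 4 → R) : R :=
  s * (x 2 0 * x 2 2 * x 1 0 - x 2 1 * x 2 3 * x 1 1)

/-- The sum of the squares in row `i`. -/
def al (i : Fin 4) (x : Fin 4 → Fin 4 → R) : R := x i 0 ^ 2 + x i 1 ^ 2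

/-- `s` times the difference of the squares in row `i`. -/
def be (i : Fin 4) (s : R) (x : Fin 4 → Fin 4 → R) : R := s * (x i 0 ^ 2 - x i 1 ^ 2)

/-- The section `Y_1`. -/
def Y1 (x : Fin 4 → Fin 4 → R) : R := x 0 2 * x 1 1 * x 1 2 + x 0 3 * x 1 0 * x 1 3

/-- The section `Y_2`. -/
def Y2 (s : R) (x : Fin 4 → Fin 4 → R) : R :=
  s * (x 0 2 * x 1 1 * x 1 2 - x 0 3 * x 1 0 * x 1 3)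

/-- The section `u`. -/
def uu (x : Fin 4 → Fin 4 → R) : R := x 0 3 * x 1 0 * x 1 2 + x 0 2 * x 1 1 * x 1 3

/-- The section `V`. -/
def VV (x : Fin 4 → Fin 4 → R) : R := x 0 2 * x 0 3 * x 1 0 * x 1 1 * x 1 2 * x 1 3

/-- The cofactor in `iq`. -/
def cc (s : R) (x : Fin 4 → Fin 4 → R) : R :=
  al 2 x * (be 1 s x + 9 * al 1 x) + be 2 s x * (3 * be 1 s x + 9 * al 1 x)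

variable {s : R} {x : Fin 4 → Fin 4 → R}

theorem iq (h : Rel s x) : qW x * qWm s x =
    10 * al 2 x ^ 2 * al 1 x + be 2 s x * cc s x := by
  unfold qW qWm cc al be
  linear_combination (s * x 2 0 ^ 2 * x 1 0 ^ 2) * h.h22 - (s * x 2 1 ^ 2 * x 1 1 ^ 2) * h.h23 + (
    18 * (x 1 0 ^ 2) * (x 2 0 ^ 2) * (x 2 1 ^ 2) + 6 * (x 1 0 ^ 2) * (x 2 0 ^ 2) * (x 2 1 ^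
    2) * s - 8 * (x 1 0 ^ 2) * (x 2 0 ^ 2) ^ 2 - 3 * (x 1 0 ^ 2) * (x 2 0 ^ 2) ^ 2 * s - 8
    * (x 1 0 ^ 2) * (x 2 1 ^ 2) ^ 2 - 3 * (x 1 0 ^ 2) * (x 2 1 ^ 2) ^ 2 * s + 18 * (x 1 1 ^
    2) * (x 2 0 ^ 2) * (x 2 1 ^ 2) - 6 * (x 1 1 ^ 2) * (x 2 0 ^ 2) * (x 2 1 ^ 2) * s - 8 *
    (x 1 1 ^ 2) * (x 2 0 ^ 2) ^ 2 + 3 * (x 1 1 ^ 2) * (x 2 0 ^ 2) ^ 2 * s - 8 * (x 1 1 ^ 2)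
    * (x 2 1 ^ 2) ^ 2 + 3 * (x 1 1 ^ 2) * (x 2 1 ^ 2) ^ 2 * s) * h.ss + (
    2 * (x 1 0 ^ 2) * (x 2 0 ^ 2) * (x 2 1 ^ 2) + (x 1 0 ^ 2) * (x 2 0 ^ 2) * (x 2 1 ^ 2) *
    s - 2 * (x 1 0 ^ 2) * (x 2 0 ^ 2) ^ 2 - (x 1 0 ^ 2) * (x 2 0 ^ 2) ^ 2 * s - 2 * (x 1 0
    ^ 2) * (x 2 1 ^ 2) ^ 2 + 2 * (x 1 1 ^ 2) * (x 2 0 ^ 2) * (x 2 1 ^ 2) - (x 1 1 ^ 2) * (x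
    2 0 ^ 2) * (x 2 1 ^ 2) * s - 2 * (x 1 1 ^ 2) * (x 2 0 ^ 2) ^ 2 - 2 * (x 1 1 ^ 2) * (x 2
    1 ^ 2) ^ 2 + (x 1 1 ^ 2) * (x 2 1 ^ 2) ^ 2 * s) * h.c17

theorem iYY (h : Rel s x) : Y1 x * Y2 s x =
    3 * x 0 0 ^ 2 * al 1 x ^ 2 + x 0 0 ^ 2 * al 1 x * be 1 s x - x 0 0 ^ 2 * be 1 s x ^ 2 +
      x 0 1 ^ 2 * be 1 s x ^ 2 := by
  unfold Y1 Y2 al be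
  linear_combination (s * x 1 1 ^ 2 * x 1 2 ^ 2) * h.h02 - (s * x 1 0 ^ 2 * x 1 3 ^ 2) * h.h03 +
    (s * (x 0 0 ^ 2 - s * x 0 1 ^ 2) * x 1 1 ^ 2) * h.h12 -
    (s * (x 0 0 ^ 2 + s * x 0 1 ^ 2) * x 1 0 ^ 2) * h.h13 + (
    2 * (x 0 0 ^ 2) * (x 1 0 ^ 2) * (x 1 1 ^ 2) + (x 0 0 ^ 2) * (x 1 0 ^ 2) ^ 2 + (x 0 0 ^
    2) * (x 1 1 ^ 2) ^ 2) * h.ss + (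
    0) * h.c17

theorem iY (h : Rel s x) : Y2 s x ^ 2 + 6 * VV x =
    - x 0 0 ^ 2 * be 1 s x ^ 2 + 8 * x 0 1 ^ 2 * al 1 x ^ 2 -
      3 * x 0 1 ^ 2 * al 1 x * be 1 s x + 3 * x 0 1 ^ 2 * be 1 s x ^ 2 := by
  have e : Y2 s x ^ 2 = s ^ 2 * (x 0 2 ^ 2 * x 1 1 ^ 2 * x 1 2 ^ 2 +
      x 0 3 ^ 2 * x 1 0 ^ 2 * x 1 3 ^ 2 - 2 * VV x) := by
    unfold Y2 VV; ring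
  rw [e, h.h02, h.h03, h.h12, h.h13]
  unfold al be
  linear_combination (
    - 2 * (VV x) - 6 * (x 0 1 ^ 2) * (x 1 0 ^ 2) * (x 1 1 ^ 2) - 4 * (x 0 1 ^ 2) * (x 1 0 ^
    2) * (x 1 1 ^ 2) * s ^ 2 - 3 * (x 0 1 ^ 2) * (x 1 0 ^ 2) ^ 2 - (x 0 1 ^ 2) * (x 1 0 ^
    2) ^ 2 * s - 3 * (x 0 1 ^ 2) * (x 1 1 ^ 2) ^ 2 + (x 0 1 ^ 2) * (x 1 1 ^ 2) ^ 2 * s) * h.ss + (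
    - 2 * (x 0 1 ^ 2) * (x 1 0 ^ 2) * (x 1 1 ^ 2) - (x 0 1 ^ 2) * (x 1 0 ^ 2) ^ 2 - (x 0 1
    ^ 2) * (x 1 1 ^ 2) ^ 2) * h.c17

theorem iu (h : Rel s x) : uu x ^ 2 =
    2 * VV x + 2 * x 0 0 ^ 2 * al 1 x * be 1 s x + 6 * x 0 0 ^ 2 * be 1 s x ^ 2 +
      3 * x 0 1 ^ 2 * al 1 x ^ 2 + x 0 1 ^ 2 * al 1 x * be 1 s x + x 0 1 ^ 2 * be 1 s x ^ 2 := by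
  have e : uu x ^ 2 = x 0 3 ^ 2 * x 1 0 ^ 2 * x 1 2 ^ 2 +
      x 0 2 ^ 2 * x 1 1 ^ 2 * x 1 3 ^ 2 + 2 * VV x := by
    unfold uu VV; ring
  rw [e, h.h02, h.h03, h.h12, h.h13]
  unfold al be
  linear_combination (
    12 * (x 0 0 ^ 2) * (x 1 0 ^ 2) * (x 1 1 ^ 2) - 6 * (x 0 0 ^ 2) * (x 1 0 ^ 2) ^ 2 - 6 *
    (x 0 0 ^ 2) * (x 1 1 ^ 2) ^ 2 + 2 * (x 0 1 ^ 2) * (x 1 0 ^ 2) * (x 1 1 ^ 2) + (x 0 1 ^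
    2) * (x 1 0 ^ 2) ^ 2 + (x 0 1 ^ 2) * (x 1 1 ^ 2) ^ 2) * h.ss + (
    2 * (x 0 0 ^ 2) * (x 1 0 ^ 2) * (x 1 1 ^ 2) - (x 0 0 ^ 2) * (x 1 0 ^ 2) ^ 2 - (x 0 0 ^
    2) * (x 1 1 ^ 2) ^ 2) * h.c17

theorem iV (h : Rel s x) : VV x ^ 2 =
    x 0 0 ^ 4 * (12 * al 1 x ^ 4 + 8 * al 1 x ^ 3 * be 1 s x - al 1 x ^ 2 * be 1 s x ^ 2 +
      3 * al 1 x * be 1 s x ^ 3 - be 1 s x ^ 4) +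
    x 0 1 ^ 4 * (-2 * al 1 x ^ 4 + 10 * al 1 x ^ 3 * be 1 s x + 3 * al 1 x ^ 2 * be 1 s x ^ 2 +
      8 * al 1 x * be 1 s x ^ 3 + 3 * be 1 s x ^ 4) := by
  have e : VV x ^ 2 = (x 0 2 ^ 2) * (x 0 3 ^ 2) * x 1 0 ^ 2 *
      x 1 1 ^ 2 * (x 1 2 ^ 2) * (x 1 3 ^ 2) := by
    unfold VV; ring
  rw [e, h.h02, h.h03, h.h12, h.h13]
  unfold al be
  linear_combination (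
    - 12 * (x 0 0 ^ 2) ^ 2 * (x 1 0 ^ 2) * (x 1 1 ^ 2) ^ 3 - 6 * (x 0 0 ^ 2) ^ 2 * (x 1 0 ^
    2) * (x 1 1 ^ 2) ^ 3 * s - 4 * (x 0 0 ^ 2) ^ 2 * (x 1 0 ^ 2) * (x 1 1 ^ 2) ^ 3 * s ^ 2
    + 12 * (x 0 0 ^ 2) ^ 2 * (x 1 0 ^ 2) ^ 2 * (x 1 1 ^ 2) ^ 2 + 6 * (x 0 0 ^ 2) ^ 2 * (x 1
    0 ^ 2) ^ 2 * (x 1 1 ^ 2) ^ 2 * s ^ 2 - 12 * (x 0 0 ^ 2) ^ 2 * (x 1 0 ^ 2) ^ 3 * (x 1 1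
    ^ 2) + 6 * (x 0 0 ^ 2) ^ 2 * (x 1 0 ^ 2) ^ 3 * (x 1 1 ^ 2) * s - 4 * (x 0 0 ^ 2) ^ 2 *
    (x 1 0 ^ 2) ^ 3 * (x 1 1 ^ 2) * s ^ 2 + 4 * (x 0 0 ^ 2) ^ 2 * (x 1 0 ^ 2) ^ 4 - 3 * (x
    0 0 ^ 2) ^ 2 * (x 1 0 ^ 2) ^ 4 * s + (x 0 0 ^ 2) ^ 2 * (x 1 0 ^ 2) ^ 4 * s ^ 2 + 4 * (x
    0 0 ^ 2) ^ 2 * (x 1 1 ^ 2) ^ 4 + 3 * (x 0 0 ^ 2) ^ 2 * (x 1 1 ^ 2) ^ 4 * s + (x 0 0 ^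
    2) ^ 2 * (x 1 1 ^ 2) ^ 4 * s ^ 2 + 37 * (x 0 1 ^ 2) ^ 2 * (x 1 0 ^ 2) * (x 1 1 ^ 2) ^ 3
    - 18 * (x 0 1 ^ 2) ^ 2 * (x 1 0 ^ 2) * (x 1 1 ^ 2) ^ 3 * s + 12 * (x 0 1 ^ 2) ^ 2 * (x
    1 0 ^ 2) * (x 1 1 ^ 2) ^ 3 * s ^ 2 - 38 * (x 0 1 ^ 2) ^ 2 * (x 1 0 ^ 2) ^ 2 * (x 1 1 ^
    2) ^ 2 - 14 * (x 0 1 ^ 2) ^ 2 * (x 1 0 ^ 2) ^ 2 * (x 1 1 ^ 2) ^ 2 * s ^ 2 + 37 * (x 0 1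
    ^ 2) ^ 2 * (x 1 0 ^ 2) ^ 3 * (x 1 1 ^ 2) + 18 * (x 0 1 ^ 2) ^ 2 * (x 1 0 ^ 2) ^ 3 * (x
    1 1 ^ 2) * s + 12 * (x 0 1 ^ 2) ^ 2 * (x 1 0 ^ 2) ^ 3 * (x 1 1 ^ 2) * s ^ 2 - 12 * (x 0
    1 ^ 2) ^ 2 * (x 1 0 ^ 2) ^ 4 - 8 * (x 0 1 ^ 2) ^ 2 * (x 1 0 ^ 2) ^ 4 * s - 3 * (x 0 1 ^
    2) ^ 2 * (x 1 0 ^ 2) ^ 4 * s ^ 2 - 12 * (x 0 1 ^ 2) ^ 2 * (x 1 1 ^ 2) ^ 4 + 8 * (x 0 1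
    ^ 2) ^ 2 * (x 1 1 ^ 2) ^ 4 * s - 3 * (x 0 1 ^ 2) ^ 2 * (x 1 1 ^ 2) ^ 4 * s ^ 2) * h.ss + (
    - 5 * (x 0 0 ^ 2) ^ 2 * (x 1 0 ^ 2) * (x 1 1 ^ 2) ^ 3 - 2 * (x 0 0 ^ 2) ^ 2 * (x 1 0 ^
    2) ^ 2 * (x 1 1 ^ 2) ^ 2 - 5 * (x 0 0 ^ 2) ^ 2 * (x 1 0 ^ 2) ^ 3 * (x 1 1 ^ 2) - (x 0 0
    ^ 2) ^ 2 * (x 1 0 ^ 2) ^ 4 * s + (x 0 0 ^ 2) ^ 2 * (x 1 1 ^ 2) ^ 4 * s + 7 * (x 0 1 ^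
    2) ^ 2 * (x 1 0 ^ 2) * (x 1 1 ^ 2) ^ 3 - 2 * (x 0 1 ^ 2) ^ 2 * (x 1 0 ^ 2) * (x 1 1 ^
    2) ^ 3 * s - 6 * (x 0 1 ^ 2) ^ 2 * (x 1 0 ^ 2) ^ 2 * (x 1 1 ^ 2) ^ 2 + 7 * (x 0 1 ^ 2)
    ^ 2 * (x 1 0 ^ 2) ^ 3 * (x 1 1 ^ 2) + 2 * (x 0 1 ^ 2) ^ 2 * (x 1 0 ^ 2) ^ 3 * (x 1 1 ^
    2) * s - 2 * (x 0 1 ^ 2) ^ 2 * (x 1 0 ^ 2) ^ 4 - 2 * (x 0 1 ^ 2) ^ 2 * (x 1 0 ^ 2) ^ 4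
    * s - 2 * (x 0 1 ^ 2) ^ 2 * (x 1 1 ^ 2) ^ 4 + 2 * (x 0 1 ^ 2) ^ 2 * (x 1 1 ^ 2) ^ 4 * s) * h.c17

end Pool.Agent.SSF.Ev
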