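import Pool.Agent.SSF.EDesc
import Pool.Agent.SSF.ERel

/-!
# SSF, layer E: the sections used in the evaluation, as elements of `RF`
-/

set_option autoImplicit false

namespace Pool.Agent.SSF.Ev

open MvPolynomial DirectSum XDesc

/-- The coordinates. -/
noncomputable def xx (i j : Fin 4) : R F2 sF := xi F2 sF (i, j)

theorem xx_mem (i j : Fin 4) : xx i j ∈ gr F2 sF (e (i, j)) := xi_mem F2 sF (i, j)

theorem sig_xx (i j : Fin 4) : sigR (xx i j) = xi F2 sF (sV (i, j)) := conjR_xi _ _ _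

theorem rel : Rel SS xx where
  c17 := h17
  ss := by rw [sq]; exact SS_sq
  h02 := by
    have h := xi2_sq F2 sF 0
    have e1 : ca sF 0 = 1 := rfl
    have e2 : cb sF 0 = -sF := rfl
    rw [e1, e2, map_one, map_neg] at h
    change xi F2 sF (0, 2) ^ 2 = xi F2 sF (0, 0) ^ 2 - algebraMap F2 _ sF * xi F2 sF (0, 1) ^ 2
    rw [h]; ring
  h03 := by
    have h := xi3_sq F2 sF 0
    have e1 : SSF.cc sF 0 = 1 := rfl
    have e2 : cd sF 0 = sF := rfl
    rw [e1, e2, map_one] at h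
    change xi F2 sF (0, 3) ^ 2 = xi F2 sF (0, 0) ^ 2 + algebraMap F2 _ sF * xi F2 sF (0, 1) ^ 2
    rw [h]; ring
  h12 := by
    have h := xi2_sq F2 sF 1
    have e1 : ca sF 1 = 1 + (sF + sF) := rfl
    have e2 : cb sF 1 = -1 := rfl
    rw [e1, e2, map_add, map_add, map_neg, map_one] at h
    change xi F2 sF (1, 2) ^ 2 = (1 + 2 * algebraMap F2 _ sF) * xi F2 sF (1, 0) ^ 2 -
      xi F2 sF (1, 1) ^ 2
    rw [h]; ring
  h13 := by
    have h := xi3_sq F2 sF 1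
    have e1 : SSF.cc sF 1 = -1 := rfl
    have e2 : cd sF 1 = 1 - (sF + sF) := rfl
    rw [e1, e2, map_sub, map_add, map_neg, map_one] at h
    change xi F2 sF (1, 3) ^ 2 = - xi F2 sF (1, 0) ^ 2 + (1 - 2 * algebraMap F2 _ sF) *
      xi F2 sF (1, 1) ^ 2
    rw [h]; ring
  h22 := by
    have h := xi2_sq F2 sF 2
    have e1 : ca sF 2 = 1 + (sF + sF) := rfl
    have e2 : cb sF 2 = -1 := rfl
    rw [e1, e2, map_add, map_add, map_neg, map_one] at h
    change xi F2 sF (2, 2) ^ 2 = (1 + 2 * algebraMap F2 _ sF) * xi F2 sF (2, 0) ^ 2 -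
      xi F2 sF (2, 1) ^ 2
    rw [h]; ring
  h23 := by
    have h := xi3_sq F2 sF 2
    have e1 : SSF.cc sF 2 = -1 := rfl
    have e2 : cd sF 2 = 1 - (sF + sF) := rfl
    rw [e1, e2, map_sub, map_add, map_neg, map_one] at h
    change xi F2 sF (2, 3) ^ 2 = - xi F2 sF (2, 0) ^ 2 + (1 - 2 * algebraMap F2 _ sF) *
      xi F2 sF (2, 1) ^ 2
    rw [h]; ring
  h32 := by
    have h := xi2_sq F2 sF 3
    have e1 : ca sF 3 = 1 := rfl
    have e2 : cb sF 3 = -1 := rfl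
    rw [e1, e2, map_neg, map_one] at h
    change xi F2 sF (3, 2) ^ 2 = xi F2 sF (3, 0) ^ 2 - xi F2 sF (3, 1) ^ 2
    rw [h]; ring
  h33 := by
    have h := xi3_sq F2 sF 3
    have e1 : SSF.cc sF 3 = 1 := rfl
    have e2 : cd sF 3 = 1 := rfl
    rw [e1, e2, map_one] at h
    change xi F2 sF (3, 3) ^ 2 = xi F2 sF (3, 0) ^ 2 + xi F2 sF (3, 1) ^ 2
    rw [h]; ring

/-- The degree of `q`. -/
def dgW : Lam := e (2, 0) + e (2, 2) + e (1, 0)
/-- The degree of `Y_1`, `Y_2`. -/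
def dgY : Lam := e (0, 2) + e (1, 1) + e (1, 2)
/-- The degree of `u`. -/
def dgU : Lam := e (0, 3) + e (1, 0) + e (1, 2)

theorem Ls_e (i : Fin 4) (j : Fin 4) (h : sV (i, j) = (i, j)) : e (i, j) ∈ Lsig := by
  change sL (e (i, j)) = e (i, j)
  rw [sL_e, h]

theorem Ls_W : dgW ∈ Lsig := by
  change sL dgW = dgW
  decide

theorem Ls_Y : dgY ∈ Lsig := by
  change sL dgY = dgY
  decide

theorem Ls_U : dgU ∈ Lsig := by
  change sL dgU = dgU
  decide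

/-- Build an element of `RF`. -/
noncomputable def mk (γ : Lam) (x : R F2 sF) (hγ : γ ∈ Lsig) (hx : x ∈ gr F2 sF γ)
    (h : sigR x = x) : RF := ⟨x, mem_RF_of hγ hx h⟩

theorem SSmul_mem {γ : Lam} {x : R F2 sF} (hx : x ∈ gr F2 sF γ) : SS * x ∈ gr F2 sF γ :=
  alg_mul_mem sF hx

theorem sq_mem (i j : Fin 4) : xx i j ^ 2 ∈ gr F2 sF (Fc i) := xi_sq_mem_gr (i, j)

theorem al_mem (i : Fin 4) : al i xx ∈ gr F2 sF (Fc i) :=
  Submodule.add_mem _ (sq_mem i 0) (sq_mem i 1)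

theorem be_mem (i : Fin 4) : be i SS xx ∈ gr F2 sF (Fc i) :=
  SSmul_mem (Submodule.sub_mem _ (sq_mem i 0) (sq_mem i 1))

theorem m3 {a b c : Lam} {x y z : R F2 sF} (hx : x ∈ gr F2 sF a) (hy : y ∈ gr F2 sF b)
    (hz : z ∈ gr F2 sF c) : x * y * z ∈ gr F2 sF (a + b + c) :=
  SetLike.mul_mem_graded (SetLike.mul_mem_graded hx hy) hz

theorem mem_cast {a b : Lam} {x : R F2 sF} (hx : x ∈ gr F2 sF a) (h : a = b) :
    x ∈ gr F2 sF b := h ▸ hx

theorem qW_mem : qW xx ∈ gr F2 sF dgW :=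
  Submodule.add_mem _ (m3 (xx_mem 2 0) (xx_mem 2 2) (xx_mem 1 0))
    (mem_cast (m3 (xx_mem 2 1) (xx_mem 2 3) (xx_mem 1 1)) (by decide))

theorem qWm_mem : qWm SS xx ∈ gr F2 sF dgW :=
  SSmul_mem (Submodule.sub_mem _ (m3 (xx_mem 2 0) (xx_mem 2 2) (xx_mem 1 0))
    (mem_cast (m3 (xx_mem 2 1) (xx_mem 2 3) (xx_mem 1 1)) (by decide)))

theorem Y1_mem : Y1 xx ∈ gr F2 sF dgY :=
  Submodule.add_mem _ (m3 (xx_mem 0 2) (xx_mem 1 1) (xx_mem 1 2))
    (mem_cast (m3 (xx_mem 0 3) (xx_mem 1 0) (xx_mem 1 3)) (by decide))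

theorem Y2_mem : Y2 SS xx ∈ gr F2 sF dgY :=
  SSmul_mem (Submodule.sub_mem _ (m3 (xx_mem 0 2) (xx_mem 1 1) (xx_mem 1 2))
    (mem_cast (m3 (xx_mem 0 3) (xx_mem 1 0) (xx_mem 1 3)) (by decide)))

theorem uu_mem : uu xx ∈ gr F2 sF dgU :=
  Submodule.add_mem _ (m3 (xx_mem 0 3) (xx_mem 1 0) (xx_mem 1 2))
    (mem_cast (m3 (xx_mem 0 2) (xx_mem 1 1) (xx_mem 1 3)) (by decide))

theorem VV_mem : VV xx ∈ gr F2 sF (Fc 0 + 2 • Fc 1) := by
  have h := SetLike.mul_mem_graded (SetLike.mul_mem_graded (SetLike.mul_mem_graded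
    (SetLike.mul_mem_graded (SetLike.mul_mem_graded (xx_mem 0 2) (xx_mem 0 3)) (xx_mem 1 0))
    (xx_mem 1 1)) (xx_mem 1 2)) (xx_mem 1 3)
  exact mem_cast h (by decide)

/-! ### The elements of `RF` -/

/-- A coordinate fixed by the Frobenius. -/
noncomputable def fx (i j : Fin 4) (h : sV (i, j) = (i, j)) : RF :=
  mk (e (i, j)) (xx i j) (Ls_e i j h) (xx_mem i j) (by rw [sig_xx, h]; rfl)

theorem sig00 : sigR (xx 1 0) = xx 1 1 := sig_xx 1 0
theorem sig01 : sigR (xx 1 1) = xx 1 0 := sig_xx 1 1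
theorem sig02 : sigR (xx 1 2) = xx 1 3 := sig_xx 1 2
theorem sig03 : sigR (xx 1 3) = xx 1 2 := sig_xx 1 3
theorem sig20 : sigR (xx 2 0) = xx 2 1 := sig_xx 2 0
theorem sig21 : sigR (xx 2 1) = xx 2 0 := sig_xx 2 1
theorem sig22 : sigR (xx 2 2) = xx 2 3 := sig_xx 2 2
theorem sig23 : sigR (xx 2 3) = xx 2 2 := sig_xx 2 3
theorem sig12 : sigR (xx 0 2) = xx 0 3 := sig_xx 0 2
theorem sig13 : sigR (xx 0 3) = xx 0 2 := sig_xx 0 3

/-- `a2` -/
noncomputable def fa2 : RF := mk (Fc 1) (al 1 xx) (Fc_mem 1) (al_mem 1) (by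
  simp only [al, map_add, map_pow, sig00, sig01]; ring)
/-- `b2` -/
noncomputable def fb2 : RF := mk (Fc 1) (be 1 SS xx) (Fc_mem 1) (be_mem 1) (by
  simp only [be, map_mul, map_sub, map_pow, sig00, sig01, sigR_SS]; ring)
/-- `a3` -/
noncomputable def fa3 : RF := mk (Fc 2) (al 2 xx) (Fc_mem 2) (al_mem 2) (by
  simp only [al, map_add, map_pow, sig20, sig21]; ring)
/-- `b3` -/
noncomputable def fb3 : RF := mk (Fc 2) (be 2 SS xx) (Fc_mem 2) (be_mem 2) (by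
  simp only [be, map_mul, map_sub, map_pow, sig20, sig21, sigR_SS]; ring)
/-- `q` -/
noncomputable def fq : RF := mk dgW (qW xx) Ls_W qW_mem (by
  simp only [qW, map_add, map_mul, sig20, sig21, sig22, sig23, sig00, sig01]; ring)
/-- `q^-` -/
noncomputable def fqm : RF := mk dgW (qWm SS xx) Ls_W qWm_mem (by
  simp only [qWm, map_sub, map_mul, sig20, sig21, sig22, sig23, sig00, sig01, sigR_SS]; ring)
/-- `Y1` -/
noncomputable def fY1 : RF := mk dgY (Y1 xx) Ls_Y Y1_mem (by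
  simp only [Y1, map_add, map_mul, sig12, sig13, sig00, sig01, sig02, sig03]; ring)
/-- `Y2` -/
noncomputable def fY2 : RF := mk dgY (Y2 SS xx) Ls_Y Y2_mem (by
  simp only [Y2, map_sub, map_mul, sig12, sig13, sig00, sig01, sig02, sig03, sigR_SS]; ring)
/-- `u` -/
noncomputable def fu : RF := mk dgU (uu xx) Ls_U uu_mem (by
  simp only [uu, map_add, map_mul, sig12, sig13, sig00, sig01, sig02, sig03]; ring)
/-- `V` -/
noncomputable def fV : RF := mk (Fc 0 + 2 • Fc 1) (VV xx)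
  (Lsig.add_mem (Fc_mem 0) (Lsig.nsmul_mem (Fc_mem 1) 2)) VV_mem (by
  simp only [VV, map_mul, sig12, sig13, sig00, sig01, sig02, sig03]; ring)
/-- the cofactor -/
noncomputable def fc : RF := fa3 * (fb2 + 9 * fa2) + fb3 * (3 * fb2 + 9 * fa2)

end Pool.Agent.SSF.Ev
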