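import Pool.Agent.SSF.XDesc

/-!
# SSF, layer E: `RF` is a direct summand of `R F2 sF` as an `RF`-module, so every ideal of `RF` is
the contraction of its extension.
-/

set_option autoImplicit false

namespace Pool.Agent.SSF.Ev

open MvPolynomial DirectSum XDesc

/-- Projection on the degrees in `Lsig`. -/
noncomputable def pr : R F2 sF →+ R F2 sF := by
  classical
  exact (DirectSum.toAddMonoid fun γ : Lam =>
    if γ ∈ Lsig then (gr F2 sF γ).subtype.toAddMonoidHom else 0).comp
      (DirectSum.decomposeAddEquiv (gr F2 sF)).toAddMonoidHom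

theorem pr_of_mem {γ : Lam} (hγ : γ ∈ Lsig) {x : R F2 sF} (hx : x ∈ gr F2 sF γ) : pr x = x := by
  classical
  unfold pr
  simp only [AddMonoidHom.comp_apply, AddEquiv.toAddMonoidHom_eq_coe, AddMonoidHom.coe_coe,
    DirectSum.decomposeAddEquiv_apply]
  rw [DirectSum.decompose_of_mem _ hx, DirectSum.toAddMonoid_of, if_pos hγ]
  rfl

theorem pr_of_not {γ : Lam} (hγ : γ ∉ Lsig) {x : R F2 sF} (hx : x ∈ gr F2 sF γ) : pr x = 0 := by
  classical
  unfold pr
  simp only [AddMonoidHom.comp_apply, AddEquiv.toAddMonoidHom_eq_coe, AddMonoidHom.coe_coe,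
    DirectSum.decomposeAddEquiv_apply]
  rw [DirectSum.decompose_of_mem _ hx, DirectSum.toAddMonoid_of, if_neg hγ]
  rfl

theorem RF_comp {r : R F2 sF} (hr : r ∈ RF) (γ : Lam) :
    (decompose (gr F2 sF) r γ : R F2 sF) ≠ 0 → γ ∈ Lsig := by
  intro h
  by_contra hc
  exact h (hr.2 γ hc)

theorem pr_RF {r : R F2 sF} (hr : r ∈ RF) : pr r = r := by
  classical
  conv_lhs => rw [← DirectSum.sum_support_decompose (gr F2 sF) r]
  conv_rhs => rw [← DirectSum.sum_support_decompose (gr F2 sF) r]
  rw [map_sum]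
  refine Finset.sum_congr rfl fun γ hγ => ?_
  refine pr_of_mem (RF_comp hr γ fun h0 => ?_) (SetLike.coe_mem _)
  rw [DFinsupp.mem_support_iff] at hγ
  exact hγ (Subtype.ext h0)

theorem pr_mul {r : R F2 sF} (hr : r ∈ RF) (x : R F2 sF) : pr (r * x) = r * pr x := by
  classical
  induction x using DirectSum.Decomposition.inductionOn (gr F2 sF) with
  | zero => simp
  | @homogeneous δ m =>
    have key : ∀ γ ∈ Lsig, ∀ y ∈ gr F2 sF γ, pr (y * (m : R F2 sF)) = y * pr (m : R F2 sF) := by
      intro γ hγ y hy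
      by_cases hδ : δ ∈ Lsig
      · rw [pr_of_mem hδ m.2, pr_of_mem (Lsig.add_mem hγ hδ) (SetLike.mul_mem_graded hy m.2)]
      · rw [pr_of_not hδ m.2, mul_zero, pr_of_not (fun h => hδ ?_)
          (SetLike.mul_mem_graded hy m.2)]
        have := Lsig.sub_mem h hγ
        rwa [add_sub_cancel_left] at this
    conv_lhs => rw [← DirectSum.sum_support_decompose (gr F2 sF) r]
    conv_rhs => rw [← DirectSum.sum_support_decompose (gr F2 sF) r]
    rw [Finset.sum_mul, Finset.sum_mul, map_sum]
    refine Finset.sum_congr rfl fun γ hγ => ?_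
    refine key γ (RF_comp hr γ fun h0 => ?_) _ (SetLike.coe_mem _)
    rw [DFinsupp.mem_support_iff] at hγ
    exact hγ (Subtype.ext h0)
  | add a b ha hb => rw [mul_add, map_add, map_add, ha, hb, mul_add]

theorem decompose_pr (x : R F2 sF) (γ : Lam) (hγ : γ ∉ Lsig) :
    (decompose (gr F2 sF) (pr x) γ : R F2 sF) = 0 := by
  classical
  induction x using DirectSum.Decomposition.inductionOn (gr F2 sF) with
  | zero => simp
  | @homogeneous δ m =>
    by_cases hδ : δ ∈ Lsig
    · rw [pr_of_mem hδ m.2, decompose_of_mem _ m.2, of_eq_of_ne]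
      · rfl
      · rintro rfl
        exact hγ hδ
    · rw [pr_of_not hδ m.2]
      simp
  | add a b ha hb =>
    rw [map_add, decompose_add, DirectSum.add_apply, Submodule.coe_add, ha, hb, add_zero]

theorem avg_mem (x : R F2 sF) : 9 * (pr x + sigR (pr x)) ∈ RF := by
  refine ⟨?_, fun γ hγ => ?_⟩
  · rw [map_mul, map_add, sigR_sigR, map_ofNat, add_comm]
  · have h1 := decompose_pr x γ hγ
    have h2 : (decompose (gr F2 sF) (sigR (pr x)) γ : R F2 sF) = 0 := by
      have h3 := conjR_decompose starF starF_sF (pr x) (sL γ)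
      rw [sL_sL] at h3
      change _ = (decompose (gr F2 sF) (sigR (pr x)) γ : R F2 sF) at h3
      rw [← h3, decompose_pr x (sL γ) fun h => ?_, map_zero]
      have h4 : sL (sL γ) = sL γ := h
      rw [sL_sL] at h4
      exact hγ h4.symm
    have e2 : (9 : R F2 sF) * (pr x + sigR (pr x)) = (9 : F2) • (pr x + sigR (pr x)) := by
      rw [← map_ofNat (algebraMap F2 (R F2 sF)) 9, ← Algebra.smul_def]
    rw [e2]
    have h5 : decompose (gr F2 sF) ((9 : F2) • (pr x + sigR (pr x))) =
        (9 : F2) • decompose (gr F2 sF) (pr x + sigR (pr x)) :=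
      map_smul (decomposeLinearEquiv (gr F2 sF)) _ _
    rw [h5, DirectSum.smul_apply, Submodule.coe_smul, decompose_add, DirectSum.add_apply,
      Submodule.coe_add, h1, h2, add_zero, smul_zero]

/-- The retraction of `R F2 sF` onto `RF`. -/
noncomputable def ret (x : R F2 sF) : RF := ⟨9 * (pr x + sigR (pr x)), avg_mem x⟩

theorem ret_add (x y : R F2 sF) : ret (x + y) = ret x + ret y := by
  apply Subtype.ext
  change 9 * (pr (x + y) + sigR (pr (x + y))) =
    9 * (pr x + sigR (pr x)) + 9 * (pr y + sigR (pr y))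
  rw [map_add, map_add]; ring

theorem ret_mul (r : RF) (x : R F2 sF) : ret ((r : R F2 sF) * x) = r * ret x := by
  apply Subtype.ext
  change 9 * (pr ((r : R F2 sF) * x) + sigR (pr ((r : R F2 sF) * x))) =
    (r : R F2 sF) * (9 * (pr x + sigR (pr x)))
  rw [pr_mul r.2, map_mul, r.2.1]; ring

theorem ret_RF (r : RF) : ret (r : R F2 sF) = r := by
  apply Subtype.ext
  change 9 * (pr (r : R F2 sF) + sigR (pr (r : R F2 sF))) = (r : R F2 sF)
  rw [pr_RF r.2, r.2.1]
  linear_combination (r : R F2 sF) * h17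

theorem ret_mem_of_map (J : Ideal RF) (y : R F2 sF)
    (hy : y ∈ J.map (algebraMap RF (R F2 sF))) (a : R F2 sF) : ret (a * y) ∈ J := by
  revert a
  rw [Ideal.map] at hy
  induction hy using Submodule.span_induction with
  | mem z hz =>
    obtain ⟨r, hr, rfl⟩ := hz
    intro a
    have : a * algebraMap RF (R F2 sF) r = (r : R F2 sF) * a := mul_comm _ _
    rw [this, ret_mul]
    exact J.mul_mem_right _ hr
  | zero =>
    intro a
    have : ret 0 = 0 := ret_RF 0
    rw [mul_zero, this]; exact J.zero_mem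
  | add a b _ _ ha hb => intro c; rw [mul_add, ret_add]; exact J.add_mem (ha c) (hb c)
  | smul a z _ hz =>
    intro c
    rw [smul_eq_mul, ← mul_assoc]
    exact hz _

/-- Every ideal of `RF` is the contraction of its extension. -/
theorem mem_of_mem_map (J : Ideal RF) (x : RF)
    (h : (x : R F2 sF) ∈ J.map (algebraMap RF (R F2 sF))) : x ∈ J := by
  have := ret_mem_of_map J _ h 1
  rwa [one_mul, ret_RF] at this

/-- The retraction on multiples by scalars of elements of `RF`. -/
theorem ret_alg (c : F2) (m : RF) :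
    ret (algebraMap F2 (R F2 sF) c * (m : R F2 sF)) = algebraMap F17 RF c.re * m := by
  have hc : algebraMap F2 (R F2 sF) c = algebraMap F17 (R F2 sF) c.re +
      SS * algebraMap F17 (R F2 sF) c.im := by
    unfold SS
    rw [IsScalarTower.algebraMap_apply F17 F2 (R F2 sF),
      IsScalarTower.algebraMap_apply F17 F2 (R F2 sF), ← map_mul, ← map_add]
    congr 1
    refine QuadraticAlgebra.ext ?_ ?_ <;> simp [sF]
  have h1 : algebraMap F2 (R F2 sF) c * (m : R F2 sF) =
      ((algebraMap F17 RF c.re * m : RF) : R F2 sF) +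
        ((algebraMap F17 RF c.im * m : RF) : R F2 sF) * SS := by
    rw [hc]
    change _ = algebraMap F17 (R F2 sF) c.re * (m : R F2 sF) +
      algebraMap F17 (R F2 sF) c.im * (m : R F2 sF) * SS
    ring
  have h2 : ret SS = 0 := by
    have h3 : pr SS = SS := pr_of_mem Lsig.zero_mem (SetLike.algebraMap_mem_graded (gr F2 sF) _)
    apply Subtype.ext
    change 9 * (pr SS + sigR (pr SS)) = 0
    rw [h3, sigR_SS, add_neg_cancel, mul_zero]
  rw [h1, ret_add, ret_RF, ret_mul, h2, mul_zero, add_zero]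

end Pool.Agent.SSF.Ev
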