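import Pool.Agent.SSF.Dim

/-!
# SSF: a section which is regular in high degrees lowers the dimension
-/

set_option autoImplicit false

namespace Pool.Agent.SSF

open Pool.Agent.Helper88.SSF

namespace Cox

namespace Ev

/-- An element of a minimal prime over `I` is nilpotent modulo `I` after multiplication by an
element outside the prime. -/
theorem exists_mul_pow_mem {A : Type*} [CommRing A] {I q : Ideal A} (hq : q ∈ I.minimalPrimes)
    {f : A} (hf : f ∈ q) : ∃ w ∉ q, ∃ n : ℕ, w * f ^ n ∈ I := by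
  by_contra hcon
  push Not at hcon
  have hp : q.IsPrime := hq.1.1
  have hdis : Disjoint (I : Set A) ((q.primeCompl ⊔ Submonoid.powers f : Submonoid A) : Set A) := by
    rw [Set.disjoint_left]
    intro x hx hxS
    obtain ⟨w, hw, z, hz, rfl⟩ := Submonoid.mem_sup.1 hxS
    obtain ⟨n, rfl⟩ := (Submonoid.mem_powers_iff z f).1 hz
    exact hcon w hw n hx
  obtain ⟨P, hP, hIP, hPS⟩ := Ideal.exists_le_prime_disjoint I _ hdis
  have hPq : P ≤ q := by
    intro x hx
    by_contra hxq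
    exact Set.disjoint_left.1 hPS hx (Submonoid.mem_sup_left (S := q.primeCompl) hxq)
  have hqP := hq.2 ⟨hP, hIP⟩ hPq
  exact Set.disjoint_left.1 hPS (hqP hf)
    (Submonoid.mem_sup_right (T := Submonoid.powers f) (Submonoid.mem_powers f))

variable {k : Type} [CommRing k] {D : Cox k}

theorem one_notMem_pt (hD : D.Good) (q : D.Pt) : (1 : D.R) ∉ D.pt q := by
  intro h
  have h1 : (1 : D.A) ∈ (D.pt q).comap D.φ := by
    rw [Ideal.mem_comap, map_one]
    exact h
  rw [D.comap_pt hD q] at h1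
  exact q.isPrime.ne_top (Ideal.eq_top_iff_one _ |>.2 h1)

theorem pow_mem_gR {a : D.Γ} {x : D.R} (hx : x ∈ D.gR a) (n : ℕ) : x ^ n ∈ D.gR (n • a) :=
  SetLike.pow_mem_graded n hx

theorem pow_notMem_pt (hD : D.Good) (q : D.Pt) {a : D.Γ} {x : D.R} (hx : x ∈ D.gR a)
    (hq : x ∉ D.pt q) (n : ℕ) : x ^ n ∉ D.pt q := by
  induction n with
  | zero => rw [pow_zero]; exact one_notMem_pt hD q
  | succ n ih =>
    rw [pow_succ]
    intro h
    rcases D.pt_prime hD q (pow_mem_gR hx n) hx h with h | h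
    · exact ih h
    · exact hq h

/-- A minimal point of `V(J)` is a minimal prime over `tr J`. -/
theorem mem_minimalPrimes (hD : D.Good) {J : Ideal D.R} (q : D.Pt) (hq : D.On J q)
    (hmin : ∀ p, D.On J p → p ≤ q → p = q) :
    q.asHomogeneousIdeal.toIdeal ∈ (D.tr J).minimalPrimes := by
  refine ⟨⟨q.isPrime, (D.on_iff_tr_le hD J q).1 hq⟩, ?_⟩
  rintro P ⟨hP, hIP⟩ hPq
  have hcle : (P.homogeneousCore D.gA).toIdeal ≤ P := Ideal.toIdeal_homogeneousCore_le D.gA P
  have h3 : D.tr J ≤ (P.homogeneousCore D.gA).toIdeal := by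
    have h1 := Ideal.homogeneousCore_mono D.gA hIP
    have h2 := (D.tr_homogeneous J).toIdeal_homogeneousCore_eq_self
    rw [← h2]
    exact h1
  let p : D.Pt := ⟨P.homogeneousCore D.gA, hP.homogeneousCore, fun hle =>
    q.not_irrelevant_le (fun a ha => hPq (hcle (hle ha)))⟩
  have hpq : p ≤ q := fun a ha => hPq (hcle ha)
  have hp : p = q := hmin p ((D.on_iff_tr_le hD J p).2 h3) hpq
  rw [← hp]
  exact hcle

theorem tr_le (J : Ideal D.R) (hJ : J.IsHomogeneous D.gR) : D.tr J ≤ J.comap D.φ := by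
  refine Ideal.span_le.2 ?_
  rintro a ⟨n, ha, z, hz, γ, y, hy, e⟩
  rw [SetLike.mem_coe, Ideal.mem_comap, e]
  exact Ideal.mul_mem_right _ _ (hJ γ hz)

/-- Powers of a regular section. -/
theorem reg_pow {J : Ideal D.R} {a : D.Γ} {X : D.R} (hX : X ∈ D.gR a)
    (rX : D.High fun γ => ∀ x ∈ D.gR γ, X * x ∈ J → x ∈ J) (n : ℕ) :
    D.High fun γ => ∀ x ∈ D.gR γ, X ^ n * x ∈ J → x ∈ J := by
  induction n with
  | zero => exact fun γ => ⟨0, fun n _ x _ h => by rwa [pow_zero, one_mul] at h⟩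
  | succ n ih =>
    intro γ
    obtain ⟨N, hN⟩ := ih γ
    obtain ⟨N', hN'⟩ := rX (n • a + γ)
    refine ⟨max N N', fun c hc x hx h => ?_⟩
    refine hN c ((le_max_left _ _).trans hc) x hx ?_
    refine hN' c ((le_max_right _ _).trans hc) _ ?_ ?_
    · rw [add_assoc]
      exact SetLike.mul_mem_graded (pow_mem_gR hX n) hx
    · rwa [← mul_assoc, ← pow_succ']

/-- A regular section does not vanish at the minimal points. -/
theorem notMem_of_minimal (hD : D.Good) {J : Ideal D.R} (hJ : J.IsHomogeneous D.gR) {a : D.Γ}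
    {X : D.R} (hX : X ∈ D.gR a) (rX : D.High fun γ => ∀ x ∈ D.gR γ, X * x ∈ J → x ∈ J)
    (q : D.Pt) (hq : D.On J q) (hmin : ∀ p, D.On J p → p ≤ q → p = q) : X ∉ D.pt q := by
  intro hXq
  classical
  have hqm := mem_minimalPrimes hD q hq hmin
  obtain ⟨N, -, y, hy, hyq⟩ := D.pt_ne_top hD q (-a) 0
  have hXy : X * y ∈ D.gR (N • D.h) := by
    have h1 := SetLike.mul_mem_graded hX hy
    rwa [add_neg_cancel_left] at h1
  obtain ⟨f, hf, hfe⟩ := D.φ_surj N _ hXy
  have hfq : f ∈ q.asHomogeneousIdeal.toIdeal := by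
    rw [← D.comap_pt hD q, Ideal.mem_comap, hfe]
    exact Ideal.mul_mem_right _ _ hXq
  obtain ⟨w, hw, n, hwn⟩ := exists_mul_pow_mem hqm hfq
  obtain ⟨i, hi⟩ : ∃ i, (DirectSum.decompose D.gA w i : D.A) ∉ q.asHomogeneousIdeal.toIdeal := by
    by_contra hcon
    push Not at hcon
    apply hw
    rw [← DirectSum.sum_support_decompose D.gA w]
    exact Ideal.sum_mem _ fun i _ => hcon i
  set v : D.A := (DirectSum.decompose D.gA w i : D.A) with hv
  have hvm : v ∈ D.gA i := SetLike.coe_mem _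
  have hfn : f ^ n ∈ D.gA (n • N) := SetLike.pow_mem_graded n hf
  have hvI : v * f ^ n ∈ D.tr J := by
    have h1 := D.tr_homogeneous J (i + n • N) hwn
    have h2 : (DirectSum.decompose D.gA (w * f ^ n) (i + n • N) : D.A) = v * f ^ n :=
      DirectSum.coe_decompose_mul_add_of_right_mem D.gA hfn
    rwa [h2] at h1
  have hvJ := tr_le J hJ hvI
  rw [Ideal.mem_comap, map_mul, map_pow, hfe, mul_pow] at hvJ
  have hφv : D.φ v ∉ D.pt q := by
    intro h
    apply hi
    rw [← D.comap_pt hD q]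
    exact h
  have hφvm : D.φ v ∈ D.gR (i • D.h) := D.φ_mem i v hvm
  set W : D.R := D.φ v * y ^ n with hW
  have hyn := pow_mem_gR hy n
  have hWm : W ∈ D.gR (i • D.h + n • (-a + N • D.h)) := SetLike.mul_mem_graded hφvm hyn
  have hWq : W ∉ D.pt q := by
    intro h
    rcases D.pt_prime hD q hφvm hyn h with h | h
    · exact hφv h
    · exact pow_notMem_pt hD q hy hyq n h
  have hXW : X ^ n * W ∈ J := by
    rw [hW]
    have e : X ^ n * (D.φ v * y ^ n) = D.φ v * (X ^ n * y ^ n) := by ring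
    rw [e]
    exact hvJ
  obtain ⟨N', hN'⟩ := reg_pow hX rX n (i • D.h + n • (-a + N • D.h))
  obtain ⟨c, hc, z, hz, hzq⟩ := D.pt_ne_top hD q 0 N'
  rw [zero_add] at hz
  have hWz := hN' c hc (W * z) (SetLike.mul_mem_graded hWm hz) (by
    rw [← mul_assoc]
    exact Ideal.mul_mem_right _ _ hXW)
  rcases D.pt_prime hD q hWm hz (hq hWz) with h | h
  · exact hWq h
  · exact hzq h

/-- A section which is regular in high degrees lowers the dimension. -/
theorem dlt_of_reg [IsNoetherianRing k] (hD : D.Good) {J : Ideal D.R}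
    (hJ : J.IsHomogeneous D.gR) {a : D.Γ}
    {X : D.R} (hX : X ∈ D.gR a) (rX : D.High fun γ => ∀ x ∈ D.gR γ, X * x ∈ J → x ∈ J)
    {j : ℕ} (hd : D.DLT J (j + 1)) : D.DLT (J ⊔ Ideal.span {X}) j := by
  classical
  intro l hl
  have h1 : D.On J l.head := le_trans le_sup_left hl
  have h2 : X ∈ D.pt l.head := hl (Ideal.mem_sup_right (Ideal.mem_span_singleton_self X))
  obtain ⟨F, hF1, hF2⟩ := D.finite_minimal hD J
  obtain ⟨q0, hq0, hq0le⟩ := hF2 _ h1
  obtain ⟨q, hqle, hqmin⟩ := (F.filter fun q => q ≤ l.head).exists_minimal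
    ⟨q0, Finset.mem_filter.2 ⟨hq0, hq0le⟩⟩
  rw [Finset.mem_filter] at hqle
  have hq : D.On J q := hF1 q hqle.1
  have hXq : X ∉ D.pt q := by
    refine notMem_of_minimal hD hJ hX rX q hq ?_
    intro p hp hpq
    obtain ⟨q', hq', hle⟩ := hF2 p hp
    have h3 : q ≤ q' := hqmin (Finset.mem_filter.2 ⟨hq', hle.trans (hpq.trans hqle.2)⟩)
      (hle.trans hpq)
    exact le_antisymm hpq (h3.trans hle)
  have hlt : q < l.head := by
    refine lt_of_le_of_ne hqle.2 ?_
    rintro rfl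
    exact hXq h2
  have h5 := hd (l.cons q hlt) (by
    rw [RelSeries.head_cons]
    exact hq)
  rw [RelSeries.cons_length] at h5
  omega

end Ev

/-- A section which is regular in high degrees lowers the dimension. -/
theorem dimLE_of_reg {k : Type} [CommRing k] {D : Cox k} [IsNoetherianRing k] (hD : D.Good) {J : Ideal D.R}
    (hJ : J.IsHomogeneous D.gR) {a : D.Γ}
    {X : D.R} (hX : X ∈ D.gR a) (rX : D.High fun γ => ∀ x ∈ D.gR γ, X * x ∈ J → x ∈ J)
    {d : ℕ} (hd : D.DimLE J (d + 1)) : D.DimLE (J ⊔ Ideal.span {X}) d :=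
  dlt_iff.1 (Ev.dlt_of_reg hD hJ hX rX (dlt_iff.2 hd))

end Cox
end Pool.Agent.SSF
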