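import Pool.Agent.SSF.E2c
import Pool.Agent.SSF.RegDim
import Pool.Agent.SSF.EmbSelf
import Pool.Agent.SSF.XCox

/-!
# SSF, layer E: the dimension of the two surfaces
-/

set_option autoImplicit false
open scoped TensorProduct

namespace Pool.Agent.SSF.EDim

open MvPolynomial DirectSum E2

section split

variable {k : Type} [Field k] (s : k)

theorem Kl_eq : relI k s ⊔ Ideal.span {x 2 0 ^ 2 - x 2 1 ^ 2} = KI Dl (al s) := by
  rw [relI_eq]
  refine KI_step (2, 0) 2 two_ne_zero _ rfl (by decide) rfl ?_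
  rintro ⟨i, j⟩ hv
  fin_cases i
  · exact ⟨0, by simp [a0, al]⟩
  · exact ⟨0, by simp [a0, al]⟩
  · fin_cases j
    · exact absurd rfl hv
    · exact absurd rfl hv
    · refine ⟨C (1 + 2 * s), ?_⟩
      simp [a0, al, r2, r2']
      ring
    · refine ⟨-1, ?_⟩
      simp [a0, al, r2, r2']
      ring
  · exact ⟨0, by simp [a0, al]⟩

theorem r3_mem {S : Set V} (h0 : ((3, 0) : V) ∈ S) (h1 : ((3, 1) : V) ∈ S) (j : Fin 4) :
    (r3 j : MvPolynomial V k) ∈ supported k S := by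
  fin_cases j
  · exact zero_mem _
  · exact zero_mem _
  · exact Subalgebra.sub_mem _ (sq_mem_supp h0) (sq_mem_supp h1)
  · exact Subalgebra.add_mem _ (sq_mem_supp h0) (sq_mem_supp h1)

theorem r2_mem {S : Set V} (h0 : ((2, 0) : V) ∈ S) (h1 : ((2, 1) : V) ∈ S) (j : Fin 4) :
    r2 s j ∈ supported k S := by
  fin_cases j
  · exact zero_mem _
  · exact zero_mem _
  · exact Subalgebra.sub_mem _ (csq_mem_supp h0 _) (sq_mem_supp h1)
  · exact Subalgebra.add_mem _ (Subalgebra.neg_mem _ (sq_mem_supp h0)) (csq_mem_supp h1 _)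

/-- `x_3 - x_3'` is a nonzerodivisor. -/
theorem nz_l : NZ (relI k s) (x 2 0 ^ 2 - x 2 1 ^ 2) := by
  rw [relI_eq]
  refine nz_KI D0 (a0 s) ?_ ?_ ?_
  · rintro ⟨i, j⟩ _
    fin_cases i
    · exact r0_mem s (S := {v : V | D0 v = 0}) rfl rfl j
    · exact r1_mem s (S := {v : V | D0 v = 0}) rfl rfl j
    · exact r2_mem s (S := {v : V | D0 v = 0}) rfl rfl j
    · exact r3_mem (S := {v : V | D0 v = 0}) rfl rfl j
  · exact Subalgebra.sub_mem _ (sq_mem_supp (S := {v : V | D0 v = 0}) rfl)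
      (sq_mem_supp (S := {v : V | D0 v = 0}) rfl)
  · intro h
    have h1 := congrArg (eval (fun v : V => if v = (2, 0) then (1 : k) else 0)) h
    simp at h1

/-- The coordinate `ξ_4a` is a nonzerodivisor modulo `x_3 - x_3'`. -/
theorem nz_v (a : Fin 2) : NZ (relI k s ⊔ Ideal.span {x 2 0 ^ 2 - x 2 1 ^ 2}) (X (va a)) := by
  rw [Kl_eq]
  refine nz_KI Dl (al s) ?_ ?_ ?_
  · rintro ⟨i, j⟩ _
    fin_cases i
    · exact r0_mem s (S := {v : V | Dl v = 0}) rfl rfl j
    · exact r1_mem s (S := {v : V | Dl v = 0}) rfl rfl j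
    · exact r2'_mem s (S := {v : V | Dl v = 0}) rfl j
    · exact r3_mem (S := {v : V | Dl v = 0}) rfl rfl j
  · refine X_mem_supported.2 ?_
    fin_cases a <;> rfl
  · exact X_ne_zero _

theorem R_l : NZ (⊥ : Ideal (R k s)) (xi k s (2, 0) ^ 2 - xi k s (2, 1) ^ 2) := by
  have h := NZ.quot (I := relI k s) (K := (⊥ : Ideal (MvPolynomial V k)))
    (f := x 2 0 ^ 2 - x 2 1 ^ 2) (by rw [sup_bot_eq]; exact nz_l s)
  rw [Ideal.map_bot] at h
  exact h

theorem R_v (a : Fin 2) : NZ (Ideal.span {xi k s (2, 0) ^ 2 - xi k s (2, 1) ^ 2})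
    (xi k s (va a)) := by
  have h := NZ.quot (I := relI k s)
    (K := (Ideal.span {x 2 0 ^ 2 - x 2 1 ^ 2} : Ideal (MvPolynomial V k)))
    (f := X (va a)) (nz_v s a)
  rw [Ideal.map_span, Set.image_singleton] at h
  exact h

end split

variable (a : Fin 2) {l v : RF}
  (hl : (l : R F2 sF) = algebraMap F2 (R F2 sF) sF * (xi F2 sF (2, 0) ^ 2 - xi F2 sF (2, 1) ^ 2))
  (hv : (v : R F2 sF) = xi F2 sF (va a))

include hl in
theorem RF_l : NZ (⊥ : Ideal RF) l := by
  apply NZ.down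
  rw [Ideal.map_bot, hl]
  intro m hm
  rw [mul_assoc] at hm
  refine R_l sF m ?_
  exact (sF_unit).mul_right_eq_zero.1 hm

include hl hv in
theorem RF_v : NZ (Ideal.span {l}) v := by
  apply NZ.down
  rw [Ideal.map_span, Set.image_singleton]
  have h1 : Ideal.span {algebraMap RF (R F2 sF) l} =
      Ideal.span {xi F2 sF (2, 0) ^ 2 - xi F2 sF (2, 1) ^ 2} := by
    change Ideal.span {(l : R F2 sF)} = _
    rw [hl, Ideal.span_singleton_mul_left_unit sF_unit]
  rw [h1, hv]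
  exact R_v sF a

/-- The dimension of `Proj A` in terms of the base change to the base field. -/
theorem dimLE_bot (h4 : ∀ c : LTSeries (DF.bc F17).Pt, c.length ≤ 4) :
    DF.DimLE ⊥ 4 := Cox.Asm.dimLE_bot_of_bc DF 4 h4

include hl hv in
/-- The two surfaces have dimension at most two. -/
theorem dimLE_two (hD : DF.Good) (h4 : DF.DimLE ⊥ 4) {γ δ : Lsig} (hlm : l ∈ grF γ)
    (hvm : v ∈ grF δ) : DF.DimLE (Ideal.span {v, l} : Ideal DF.R) 2 := by
  have h1 : DF.DimLE ((⊥ : Ideal DF.R) ⊔ Ideal.span {(l : DF.R)}) 3 := by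
    refine Cox.dimLE_of_reg hD (Ideal.IsHomogeneous.bot DF.gR) (a := γ) hlm ?_ h4
    intro _
    exact ⟨0, fun _ _ x _ hx => RF_l hl x hx⟩
  rw [bot_sup_eq] at h1
  have h2 : DF.DimLE (Ideal.span {(l : DF.R)} ⊔ Ideal.span {(v : DF.R)}) 2 := by
    refine Cox.dimLE_of_reg hD (Ideal.homogeneous_span DF.gR _ ?_) (a := δ) hvm ?_ h1
    · rintro x rfl
      exact ⟨γ, hlm⟩
    · intro _
      exact ⟨0, fun _ _ x _ hx => RF_v a hl hv x hx⟩
  rw [← Ideal.span_union] at h2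
  have h3 : ({(l : DF.R)} ∪ {(v : DF.R)} : Set DF.R) = {(v : DF.R), (l : DF.R)} := by
    rw [Set.union_comm]; rfl
  rw [h3] at h2
  exact h2

end Pool.Agent.SSF.EDim
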