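import Pool.Agent.SSF.EInst
import Pool.Agent.SSF.EDim

/-!
# SSF, layer E: the two values of the functional in the example
-/

set_option autoImplicit false

namespace Pool.Agent.SSF.Ev

open MvPolynomial DirectSum XDesc Cox

theorem span_pair_comm (a b : RF) : (Ideal.span {a, b} : Ideal RF) = Ideal.span {b, a} := by
  rw [Set.pair_comm]

theorem dim1 (h4 : DF.DimLE ⊥ 4) : DF.DimLE (Ideal.span {(fb3 : DF.R), fx 3 0 rfl}) 2 :=
  (congrArg (fun J : Ideal RF => DF.DimLE J 2) (span_pair_comm fb3 (fx 3 0 rfl))).mpr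
    (EDim.dimLE_two 0 rfl rfl DF_good h4 (γ := gF 2) (δ := gE 3 0 rfl) (be_mem 2) (xx_mem 3 0))

theorem dim2 (h4 : DF.DimLE ⊥ 4) : DF.DimLE (Ideal.span {(fb3 : DF.R), fx 3 1 rfl}) 2 :=
  (congrArg (fun J : Ideal RF => DF.DimLE J 2) (span_pair_comm fb3 (fx 3 1 rfl))).mpr
    (EDim.dimLE_two 1 rfl rfl DF_good h4 (γ := gF 2) (δ := gE 3 1 rfl) (be_mem 2) (xx_mem 3 1))

/-- The value at the first surface is the class of `3`. -/
theorem DF_eval1 (h4 : DF.DimLE ⊥ 4) {g l : RF} (hg : (g : R F2 sF) = xi F2 sF (3, 0))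
    (hl : (l : R F2 sF) = algebraMap F2 _ sF * (xi F2 sF (2, 0) ^ 2 - xi F2 sF (2, 1) ^ 2))
    {τ W ε : Lsig} (hτ : (τ : Lam) = e (3, 0) - e (3, 2))
    (hW : (W : Lam) = e (2, 0) + e (2, 2) + e (1, 0))
    (hε : (ε : Lam) = (e (1, 0) - e (1, 1)) + ((e (0, 2) - e (0, 0)) + (e (1, 2) - e (1, 0))))
    (n : F17ˣ) (hn : (n : F17) = 3) :
    DF.symb (Ideal.span {(g : DF.R), (l : DF.R)}) τ W ε = cls n := by
  have h1 : g = fx 3 0 rfl := Subtype.ext hg
  have h2 : l = fb3 := Subtype.ext hl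
  have h3 : τ = gTau := Subtype.ext hτ
  have h4' : W = gW := Subtype.ext hW
  have h5 : ε = gEps := Subtype.ext hε
  have h6 : n = Units.mk0 (3 : ZMod 17) (by decide) := Units.ext hn
  subst h1 h2 h3 h4' h5
  rw [h6]
  exact (congrArg (fun J : Ideal RF => DF.symb J gTau gW gEps)
    (span_pair_comm (fx 3 0 rfl) fb3)).trans ((ex (dim1 h4) (dim2 h4)).eval1 DF_good)

/-- The value at the second surface is trivial. -/
theorem DF_eval2 (h4 : DF.DimLE ⊥ 4) {g l : RF} (hg : (g : R F2 sF) = xi F2 sF (3, 1))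
    (hl : (l : R F2 sF) = algebraMap F2 _ sF * (xi F2 sF (2, 0) ^ 2 - xi F2 sF (2, 1) ^ 2))
    {τ W ε : Lsig} (hτ : (τ : Lam) = e (3, 0) - e (3, 2))
    (hW : (W : Lam) = e (2, 0) + e (2, 2) + e (1, 0))
    (hε : (ε : Lam) = (e (1, 0) - e (1, 1)) + ((e (0, 2) - e (0, 0)) + (e (1, 2) - e (1, 0)))) :
    DF.symb (Ideal.span {(g : DF.R), (l : DF.R)}) τ W ε = 1 := by
  have h1 : g = fx 3 1 rfl := Subtype.ext hg
  have h2 : l = fb3 := Subtype.ext hl
  have h3 : τ = gTau := Subtype.ext hτ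
  have h4' : W = gW := Subtype.ext hW
  have h5 : ε = gEps := Subtype.ext hε
  subst h1 h2 h3 h4' h5
  exact (congrArg (fun J : Ideal RF => DF.symb J gTau gW gEps)
    (span_pair_comm (fx 3 1 rfl) fb3)).trans ((ex (dim1 h4) (dim2 h4)).eval2 DF_good)

end Pool.Agent.SSF.Ev
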