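import Pool.Agent.SSF.EDefs

/-!
# SSF, layer E: a geometric point of `b3 = x41 = q = x11 = 0`
-/

set_option autoImplicit false

namespace Pool.Agent.SSF.Ev

open MvPolynomial DirectSum XDesc

/-- Homomorphism from `R k s` given by values satisfying the relations. -/
noncomputable def ptHom {k L : Type} [CommRing k] [CommRing L] (s : k) (f : k →+* L)
    (y : V → L)
    (h2 : ∀ i, y (i, 2) ^ 2 = f (ca s i) * y (i, 0) ^ 2 + f (cb s i) * y (i, 1) ^ 2)
    (h3 : ∀ i, y (i, 3) ^ 2 = f (SSF.cc s i) * y (i, 0) ^ 2 + f (cd s i) * y (i, 1) ^ 2) :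
    R k s →+* L :=
  Ideal.Quotient.lift (relI k s) (eval₂Hom f y) (by
    intro a ha
    have hle : relI k s ≤ RingHom.ker (eval₂Hom f y) := by
      unfold relI
      rw [Ideal.span_le]
      rintro _ (⟨i, rfl⟩ | ⟨i, rfl⟩)
      · change eval₂Hom f y (rel2 k s i) = 0
        simp only [rel2, map_sub, map_add, map_mul, map_pow, eval₂Hom_X', eval₂Hom_C]
        rw [h2, sub_self]
      · change eval₂Hom f y (rel3 k s i) = 0
        simp only [rel3, map_sub, map_add, map_mul, map_pow, eval₂Hom_X', eval₂Hom_C]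
        rw [h3, sub_self]
    exact hle ha)

theorem ptHom_xi {k L : Type} [CommRing k] [CommRing L] (s : k) (f : k →+* L)
    (y : V → L)
    (h2 : ∀ i, y (i, 2) ^ 2 = f (ca s i) * y (i, 0) ^ 2 + f (cb s i) * y (i, 1) ^ 2)
    (h3 : ∀ i, y (i, 3) ^ 2 = f (SSF.cc s i) * y (i, 0) ^ 2 + f (cd s i) * y (i, 1) ^ 2) (v : V) :
    ptHom s f y h2 h3 (xi k s v) = y v := by
  change eval₂Hom f y (X v) = y v
  exact eval₂Hom_X' _ _ _

theorem ptHom_algebraMap {k L : Type} [CommRing k] [CommRing L] (s : k) (f : k →+* L)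
    (y : V → L)
    (h2 : ∀ i, y (i, 2) ^ 2 = f (ca s i) * y (i, 0) ^ 2 + f (cb s i) * y (i, 1) ^ 2)
    (h3 : ∀ i, y (i, 3) ^ 2 = f (SSF.cc s i) * y (i, 0) ^ 2 + f (cd s i) * y (i, 1) ^ 2) (a : k) :
    ptHom s f y h2 h3 (algebraMap k (R k s) a) = f a := by
  change eval₂Hom f y (C a) = f a
  exact eval₂Hom_C _ _ _

theorem exists_ev : ∃ (L : Type) (_ : Field L) (ev : RF →+* L), ev fb3 = 0 ∧
    ev (fx 3 0 rfl) = 0 ∧ ev fq = 0 ∧ ev (fx 0 0 rfl) = 0 ∧ ev fa2 = 0 ∧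
    ev (fx 0 1 rfl) ≠ 0 ∧ ev fb2 ≠ 0 ∧ ev fa3 ≠ 0 ∧ ev (fx 3 1 rfl) ≠ 0 := by
  let L := AlgebraicClosure F2
  let f : F2 →+* L := algebraMap F2 L
  obtain ⟨a02, h02⟩ := IsAlgClosed.exists_pow_nat_eq (f (-sF)) (n := 2) (by norm_num)
  obtain ⟨a03, h03⟩ := IsAlgClosed.exists_pow_nat_eq (f sF) (n := 2) (by norm_num)
  obtain ⟨a12, h12⟩ := IsAlgClosed.exists_pow_nat_eq (f (-(2 + 2 * sF))) (n := 2) (by norm_num)
  obtain ⟨a13, h13⟩ := IsAlgClosed.exists_pow_nat_eq (f (2 - 2 * sF)) (n := 2) (by norm_num)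
  obtain ⟨a22, h22⟩ := IsAlgClosed.exists_pow_nat_eq (f (2 * sF)) (n := 2) (by norm_num)
  have h17 : (17 : L) = 0 := by
    have h1 : (17 : L) = f 17 := by rw [map_ofNat]
    have h2 : (17 : F2) = 0 := by decide
    rw [h1, h2, map_zero]
  have hf2 : f 2 = 2 := map_ofNat f 2
  have hs : f sF ^ 2 = 3 := by rw [← map_pow, sF_sq, map_ofNat]
  have hs0 : f sF ≠ 0 := by
    intro h
    rw [h] at hs
    have h3 : (3 : F2) ≠ 0 := by decide
    apply h3
    apply f.injective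
    rw [map_ofNat, map_zero, ← hs]
    ring
  have h2 : (2 : L) ≠ 0 := by
    intro h
    have h3 : (2 : F2) ≠ 0 := by decide
    apply h3
    apply f.injective
    rw [map_ofNat, map_zero, h]
  let y : V → L := fun v => (![![0, 1, a02, a03], ![4, 1, a12, a13], ![1, 1, a22, -4 * a22],
    ![0, 1, 4, 1]] : Fin 4 → Fin 4 → L) v.1 v.2
  have hy2 : ∀ i, y (i, 2) ^ 2 = f (ca sF i) * y (i, 0) ^ 2 + f (cb sF i) * y (i, 1) ^ 2 := by
    intro i
    fin_cases i
    · simp [y, ca, cb, h02]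
    · simp [y, ca, cb, h12, hf2]
      linear_combination (-1 - 2 * f sF) * h17
    · simp [y, ca, cb, h22, hf2]
      ring
    · simp [y, ca, cb]
      linear_combination h17
  have hy3 : ∀ i, y (i, 3) ^ 2 = f (SSF.cc sF i) * y (i, 0) ^ 2 + f (cd sF i) * y (i, 1) ^ 2 := by
    intro i
    fin_cases i
    · simp [y, SSF.cc, cd, h03]
    · simp [y, SSF.cc, cd, h13, hf2]
      linear_combination h17
    · have h22' : a22 ^ 2 = 2 * f sF := by rw [h22, map_mul, hf2]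
      simp [y, SSF.cc, cd, mul_pow, h22']
      linear_combination (2 * f sF) * h17
    · simp [y, SSF.cc, cd]
  let Φ : R F2 sF →+* L := ptHom sF f y hy2 hy3
  have hx : ∀ i j, Φ (xx i j) = y (i, j) := fun i j => ptHom_xi sF f y hy2 hy3 (i, j)
  have hS : Φ (algebraMap F2 (R F2 sF) sF) = f sF := ptHom_algebraMap sF f y hy2 hy3 sF
  refine ⟨L, inferInstance, Φ.comp (algebraMap RF (R F2 sF)), ?_, ?_, ?_, ?_, ?_, ?_, ?_, ?_, ?_⟩
  · change Φ (be 2 SS xx) = 0
    simp [be, hx, y]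
  · change Φ (xx 3 0) = 0
    simp [hx, y]
  · change Φ (qW xx) = 0
    simp only [qW, map_add, map_mul, hx, y]
    simp
    ring
  · change Φ (xx 0 0) = 0
    simp [hx, y]
  · change Φ (al 1 xx) = 0
    simp only [al, map_add, map_pow, hx, y]
    simp
    linear_combination h17
  · change Φ (xx 0 1) ≠ 0
    simp [hx, y]
  · change Φ (be 1 SS xx) ≠ 0
    simp only [be, map_sub, map_mul, map_pow, hx, y]
    change Φ (algebraMap F2 (R F2 sF) sF) * _ ≠ 0
    rw [hS]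
    refine mul_ne_zero hs0 ?_
    simp
    intro h
    apply h2
    linear_combination h17 - h
  · change Φ (al 2 xx) ≠ 0
    simp only [al, map_add, map_pow, hx, y]
    simp
    intro h
    apply h2
    linear_combination h
  · change Φ (xx 3 1) ≠ 0
    simp [hx, y]

end Pool.Agent.SSF.Ev
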