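import Pool.Agent.SSF.E2c
import Pool.Agent.SSF.EDefs

/-!
# SSF, layer E: the regularity facts for the sections of EDefs
-/

set_option autoImplicit false

namespace Pool.Agent.SSF.Ev

open MvPolynomial DirectSum

theorem fb3_coe : (fb3 : R F2 sF) =
    algebraMap F2 (R F2 sF) sF * (xi F2 sF (2, 0) ^ 2 - xi F2 sF (2, 1) ^ 2) := rfl

theorem fq_coe : (fq : R F2 sF) = E2.qR sF := rfl

theorem fY2_coe : (fY2 : R F2 sF) = E2.Y2R sF := rfl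

theorem fb2_coe : (fb2 : R F2 sF) = E2.beR sF := rfl

theorem rq1 (x : RF) (h : fq * x ∈ Ideal.span {fb3, fx 3 0 rfl}) :
    x ∈ Ideal.span {fb3, fx 3 0 rfl} := by
  rw [Set.pair_comm] at h ⊢
  exact E2.RF_q 0 fb3_coe rfl fq_coe x h

theorem rq2 (x : RF) (h : fq * x ∈ Ideal.span {fb3, fx 3 1 rfl}) :
    x ∈ Ideal.span {fb3, fx 3 1 rfl} := by
  rw [Set.pair_comm] at h ⊢
  exact E2.RF_q 1 fb3_coe rfl fq_coe x h

theorem r11 (x : RF) (h : fx 0 0 rfl * x ∈ Ideal.span {fb3, fx 3 0 rfl} ⊔ Ideal.span {fq}) :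
    x ∈ Ideal.span {fb3, fx 3 0 rfl} ⊔ Ideal.span {fq} := by
  rw [Set.pair_comm] at h ⊢
  exact E2.RF_x00 0 fb3_coe rfl fq_coe rfl x h

theorem r21 (x : RF) (h : fx 0 0 rfl * x ∈ Ideal.span {fb3, fx 3 1 rfl} ⊔ Ideal.span {fq}) :
    x ∈ Ideal.span {fb3, fx 3 1 rfl} ⊔ Ideal.span {fq} := by
  rw [Set.pair_comm] at h ⊢
  exact E2.RF_x00 1 fb3_coe rfl fq_coe rfl x h

theorem r12 (x : RF) (h : fY2 * x ∈ Ideal.span {fb3, fx 3 0 rfl} ⊔ Ideal.span {fq}) :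
    x ∈ Ideal.span {fb3, fx 3 0 rfl} ⊔ Ideal.span {fq} := by
  rw [Set.pair_comm] at h ⊢
  exact E2.RF_Y2 0 fb3_coe rfl fq_coe fY2_coe x h

theorem r22 (x : RF) (h : fY2 * x ∈ Ideal.span {fb3, fx 3 1 rfl} ⊔ Ideal.span {fq}) :
    x ∈ Ideal.span {fb3, fx 3 1 rfl} ⊔ Ideal.span {fq} := by
  rw [Set.pair_comm] at h ⊢
  exact E2.RF_Y2 1 fb3_coe rfl fq_coe fY2_coe x h

theorem r13 (x : RF) (h : fb2 * x ∈ Ideal.span {fb3, fx 3 0 rfl} ⊔ Ideal.span {fq}) :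
    x ∈ Ideal.span {fb3, fx 3 0 rfl} ⊔ Ideal.span {fq} := by
  rw [Set.pair_comm] at h ⊢
  exact E2.RF_be 0 fb3_coe rfl fq_coe fb2_coe x h

theorem r23 (x : RF) (h : fb2 * x ∈ Ideal.span {fb3, fx 3 1 rfl} ⊔ Ideal.span {fq}) :
    x ∈ Ideal.span {fb3, fx 3 1 rfl} ⊔ Ideal.span {fq} := by
  rw [Set.pair_comm] at h ⊢
  exact E2.RF_be 1 fb3_coe rfl fq_coe fb2_coe x h

end Pool.Agent.SSF.Ev
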