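import Pool.Agent.SSF.ESpB

/-!
# SSF, layer E: spanning of the pieces of `RF / (b3, x41, q, x11)`
-/

set_option autoImplicit false

namespace Pool.Agent.SSF.Ev

open MvPolynomial DirectSum XDesc

theorem pq_span (a b c d : ℕ) (hb : 2 ≤ b) (hc : 2 ≤ c) (x : R F2 sF)
    (hx : x ∈ gr F2 sF (![2 * (a : ℤ), 2 * b, 2 * c, 2 * d], 0)) :
    ∃ c1 c2 : F2, pq x =
      gq c1 * M0 (gq sF) XQ a b c d + gq c2 * M1 (gq sF) XQ a b c d := by
  rw [gr_eq_span_red] at hx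
  induction hx using Submodule.span_induction with
  | mem z hz =>
    obtain ⟨m, hm, hr, rfl⟩ := hz
    exact mon_span m a b c d hb hc hm hr
  | zero => exact ⟨0, 0, by simp⟩
  | add y z _ _ hy hz =>
    obtain ⟨c1, c2, h1⟩ := hy
    obtain ⟨d1, d2, h2⟩ := hz
    refine ⟨c1 + d1, c2 + d2, ?_⟩
    rw [map_add, h1, h2, map_add, map_add]
    ring
  | smul r y _ hy =>
    obtain ⟨c1, c2, h1⟩ := hy
    refine ⟨r * c1, r * c2, ?_⟩
    have e1 : r • y = algebraMap F2 (R F2 sF) r * y := Algebra.smul_def r y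
    have e2 : pq (algebraMap F2 (R F2 sF) r) = gq r := rfl
    rw [e1, map_mul, e2, h1, map_mul, map_mul]
    ring

theorem map_M0 (a b c d : ℕ) : pq (M0 SS xx a b c d) = M0 (gq sF) XQ a b c d := by
  unfold M0 be al
  simp only [map_mul, map_pow, map_add, map_sub]
  rfl

theorem map_M1 (a b c d : ℕ) : pq (M1 SS xx a b c d) = M1 (gq sF) XQ a b c d := by
  unfold M1 VV be al
  simp only [map_mul, map_pow, map_add, map_sub]
  rfl

/-- The ideal of `RF`. -/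
noncomputable def JF : Ideal RF :=
  Ideal.span {fb3, fx 3 0 rfl} ⊔ Ideal.span {fq, fx 0 0 rfl}

theorem JF_map : JF.map (algebraMap RF (R F2 sF)) = JR := by
  unfold JF JR
  rw [Ideal.map_sup, Ideal.map_span, Ideal.map_span, Set.image_pair, Set.image_pair]
  rfl

theorem spF (a b c d : ℕ) (hb : 2 ≤ b) (hc : 2 ≤ c) (x : RF)
    (hx : (x : R F2 sF) ∈ gr F2 sF (![2 * (a : ℤ), 2 * b, 2 * c, 2 * d], 0)) :
    ∃ c1 c2 : F17, x - (algebraMap F17 RF c1 *
        (fx 0 1 rfl ^ (2 * a) * fb2 ^ b * fa3 ^ c * fx 3 1 rfl ^ (2 * d)) +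
      algebraMap F17 RF c2 *
        (fV * (fx 0 1 rfl ^ (2 * (a - 1)) * fb2 ^ (b - 2) * fa3 ^ c * fx 3 1 rfl ^ (2 * d)))) ∈
      Ideal.span {fb3, fx 3 0 rfl} ⊔ Ideal.span {fq, fx 0 0 rfl} := by
  obtain ⟨c1, c2, h1⟩ := pq_span a b c d hb hc x hx
  set m0 : RF := fx 0 1 rfl ^ (2 * a) * fb2 ^ b * fa3 ^ c * fx 3 1 rfl ^ (2 * d) with hm0
  set m1 : RF := fV * (fx 0 1 rfl ^ (2 * (a - 1)) * fb2 ^ (b - 2) * fa3 ^ c *
    fx 3 1 rfl ^ (2 * d)) with hm1
  have e0 : (m0 : R F2 sF) = M0 SS xx a b c d := rfl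
  have e1 : (m1 : R F2 sF) = M1 SS xx a b c d := rfl
  have h2 : (x : R F2 sF) - (algebraMap F2 _ c1 * (m0 : R F2 sF) +
      algebraMap F2 _ c2 * (m1 : R F2 sF)) ∈ JF.map (algebraMap RF (R F2 sF)) := by
    rw [JF_map, ← pq_eq_zero, map_sub, map_add, map_mul, map_mul, e0, e1, map_M0, map_M1, h1]
    exact sub_self _
  have h3 := ret_mem_of_map JF _ h2 1
  rw [one_mul] at h3
  refine ⟨c1.re, c2.re, ?_⟩
  have h4 : ret ((x : R F2 sF) - (algebraMap F2 _ c1 * (m0 : R F2 sF) +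
      algebraMap F2 _ c2 * (m1 : R F2 sF))) =
      x - (algebraMap F17 RF c1.re * m0 + algebraMap F17 RF c2.re * m1) := by
    have h5 : ret ((x : R F2 sF) - (algebraMap F2 _ c1 * (m0 : R F2 sF) +
      algebraMap F2 _ c2 * (m1 : R F2 sF))) + (ret (algebraMap F2 _ c1 * (m0 : R F2 sF)) +
      ret (algebraMap F2 _ c2 * (m1 : R F2 sF))) = ret (x : R F2 sF) := by
      rw [← ret_add, ← ret_add]
      congr 1
      ring
    rw [ret_alg, ret_alg, ret_RF] at h5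
    exact eq_sub_of_add_eq h5
  rw [h4] at h3
  exact h3

end Pool.Agent.SSF.Ev
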