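import Pool.Agent.SSF.XSpan

/-!
Project SSF (MP_5928ba), module X2: the reduced monomials are a basis of `R k s`; base change.
-/

set_option autoImplicit false

open scoped TensorProduct

namespace Pool.Agent.SSF

open MvPolynomial DirectSum

namespace XB

variable (k : Type*) [CommRing k] (s : k)

/-- The quadratic form replacing `X_v²`. -/
noncomputable def sq (v : V) : MvPolynomial V k :=
  if v.2 = 2 then C (ca s v.1) * X (v.1, 0) ^ 2 + C (cb s v.1) * X (v.1, 1) ^ 2
  else if v.2 = 3 then C (cc s v.1) * X (v.1, 0) ^ 2 + C (cd s v.1) * X (v.1, 1) ^ 2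
  else X v ^ 2

/-- Normal form of `X_v ^ n`. -/
noncomputable def pw (v : V) (n : ℕ) : MvPolynomial V k :=
  if v.2 = 2 ∨ v.2 = 3 then sq k s v ^ (n / 2) * X v ^ (n % 2) else X v ^ n

theorem pw_add_two (v : V) (n : ℕ) : pw k s v (n + 2) = sq k s v * pw k s v n := by
  unfold pw
  split_ifs with h
  · rw [Nat.add_mod_right, Nat.add_div_right _ (by norm_num), pow_succ]
    ring
  · have h1 : sq k s v = X v ^ 2 := by
      unfold sq
      rw [if_neg (fun h2 => h (Or.inl h2)), if_neg (fun h2 => h (Or.inr h2))]
    rw [h1, pow_add]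
    ring

theorem pw_zero (v : V) : pw k s v 0 = 1 := by
  unfold pw
  split_ifs <;> simp

/-- Normal form of a monomial. -/
noncomputable def nf (m : V →₀ ℕ) : MvPolynomial V k := ∏ v : V, pw k s v (m v)

theorem nf_add_two (v : V) (m : V →₀ ℕ) :
    nf k s (Finsupp.single v 2 + m) = sq k s v * nf k s m := by
  classical
  unfold nf
  rw [← Finset.mul_prod_erase _ _ (Finset.mem_univ v), ← Finset.mul_prod_erase _ _ (Finset.mem_univ v)]
  rw [Finsupp.add_apply, Finsupp.single_eq_same, add_comm, pw_add_two, mul_assoc]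
  congr 2
  refine Finset.prod_congr rfl fun w hw => ?_
  rw [Finsupp.add_apply, Finsupp.single_eq_of_ne (Finset.ne_of_mem_erase hw), zero_add]

theorem nf_red (m : V →₀ ℕ) (hm : Red m) : nf k s m = monomial m 1 := by
  classical
  unfold nf
  rw [monomial_eq, C_1, one_mul, Finsupp.prod_fintype _ _ (fun _ => pow_zero _)]
  refine Finset.prod_congr rfl fun v _ => ?_
  unfold pw
  split_ifs with h
  · have h1 : m v ≤ 1 := by
      rcases h with h | h
      · have := (hm v.1).1
        rwa [← h] at this
      · have := (hm v.1).2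
        rwa [← h] at this
    rw [Nat.div_eq_of_lt (by omega), Nat.mod_eq_of_lt (by omega), pow_zero, one_mul]
  · rfl

/-- The normal form map. -/
noncomputable def N : MvPolynomial V k →ₗ[k] MvPolynomial V k :=
  (basisMonomials V k).constr k (nf k s)

theorem N_monomial (m : V →₀ ℕ) : N k s (monomial m 1) = nf k s m := by
  have := (basisMonomials V k).constr_basis k (nf k s) m
  rwa [coe_basisMonomials] at this

theorem N_sq_mul (v : V) (f : MvPolynomial V k) : N k s (X v ^ 2 * f) = sq k s v * N k s f := by
  have h : (N k s).comp (LinearMap.mulLeft k (X v ^ 2)) =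
      (LinearMap.mulLeft k (sq k s v)).comp (N k s) := by
    refine (basisMonomials V k).ext fun m => ?_
    rw [coe_basisMonomials, LinearMap.comp_apply, LinearMap.comp_apply, LinearMap.mulLeft_apply,
      LinearMap.mulLeft_apply, N_monomial, X_pow_eq_monomial, monomial_mul, one_mul, N_monomial,
      nf_add_two]
  exact LinearMap.congr_fun h f

theorem N_C_mul (c : k) (f : MvPolynomial V k) : N k s (C c * f) = C c * N k s f := by
  rw [← smul_eq_C_mul, ← smul_eq_C_mul, map_smul]

theorem N_rel2 (i : Fin 4) (f : MvPolynomial V k) : N k s (f * rel2 k s i) = 0 := by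
  have h1 : f * rel2 k s i = X (i, 2) ^ 2 * f - (C (ca s i) * (X (i, 0) ^ 2 * f) +
      C (cb s i) * (X (i, 1) ^ 2 * f)) := by
    unfold rel2; ring
  rw [h1, map_sub, map_add, N_C_mul, N_C_mul, N_sq_mul, N_sq_mul, N_sq_mul]
  simp only [sq]
  simp
  ring

theorem N_rel3 (i : Fin 4) (f : MvPolynomial V k) : N k s (f * rel3 k s i) = 0 := by
  have h1 : f * rel3 k s i = X (i, 3) ^ 2 * f - (C (cc s i) * (X (i, 0) ^ 2 * f) +
      C (cd s i) * (X (i, 1) ^ 2 * f)) := by
    unfold rel3; ring
  rw [h1, map_sub, map_add, N_C_mul, N_C_mul, N_sq_mul, N_sq_mul, N_sq_mul]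
  simp only [sq]
  simp
  ring

theorem N_mul_relI {f : MvPolynomial V k} (hf : f ∈ relI k s) :
    ∀ g : MvPolynomial V k, N k s (g * f) = 0 := by
  unfold relI at hf
  induction hf using Submodule.span_induction with
  | mem x hx =>
    intro g
    rcases hx with ⟨i, rfl⟩ | ⟨i, rfl⟩
    · exact N_rel2 k s i g
    · exact N_rel3 k s i g
  | zero => intro g; rw [mul_zero, map_zero]
  | add x y _ _ hx hy => intro g; rw [mul_add, map_add, hx, hy, add_zero]
  | smul a x _ hx => intro g; rw [smul_eq_mul, ← mul_assoc, hx]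

theorem N_relI {f : MvPolynomial V k} (hf : f ∈ relI k s) : N k s f = 0 := by
  have := N_mul_relI k s hf 1
  rwa [one_mul] at this

/-- The normal form on the quotient. -/
noncomputable def Nb : R k s →ₗ[k] MvPolynomial V k :=
  (((relI k s).restrictScalars k).liftQ (N k s) fun _ hf => LinearMap.mem_ker.2 (N_relI k s hf)).comp
    (Submodule.Quotient.restrictScalarsEquiv k (relI k s)).symm.toLinearMap

theorem Nb_mk (f : MvPolynomial V k) : Nb k s (Ideal.Quotient.mk _ f) = N k s f := rfl

theorem mk_monomial (m : V →₀ ℕ) : Ideal.Quotient.mk (relI k s) (monomial m 1) = mon k s m := by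
  unfold mon
  rw [monomial_eq, C_1, one_mul, map_finsuppProd]
  rfl

theorem Nb_mon (m : V →₀ ℕ) (hm : Red m) : Nb k s (mon k s m) = monomial m 1 := by
  rw [← mk_monomial, Nb_mk, N_monomial, nf_red k s m hm]

end XB

section X2
variable (k : Type*) [CommRing k] (s : k)

theorem mon_linearIndependent :
    LinearIndependent k (fun m : {m : V →₀ ℕ // Red m} => mon k s m.1) := by
  refine LinearIndependent.of_comp (XB.Nb k s) ?_
  have h1 : (XB.Nb k s : R k s → MvPolynomial V k) ∘ (fun m : {m : V →₀ ℕ // Red m} => mon k s m.1) =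
      fun m : {m : V →₀ ℕ // Red m} => (basisMonomials V k) m.1 := by
    funext m
    rw [Function.comp_apply, XB.Nb_mon k s m.1 m.2, coe_basisMonomials]
  rw [h1]
  exact (basisMonomials V k).linearIndependent.comp _ Subtype.val_injective

theorem mon_span :
    ⊤ ≤ Submodule.span k (Set.range fun m : {m : V →₀ ℕ // Red m} => mon k s m.1) := by
  classical
  intro x _
  rw [← DirectSum.sum_support_decompose (gr k s) x]
  refine Submodule.sum_mem _ fun γ _ => ?_
  have h0 : gr k s γ ≤ Submodule.span k (Set.range fun m : {m : V →₀ ℕ // Red m} => mon k s m.1) := by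
    rw [gr_eq_span_red]
    refine Submodule.span_mono ?_
    rintro _ ⟨m, -, hm, rfl⟩
    exact ⟨⟨m, hm⟩, rfl⟩
  exact h0 (SetLike.coe_mem _)

/-- The basis of reduced monomials. -/
noncomputable def monBasis : Module.Basis {m : V →₀ ℕ // Red m} k (R k s) :=
  Module.Basis.mk (mon_linearIndependent k s) (mon_span k s)

theorem monBasis_apply (m : {m : V →₀ ℕ // Red m}) : monBasis k s m = mon k s m.1 :=
  Module.Basis.mk_apply _ _ m

theorem R_free : Module.Free k (R k s) := Module.Free.of_basis (monBasis k s)

/-- The basis of reduced monomials of a graded piece. -/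
noncomputable def grBasis (γ : Lam) :
    Module.Basis {m : V →₀ ℕ // Finsupp.weight e m = γ ∧ Red m} k (gr k s γ) := by
  refine Module.Basis.mk (v := fun m => ⟨mon k s m.1, ?_⟩) ?_ ?_
  · have := mon_mem k s m.1
    rwa [m.2.1] at this
  · refine LinearIndependent.of_comp (gr k s γ).subtype ?_
    exact (mon_linearIndependent k s).comp
      (fun m : {m : V →₀ ℕ // Finsupp.weight e m = γ ∧ Red m} => (⟨m.1, m.2.2⟩ :
        {m : V →₀ ℕ // Red m}))
      (fun m m' h => Subtype.ext (Subtype.mk.inj h))
  · rintro ⟨x, hx⟩ -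
    have hx' := hx
    rw [gr_eq_span_red] at hx'
    have h2 : (gr k s γ).subtype ⟨x, hx⟩ ∈ (Submodule.span k (Set.range
        fun m : {m : V →₀ ℕ // Finsupp.weight e m = γ ∧ Red m} =>
          (⟨mon k s m.1, by have := mon_mem k s m.1; rwa [m.2.1] at this⟩ : gr k s γ))).map
        (gr k s γ).subtype := by
      rw [Submodule.map_span]
      refine Submodule.span_mono ?_ hx'
      rintro _ ⟨m, hm, hr, rfl⟩
      exact ⟨_, ⟨⟨m, hm, hr⟩, rfl⟩, rfl⟩
    obtain ⟨y, hy, hxy⟩ := h2
    have h3 : y = ⟨x, hx⟩ := Subtype.ext hxy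
    rwa [h3] at hy

theorem grBasis_apply (γ : Lam) (m : {m : V →₀ ℕ // Finsupp.weight e m = γ ∧ Red m}) :
    (grBasis k s γ m : R k s) = mon k s m.1 := by
  unfold grBasis
  rw [Module.Basis.mk_apply]

theorem gr_free (γ : Lam) : Module.Free k (gr k s γ) := Module.Free.of_basis (grBasis k s γ)

theorem algebraMap_injective_R : Function.Injective (algebraMap k (R k s)) := by
  rw [injective_iff_map_eq_zero]
  intro c hc
  have h0 : mon k s 0 = 1 := by simp [mon]
  have hr : Red 0 := fun i => ⟨by simp, by simp⟩
  have h1 : XB.Nb k s (algebraMap k (R k s) c) = C c := by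
    rw [Algebra.algebraMap_eq_smul_one, map_smul, ← h0, XB.Nb_mon k s 0 hr, smul_monomial,
      smul_eq_mul, mul_one]
    rfl
  rw [hc, map_zero] at h1
  exact C_injective V k (by rw [← h1, map_zero])

/-- The algebra map of the base change. -/
noncomputable def mapRAlg (k' : Type*) [CommRing k'] [Algebra k k'] :
    R k s →ₐ[k] R k' (algebraMap k k' s) :=
  { (mapR (algebraMap k k') rfl : R k s →+* R k' (algebraMap k k' s)) with
    commutes' := by
      intro a
      change Ideal.Quotient.mk _ (MvPolynomial.map (algebraMap k k') (C a)) = _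
      rw [MvPolynomial.map_C]
      rfl }

theorem mapR_mon {k' : Type*} [CommRing k'] (f : k →+* k') (m : V →₀ ℕ) :
    mapR f (s := s) rfl (mon k s m) = mon k' (f s) m := by
  rw [← XB.mk_monomial, ← XB.mk_monomial]
  change Ideal.Quotient.mk _ (MvPolynomial.map f (monomial m 1)) = _
  rw [MvPolynomial.map_monomial, map_one]

/-- Base change of the ring. -/
theorem mapR_bijective (k' : Type*) [CommRing k'] [Algebra k k'] :
    Function.Bijective (Algebra.TensorProduct.lift (R := k) (S := k') (A := k')
      (B := R k s) (C := R k' (algebraMap k k' s)) (Algebra.ofId k' _)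
      ({ (mapR (algebraMap k k') rfl : R k s →+* R k' (algebraMap k k' s)) with
          commutes' := by
            intro a
            change Ideal.Quotient.mk _ (MvPolynomial.map (algebraMap k k') (C a)) = _
            rw [MvPolynomial.map_C]
            rfl } : R k s →ₐ[k] R k' (algebraMap k k' s))
      (fun _ _ => Commute.all _ _)) := by
  set F := (Algebra.TensorProduct.lift (R := k) (S := k') (A := k')
      (B := R k s) (C := R k' (algebraMap k k' s)) (Algebra.ofId k' _)
      (mapRAlg k s k') (fun _ _ => Commute.all _ _)) with hF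
  change Function.Bijective F
  set E := ((monBasis k s).baseChange k').equiv (monBasis k' (algebraMap k k' s))
    (Equiv.refl _) with hE
  have h1 : F.toLinearMap = E.toLinearMap := by
    refine ((monBasis k s).baseChange k').ext fun m => ?_
    rw [LinearEquiv.coe_coe, hE, Module.Basis.equiv_apply, Module.Basis.baseChange_apply,
      Equiv.refl_apply, monBasis_apply, monBasis_apply, AlgHom.toLinearMap_apply, hF,
      Algebra.TensorProduct.lift_tmul, map_one, one_mul]
    exact mapR_mon k s (algebraMap k k') m.1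
  have h2 : (F : k' ⊗[k] R k s → R k' (algebraMap k k' s)) = E := by
    funext x
    exact LinearMap.congr_fun h1 x
  rw [h2]
  exact E.bijective

end X2

end Pool.Agent.SSF
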