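import Pool.Agent.SSF.XHyp

/-!
Project SSF (MP_5928ba), module X3: zeros of the coordinates.
-/

set_option autoImplicit false

namespace Pool.Agent.SSF

open MvPolynomial

/-- Four linear forms in two variables any two of which are independent: if two of them vanish,
so do all. -/
theorem two_of_four_zero {B : Type*} [CommRing B] (x : Fin 4 → B)
    {a b c d a' b' c' d' t : B} (h2 : x 2 = a * x 0 + b * x 1) (h3 : x 3 = c * x 0 + d * x 1)
    (ha : a * a' = 1) (hb : b * b' = 1) (hc : c * c' = 1) (hd : d * d' = 1)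
    (ht : (a * d - b * c) * t = 1) (j j' : Fin 4) (hj : j < j') (h : x j = 0) (h' : x j' = 0) :
    x 0 = 0 ∧ x 1 = 0 := by
  have key01 : x 0 = 0 → x 1 = 0 → x 0 = 0 ∧ x 1 = 0 := fun u v => ⟨u, v⟩
  have key02 : x 0 = 0 → x 2 = 0 → x 0 = 0 ∧ x 1 = 0 := fun u v =>
    ⟨u, by linear_combination (-(x 1)) * hb - b' * h2 + b' * v - a * b' * u⟩
  have key03 : x 0 = 0 → x 3 = 0 → x 0 = 0 ∧ x 1 = 0 := fun u v =>
    ⟨u, by linear_combination (-(x 1)) * hd - d' * h3 + d' * v - c * d' * u⟩
  have key12 : x 1 = 0 → x 2 = 0 → x 0 = 0 ∧ x 1 = 0 := fun u v =>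
    ⟨by linear_combination (-(x 0)) * ha - a' * h2 + a' * v - b * a' * u, u⟩
  have key13 : x 1 = 0 → x 3 = 0 → x 0 = 0 ∧ x 1 = 0 := fun u v =>
    ⟨by linear_combination (-(x 0)) * hc - c' * h3 + c' * v - d * c' * u, u⟩
  have key23 : x 2 = 0 → x 3 = 0 → x 0 = 0 ∧ x 1 = 0 := fun u v =>
    ⟨by linear_combination (-(x 0)) * ht + t * d * (u - h2) - t * b * (v - h3),
      by linear_combination (-(x 1)) * ht + t * a * (v - h3) - t * c * (u - h2)⟩
  fin_cases j <;> fin_cases j' <;>
    first
      | exact absurd hj (by decide)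
      | exact key01 h h'
      | exact key02 h h'
      | exact key03 h h'
      | exact key12 h h'
      | exact key13 h h'
      | exact key23 h h'

theorem two_of_four {A : Type*} [CommRing A] (I : Ideal A) (x : Fin 4 → A)
    {a b c d a' b' c' d' t : A} (h2 : x 2 = a * x 0 + b * x 1) (h3 : x 3 = c * x 0 + d * x 1)
    (ha : a * a' = 1) (hb : b * b' = 1) (hc : c * c' = 1) (hd : d * d' = 1)
    (ht : (a * d - b * c) * t = 1) (j j' : Fin 4) (hj : j ≠ j') (h : x j ∈ I) (h' : x j' ∈ I)
    (l : Fin 4) : x l ∈ I := by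
  have key : ∀ j j' : Fin 4, j < j' → x j ∈ I → x j' ∈ I → x 0 ∈ I ∧ x 1 ∈ I := by
    intro j j' hj h h'
    have e := two_of_four_zero (fun i => Ideal.Quotient.mk I (x i))
      (a := Ideal.Quotient.mk I a) (b := Ideal.Quotient.mk I b) (c := Ideal.Quotient.mk I c)
      (d := Ideal.Quotient.mk I d) (a' := Ideal.Quotient.mk I a') (b' := Ideal.Quotient.mk I b')
      (c' := Ideal.Quotient.mk I c') (d' := Ideal.Quotient.mk I d') (t := Ideal.Quotient.mk I t)
      (by simp only [h2, map_add, map_mul]) (by simp only [h3, map_add, map_mul])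
      (by rw [← map_mul, ha, map_one]) (by rw [← map_mul, hb, map_one])
      (by rw [← map_mul, hc, map_one]) (by rw [← map_mul, hd, map_one])
      (by rw [← map_mul, ← map_mul, ← map_sub, ← map_mul, ht, map_one]) j j' hj
      (Ideal.Quotient.eq_zero_iff_mem.2 h) (Ideal.Quotient.eq_zero_iff_mem.2 h')
    exact ⟨Ideal.Quotient.eq_zero_iff_mem.1 e.1, Ideal.Quotient.eq_zero_iff_mem.1 e.2⟩
  obtain ⟨h0, h1⟩ : x 0 ∈ I ∧ x 1 ∈ I := by
    rcases lt_or_gt_of_ne hj with hlt | hlt
    · exact key j j' hlt h h'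
    · exact key j' j hlt h' h
  fin_cases l
  · exact h0
  · exact h1
  · change x 2 ∈ I
    rw [h2]
    exact I.add_mem (I.mul_mem_left _ h0) (I.mul_mem_left _ h1)
  · change x 3 ∈ I
    rw [h3]
    exact I.add_mem (I.mul_mem_left _ h0) (I.mul_mem_left _ h1)

variable (k : Type*) [CommRing k] (s : k)

/-- Two different coordinates of one row generate the squares of all coordinates of the row. -/
theorem xi_sq_mem (h : Hyp k s) (i j j' l : Fin 4) (hj : j ≠ j') :
    xi k s (i, l) ^ 2 ∈ Ideal.span {xi k s (i, j), xi k s (i, j')} := by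
  set f := algebraMap k (R k s) with hf
  set σ := f s with hσ
  have h17 : (17 : R k s) = 0 := by
    have := congrArg f h.1
    rwa [map_ofNat, map_zero] at this
  have hs : σ ^ 2 = 3 := by
    have := congrArg f h.2
    rwa [map_pow, map_ofNat] at this
  have hx : xi k s (i, j) ^ 2 ∈ Ideal.span {xi k s (i, j), xi k s (i, j')} := by
    rw [pow_two]
    exact Ideal.mul_mem_left _ _ (Ideal.subset_span (by simp))
  have hx' : xi k s (i, j') ^ 2 ∈ Ideal.span {xi k s (i, j), xi k s (i, j')} := by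
    rw [pow_two]
    exact Ideal.mul_mem_left _ _ (Ideal.subset_span (by simp))
  have r2 := xi2_sq k s i
  have r3 := xi3_sq k s i
  fin_cases i
  · refine two_of_four _ (fun v => xi k s (0, v) ^ 2) r2 r3 (a' := 1) (b' := -(6 * σ)) (c' := 1)
      (d' := 6 * σ) (t := 3 * σ) ?_ ?_ ?_ ?_ ?_ j j' hj hx hx' l
    · simp [ca]
    · change f (-s) * _ = 1
      rw [map_neg, ← hσ]
      linear_combination 6 * hs + h17
    · simp [cc]
    · change f s * _ = 1
      rw [← hσ]
      linear_combination 6 * hs + h17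
    · change (f 1 * f s - f (-s) * f 1) * _ = 1
      rw [map_neg, map_one, ← hσ]
      linear_combination 6 * hs + h17
  · refine two_of_four _ (fun v => xi k s (1, v) ^ 2) r2 r3 (a' := 3 * (1 - 2 * σ)) (b' := -1)
      (c' := -1) (d' := 3 * (1 + 2 * σ)) (t := 7) ?_ ?_ ?_ ?_ ?_ j j' hj hx hx' l
    · change f (1 + (s + s)) * _ = 1
      rw [map_add, map_add, map_one, ← hσ]
      linear_combination (-12) * hs - 2 * h17
    · change f (-1) * _ = 1
      rw [map_neg, map_one]
      ring
    · change f (-1) * _ = 1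
      rw [map_neg, map_one]
      ring
    · change f (1 - (s + s)) * _ = 1
      rw [map_sub, map_add, map_one, ← hσ]
      linear_combination (-12) * hs - 2 * h17
    · change (f (1 + (s + s)) * f (1 - (s + s)) - f (-1) * f (-1)) * _ = 1
      rw [map_add, map_sub, map_add, map_neg, map_one, ← hσ]
      linear_combination (-28) * hs - 5 * h17
  · refine two_of_four _ (fun v => xi k s (2, v) ^ 2) r2 r3 (a' := 3 * (1 - 2 * σ)) (b' := -1)
      (c' := -1) (d' := 3 * (1 + 2 * σ)) (t := 7) ?_ ?_ ?_ ?_ ?_ j j' hj hx hx' l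
    · change f (1 + (s + s)) * _ = 1
      rw [map_add, map_add, map_one, ← hσ]
      linear_combination (-12) * hs - 2 * h17
    · change f (-1) * _ = 1
      rw [map_neg, map_one]
      ring
    · change f (-1) * _ = 1
      rw [map_neg, map_one]
      ring
    · change f (1 - (s + s)) * _ = 1
      rw [map_sub, map_add, map_one, ← hσ]
      linear_combination (-12) * hs - 2 * h17
    · change (f (1 + (s + s)) * f (1 - (s + s)) - f (-1) * f (-1)) * _ = 1
      rw [map_add, map_sub, map_add, map_neg, map_one, ← hσ]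
      linear_combination (-28) * hs - 5 * h17
  · refine two_of_four _ (fun v => xi k s (3, v) ^ 2) r2 r3 (a' := 1) (b' := -1) (c' := 1)
      (d' := 1) (t := 9) ?_ ?_ ?_ ?_ ?_ j j' hj hx hx' l
    · simp [ca]
    · change f (-1) * _ = 1
      rw [map_neg, map_one]
      ring
    · simp [cc]
    · simp [cd]
    · change (f 1 * f 1 - f (-1) * f 1) * _ = 1
      rw [map_neg, map_one]
      linear_combination h17

/-- The `i`-th integral component of the weight of a monomial without variables of row `i` is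
zero. -/
theorem weight_fst_eq_zero (d : V →₀ ℕ) (i : Fin 4) (h : ∀ j, d (i, j) = 0) :
    (Finsupp.weight e d).1 i = 0 := by
  rw [Finsupp.weight_apply, Finsupp.sum, Prod.fst_sum, Finset.sum_apply]
  refine Finset.sum_eq_zero fun v _ => ?_
  obtain ⟨i', j⟩ := v
  by_cases hi : i' = i
  · subst hi
    rw [h j, zero_smul]
    rfl
  · change d (i', j) • (Pi.single i' (1 : ℤ) : Fin 4 → ℤ) i = 0
    rw [Pi.single_eq_of_ne (Ne.symm hi), smul_zero]

/-- A graded prime of `R` containing two coordinates of one row contains all `gr (n hh)`. -/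
theorem gr_le_of_two (h : Hyp k s) (P : Ideal (R k s))
    (hP : ∀ x y : R k s, SetLike.IsHomogeneousElem (gr k s) x →
      SetLike.IsHomogeneousElem (gr k s) y → x * y ∈ P → x ∈ P ∨ y ∈ P) (i j j' : Fin 4)
    (hj : j ≠ j') (h1 : xi k s (i, j) ∈ P) (h2 : xi k s (i, j') ∈ P) (n : ℕ) (hn : 0 < n)
    (x : R k s) (hx : x ∈ gr k s (n • hh)) : x ∈ P := by
  have hxi : ∀ l, xi k s (i, l) ∈ P := by
    intro l
    have h3 : xi k s (i, l) ^ 2 ∈ P := by
      refine (Ideal.span_le.2 ?_) (xi_sq_mem k s h i j j' l hj)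
      rintro y (rfl | rfl)
      · exact h1
      · exact h2
    rw [pow_two] at h3
    exact (hP _ _ ⟨_, xi_mem k s (i, l)⟩ ⟨_, xi_mem k s (i, l)⟩ h3).elim id id
  obtain ⟨p, hp, rfl⟩ := hx
  have hp' : IsWeightedHomogeneous e p (n • hh) := hp
  have hmem : p ∈ Ideal.span (X '' {v : V | v.1 = i} : Set (MvPolynomial V k)) := by
    rw [MvPolynomial.mem_ideal_span_X_image]
    intro m hm
    by_contra hcon
    push Not at hcon
    have h3 : Finsupp.weight e m = n • hh := hp' (MvPolynomial.mem_support_iff.1 hm)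
    have h4 := weight_fst_eq_zero m i (fun l => hcon (i, l) rfl)
    rw [h3] at h4
    have h5 : (n • hh).1 i = (n : ℤ) * 4 := by simp [hh]
    rw [h5] at h4
    omega
  have h6 : Ideal.span (X '' {v : V | v.1 = i} : Set (MvPolynomial V k)) ≤
      P.comap (Ideal.Quotient.mk (relI k s)) := by
    rw [Ideal.span_le]
    rintro _ ⟨⟨i', l⟩, rfl, rfl⟩
    exact hxi l
  exact h6 hmem

end Pool.Agent.SSF
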