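import Pool.Agent.SSF.XSpan
import Pool.Agent.SSF.XNB

/-!
Project SSF (MP_5928ba), X4: charts and generation in degree one of the split form.
-/

set_option autoImplicit false

namespace Pool.Agent.SSF

open MvPolynomial

namespace XChart

/-! ### Degrees -/

theorem sum_two (f : Fin 4 → ℕ) (h : 2 ≤ ∑ j, f j) :
    ∃ c : Fin 4 → ℕ, (∀ j, c j ≤ f j) ∧ ∑ j, c j = 2 := by
  rw [Fin.sum_univ_four] at h
  refine ⟨![min 2 (f 0), min (2 - min 2 (f 0)) (f 1),
    min (2 - min 2 (f 0) - min (2 - min 2 (f 0)) (f 1)) (f 2),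
    2 - min 2 (f 0) - min (2 - min 2 (f 0)) (f 1) -
      min (2 - min 2 (f 0) - min (2 - min 2 (f 0)) (f 1)) (f 2)], ?_, ?_⟩
  · intro j
    fin_cases j <;> (simp) <;> omega
  · rw [Fin.sum_univ_four]
    simp only [Matrix.cons_val_zero, Matrix.cons_val_one, Matrix.cons_val]
    omega

/-- The homomorphism from exponents to degrees. -/
def wt : (V → ℤ) →+ Lam where
  toFun c := ∑ v, c v • e v
  map_zero' := by simp
  map_add' c d := by simp [add_smul, Finset.sum_add_distrib]

theorem wt_single (v : V) (n : ℤ) : wt (Pi.single v n) = n • e v := by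
  change ∑ w, (Pi.single v n : V → ℤ) w • e w = _
  rw [Finset.sum_eq_single v]
  · simp
  · intro w _ hw
    rw [Pi.single_eq_of_ne hw, zero_smul]
  · intro h
    exact (h (Finset.mem_univ _)).elim

/-- The degrees of the monomials without the variables `(i, J i)`. -/
def TJ (J : Fin 4 → Fin 4) : AddSubgroup Lam :=
  AddSubgroup.map wt
    { carrier := {c | ∀ i, c (i, J i) = 0}
      zero_mem' := fun _ => rfl
      add_mem' := fun {a b} ha hb i => by
        change a (i, J i) + b (i, J i) = 0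
        rw [ha i, hb i, add_zero]
      neg_mem' := fun {a} ha i => by
        change -a (i, J i) = 0
        rw [ha i, neg_zero] }

theorem e_mem_of_ne (J : Fin 4 → Fin 4) (i j : Fin 4) (h : j ≠ J i) : e (i, j) ∈ TJ J := by
  refine ⟨Pi.single (i, j) 1, ?_, by rw [wt_single, one_smul]⟩
  intro i'
  refine Pi.single_eq_of_ne ?_ _
  intro h'
  rw [Prod.mk.injEq] at h'
  obtain ⟨h1, h2⟩ := h'
  subst h1
  exact h h2.symm

theorem Fc_mem (J : Fin 4 → Fin 4) (i : Fin 4) : Fc i ∈ TJ J := by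
  obtain ⟨j, hj⟩ : ∃ j, j ≠ J i := exists_ne (J i)
  rw [← two_e (i, j)]
  exact AddSubgroup.nsmul_mem _ (e_mem_of_ne J i j hj) 2

/-- If the sum of the degrees of a row is in `TJ` then all of them are. -/
theorem row_mem (J : Fin 4 → Fin 4) (i : Fin 4) (h : ∑ j, e (i, j) ∈ TJ J) (j : Fin 4) :
    e (i, j) ∈ TJ J := by
  by_cases hj : j = J i
  · have h1 := Finset.add_sum_erase Finset.univ (fun j => e (i, j)) (Finset.mem_univ j)
    have h2 : ∑ j' ∈ Finset.univ.erase j, e (i, j') ∈ TJ J := by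
      refine AddSubgroup.sum_mem _ fun j' hj' => ?_
      refine e_mem_of_ne J i j' ?_
      rw [← hj]
      exact Finset.ne_of_mem_erase hj'
    have h3 : e (i, j) = ∑ j, e (i, j) - ∑ j' ∈ Finset.univ.erase j, e (i, j') := by
      rw [← h1]
      simp
    rw [h3]
    exact AddSubgroup.sub_mem _ h h2
  · exact e_mem_of_ne J i j hj

theorem row0 : ∑ j, e (0, j) = 2 • Fc 0 := by
  rw [Fin.sum_univ_four]
  refine Prod.ext (funext fun l => ?_) (funext fun l => ?_) <;> (fin_cases l <;> decide)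

theorem row1 : ∑ j, e (1, j) = 2 • Fc 1 + Fc 0 - e (0, 0) - e (0, 1) := by
  rw [Fin.sum_univ_four]
  refine Prod.ext (funext fun l => ?_) (funext fun l => ?_) <;> (fin_cases l <;> decide)

theorem row2 : ∑ j, e (2, j) = 2 • Fc 2 + Fc 1 - e (1, 0) - e (1, 1) := by
  rw [Fin.sum_univ_four]
  refine Prod.ext (funext fun l => ?_) (funext fun l => ?_) <;> (fin_cases l <;> decide)

theorem row3 : ∑ j, e (3, j) =
    2 • Fc 3 + Fc 0 + Fc 1 - e (0, 0) - e (0, 2) - e (1, 0) - e (1, 2) := by
  rw [Fin.sum_univ_four]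
  refine Prod.ext (funext fun l => ?_) (funext fun l => ?_) <;> (fin_cases l <;> decide)

theorem e_mem (J : Fin 4 → Fin 4) (v : V) : e v ∈ TJ J := by
  have h0 : ∀ j, e (0, j) ∈ TJ J := row_mem J 0 (by
    rw [row0]
    exact AddSubgroup.nsmul_mem _ (Fc_mem J 0) 2)
  have h1 : ∀ j, e (1, j) ∈ TJ J := row_mem J 1 (by
    rw [row1]
    exact sub_mem (sub_mem (add_mem (AddSubgroup.nsmul_mem _ (Fc_mem J 1) 2) (Fc_mem J 0)) (h0 0))
      (h0 1))
  have h2 : ∀ j, e (2, j) ∈ TJ J := row_mem J 2 (by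
    rw [row2]
    exact sub_mem (sub_mem (add_mem (AddSubgroup.nsmul_mem _ (Fc_mem J 2) 2) (Fc_mem J 1)) (h1 0))
      (h1 1))
  have h3 : ∀ j, e (3, j) ∈ TJ J := row_mem J 3 (by
    rw [row3]
    exact sub_mem (sub_mem (sub_mem (sub_mem (add_mem (add_mem
      (AddSubgroup.nsmul_mem _ (Fc_mem J 3) 2) (Fc_mem J 0)) (Fc_mem J 1)) (h0 0)) (h0 2)) (h1 0))
      (h1 2))
  obtain ⟨i, j⟩ := v
  fin_cases i
  exacts [h0 j, h1 j, h2 j, h3 j]

theorem u_mem (J : Fin 4 → Fin 4) (l : Fin 8) : ((0, u l) : Lam) ∈ TJ J := by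
  have h : ∃ v w : V, ((0, u l) : Lam) = e v - e w := by
    fin_cases l
    · exact ⟨(0, 1), (0, 0), by decide⟩
    · exact ⟨(0, 2), (0, 0), by decide⟩
    · exact ⟨(1, 1), (1, 0), by decide⟩
    · exact ⟨(1, 2), (1, 0), by decide⟩
    · exact ⟨(2, 1), (2, 0), by decide⟩
    · exact ⟨(2, 2), (2, 0), by decide⟩
    · exact ⟨(3, 1), (3, 0), by decide⟩
    · exact ⟨(3, 2), (3, 0), by decide⟩
  obtain ⟨v, w, h⟩ := h
  rw [h]
  exact sub_mem (e_mem J v) (e_mem J w)

theorem TJ_eq_top (J : Fin 4 → Fin 4) : TJ J = ⊤ := by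
  rw [eq_top_iff]
  rintro ⟨g, t⟩ -
  have h : ((g, t) : Lam) = ∑ i, g i • e (i, 0) + ∑ l, (t l).val • ((0, u l) : Lam) := by
    have h1 : ∀ i : Fin 4, e (i, 0) = ((Pi.single i 1, 0) : Lam) := by decide
    refine Prod.ext (funext fun i => ?_) (funext fun l => ?_)
    · rw [Prod.fst_add, Prod.fst_sum, Prod.fst_sum, Pi.add_apply, Finset.sum_apply,
        Finset.sum_apply]
      simp [h1, Pi.single_apply]
    · rw [Prod.snd_add, Prod.snd_sum, Prod.snd_sum, Pi.add_apply, Finset.sum_apply,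
        Finset.sum_apply]
      have h2 : ∀ i : Fin 4, (g i • e (i, 0)).2 l = 0 := fun i => by
        rw [h1]
        simp
      have h3 : ∀ l' : Fin 8, ((t l').val • ((0, u l') : Lam)).2 l = if l' = l then t l else 0 := by
        intro l'
        change (t l').val • (Pi.single l' (1 : ZMod 2) : Fin 8 → ZMod 2) l = _
        rw [Pi.single_apply]
        split_ifs with h4 h5 h5
        · rw [h5, nsmul_eq_mul, mul_one, ZMod.natCast_val, ZMod.cast_id]
        · exact (h5 h4.symm).elim
        · exact (h4 h5.symm).elim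
        · rw [nsmul_zero]
      simp only [h2, h3, Finset.sum_const_zero, zero_add, Finset.sum_ite_eq', Finset.mem_univ,
        if_true]
  rw [h]
  exact add_mem (sum_mem fun i _ => AddSubgroup.zsmul_mem _ (e_mem J _) _)
    (sum_mem fun l _ => AddSubgroup.nsmul_mem _ (u_mem J l) _)

/-- Every degree is the degree of a Laurent monomial without the variables `(i, J i)`. -/
theorem exists_exp (J : Fin 4 → Fin 4) (γ : Lam) :
    ∃ c : V → ℤ, (∀ i, c (i, J i) = 0) ∧ ∑ v, c v • e v = γ := by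
  have h : γ ∈ TJ J := by rw [TJ_eq_top]; trivial
  obtain ⟨c, hc, h⟩ := h
  exact ⟨c, hc, h⟩

/-! ### Monomials -/

section

variable (k : Type*) [CommRing k] (s : k)

theorem mon_eq_prod (m : V →₀ ℕ) : mon k s m = ∏ v, xi k s v ^ m v :=
  Finsupp.prod_fintype _ _ fun _ => pow_zero _

theorem mon_dvd {a b : V →₀ ℕ} (h : a ≤ b) : mon k s a ∣ mon k s b := by
  obtain ⟨c, rfl⟩ := le_iff_exists_add.1 h
  rw [mon_add]
  exact Dvd.intro _ rfl

theorem sum_row {m : V →₀ ℕ} {n : ℕ} (h : Finsupp.weight e m = n • hh) (i : Fin 4) :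
    ∑ j, m (i, j) = 4 * n := by
  have h1 := weight_fst m i
  rw [h] at h1
  have h2 : (n • hh).1 i = 4 * n := by
    rw [Prod.smul_fst, Pi.smul_apply, hh]
    simp [mul_comm]
  rw [h2] at h1
  exact_mod_cast h1.symm

theorem weight_even (c : Fin 4 → Fin 4 → ℕ) (h : ∀ i, ∑ j, c i j = 2) :
    ∑ v : V, (2 * c v.1 v.2) • e v = hh := by
  rw [Fintype.sum_prod_type]
  have h1 : ∀ i : Fin 4, ∑ j, (2 * c i j) • e (i, j) = 2 • Fc i := by
    intro i
    have h2 : ∀ j, (2 * c i j) • e (i, j) = c i j • Fc i := by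
      intro j
      rw [mul_comm, mul_smul, two_e]
    rw [Finset.sum_congr rfl fun j _ => h2 j, ← Finset.sum_smul, h i]
  rw [Finset.sum_congr rfl fun i _ => h1 i]
  decide

end

end XChart

section gen

variable (k : Type*) [CommRing k] (s : k)

open XChart in
/-- `A'` is generated in degree one. -/
theorem gen_one (n : ℕ) (x : R k s) (hx : x ∈ gr k s ((n + 1) • hh)) :
    x ∈ Submodule.span k {z | ∃ a ∈ gr k s hh, ∃ b ∈ gr k s (n • hh), z = a * b} := by
  rcases Nat.eq_zero_or_pos n with rfl | hn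
  · refine Submodule.subset_span ⟨x, ?_, 1, ?_, (mul_one x).symm⟩
    · rwa [zero_add, one_smul] at hx
    · rw [zero_smul]
      exact SetLike.GradedOne.one_mem
  · rw [gr_eq_span] at hx
    refine (Submodule.span_le.2 ?_) hx
    rintro _ ⟨m, hm, rfl⟩
    have h1 : ∀ i, ∃ c : Fin 4 → ℕ, (∀ j, c j ≤ m (i, j) / 2) ∧ ∑ j, c j = 2 := by
      intro i
      refine sum_two _ ?_
      have h2 := sum_row hm i
      rw [Fin.sum_univ_four] at h2 ⊢
      omega
    choose c hc hc2 using h1
    let a : V →₀ ℕ := Finsupp.equivFunOnFinite.symm fun v => 2 * c v.1 v.2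
    have ha : ∀ v, a v = 2 * c v.1 v.2 := fun v => rfl
    have hle : a ≤ m := by
      intro v
      rw [ha]
      have := hc v.1 v.2
      change c v.1 v.2 ≤ m v / 2 at this
      omega
    have hwa : Finsupp.weight e a = hh := by
      rw [Finsupp.weight_eq_sum]
      exact weight_even c hc2
    obtain ⟨b, rfl⟩ := le_iff_exists_add.1 hle
    rw [map_add, hwa, succ_nsmul', add_right_inj] at hm
    refine Submodule.subset_span ⟨mon k s a, ?_, mon k s b, ?_, mon_add k s a b⟩
    · rw [← hwa]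
      exact mon_mem k s a
    · rw [← hm]
      exact mon_mem k s b

end gen

namespace XChart

section

variable (k : Type*) [CommRing k] (s : k)

/-- The ideal generated by the products of the powers of three coordinates of the row `i`. -/
noncomputable def rowI (E : ℕ) (i : Fin 4) : Ideal (R k s) :=
  Ideal.span (Set.range fun j0 : Fin 4 => ∏ j ∈ Finset.univ.erase j0, xi k s (i, j) ^ E)

theorem xi_mem_radical (h : Hyp k s) (E : ℕ) (i l : Fin 4) :
    xi k s (i, l) ∈ (rowI k s E i).radical := by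
  rw [Ideal.radical_eq_sInf, Ideal.mem_sInf]
  rintro P ⟨hle, hP⟩
  have key : ∀ j0, ∃ j ≠ j0, xi k s (i, j) ∈ P := by
    intro j0
    have h1 : ∏ j ∈ Finset.univ.erase j0, xi k s (i, j) ^ E ∈ P :=
      hle (Ideal.subset_span ⟨j0, rfl⟩)
    obtain ⟨j, hj, h2⟩ := hP.prod_mem_iff.1 h1
    exact ⟨j, Finset.ne_of_mem_erase hj, hP.mem_of_pow_mem _ h2⟩
  obtain ⟨j1, -, h1⟩ := key 0
  obtain ⟨j2, hj, h2⟩ := key j1
  refine hP.mem_of_pow_mem 2 ?_
  have h3 : Ideal.span {xi k s (i, j2), xi k s (i, j1)} ≤ P := by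
    rw [Ideal.span_le]
    rintro _ (rfl | rfl)
    exacts [h2, h1]
  exact h3 (xi_sq_mem k s h i j2 j1 l hj)

theorem exists_pow_mem (h : Hyp k s) (E : ℕ) : ∃ N, ∀ v : V, xi k s v ^ N ∈ rowI k s E v.1 := by
  have h1 : ∀ v : V, ∃ n, xi k s v ^ n ∈ rowI k s E v.1 := fun v =>
    xi_mem_radical k s h E v.1 v.2
  choose n hn using h1
  refine ⟨∑ v, n v, fun v => ?_⟩
  exact Ideal.pow_mem_of_pow_mem _ (hn v) (Finset.single_le_sum (f := n)
    (fun _ _ => Nat.zero_le _) (Finset.mem_univ v))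

theorem prod_rowI_le {E : ℕ} {I : Ideal (R k s)}
    (h : ∀ J : Fin 4 → Fin 4, ∏ i, ∏ j ∈ Finset.univ.erase (J i), xi k s (i, j) ^ E ∈ I) :
    ∏ i, rowI k s E i ≤ I := by
  unfold rowI
  rw [Ideal.prod_span, Ideal.span_le]
  intro z hz
  rw [Set.mem_finsetProd] at hz
  obtain ⟨g, hg, rfl⟩ := hz
  have h1 : ∀ i, ∃ j0 : Fin 4, ∏ j ∈ Finset.univ.erase j0, xi k s (i, j) ^ E = g i := fun i =>
    hg (Finset.mem_univ i)
  choose J hJ using h1
  have h2 := h J
  rwa [Finset.prod_congr rfl fun i _ => hJ i] at h2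

/-- Monomials of high degree. -/
theorem mon_mem_of_high {N n : ℕ} {I : Fin 4 → Ideal (R k s)}
    (hN : ∀ v : V, xi k s v ^ N ∈ I v.1) (hn : N ≤ n) {m : V →₀ ℕ}
    (hm : Finsupp.weight e m = n • hh) : mon k s m ∈ ∏ i, I i := by
  have h1 : ∀ i, ∃ j, N ≤ m (i, j) := by
    intro i
    have h2 := sum_row hm i
    rw [Fin.sum_univ_four] at h2
    by_contra hcon
    push Not at hcon
    have := hcon 0
    have := hcon 1
    have := hcon 2
    have := hcon 3
    omega
  choose j hj using h1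
  rw [mon_eq_prod, Fintype.prod_prod_type]
  refine Ideal.prod_mem_prod fun i _ => ?_
  refine Ideal.mem_of_dvd _ ?_ (hN (i, j i))
  exact (pow_dvd_pow _ (hj i)).trans
    (Finset.dvd_prod_of_mem (fun j => xi k s (i, j) ^ m (i, j)) (Finset.mem_univ (j i)))

theorem sum_allowed (J : Fin 4 → Fin 4) (M : ℕ) :
    ∑ v : V, (if v.2 = J v.1 then (0 : ℤ) else 4 * M) • e v = (3 * M) • hh := by
  have h1 : ∀ i j : Fin 4, (if j = J i then (0 : ℤ) else 4 * M) • e (i, j) =
      if j = J i then 0 else (2 * M) • Fc i := by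
    intro i j
    split_ifs
    · rw [zero_smul]
    · rw [← two_e (i, j), ← mul_smul]
      have : (4 * M : ℤ) = ((2 * M * 2 : ℕ) : ℤ) := by push_cast; ring
      rw [this, natCast_zsmul]
  have h2 : ∀ i : Fin 4, ∑ j, (if j = J i then (0 : ℤ) else 4 * M) • e (i, j) =
      (3 * M) • (2 • Fc i) := by
    intro i
    rw [Finset.sum_congr rfl fun j _ => h1 i j, Finset.sum_ite, Finset.sum_const_zero, zero_add,
      Finset.sum_const, ← mul_smul, ← mul_smul]
    have h3 : (Finset.univ.filter fun j : Fin 4 => ¬ j = J i).card = 3 := by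
      rw [Finset.filter_not, Finset.filter_eq', if_pos (Finset.mem_univ _),
        Finset.card_sdiff_of_subset (Finset.subset_univ _)]
      rfl
    rw [h3]
    congr 1
    ring
  have h3 : ∑ i : Fin 4, 2 • Fc i = hh := by decide
  rw [Fintype.sum_prod_type, Finset.sum_congr rfl fun i _ => h2 i, ← Finset.smul_sum, h3]

end

end XChart

section bpf

variable (k : Type*) [CommRing k] (s : k)

open XChart in
/-- For every degree `γ`: the products of sections of degree `γ + m h` and `m h - γ` generate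
the irrelevant ideal in high degree. -/
theorem bpf (h : Hyp k s) (γ : Lam) : ∃ m N : ℕ, ∀ n : ℕ, N ≤ n → ∀ a ∈ gr k s (n • hh),
    a ∈ Ideal.span {z | ∃ x ∈ gr k s (γ + m • hh), ∃ y ∈ gr k s (m • hh - γ), z = x * y} := by
  have h0 := fun J => exists_exp J γ
  choose c hc hγ using h0
  obtain ⟨M, hM⟩ : ∃ M : ℕ, ∀ J v, (c J v).natAbs ≤ M := by
    refine ⟨∑ J, ∑ v, (c J v).natAbs, fun J v => ?_⟩
    exact (Finset.single_le_sum (f := fun v => (c J v).natAbs) (fun _ _ => Nat.zero_le _)
      (Finset.mem_univ v)).trans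
      (Finset.single_le_sum (f := fun J => ∑ v, (c J v).natAbs) (fun _ _ => Nat.zero_le _)
        (Finset.mem_univ J))
  obtain ⟨N, hN⟩ := exists_pow_mem k s h (8 * M)
  refine ⟨3 * M, N, fun n hn a ha => ?_⟩
  set I := Ideal.span {z | ∃ x ∈ gr k s (γ + (3 * M) • hh), ∃ y ∈ gr k s ((3 * M) • hh - γ),
    z = x * y} with hI
  have hle : ∏ i, rowI k s (8 * M) i ≤ I := by
    refine prod_rowI_le k s fun J => ?_
    let p : V →₀ ℕ := Finsupp.equivFunOnFinite.symm fun v =>
      if v.2 = J v.1 then 0 else (4 * M + c J v).toNat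
    let q : V →₀ ℕ := Finsupp.equivFunOnFinite.symm fun v =>
      if v.2 = J v.1 then 0 else (4 * M - c J v).toNat
    have hp : ∀ v, p v = if v.2 = J v.1 then 0 else (4 * M + c J v).toNat := fun v => rfl
    have hq : ∀ v, q v = if v.2 = J v.1 then 0 else (4 * M - c J v).toNat := fun v => rfl
    have hp' : ∀ v, p v • e v = c J v • e v + (if v.2 = J v.1 then (0 : ℤ) else 4 * M) • e v := by
      intro v
      rw [← add_smul, ← natCast_zsmul, hp]
      congr 1
      have := hM J v
      split_ifs with h1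
      · have := hc J v.1
        rw [← h1] at this
        change c J v = 0 at this
        simp [this]
      · omega
    have hq' : ∀ v, q v • e v = (if v.2 = J v.1 then (0 : ℤ) else 4 * M) • e v - c J v • e v := by
      intro v
      rw [← sub_smul, ← natCast_zsmul, hq]
      congr 1
      have := hM J v
      split_ifs with h1
      · have := hc J v.1
        rw [← h1] at this
        change c J v = 0 at this
        simp [this]
      · omega
    have hwp : Finsupp.weight e p = γ + (3 * M) • hh := by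
      rw [Finsupp.weight_eq_sum, Finset.sum_congr rfl fun v _ => hp' v, Finset.sum_add_distrib,
        hγ, sum_allowed]
    have hwq : Finsupp.weight e q = (3 * M) • hh - γ := by
      rw [Finsupp.weight_eq_sum, Finset.sum_congr rfl fun v _ => hq' v, Finset.sum_sub_distrib,
        hγ, sum_allowed]
    have hpq : ∏ i, ∏ j ∈ Finset.univ.erase (J i), xi k s (i, j) ^ (8 * M) =
        mon k s p * mon k s q := by
      rw [← mon_add, mon_eq_prod, Fintype.prod_prod_type]
      refine Finset.prod_congr rfl fun i _ => ?_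
      rw [← Finset.mul_prod_erase Finset.univ (fun j => xi k s (i, j) ^ (p + q) (i, j))
        (Finset.mem_univ (J i))]
      have h1 : (p + q) (i, J i) = 0 := by
        rw [Finsupp.add_apply, hp, hq]
        simp
      rw [h1, pow_zero, one_mul]
      refine Finset.prod_congr rfl fun j hj => ?_
      have h2 : j ≠ J i := Finset.ne_of_mem_erase hj
      have h3 : (p + q) (i, j) = 8 * M := by
        rw [Finsupp.add_apply, hp, hq]
        have := hM J (i, j)
        simp only [h2, if_false]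
        omega
      rw [h3]
    rw [hpq, hI]
    refine Ideal.subset_span ⟨_, ?_, _, ?_, rfl⟩
    · rw [← hwp]
      exact mon_mem k s p
    · rw [← hwq]
      exact mon_mem k s q
  rw [gr_eq_span] at ha
  have h3 : Submodule.span k {x | ∃ m : V →₀ ℕ, Finsupp.weight e m = n • hh ∧ x = mon k s m} ≤
      I.restrictScalars k := by
    rw [Submodule.span_le]
    rintro _ ⟨m, hm, rfl⟩
    exact hle (mon_mem_of_high k s hN hn hm)
  exact h3 ha

end bpf

end Pool.Agent.SSF
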