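import Pool.Agent.SSF.XDesc
import Pool.Agent.SSF.XChart

/-!
Project SSF (MP_5928ba): X6, last two statements.
-/

set_option autoImplicit false

namespace Pool.Agent.SSF

open MvPolynomial DirectSum

theorem hyp_F2 : Hyp F2 sF := by
  refine ⟨?_, sF_sq⟩
  refine QuadraticAlgebra.ext ?_ ?_
  · simp [QuadraticAlgebra.re_ofNat]
    decide
  · simp [QuadraticAlgebra.im_ofNat]

/-- the `bpf` property of the form. -/
theorem bpfF (γ : Lsig) : ∃ m N : ℕ, ∀ n : ℕ, N ≤ n → ∀ a ∈ grF (n • hF),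
    a ∈ Ideal.span {z | ∃ x ∈ grF (γ + m • hF), ∃ y ∈ grF (m • hF - γ), z = x * y} :=
  XDesc.bpfF_of γ (bpf F2 sF hyp_F2 γ.1)

theorem gen_oneF (n : ℕ) (x : RF) (hx : x ∈ grF ((n + 1) • hF)) :
    x ∈ Submodule.span F17 {z | ∃ a ∈ grF hF, ∃ b ∈ grF (n • hF), z = a * b} :=
  XDesc.gen_oneF_of n (gen_one F2 sF n) x hx

end Pool.Agent.SSF
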