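import Pool.Agent.SSF.XGoodOf
import Pool.Agent.SSF.XBasis
import Pool.Agent.SSF.XDesc2

/-!
Project SSF (MP_5928ba): X7, the two Cox data of the example are good.
-/

set_option autoImplicit false

namespace Pool.Agent.SSF

open MvPolynomial DirectSum

theorem ftR_DS (k : Type) [CommRing k] (s : k) : Algebra.FiniteType k (R k s) :=
  Algebra.FiniteType.of_surjective (Ideal.Quotient.mkₐ k (relI k s))
    (Ideal.Quotient.mkₐ_surjective k (relI k s))

theorem gr_neg (k : Type) [CommRing k] (s : k) (γ : Lam) :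
    ∃ N : ℕ, ∀ n : ℕ, N ≤ n → gr k s (γ - n • hh) = ⊥ := by
  refine ⟨(γ.1 0).toNat + 1, fun n hn => gr_eq_bot_of_neg k s _ 0 ?_⟩
  have h1 : (γ - n • hh).1 0 = γ.1 0 - n * 4 := by
    simp [hh]
  rw [h1]
  have h2 := Int.self_le_toNat (γ.1 0)
  omega

theorem gr_neg0 (k : Type) [CommRing k] (s : k) (n : ℕ) (hn : 0 < n) :
    gr k s (-(n • hh)) = ⊥ := by
  refine gr_eq_bot_of_neg k s _ 0 ?_
  have h1 : (-(n • hh) : Lam).1 0 = -(n * 4) := by
    simp [hh]
  rw [h1]
  omega

theorem Lam_fg : AddGroup.FG Lam := by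
  have : Module.Finite ℤ Lam := inferInstance
  exact Module.Finite.iff_addGroup_fg.1 this

theorem Lsig_fg : AddGroup.FG Lsig := by
  have h1 : Module.Finite ℤ Lam := inferInstance
  have h2 : IsNoetherian ℤ Lam := inferInstance
  have h3 : Module.Finite ℤ (AddSubgroup.toIntSubmodule Lsig) := inferInstance
  exact Module.Finite.iff_addGroup_fg.1 h3

theorem DS_good (k : Type) [CommRing k] (s : k) (h : Hyp k s) : (DS k s).Good :=
  mkCox_good (gr k s) hh hh_inj (ftR_DS k s)
    (ver_finiteType (gr k s) hh hh_inj (gr_finite k s) (gr_zero k s) (gen_one k s))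
    (gr_finite k s) (gr_neg k s) (gr_neg0 k s) Lam_fg (gen_one k s) (bpf k s h)

theorem grF_le (γ : Lsig) (x : RF) (hx : x ∈ grF γ) : (x : R F2 sF) ∈ gr F2 sF (γ : Lam) := hx

theorem grF_eq_bot (γ : Lsig) (h : gr F2 sF (γ : Lam) = ⊥) : grF γ = ⊥ := by
  rw [eq_bot_iff]
  intro x hx
  have h1 : (x : R F2 sF) ∈ gr F2 sF (γ : Lam) := hx
  rw [h, Submodule.mem_bot] at h1
  rw [Submodule.mem_bot]
  exact Subtype.ext h1

theorem grF_finite (γ : Lsig) : Module.Finite F17 (grF γ) := by
  have h1 : Module.Finite F2 (gr F2 sF (γ : Lam)) := gr_finite F2 sF _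
  have h0 : Module.Finite F17 F2 := inferInstance
  have h2 : Module.Finite F17 (gr F2 sF (γ : Lam)) := Module.Finite.trans F2 _
  let f : grF γ →ₗ[F17] gr F2 sF (γ : Lam) :=
    { toFun := fun x => ⟨((x : RF) : R F2 sF), x.2⟩
      map_add' := fun _ _ => rfl
      map_smul' := fun _ _ => rfl }
  exact Module.Finite.of_injective f fun x y hxy =>
    Subtype.ext (Subtype.ext (congrArg (fun z : gr F2 sF (γ : Lam) => (z : R F2 sF)) hxy))

theorem grF_zero : grF 0 = LinearMap.range (Algebra.linearMap F17 RF) := by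
  apply le_antisymm
  · intro x hx
    have h1 : (x : R F2 sF) ∈ gr F2 sF 0 := hx
    rw [gr_zero] at h1
    obtain ⟨c, hc⟩ := h1
    have h2 : sigR (x : R F2 sF) = x := x.2.1
    have hc' : algebraMap F2 (R F2 sF) c = x := hc
    rw [← hc', sigR, conjR_algebraMap] at h2
    have h3 : starF c = c := algebraMap_injective_R F2 sF h2
    have h4 : c = algebraMap F17 F2 c.re := by
      have h5 := congrArg QuadraticAlgebra.im h3
      have h6 : (starF c).im = -c.im := by
        simp [starF, starRingEnd_apply]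
      rw [h6] at h5
      have h7 : c.im = 0 := by
        have : ∀ a : ZMod 17, -a = a → a = 0 := by decide
        exact this _ h5
      refine QuadraticAlgebra.ext ?_ ?_
      · simp
      · simp [h7]
    refine ⟨c.re, Subtype.ext ?_⟩
    change algebraMap F17 (R F2 sF) c.re = x
    rw [IsScalarTower.algebraMap_apply F17 F2 (R F2 sF), ← h4, hc']
  · rintro _ ⟨c, rfl⟩
    exact SetLike.algebraMap_mem_graded grF c

theorem DF_good : DF.Good := by
  refine mkCox_good grF hF hF_inj RF_finiteType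
    (ver_finiteType grF hF hF_inj grF_finite grF_zero gen_oneF)
    grF_finite ?_ ?_ Lsig_fg gen_oneF bpfF
  · intro γ
    obtain ⟨N, hN⟩ := gr_neg F2 sF (γ : Lam)
    exact ⟨N, fun n hn => grF_eq_bot _ (hN n hn)⟩
  · intro n hn
    exact grF_eq_bot _ (gr_neg0 F2 sF n hn)

end Pool.Agent.SSF
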