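import Pool.Agent.SSF.EMain
import Pool.Agent.SSF.EReg
import Pool.Agent.SSF.EPt
import Pool.Agent.SSF.EB
import Pool.Agent.SSF.ESpC
import Pool.Agent.SSF.XGood

/-!
# SSF, layer E: the data for the evaluation in the example
-/

set_option autoImplicit false

namespace Pool.Agent.SSF.Ev

open MvPolynomial DirectSum XDesc

/-- Degree of a coordinate fixed by the Frobenius. -/
def gE (i j : Fin 4) (h : sV (i, j) = (i, j)) : Lsig := ⟨e (i, j), Ls_e i j h⟩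
/-- Degrees of the squares. -/
def gF (i : Fin 4) : Lsig := ⟨Fc i, Fc_mem i⟩
/-- Degree of `q`. -/
def gW : Lsig := ⟨dgW, Ls_W⟩
/-- Degree of `Y1`, `Y2`. -/
def gY : Lsig := ⟨dgY, Ls_Y⟩
/-- Degree of `u`. -/
def gU : Lsig := ⟨dgU, Ls_U⟩

theorem deg_span (a b c d : ℕ) : ((a • gF 0 + b • gF 1 + c • gF 2 + d • gF 3 : Lsig) : Lam) =
    (![2 * (a : ℤ), 2 * b, 2 * c, 2 * d], 0) := by
  change a • Fc 0 + b • Fc 1 + c • Fc 2 + d • Fc 3 = _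
  refine Prod.ext (funext fun i => ?_) (funext fun j => ?_)
  · fin_cases i <;> simp [Fc, mul_comm]
  · simp [Fc]

theorem RF_ext {x y : RF} (h : RF.val x = RF.val y) : x = y := Subtype.ext h

theorem iqF : fq * fqm = 10 * fa3 ^ 2 * fa2 + fb3 * fc := by
  refine RF_ext ?_
  unfold fc
  simp only [map_mul, map_add, map_pow, map_ofNat]
  exact iq rel

theorem iYYF : fY1 * fY2 = 3 * fx 0 0 rfl ^ 2 * fa2 ^ 2 + fx 0 0 rfl ^ 2 * fa2 * fb2 -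
    fx 0 0 rfl ^ 2 * fb2 ^ 2 + fx 0 1 rfl ^ 2 * fb2 ^ 2 := by
  refine RF_ext ?_
  simp only [map_mul, map_add, map_sub, map_pow, map_ofNat]
  exact iYY rel

theorem iYF : fY2 ^ 2 + 6 * fV = - fx 0 0 rfl ^ 2 * fb2 ^ 2 + 8 * fx 0 1 rfl ^ 2 * fa2 ^ 2 -
    3 * fx 0 1 rfl ^ 2 * fa2 * fb2 + 3 * fx 0 1 rfl ^ 2 * fb2 ^ 2 := by
  refine RF_ext ?_
  simp only [map_mul, map_add, map_sub, map_pow, map_ofNat, map_neg]
  exact iY rel

theorem iuF : fu ^ 2 = 2 * fV + 2 * fx 0 0 rfl ^ 2 * fa2 * fb2 + 6 * fx 0 0 rfl ^ 2 * fb2 ^ 2 +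
    3 * fx 0 1 rfl ^ 2 * fa2 ^ 2 + fx 0 1 rfl ^ 2 * fa2 * fb2 + fx 0 1 rfl ^ 2 * fb2 ^ 2 := by
  refine RF_ext ?_
  simp only [map_mul, map_add, map_pow, map_ofNat]
  exact iu rel

theorem iVF : fV ^ 2 = fx 0 0 rfl ^ 4 * (12 * fa2 ^ 4 + 8 * fa2 ^ 3 * fb2 - fa2 ^ 2 * fb2 ^ 2 +
      3 * fa2 * fb2 ^ 3 - fb2 ^ 4) +
    fx 0 1 rfl ^ 4 * (-2 * fa2 ^ 4 + 10 * fa2 ^ 3 * fb2 + 3 * fa2 ^ 2 * fb2 ^ 2 +
      8 * fa2 * fb2 ^ 3 + 3 * fb2 ^ 4) := by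
  refine RF_ext ?_
  simp only [map_mul, map_add, map_sub, map_pow, map_ofNat, map_neg]
  exact iV rel

theorem i43F : fx 3 2 rfl ^ 2 = fx 3 0 rfl ^ 2 - fx 3 1 rfl ^ 2 := by
  refine RF_ext ?_
  simp only [map_sub, map_pow]
  exact rel.h32

theorem i44F : fx 3 3 rfl ^ 2 = fx 3 0 rfl ^ 2 + fx 3 1 rfl ^ 2 := by
  refine RF_ext ?_
  simp only [map_add, map_pow]
  exact rel.h33

/-- The degree `τ`. -/
def gTau : Lsig := ⟨e (3, 0) - e (3, 2), by change sL _ = _; decide⟩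
/-- The degree `ε`. -/
def gEps : Lsig := ⟨(e (1, 0) - e (1, 1)) + ((e (0, 2) - e (0, 0)) + (e (1, 2) - e (1, 0))),
  by change sL _ = _; decide⟩

theorem eqL {a b : Lsig} (h : (a : Lam) = b) : a = b := Subtype.ext h

theorem sp_aux (a b c d : ℕ) (x : RF) (hx : x ∈ grF (a • gF 0 + b • gF 1 + c • gF 2 + d • gF 3)) :
    (x : R F2 sF) ∈ gr F2 sF (![2 * (a : ℤ), 2 * b, 2 * c, 2 * d], 0) := by
  rw [← deg_span]
  exact hx

/-- The data for the evaluation. -/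
noncomputable def ex (dim1 : DF.DimLE (Ideal.span {(fb3 : DF.R), fx 3 0 rfl}) 2)
    (dim2 : DF.DimLE (Ideal.span {(fb3 : DF.R), fx 3 1 rfl}) 2) : Cox.EX DF where
  e11 := gE 0 0 rfl
  e12 := gE 0 1 rfl
  e41 := gE 3 0 rfl
  e42 := gE 3 1 rfl
  e43 := gE 3 2 rfl
  e44 := gE 3 3 rfl
  F1 := gF 0
  F2 := gF 1
  F3 := gF 2
  F4 := gF 3
  W := gW
  dY := gY
  dU := gU
  τ := gTau
  ε := gEps
  x11 := fx 0 0 rfl
  x12 := fx 0 1 rfl
  x41 := fx 3 0 rfl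
  x42 := fx 3 1 rfl
  x43 := fx 3 2 rfl
  x44 := fx 3 3 rfl
  a2 := fa2
  b2 := fb2
  a3 := fa3
  b3 := fb3
  q := fq
  qm := fqm
  Y1 := fY1
  Y2 := fY2
  u := fu
  V := fV
  c := fc
  τ2 := eqL (by change 2 • (e (3, 0) - e (3, 2)) = 0; decide)
  t11 := eqL (two_e (0, 0))
  t12 := eqL (two_e (0, 1))
  t41 := eqL (two_e (3, 0))
  t42 := eqL (two_e (3, 1))
  hdeg := eqL (by change hh = 2 • (Fc 0 + Fc 1 + Fc 2 + Fc 3); decide)
  hε := eqL (by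
    change (e (1, 0) - e (1, 1)) + ((e (0, 2) - e (0, 0)) + (e (1, 2) - e (1, 0))) +
      2 • (e (0, 0) + Fc 1) = e (0, 0) + dgY + Fc 1
    decide)
  hs1 := eqL (by
    change e (3, 1) + e (3, 3) + e (0, 1) + dgU = Fc 0 + Fc 1 + Fc 3 + (e (3, 0) - e (3, 2))
    decide)
  hs2 := eqL (by change e (3, 0) + e (3, 2) = Fc 3 + (e (3, 0) - e (3, 2)); decide)
  d11 := xx_mem 0 0
  d12 := xx_mem 0 1
  d41 := xx_mem 3 0
  d42 := xx_mem 3 1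
  d43 := xx_mem 3 2
  d44 := xx_mem 3 3
  da2 := al_mem 1
  db2 := be_mem 1
  da3 := al_mem 2
  db3 := be_mem 2
  dq := qW_mem
  dqm := qWm_mem
  dY1 := Y1_mem
  dY2 := Y2_mem
  du := uu_mem
  dV := VV_mem
  iq := iqF
  iYY := iYYF
  iY := iYF
  iu := iuF
  iV := iVF
  i43 := i43F
  i44 := i44F
  B1 := B1 DF_good
  B2 := B2 DF_good
  B3 := B3 DF_good
  B4 := B4 DF_good
  dim1 := dim1
  dim2 := dim2
  rq1 := rq1
  rq2 := rq2
  r11 := r11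
  r21 := r21
  r12 := r12
  r22 := r22
  r13 := r13
  r23 := r23
  sp := ⟨2, fun a b c d _ hb hc _ x hx => spF a b c d hb hc x (sp_aux a b c d x hx)⟩
  L := exists_ev.choose
  fL := exists_ev.choose_spec.choose
  ev := exists_ev.choose_spec.choose_spec.choose
  ev_b3 := exists_ev.choose_spec.choose_spec.choose_spec.1
  ev_x41 := exists_ev.choose_spec.choose_spec.choose_spec.2.1
  ev_q := exists_ev.choose_spec.choose_spec.choose_spec.2.2.1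
  ev_x11 := exists_ev.choose_spec.choose_spec.choose_spec.2.2.2.1
  ev_a2 := exists_ev.choose_spec.choose_spec.choose_spec.2.2.2.2.1
  ev_x12 := exists_ev.choose_spec.choose_spec.choose_spec.2.2.2.2.2.1
  ev_b2 := exists_ev.choose_spec.choose_spec.choose_spec.2.2.2.2.2.2.1
  ev_a3 := exists_ev.choose_spec.choose_spec.choose_spec.2.2.2.2.2.2.2.1
  ev_x42 := exists_ev.choose_spec.choose_spec.choose_spec.2.2.2.2.2.2.2.2

end Pool.Agent.SSF.Ev
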