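import Pool.Agent.SSF.Dim
import Pool.Agent.SSF.G3

/-! # SSF: the Koszul complex of a list without zeros on `V(J)` is contractible in high degrees -/

set_option autoImplicit false

namespace Pool.Agent.SSF

open Pool.Agent.Helper88.SSF

namespace Cox

section EJ

variable {K : Type} [Field K] {D : Cox K}

theorem high_iff {P : D.Γ → Prop} : D.High P ↔ HighP D.h P := Iff.rfl

theorem colon_hom {J : Ideal D.R} (hJ : J.IsHomogeneous D.gR) {δ : D.Γ} {r : D.R}
    (hr : r ∈ D.gR δ) : (J.colon (Ideal.span {r} : Ideal D.R)).IsHomogeneous D.gR := by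
  intro i x hx
  rw [Ideal.mem_colon_span_singleton] at hx ⊢
  have h2 := hJ (i + δ) hx
  have h3 : (DirectSum.decompose D.gR (x * r) (i + δ) : D.R) =
      (DirectSum.decompose D.gR x i : D.R) * r :=
    DirectSum.coe_decompose_mul_add_of_right_mem D.gR hr
  rwa [h3] at h2

theorem sup_hom {J : Ideal D.R} (hJ : J.IsHomogeneous D.gR) {δ : D.Γ} {r : D.R}
    (hr : r ∈ D.gR δ) : (J ⊔ Ideal.span {r}).IsHomogeneous D.gR :=
  hJ.sup (Ideal.homogeneous_span D.gR _ (by
    rintro x hx
    rw [Set.mem_singleton_iff] at hx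
    subst hx
    exact ⟨δ, hr⟩))

/-- The main theorem: contractibility in high degrees. -/
theorem sys_good (hD : D.Good) {J : Ideal D.R} (hJ : J.IsHomogeneous D.gR) (fJ : D.FF J)
    {l : List D.Sec} (hl : D.dm J 0 l) : D.High fun n => (D.sys J fJ).Good n l := by
  have hft := hD.ftR
  have hN : IsNoetherianRing D.R := Algebra.FiniteType.isNoetherianRing K D.R
  revert l
  induction J using WellFoundedGT.induction with
  | ind J ih =>
  intro l hl
  by_cases hp : ∀ (δ : D.Γ) (r : D.R), r ∈ D.gR δ → r ∉ J → ∀ (γ : D.Γ) (x : D.R),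
      x ∈ D.gR γ → r * x ∈ J → x ∈ J
  · -- `J` is a graded prime
    by_cases hs : ∃ s ∈ l, val s ∉ J
    · obtain ⟨s, hsl, hsJ⟩ := hs
      have hlt : J < J ⊔ Ideal.span {val s} := by
        refine lt_of_le_of_ne le_sup_left fun h => hsJ ?_
        rw [h]
        exact Ideal.mem_sup_right (Ideal.mem_span_singleton_self _)
      obtain ⟨l', hl'⟩ : ∃ l' : List D.Sec, l.Perm (s :: l') := by
        classical
        exact ⟨l.erase s, List.perm_cons_erase hsl⟩
      have h1 : D.dm J 0 (s :: l') := dm_perm hl' hl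
      rw [dm_cons_iff] at h1
      have h2 := ih _ hlt (sup_hom hJ s.2.2) (ff_field hD _) h1
      obtain ⟨ρ, hρ⟩ := nzd_seq D.gR J hJ s fJ (ff_field hD _)
      rw [high_iff]
      refine HighP.mono (fun n hn => ?_) (high_iff.1 h2)
      have hT : ∀ (l : List D.Γ) (n : D.Γ), AllSub (fun _ : D.Γ => True) l n := by
        intro l
        induction l with
        | nil => intro n; trivial
        | cons g l ih =>
          intro n
          exact AllSub.mono (U := fun _ => True) (V := fun _ => True ∧ True)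
            (fun _ _ => ⟨trivial, trivial⟩) (ih n)
      have h3 := (hρ (fun _ => True)
        (fun a _ x hx hsx => hp _ _ s.2.2 hsJ _ x hx hsx) n l' (hT _ n)).1.2 hn
      exact ((D.sys J fJ).good_perm hl' n).2 h3
    · push Not at hs
      have h1 : ∀ p : D.Pt, ¬ D.On J p := by
        intro p hp'
        obtain ⟨s, hsl, hsp⟩ := dm_zero_iff.1 hl p hp'
        exact hsp (hp' (hs s hsl))
      have h2 := D.high_le_of_noPoint hD J hJ h1
      rw [high_iff]
      refine HighP.mono (fun n hn => ?_) (HighP.allSub (high_iff.1 h2) (l.map fun s => s.1))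
      exact good_of_pieces D.gR J fJ _ (fun a ha => ha) n l hn
  · push Not at hp
    obtain ⟨δ, r, hr, hrJ, γ, x, hx, hrx, hxJ⟩ := hp
    have hlt1 : J < J.colon (Ideal.span {r} : Ideal D.R) := by
      refine lt_of_le_of_ne ?_ ?_
      · intro y hy
        rw [Ideal.mem_colon_span_singleton]
        exact Ideal.mul_mem_right _ _ hy
      · intro h
        apply hxJ
        rw [h, Ideal.mem_colon_span_singleton, mul_comm]
        exact hrx
    have hlt2 : J < J ⊔ Ideal.span {r} := by
      refine lt_of_le_of_ne le_sup_left fun h => hrJ ?_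
      rw [h]
      exact Ideal.mem_sup_right (Ideal.mem_span_singleton_self _)
    have h1 := ih _ hlt1 (colon_hom hJ hr) (ff_field hD _)
      (dm_mono hlt1.le le_rfl (fun _ h => h) hl)
    have h2 := ih _ hlt2 (sup_hom hJ hr) (ff_field hD _)
      (dm_mono hlt2.le le_rfl (fun _ h => h) hl)
    obtain ⟨ρ, hρ⟩ := colon_seq D.gR J hJ hr (J.colon (Ideal.span {r} : Ideal D.R))
      (fun y => by rw [Ideal.mem_colon_span_singleton, mul_comm]) fJ (ff_field hD _)
      (ff_field hD _)
    rw [high_iff]
    exact HighP.mono (fun n hn => (hρ n l).1 hn.1 hn.2)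
      (HighP.and (HighP.sub (high_iff.1 h1) δ) (high_iff.1 h2))

end EJ

end Cox
end Pool.Agent.SSF
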