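import Pool.Agent.SSF.Eval
import Pool.Agent.SSF.SymbProps
import Pool.Agent.SSF.G3

/-! # SSF, layer E: the evaluation of the functional on the two cycles -/

set_option autoImplicit false
open scoped TensorProduct

namespace Pool.Agent.SSF
namespace Cox

/-- The determinant of `a + b v` on a two-dimensional space on which `v ^ 2 = n` is not a square:
the norm `a ^ 2 - n b ^ 2`. -/
theorem E.det_quad {F V : Type*} [Field F] [AddCommGroup V] [Module F V]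
    (v : V →ₗ[F] V) (n : F) (hv : ∀ x, v (v x) = n • x) (hn : ¬ IsSquare n)
    (hd : Module.finrank F V = 2) (a b : F) (θ : V →ₗ[F] V)
    (hθ : ∀ x, θ x = a • x + b • v x) :
    LinearMap.det θ = a ^ 2 - n * b ^ 2 := by
  have hnt : Nontrivial V := Module.nontrivial_of_finrank_pos (R := F) (by omega)
  obtain ⟨m, hm⟩ := exists_ne (0 : V)
  have hli : LinearIndependent F ![m, v m] := by
    rw [LinearIndependent.pair_iff]
    intro p q h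
    by_cases hq : q = 0
    · subst hq
      simp only [zero_smul, add_zero, smul_eq_zero, hm, or_false] at h
      exact ⟨h, rfl⟩
    · exfalso
      apply hn
      have h1 : v m = (-(p / q)) • m := by
        have h2 : q • v m = (-p) • m := by
          rw [neg_smul, eq_neg_iff_add_eq_zero, add_comm]; exact h
        calc v m = (q⁻¹ * q) • v m := by rw [inv_mul_cancel₀ hq, one_smul]
          _ = q⁻¹ • ((-p) • m) := by rw [mul_smul, h2]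
          _ = (-(p / q)) • m := by rw [← mul_smul]; congr 1; field_simp
      have h3 := hv m
      rw [h1, map_smul, h1, ← mul_smul] at h3
      have h4 : ((-(p / q)) * (-(p / q)) - n) • m = 0 := by
        rw [sub_smul, h3, sub_self]
      rcases smul_eq_zero.1 h4 with h5 | h5
      · exact ⟨-(p / q), by linear_combination -h5⟩
      · exact absurd h5 hm
  have hcard : Fintype.card (Fin 2) = Module.finrank F V := by simp [hd]
  have : FiniteDimensional F V := Module.finite_of_finrank_pos (by omega)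
  let B := basisOfLinearIndependentOfCardEqFinrank hli hcard
  have hB0 : B 0 = m := by simp [B]
  have hB1 : B 1 = v m := by simp [B]
  rw [← LinearMap.det_toMatrix B, Matrix.det_fin_two]
  have e0 : θ (B 0) = a • B 0 + b • B 1 := by
    rw [hθ, hB0, hB1]
  have e1 : θ (B 1) = (b * n) • B 0 + a • B 1 := by
    rw [hθ, hB0, hB1, hv, mul_smul, add_comm]
  have r (i j : Fin 2) : B.repr (B j) i = if j = i then 1 else 0 := by
    rw [B.repr_self, Finsupp.single_apply]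
  simp only [LinearMap.toMatrix_apply, e0, e1, map_add, map_smul, Finsupp.add_apply,
    Finsupp.smul_apply, smul_eq_mul, r]
  norm_num
  ring

section

variable {K : Type} [Field K] {D : Cox K}

theorem E.mul_self_SqCl (x : SqCl K) : x * x = 1 := by
  obtain ⟨u, rfl⟩ := QuotientGroup.mk_surjective x
  rw [← QuotientGroup.mk_mul, QuotientGroup.eq_one_iff]
  exact ⟨u, by simp [sq]⟩

theorem E.cls_eq_one {u v : Kˣ} (h : u = v * v) : cls u = (1 : SqCl K) := by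
  subst h
  exact E.mul_self_SqCl (cls v)

/-- If `s ^ 2 = (c t) ^ 2` in high degrees, the symbol is trivial. -/
theorem E.symb_eval_sq (hD : D.Good) (hK : Roots K)
    {J : Ideal D.R} (hJ : J.IsHomogeneous D.gR) (hd : D.DimLE J 2) {f a b δ : D.Γ}
    (hf : 2 • f = 0) {X Y s t : D.R} (hX : X ∈ D.gR a) (hY : Y ∈ D.gR b)
    (hs : s ∈ D.gR (δ + f)) (ht : t ∈ D.gR δ)
    (rX : D.High fun γ => ∀ x ∈ D.gR γ, X * x ∈ J → x ∈ J)
    (rY : D.High fun γ => ∀ x ∈ D.gR γ, Y * x ∈ J ⊔ Ideal.span {X} → x ∈ J ⊔ Ideal.span {X})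
    (zs : D.ZF (J ⊔ Ideal.span {X, Y}) [s]) (zt : D.ZF (J ⊔ Ideal.span {X, Y}) [t])
    (c : K) (hc : c ≠ 0)
    (h : D.High fun γ => ∀ x ∈ D.gR γ,
      (s ^ 2 - (algebraMap K D.R c) ^ 2 * t ^ 2) * x ∈ J ⊔ Ideal.span {X, Y}) :
    D.symb J f a b = 1 := by
  obtain ⟨N, hN⟩ := symb_eval hD hK hJ hd hf hX hY hs ht rX rY zs zt 0
  obtain ⟨N', hN'⟩ := h (-(2 • δ))
  let n := max N N'
  have e : (0 : D.Γ) + n • D.h - 2 • δ = -(2 • δ) + n • D.h := by abel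
  have key := hN n (le_max_left _ _) ((c ^ 2) • LinearMap.id) (by
    intro x hx z z' hz hz'
    rw [e] at hx
    have h1 := hN' n (le_max_right _ _) x hx
    apply Subtype.ext
    rw [LinearMap.smul_apply, LinearMap.id_apply, Submodule.coe_smul, hz, hz',
      Algebra.smul_def, ← Ideal.Quotient.mk_algebraMap, ← map_mul, Ideal.Quotient.eq,
      map_pow]
    have h2 := (J ⊔ Ideal.span {X, Y}).neg_mem h1
    have e2 : -((s ^ 2 - (algebraMap K D.R c) ^ 2 * t ^ 2) * x) =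
      (algebraMap K D.R c) ^ 2 * (t ^ 2 * x) - s ^ 2 * x := by ring
    rwa [e2] at h2)
  let v : Kˣ := (Units.mk0 c hc) ^
    Module.finrank K (quotGr D.gR (J ⊔ Ideal.span {X, Y}) ((0 : D.Γ) + n • D.h))
  rw [key (v * v) (by
    rw [LinearMap.det_smul, LinearMap.det_id, mul_one]
    simp [v, ← mul_pow, sq])]
  exact E.cls_eq_one rfl

end


/-! ### The data needed for the evaluation -/

instance E.fact17 : Fact (Nat.Prime 17) := ⟨by norm_num⟩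

open Ideal in
/-- What the evaluation needs to know about the multigraded ring (over the field with `17`
elements). -/
structure EX (D : Cox (ZMod 17)) where
  (e11 e12 e41 e42 e43 e44 F1 F2 F3 F4 W dY dU τ ε : D.Γ)
  (x11 x12 x41 x42 x43 x44 a2 b2 a3 b3 q qm Y1 Y2 u V c : D.R)
  -- relations between the degrees
  τ2 : 2 • τ = 0
  t11 : 2 • e11 = F1
  t12 : 2 • e12 = F1
  t41 : 2 • e41 = F4
  t42 : 2 • e42 = F4
  hdeg : D.h = 2 • (F1 + F2 + F3 + F4)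
  hε : ε + 2 • (e11 + F2) = e11 + dY + F2
  hs1 : e42 + e44 + e12 + dU = F1 + F2 + F4 + τ
  hs2 : e41 + e43 = F4 + τ
  -- degrees of the elements
  d11 : x11 ∈ D.gR e11
  d12 : x12 ∈ D.gR e12
  d41 : x41 ∈ D.gR e41
  d42 : x42 ∈ D.gR e42
  d43 : x43 ∈ D.gR e43
  d44 : x44 ∈ D.gR e44
  da2 : a2 ∈ D.gR F2
  db2 : b2 ∈ D.gR F2
  da3 : a3 ∈ D.gR F3
  db3 : b3 ∈ D.gR F3
  dq : q ∈ D.gR W
  dqm : qm ∈ D.gR W
  dY1 : Y1 ∈ D.gR dY
  dY2 : Y2 ∈ D.gR dY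
  du : u ∈ D.gR dU
  dV : V ∈ D.gR (F1 + 2 • F2)
  -- identities
  iq : q * qm = 10 * a3 ^ 2 * a2 + b3 * c
  iYY : Y1 * Y2 = 3 * x11 ^ 2 * a2 ^ 2 + x11 ^ 2 * a2 * b2 - x11 ^ 2 * b2 ^ 2 + x12 ^ 2 * b2 ^ 2
  iY : Y2 ^ 2 + 6 * V = - x11 ^ 2 * b2 ^ 2 + 8 * x12 ^ 2 * a2 ^ 2 - 3 * x12 ^ 2 * a2 * b2 +
    3 * x12 ^ 2 * b2 ^ 2
  iu : u ^ 2 = 2 * V + 2 * x11 ^ 2 * a2 * b2 + 6 * x11 ^ 2 * b2 ^ 2 + 3 * x12 ^ 2 * a2 ^ 2 +
    x12 ^ 2 * a2 * b2 + x12 ^ 2 * b2 ^ 2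
  iV : V ^ 2 = x11 ^ 4 * (12 * a2 ^ 4 + 8 * a2 ^ 3 * b2 - a2 ^ 2 * b2 ^ 2 + 3 * a2 * b2 ^ 3 -
    b2 ^ 4) + x12 ^ 4 * (-2 * a2 ^ 4 + 10 * a2 ^ 3 * b2 + 3 * a2 ^ 2 * b2 ^ 2 +
    8 * a2 * b2 ^ 3 + 3 * b2 ^ 4)
  i43 : x43 ^ 2 = x41 ^ 2 - x42 ^ 2
  i44 : x44 ^ 2 = x41 ^ 2 + x42 ^ 2
  -- sections without common zeros
  B1 : ∀ p : D.Pt, x11 ∈ D.pt p → x12 ∈ D.pt p → False
  B2 : ∀ p : D.Pt, a2 ∈ D.pt p → b2 ∈ D.pt p → False
  B3 : ∀ p : D.Pt, a3 ∈ D.pt p → b3 ∈ D.pt p → False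
  B4 : ∀ p : D.Pt, x41 ∈ D.pt p → x42 ∈ D.pt p → False
  -- dimension
  dim1 : D.DimLE (span {b3, x41}) 2
  dim2 : D.DimLE (span {b3, x42}) 2
  -- regular sequences
  rq1 : ∀ x, q * x ∈ span {b3, x41} → x ∈ span {b3, x41}
  rq2 : ∀ x, q * x ∈ span {b3, x42} → x ∈ span {b3, x42}
  r11 : ∀ x, x11 * x ∈ span {b3, x41} ⊔ span {q} → x ∈ span {b3, x41} ⊔ span {q}
  r21 : ∀ x, x11 * x ∈ span {b3, x42} ⊔ span {q} → x ∈ span {b3, x42} ⊔ span {q}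
  r12 : ∀ x, Y2 * x ∈ span {b3, x41} ⊔ span {q} → x ∈ span {b3, x41} ⊔ span {q}
  r22 : ∀ x, Y2 * x ∈ span {b3, x42} ⊔ span {q} → x ∈ span {b3, x42} ⊔ span {q}
  r13 : ∀ x, b2 * x ∈ span {b3, x41} ⊔ span {q} → x ∈ span {b3, x41} ⊔ span {q}
  r23 : ∀ x, b2 * x ∈ span {b3, x42} ⊔ span {q} → x ∈ span {b3, x42} ⊔ span {q}
  -- spanning: the pieces of `R / (b3, x41, q, x11)`
  sp : ∃ N : ℕ, ∀ a b c d : ℕ, N ≤ a → N ≤ b → N ≤ c → N ≤ d →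
    ∀ x ∈ D.gR (a • F1 + b • F2 + c • F3 + d • F4), ∃ c1 c2 : ZMod 17,
      x - (algebraMap (ZMod 17) D.R c1 * (x12 ^ (2 * a) * b2 ^ b * a3 ^ c * x42 ^ (2 * d)) +
        algebraMap (ZMod 17) D.R c2 *
          (V * (x12 ^ (2 * (a - 1)) * b2 ^ (b - 2) * a3 ^ c * x42 ^ (2 * d)))) ∈
      span {b3, x41} ⊔ span {q, x11}
  -- a geometric point of `b3 = x41 = q = x11 = 0`
  L : Type
  [fL : Field L]
  ev : D.R →+* L
  ev_b3 : ev b3 = 0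
  ev_x41 : ev x41 = 0
  ev_q : ev q = 0
  ev_x11 : ev x11 = 0
  ev_a2 : ev a2 = 0
  ev_x12 : ev x12 ≠ 0
  ev_b2 : ev b2 ≠ 0
  ev_a3 : ev a3 ≠ 0
  ev_x42 : ev x42 ≠ 0

attribute [instance] EX.fL

namespace EX

variable {D : Cox (ZMod 17)} (X : EX D)

theorem h17 (D : Cox (ZMod 17)) : (17 : D.R) = 0 := by
  have h : ((17 : ℕ) : ZMod 17) = 0 := ZMod.natCast_self 17
  have h2 := congrArg (algebraMap (ZMod 17) D.R) h
  rw [map_zero, map_natCast] at h2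
  exact_mod_cast h2

theorem roots : Roots (ZMod 17) := by
  intro x
  have : ∀ x : ZMod 17, x ^ 4 = 1 → ∃ y : ZMod 17, x = y * y := by decide
  exact this x

theorem not_sq3 : ¬ IsSquare (3 : ZMod 17) := by
  have : ¬ ∃ y : ZMod 17, (3 : ZMod 17) = y * y := by decide
  exact this

theorem mem_of_sq (hD : D.Good) (p : D.Pt) {γ : D.Γ} {x : D.R} (hx : x ∈ D.gR γ)
    (h : x ^ 2 ∈ D.pt p) : x ∈ D.pt p := by
  rw [sq] at h
  exact (D.pt_prime hD p hx hx h).elim id id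

theorem mem4 {a b c d : D.R} (A B C E : D.R) :
    A * a + B * b + C * c + E * d ∈ Ideal.span {a, b} ⊔ Ideal.span {c, d} := by
  have h1 : A * a + B * b ∈ Ideal.span {a, b} :=
    Ideal.add_mem _ (Ideal.mul_mem_left _ _ (Ideal.subset_span (by simp)))
      (Ideal.mul_mem_left _ _ (Ideal.subset_span (by simp)))
  have h2 : C * c + E * d ∈ Ideal.span {c, d} :=
    Ideal.add_mem _ (Ideal.mul_mem_left _ _ (Ideal.subset_span (by simp)))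
      (Ideal.mul_mem_left _ _ (Ideal.subset_span (by simp)))
  have e : A * a + B * b + C * c + E * d = (A * a + B * b) + (C * c + E * d) := by ring
  rw [e]
  exact Submodule.add_mem_sup h1 h2

/-- If `b3, q` lie in `pt p`, so does `a2`. -/
theorem a2_mem (hD : D.Good) (p : D.Pt) (hb : X.b3 ∈ D.pt p) (hq : X.q ∈ D.pt p) :
    X.a2 ∈ D.pt p := by
  have h17 := h17 D
  have h1 : X.a3 ^ 2 * X.a2 ∈ D.pt p := by
    have e : X.a3 ^ 2 * X.a2 = (12 * X.qm) * X.q + (-12 * X.c) * X.b3 := by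
      linear_combination (-12 : D.R) * X.iq - (7 * X.a3 ^ 2 * X.a2) * h17
    rw [e]
    exact Ideal.add_mem _ (Ideal.mul_mem_left _ _ hq) (Ideal.mul_mem_left _ _ hb)
  have h2 : X.a3 ^ 2 ∈ D.gR (2 • X.F3) := SetLike.pow_mem_graded 2 X.da3
  rcases D.pt_prime hD p h2 X.da2 h1 with h | h
  · exact (X.B3 p (mem_of_sq hD p X.da3 h) hb).elim
  · exact h

theorem x42_notMem (p : D.Pt) (h : X.x41 ∈ D.pt p) : X.x42 ∉ D.pt p := fun h' => X.B4 p h h'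

/-- degree of `t = x42 ^ 2 * x12 ^ 2 * b2`. -/
theorem dt : X.x42 ^ 2 * X.x12 ^ 2 * X.b2 ∈ D.gR (X.F1 + X.F2 + X.F4) := by
  have h1 : X.x42 ^ 2 ∈ D.gR X.F4 := X.t42 ▸ SetLike.pow_mem_graded 2 X.d42
  have h2 : X.x12 ^ 2 ∈ D.gR X.F1 := X.t12 ▸ SetLike.pow_mem_graded 2 X.d12
  have h := SetLike.mul_mem_graded (SetLike.mul_mem_graded h1 h2) X.db2
  have e : X.F4 + X.F1 + X.F2 = X.F1 + X.F2 + X.F4 := by abel
  rwa [e] at h

/-- degree of `s = x42 * x44 * x12 * u`. -/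
theorem ds : X.x42 * X.x44 * X.x12 * X.u ∈ D.gR (X.F1 + X.F2 + X.F4 + X.τ) := by
  have h := SetLike.mul_mem_graded (SetLike.mul_mem_graded (SetLike.mul_mem_graded X.d42 X.d44)
    X.d12) X.du
  rwa [X.hs1] at h

/-- no zero of `t`, given that `a2, x41` and not `x12` lie in `pt p`. -/
theorem t_notMem (hD : D.Good) (p : D.Pt) (h41 : X.x41 ∈ D.pt p) (ha2 : X.a2 ∈ D.pt p)
    (h12 : X.x12 ∉ D.pt p) : X.x42 ^ 2 * X.x12 ^ 2 * X.b2 ∉ D.pt p := by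
  intro h
  have h1 : X.x42 ^ 2 ∈ D.gR (2 • X.e42) := SetLike.pow_mem_graded 2 X.d42
  have h2 : X.x12 ^ 2 ∈ D.gR (2 • X.e12) := SetLike.pow_mem_graded 2 X.d12
  rcases D.pt_prime hD p (SetLike.mul_mem_graded h1 h2) X.db2 h with h | h
  · rcases D.pt_prime hD p h1 h2 h with h | h
    · exact X.B4 p h41 (mem_of_sq hD p X.d42 h)
    · exact h12 (mem_of_sq hD p X.d12 h)
  · exact X.B2 p ha2 h

/-- no zero of `s`, given that `a2, x41` and not `x12`, `u` lie in `pt p`. -/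
theorem s_notMem (hD : D.Good) (p : D.Pt) (h41 : X.x41 ∈ D.pt p)
    (h12 : X.x12 ∉ D.pt p) (hu : X.u ∉ D.pt p) : X.x42 * X.x44 * X.x12 * X.u ∉ D.pt p := by
  intro h
  rcases D.pt_prime hD p (SetLike.mul_mem_graded (SetLike.mul_mem_graded X.d42 X.d44)
    X.d12) X.du h with h | h
  · rcases D.pt_prime hD p (SetLike.mul_mem_graded X.d42 X.d44) X.d12 h with h | h
    · rcases D.pt_prime hD p X.d42 X.d44 h with h | h
      · exact X.B4 p h41 h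
      · apply X.B4 p h41
        apply mem_of_sq hD p X.d42
        have e : X.x42 ^ 2 = X.x44 * X.x44 - X.x41 * X.x41 := by linear_combination -X.i44
        rw [e]
        exact Ideal.sub_mem _ (Ideal.mul_mem_left _ _ h) (Ideal.mul_mem_left _ _ h41)
    · exact h12 h
  · exact hu h

/-- The points of `b3 = x41 = q = Y2 = 0`. -/
theorem zf_Y2 (hD : D.Good) (p : D.Pt) (hb : X.b3 ∈ D.pt p)
    (hq : X.q ∈ D.pt p) (hY : X.Y2 ∈ D.pt p) :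
    X.a2 ∈ D.pt p ∧ X.x12 ∉ D.pt p ∧ X.u ∉ D.pt p := by
  have ha := X.a2_mem hD p hb hq
  have h12 : X.x12 ∉ D.pt p := by
    intro h12
    have h1 : X.x11 ^ 2 * X.b2 ^ 2 ∈ D.pt p := by
      have e : X.x11 ^ 2 * X.b2 ^ 2 = (3 * X.x11 ^ 2 * X.a2 + X.x11 ^ 2 * X.b2) * X.a2 +
          (X.x12 * X.b2 ^ 2) * X.x12 - X.Y1 * X.Y2 := by
        linear_combination X.iYY
      rw [e]
      exact Ideal.sub_mem _ (Ideal.add_mem _ (Ideal.mul_mem_left _ _ ha)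
        (Ideal.mul_mem_left _ _ h12)) (Ideal.mul_mem_left _ _ hY)
    rcases D.pt_prime hD p (SetLike.pow_mem_graded 2 X.d11) (SetLike.pow_mem_graded 2 X.db2) h1
      with h | h
    · exact X.B1 p (mem_of_sq hD p X.d11 h) h12
    · exact X.B2 p ha (mem_of_sq hD p X.db2 h)
  refine ⟨ha, h12, fun hu => ?_⟩
  have h1 : X.x12 ^ 2 * X.b2 ^ 2 ∈ D.pt p := by
    have e : X.x12 ^ 2 * X.b2 ^ 2 = (3 * (3 * X.u)) * X.u + (3 * X.Y2) * X.Y2 -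
        (X.x11 ^ 2 * X.b2) * X.a2 := by
      linear_combination (-9 : D.R) * X.iu - 3 * X.iY - (X.x11 ^ 2 * X.a2 * X.b2 +
        3 * X.x11 ^ 2 * X.b2 ^ 2 + 3 * X.x12 ^ 2 * X.a2 ^ 2 + X.x12 ^ 2 * X.b2 ^ 2) * h17 D
    rw [e]
    exact Ideal.sub_mem _ (Ideal.add_mem _ (Ideal.mul_mem_left _ _ hu)
        (Ideal.mul_mem_left _ _ hY)) (Ideal.mul_mem_left _ _ ha)
  rcases D.pt_prime hD p (SetLike.pow_mem_graded 2 X.d12) (SetLike.pow_mem_graded 2 X.db2) h1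
      with h | h
  · exact h12 (mem_of_sq hD p X.d12 h)
  · exact X.B2 p ha (mem_of_sq hD p X.db2 h)


theorem hom1 : (Ideal.span {X.b3, X.x41}).IsHomogeneous D.gR := by
  refine Ideal.homogeneous_span _ _ ?_
  rintro _ (rfl | rfl)
  · exact ⟨_, X.db3⟩
  · exact ⟨_, X.d41⟩

theorem hom2 : (Ideal.span {X.b3, X.x42}).IsHomogeneous D.gR := by
  refine Ideal.homogeneous_span _ _ ?_
  rintro _ (rfl | rfl)
  · exact ⟨_, X.db3⟩
  · exact ⟨_, X.d42⟩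

theorem high_of {P : D.R → Prop} (h : ∀ x, P x) :
    D.High fun γ => ∀ x ∈ D.gR γ, P x := fun _ => ⟨0, fun _ _ x _ => h x⟩

theorem on_mem {a b c d : D.R} {p : D.Pt} (h : D.On (Ideal.span {a, b} ⊔ Ideal.span {c, d}) p) :
    a ∈ D.pt p ∧ b ∈ D.pt p ∧ c ∈ D.pt p ∧ d ∈ D.pt p :=
  ⟨h (Ideal.mem_sup_left (Ideal.subset_span (by simp))),
    h (Ideal.mem_sup_left (Ideal.subset_span (by simp))),
    h (Ideal.mem_sup_right (Ideal.subset_span (by simp))),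
    h (Ideal.mem_sup_right (Ideal.subset_span (by simp)))⟩

/-- In high degrees everything is in `(a3 ^ 2, b3)`. -/
theorem high_a3 (hD : D.Good) :
    D.High fun γ => ∀ x ∈ D.gR γ, ∃ y z, x = X.a3 ^ 2 * y + X.b3 * z := by
  have h1 : (Ideal.span {X.a3 ^ 2, X.b3}).IsHomogeneous D.gR := by
    refine Ideal.homogeneous_span _ _ ?_
    rintro _ (rfl | rfl)
    · exact ⟨_, SetLike.pow_mem_graded 2 X.da3⟩
    · exact ⟨_, X.db3⟩
  have h2 := D.high_le_of_noPoint hD _ h1 (by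
    intro p hp
    exact X.B3 p (mem_of_sq hD p X.da3 (hp (Ideal.subset_span (by simp))))
      (hp (Ideal.subset_span (by simp))))
  intro γ
  obtain ⟨N, hN⟩ := h2 γ
  refine ⟨N, fun n hn x hx => ?_⟩
  obtain ⟨y, z, h⟩ := Ideal.mem_span_pair.1 (hN n hn x hx)
  exact ⟨y, z, by rw [← h]; ring⟩

/-- The evaluation with `Y = Y2`. -/
theorem eval_Y2 (hD : D.Good) :
    D.symb (Ideal.span {X.b3, X.x41}) X.τ X.W X.dY = 1 := by
  refine E.symb_eval_sq hD roots X.hom1 X.dim1 X.τ2 X.dq X.dY2 X.ds X.dt (high_of X.rq1)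
    (high_of X.r12) ?_ ?_ 6 (by decide) ?_
  · intro p hp
    obtain ⟨h1, h2, h3, h4⟩ := on_mem hp
    obtain ⟨g1, g2, g3⟩ := X.zf_Y2 hD p h1 h3 h4
    exact ⟨_, List.mem_singleton.2 rfl, X.s_notMem hD p h2 g2 g3⟩
  · intro p hp
    obtain ⟨h1, h2, h3, h4⟩ := on_mem hp
    obtain ⟨g1, g2, g3⟩ := X.zf_Y2 hD p h1 h3 h4
    exact ⟨_, List.mem_singleton.2 rfl, X.t_notMem hD p h2 g1 g2⟩
  · intro γ
    obtain ⟨N, hN⟩ := X.high_a3 hD γ
    refine ⟨N, fun n hn x hx => ?_⟩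
    obtain ⟨y, z, rfl⟩ := hN n hn x hx
    have h6 : algebraMap (ZMod 17) D.R 6 = 6 := map_ofNat _ 6
    rw [h6]
    have e : ((X.x42 * X.x44 * X.x12 * X.u) ^ 2 - 6 ^ 2 * (X.x42 ^ 2 * X.x12 ^ 2 * X.b2) ^ 2) *
        (X.a3 ^ 2 * y + X.b3 * z) =
      (((X.x42 * X.x44 * X.x12 * X.u) ^ 2 - 6 ^ 2 * (X.x42 ^ 2 * X.x12 ^ 2 * X.b2) ^ 2) * z -
        6 * 6 * 12 * X.x42 ^ 4 * X.x12 ^ 2 * X.x11 ^ 2 * X.b2 * X.c * y) * X.b3 +
      (X.x42 ^ 2 * X.x12 ^ 2 * X.u ^ 2 * X.a3 ^ 2 * X.x41 * y) * X.x41 +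
      (6 * 6 * 12 * X.x42 ^ 4 * X.x12 ^ 2 * X.x11 ^ 2 * X.b2 * X.qm * y) * X.q +
      (-6 * X.x42 ^ 4 * X.x12 ^ 2 * X.Y2 * X.a3 ^ 2 * y) * X.Y2 := by
      linear_combination (X.x42 ^ 2 * X.x12 ^ 2 * X.u ^ 2 * X.a3 ^ 2 * y) * X.i44 +
        (X.x42 ^ 4 * X.x12 ^ 2 * X.a3 ^ 2 * y) * X.iu + (6 * X.x42 ^ 4 * X.x12 ^ 2 * X.a3 ^ 2 * y)
          * X.iY - (432 * (X.x42 ^ 4 * X.x12 ^ 2 * X.x11 ^ 2 * X.b2 * y)) * X.iq +
        (-254 * (X.x42 ^ 4 * X.x12 ^ 2 * X.x11 ^ 2 * X.b2 * y) * X.a3 ^ 2 * X.a2 -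
          2 * (X.x42 ^ 4 * X.x12 ^ 2 * X.a3 ^ 2 * y * X.V) -
          X.x42 ^ 4 * X.x12 ^ 4 * X.b2 * X.a3 ^ 2 * y * X.a2 -
          X.x42 ^ 4 * X.x12 ^ 4 * X.b2 ^ 2 * X.a3 ^ 2 * y +
          3 * X.x42 ^ 4 * X.x12 ^ 4 * X.a3 ^ 2 * y * X.a2 ^ 2) * h17 D
    rw [e]
    exact mem4 _ _ _ _


/-- The evaluation with `Y = b2`: no zeros. -/
theorem eval_b2 (hD : D.Good) :
    D.symb (Ideal.span {X.b3, X.x41}) X.τ X.W X.F2 = 1 := by
  have hno : ∀ p : D.Pt, ¬ D.On (Ideal.span {X.b3, X.x41} ⊔ Ideal.span {X.q, X.b2}) p := by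
    intro p hp
    obtain ⟨h1, h2, h3, h4⟩ := on_mem hp
    exact X.B2 p (X.a2_mem hD p h1 h3) h4
  have hhom : (Ideal.span {X.b3, X.x41} ⊔ Ideal.span {X.q, X.b2}).IsHomogeneous D.gR := by
    refine X.hom1.sup (Ideal.homogeneous_span _ _ ?_)
    rintro _ (rfl | rfl)
    · exact ⟨_, X.dq⟩
    · exact ⟨_, X.db2⟩
  refine E.symb_eval_sq hD roots X.hom1 X.dim1 X.τ2 X.dq X.db2 X.ds X.dt (high_of X.rq1)
    (high_of X.r13) (fun p hp => (hno p hp).elim) (fun p hp => (hno p hp).elim) 1 (by decide) ?_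
  intro γ
  obtain ⟨N, hN⟩ := D.high_le_of_noPoint hD _ hhom hno γ
  exact ⟨N, fun n hn x hx => Ideal.mul_mem_left _ _ (hN n hn x hx)⟩

/-- The points of `b3 = x41 = q = x11 = 0`. -/
theorem zf_x11 (hD : D.Good) (p : D.Pt) (hb : X.b3 ∈ D.pt p)
    (hq : X.q ∈ D.pt p) (hY : X.x11 ∈ D.pt p) :
    X.a2 ∈ D.pt p ∧ X.x12 ∉ D.pt p ∧ X.u ∉ D.pt p := by
  have ha := X.a2_mem hD p hb hq
  have h12 : X.x12 ∉ D.pt p := fun h => X.B1 p hY h
  refine ⟨ha, h12, fun hu => ?_⟩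
  have h17 := h17 D
  -- `2 V + x12 ^ 2 b2 ^ 2` lies in `pt p`
  have h1 : 2 * X.V + X.x12 ^ 2 * X.b2 ^ 2 ∈ D.pt p := by
    have e : 2 * X.V + X.x12 ^ 2 * X.b2 ^ 2 = X.u * X.u - (2 * X.x11 * X.a2 * X.b2 +
        6 * X.x11 * X.b2 ^ 2) * X.x11 - (3 * X.x12 ^ 2 * X.a2 + X.x12 ^ 2 * X.b2) * X.a2 := by
      linear_combination -X.iu
    rw [e]
    exact Ideal.sub_mem _ (Ideal.sub_mem _ (Ideal.mul_mem_left _ _ hu)
        (Ideal.mul_mem_left _ _ hY)) (Ideal.mul_mem_left _ _ ha)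
  have h2 : X.x12 ^ 4 * X.b2 ^ 4 ∈ D.pt p := by
    have e : X.x12 ^ 4 * X.b2 ^ 4 = (14 * (2 * X.V - X.x12 ^ 2 * X.b2 ^ 2)) *
        (2 * X.V + X.x12 ^ 2 * X.b2 ^ 2) -
        (56 * X.x11 ^ 3 * (12 * X.a2 ^ 4 + 8 * X.a2 ^ 3 * X.b2 - X.a2 ^ 2 * X.b2 ^ 2 +
          3 * X.a2 * X.b2 ^ 3 - X.b2 ^ 4)) * X.x11 -
        (56 * X.x12 ^ 4 * (-2 * X.a2 ^ 3 + 10 * X.a2 ^ 2 * X.b2 + 3 * X.a2 * X.b2 ^ 2 +
          8 * X.b2 ^ 3)) * X.a2 := by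
      linear_combination (-56 : D.R) * X.iV - 9 * X.x12 ^ 4 * X.b2 ^ 4 * h17
    rw [e]
    exact Ideal.sub_mem _ (Ideal.sub_mem _ (Ideal.mul_mem_left _ _ h1)
        (Ideal.mul_mem_left _ _ hY)) (Ideal.mul_mem_left _ _ ha)
  rcases D.pt_prime hD p (SetLike.pow_mem_graded 4 X.d12) (SetLike.pow_mem_graded 4 X.db2) h2
      with h | h
  · have e : X.x12 ^ 4 = (X.x12 ^ 2) ^ 2 := by ring
    rw [e] at h
    exact h12 (mem_of_sq hD p X.d12 (mem_of_sq hD p (SetLike.pow_mem_graded 2 X.d12) h))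
  · have e : X.b2 ^ 4 = (X.b2 ^ 2) ^ 2 := by ring
    rw [e] at h
    exact X.B2 p ha (mem_of_sq hD p X.db2 (mem_of_sq hD p (SetLike.pow_mem_graded 2 X.db2) h))


/-! ### The piece of `R / (b3, x41, q, x11)` -/

/-- The first basis element. -/
def mon (a b c d : ℕ) : D.R := X.x12 ^ (2 * a) * X.b2 ^ b * X.a3 ^ c * X.x42 ^ (2 * d)

/-- The second basis element. -/
def monV (a b c d : ℕ) : D.R :=
  X.V * (X.x12 ^ (2 * (a - 1)) * X.b2 ^ (b - 2) * X.a3 ^ c * X.x42 ^ (2 * d))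

/-- The ideal. -/
abbrev JJ : Ideal D.R := Ideal.span {X.b3, X.x41} ⊔ Ideal.span {X.q, X.x11}

theorem mon_mem (a b c d : ℕ) :
    X.mon a b c d ∈ D.gR (a • X.F1 + b • X.F2 + c • X.F3 + d • X.F4) := by
  have h1 : X.x12 ^ (2 * a) ∈ D.gR (a • X.F1) := by
    have h := SetLike.pow_mem_graded (2 * a) X.d12
    rwa [mul_comm, mul_smul, X.t12, mul_comm] at h
  have h4 : X.x42 ^ (2 * d) ∈ D.gR (d • X.F4) := by
    have h := SetLike.pow_mem_graded (2 * d) X.d42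
    rwa [mul_comm, mul_smul, X.t42, mul_comm] at h
  exact SetLike.mul_mem_graded (SetLike.mul_mem_graded (SetLike.mul_mem_graded h1
    (SetLike.pow_mem_graded b X.db2)) (SetLike.pow_mem_graded c X.da3)) h4

theorem monV_mem {a b : ℕ} (ha : 1 ≤ a) (hb : 2 ≤ b) (c d : ℕ) :
    X.monV a b c d ∈ D.gR (a • X.F1 + b • X.F2 + c • X.F3 + d • X.F4) := by
  have h := SetLike.mul_mem_graded X.dV (X.mon_mem (a - 1) (b - 2) c d)
  have e : X.F1 + 2 • X.F2 + ((a - 1) • X.F1 + (b - 2) • X.F2 + c • X.F3 + d • X.F4) =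
      a • X.F1 + b • X.F2 + c • X.F3 + d • X.F4 := by
    obtain ⟨a', rfl⟩ := Nat.exists_eq_add_of_le ha
    obtain ⟨b', rfl⟩ := Nat.exists_eq_add_of_le hb
    rw [Nat.add_sub_cancel_left, Nat.add_sub_cancel_left, add_smul, add_smul, one_smul]
    abel
  rw [e] at h
  exact h

theorem ev_JJ {x : D.R} (h : x ∈ X.JJ) : X.ev x = 0 := by
  have h1 : X.JJ ≤ RingHom.ker X.ev := by
    refine sup_le (Ideal.span_le.2 ?_) (Ideal.span_le.2 ?_)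
    · rintro _ (rfl | rfl)
      · exact X.ev_b3
      · exact X.ev_x41
    · rintro _ (rfl | rfl)
      · exact X.ev_q
      · exact X.ev_x11
  exact h1 h

theorem ev_V : X.ev X.V ^ 2 = 3 * (X.ev X.x12 ^ 4 * X.ev X.b2 ^ 4) := by
  have h := congrArg X.ev X.iV
  simp only [map_pow, map_add, map_mul, map_sub, map_neg, map_ofNat, X.ev_x11, X.ev_a2] at h
  rw [h]
  ring

theorem li {a b : ℕ} (ha : 1 ≤ a) (hb : 2 ≤ b) (c d : ℕ) (c1 c2 : ZMod 17)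
    (h : algebraMap (ZMod 17) D.R c1 * X.mon a b c d +
      algebraMap (ZMod 17) D.R c2 * X.monV a b c d ∈ X.JJ) : c1 = 0 ∧ c2 = 0 := by
  have h1 := X.ev_JJ h
  obtain ⟨a, rfl⟩ := Nat.exists_eq_add_of_le ha
  obtain ⟨b, rfl⟩ := Nat.exists_eq_add_of_le hb
  let f : ZMod 17 →+* X.L := X.ev.comp (algebraMap (ZMod 17) D.R)
  have hf : Function.Injective f := f.injective
  let m : X.L := X.ev X.x12 ^ (2 * a) * X.ev X.b2 ^ b * X.ev X.a3 ^ c * X.ev X.x42 ^ (2 * d)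
  have hm : m ≠ 0 := mul_ne_zero (mul_ne_zero (mul_ne_zero (pow_ne_zero _ X.ev_x12)
    (pow_ne_zero _ X.ev_b2)) (pow_ne_zero _ X.ev_a3)) (pow_ne_zero _ X.ev_x42)
  have h2 : m * (f c1 * (X.ev X.x12 ^ 2 * X.ev X.b2 ^ 2) + f c2 * X.ev X.V) = 0 := by
    rw [← h1]
    simp only [mon, monV, map_add, map_mul, map_pow, Nat.add_sub_cancel_left]
    change m * (X.ev (algebraMap (ZMod 17) D.R c1) * (X.ev X.x12 ^ 2 * X.ev X.b2 ^ 2) +
      X.ev (algebraMap (ZMod 17) D.R c2) * X.ev X.V) = _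
    ring
  have h3 := (mul_eq_zero.1 h2).resolve_left hm
  have h4 : (f c1) ^ 2 = 3 * (f c2) ^ 2 := by
    have h5 : X.ev X.x12 ^ 4 * X.ev X.b2 ^ 4 ≠ 0 :=
      mul_ne_zero (pow_ne_zero _ X.ev_x12) (pow_ne_zero _ X.ev_b2)
    apply mul_right_cancel₀ h5
    have h6 : f c1 * (X.ev X.x12 ^ 2 * X.ev X.b2 ^ 2) = - (f c2 * X.ev X.V) :=
      eq_neg_of_add_eq_zero_left h3
    calc f c1 ^ 2 * (X.ev X.x12 ^ 4 * X.ev X.b2 ^ 4)
        = (f c1 * (X.ev X.x12 ^ 2 * X.ev X.b2 ^ 2)) ^ 2 := by ring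
      _ = f c2 ^ 2 * X.ev X.V ^ 2 := by rw [h6]; ring
      _ = 3 * f c2 ^ 2 * (X.ev X.x12 ^ 4 * X.ev X.b2 ^ 4) := by rw [X.ev_V]; ring
  have h7 : c1 ^ 2 = 3 * c2 ^ 2 := by
    apply hf
    rw [map_pow, h4, map_mul, map_pow, map_ofNat]
  have key : ∀ c1 c2 : ZMod 17, c1 ^ 2 = 3 * c2 ^ 2 → c1 = 0 ∧ c2 = 0 := by decide
  exact key c1 c2 h7

/-- Classes of homogeneous elements. -/
def cl {γ : D.Γ} (x : D.R) (hx : x ∈ D.gR γ) : quotGr D.gR X.JJ γ :=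
  ⟨Ideal.Quotient.mk _ x, x, hx, rfl⟩


theorem s_gen (m : D.R) :
    (X.x42 * X.x44 * X.x12 * X.u) ^ 2 * (X.a3 ^ 2 * m) -
      X.x42 ^ 4 * X.x12 ^ 2 * (2 * X.V + X.x12 ^ 2 * X.b2 ^ 2) * (X.a3 ^ 2 * m) ∈ X.JJ := by
  have e : (X.x42 * X.x44 * X.x12 * X.u) ^ 2 * (X.a3 ^ 2 * m) -
      X.x42 ^ 4 * X.x12 ^ 2 * (2 * X.V + X.x12 ^ 2 * X.b2 ^ 2) * (X.a3 ^ 2 * m) =
      (-12 * X.c * (X.x42 ^ 4 * X.x12 ^ 2 * m) *
        (3 * X.x12 ^ 2 * X.a2 + X.x12 ^ 2 * X.b2)) * X.b3 +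
      (X.x42 ^ 2 * X.x12 ^ 2 * X.u ^ 2 * X.a3 ^ 2 * m * X.x41) * X.x41 +
      (12 * X.qm * (X.x42 ^ 4 * X.x12 ^ 2 * m) *
        (3 * X.x12 ^ 2 * X.a2 + X.x12 ^ 2 * X.b2)) * X.q +
      (X.x42 ^ 4 * X.x12 ^ 2 * X.a3 ^ 2 * m * (2 * X.x11 * X.a2 * X.b2 +
        6 * X.x11 * X.b2 ^ 2)) * X.x11 := by
    linear_combination (X.x42 ^ 2 * X.x12 ^ 2 * X.u ^ 2 * X.a3 ^ 2 * m) * X.i44 +
      (X.x42 ^ 4 * X.x12 ^ 2 * X.a3 ^ 2 * m) * X.iu -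
      (12 * (X.x42 ^ 4 * X.x12 ^ 2 * m) * (3 * X.x12 ^ 2 * X.a2 + X.x12 ^ 2 * X.b2)) * X.iq -
      (7 * (X.x42 ^ 4 * X.x12 ^ 2 * m) * (3 * X.x12 ^ 2 * X.a2 + X.x12 ^ 2 * X.b2) *
        X.a3 ^ 2 * X.a2) * h17 D
  rw [e]
  exact mem4 _ _ _ _

theorem V_gen (m : D.R) :
    X.V ^ 2 * (X.a3 ^ 2 * m) - 3 * X.x12 ^ 4 * X.b2 ^ 4 * (X.a3 ^ 2 * m) ∈ X.JJ := by
  have e : X.V ^ 2 * (X.a3 ^ 2 * m) - 3 * X.x12 ^ 4 * X.b2 ^ 4 * (X.a3 ^ 2 * m) =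
      (-12 * X.c * m * (X.x12 ^ 4 * (-2 * X.a2 ^ 3 + 10 * X.a2 ^ 2 * X.b2 +
        3 * X.a2 * X.b2 ^ 2 + 8 * X.b2 ^ 3))) * X.b3 +
      0 * X.x41 +
      (12 * X.qm * m * (X.x12 ^ 4 * (-2 * X.a2 ^ 3 + 10 * X.a2 ^ 2 * X.b2 +
        3 * X.a2 * X.b2 ^ 2 + 8 * X.b2 ^ 3))) * X.q +
      (X.a3 ^ 2 * m * (X.x11 ^ 3 * (12 * X.a2 ^ 4 + 8 * X.a2 ^ 3 * X.b2 -
        X.a2 ^ 2 * X.b2 ^ 2 + 3 * X.a2 * X.b2 ^ 3 - X.b2 ^ 4))) * X.x11 := by
    linear_combination (X.a3 ^ 2 * m) * X.iV -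
      (12 * m * (X.x12 ^ 4 * (-2 * X.a2 ^ 3 + 10 * X.a2 ^ 2 * X.b2 +
        3 * X.a2 * X.b2 ^ 2 + 8 * X.b2 ^ 3))) * X.iq -
      (7 * m * (X.x12 ^ 4 * (-2 * X.a2 ^ 3 + 10 * X.a2 ^ 2 * X.b2 +
        3 * X.a2 * X.b2 ^ 2 + 8 * X.b2 ^ 3)) * X.a3 ^ 2 * X.a2) * h17 D
  rw [e]
  exact mem4 _ _ _ _

theorem s_mon (a b : ℕ) {c : ℕ} (hc : 2 ≤ c) (d : ℕ) :
    (X.x42 * X.x44 * X.x12 * X.u) ^ 2 * X.mon a b c d -
      (X.mon (a + 2) (b + 2) c (d + 2) + 2 * X.monV (a + 2) (b + 2) c (d + 2)) ∈ X.JJ := by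
  obtain ⟨c, rfl⟩ := Nat.exists_eq_add_of_le hc
  have h := X.s_gen (X.x12 ^ (2 * a) * X.b2 ^ b * X.a3 ^ c * X.x42 ^ (2 * d))
  have ea : a + 2 - 1 = a + 1 := rfl
  have e : (X.x42 * X.x44 * X.x12 * X.u) ^ 2 * X.mon a b (2 + c) d -
      (X.mon (a + 2) (b + 2) (2 + c) (d + 2) + 2 * X.monV (a + 2) (b + 2) (2 + c) (d + 2)) =
      (X.x42 * X.x44 * X.x12 * X.u) ^ 2 *
        (X.a3 ^ 2 * (X.x12 ^ (2 * a) * X.b2 ^ b * X.a3 ^ c * X.x42 ^ (2 * d))) -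
      X.x42 ^ 4 * X.x12 ^ 2 * (2 * X.V + X.x12 ^ 2 * X.b2 ^ 2) *
        (X.a3 ^ 2 * (X.x12 ^ (2 * a) * X.b2 ^ b * X.a3 ^ c * X.x42 ^ (2 * d))) := by
    simp only [mon, monV, ea, Nat.add_sub_cancel]
    ring
  rw [e]
  exact h


theorem s_monV {a b c : ℕ} (ha : 1 ≤ a) (hb : 2 ≤ b) (hc : 2 ≤ c) (d : ℕ) :
    (X.x42 * X.x44 * X.x12 * X.u) ^ 2 * X.monV a b c d -
      (X.monV (a + 2) (b + 2) c (d + 2) + 6 * X.mon (a + 2) (b + 2) c (d + 2)) ∈ X.JJ := by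
  obtain ⟨a, rfl⟩ := Nat.exists_eq_add_of_le ha
  obtain ⟨b, rfl⟩ := Nat.exists_eq_add_of_le hb
  obtain ⟨c, rfl⟩ := Nat.exists_eq_add_of_le hc
  have h := X.s_gen (X.V * (X.x12 ^ (2 * a) * X.b2 ^ b * X.a3 ^ c * X.x42 ^ (2 * d)))
  have h2 := X.V_gen (2 * X.x42 ^ 4 * X.x12 ^ 2 *
    (X.x12 ^ (2 * a) * X.b2 ^ b * X.a3 ^ c * X.x42 ^ (2 * d)))
  have ea : 1 + a + 2 - 1 = a + 2 := by omega
  have ea' : 1 + a - 1 = a := by omega
  have eb : 2 + b - 2 = b := by omega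
  have e : (X.x42 * X.x44 * X.x12 * X.u) ^ 2 * X.monV (1 + a) (2 + b) (2 + c) d -
      (X.monV (1 + a + 2) (2 + b + 2) (2 + c) (d + 2) +
        6 * X.mon (1 + a + 2) (2 + b + 2) (2 + c) (d + 2)) =
      ((X.x42 * X.x44 * X.x12 * X.u) ^ 2 *
        (X.a3 ^ 2 * (X.V * (X.x12 ^ (2 * a) * X.b2 ^ b * X.a3 ^ c * X.x42 ^ (2 * d)))) -
      X.x42 ^ 4 * X.x12 ^ 2 * (2 * X.V + X.x12 ^ 2 * X.b2 ^ 2) *
        (X.a3 ^ 2 * (X.V * (X.x12 ^ (2 * a) * X.b2 ^ b * X.a3 ^ c * X.x42 ^ (2 * d))))) +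
      (X.V ^ 2 * (X.a3 ^ 2 * (2 * X.x42 ^ 4 * X.x12 ^ 2 *
        (X.x12 ^ (2 * a) * X.b2 ^ b * X.a3 ^ c * X.x42 ^ (2 * d)))) -
      3 * X.x12 ^ 4 * X.b2 ^ 4 * (X.a3 ^ 2 * (2 * X.x42 ^ 4 * X.x12 ^ 2 *
        (X.x12 ^ (2 * a) * X.b2 ^ b * X.a3 ^ c * X.x42 ^ (2 * d))))) := by
    simp only [mon, monV, ea, ea', eb, Nat.add_sub_cancel]
    ring
  rw [e]
  exact Ideal.add_mem _ h h2

theorem t_mon (a b c d : ℕ) : (X.x42 ^ 2 * X.x12 ^ 2 * X.b2) ^ 2 * X.mon a b c d =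
    X.mon (a + 2) (b + 2) c (d + 2) := by
  simp only [mon]
  ring

theorem t_monV {a b : ℕ} (ha : 1 ≤ a) (hb : 2 ≤ b) (c d : ℕ) :
    (X.x42 ^ 2 * X.x12 ^ 2 * X.b2) ^ 2 * X.monV a b c d =
    X.monV (a + 2) (b + 2) c (d + 2) := by
  obtain ⟨a, rfl⟩ := Nat.exists_eq_add_of_le ha
  obtain ⟨b, rfl⟩ := Nat.exists_eq_add_of_le hb
  have ea : 1 + a + 2 - 1 = a + 2 := by omega
  have ea' : 1 + a - 1 = a := by omega
  have eb : 2 + b - 2 = b := by omega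
  simp only [monV, ea, ea', eb, Nat.add_sub_cancel]
  ring

/-- The evaluation with `Y = x11`: the determinant is the norm of `1 + 2 √3`. -/
theorem eval_x11 (hD : D.Good) :
    D.symb (Ideal.span {X.b3, X.x41}) X.τ X.W X.e11 =
      cls (Units.mk0 (3 : ZMod 17) (by decide)) := by
  obtain ⟨N, hN⟩ := symb_eval hD roots X.hom1 X.dim1 X.τ2 X.dq X.d11 X.ds X.dt (high_of X.rq1)
    (high_of X.r11) (by
      intro p hp
      obtain ⟨h1, h2, h3, h4⟩ := on_mem hp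
      obtain ⟨g1, g2, g3⟩ := X.zf_x11 hD p h1 h3 h4
      exact ⟨_, List.mem_singleton.2 rfl, X.s_notMem hD p h2 g2 g3⟩) (by
      intro p hp
      obtain ⟨h1, h2, h3, h4⟩ := on_mem hp
      obtain ⟨g1, g2, g3⟩ := X.zf_x11 hD p h1 h3 h4
      exact ⟨_, List.mem_singleton.2 rfl, X.t_notMem hD p h2 g1 g2⟩) 0
  obtain ⟨N', hN'⟩ := X.sp
  -- the degrees
  obtain ⟨n, hn1, hn2, hn3⟩ : ∃ n, N ≤ n + 2 ∧ N' ≤ 2 * n ∧ 2 ≤ n :=
    ⟨N + N' + 2, by omega, by omega, by omega⟩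
  have eh : (0 : D.Γ) + (n + 2) • D.h = (2 * n + 2 + 2) • X.F1 + (2 * n + 2 + 2) • X.F2 +
      (2 * n + 4) • X.F3 + (2 * n + 2 + 2) • X.F4 := by
    rw [X.hdeg, smul_smul, zero_add, smul_add, smul_add, smul_add]
    have e1 : (n + 2) * 2 = 2 * n + 2 + 2 := by ring
    have e2 : (n + 2) * 2 = 2 * n + 4 := by ring
    rw [e1]
  have eh' : (0 : D.Γ) + (n + 2) • D.h - 2 • (X.F1 + X.F2 + X.F4) =
      (2 * n + 2) • X.F1 + (2 * n + 2) • X.F2 + (2 * n + 4) • X.F3 + (2 * n + 2) • X.F4 := by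
    rw [eh]
    simp only [add_smul, smul_add]
    abel
  have key := hN (n + 2) hn1
  have hm0 := X.mon_mem (2 * n + 2 + 2) (2 * n + 2 + 2) (2 * n + 4) (2 * n + 2 + 2)
  have hm1 := X.monV_mem (a := 2 * n + 2 + 2) (b := 2 * n + 2 + 2) (by omega) (by omega)
    (2 * n + 4) (2 * n + 2 + 2)
  have hsp := hN' (2 * n + 2 + 2) (2 * n + 2 + 2) (2 * n + 4) (2 * n + 2 + 2) (by omega)
    (by omega) (by omega) (by omega)
  have hsp' := hN' (2 * n + 2) (2 * n + 2) (2 * n + 4) (2 * n + 2) (by omega)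
    (by omega) (by omega) (by omega)
  rw [eh'] at key
  rw [← eh] at hm0 hm1 hsp
  generalize (0 : D.Γ) + (n + 2) • D.h = γ at key hm0 hm1 hsp
  have hli := X.li (a := 2 * n + 2 + 2) (b := 2 * n + 2 + 2) (by omega) (by omega)
    (2 * n + 4) (2 * n + 2 + 2)
  set m0 := X.mon (2 * n + 2 + 2) (2 * n + 2 + 2) (2 * n + 4) (2 * n + 2 + 2) with em0
  set m1 := X.monV (2 * n + 2 + 2) (2 * n + 2 + 2) (2 * n + 4) (2 * n + 2 + 2) with em1
  let B0 : quotGr D.gR X.JJ γ := cl X m0 hm0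
  let B1 : quotGr D.gR X.JJ γ := cl X m1 hm1
  have hcoe : ∀ c1 c2 : ZMod 17, ((c1 • B0 + c2 • B1 : quotGr D.gR X.JJ γ) : D.R ⧸ X.JJ) =
      Ideal.Quotient.mk X.JJ (algebraMap (ZMod 17) D.R c1 * m0 +
        algebraMap (ZMod 17) D.R c2 * m1) := by
    intro c1 c2
    rw [Submodule.coe_add, Submodule.coe_smul, Submodule.coe_smul, map_add, map_mul, map_mul,
      Algebra.smul_def, Algebra.smul_def]
    rfl
  have hspan : ∀ z : quotGr D.gR X.JJ γ, ∃ c1 c2 : ZMod 17, z = c1 • B0 + c2 • B1 := by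
    rintro ⟨_, x, hx, rfl⟩
    obtain ⟨c1, c2, h⟩ := hsp x hx
    refine ⟨c1, c2, Subtype.ext ?_⟩
    rw [hcoe]
    exact Ideal.Quotient.eq.2 h
  have hindep : LinearIndependent (ZMod 17) ![B0, B1] := by
    rw [LinearIndependent.pair_iff]
    intro c1 c2 h
    apply hli
    rw [← Ideal.Quotient.eq_zero_iff_mem, ← hcoe, h]
    rfl
  let B : Module.Basis (Fin 2) (ZMod 17) (quotGr D.gR X.JJ γ) := Module.Basis.mk hindep (by
    intro z _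
    obtain ⟨c1, c2, rfl⟩ := hspan z
    exact Submodule.add_mem _ (Submodule.smul_mem _ _ (Submodule.subset_span ⟨0, rfl⟩))
      (Submodule.smul_mem _ _ (Submodule.subset_span ⟨1, rfl⟩)))
  have hB0 : B 0 = B0 := by simp [B]
  have hB1 : B 1 = B1 := by simp [B]
  let v : quotGr D.gR X.JJ γ →ₗ[ZMod 17] quotGr D.gR X.JJ γ :=
    B.constr (ZMod 17) ![B1, (3 : ZMod 17) • B0]
  have hv0 : v B0 = B1 := by
    rw [← hB0, Module.Basis.constr_basis]; rfl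
  have hv1 : v B1 = (3 : ZMod 17) • B0 := by
    rw [← hB1, Module.Basis.constr_basis]; rfl
  have hvv : ∀ z, v (v z) = (3 : ZMod 17) • z := by
    intro z
    obtain ⟨c1, c2, rfl⟩ := hspan z
    simp only [map_add, map_smul, hv0, hv1, smul_add]
    rw [smul_comm c1, smul_comm c2]
  have hfr : Module.finrank (ZMod 17) (quotGr D.gR X.JJ γ) = 2 := by
    rw [Module.finrank_eq_card_basis B, Fintype.card_fin]
  let θ : quotGr D.gR X.JJ γ →ₗ[ZMod 17] quotGr D.gR X.JJ γ :=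
    LinearMap.id + (2 : ZMod 17) • v
  have hθ : ∀ z, θ z = (1 : ZMod 17) • z + (2 : ZMod 17) • v z := by
    intro z
    rw [one_smul]; rfl
  have hdet : LinearMap.det θ = 1 ^ 2 - 3 * 2 ^ 2 :=
    E.det_quad v 3 hvv not_sq3 hfr 1 2 θ hθ
  have h6 : (3 * (6 * 6) : ZMod 17) = LinearMap.det θ := by
    rw [hdet]; decide
  have hfin := key θ ?_ ((Units.mk0 (3 : ZMod 17) (by decide)) *
    ((Units.mk0 (6 : ZMod 17) (by decide)) * (Units.mk0 (6 : ZMod 17) (by decide)))) h6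
  · rw [hfin]
    have h7 : cls ((Units.mk0 (6 : ZMod 17) (by decide)) * (Units.mk0 (6 : ZMod 17) (by decide)))
      = (1 : SqCl (ZMod 17)) := E.cls_eq_one rfl
    unfold cls at h7 ⊢
    rw [QuotientGroup.mk_mul, h7, mul_one]
  · intro x hx z z' hz hz'
    obtain ⟨c1, c2, h⟩ := hsp' x hx
    have ez : z = c1 • B0 + c2 • B1 := by
      apply Subtype.ext
      rw [hcoe, hz]
      refine Ideal.Quotient.eq.2 ?_
      have h2 := Ideal.mul_mem_left _ ((X.x42 ^ 2 * X.x12 ^ 2 * X.b2) ^ 2) h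
      have e2 : (X.x42 ^ 2 * X.x12 ^ 2 * X.b2) ^ 2 * (x - (algebraMap (ZMod 17) D.R c1 *
          (X.x12 ^ (2 * (2 * n + 2)) * X.b2 ^ (2 * n + 2) * X.a3 ^ (2 * n + 4) *
            X.x42 ^ (2 * (2 * n + 2))) +
          algebraMap (ZMod 17) D.R c2 * (X.V * (X.x12 ^ (2 * (2 * n + 2 - 1)) *
            X.b2 ^ (2 * n + 2 - 2) * X.a3 ^ (2 * n + 4) * X.x42 ^ (2 * (2 * n + 2)))))) =
          (X.x42 ^ 2 * X.x12 ^ 2 * X.b2) ^ 2 * x - (algebraMap (ZMod 17) D.R c1 * m0 +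
            algebraMap (ZMod 17) D.R c2 * m1) := by
        rw [em0, em1, ← X.t_mon, ← X.t_monV (by omega) (by omega)]
        simp only [mon, monV]
        ring
      rw [e2] at h2
      exact h2
    have ez' : z' = c1 • (B0 + (2 : ZMod 17) • B1) + c2 • (B1 + (6 : ZMod 17) • B0) := by
      have e3 : c1 • (B0 + (2 : ZMod 17) • B1) + c2 • (B1 + (6 : ZMod 17) • B0) =
          (c1 + c2 * 6) • B0 + (c1 * 2 + c2) • B1 := by
        simp only [smul_add, add_smul, mul_smul]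
        abel
      rw [e3]
      apply Subtype.ext
      rw [hcoe, hz']
      refine Ideal.Quotient.eq.2 ?_
      have h2 := Ideal.mul_mem_left _ ((X.x42 * X.x44 * X.x12 * X.u) ^ 2) h
      have h3 := Ideal.mul_mem_left _ (algebraMap (ZMod 17) D.R c1)
        (X.s_mon (2 * n + 2) (2 * n + 2) (c := 2 * n + 4) (by omega) (2 * n + 2))
      have h4 := Ideal.mul_mem_left _ (algebraMap (ZMod 17) D.R c2)
        (X.s_monV (a := 2 * n + 2) (b := 2 * n + 2) (c := 2 * n + 4) (by omega) (by omega)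
          (by omega) (2 * n + 2))
      have h5 := Ideal.add_mem _ h2 (Ideal.add_mem _ h3 h4)
      have e4 : (X.x42 * X.x44 * X.x12 * X.u) ^ 2 * x -
          (algebraMap (ZMod 17) D.R (c1 + c2 * 6) * m0 +
            algebraMap (ZMod 17) D.R (c1 * 2 + c2) * m1) =
        (X.x42 * X.x44 * X.x12 * X.u) ^ 2 * (x - (algebraMap (ZMod 17) D.R c1 *
          (X.x12 ^ (2 * (2 * n + 2)) * X.b2 ^ (2 * n + 2) * X.a3 ^ (2 * n + 4) *
            X.x42 ^ (2 * (2 * n + 2))) +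
          algebraMap (ZMod 17) D.R c2 * (X.V * (X.x12 ^ (2 * (2 * n + 2 - 1)) *
            X.b2 ^ (2 * n + 2 - 2) * X.a3 ^ (2 * n + 4) * X.x42 ^ (2 * (2 * n + 2)))))) +
        (algebraMap (ZMod 17) D.R c1 * ((X.x42 * X.x44 * X.x12 * X.u) ^ 2 *
          X.mon (2 * n + 2) (2 * n + 2) (2 * n + 4) (2 * n + 2) -
          (X.mon (2 * n + 2 + 2) (2 * n + 2 + 2) (2 * n + 4) (2 * n + 2 + 2) +
            2 * X.monV (2 * n + 2 + 2) (2 * n + 2 + 2) (2 * n + 4) (2 * n + 2 + 2))) +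
        algebraMap (ZMod 17) D.R c2 * ((X.x42 * X.x44 * X.x12 * X.u) ^ 2 *
          X.monV (2 * n + 2) (2 * n + 2) (2 * n + 4) (2 * n + 2) -
          (X.monV (2 * n + 2 + 2) (2 * n + 2 + 2) (2 * n + 4) (2 * n + 2 + 2) +
            6 * X.mon (2 * n + 2 + 2) (2 * n + 2 + 2) (2 * n + 4) (2 * n + 2 + 2)))) := by
        rw [← em0, ← em1, map_add, map_add, map_mul, map_mul, map_ofNat, map_ofNat]
        simp only [mon, monV]
        ring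
      rw [e4]
      exact h5
    rw [hθ, ez, ez', one_smul]
    simp only [map_add, map_smul, hv0, hv1, smul_add]
    have e6 : (6 : ZMod 17) = 2 * 3 := by decide
    rw [e6, mul_smul, smul_comm (2 : ZMod 17) c1, smul_comm (2 : ZMod 17) c2]
    abel


/-! ### The two values -/

theorem dt2 : X.x41 ^ 2 ∈ D.gR X.F4 := X.t41 ▸ SetLike.pow_mem_graded 2 X.d41

theorem ds2 : X.x41 * X.x43 ∈ D.gR (X.F4 + X.τ) := by
  have h := SetLike.mul_mem_graded X.d41 X.d43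
  rwa [X.hs2] at h

theorem nz2 (hD : D.Good) (p : D.Pt) (h42 : X.x42 ∈ D.pt p) :
    X.x41 * X.x43 ∉ D.pt p ∧ X.x41 ^ 2 ∉ D.pt p := by
  have h41 : X.x41 ∉ D.pt p := fun h => X.B4 p h h42
  refine ⟨fun h => ?_, fun h => h41 (mem_of_sq hD p X.d41 h)⟩
  rcases D.pt_prime hD p X.d41 X.d43 h with h | h
  · exact h41 h
  · apply h41
    apply mem_of_sq hD p X.d41
    have e : X.x41 ^ 2 = X.x43 * X.x43 + X.x42 * X.x42 := by linear_combination -X.i43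
    rw [e]
    exact Ideal.add_mem _ (Ideal.mul_mem_left _ _ h) (Ideal.mul_mem_left _ _ h42)

/-- The evaluation on `b3 = x42 = 0`: trivial. -/
theorem eval_two (hD : D.Good) {b : D.Γ} {Y : D.R} (hY : Y ∈ D.gR b)
    (r : ∀ x, Y * x ∈ Ideal.span {X.b3, X.x42} ⊔ Ideal.span {X.q} →
      x ∈ Ideal.span {X.b3, X.x42} ⊔ Ideal.span {X.q}) :
    D.symb (Ideal.span {X.b3, X.x42}) X.τ X.W b = 1 := by
  refine E.symb_eval_sq hD roots X.hom2 X.dim2 X.τ2 X.dq hY X.ds2 X.dt2 (high_of X.rq2)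
    (high_of r) ?_ ?_ 1 (by decide) ?_
  · intro p hp
    exact ⟨_, List.mem_singleton.2 rfl, (X.nz2 hD p (on_mem hp).2.1).1⟩
  · intro p hp
    exact ⟨_, List.mem_singleton.2 rfl, (X.nz2 hD p (on_mem hp).2.1).2⟩
  · refine high_of fun x => ?_
    rw [map_one]
    have e : ((X.x41 * X.x43) ^ 2 - 1 ^ 2 * (X.x41 ^ 2) ^ 2) * x =
        0 * X.b3 + (-(X.x41 ^ 2) * X.x42 * x) * X.x42 + 0 * X.q + 0 * Y := by
      linear_combination (X.x41 ^ 2 * x) * X.i43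
    rw [e]
    exact mem4 _ _ _ _

/-- Additivity in the second class. -/
theorem symb_add_right (hD : D.Good) {J : Ideal D.R} (hJ : J.IsHomogeneous D.gR)
    (hd : D.DimLE J 2) {f : D.Γ} (hf : 2 • f = 0) (a b b' : D.Γ) :
    D.symb J f a (b + b') = D.symb J f a b * D.symb J f a b' := by
  rw [symb_comm hD roots hJ hd hf a, symb_add_left hD roots hJ hd hf,
    symb_comm hD roots hJ hd hf b, symb_comm hD roots hJ hd hf b']

/-- The symbol at `ε` is the product of the three evaluations. -/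
theorem symb_eps (hD : D.Good) {J : Ideal D.R} (hJ : J.IsHomogeneous D.gR)
    (hd : D.DimLE J 2) :
    D.symb J X.τ X.W X.ε =
      D.symb J X.τ X.W X.e11 * D.symb J X.τ X.W X.dY * D.symb J X.τ X.W X.F2 := by
  have h1 : D.symb J X.τ X.W (X.ε + 2 • (X.e11 + X.F2)) = D.symb J X.τ X.W X.ε := by
    rw [symb_add_right hD hJ hd X.τ2, two_smul, symb_add_right hD hJ hd X.τ2 X.W
      (X.e11 + X.F2) (X.e11 + X.F2), E.mul_self_SqCl, mul_one]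
  rw [← h1, X.hε, symb_add_right hD hJ hd X.τ2, symb_add_right hD hJ hd X.τ2]

/-- The value of the functional at the first surface is the class of the non-square `3`. -/
theorem eval1 (hD : D.Good) :
    D.symb (Ideal.span {X.b3, X.x41}) X.τ X.W X.ε =
      cls (Units.mk0 (3 : ZMod 17) (by decide)) := by
  rw [X.symb_eps hD X.hom1 X.dim1, X.eval_x11 hD, X.eval_Y2 hD, X.eval_b2 hD, mul_one, mul_one]

/-- The value of the functional at the second surface is trivial. -/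
theorem eval2 (hD : D.Good) :
    D.symb (Ideal.span {X.b3, X.x42}) X.τ X.W X.ε = 1 := by
  rw [X.symb_eps hD X.hom2 X.dim2, X.eval_two hD X.d11 X.r21, X.eval_two hD X.dY2 X.r22,
    X.eval_two hD X.db2 X.r23, mul_one, mul_one]

end EX

end Cox
end Pool.Agent.SSF
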