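import Pool.Agent.SSF.XCox
import Pool.Agent.SSF.ERel

/-!
# SSF, layer E: computations in `R / (b3, x41, q, x11)`, in an arbitrary ring
-/

set_option autoImplicit false

namespace Pool.Agent.SSF.Ev

variable {Q : Type*} [CommRing Q] {S : Q} {X : Fin 4 → Fin 4 → Q}

/-- The vanishing of the generators of the ideal. -/
structure Van (S : Q) (X : Fin 4 → Fin 4 → Q) : Prop extends Rel S X where
  h00 : X 0 0 = 0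
  h30 : X 3 0 = 0
  hb : S * (X 2 0 ^ 2 - X 2 1 ^ 2) = 0
  hq : X 2 0 * X 2 2 * X 1 0 + X 2 1 * X 2 3 * X 1 1 = 0

theorem Van.zz (h : Van S X) : X 2 0 ^ 2 = X 2 1 ^ 2 := by
  linear_combination 6 * S * h.hb - 6 * (X 2 0 ^ 2 - X 2 1 ^ 2) * h.ss -
    (X 2 0 ^ 2 - X 2 1 ^ 2) * h.c17

theorem Van.e22 (h : Van S X) : X 2 2 ^ 2 = 2 * S * X 2 1 ^ 2 := by
  rw [h.h22, h.zz]; ring

theorem Van.e23 (h : Van S X) : X 2 3 ^ 2 = - (2 * S * X 2 1 ^ 2) := by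
  rw [h.h23, h.zz]; ring

theorem Van.zy (h : Van S X) : (X 2 1 ^ 2) ^ 2 * (X 1 0 ^ 2 + X 1 1 ^ 2) = 0 := by
  have h1 : (X 2 0 * X 2 2 * X 1 0 + X 2 1 * X 2 3 * X 1 1) *
      (X 2 0 * X 2 2 * X 1 0 - X 2 1 * X 2 3 * X 1 1) = 0 := by rw [h.hq, zero_mul]
  have h2 : X 2 0 ^ 2 * X 2 2 ^ 2 * X 1 0 ^ 2 - X 2 1 ^ 2 * X 2 3 ^ 2 * X 1 1 ^ 2 = 0 := by
    linear_combination h1
  rw [h.e22, h.e23, h.zz] at h2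
  linear_combination 3 * S * h2 - 6 * ((X 2 1 ^ 2) ^ 2 * (X 1 0 ^ 2 + X 1 1 ^ 2)) * h.ss -
    ((X 2 1 ^ 2) ^ 2 * (X 1 0 ^ 2 + X 1 1 ^ 2)) * h.c17

theorem Van.zy0 (h : Van S X) : (X 2 1 ^ 2) ^ 2 * X 1 0 ^ 2 =
    (3 * S) * ((X 2 1 ^ 2) ^ 2 * be 1 S X) := by
  unfold be
  linear_combination (3 * S ^ 2) * h.zy - 6 * ((X 2 1 ^ 2) ^ 2 * X 1 0 ^ 2) * h.ss -
    ((X 2 1 ^ 2) ^ 2 * X 1 0 ^ 2) * h.c17

theorem Van.zy1 (h : Van S X) : (X 2 1 ^ 2) ^ 2 * X 1 1 ^ 2 =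
    (-(3 * S)) * ((X 2 1 ^ 2) ^ 2 * be 1 S X) := by
  linear_combination h.zy - h.zy0

theorem Van.zyp (h : Van S X) (i j : ℕ) : (X 2 1 ^ 2) ^ 2 * ((X 1 0 ^ 2) ^ i * (X 1 1 ^ 2) ^ j) =
    (3 * S) ^ i * (-(3 * S)) ^ j * ((X 2 1 ^ 2) ^ 2 * be 1 S X ^ (i + j)) := by
  induction i with
  | zero =>
    induction j with
    | zero => simp
    | succ j ih =>
      have e1 : (X 2 1 ^ 2) ^ 2 * ((X 1 0 ^ 2) ^ 0 * (X 1 1 ^ 2) ^ (j + 1)) =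
        ((X 2 1 ^ 2) ^ 2 * ((X 1 0 ^ 2) ^ 0 * (X 1 1 ^ 2) ^ j)) * X 1 1 ^ 2 := by ring
      rw [e1, ih]
      have h1 := h.zy1
      linear_combination ((3 * S) ^ 0 * (-(3 * S)) ^ j * be 1 S X ^ (0 + j)) * h1
  | succ i ih =>
    have e1 : (X 2 1 ^ 2) ^ 2 * ((X 1 0 ^ 2) ^ (i + 1) * (X 1 1 ^ 2) ^ j) =
      ((X 2 1 ^ 2) ^ 2 * ((X 1 0 ^ 2) ^ i * (X 1 1 ^ 2) ^ j)) * X 1 0 ^ 2 := by ring
    rw [e1, ih]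
    have h1 := h.zy0
    have e2 : i + 1 + j = i + j + 1 := by ring
    rw [e2]
    linear_combination ((3 * S) ^ i * (-(3 * S)) ^ j * be 1 S X ^ (i + j)) * h1

theorem Van.zpow (h : Van S X) (c : ℕ) : (X 2 1 ^ 2) ^ c = 9 ^ c * al 2 X ^ c := by
  rw [← mul_pow]
  congr 1
  unfold al
  rw [h.zz]
  linear_combination (-(X 2 1 ^ 2)) * h.c17

theorem Van.y3 (h : Van S X) : X 2 0 * X 2 1 * X 2 2 * X 2 3 * (X 1 0 * X 1 1) =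
    -((X 2 1 ^ 2) ^ 2 * be 1 S X) := by
  have h1 : (X 2 0 * X 2 2 * X 1 0 + X 2 1 * X 2 3 * X 1 1) ^ 2 = 0 := by
    rw [h.hq]; ring
  have h2 : X 2 0 ^ 2 * X 2 2 ^ 2 * X 1 0 ^ 2 + X 2 1 ^ 2 * X 2 3 ^ 2 * X 1 1 ^ 2 +
      2 * (X 2 0 * X 2 1 * X 2 2 * X 2 3 * (X 1 0 * X 1 1)) = 0 := by
    linear_combination h1
  rw [h.e22, h.e23, h.zz] at h2
  unfold be
  linear_combination 9 * h2 - (X 2 0 * X 2 1 * X 2 2 * X 2 3 * (X 1 0 * X 1 1) +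
    (X 2 1 ^ 2) ^ 2 * S * (X 1 0 ^ 2 - X 1 1 ^ 2)) * h.c17

theorem Van.t0 (h : Van S X) : X 2 0 * X 2 1 * X 2 2 * X 2 3 * X 1 0 ^ 2 =
    2 * S * ((X 2 1 ^ 2) ^ 2 * (X 1 0 * X 1 1)) := by
  have h1 : (X 2 0 * X 2 2 * X 1 0 + X 2 1 * X 2 3 * X 1 1) * (X 2 1 * X 2 3 * X 1 0) = 0 := by
    rw [h.hq, zero_mul]
  have h2 := h.e23
  linear_combination h1 - X 2 1 ^ 2 * X 1 0 * X 1 1 * h2

theorem Van.t1 (h : Van S X) : X 2 0 * X 2 1 * X 2 2 * X 2 3 * X 1 1 ^ 2 =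
    -(2 * S * ((X 2 1 ^ 2) ^ 2 * (X 1 0 * X 1 1))) := by
  have h1 : (X 2 0 * X 2 2 * X 1 0 + X 2 1 * X 2 3 * X 1 1) * (X 2 0 * X 2 2 * X 1 1) = 0 := by
    rw [h.hq, zero_mul]
  have h2 := h.e22
  have h3 := h.zz
  linear_combination h1 - X 2 0 ^ 2 * X 1 0 * X 1 1 * h2 - 2 * S * X 2 1 ^ 2 * X 1 0 * X 1 1 * h3


theorem Van.zcy (h : Van S X) (i j c : ℕ) (hc : 2 ≤ c) :
    (X 2 1 ^ 2) ^ c * ((X 1 0 ^ 2) ^ i * (X 1 1 ^ 2) ^ j) =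
      ((3 * S) ^ i * (-(3 * S)) ^ j * 9 ^ c) * (be 1 S X ^ (i + j) * al 2 X ^ c) := by
  obtain ⟨c, rfl⟩ := Nat.exists_eq_add_of_le hc
  have h1 := h.zyp i j
  have h2 := h.zpow (2 + c)
  have e1 : (X 2 1 ^ 2) ^ (2 + c) * ((X 1 0 ^ 2) ^ i * (X 1 1 ^ 2) ^ j) =
      (X 2 1 ^ 2) ^ c * ((X 2 1 ^ 2) ^ 2 * ((X 1 0 ^ 2) ^ i * (X 1 1 ^ 2) ^ j)) := by ring
  rw [e1, h1]
  have e2 : (X 2 1 ^ 2) ^ c * ((3 * S) ^ i * (-(3 * S)) ^ j *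
      ((X 2 1 ^ 2) ^ 2 * be 1 S X ^ (i + j))) = ((3 * S) ^ i * (-(3 * S)) ^ j) *
      be 1 S X ^ (i + j) * (X 2 1 ^ 2) ^ (2 + c) := by ring
  rw [e2, h2]; ring

section alg

variable (g : F2 →+* Q)

/-- The first spanning element. -/
def M0 (S : Q) (X : Fin 4 → Fin 4 → Q) (a b c d : ℕ) : Q :=
  X 0 1 ^ (2 * a) * be 1 S X ^ b * al 2 X ^ c * X 3 1 ^ (2 * d)

/-- The second spanning element. -/
def M1 (S : Q) (X : Fin 4 → Fin 4 → Q) (a b c d : ℕ) : Q :=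
  VV X * (X 0 1 ^ (2 * (a - 1)) * be 1 S X ^ (b - 2) * al 2 X ^ c * X 3 1 ^ (2 * d))

/-- the coefficient -/
noncomputable def cf (i j c : ℕ) : F2 := (3 * sF) ^ i * (-(3 * sF)) ^ j * 9 ^ c

theorem cf_map (i j c : ℕ) : g (cf i j c) =
    (3 * g sF) ^ i * (-(3 * g sF)) ^ j * 9 ^ c := by
  unfold cf
  simp only [map_mul, map_pow, map_neg, map_ofNat]

variable {X : Fin 4 → Fin 4 → Q}

theorem case00 (h : Van (g sF) X) (a b c d i j k l : ℕ) (hb : i + j = b)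
    (hc : k + l = c) (h2 : 2 ≤ c) :
    X 0 1 ^ (2 * a) * (X 1 0 ^ (2 * i) * X 1 1 ^ (2 * j)) * (X 2 0 ^ (2 * k) * X 2 1 ^ (2 * l)) *
      X 3 1 ^ (2 * d) =
    g (cf i j c) * M0 (g sF) X a b c d := by
  subst hb hc
  have e1 : X 2 0 ^ (2 * k) * X 2 1 ^ (2 * l) = (X 2 1 ^ 2) ^ (k + l) := by
    rw [pow_mul, h.zz]; ring
  have h1 := h.zcy i j (k + l) h2
  rw [e1, cf_map]
  unfold M0
  linear_combination (X 0 1 ^ (2 * a) * X 3 1 ^ (2 * d)) * h1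

theorem case10 (h : Van (g sF) X) (a b c d i j k l : ℕ) (hb : i + j + 2 = b)
    (hc : k + l = c) (h2 : 2 ≤ c) :
    X 0 1 ^ (2 * (a - 1)) * (X 0 2 * X 0 3) * (X 1 0 ^ (2 * i + 1) * X 1 1 ^ (2 * j + 1) *
      (X 1 2 * X 1 3)) * (X 2 0 ^ (2 * k) * X 2 1 ^ (2 * l)) * X 3 1 ^ (2 * d) =
    g (cf i j c) * M1 (g sF) X a b c d := by
  subst hb hc
  have e1 : X 2 0 ^ (2 * k) * X 2 1 ^ (2 * l) = (X 2 1 ^ 2) ^ (k + l) := by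
    rw [pow_mul, h.zz]; ring
  have h1 := h.zcy i j (k + l) h2
  rw [e1, cf_map]
  unfold M1 VV
  rw [Nat.add_sub_cancel]
  linear_combination (X 0 1 ^ (2 * (a - 1)) * X 3 1 ^ (2 * d) * X 0 2 * X 0 3 * X 1 0 * X 1 1 *
    X 1 2 * X 1 3) * h1

theorem case01 (h : Van (g sF) X) (a b c d i j k l : ℕ) (hb : i + j + 1 = b)
    (hc : k + l + 2 = c) :
    X 0 1 ^ (2 * a) * (X 1 0 ^ (2 * i + 1) * X 1 1 ^ (2 * j + 1)) *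
      (X 2 0 ^ (2 * k + 1) * X 2 1 ^ (2 * l + 1) * (X 2 2 * X 2 3)) * X 3 1 ^ (2 * d) =
    g (-cf i j c) * M0 (g sF) X a b c d := by
  subst hb hc
  have e1 : X 2 0 ^ (2 * k + 1) * X 2 1 ^ (2 * l + 1) = (X 2 1 ^ 2) ^ (k + l) *
      (X 2 0 * X 2 1) := by
    rw [pow_succ, pow_mul, h.zz]; ring
  have h1 := h.zcy i j (k + l + 2) (by omega)
  have h3 := h.y3
  rw [e1, map_neg, cf_map]
  unfold M0
  linear_combination (X 0 1 ^ (2 * a) * X 3 1 ^ (2 * d) * (X 1 0 ^ 2) ^ i * (X 1 1 ^ 2) ^ j *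
    (X 2 1 ^ 2) ^ (k + l)) * h3 -
    (X 0 1 ^ (2 * a) * X 3 1 ^ (2 * d) * be 1 (g sF) X) * h1

theorem case11 (h : Van (g sF) X) (a b c d i j k l : ℕ) (hb : i + j + 1 = b)
    (hc : k + l + 2 = c) (h2 : 2 ≤ b) :
    ∃ c2 : F2, X 0 1 ^ (2 * (a - 1)) * (X 0 2 * X 0 3) * (X 1 0 ^ (2 * i) * X 1 1 ^ (2 * j) *
      (X 1 2 * X 1 3)) *
      (X 2 0 ^ (2 * k + 1) * X 2 1 ^ (2 * l + 1) * (X 2 2 * X 2 3)) * X 3 1 ^ (2 * d) =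
    g c2 * M1 (g sF) X a b c d := by
  have e1 : X 2 0 ^ (2 * k + 1) * X 2 1 ^ (2 * l + 1) = (X 2 1 ^ 2) ^ (k + l) *
      (X 2 0 * X 2 1) := by
    rw [pow_succ, pow_mul, h.zz]; ring
  subst hb hc
  rcases Nat.eq_zero_or_pos i with hi | hi
  · subst hi
    obtain ⟨j, rfl⟩ : ∃ j', j = j' + 1 := ⟨j - 1, by omega⟩
    have h1 := h.zcy 0 j (k + l + 2) (by omega)
    have h3 := h.t1
    refine ⟨-(2 * sF * cf 0 j (k + l + 2)), ?_⟩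
    have e5 : 0 + (j + 1) + 1 - 2 = 0 + j := by omega
    rw [e1, map_neg, map_mul, map_mul, map_ofNat, cf_map]
    unfold M1 VV
    rw [e5]
    linear_combination (X 0 1 ^ (2 * (a - 1)) * X 3 1 ^ (2 * d) * X 0 2 * X 0 3 * X 1 2 * X 1 3 *
      (X 1 1 ^ 2) ^ j * (X 2 1 ^ 2) ^ (k + l)) * h3 -
      (X 0 1 ^ (2 * (a - 1)) * X 3 1 ^ (2 * d) * X 0 2 * X 0 3 * X 1 2 * X 1 3 * 2 *
        g sF * X 1 0 * X 1 1) * h1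
  · obtain ⟨i, rfl⟩ : ∃ i', i = i' + 1 := ⟨i - 1, by omega⟩
    have h1 := h.zcy i j (k + l + 2) (by omega)
    have h3 := h.t0
    refine ⟨(2 * sF * cf i j (k + l + 2)), ?_⟩
    have e5 : i + 1 + j + 1 - 2 = i + j := by omega
    rw [e1, map_mul, map_mul, map_ofNat, cf_map]
    unfold M1 VV
    rw [e5]
    linear_combination (X 0 1 ^ (2 * (a - 1)) * X 3 1 ^ (2 * d) * X 0 2 * X 0 3 * X 1 2 * X 1 3 *
      (X 1 0 ^ 2) ^ i * (X 1 1 ^ 2) ^ j * (X 2 1 ^ 2) ^ (k + l)) * h3 +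
      (X 0 1 ^ (2 * (a - 1)) * X 3 1 ^ (2 * d) * X 0 2 * X 0 3 * X 1 2 * X 1 3 * 2 *
        g sF * X 1 0 * X 1 1) * h1

end alg

end Pool.Agent.SSF.Ev
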