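import Pool.Agent.SSF.XSpan
import Pool.Agent.SSF.EDefs
import Pool.Agent.SSF.ESpA

/-!
# SSF, layer E: spanning of the pieces of `R / (b3, x41, q, x11)`
-/

set_option autoImplicit false

namespace Pool.Agent.SSF.Ev

open MvPolynomial DirectSum XDesc

/-- The parity conditions on the exponents of a monomial whose degree has no torsion part. -/
theorem parity (m : V →₀ ℕ) (γ : Fin 4 → ℤ) (h : Finsupp.weight e m = (γ, 0)) :
    2 ∣ m (0, 1) + m (0, 3) + m (1, 3) ∧ 2 ∣ m (0, 2) + m (0, 3) + m (3, 3) ∧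
    2 ∣ m (1, 1) + m (1, 3) + m (2, 3) ∧ 2 ∣ m (1, 2) + m (1, 3) + m (3, 3) ∧
    2 ∣ m (2, 1) + m (2, 3) ∧ 2 ∣ m (2, 2) + m (2, 3) ∧
    2 ∣ m (3, 1) + m (3, 3) ∧ 2 ∣ m (3, 2) + m (3, 3) := by
  have key : ∀ j : Fin 8, (∑ v : V, (m v : ZMod 2) * tt v.1 v.2 j) = 0 := by
    intro j
    have h1 := congrFun (congrArg Prod.snd h) j
    rw [Finsupp.weight_apply, Finsupp.sum_fintype _ _ (fun v => by simp), Prod.snd_sum,
      Finset.sum_apply] at h1
    have h0 : ((γ, (0 : Fin 8 → ZMod 2)) : Lam).2 j = 0 := rfl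
    rw [h0] at h1
    rw [← h1]
    refine Finset.sum_congr rfl fun v _ => ?_
    rw [Prod.smul_snd, Pi.smul_apply, nsmul_eq_mul]
    rfl
  have conv : ∀ n : ℕ, (n : ZMod 2) = 0 → 2 ∣ n := fun n hn =>
    (ZMod.natCast_eq_zero_iff n 2).1 hn
  have k0 := key 0
  have k1 := key 1
  have k2 := key 2
  have k3 := key 3
  have k4 := key 4
  have k5 := key 5
  have k6 := key 6
  have k7 := key 7
  simp [Fintype.sum_prod_type, Fin.sum_univ_four, tt, u] at k0 k1 k2 k3 k4 k5 k6 k7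
  refine ⟨conv _ ?_, conv _ ?_, conv _ ?_, conv _ ?_, conv _ ?_, conv _ ?_, conv _ ?_, conv _ ?_⟩
  all_goals push_cast
  · linear_combination k0
  · linear_combination k1
  · linear_combination k2
  · linear_combination k3
  · linear_combination k4
  · linear_combination k5
  · linear_combination k6
  · linear_combination k7


/-- The ideal in `R F2 sF`. -/
noncomputable def JR : Ideal (R F2 sF) :=
  Ideal.span {be 2 SS xx, xx 3 0} ⊔ Ideal.span {qW xx, xx 0 0}

/-- The quotient ring. -/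
def QR : Type := R F2 sF ⧸ JR

noncomputable instance : CommRing QR := inferInstanceAs (CommRing (R F2 sF ⧸ JR))

/-- The quotient map. -/
noncomputable def pq : R F2 sF →+* QR := Ideal.Quotient.mk JR

theorem pq_eq_zero {x : R F2 sF} : pq x = 0 ↔ x ∈ JR := Ideal.Quotient.eq_zero_iff_mem

theorem rel_map {A B : Type*} [CommRing A] [CommRing B] (f : A →+* B) {S : A}
    {X : Fin 4 → Fin 4 → A} (h : Rel S X) : Rel (f S) (fun i j => f (X i j)) where
  c17 := by rw [← map_ofNat f 17, h.c17, map_zero]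
  ss := by rw [← map_pow, h.ss, map_ofNat]
  h02 := by
    have := congrArg f h.h02
    simpa only [map_pow, map_add, map_sub, map_mul, map_neg, map_one, map_ofNat] using this
  h03 := by
    have := congrArg f h.h03
    simpa only [map_pow, map_add, map_sub, map_mul, map_neg, map_one, map_ofNat] using this
  h12 := by
    have := congrArg f h.h12
    simpa only [map_pow, map_add, map_sub, map_mul, map_neg, map_one, map_ofNat] using this
  h13 := by
    have := congrArg f h.h13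
    simpa only [map_pow, map_add, map_sub, map_mul, map_neg, map_one, map_ofNat] using this
  h22 := by
    have := congrArg f h.h22
    simpa only [map_pow, map_add, map_sub, map_mul, map_neg, map_one, map_ofNat] using this
  h23 := by
    have := congrArg f h.h23
    simpa only [map_pow, map_add, map_sub, map_mul, map_neg, map_one, map_ofNat] using this
  h32 := by
    have := congrArg f h.h32
    simpa only [map_pow, map_add, map_sub, map_mul, map_neg, map_one, map_ofNat] using this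
  h33 := by
    have := congrArg f h.h33
    simpa only [map_pow, map_add, map_sub, map_mul, map_neg, map_one, map_ofNat] using this

/-- The structure map. -/
noncomputable def gq : F2 →+* QR := pq.comp (algebraMap F2 (R F2 sF))

/-- The images of the coordinates. -/
noncomputable def XQ (i j : Fin 4) : QR := pq (xx i j)

theorem relQ : Rel (gq sF) XQ := rel_map pq rel

theorem van : Van (gq sF) XQ where
  toRel := relQ
  h00 := pq_eq_zero.2 (Ideal.mem_sup_right (Ideal.subset_span (by simp)))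
  h30 := pq_eq_zero.2 (Ideal.mem_sup_left (Ideal.subset_span (by simp)))
  hb := by
    have h : pq (be 2 SS xx) = 0 :=
      pq_eq_zero.2 (Ideal.mem_sup_left (Ideal.subset_span (by simp)))
    rw [be, map_mul, map_sub, map_pow, map_pow] at h
    exact h
  hq := by
    have h : pq (qW xx) = 0 :=
      pq_eq_zero.2 (Ideal.mem_sup_right (Ideal.subset_span (by simp)))
    rw [qW, map_add, map_mul, map_mul, map_mul, map_mul] at h
    exact h

theorem mon_expand (m : V →₀ ℕ) : mon F2 sF m =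
    (xx 0 0 ^ m (0, 0) * xx 0 1 ^ m (0, 1) * xx 0 2 ^ m (0, 2) * xx 0 3 ^ m (0, 3)) *
    (xx 1 0 ^ m (1, 0) * xx 1 1 ^ m (1, 1) * xx 1 2 ^ m (1, 2) * xx 1 3 ^ m (1, 3)) *
    (xx 2 0 ^ m (2, 0) * xx 2 1 ^ m (2, 1) * xx 2 2 ^ m (2, 2) * xx 2 3 ^ m (2, 3)) *
    (xx 3 0 ^ m (3, 0) * xx 3 1 ^ m (3, 1) * xx 3 2 ^ m (3, 2) * xx 3 3 ^ m (3, 3)) := by
  unfold mon
  rw [Finsupp.prod_fintype _ _ (fun v => pow_zero _), Fintype.prod_prod_type,
    Fin.prod_univ_four, Fin.prod_univ_four, Fin.prod_univ_four, Fin.prod_univ_four,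
    Fin.prod_univ_four]
  rfl


/-- Every reduced monomial of degree `(2a, 2b, 2c, 2d; 0)` is a combination of two elements. -/
theorem mon_span (m : V →₀ ℕ) (a b c d : ℕ) (hb : 2 ≤ b) (hc : 2 ≤ c)
    (h : Finsupp.weight e m = (![2 * (a : ℤ), 2 * b, 2 * c, 2 * d], 0)) (hr : Red m) :
    ∃ c1 c2 : F2, pq (mon F2 sF m) =
      gq c1 * M0 (gq sF) XQ a b c d + gq c2 * M1 (gq sF) XQ a b c d := by
  have hv := van
  obtain ⟨p0, p1, p2, p3, p4, p5, p6, p7⟩ := parity m _ h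
  have w0 := congrFun (congrArg Prod.fst h) 0
  have w1 := congrFun (congrArg Prod.fst h) 1
  have w2 := congrFun (congrArg Prod.fst h) 2
  have w3 := congrFun (congrArg Prod.fst h) 3
  rw [weight_fst, Fin.sum_univ_four] at w0 w1 w2 w3
  replace w0 : (m (0, 0) : ℤ) + m (0, 1) + m (0, 2) + m (0, 3) = 2 * a := w0
  replace w1 : (m (1, 0) : ℤ) + m (1, 1) + m (1, 2) + m (1, 3) = 2 * b := w1
  replace w2 : (m (2, 0) : ℤ) + m (2, 1) + m (2, 2) + m (2, 3) = 2 * c := w2
  replace w3 : (m (3, 0) : ℤ) + m (3, 1) + m (3, 2) + m (3, 3) = 2 * d := w3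
  obtain ⟨r02, r03⟩ := hr 0
  obtain ⟨r12, r13⟩ := hr 1
  obtain ⟨r22, r23⟩ := hr 2
  obtain ⟨r32, r33⟩ := hr 3
  rw [mon_expand]
  simp only [map_mul, map_pow]
  have h00 : pq (xx 0 0) = 0 := hv.h00
  have h30 : pq (xx 3 0) = 0 := hv.h30
  have hX : ∀ i j, pq (xx i j) = XQ i j := fun _ _ => rfl
  by_cases z0 : m (0, 0) = 0
  swap
  · refine ⟨0, 0, ?_⟩
    have hz : pq (xx 0 0) ^ m (0, 0) = 0 := by rw [h00]; exact zero_pow z0
    rw [hz, map_zero]
    ring
  by_cases z3 : m (3, 0) = 0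
  swap
  · refine ⟨0, 0, ?_⟩
    have hz : pq (xx 3 0) ^ m (3, 0) = 0 := by rw [h30]; exact zero_pow z3
    rw [hz, map_zero]
    ring
  generalize m (0, 0) = m00 at *
  generalize m (0, 1) = m01 at *
  generalize m (0, 2) = m02 at *
  generalize m (0, 3) = m03 at *
  generalize m (1, 0) = m10 at *
  generalize m (1, 1) = m11 at *
  generalize m (1, 2) = m12 at *
  generalize m (1, 3) = m13 at *
  generalize m (2, 0) = m20 at *
  generalize m (2, 1) = m21 at *
  generalize m (2, 2) = m22 at *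
  generalize m (2, 3) = m23 at *
  generalize m (3, 0) = m30 at *
  generalize m (3, 1) = m31 at *
  generalize m (3, 2) = m32 at *
  generalize m (3, 3) = m33 at *
  subst z0 z3
  obtain rfl : m33 = 0 := by omega
  obtain rfl : m32 = 0 := by omega
  obtain rfl : m31 = 2 * d := by omega
  obtain ⟨s, hs, rfl⟩ : ∃ s, s ≤ 1 ∧ s = m02 := ⟨m02, r02, rfl⟩
  obtain ⟨t, ht, rfl⟩ : ∃ t, t ≤ 1 ∧ t = m22 := ⟨m22, r22, rfl⟩
  have e1 : m03 = s := by omega
  have e2 : m13 = s := by omega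
  have e3 : m12 = s := by omega
  have e4 : m23 = t := by omega
  rw [e1, e2, e3, e4] at *
  have f0 : m01 = 2 * (a - s) := by omega
  clear e1 e2 e3 e4
  interval_cases s <;> interval_cases t
  · obtain ⟨i, rfl⟩ : ∃ i, m10 = 2 * i := ⟨m10 / 2, by omega⟩
    obtain ⟨j, rfl⟩ : ∃ j, m11 = 2 * j := ⟨m11 / 2, by omega⟩
    obtain ⟨k, rfl⟩ : ∃ k, m20 = 2 * k := ⟨m20 / 2, by omega⟩
    obtain ⟨l, rfl⟩ : ∃ l, m21 = 2 * l := ⟨m21 / 2, by omega⟩
    refine ⟨cf i j c, 0, ?_⟩
    have h1 := case00 gq hv a b c d i j k l (by omega) (by omega) hc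
    rw [map_zero, zero_mul, add_zero, ← h1, f0, Nat.sub_zero]
    simp only [hX]
    ring
  · obtain ⟨i, rfl⟩ : ∃ i, m10 = 2 * i + 1 := ⟨m10 / 2, by omega⟩
    obtain ⟨j, rfl⟩ : ∃ j, m11 = 2 * j + 1 := ⟨m11 / 2, by omega⟩
    obtain ⟨k, rfl⟩ : ∃ k, m20 = 2 * k + 1 := ⟨m20 / 2, by omega⟩
    obtain ⟨l, rfl⟩ : ∃ l, m21 = 2 * l + 1 := ⟨m21 / 2, by omega⟩
    refine ⟨-cf i j c, 0, ?_⟩
    have h1 := case01 gq hv a b c d i j k l (by omega) (by omega)
    rw [map_zero, zero_mul, add_zero, ← h1, f0, Nat.sub_zero]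
    simp only [hX]
    ring
  · obtain ⟨i, rfl⟩ : ∃ i, m10 = 2 * i + 1 := ⟨m10 / 2, by omega⟩
    obtain ⟨j, rfl⟩ : ∃ j, m11 = 2 * j + 1 := ⟨m11 / 2, by omega⟩
    obtain ⟨k, rfl⟩ : ∃ k, m20 = 2 * k := ⟨m20 / 2, by omega⟩
    obtain ⟨l, rfl⟩ : ∃ l, m21 = 2 * l := ⟨m21 / 2, by omega⟩
    refine ⟨0, cf i j c, ?_⟩
    have h1 := case10 gq hv a b c d i j k l (by omega) (by omega) hc
    rw [map_zero, zero_mul, zero_add, ← h1, f0]
    simp only [hX]
    ring
  · obtain ⟨i, rfl⟩ : ∃ i, m10 = 2 * i := ⟨m10 / 2, by omega⟩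
    obtain ⟨j, rfl⟩ : ∃ j, m11 = 2 * j := ⟨m11 / 2, by omega⟩
    obtain ⟨k, rfl⟩ : ∃ k, m20 = 2 * k + 1 := ⟨m20 / 2, by omega⟩
    obtain ⟨l, rfl⟩ : ∃ l, m21 = 2 * l + 1 := ⟨m21 / 2, by omega⟩
    obtain ⟨c2, h1⟩ := case11 gq hv a b c d i j k l (by omega) (by omega) hb
    refine ⟨0, c2, ?_⟩
    rw [map_zero, zero_mul, zero_add, ← h1, f0]
    simp only [hX]
    ring

end Pool.Agent.SSF.Ev
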