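import Pool.Agent.SSF.Defs

/-! # SSF, module G1: the saturated extension and the ideals of points -/

set_option autoImplicit false

namespace Pool.Agent.SSF
namespace Cox

variable {k : Type} [CommRing k] (D : Cox k)

lemma φ_inj : Function.Injective D.φ := fun a b h => by
  rw [← D.ρφ a, ← D.ρφ b, h]

lemma ext_mono {I J : Ideal D.A} (h : I ≤ J) : D.ext I ≤ D.ext J := by
  apply Ideal.span_mono
  rintro x ⟨γ, hx, H⟩
  refine ⟨γ, hx, fun n y hy => ?_⟩
  obtain ⟨a, ha, e⟩ := H n y hy
  exact ⟨a, h ha, e⟩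

lemma ext_homogeneous (I : Ideal D.A) : (D.ext I).IsHomogeneous D.gR := by
  apply Ideal.homogeneous_span
  rintro x ⟨γ, hx, -⟩
  exact ⟨γ, hx⟩

/-- Every homogeneous component of an element of `ext I` has the defining property. -/
lemma proj_of_mem_ext {I : Ideal D.A} {z : D.R} (hz : z ∈ D.ext I) (γ : D.Γ) (n : ℕ) (y : D.R)
    (hy : y ∈ D.gR (n • D.h - γ)) :
    ∃ a ∈ I, D.φ a = (DirectSum.decompose D.gR z γ : D.R) * y := by
  revert γ n y
  refine Submodule.span_induction (p := fun z _ => ∀ (γ : D.Γ) (n : ℕ) (y : D.R),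
    y ∈ D.gR (n • D.h - γ) → ∃ a ∈ I, D.φ a = (DirectSum.decompose D.gR z γ : D.R) * y)
    ?_ ?_ ?_ ?_ hz
  · rintro x ⟨δ, hx, H⟩ γ n y hy
    by_cases hγ : δ = γ
    · subst hγ
      rw [DirectSum.decompose_of_mem_same _ hx]
      exact H n y hy
    · rw [DirectSum.decompose_of_mem_ne _ hx hγ]
      exact ⟨0, I.zero_mem, by simp⟩
  · intro γ n y hy
    exact ⟨0, I.zero_mem, by simp⟩
  · intro x x' _ _ h1 h2 γ n y hy
    obtain ⟨a, ha, e⟩ := h1 γ n y hy
    obtain ⟨b, hb, f⟩ := h2 γ n y hy
    refine ⟨a + b, I.add_mem ha hb, ?_⟩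
    rw [map_add, e, f, DirectSum.decompose_add, DirectSum.add_apply, Submodule.coe_add, add_mul]
  · intro r x _ h1
    induction r using DirectSum.Decomposition.inductionOn D.gR with
    | zero =>
      intro γ n y hy
      exact ⟨0, I.zero_mem, by simp⟩
    | @homogeneous i m =>
      intro γ n y hy
      have e1 : γ = i + (γ - i) := by abel
      have hm : (m : D.R) * y ∈ D.gR (n • D.h - (γ - i)) := by
        have := SetLike.mul_mem_graded m.2 hy
        have e2 : i + (n • D.h - γ) = n • D.h - (γ - i) := by abel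
        rwa [e2] at this
      obtain ⟨a, ha, e⟩ := h1 (γ - i) n _ hm
      refine ⟨a, ha, ?_⟩
      have e3 : (DirectSum.decompose D.gR ((m : D.R) • x) γ : D.R)
          = m * (DirectSum.decompose D.gR x (γ - i) : D.R) := by
        conv_lhs => rw [e1]
        rw [smul_eq_mul]
        exact DirectSum.coe_decompose_mul_add_of_left_mem D.gR m.2
      rw [e, e3]
      ring
    | add r s hr hs =>
      intro γ n y hy
      obtain ⟨a, ha, e⟩ := hr γ n y hy
      obtain ⟨b, hb, f⟩ := hs γ n y hy
      refine ⟨a + b, I.add_mem ha hb, ?_⟩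
      rw [map_add, e, f, add_smul, DirectSum.decompose_add, DirectSum.add_apply,
        Submodule.coe_add, add_mul]

theorem mem_ext_iff' {I : Ideal D.A} {γ : D.Γ} {x : D.R} (hx : x ∈ D.gR γ) :
    x ∈ D.ext I ↔ ∀ (n : ℕ), ∀ y ∈ D.gR (n • D.h - γ), ∃ a ∈ I, D.φ a = x * y := by
  constructor
  · intro h n y hy
    have := D.proj_of_mem_ext h γ n y hy
    rwa [DirectSum.decompose_of_mem_same _ hx] at this
  · intro h
    exact Ideal.subset_span ⟨γ, hx, h⟩

theorem mem_ext_iff {I : Ideal D.A} (_hI : I.IsHomogeneous D.gA) {γ : D.Γ} {x : D.R}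
    (hx : x ∈ D.gR γ) (_hD : D.Good) :
    x ∈ D.ext I ↔ ∀ (n : ℕ), ∀ y ∈ D.gR (n • D.h - γ), ∃ a ∈ I, D.φ a = x * y :=
  D.mem_ext_iff' hx

/-- `φ` commutes with the projections to the homogeneous components. -/
lemma decompose_φ (a : D.A) (n : ℕ) :
    (DirectSum.decompose D.gR (D.φ a) (n • D.h) : D.R)
      = D.φ (DirectSum.decompose D.gA a n : D.A) := by
  induction a using DirectSum.Decomposition.inductionOn D.gA with
  | zero => simp
  | @homogeneous i m =>
    by_cases hi : i = n
    · subst hi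
      rw [DirectSum.decompose_of_mem_same _ (D.φ_mem i _ m.2),
        DirectSum.decompose_of_mem_same _ m.2]
    · have h1 : i • D.h ≠ n • D.h := by
        intro h
        apply hi
        have := D.h_inj (i : ℤ) (n : ℤ) (by simpa using h)
        exact_mod_cast this
      rw [DirectSum.decompose_of_mem_ne _ (D.φ_mem i _ m.2) h1,
        DirectSum.decompose_of_mem_ne _ m.2 hi, map_zero]
  | add a b ha hb =>
    rw [map_add, DirectSum.decompose_add, DirectSum.add_apply, Submodule.coe_add, ha, hb,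
      DirectSum.decompose_add, DirectSum.add_apply, Submodule.coe_add, map_add]

/-- The extension of a homogeneous ideal contracts back to it. -/
theorem comap_ext (hD : D.Good) {I : Ideal D.A} (hI : I.IsHomogeneous D.gA) :
    (D.ext I).comap D.φ = I := by
  have key : ∀ (n : ℕ) (a : D.A), a ∈ D.gA n → (D.φ a ∈ D.ext I ↔ a ∈ I) := by
    intro n a ha
    rw [D.mem_ext_iff' (D.φ_mem n a ha)]
    constructor
    · intro h
      obtain ⟨b, hb, e⟩ := h n 1 (by
        rw [sub_self]; exact SetLike.one_mem_graded D.gR)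
      rw [mul_one] at e
      rwa [← D.φ_inj e]
    · intro h m y hy
      rcases le_or_gt n m with hnm | hnm
      · have e1 : m • D.h - n • D.h = (m - n) • D.h := by
          rw [sub_nsmul _ hnm, sub_eq_add_neg]
        rw [e1] at hy
        obtain ⟨c, _, rfl⟩ := D.φ_surj _ y hy
        exact ⟨a * c, I.mul_mem_right _ h, by rw [map_mul]⟩
      · have e1 : m • D.h - n • D.h = -((n - m) • D.h) := by
          rw [sub_nsmul _ hnm.le]; abel
        rw [e1, hD.neg0 _ (by omega)] at hy
        rw [Submodule.mem_bot] at hy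
        subst hy
        exact ⟨0, I.zero_mem, by simp⟩
  ext a
  rw [Ideal.mem_comap]
  constructor
  · intro h
    rw [hI.mem_iff]
    intro n
    have h2 := D.ext_homogeneous I (n • D.h) h
    rw [D.decompose_φ] at h2
    exact (key n _ (SetLike.coe_mem _)).1 h2
  · intro h
    have h1 : ∀ n, D.φ (DirectSum.decompose D.gA a n : D.A) ∈ D.ext I := fun n =>
      (key n _ (SetLike.coe_mem _)).2 (hI n h)
    classical
    rw [← DirectSum.sum_support_decompose D.gA a, map_sum]
    exact Ideal.sum_mem _ fun n _ => h1 n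

theorem comap_pt (hD : D.Good) (p : D.Pt) :
    (D.pt p).comap D.φ = p.asHomogeneousIdeal.toIdeal :=
  D.comap_ext hD p.asHomogeneousIdeal.isHomogeneous

theorem pt_le_pt (hD : D.Good) (p q : D.Pt) : D.pt p ≤ D.pt q ↔ p ≤ q := by
  constructor
  · intro h
    have h1 := Ideal.comap_mono (f := D.φ) h
    rw [D.comap_pt hD, D.comap_pt hD] at h1
    exact h1
  · intro h
    exact D.ext_mono h

theorem map_le_pt (hD : D.Good) (I : Ideal D.A) (p : D.Pt) :
    I.map D.φ ≤ D.pt p ↔ I ≤ p.asHomogeneousIdeal.toIdeal := by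
  rw [Ideal.map_le_iff_le_comap, D.comap_pt hD]

end Cox
end Pool.Agent.SSF
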