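import Pool.Agent.SSF.Emb
import Pool.Agent.SSF.G1

/-! # SSF: points, dimension and zero-free families under a change of the group of degrees -/

set_option autoImplicit false

namespace Pool.Agent.SSF

namespace Cox

namespace Emb

variable {k : Type} [CommRing k] {D D' : Cox k} (E : Emb D D')

theorem α_comp (a : D.A) (n : ℕ) :
    (DirectSum.decompose D'.gA (E.α a) n : D'.A) = E.α (DirectSum.decompose D.gA a n : D.A) := by
  induction a using DirectSum.Decomposition.inductionOn D.gA with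
  | zero => simp
  | @homogeneous i m =>
    have hm := (E.α_mem i _).1 m.2
    by_cases hi : i = n
    · subst hi
      rw [DirectSum.decompose_of_mem_same _ hm, DirectSum.decompose_of_mem_same _ m.2]
    · rw [DirectSum.decompose_of_mem_ne _ hm hi, DirectSum.decompose_of_mem_ne _ m.2 hi, map_zero]
  | add a b ha hb =>
    rw [map_add, DirectSum.decompose_add, DirectSum.add_apply, Submodule.coe_add, ha, hb,
      DirectSum.decompose_add, DirectSum.add_apply, Submodule.coe_add, map_add]

/-- The graded isomorphism `A → A'`. -/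
def αg : D.gA →+*ᵍ D'.gA where
  __ := (E.α : D.A →+* D'.A)
  map_mem := fun {n a} h => (E.α_mem n a).1 h

/-- The graded isomorphism `A' → A`. -/
def αs : D'.gA →+*ᵍ D.gA where
  __ := (E.α.symm : D'.A →+* D.A)
  map_mem := fun {n a} h => (E.α_mem n _).2 (by
    change E.α (E.α.symm a) ∈ D'.gA n
    rwa [AlgEquiv.apply_symm_apply])

/-- The point of `Proj A'` of a point of `Proj A`. -/
noncomputable def up (p : D.Pt) : D'.Pt where
  asHomogeneousIdeal := p.asHomogeneousIdeal.comap E.αs
  isPrime := by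
    have h : (p.asHomogeneousIdeal.comap E.αs).toIdeal =
      p.asHomogeneousIdeal.toIdeal.comap (E.α.symm : D'.A →+* D.A) := rfl
    rw [h]
    have := p.isPrime
    exact Ideal.comap_isPrime _ _
  not_irrelevant_le := by
    intro h
    refine p.not_irrelevant_le fun x hx => ?_
    have h1 : E.α x ∈ HomogeneousIdeal.irrelevant D'.gA := by
      rw [HomogeneousIdeal.mem_irrelevant_iff, GradedRing.proj_apply, E.α_comp]
      have h2 := (HomogeneousIdeal.mem_irrelevant_iff D.gA x).1 hx
      rw [GradedRing.proj_apply] at h2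
      rw [h2, map_zero]
    have h3 : E.α.symm (E.α x) ∈ p.asHomogeneousIdeal := h h1
    rwa [AlgEquiv.symm_apply_apply] at h3

theorem mem_up (p : D.Pt) (a : D'.A) :
    a ∈ (E.up p).asHomogeneousIdeal.toIdeal ↔ E.α.symm a ∈ p.asHomogeneousIdeal.toIdeal := Iff.rfl

theorem α_mem_up (p : D.Pt) (a : D.A) :
    E.α a ∈ (E.up p).asHomogeneousIdeal.toIdeal ↔ a ∈ p.asHomogeneousIdeal.toIdeal := by
  rw [mem_up, AlgEquiv.symm_apply_apply]

/-- The inverse. -/
noncomputable def down (p : D'.Pt) : D.Pt where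
  asHomogeneousIdeal := p.asHomogeneousIdeal.comap E.αg
  isPrime := by
    have h : (p.asHomogeneousIdeal.comap E.αg).toIdeal =
      p.asHomogeneousIdeal.toIdeal.comap (E.α : D.A →+* D'.A) := rfl
    rw [h]
    have := p.isPrime
    exact Ideal.comap_isPrime _ _
  not_irrelevant_le := by
    intro h
    refine p.not_irrelevant_le fun x hx => ?_
    have h1 : E.α.symm x ∈ HomogeneousIdeal.irrelevant D.gA := by
      rw [HomogeneousIdeal.mem_irrelevant_iff, GradedRing.proj_apply]
      apply E.α.injective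
      rw [← E.α_comp, AlgEquiv.apply_symm_apply, map_zero]
      have h2 := (HomogeneousIdeal.mem_irrelevant_iff D'.gA x).1 hx
      rwa [GradedRing.proj_apply] at h2
    have h3 : E.α (E.α.symm x) ∈ p.asHomogeneousIdeal := h h1
    rwa [AlgEquiv.apply_symm_apply] at h3

theorem up_down (p : D'.Pt) : E.up (E.down p) = p := by
  apply ProjectiveSpectrum.ext
  apply HomogeneousIdeal.toIdeal_injective
  ext a
  rw [mem_up]
  change E.α (E.α.symm a) ∈ p.asHomogeneousIdeal.toIdeal ↔ _
  rw [AlgEquiv.apply_symm_apply]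

theorem up_le_up (p q : D.Pt) : E.up p ≤ E.up q ↔ p ≤ q := by
  constructor
  · intro h a ha
    have h1 := h ((E.α_mem_up p a).2 ha)
    exact (E.α_mem_up q a).1 h1
  · intro h a ha
    exact h ha

/-- The bijection of the points. -/
noncomputable def ptIso : D.Pt ≃o D'.Pt where
  toFun := E.up
  invFun := E.down
  left_inv p := by
    apply ProjectiveSpectrum.ext
    apply HomogeneousIdeal.toIdeal_injective
    ext a
    change E.α.symm (E.α a) ∈ p.asHomogeneousIdeal.toIdeal ↔ _
    rw [AlgEquiv.symm_apply_apply]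
  right_inv := E.up_down
  map_rel_iff' := E.up_le_up _ _

theorem γ_sub (n : ℕ) (g : D.Γ) : n • D'.h - E.γ g = E.γ (n • D.h - g) := by
  rw [map_sub, map_nsmul, E.γ_h]

/-- Homogeneous elements of the ideal of a point. -/
theorem mem_pt_iff (p : D.Pt) {g : D.Γ} {x : D.R} (hx : x ∈ D.gR g) :
    x ∈ D.pt p ↔ E.ψ x ∈ D'.pt (E.up p) := by
  unfold pt
  rw [D.mem_ext_iff' hx, D'.mem_ext_iff' (E.ψ_mem g x hx)]
  constructor
  · intro h n y hy
    rw [E.γ_sub] at hy
    obtain ⟨z, hz, rfl⟩ := E.ψ_surj _ y hy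
    obtain ⟨a, ha, e⟩ := h n z hz
    refine ⟨E.α a, (E.α_mem_up p a).2 ha, ?_⟩
    rw [← E.comm, e, map_mul]
  · intro h n y hy
    obtain ⟨a, ha, e⟩ := h n (E.ψ y) (by rw [E.γ_sub]; exact E.ψ_mem _ _ hy)
    refine ⟨E.α.symm a, ha, E.ψ_inj ?_⟩
    rw [E.comm, AlgEquiv.apply_symm_apply, e, map_mul]

/-- The ideal of `A'` of an ideal of `A`. -/
abbrev mapI (I : Ideal D.A) : Ideal D'.A := I.map (E.α : D.A →+* D'.A)

theorem mem_mapI (I : Ideal D.A) (a : D'.A) : a ∈ E.mapI I ↔ E.α.symm a ∈ I := by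
  constructor
  · intro h
    obtain ⟨b, hb, rfl⟩ := (Ideal.mem_map_iff_of_surjective (E.α : D.A →+* D'.A)
      E.α.surjective).1 h
    change E.α.symm (E.α b) ∈ I
    rwa [AlgEquiv.symm_apply_apply]
  · intro h
    have h1 : E.α (E.α.symm a) ∈ E.mapI I := Ideal.mem_map_of_mem (E.α : D.A →+* D'.A) h
    rwa [AlgEquiv.apply_symm_apply] at h1

theorem mapI_homogeneous {I : Ideal D.A} (hI : I.IsHomogeneous D.gA) :
    (E.mapI I).IsHomogeneous D'.gA := by
  intro n a ha
  rw [mem_mapI] at ha ⊢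
  have h1 : (DirectSum.decompose D'.gA a n : D'.A) =
      E.α (DirectSum.decompose D.gA (E.α.symm a) n : D.A) := by
    rw [← E.α_comp, AlgEquiv.apply_symm_apply]
  rw [h1, AlgEquiv.symm_apply_apply]
  exact hI n ha

theorem mapI_le (I : Ideal D.A) (p : D.Pt) :
    E.mapI I ≤ (E.up p).asHomogeneousIdeal.toIdeal ↔ I ≤ p.asHomogeneousIdeal.toIdeal := by
  rw [Ideal.map_le_iff_le_comap]
  constructor
  · intro h a ha
    exact (E.α_mem_up p a).1 (h ha)
  · intro h a ha
    exact (E.α_mem_up p a).2 (h ha)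

/-- `J = I R` and `J' = I' R'` have the same points. -/
theorem on_iff (hD : D.Good) (hD' : D'.Good) (I : Ideal D.A) (p : D.Pt) :
    D'.On ((E.mapI I).map D'.φ) (E.up p) ↔ D.On (I.map D.φ) p := by
  unfold On
  rw [D.map_le_pt hD, D'.map_le_pt hD', mapI_le]

/-- Degree pieces of `I R`. -/
theorem mem_map_iff {I : Ideal D.A} (hI : I.IsHomogeneous D.gA) {g : D.Γ} {x : D.R}
    (hx : x ∈ D.gR g) : x ∈ I.map D.φ ↔ E.ψ x ∈ (E.mapI I).map D'.φ := by
  constructor
  · intro h
    have h1 : E.ψ x ∈ (I.map D.φ).map (E.ψ : D.R →+* D'.R) :=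
      Ideal.mem_map_of_mem (E.ψ : D.R →+* D'.R) h
    have h2 : (I.map D.φ).map (E.ψ : D.R →+* D'.R) ≤ (E.mapI I).map D'.φ := by
      rw [Ideal.map_le_iff_le_comap, Ideal.map_le_iff_le_comap]
      intro a ha
      change E.ψ (D.φ a) ∈ (E.mapI I).map D'.φ
      rw [E.comm]
      exact Ideal.mem_map_of_mem D'.φ (Ideal.mem_map_of_mem (E.α : D.A →+* D'.A) ha)
    exact h2 h1
  · intro h
    -- every component in `γ(Γ)` of an element of `I' R'` comes from `I R`
    have key : ∀ z : D'.R, z ∈ Ideal.span (D'.φ '' {a : D'.A | a ∈ E.mapI I ∧ ∃ n, a ∈ D'.gA n}) →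
        ∀ g : D.Γ, ∃ w ∈ I.map D.φ,
        E.ψ w = (DirectSum.decompose D'.gR z (E.γ g) : D'.R) := by
      intro z hz
      induction hz using Submodule.closure_induction with
      | zero => intro g; exact ⟨0, Ideal.zero_mem _, by simp⟩
      | add z z' _ _ h1 h2 =>
        intro g
        obtain ⟨w, hw, e⟩ := h1 g
        obtain ⟨w', hw', e'⟩ := h2 g
        exact ⟨w + w', Ideal.add_mem _ hw hw', by
          rw [map_add, e, e', DirectSum.decompose_add, DirectSum.add_apply, Submodule.coe_add]⟩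
      | smul_mem r z h1 =>
        obtain ⟨a, ⟨ha, n, hn⟩, rfl⟩ := h1
        intro g
        have hφ := D'.φ_mem n a hn
        have e1 : E.γ g = E.γ (g - n • D.h) + n • D'.h := by
          rw [map_sub, map_nsmul, E.γ_h, sub_add_cancel]
        have e2 : (DirectSum.decompose D'.gR (r • D'.φ a) (E.γ g) : D'.R) =
            (DirectSum.decompose D'.gR r (E.γ (g - n • D.h)) : D'.R) * D'.φ a := by
          rw [smul_eq_mul, e1]
          exact DirectSum.coe_decompose_mul_add_of_right_mem D'.gR hφ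
        obtain ⟨s, -, hs⟩ := E.ψ_surj (g - n • D.h)
          (DirectSum.decompose D'.gR r (E.γ (g - n • D.h)) : D'.R) (SetLike.coe_mem _)
        refine ⟨s * D.φ (E.α.symm a), Ideal.mul_mem_left _ _
          (Ideal.mem_map_of_mem D.φ ((E.mem_mapI I a).1 ha)), ?_⟩
        rw [e2, map_mul, hs, E.comm, AlgEquiv.apply_symm_apply]
    have h3 : (E.mapI I).map D'.φ ≤
        Ideal.span (D'.φ '' {a : D'.A | a ∈ E.mapI I ∧ ∃ n, a ∈ D'.gA n}) := by
      rw [Ideal.map_le_iff_le_comap]
      intro a ha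
      rw [Ideal.mem_comap]
      classical
      rw [← DirectSum.sum_support_decompose D'.gA a, map_sum]
      refine Ideal.sum_mem _ fun n _ => Ideal.subset_span ⟨_, ⟨?_, n, SetLike.coe_mem _⟩, rfl⟩
      exact E.mapI_homogeneous hI n ha
    obtain ⟨w, hw, e⟩ := key _ (h3 h) g
    rw [DirectSum.decompose_of_mem_same _ (E.ψ_mem g x hx)] at e
    rwa [← E.ψ_inj e]

end Emb

end Cox

end Pool.Agent.SSF
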