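import Mathlib

/-!
Project SSF (MP_5928ba): the quotient of a graded algebra by a homogeneous ideal is graded.
-/

namespace Pool.Agent.SSF

set_option linter.unusedSectionVars false

open DirectSum

variable {ι k A : Type*} [DecidableEq ι] [AddMonoid ι] [CommRing k] [CommRing A] [Algebra k A]
  (𝒜 : ι → Submodule k A) [GradedAlgebra 𝒜] (I : Ideal A)

/-- The image grading on the quotient. -/
def quotGr (i : ι) : Submodule k (A ⧸ I) := (𝒜 i).map (Ideal.Quotient.mkₐ k I).toLinearMap

theorem mem_quotGr {i : ι} {x : A ⧸ I} :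
    x ∈ quotGr 𝒜 I i ↔ ∃ a ∈ 𝒜 i, Ideal.Quotient.mk I a = x := Iff.rfl

instance quotGr_graded : SetLike.GradedMonoid (quotGr 𝒜 I) where
  one_mem := ⟨1, SetLike.one_mem_graded 𝒜, map_one (Ideal.Quotient.mk I)⟩
  mul_mem := by
    rintro i j _ _ ⟨a, ha, rfl⟩ ⟨b, hb, rfl⟩
    exact ⟨a * b, SetLike.mul_mem_graded ha hb, map_mul (Ideal.Quotient.mk I) _ _⟩

/-- The decomposition map before passing to the quotient. -/
noncomputable def preDec : A →ₗ[k] ⨁ i, quotGr 𝒜 I i :=
  (DirectSum.toModule k ι (⨁ i, quotGr 𝒜 I i) fun i =>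
    (DirectSum.lof k ι (fun i => quotGr 𝒜 I i) i).comp
      (((Ideal.Quotient.mkₐ k I).toLinearMap.restrict (p := 𝒜 i) (q := quotGr 𝒜 I i)
        fun a ha => ⟨a, ha, rfl⟩))).comp
  (DirectSum.decomposeLinearEquiv 𝒜).toLinearMap

theorem preDec_of_mem {i : ι} {a : A} (ha : a ∈ 𝒜 i) :
    preDec 𝒜 I a = DirectSum.of (fun i => quotGr 𝒜 I i) i ⟨Ideal.Quotient.mk I a, a, ha, rfl⟩ := by
  unfold preDec
  simp only [LinearMap.comp_apply, LinearEquiv.coe_coe, DirectSum.decomposeLinearEquiv_apply]
  rw [DirectSum.decompose_of_mem 𝒜 ha]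
  erw [DirectSum.toModule_lof]
  rfl

theorem preDec_eq_zero (hI : I.IsHomogeneous 𝒜) {a : A} (ha : a ∈ I) : preDec 𝒜 I a = 0 := by
  classical
  rw [← DirectSum.sum_support_decompose 𝒜 a, map_sum]
  refine Finset.sum_eq_zero fun i _ => ?_
  rw [preDec_of_mem 𝒜 I (SetLike.coe_mem _)]
  have h : Ideal.Quotient.mk I (DirectSum.decompose 𝒜 a i : A) = 0 :=
    Ideal.Quotient.eq_zero_iff_mem.2 (hI i ha)
  have h2 : (⟨Ideal.Quotient.mk I (DirectSum.decompose 𝒜 a i : A), _, SetLike.coe_mem _, rfl⟩ :
      quotGr 𝒜 I i) = 0 := Subtype.ext h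
  rw [h2, map_zero]

/-- The quotient of a graded algebra by a homogeneous ideal is graded by the images. -/
@[reducible] noncomputable def quotGradedAlgebra (hI : I.IsHomogeneous 𝒜) :
    GradedAlgebra (quotGr 𝒜 I) where
  toGradedMonoid := quotGr_graded 𝒜 I
  toDecomposition :=
    { decompose' := fun x => (I.restrictScalars k).liftQ (preDec 𝒜 I)
        (fun a ha => LinearMap.mem_ker.2 (preDec_eq_zero 𝒜 I hI ha)) x
      left_inv := by
        intro x
        obtain ⟨a, rfl⟩ := Ideal.Quotient.mk_surjective x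
        change DirectSum.coeAddMonoidHom (quotGr 𝒜 I) (preDec 𝒜 I a) = Ideal.Quotient.mk I a
        induction a using DirectSum.Decomposition.inductionOn 𝒜 with
        | zero => simp
        | @homogeneous i m =>
          rw [preDec_of_mem 𝒜 I m.2]
          simp
        | add a b ha hb => rw [map_add, map_add, ha, hb, map_add]
      right_inv := by
        intro x
        induction x using DirectSum.induction_on with
        | zero => exact map_zero _
        | of i x =>
          obtain ⟨_, a, ha, rfl⟩ := x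
          rw [DirectSum.coeAddMonoidHom_of]
          exact preDec_of_mem 𝒜 I ha
        | add x y hx hy =>
          rw [map_add]
          exact (map_add _ _ _).trans (congrArg₂ (· + ·) hx hy) }

theorem quotGr_decompose [GradedAlgebra (quotGr 𝒜 I)] (a : A) (i : ι) :
    (DirectSum.decompose (quotGr 𝒜 I) (Ideal.Quotient.mk I a) i : A ⧸ I) =
      Ideal.Quotient.mk I (DirectSum.decompose 𝒜 a i : A) := by
  classical
  induction a using DirectSum.Decomposition.inductionOn 𝒜 with
  | zero => simp
  | @homogeneous j m =>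
    have h1 : Ideal.Quotient.mk I (m : A) ∈ quotGr 𝒜 I j := ⟨m, m.2, rfl⟩
    rw [DirectSum.decompose_of_mem _ h1, DirectSum.decompose_of_mem 𝒜 m.2]
    by_cases hij : j = i
    · subst hij; rw [DirectSum.of_eq_same, DirectSum.of_eq_same]
    · rw [DirectSum.of_eq_of_ne _ _ _ (Ne.symm hij), DirectSum.of_eq_of_ne _ _ _ (Ne.symm hij)]
      simp
  | add a b ha hb =>
    rw [map_add, DirectSum.decompose_add, DirectSum.decompose_add, DirectSum.add_apply,
      DirectSum.add_apply, Submodule.coe_add, Submodule.coe_add, map_add, ha, hb]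

end Pool.Agent.SSF
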