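import Pool.Agent.SSF.RegDim
import Pool.Agent.SSF.QuotGr
import Pool.Agent.SSF.Symb

/-!
# SSF, S12: evaluation of the symbol on a regular sequence
-/

set_option autoImplicit false

namespace Pool.Agent.SSF

open Pool.Agent.Helper88.SSF Module

namespace Cox

namespace Ev

variable {K : Type} [Field K] {D : Cox K}

/-! ### the torsion of one section -/

/-- Two sections of the same degree whose operators differ by an endomorphism `θ`. -/
theorem D_single {J : Ideal D.R} (fJ : D.FF J) (S T : D.Sec) (hST : S.1 = T.1) (n : D.Γ)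
    (hT : (D.sys J fJ).Good n [T]) (θ : D.Pc J n →ₗ[K] D.Pc J n)
    (hθ : ∀ x ∈ D.gR (n - T.1), ∀ z z' : D.Pc J n,
      (z : D.R ⧸ J) = Ideal.Quotient.mk J (val T * x) →
      (z' : D.R ⧸ J) = Ideal.Quotient.mk J (val S * x) → θ z = z')
    (u : Kˣ) (hu : (u : K) = LinearMap.det θ) :
    (D.sys J fJ).D n [S] = (D.sys J fJ).D n [T] * (sg K u)⁻¹ := by
  have hfin : Module.Finite K (D.Pc J n) := fJ.fin n
  have hdet : LinearMap.det θ ≠ 0 := by
    rw [← hu]
    exact u.ne_zero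
  have h' : n - T.1 + S.1 = n := by rw [hST, sub_add_cancel]
  obtain ⟨e, he⟩ := (D.sys J fJ).cone_op_cast S (a := n) (b := n - T.1) (b' := n - S.1) h'
    (sub_add_cancel n S.1)
  let b := qb D.gR J fJ n
  let θe : D.Pc J n ≃ₗ[K] D.Pc J n := LinearMap.equivOfDetNeZero θ hdet
  have hθe : (θe : D.Pc J n →ₗ[K] D.Pc J n) = θ := by
    ext x
    rfl
  let Θ : PC.Iso (PC.ofModule b) (PC.ofModule b) := PC.Iso.ofEquiv b b θe
  have hΘ : Θ.hom = PC.Hom.ofLin b b θ := by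
    rw [PC.Iso.ofEquiv_hom, hθe]
  have hcomp : (D.sys J fJ).op S (n - T.1) n h' =
      PC.Hom.comp (A := (D.sys J fJ).A (n - T.1)) (B := PC.ofModule b) (C := PC.ofModule b)
        Θ.hom ((D.sys J fJ).op T (n - T.1) n (sub_add_cancel n T.1)) := by
    rw [hΘ]
    refine PC.Hom.ext (LinearMap.ext ?_) (LinearMap.ext fun x => rfl)
    rintro ⟨_, y, hy, rfl⟩
    exact (hθ y hy _ _ rfl rfl).symm
  have c1 : PC.Contractible (PC.cone ((D.sys J fJ).op T (n - T.1) n (sub_add_cancel n T.1))) := hT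
  have c2 : PC.Contractible (PC.cone Θ.hom) := PC.coneIso_contractible Θ
  have t1 : PC.tors (PC.cone ((D.sys J fJ).op S (n - T.1) n h')) =
      PC.tors (PC.cone ((D.sys J fJ).op T (n - T.1) n (sub_add_cancel n T.1))) *
        PC.tors (PC.cone Θ.hom) := by
    rw [hcomp]
    exact PC.comp_tors _ _ c1 c2
  have c3 : PC.Contractible (PC.cone ((D.sys J fJ).op S (n - T.1) n h')) := by
    rw [hcomp]
    exact PC.comp_contractible _ _ c1 c2
  have t2 : PC.tors (PC.cone Θ.hom) = (sg K u)⁻¹ := by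
    rw [PC.coneIso_tors, PC.Iso.ofEquiv_ratio, sdet_self]
    have h3 : LinearEquiv.det θe = u := by
      apply Units.ext
      rw [hu, LinearEquiv.coe_det, hθe]
    rw [h3]
  have t3 := e.tors c3
  rw [he, mul_one, t1, t2] at t3
  exact t3

/-! ### two regular sections -/

theorem sys_D_congr {J J' : Ideal D.R} (h : J = J') (fJ : D.FF J) (fJ' : D.FF J') (n : D.Γ)
    (l : List D.Sec) : (D.sys J fJ).D n l = (D.sys J' fJ').D n l := by
  subst h
  rfl

theorem sys_Good_congr {J J' : Ideal D.R} (h : J = J') (fJ : D.FF J) (fJ' : D.FF J') (n : D.Γ)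
    (l : List D.Sec) : (D.sys J fJ).Good n l ↔ (D.sys J' fJ').Good n l := by
  subst h
  rfl

theorem D_perm_good {J : Ideal D.R} (fJ : D.FF J) (X Y S : D.Sec) (n : D.Γ)
    (hg : (D.sys J fJ).Good n [X, Y, S]) :
    (D.sys J fJ).D n [S, X, Y] = (D.sys J fJ).D n [X, Y, S] :=
  GSys.D_perm _ (List.perm_append_singleton S [X, Y]) n hg

/-- The quotient of two torsions for a regular sequence `X, Y`. -/
theorem D_two (hD : D.Good) {J : Ideal D.R} (hJ : J.IsHomogeneous D.gR) (X Y S T : D.Sec)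
    (hST : S.1 = T.1)
    (rX : D.High fun γ => ∀ x ∈ D.gR γ, val X * x ∈ J → x ∈ J)
    (rY : D.High fun γ => ∀ x ∈ D.gR γ, val Y * x ∈ J ⊔ Ideal.span {val X} →
      x ∈ J ⊔ Ideal.span {val X})
    (fM : D.FF (J ⊔ Ideal.span {val X, val Y})) :
    D.High fun n => (D.sys _ fM).Good n [S] → (D.sys _ fM).Good n [T] →
      (D.sys J (ff_field hD J)).D n [S, X, Y] / (D.sys J (ff_field hD J)).D n [T, X, Y] =
        (D.sys _ fM).D n [S] / (D.sys _ fM).D n [T] := by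
  have hJX : (J ⊔ Ideal.span {val X}).IsHomogeneous D.gR := sup_hom hJ X.2.2
  have hM : J ⊔ Ideal.span {val X} ⊔ Ideal.span {val Y} = J ⊔ Ideal.span {val X, val Y} := by
    rw [sup_assoc, ← Ideal.span_union]
    rfl
  obtain ⟨ρ1, h1⟩ := sys_nzd_all hJ X (ff_field hD J) (ff_field hD (J ⊔ Ideal.span {val X}))
  obtain ⟨ρ2, h2⟩ := sys_nzd_all hJX Y (ff_field hD (J ⊔ Ideal.span {val X}))
    (ff_field hD (J ⊔ Ideal.span {val X} ⊔ Ideal.span {val Y}))
  have u1 : D.High fun γ => ∀ x ∈ D.gR (γ - X.1), x * val X ∈ J → x ∈ J := by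
    have := HighP.sub (high_iff.1 rX) X.1
    exact HighP.mono (fun γ hγ x hx hh => hγ x hx (by rwa [mul_comm])) this
  have u2 : D.High fun γ => ∀ x ∈ D.gR (γ - Y.1), x * val Y ∈ J ⊔ Ideal.span {val X} →
      x ∈ J ⊔ Ideal.span {val X} := by
    have := HighP.sub (high_iff.1 rY) Y.1
    exact HighP.mono (fun γ hγ x hx hh => hγ x hx (by rwa [mul_comm])) this
  have a1 := HighP.allSub (high_iff.1 u1) ([Y, S].map fun s : D.Sec => s.1)
  have a2 := HighP.allSub (high_iff.1 u2) ([S].map fun s : D.Sec => s.1)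
  intro γ
  obtain ⟨N, hN⟩ := HighP.and a1 a2 γ
  refine ⟨N, fun c hc => ?_⟩
  obtain ⟨n1, n2⟩ := hN c hc
  generalize γ + c • D.h = n at n1 n2 ⊢
  intro hS hT
  have eYT : ([Y, T].map fun s : D.Sec => s.1) = [Y, S].map fun s : D.Sec => s.1 := by
    simp only [List.map_cons, List.map_nil, hST]
  have eT : ([T].map fun s : D.Sec => s.1) = [S].map fun s : D.Sec => s.1 := by
    simp only [List.map_cons, List.map_nil, hST]
  have hS' := (sys_Good_congr hM (ff_field hD _) fM n [S]).2 hS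
  have hT' := (sys_Good_congr hM (ff_field hD _) fM n [T]).2 hT
  have s2 := h2 _ (fun γ hγ => hγ) n [S] n2
  have t2 := h2 _ (fun γ hγ => hγ) n [T] (eT ▸ n2)
  have s1 := h1 _ (fun γ hγ => hγ) n [Y, S] n1
  have t1 := h1 _ (fun γ hγ => hγ) n [Y, T] (eYT ▸ n1)
  have gS := s2.1.2 hS'
  have gT := t2.1.2 hT'
  rw [D_perm_good _ X Y S n (s1.1.2 gS), D_perm_good _ X Y T n (t1.1.2 gT), s1.2 gS, t1.2 gT,
    s2.2 hS', t2.2 hT', eYT, eT, mul_div_mul_right_eq_div, mul_div_mul_right_eq_div,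
    sys_D_congr hM (ff_field hD _) fM n [S], sys_D_congr hM (ff_field hD _) fM n [T]]

end Ev

/-- S12: evaluation of the symbol on a regular sequence `X, Y`: the class of the determinant of
the endomorphism `s ^ 2 / t ^ 2` of the piece of high degree of `R / (J + X + Y)`. -/
theorem symb_eval {K : Type} [Field K] {D : Cox K} (hD : D.Good) (hK : Roots K)
    {J : Ideal D.R} (hJ : J.IsHomogeneous D.gR) (hd : D.DimLE J 2) {f a b δ : D.Γ}
    (hf : 2 • f = 0) {X Y s t : D.R} (hX : X ∈ D.gR a) (hY : Y ∈ D.gR b)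
    (hs : s ∈ D.gR (δ + f)) (ht : t ∈ D.gR δ)
    (rX : D.High fun γ => ∀ x ∈ D.gR γ, X * x ∈ J → x ∈ J)
    (rY : D.High fun γ => ∀ x ∈ D.gR γ, Y * x ∈ J ⊔ Ideal.span {X} → x ∈ J ⊔ Ideal.span {X})
    (zs : D.ZF (J ⊔ Ideal.span {X, Y}) [s]) (zt : D.ZF (J ⊔ Ideal.span {X, Y}) [t])
    (γ : D.Γ) :
    ∃ N : ℕ, ∀ n ≥ N, ∀ θ : quotGr D.gR (J ⊔ Ideal.span {X, Y}) (γ + n • D.h) →ₗ[K]
        quotGr D.gR (J ⊔ Ideal.span {X, Y}) (γ + n • D.h),
      (∀ x ∈ D.gR (γ + n • D.h - 2 • δ),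
        ∀ z z' : quotGr D.gR (J ⊔ Ideal.span {X, Y}) (γ + n • D.h),
        (z : D.R ⧸ (J ⊔ Ideal.span {X, Y})) = Ideal.Quotient.mk _ (t ^ 2 * x) →
        (z' : D.R ⧸ (J ⊔ Ideal.span {X, Y})) = Ideal.Quotient.mk _ (s ^ 2 * x) → θ z = z') →
      ∀ u : Kˣ, (u : K) = LinearMap.det θ → D.symb J f a b = cls u := by
  set M : Ideal D.R := J ⊔ Ideal.span {X, Y} with hM
  let Xs : D.Sec := mkSec X hX
  let Ys : D.Sec := mkSec Y hY
  let ss : D.Sec := mkSec s hs
  let ts : D.Sec := mkSec t ht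
  have hM' : J ⊔ Ideal.span {X} ⊔ Ideal.span {Y} = M := by
    rw [hM, sup_assoc, ← Ideal.span_union]
    rfl
  have hMh : M.IsHomogeneous D.gR := by
    rw [← hM']
    exact sup_hom (sup_hom hJ hX) hY
  have hST : (ss * ss).1 = (ts * ts).1 := by
    show δ + f + (δ + f) = δ + δ
    have h1 : δ + f + (δ + f) = δ + δ + 2 • f := by
      rw [two_nsmul]
      abel
    rw [h1, hf, add_zero]
  -- dimensions
  have d0 : D.DLT J 3 := dlt_iff.2 hd
  have d1 : D.DLT (J ⊔ Ideal.span {X}) 2 := Ev.dlt_of_reg hD hJ hX rX d0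
  have d2 : D.DLT (J ⊔ Ideal.span {X} ⊔ Ideal.span {Y}) 1 :=
    Ev.dlt_of_reg hD (sup_hom hJ hX) hY rY d1
  have m2 : D.dm J 2 [Xs] := dm_cons_iff.2 (dm_nil_iff.2 d1)
  have m1 : D.dm J 1 [Xs, Ys] := dm_cons_iff.2 (dm_cons_iff.2 (dm_nil_iff.2 d2))
  have ms : D.dm M 0 [ss] := dm_zero_iff_ZF.2 zs
  have mt : D.dm M 0 [ts] := dm_zero_iff_ZF.2 zt
  have m0 : ∀ w : D.Sec, D.dm M 0 [w] → D.dm J 0 [w, Xs, Ys] := by
    intro w hw
    have h1 : D.dm J 0 [Xs, Ys, w] := by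
      refine dm_cons_iff.2 (dm_cons_iff.2 ?_)
      show D.dm (J ⊔ Ideal.span {X} ⊔ Ideal.span {Y}) 0 [w]
      rw [hM']
      exact hw
    exact dm_perm (List.perm_append_singleton w [Xs, Ys]) h1
  -- contractibility
  have gs := sys_good hD hMh (ff_field hD M) (dm_mul hD ms ms)
  have gt := sys_good hD hMh (ff_field hD M) (dm_mul hD mt mt)
  have two := Ev.D_two hD hJ Xs Ys (ss * ss) (ts * ts) hST rX rY (ff_field hD M)
  have main := symb_data hD hK hJ hd hf a b (X := Xs) (Y := Ys) (s := ss) (t := ts) (m := 0)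
    (m' := 0) (by show a = a + (2 * 0) • D.h; rw [mul_zero, zero_smul, add_zero])
    (by show b = b + (2 * 0) • D.h; rw [mul_zero, zero_smul, add_zero]) (add_comm δ f)
    m2 m1 (m0 ss ms) (m0 ts mt)
  obtain ⟨N, hN⟩ := HighP.and (high_iff.1 main) (HighP.and (high_iff.1 two)
    (HighP.and (high_iff.1 gs) (high_iff.1 gt))) γ
  refine ⟨N, fun n hn θ hθ u hu => ?_⟩
  obtain ⟨k1, k2, k3, k4⟩ := hN n hn
  have e1 := Ev.D_single (ff_field hD M) (ss * ss) (ts * ts) hST (γ + n • D.h) k4 θ (by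
    intro x hx z z' hz hz'
    refine hθ x ?_ z z' ?_ ?_
    · rw [two_nsmul]
      exact hx
    · rw [hz, sq]
      rfl
    · rw [hz', sq]
      rfl) u hu
  have e2 := k2 k3 k4
  rw [e1, mul_div_cancel_left] at e2
  have e3 := k1 u⁻¹ (by rw [e2, map_inv])
  rw [e3]
  refine QuotientGroup.eq.2 ⟨u, ?_⟩
  rw [inv_inv]
  exact pow_two u

end Cox
end Pool.Agent.SSF
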