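import Pool.Agent.SSF.XHyp

/-!
# SSF: arithmetic of the fields over `F17`
-/

set_option autoImplicit false

namespace Pool.Agent.SSF

theorem seventeen_eq_zero (K : Type) [Field K] [Algebra F17 K] : (17 : K) = 0 := by
  have h : (17 : F17) = 0 := by decide
  rw [← map_ofNat (algebraMap F17 K) 17, h, map_zero]

/-- Over `F17` the fourth roots of unity are squares. -/
theorem isSquare_of_pow_four (K : Type) [Field K] [Algebra F17 K] (x : K) (hx : x ^ 4 = 1) :
    IsSquare x := by
  have h17 := seventeen_eq_zero K
  have h1 : (x - 1) * ((x + 1) * ((x - 4) * (x + 4))) = 0 := by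
    linear_combination hx - (x ^ 2 - 1) * h17
  rcases mul_eq_zero.1 h1 with h | h
  · exact ⟨1, by linear_combination h⟩
  rcases mul_eq_zero.1 h with h | h
  · exact ⟨4, by linear_combination h - h17⟩
  rcases mul_eq_zero.1 h with h | h
  · exact ⟨2, by linear_combination h⟩
  · exact ⟨8, by linear_combination h - 4 * h17⟩

/-- The class `3` of the example. -/
def n3 : F17ˣ := ⟨3, 6, by decide, by decide⟩

theorem n3_coe (L : Type) [Field L] [Algebra F17 L] :
    algebraMap F17 L (n3 : F17) = 3 := map_ofNat (algebraMap F17 L) 3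

/-- `3` is not a square modulo `17`. -/
theorem n3_not_isSquare : ¬ IsSquare (n3 : F17) := by
  rintro ⟨r, hr⟩
  revert r
  decide

end Pool.Agent.SSF
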