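import Pool.Agent.SSF.V4a
import Pool.Agent.SSF.XNB
import Pool.Agent.SSF.XGood

/-!
# SSF, layer V: the vanishing for the split Cox datum over a field
-/

set_option autoImplicit false

namespace Pool.Agent.SSF

open Cox

variable {K : Type} [Field K] {s θ : K}

/-- Two coordinates of one row have no common zero. -/
theorem DS_nb (h : Hyp K s) (i j k : Fin 4) (hjk : j ≠ k) (p : (DS K s).Pt) :
    (xi K s (i, j) : (DS K s).R) ∉ (DS K s).pt p ∨
      (xi K s (i, k) : (DS K s).R) ∉ (DS K s).pt p := by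
  have hD := DS_good K s h
  by_contra hcon
  push Not at hcon
  obtain ⟨h1, h2⟩ := hcon
  obtain ⟨n, hn, a, ha, hap⟩ := G2.exists_notMem (DS K s) p
  apply hap
  rw [← G2.φ_mem_pt (DS K s) hD p a]
  refine gr_le_of_two K s h ((DS K s).pt p) ?_ i j k hjk h1 h2 n hn _ ((DS K s).φ_mem n a ha)
  rintro x y ⟨γ, hx⟩ ⟨δ, hy⟩ hxy
  exact pt_prime (DS K s) hD p hx hy hxy

theorem deg_h3 : e (2, 0) + e (2, 1) + e (2, 2) + e (2, 3) =
    2 • Fc 2 + (e (1, 0) - e (1, 1)) := by decide

theorem deg_h4 : e (3, 0) + e (3, 1) + e (3, 2) + e (3, 3) =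
    2 • Fc 3 + ((e (0, 2) - e (0, 0)) + (e (1, 2) - e (1, 0))) := by decide

theorem deg_e0 : e (0, 0) + e (0, 2) = e (0, 1) + e (0, 3) := by decide

/-- The split Cox datum over a field with a fourth root of `3` has the data for the
vanishing. -/
noncomputable def splitDS (h : Hyp K s) (hθ : θ ^ 2 = s) : Split (DS K s) where
  X := fun i j => xi K s (i, j)
  e := fun i j => e (i, j)
  X_mem := fun i j => xi_mem K s (i, j)
  two := fun i j k => (two_e (i, j)).trans (two_e (i, k)).symm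
  ε₃ := e (1, 0) - e (1, 1)
  ε₄ := (e (0, 2) - e (0, 0)) + (e (1, 2) - e (1, 0))
  s₃ := Fc 2
  s₄ := Fc 3
  hε₃ := rfl
  hε₄ := rfl
  h3 := deg_h3
  h4 := deg_h4
  e0 := deg_e0
  s := s
  θ := θ
  h17 := h.1
  hs := h.2
  hθ := hθ
  r2 := by
    have := xi2_sq K s 0
    simp only [ca, cb, Matrix.cons_val_zero, map_one, one_mul, map_neg] at this
    rw [sub_eq_add_neg, ← neg_mul]
    exact this
  r3 := by
    have := xi3_sq K s 0
    simp only [cc, cd, Matrix.cons_val_zero, map_one, one_mul] at this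
    exact this
  nb := fun i j k hjk p => DS_nb h i j k hjk p

/-- The degrees of the functional. -/
def degTau : Lam := e (3, 0) - e (3, 2)
/-- see `degTau` -/
def degW : Lam := e (2, 0) + e (2, 2) + e (1, 0)
/-- see `degTau` -/
def degEps : Lam := (e (1, 0) - e (1, 1)) + ((e (0, 2) - e (0, 0)) + (e (1, 2) - e (1, 0)))

/-- The vanishing for the split form. -/
theorem DS_van (h : Hyp K s) (hθ : θ ^ 2 = s) (hK : Roots K) {I : Ideal (DS K s).A}
    (hI : I.IsHomogeneous (DS K s).gA) (hd : (DS K s).DimLE (I.map (DS K s).φ) 2) :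
    (DS K s).symb (I.map (DS K s).φ) degTau degW degEps = 1 :=
  (splitDS h hθ).van (DS_good K s h) hK hI hd

end Pool.Agent.SSF
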