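import Pool.Agent.SSF.XCox

/-!
Project SSF (MP_5928ba), module X6: descent from `F2` to `F17`.
-/

set_option autoImplicit false

open scoped TensorProduct

namespace Pool.Agent.SSF

open MvPolynomial DirectSum

namespace XDesc

/-- The square root of `3` in `R F2 sF`. -/
noncomputable def SS : R F2 sF := algebraMap F2 (R F2 sF) sF

theorem h17 : (17 : R F2 sF) = 0 := by
  have h1 : (17 : F17) = 0 := by decide
  have h2 : (17 : F2) = 0 := by
    have : (17 : F2) = algebraMap F17 F2 17 := (map_ofNat _ 17).symm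
    rw [this, h1, map_zero]
  have h3 : (17 : R F2 sF) = algebraMap F2 (R F2 sF) 17 := (map_ofNat _ 17).symm
  rw [h3, h2, map_zero]

theorem SS_sq : SS * SS = 3 := by
  unfold SS
  rw [← map_mul, ← sq, sF_sq, map_ofNat]

theorem sigR_alg (a : F2) : sigR (algebraMap F2 (R F2 sF) a) =
    algebraMap F2 (R F2 sF) (starF a) := conjR_algebraMap starF starF_sF a

theorem sigR_SS : sigR SS = -SS := by
  unfold SS
  rw [sigR_alg, starF_sF, map_neg]

theorem sigR_sigR (x : R F2 sF) : sigR (sigR x) = x :=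
  conjR_conjR starF starF_sF starF_starF x

theorem sigR_mem {γ : Lam} (hγ : γ ∈ Lsig) {x : R F2 sF} (hx : x ∈ gr F2 sF γ) :
    sigR x ∈ gr F2 sF γ := by
  have h := conjR_mem starF starF_sF hx
  have h2 : sL γ = γ := hγ
  rwa [h2] at h

theorem mem_RF_of {γ : Lam} (hγ : γ ∈ Lsig) {x : R F2 sF} (hx : x ∈ gr F2 sF γ)
    (h : sigR x = x) : x ∈ RF := by
  refine ⟨h, fun δ hδ => ?_⟩
  rw [decompose_of_mem _ hx, of_eq_of_ne]
  · rfl
  · rintro rfl
    exact hδ hγ

theorem alg_mul_mem (a : F2) {γ : Lam} {x : R F2 sF} (hx : x ∈ gr F2 sF γ) :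
    algebraMap F2 (R F2 sF) a * x ∈ gr F2 sF γ := by
  rw [← Algebra.smul_def]
  exact Submodule.smul_mem _ _ hx

theorem nine_mul_mem {γ : Lam} {x : R F2 sF} (hx : x ∈ gr F2 sF γ) :
    9 * x ∈ gr F2 sF γ := by
  have := alg_mul_mem 9 hx
  rwa [map_ofNat] at this

end XDesc

open XDesc

theorem desc (γ : Lam) (hγ : γ ∈ Lsig) (x : R F2 sF) (hx : x ∈ gr F2 sF γ) :
    ∃ u ∈ RF, ∃ v ∈ RF, u ∈ gr F2 sF γ ∧ v ∈ gr F2 sF γ ∧
      x = u + algebraMap F2 (R F2 sF) sF * v := by
  have hs := sigR_mem hγ hx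
  have hu : 9 * (x + sigR x) ∈ gr F2 sF γ := nine_mul_mem (Submodule.add_mem _ hx hs)
  have hv : SS * (3 * (x - sigR x)) ∈ gr F2 sF γ := by
    refine alg_mul_mem _ ?_
    have := alg_mul_mem 3 (Submodule.sub_mem _ hx hs)
    rwa [map_ofNat] at this
  refine ⟨_, mem_RF_of hγ hu ?_, _, mem_RF_of hγ hv ?_, hu, hv, ?_⟩
  · rw [map_mul, map_add, sigR_sigR, map_ofNat, add_comm]
  · rw [map_mul, map_mul, map_sub, sigR_sigR, map_ofNat, sigR_SS]
    ring
  · change x = 9 * (x + sigR x) + SS * (SS * (3 * (x - sigR x)))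
    linear_combination (-x) * h17 - 3 * (x - sigR x) * SS_sq

theorem desc_unique (u v : R F2 sF) (hu : u ∈ RF) (hv : v ∈ RF)
    (h : u + algebraMap F2 (R F2 sF) sF * v = 0) : u = 0 ∧ v = 0 := by
  change u + SS * v = 0 at h
  have h1 := congrArg sigR h
  rw [map_add, map_mul, map_zero, hu.1, hv.1, sigR_SS] at h1
  constructor
  · linear_combination 9 * h + 9 * h1 - u * h17
  · linear_combination 3 * SS * h - 3 * SS * h1 - 6 * v * SS_sq - v * h17

theorem Fc_mem (i : Fin 4) : Fc i ∈ Lsig := by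
  change sL (Fc i) = Fc i
  revert i
  decide

theorem xi_sq_mem_gr (v : V) : xi F2 sF v ^ 2 ∈ gr F2 sF (Fc v.1) := by
  have h := SetLike.pow_mem_graded 2 (xi_mem F2 sF v)
  rwa [two_e] at h

namespace XDesc

theorem sq_integral {γ : Lam} (hγ : γ ∈ Lsig) {x : R F2 sF} (hx : x ∈ gr F2 sF γ) :
    IsIntegral RF x := by
  have hs := sigR_mem hγ hx
  have h1 : x + sigR x ∈ RF := mem_RF_of hγ (Submodule.add_mem _ hx hs) (by
    rw [map_add, sigR_sigR, add_comm])
  have h2 : x * sigR x ∈ RF := mem_RF_of (Lsig.add_mem hγ hγ)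
    (SetLike.mul_mem_graded hx hs) (by rw [map_mul, sigR_sigR, mul_comm])
  refine ⟨Polynomial.X ^ 2 - Polynomial.C (⟨_, h1⟩ : RF) * Polynomial.X +
    Polynomial.C (⟨_, h2⟩ : RF), ?_, ?_⟩
  · monicity!
  · simp only [Polynomial.eval₂_add, Polynomial.eval₂_sub, Polynomial.eval₂_mul,
      Polynomial.eval₂_C, Polynomial.eval₂_X, Polynomial.eval₂_pow]
    change x ^ 2 - (x + sigR x) * x + x * sigR x = 0
    ring

theorem xi_integral (v : V) : IsIntegral RF (xi F2 sF v) := by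
  have h := sq_integral (Fc_mem v.1) (xi_sq_mem_gr v)
  exact h.of_pow (by norm_num)

theorem SS_integral : IsIntegral RF SS := by
  refine sq_integral (Lsig.zero_mem) ?_
  exact SetLike.algebraMap_mem_graded (gr F2 sF) _

end XDesc

namespace XDesc

theorem isIntegral_all (x : R F2 sF) : IsIntegral RF x := by
  obtain ⟨p, rfl⟩ := Ideal.Quotient.mk_surjective x
  induction p using MvPolynomial.induction_on with
  | C a =>
    exact sq_integral (Lsig.zero_mem) (SetLike.algebraMap_mem_graded (gr F2 sF) a)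
  | add p q hp hq => rw [map_add]; exact hp.add hq
  | mul_X p v hp => rw [map_mul]; exact hp.mul (xi_integral v)

theorem finiteType17 : Algebra.FiniteType F17 (R F2 sF) := by
  have h1 : Algebra.FiniteType F17 F2 := inferInstance
  have h2 : Algebra.FiniteType F2 (R F2 sF) := inferInstance
  exact h1.trans h2

end XDesc

/-- `R F2 sF` is integral (even finite) over `RF`. -/
theorem RF_finite : Module.Finite RF (R F2 sF) := by
  have h1 : Algebra.IsIntegral RF (R F2 sF) := ⟨isIntegral_all⟩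
  have h2 : Algebra.FiniteType F17 (R F2 sF) := finiteType17
  have h3 : Algebra.FiniteType RF (R F2 sF) :=
    Algebra.FiniteType.of_restrictScalars_finiteType F17 RF (R F2 sF)
  exact Algebra.IsIntegral.finite (R := RF) (A := R F2 sF)

theorem RF_finiteType : Algebra.FiniteType F17 RF := by
  have h1 := RF_finite
  exact ⟨fg_of_fg_of_fg F17 RF (R F2 sF) finiteType17.out h1.fg_top Subtype.val_injective⟩

namespace XDesc

/-- Elements `A + s B` with `A`, `B` in the additive subgroup `T` of the form. -/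
def tw (T : AddSubgroup RF) (x : R F2 sF) : Prop :=
  ∃ A ∈ T, ∃ B ∈ T, x = (A : R F2 sF) + SS * (B : R F2 sF)

theorem tw_zero (T : AddSubgroup RF) : tw T 0 :=
  ⟨0, T.zero_mem, 0, T.zero_mem, by simp⟩

theorem tw_add {T : AddSubgroup RF} {x y : R F2 sF} (hx : tw T x) (hy : tw T y) :
    tw T (x + y) := by
  obtain ⟨A, hA, B, hB, rfl⟩ := hx
  obtain ⟨A', hA', B', hB', rfl⟩ := hy
  refine ⟨A + A', T.add_mem hA hA', B + B', T.add_mem hB hB', ?_⟩
  rw [Subalgebra.coe_add, Subalgebra.coe_add]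
  ring

theorem tw_of_mem {T : AddSubgroup RF} {x : RF} (h : tw T (x : R F2 sF)) : x ∈ T := by
  obtain ⟨A, hA, B, hB, e⟩ := h
  have h1 := desc_unique ((A : R F2 sF) - x) B (RF.sub_mem A.2 x.2) B.2 (by
    change (A : R F2 sF) - x + SS * B = 0
    rw [e]; ring)
  have h2 : A = x := Subtype.ext (sub_eq_zero.1 h1.1)
  exact h2 ▸ hA

theorem three_mem {T : AddSubgroup RF} {x : RF} (h : x ∈ T) : 3 * x ∈ T := by
  have h1 : 3 * x = (3 : ℕ) • x := by rw [nsmul_eq_mul]; norm_num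
  rw [h1]
  exact T.nsmul_mem h 3

/-- Products of three descended elements. -/
theorem tw_mul3 {T : AddSubgroup RF} {x y z : R F2 sF} (P Q W : RF → Prop)
    (hx : ∃ u v : RF, P u ∧ P v ∧ x = (u : R F2 sF) + SS * (v : R F2 sF))
    (hy : ∃ u v : RF, Q u ∧ Q v ∧ y = (u : R F2 sF) + SS * (v : R F2 sF))
    (hz : ∃ u v : RF, W u ∧ W v ∧ z = (u : R F2 sF) + SS * (v : R F2 sF))
    (hT : ∀ a b c : RF, P a → Q b → W c → a * (b * c) ∈ T) : tw T (x * (y * z)) := by
  obtain ⟨u, v, hu, hv, rfl⟩ := hx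
  obtain ⟨u', v', hu', hv', rfl⟩ := hy
  obtain ⟨u'', v'', hu'', hv'', rfl⟩ := hz
  refine ⟨u * (u' * u'') + 3 * (u * (v' * v'')) + 3 * (v * (u' * v'')) + 3 * (v * (v' * u'')),
    ?_, u * (u' * v'') + u * (v' * u'') + v * (u' * u'') + 3 * (v * (v' * v'')), ?_, ?_⟩
  · exact T.add_mem (T.add_mem (T.add_mem (hT _ _ _ hu hu' hu'')
      (three_mem (hT _ _ _ hu hv' hv''))) (three_mem (hT _ _ _ hv hu' hv'')))
      (three_mem (hT _ _ _ hv hv' hu''))
  · exact T.add_mem (T.add_mem (T.add_mem (hT _ _ _ hu hu' hv'') (hT _ _ _ hu hv' hu''))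
      (hT _ _ _ hv hu' hu'')) (three_mem (hT _ _ _ hv hv' hv''))
  · have h3 : ((3 : RF) : R F2 sF) = 3 := map_ofNat RF.val 3
    push_cast [h3]
    linear_combination ((u : R F2 sF) * v' * v'' + v * u' * v'' + v * v' * u'' +
      SS * (v * v' * v'')) * SS_sq

theorem desc' {γ : Lsig} {x : R F2 sF} (hx : x ∈ gr F2 sF γ.1) :
    ∃ u v : RF, u ∈ grF γ ∧ v ∈ grF γ ∧ x = (u : R F2 sF) + SS * (v : R F2 sF) := by
  obtain ⟨u, hu, v, hv, h1, h2, h3⟩ := desc γ.1 γ.2 x hx
  exact ⟨⟨u, hu⟩, ⟨v, hv⟩, h1, h2, h3⟩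

/-- Descent of `bpf`. -/
theorem bpfF_of (γ : Lsig)
    (H : ∃ m N : ℕ, ∀ n : ℕ, N ≤ n → ∀ a ∈ gr F2 sF (n • hh),
      a ∈ Ideal.span {z | ∃ x ∈ gr F2 sF (γ.1 + m • hh), ∃ y ∈ gr F2 sF (m • hh - γ.1),
        z = x * y}) :
    ∃ m N : ℕ, ∀ n : ℕ, N ≤ n → ∀ a ∈ grF (n • hF),
      a ∈ Ideal.span {z | ∃ x ∈ grF (γ + m • hF), ∃ y ∈ grF (m • hF - γ), z = x * y} := by
  obtain ⟨m, N, H⟩ := H
  refine ⟨m, max N (2 * m), fun n hn a ha => ?_⟩
  have h1 := H n (le_trans (le_max_left _ _) hn) (a : R F2 sF) ha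
  have hn2 : 2 * m ≤ n := le_trans (le_max_right _ _) hn
  set I := Ideal.span {z : RF | ∃ x ∈ grF (γ + m • hF), ∃ y ∈ grF (m • hF - γ), z = x * y}
  let T : AddSubgroup RF := I.toAddSubgroup
  have key : ∀ x ∈ Ideal.span {z : R F2 sF | ∃ x ∈ gr F2 sF (γ.1 + m • hh),
      ∃ y ∈ gr F2 sF (m • hh - γ.1), z = x * y},
      ∀ r : R F2 sF, tw T (decompose (gr F2 sF) (r * x) (n • hh) : R F2 sF) := by
    intro x hx
    refine Submodule.span_induction (p := fun x _ => ∀ r : R F2 sF,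
      tw T (decompose (gr F2 sF) (r * x) (n • hh) : R F2 sF)) ?_ ?_ ?_ ?_ hx
    · rintro _ ⟨x, hx, y, hy, rfl⟩ r
      have hxy : x * y ∈ gr F2 sF ((2 * m) • hh) := by
        have := SetLike.mul_mem_graded hx hy
        have e1 : γ.1 + m • hh + (m • hh - γ.1) = (2 * m) • hh := by
          rw [two_mul, add_nsmul]; abel
        rwa [e1] at this
      have e2 : n • hh = (n - 2 * m) • hh + (2 * m) • hh := by
        rw [← add_nsmul]; congr 1; omega
      rw [e2, DirectSum.coe_decompose_mul_add_of_right_mem (gr F2 sF) hxy]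
      refine tw_mul3 (fun c => c ∈ grF ((n - 2 * m) • hF)) (fun c => c ∈ grF (γ + m • hF))
        (fun c => c ∈ grF (m • hF - γ)) (desc' (γ := (n - 2 * m) • hF) (SetLike.coe_mem _))
        (desc' (γ := γ + m • hF) hx) (desc' (γ := m • hF - γ) hy) ?_
      intro a b c _ hb hc
      exact I.mul_mem_left _ (Ideal.subset_span ⟨b, hb, c, hc, rfl⟩)
    · intro r
      rw [mul_zero, decompose_zero]
      exact tw_zero _
    · intro x y _ _ h1 h2 r
      rw [mul_add, decompose_add, DirectSum.add_apply, Submodule.coe_add]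
      exact tw_add (h1 r) (h2 r)
    · intro c x _ h1 r
      rw [smul_eq_mul, ← mul_assoc]
      exact h1 (r * c)
  have h2 := key a h1 1
  rw [one_mul, decompose_of_mem_same _ (by exact ha)] at h2
  exact tw_of_mem h2

/-- Descent of generation in degree one. -/
theorem gen_oneF_of (n : ℕ)
    (H : ∀ x ∈ gr F2 sF ((n + 1) • hh),
      x ∈ Submodule.span F2 {z | ∃ a ∈ gr F2 sF hh, ∃ b ∈ gr F2 sF (n • hh), z = a * b})
    (x : RF) (hx : x ∈ grF ((n + 1) • hF)) :
    x ∈ Submodule.span F17 {z | ∃ a ∈ grF hF, ∃ b ∈ grF (n • hF), z = a * b} := by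
  have h1 := H (x : R F2 sF) hx
  set I := Submodule.span F17 {z : RF | ∃ a ∈ grF hF, ∃ b ∈ grF (n • hF), z = a * b}
  let T : AddSubgroup RF := I.toAddSubgroup
  have key : tw T (x : R F2 sF) := by
    refine Submodule.span_induction (p := fun x _ => tw T x) ?_ ?_ ?_ ?_ h1
    · rintro _ ⟨a, ha, b, hb, rfl⟩
      have := tw_mul3 (T := T) (x := 1) (y := a) (z := b) (fun c => c = 1 ∨ c = 0)
        (fun c => c ∈ grF hF) (fun c => c ∈ grF (n • hF)) ⟨1, 0, Or.inl rfl, Or.inr rfl, by simp⟩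
        (desc' (γ := hF) ha) (desc' (γ := n • hF) hb) ?_
      · rwa [one_mul] at this
      · rintro a b c (rfl | rfl) hb hc
        · rw [one_mul]
          exact Submodule.subset_span ⟨b, hb, c, hc, rfl⟩
        · rw [zero_mul]
          exact T.zero_mem
    · exact tw_zero _
    · intro x y _ _ hx hy
      exact tw_add hx hy
    · rintro c x _ ⟨A, hA, B, hB, rfl⟩
      refine ⟨c.re • A + (3 * c.im) • B, I.add_mem (I.smul_mem _ hA) (I.smul_mem _ hB),
        c.im • A + c.re • B, I.add_mem (I.smul_mem _ hA) (I.smul_mem _ hB), ?_⟩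
      have hc : algebraMap F2 (R F2 sF) c = algebraMap F17 (R F2 sF) c.re +
          SS * algebraMap F17 (R F2 sF) c.im := by
        unfold SS
        rw [IsScalarTower.algebraMap_apply F17 F2 (R F2 sF),
          IsScalarTower.algebraMap_apply F17 F2 (R F2 sF), ← map_mul, ← map_add]
        congr 1
        refine QuadraticAlgebra.ext ?_ ?_ <;> simp [sF]
      have hs : ∀ (r : F17) (A : RF), ((r • A : RF) : R F2 sF) =
          algebraMap F17 (R F2 sF) r * (A : R F2 sF) := by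
        intro r A
        rw [Algebra.smul_def]
        rfl
      have h1 : c • ((A : R F2 sF) + SS * (B : R F2 sF)) =
          algebraMap F2 (R F2 sF) c * ((A : R F2 sF) + SS * (B : R F2 sF)) :=
        Algebra.smul_def (R := F2) (A := R F2 sF) c _
      rw [h1, hc, Subalgebra.coe_add, Subalgebra.coe_add, hs, hs, hs, hs, map_mul, map_ofNat]
      linear_combination (algebraMap F17 (R F2 sF) c.im * (B : R F2 sF)) * SS_sq
  exact tw_of_mem key

end XDesc

end Pool.Agent.SSF
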