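import Pool.Agent.SSF.Emb
import Pool.Agent.SSF.XBasis
import Pool.Agent.SSF.XDesc

/-!
Project SSF (MP_5928ba), X11: the embedding of the base changed `F17`-form into the split form.
-/

set_option autoImplicit false

open scoped TensorProduct

namespace Pool.Agent.SSF

open MvPolynomial DirectSum

section gen

variable {k : Type} [CommRing k] (D : Cox k) {R' Γ' : Type} [CommRing R'] [Algebra k R']
  [AddCommGroup Γ'] [DecidableEq Γ'] (gR' : Γ' → Submodule k R') [GradedAlgebra gR'] {h' : Γ'}
  (hinj' : ∀ n m : ℤ, n • h' = m • h' → n = m) (γ : D.Γ →+ Γ') (γi : Function.Injective γ)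
  (γh : γ D.h = h') (ψ : D.R →ₐ[k] R') (ψi : Function.Injective ψ)
  (ψm : ∀ g x, x ∈ D.gR g → ψ x ∈ gR' (γ g))
  (ψs : ∀ g, ∀ y ∈ gR' (γ g), ∃ x ∈ D.gR g, ψ x = y)

include γh ψm in
theorem embAux_mem (a : D.A) : (ψ.comp D.φ) a ∈ ver gR' h' := by
  induction a using DirectSum.Decomposition.inductionOn D.gA with
  | zero => rw [map_zero]; exact zero_mem _
  | @homogeneous n a =>
    refine mem_ver_of_mem gR' h' (n := n) ?_
    have h1 := ψm _ _ (D.φ_mem n a.1 a.2)
    rw [map_nsmul, γh] at h1
    exact h1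
  | add a b ha hb => rw [map_add]; exact add_mem ha hb

theorem embAux_phi_inj : Function.Injective D.φ := Function.LeftInverse.injective D.ρφ

/-- The map of the `A`-parts. -/
noncomputable def embAux : D.A →ₐ[k] ver gR' h' :=
  (ψ.comp D.φ).codRestrict (ver gR' h') (embAux_mem D gR' γ γh ψ ψm)

theorem embAux_coe (a : D.A) : (embAux D gR' γ γh ψ ψm a : R') = ψ (D.φ a) := rfl

include ψi in
theorem embAux_inj : Function.Injective (embAux D gR' γ γh ψ ψm) := by
  intro a b hab
  have h1 : ψ (D.φ a) = ψ (D.φ b) := congrArg Subtype.val hab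
  exact embAux_phi_inj D (ψi h1)

include ψs in
theorem embAux_surj : Function.Surjective (embAux D gR' γ γh ψ ψm) := by
  classical
  intro x
  have key : ∀ g, (DirectSum.decompose gR' (x : R') g : R') ∈ (ψ.comp D.φ).range := by
    intro g
    by_cases hg : g ∈ Set.range (mulH h')
    · obtain ⟨n, rfl⟩ := hg
      have hm : (DirectSum.decompose gR' (x : R') (mulH h' n) : R') ∈ gR' (γ (n • D.h)) := by
        rw [map_nsmul, γh]
        exact (DirectSum.decompose gR' (x : R') (mulH h' n)).2
      obtain ⟨y, hy, hy'⟩ := ψs _ _ hm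
      obtain ⟨a, _, ha'⟩ := D.φ_surj n y hy
      exact ⟨a, by rw [← hy', ← ha']; rfl⟩
    · rw [x.2 g hg]
      exact zero_mem _
  have h2 : (x : R') ∈ (ψ.comp D.φ).range := by
    rw [← DirectSum.sum_support_decompose gR' (x : R')]
    exact sum_mem fun g _ => key g
  obtain ⟨a, ha⟩ := h2
  exact ⟨a, Subtype.ext ha⟩

/-- A degree preserving injection which is onto in the degrees of `D` is an embedding. -/
noncomputable def mkEmb : Cox.Emb D (mkCox gR' hinj') where
  α := AlgEquiv.ofBijective (embAux D gR' γ γh ψ ψm)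
    ⟨embAux_inj D gR' γ γh ψ ψi ψm, embAux_surj D gR' γ γh ψ ψm ψs⟩
  α_mem := by
    intro n a
    constructor
    · intro ha
      have h1 := ψm _ _ (D.φ_mem n a ha)
      rw [map_nsmul, γh] at h1
      exact h1
    · intro ha
      have h1 : ψ (D.φ a) ∈ gR' (γ (n • D.h)) := by
        rw [map_nsmul, γh]
        exact ha
      obtain ⟨x, hx, hx'⟩ := ψs _ _ h1
      obtain ⟨b, hb, hb'⟩ := D.φ_surj n x hx
      have h2 : b = a := embAux_phi_inj D (hb'.trans (ψi hx'))
      exact h2 ▸ hb
  γ := γ
  γ_inj := γi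
  γ_h := γh
  ψ := ψ
  ψ_inj := ψi
  ψ_mem := ψm
  ψ_surj := ψs
  comm := fun _ => rfl

end gen

section mapR

variable {k k' : Type*} [CommRing k] [CommRing k'] {s : k} {s' : k'}

theorem mapR_mem (f : k →+* k') (h : f s = s') {γ : Lam} {x : R k s} (hx : x ∈ gr k s γ) :
    mapR f h x ∈ gr k' s' γ := by
  obtain ⟨p, hp, rfl⟩ := hx
  refine ⟨MvPolynomial.map f p, ?_, rfl⟩
  have hp' : IsWeightedHomogeneous e p γ := hp
  change IsWeightedHomogeneous e (MvPolynomial.map f p) γ
  intro d hd
  refine hp' ?_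
  intro h0
  apply hd
  rw [coeff_map, h0, map_zero]

theorem gr_le_span_mapR (f : k →+* k') (h : f s = s') (γ : Lam) :
    gr k' s' γ ≤ Submodule.span k' (mapR f h '' (gr k s γ : Set (R k s))) := by
  rintro _ ⟨p, hp, rfl⟩
  have hp' : IsWeightedHomogeneous e p γ := hp
  change Ideal.Quotient.mk (relI k' s') p ∈ _
  rw [p.as_sum, map_sum]
  refine sum_mem fun d hd => ?_
  have hw : Finsupp.weight e d = γ := hp' (mem_support_iff.1 hd)
  have h1 : Ideal.Quotient.mk (relI k' s') (monomial d (coeff d p)) =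
      coeff d p • mapR f h (Ideal.Quotient.mk (relI k s) (monomial d 1)) := by
    change _ = coeff d p • Ideal.Quotient.mk (relI k' s') (MvPolynomial.map f (monomial d 1))
    rw [map_monomial, map_one]
    change _ = Ideal.Quotient.mk (relI k' s') (coeff d p • monomial d 1)
    rw [smul_monomial, smul_eq_mul, mul_one]
  rw [h1]
  refine Submodule.smul_mem _ _ (Submodule.subset_span ⟨_, ?_, rfl⟩)
  exact ⟨monomial d 1, isWeightedHomogeneous_monomial _ _ _ hw, rfl⟩

end mapR

section emb

variable (K : Type) [CommRing K]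

section

variable [Algebra F17 K] [Algebra F2 K] {s : K} (h : algebraMap F2 K sF = s)

/-- `mapR` over `F2` as an algebra map. -/
noncomputable def mapRA : R F2 sF →ₐ[F2] R K s :=
  { (mapR (algebraMap F2 K) h : R F2 sF →+* R K s) with
    commutes' := by
      intro a
      change Ideal.Quotient.mk _ (MvPolynomial.map (algebraMap F2 K) (C a)) = _
      rw [MvPolynomial.map_C]
      rfl }

omit [Algebra F17 K] in
theorem mapRA_apply (x : R F2 sF) : mapRA K h x = mapR (algebraMap F2 K) h x := rfl

variable [IsScalarTower F17 F2 K]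

/-- The map of the `R`-parts. -/
noncomputable def psiK : K ⊗[F17] RF →ₐ[K] R K s :=
  Algebra.TensorProduct.lift (Algebra.ofId K _) (((mapRA K h).restrictScalars F17).comp RF.val)
    (fun _ _ => Commute.all _ _)

omit [IsScalarTower F17 F2 K] in
theorem psiK_tmul (c : K) (x : RF) :
    psiK K h (c ⊗ₜ x) = c • mapR (algebraMap F2 K) h (x : R F2 sF) := by
  rw [psiK, Algebra.TensorProduct.lift_tmul]
  exact (Algebra.smul_def (A := R K s) c _).symm

end

theorem RF_linearIndependent {ι : Type*} (v : ι → RF) (hv : LinearIndependent F17 v) :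
    LinearIndependent F2 (fun i => (v i : R F2 sF)) := by
  rw [linearIndependent_iff'] at hv ⊢
  intro t g hg i hi
  have h1 : ∀ a : F2, a = algebraMap F17 F2 a.re + sF * algebraMap F17 F2 a.im := by
    intro a
    refine QuadraticAlgebra.ext ?_ ?_ <;> simp [sF]
  have h2 : ((∑ j ∈ t, (g j).re • v j : RF) : R F2 sF) +
      algebraMap F2 (R F2 sF) sF * ((∑ j ∈ t, (g j).im • v j : RF) : R F2 sF) = 0 := by
    rw [← hg, AddSubmonoidClass.coe_finsetSum, AddSubmonoidClass.coe_finsetSum, Finset.mul_sum,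
      ← Finset.sum_add_distrib]
    refine Finset.sum_congr rfl fun j _ => ?_
    conv_rhs => rw [h1 (g j)]
    have h7 : ∀ (c : F17) (x : R F2 sF), algebraMap F17 F2 c • x = c • x := fun c x =>
      algebraMap_smul F2 c x
    have h8 : ∀ x : R F2 sF, algebraMap F2 (R F2 sF) sF * x = sF • x := fun x =>
      (Algebra.smul_def (A := R F2 sF) sF x).symm
    rw [add_smul, mul_smul, h7, h7, ← h8]
    rfl
  obtain ⟨h3, h4⟩ := desc_unique _ _ (SetLike.coe_mem _) (SetLike.coe_mem _) h2
  have h5 := hv t (fun j => (g j).re) (Subtype.ext h3) i hi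
  have h6 := hv t (fun j => (g j).im) (Subtype.ext h4) i hi
  exact QuadraticAlgebra.ext h5 h6

section

variable [Algebra F17 K] [Algebra F2 K] {s : K} (h : algebraMap F2 K sF = s)
  [IsScalarTower F17 F2 K]

theorem psiK_injective : Function.Injective (psiK K h) := by
  classical
  subst h
  let b := Module.Basis.ofVectorSpace F17 RF
  have h1 := RF_linearIndependent b b.linearIndependent
  have h2 : LinearIndependent K (fun i => (1 : K) ⊗ₜ[F2] (b i : R F2 sF)) :=
    Module.Flat.linearIndependent_one_tmul h1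
  have h3 := (mapR_bijective F2 sF K).1
  have h4 : LinearIndependent K (fun i => psiK K rfl (1 ⊗ₜ b i)) := by
    rw [linearIndependent_iff'] at h2 ⊢
    intro t g hg
    refine h2 t g (h3 ?_)
    rw [map_zero, map_sum, ← hg]
    refine Finset.sum_congr rfl fun i _ => ?_
    rw [psiK_tmul, one_smul, map_smul, Algebra.TensorProduct.lift_tmul, map_one, one_mul]
    rfl
  let c := Algebra.TensorProduct.basis K b
  have h5 : LinearIndependent K (fun i => (psiK K rfl).toLinearMap (c i)) := by
    convert h4 using 2 with i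
    simp [c, Algebra.TensorProduct.basis_apply]
  rw [injective_iff_map_eq_zero]
  intro x hx
  have h6 : (psiK K rfl).toLinearMap (∑ i ∈ (c.repr x).support, c.repr x i • c i) = 0 := by
    have := c.linearCombination_repr x
    rw [Finsupp.linearCombination_apply, Finsupp.sum] at this
    rw [this]
    exact hx
  rw [map_sum] at h6
  simp only [map_smul] at h6
  rw [linearIndependent_iff'] at h5
  have h7 := h5 _ _ h6
  have h8 : c.repr x = 0 := by
    ext i
    by_cases hi : i ∈ (c.repr x).support
    · exact h7 i hi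
    · simpa using hi
  exact c.repr.map_eq_zero_iff.1 h8

theorem psiK_mem (g : Lsig) (x : K ⊗[F17] RF) (hx : x ∈ (grF g).baseChange K) :
    psiK K h x ∈ gr K s (g : Lam) := by
  rw [Submodule.baseChange_eq_span] at hx
  induction hx using Submodule.span_induction with
  | mem x hx =>
    obtain ⟨y, hy, rfl⟩ := hx
    change psiK K h (1 ⊗ₜ y) ∈ _
    rw [psiK_tmul, one_smul]
    exact mapR_mem _ _ hy
  | zero => rw [map_zero]; exact zero_mem _
  | add x y _ _ hx hy => rw [map_add]; exact add_mem hx hy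
  | smul b x _ hx => rw [map_smul]; exact Submodule.smul_mem _ _ hx

theorem psiK_surj (g : Lsig) (y : R K s) (hy : y ∈ gr K s (g : Lam)) :
    ∃ x ∈ (grF g).baseChange K, psiK K h x = y := by
  have h1 := gr_le_span_mapR (s := sF) (algebraMap F2 K) h (g : Lam) hy
  have h2 : Submodule.span K (mapR (algebraMap F2 K) h '' (gr F2 sF (g : Lam) : Set (R F2 sF))) ≤
      ((grF g).baseChange K).map (psiK K h).toLinearMap := by
    rw [Submodule.span_le]
    rintro _ ⟨z, hz, rfl⟩
    obtain ⟨u, hu, v, hv, hu', hv', h3⟩ := desc g g.2 z hz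
    refine ⟨1 ⊗ₜ ⟨u, hu⟩ + algebraMap F2 K sF ⊗ₜ ⟨v, hv⟩, add_mem
      (Submodule.tmul_mem_baseChange_of_mem _ hu') (Submodule.tmul_mem_baseChange_of_mem _ hv'), ?_⟩
    change psiK K h (1 ⊗ₜ ⟨u, hu⟩ + algebraMap F2 K sF ⊗ₜ ⟨v, hv⟩) = _
    rw [h3, map_add, psiK_tmul, psiK_tmul, one_smul, map_add, map_mul]
    congr 1
    rw [← mapRA_apply K h (algebraMap F2 (R F2 sF) sF), (mapRA K h).commutes sF]
    exact (Algebra.smul_def (A := R K s) (algebraMap F2 K sF) _)
  obtain ⟨x, hx, hx'⟩ := h2 h1
  exact ⟨x, hx, hx'⟩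

/-- The embedding of the base change of the form into the split form. -/
noncomputable def embK' : Cox.Emb (DF.bc K) (DS K s) :=
  mkEmb (DF.bc K) (gr K s) hh_inj Lsig.subtype Subtype.val_injective rfl
    (psiK K h) (psiK_injective K h) (fun g x hx => psiK_mem K h g x hx)
    (fun g y hy => psiK_surj K h g y hy)

theorem embK'_γ (g : Lsig) : (embK' K h).γ g = (g : Lam) := rfl

theorem embK'_ψ (c : K) (x : RF) :
    (embK' K h).ψ (c ⊗ₜ[F17] x : K ⊗[F17] RF) = c • mapR (algebraMap F2 K) h (x : R F2 sF) :=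
  psiK_tmul K h c x

end

section

variable [Algebra F17 K] [Algebra F2 K] [IsScalarTower F17 F2 K]

/-- The embedding of the base change of the form into the split form, for `K` over `F2`. -/
noncomputable def embK : Cox.Emb (DF.bc K) (DS K (algebraMap F2 K sF)) := embK' K rfl

theorem embK_γ (g : Lsig) : (embK K).γ g = (g : Lam) := rfl

theorem embK_ψ (x : RF) :
    (embK K).ψ ((1 : K) ⊗ₜ[F17] x : K ⊗[F17] RF) = mapR (algebraMap F2 K) rfl (x : R F2 sF) :=
  (embK'_ψ K rfl 1 x).trans (one_smul K _)

end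

section root

variable [Algebra F17 K] (s : K) (hs : s ^ 2 = 3)

/-- The map `F2 → K` which sends the root of `3` to `s`. -/
noncomputable def liftS : F2 →ₐ[F17] K :=
  QuadraticAlgebra.lift ⟨s, by
    rw [← sq, hs, zero_smul, add_zero, Algebra.smul_def, mul_one, map_ofNat]⟩

theorem liftS_sF : liftS K s hs sF = s := by
  simp [liftS, sF]

/-- The structure of an algebra over `F2` given by a square root of `3`. -/
@[reducible] noncomputable def algS : Algebra F2 K := (liftS K s hs).toRingHom.toAlgebra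

theorem towS : @IsScalarTower F17 F2 K _ (algS K s hs).toSMul _ :=
  letI := algS K s hs
  IsScalarTower.of_algebraMap_eq' (liftS K s hs).comp_algebraMap.symm

/-- The embedding of the base change of the form into the split form given by a square root of
`3`. -/
noncomputable def embS : Cox.Emb (DF.bc K) (DS K s) :=
  letI := algS K s hs
  haveI := towS K s hs
  embK' K (liftS_sF K s hs)

theorem embS_γ (g : Lsig) : (embS K s hs).γ g = (g : Lam) := rfl

theorem embS_ψ (c : K) (x : RF) :
    (embS K s hs).ψ (c ⊗ₜ[F17] x : K ⊗[F17] RF) =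
      c • mapR (liftS K s hs : F2 →+* K) (liftS_sF K s hs) (x : R F2 sF) :=
  letI := algS K s hs
  haveI := towS K s hs
  embK'_ψ K (liftS_sF K s hs) c x

theorem embS_ψ_one (x : RF) :
    (embS K s hs).ψ ((1 : K) ⊗ₜ[F17] x : K ⊗[F17] RF) =
      mapR (liftS K s hs : F2 →+* K) (liftS_sF K s hs) (x : R F2 sF) :=
  (embS_ψ K s hs 1 x).trans (one_smul K _)

end root

end emb

end Pool.Agent.SSF
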