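import Pool.Agent.SSF.V4
import Pool.Agent.SSF.V5
import Pool.Agent.SSF.Roots17
import Pool.Agent.SSF.XEmb
import Pool.Agent.SSF.XGood
import Pool.Agent.SSF.AsmB

/-!
# SSF: the datum of the example
-/

set_option autoImplicit false

open scoped TensorProduct

namespace Pool.Agent.SSF

open Cox

theorem degTau_mem : degTau ∈ Lsig := by
  change sL degTau = degTau
  decide

theorem degW_mem : degW ∈ Lsig := by
  change sL degW = degW
  decide

theorem degEps_mem : degEps ∈ Lsig := by
  change sL degEps = degEps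
  decide

/-- The degrees of the functional in `Lsig`. -/
def tauF : Lsig := ⟨degTau, degTau_mem⟩
/-- see `tauF` -/
def WF : Lsig := ⟨degW, degW_mem⟩
/-- see `tauF` -/
def epsF : Lsig := ⟨degEps, degEps_mem⟩

theorem two_tauF : 2 • tauF = 0 := by
  apply Subtype.ext
  change 2 • degTau = 0
  decide

theorem roots17 (K : Type) [Field K] [Algebra F17 K] : Roots K := isSquare_of_pow_four K

/-- The vanishing over the fields which contain a fourth root of `3`. -/
theorem form_van (L : Type) [Field L] [Algebra F17 L] (θ : L)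
    (hθ : θ ^ 4 = algebraMap F17 L (n3 : F17)) :
    ∃ (D' : Cox L) (E : Emb (DF.bc L) D'), D'.Good ∧
      ∀ I' : Ideal D'.A, I'.IsHomogeneous D'.gA → D'.DimLE (I'.map D'.φ) 2 →
        D'.symb (I'.map D'.φ) (E.γ tauF) (E.γ WF) (E.γ epsF) = 1 := by
  have hs : (θ ^ 2) ^ 2 = 3 := by
    rw [← n3_coe L, ← hθ]
    ring
  have hH : Hyp L (θ ^ 2) := ⟨seventeen_eq_zero L, hs⟩
  refine ⟨DS L (θ ^ 2), embS L (θ ^ 2) hs, DS_good L _ hH, ?_⟩
  intro I' hI' hd
  exact DS_van hH rfl (roots17 L) hI' hd

/-- The values over an arbitrary field which does not contain a square root of `3`. -/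
theorem DF_van (K : Type) [Field K] [Algebra F17 K]
    (hn : ¬ IsSquare (algebraMap F17 K (n3 : F17))) (I : Ideal (DF.bc K).A)
    (hI : I.IsHomogeneous (DF.bc K).gA) (hd : (DF.bc K).DimLE (I.map (DF.bc K).φ) 2) :
    (DF.bc K).symb (I.map (DF.bc K).φ) tauF WF epsF = 1 ∨
      (DF.bc K).symb (I.map (DF.bc K).φ) tauF WF epsF =
        cls (Units.map (algebraMap F17 K).toMonoidHom n3) :=
  V4.van_form DF_good (fun K _ _ => DF_good.bc K) (fun K _ _ => roots17 K) (i := 4) (by decide)
    (by decide) n3 two_tauF form_van K hn I hI hd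

/-- The datum of the example. -/
noncomputable def DF_datum : Br.Datum DF.gA n3 :=
  Asm.datum DF tauF WF epsF DF_good two_tauF (fun K _ _ => roots17 K) n3 DF_van

theorem DF_datum_φ (K : Type) [Field K] [Algebra F17 K] (I : Ideal (K ⊗[F17] DF.A)) :
    DF_datum.φ K I = Asm.phi DF tauF WF epsF K I := rfl

end Pool.Agent.SSF
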