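import Pool.Agent.SSF.XDom
import Pool.Agent.SSF.XEmb

/-!
Project SSF (MP_5928ba), module X8 (helper60): `A` of the form over `F17` is a domain after every
field extension.
-/

set_option autoImplicit false

namespace Pool.Agent.SSF

theorem DF_bc_A_isDomain (K : Type) [Field K] [Algebra F17 K] : IsDomain (DF.bc K).A :=
  DF_bc_A_isDomain_of (fun K _ _ _ _ => (embK' K rfl).α) K

end Pool.Agent.SSF
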