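import Pool.Agent.SSF.DimX

/-! # The dimension of the example: the form over `ZMod 17` -/

set_option autoImplicit false


open MvPolynomial DirectSum

namespace Pool.Agent.SSF.Dim

noncomputable section

/-- The square root of `3` in the ring. -/
def sR : R F2 sF := algebraMap F2 (R F2 sF) sF

theorem sR_mul : sR * sR = 3 := by
  unfold sR
  rw [← map_mul, ← sq, sF_sq, map_ofNat]

theorem char17 : (17 : R F2 sF) = 0 := by
  have h : (17 : F2) = 0 := by
    refine QuadraticAlgebra.ext ?_ ?_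
    · rw [QuadraticAlgebra.re_ofNat]; decide
    · rw [QuadraticAlgebra.im_ofNat]; rfl
  have h2 := congrArg (algebraMap F2 (R F2 sF)) h
  rwa [map_ofNat, map_zero] at h2

theorem sig_sR : sigR sR = -sR := by
  unfold sigR sR
  rw [conjR_algebraMap, starF_sF, map_neg]

theorem sig_F17 (c : F17) : sigR (algebraMap F17 (R F2 sF) c) = algebraMap F17 (R F2 sF) c :=
  (RF.algebraMap_mem c).1

theorem sig_sig (x : R F2 sF) : sigR (sigR x) = x := conjR_conjR starF starF_sF starF_starF x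

theorem sig_mem {γ : Lam} {x : R F2 sF} (hx : x ∈ gr F2 sF γ) : sigR x ∈ gr F2 sF (sL γ) :=
  conjR_mem starF starF_sF hx

theorem sig_xi (v : V) : sigR (xi F2 sF v) = xi F2 sF (sV v) := conjR_xi starF starF_sF v

theorem mem_RF {γ : Lam} (hγ : γ ∈ Lsig) {x : R F2 sF} (hx : x ∈ gr F2 sF γ)
    (hs : sigR x = x) : x ∈ RF := by
  refine ⟨hs, fun δ hδ => ?_⟩
  rw [decompose_of_mem _ hx, of_eq_of_ne]
  · rfl
  · rintro rfl
    exact hδ hγ

theorem Fc_mem (i : Fin 4) : Fc i ∈ Lsig := by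
  change sL (Fc i) = Fc i
  revert i
  decide

theorem nhh_mem (n : ℕ) : n • hh ∈ Lsig := Lsig.nsmul_mem sL_hh n

/-- First coordinates. -/
def xc : Fin 4 → R F2 sF :=
  ![xi F2 sF (0, 0) ^ 2, xi F2 sF (1, 0) ^ 2 + xi F2 sF (1, 1) ^ 2,
    xi F2 sF (2, 0) ^ 2 + xi F2 sF (2, 1) ^ 2, xi F2 sF (3, 0) ^ 2]

/-- Second coordinates. -/
def yc : Fin 4 → R F2 sF :=
  ![xi F2 sF (0, 1) ^ 2, sR * (xi F2 sF (1, 0) ^ 2 - xi F2 sF (1, 1) ^ 2),
    sR * (xi F2 sF (2, 0) ^ 2 - xi F2 sF (2, 1) ^ 2), xi F2 sF (3, 1) ^ 2]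

theorem xi_sq_mem (v : V) : xi F2 sF v ^ 2 ∈ gr F2 sF (Fc v.1) := by
  have h := SetLike.pow_mem_graded 2 (xi_mem F2 sF v)
  rwa [two_e] at h

theorem sR_mul_mem {γ : Lam} {x : R F2 sF} (hx : x ∈ gr F2 sF γ) : sR * x ∈ gr F2 sF γ := by
  unfold sR
  rw [← Algebra.smul_def]
  exact Submodule.smul_mem _ _ hx

theorem xc_mem (i : Fin 4) : xc i ∈ gr F2 sF (Fc i) := by
  fin_cases i
  · exact xi_sq_mem (0, 0)
  · exact Submodule.add_mem _ (xi_sq_mem (1, 0)) (xi_sq_mem (1, 1))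
  · exact Submodule.add_mem _ (xi_sq_mem (2, 0)) (xi_sq_mem (2, 1))
  · exact xi_sq_mem (3, 0)

theorem yc_mem (i : Fin 4) : yc i ∈ gr F2 sF (Fc i) := by
  fin_cases i
  · exact xi_sq_mem (0, 1)
  · exact sR_mul_mem (Submodule.sub_mem _ (xi_sq_mem (1, 0)) (xi_sq_mem (1, 1)))
  · exact sR_mul_mem (Submodule.sub_mem _ (xi_sq_mem (2, 0)) (xi_sq_mem (2, 1)))
  · exact xi_sq_mem (3, 1)

theorem sig_xi_sq (v w : V) (h : sV v = w) : sigR (xi F2 sF v ^ 2) = xi F2 sF w ^ 2 := by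
  rw [map_pow, sig_xi, h]

theorem sig_xc (i : Fin 4) : sigR (xc i) = xc i := by
  fin_cases i
  · exact sig_xi_sq (0, 0) (0, 0) rfl
  · change sigR (xi F2 sF (1, 0) ^ 2 + xi F2 sF (1, 1) ^ 2) = xi F2 sF (1, 0) ^ 2 + xi F2 sF (1, 1) ^ 2
    rw [map_add, sig_xi_sq (1, 0) (1, 1) rfl, sig_xi_sq (1, 1) (1, 0) rfl, add_comm]
  · change sigR (xi F2 sF (2, 0) ^ 2 + xi F2 sF (2, 1) ^ 2) = xi F2 sF (2, 0) ^ 2 + xi F2 sF (2, 1) ^ 2
    rw [map_add, sig_xi_sq (2, 0) (2, 1) rfl, sig_xi_sq (2, 1) (2, 0) rfl, add_comm]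
  · exact sig_xi_sq (3, 0) (3, 0) rfl

theorem sig_yc (i : Fin 4) : sigR (yc i) = yc i := by
  fin_cases i
  · exact sig_xi_sq (0, 1) (0, 1) rfl
  · change sigR (sR * (xi F2 sF (1, 0) ^ 2 - xi F2 sF (1, 1) ^ 2)) =
      sR * (xi F2 sF (1, 0) ^ 2 - xi F2 sF (1, 1) ^ 2)
    rw [map_mul, map_sub, sig_xi_sq (1, 0) (1, 1) rfl, sig_xi_sq (1, 1) (1, 0) rfl, sig_sR]
    ring
  · change sigR (sR * (xi F2 sF (2, 0) ^ 2 - xi F2 sF (2, 1) ^ 2)) =
      sR * (xi F2 sF (2, 0) ^ 2 - xi F2 sF (2, 1) ^ 2)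
    rw [map_mul, map_sub, sig_xi_sq (2, 0) (2, 1) rfl, sig_xi_sq (2, 1) (2, 0) rfl, sig_sR]
    ring
  · exact sig_xi_sq (3, 1) (3, 1) rfl

/-- First coordinates in the form. -/
def xF (i : Fin 4) : RF := ⟨xc i, mem_RF (Fc_mem i) (xc_mem i) (sig_xc i)⟩

/-- Second coordinates in the form. -/
def yF (i : Fin 4) : RF := ⟨yc i, mem_RF (Fc_mem i) (yc_mem i) (sig_yc i)⟩

theorem smulF2 (c : F2) (x : R F2 sF) : c • x = algebraMap F2 (R F2 sF) c * x :=
  Algebra.smul_def c x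

theorem two_rows (a b : R F2 sF) :
    a ∈ Submodule.span F2 {a + b, sR * (a - b)} ∧ b ∈ Submodule.span F2 {a + b, sR * (a - b)} := by
  have h1 : a + b ∈ Submodule.span F2 {a + b, sR * (a - b)} := Submodule.subset_span (by simp)
  have h2 : sR * (a - b) ∈ Submodule.span F2 {a + b, sR * (a - b)} :=
    Submodule.subset_span (by simp)
  have h3 := char17
  have h4 := sR_mul
  have e1 : (9 : F2) • (a + b) + (3 * sF : F2) • (sR * (a - b)) = a := by
    rw [smulF2, smulF2, map_mul, map_ofNat, map_ofNat]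
    change 9 * (a + b) + 3 * sR * (sR * (a - b)) = a
    linear_combination a * h3 + 3 * (a - b) * h4
  have e2 : (9 : F2) • (a + b) - (3 * sF : F2) • (sR * (a - b)) = b := by
    rw [smulF2, smulF2, map_mul, map_ofNat, map_ofNat]
    change 9 * (a + b) - 3 * sR * (sR * (a - b)) = b
    linear_combination b * h3 - 3 * (a - b) * h4
  have e3 := Submodule.add_mem _ (Submodule.smul_mem _ (9 : F2) h1)
    (Submodule.smul_mem _ (3 * sF : F2) h2)
  have e4 := Submodule.sub_mem _ (Submodule.smul_mem _ (9 : F2) h1)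
    (Submodule.smul_mem _ (3 * sF : F2) h2)
  rw [e1] at e3
  rw [e2] at e4
  exact ⟨e3, e4⟩

theorem xi_sq_mem_xc (v : V) : xi F2 sF v ^ 2 ∈ Submodule.span F2 {xc v.1, yc v.1} := by
  have key : ∀ i, xi F2 sF (i, 0) ^ 2 ∈ Submodule.span F2 {xc i, yc i} ∧
      xi F2 sF (i, 1) ^ 2 ∈ Submodule.span F2 {xc i, yc i} := by
    intro i
    fin_cases i
    · exact ⟨Submodule.subset_span (Or.inl rfl), Submodule.subset_span (Or.inr rfl)⟩
    · exact two_rows _ _
    · exact two_rows _ _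
    · exact ⟨Submodule.subset_span (Or.inl rfl), Submodule.subset_span (Or.inr rfl)⟩
  have h := xi_sq_mem_span F2 sF v
  refine (Submodule.span_le.2 ?_ : Submodule.span F2
    {xi F2 sF (v.1, 0) ^ 2, xi F2 sF (v.1, 1) ^ 2} ≤ Submodule.span F2 {xc v.1, yc v.1}) h
  rintro _ (rfl | rfl)
  · exact (key v.1).1
  · exact (key v.1).2

/-! ### Descent of the bihomogeneous monomials -/

theorem coe_mon (b c : Fin 4 → ℕ) : ((mon xF yF b c : RF) : R F2 sF) = mon xc yc b c := by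
  change RF.val (mon xF yF b c) = _
  unfold mon
  rw [map_prod]
  refine Finset.prod_congr rfl fun i _ => ?_
  rw [map_mul, map_pow, map_pow]
  rfl

theorem F2_decomp (c : F2) : algebraMap F2 (R F2 sF) c =
    algebraMap F17 (R F2 sF) c.re + algebraMap F17 (R F2 sF) c.im * sR := by
  rw [IsScalarTower.algebraMap_apply F17 F2 (R F2 sF), IsScalarTower.algebraMap_apply F17 F2 (R F2 sF)]
  unfold sR
  rw [← map_mul, ← map_add]
  congr 1
  refine QuadraticAlgebra.ext ?_ ?_ <;> simp [sF]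

theorem coe_smul (c : F17) (a : RF) :
    ((c • a : RF) : R F2 sF) = algebraMap F17 (R F2 sF) c * (a : R F2 sF) := by
  rw [Algebra.smul_def]
  rfl

theorem bimon_desc {N : ℕ} {P : R F2 sF} (hP : P ∈ bimon F2 xc yc N) :
    ∃ a ∈ bimon F17 xF yF N, ∃ b ∈ bimon F17 xF yF N, P = (a : R F2 sF) + sR * (b : R F2 sF) := by
  unfold bimon at hP
  induction hP using Submodule.span_induction with
  | mem r hr =>
    obtain ⟨b, c, hbc, rfl⟩ := hr
    refine ⟨mon xF yF b c, Submodule.subset_span ⟨b, c, hbc, rfl⟩, 0, Submodule.zero_mem _, ?_⟩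
    rw [coe_mon]
    simp
  | zero => exact ⟨0, Submodule.zero_mem _, 0, Submodule.zero_mem _, by simp⟩
  | add P Q _ _ hP hQ =>
    obtain ⟨a, ha, b, hb, rfl⟩ := hP
    obtain ⟨a', ha', b', hb', rfl⟩ := hQ
    refine ⟨a + a', Submodule.add_mem _ ha ha', b + b', Submodule.add_mem _ hb hb', ?_⟩
    rw [Subalgebra.coe_add, Subalgebra.coe_add]
    ring
  | smul c P _ hP =>
    obtain ⟨a, ha, b, hb, rfl⟩ := hP
    refine ⟨c.re • a + (3 * c.im) • b, Submodule.add_mem _ (Submodule.smul_mem _ _ ha)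
      (Submodule.smul_mem _ _ hb), c.im • a + c.re • b,
      Submodule.add_mem _ (Submodule.smul_mem _ _ ha) (Submodule.smul_mem _ _ hb), ?_⟩
    rw [smulF2, F2_decomp, Subalgebra.coe_add, Subalgebra.coe_add, coe_smul, coe_smul, coe_smul,
      coe_smul, map_mul, map_ofNat]
    linear_combination algebraMap F17 (R F2 sF) c.im * (b : R F2 sF) * sR_mul

theorem bimon_fixed {N : ℕ} {P : R F2 sF} (hP : P ∈ bimon F2 xc yc N) (hs : sigR P = P) :
    ∃ a ∈ bimon F17 xF yF N, P = (a : R F2 sF) := by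
  obtain ⟨a, ha, b, _, rfl⟩ := bimon_desc hP
  refine ⟨a, ha, ?_⟩
  have ha' : sigR (a : R F2 sF) = a := a.2.1
  have hb' : sigR (b : R F2 sF) = b := b.2.1
  rw [map_add, map_mul, sig_sR, ha', hb'] at hs
  linear_combination (-9) * hs + (-1) * sR * (b : R F2 sF) * char17

theorem mon_mul {S : Type} [CommRing S] (x y : Fin 4 → S) (b c b' c' : Fin 4 → ℕ) :
    mon x y b c * mon x y b' c' = mon x y (fun i => b i + b' i) (fun i => c i + c' i) := by
  unfold mon
  rw [← Finset.prod_mul_distrib]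
  refine Finset.prod_congr rfl fun i _ => ?_
  ring

theorem bimon_mul {k S : Type} [CommRing k] [CommRing S] [Algebra k S] (x y : Fin 4 → S)
    {M N L : ℕ} (hL : L = M + N) {p q : S} (hp : p ∈ bimon k x y M) (hq : q ∈ bimon k x y N) :
    p * q ∈ bimon k x y L := by
  subst hL
  have h := Submodule.mul_mem_mul hp hq
  unfold bimon at h ⊢
  rw [Submodule.span_mul_span] at h
  refine Submodule.span_mono ?_ h
  rintro _ ⟨_, ⟨b, c, hbc, rfl⟩, _, ⟨b', c', hbc', rfl⟩, rfl⟩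
  refine ⟨fun i => b i + b' i, fun i => c i + c' i, fun i => ?_, mon_mul x y b c b' c'⟩
  have h1 := hbc i
  have h2 := hbc' i
  simp only
  omega

/-! ### Traces of monomials -/

/-- Traces of multiples of monomials of degree `n hh`. -/
def GF (n : ℕ) : Set RF := {r | ∃ (a : F2) (m : V → ℕ), ∑ v, m v • e v = n • hh ∧
  (r : R F2 sF) = algebraMap F2 (R F2 sF) a * (∏ v, xi F2 sF v ^ m v) +
    sigR (algebraMap F2 (R F2 sF) a * (∏ v, xi F2 sF v ^ m v))}

theorem trace_mem {n : ℕ} {z : R F2 sF} (hz : z ∈ gr F2 sF (n • hh)) :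
    z + sigR z ∈ gr F2 sF (n • hh) := by
  refine Submodule.add_mem _ hz ?_
  have h := sig_mem hz
  have h2 : sL (n • hh) = n • hh := nhh_mem n
  rwa [h2] at h

theorem trace_fixed (z : R F2 sF) : sigR (z + sigR z) = z + sigR z := by
  rw [map_add, sig_sig, add_comm]

theorem mul_mono_mem {n : ℕ} (a : F2) {m : V → ℕ} (hm : ∑ v, m v • e v = n • hh) :
    algebraMap F2 (R F2 sF) a * (∏ v, xi F2 sF v ^ m v) ∈ gr F2 sF (n • hh) := by
  rw [← smulF2, ← hm]
  exact Submodule.smul_mem _ _ (prod_mem_gr F2 sF m)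

theorem mem_grF {n : ℕ} {r : RF} : r ∈ grF (n • hF) ↔ (r : R F2 sF) ∈ gr F2 sF (n • hh) :=
  Iff.rfl

theorem GF_mem (n : ℕ) (g : RF) (hg : g ∈ GF n) : g ∈ grF (n • hF) := by
  obtain ⟨a, m, hm, hg⟩ := hg
  rw [mem_grF, hg]
  exact trace_mem (mul_mono_mem a hm)

theorem GF_span_aux (n : ℕ) (z : R F2 sF) (hz : z ∈ Submodule.span F2
    {x | ∃ m : V → ℕ, ∑ v, m v • e v = n • hh ∧ x = ∏ v, xi F2 sF v ^ m v}) :
    ∀ a : F2, ∃ g ∈ Submodule.span F17 (GF n), (g : R F2 sF) =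
      algebraMap F2 (R F2 sF) a * z + sigR (algebraMap F2 (R F2 sF) a * z) := by
  induction hz using Submodule.span_induction with
  | mem r hr =>
    obtain ⟨m, hm, rfl⟩ := hr
    intro a
    refine ⟨⟨_, mem_RF (nhh_mem n) (trace_mem (mul_mono_mem a hm)) (trace_fixed _)⟩,
      Submodule.subset_span ⟨a, m, hm, rfl⟩, rfl⟩
  | zero =>
    intro a
    refine ⟨0, Submodule.zero_mem _, ?_⟩
    rw [mul_zero, map_zero, add_zero]
    rfl
  | add P Q _ _ hP hQ =>
    intro a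
    obtain ⟨g, hg, hg'⟩ := hP a
    obtain ⟨g', hh, hh'⟩ := hQ a
    refine ⟨g + g', Submodule.add_mem _ hg hh, ?_⟩
    rw [Subalgebra.coe_add, hg', hh', mul_add, map_add]
    ring
  | smul c P _ hP =>
    intro a
    obtain ⟨g, hg, hg'⟩ := hP (a * c)
    refine ⟨g, hg, ?_⟩
    rw [hg', smulF2, map_mul, mul_assoc]

theorem GF_span (n : ℕ) : grF (n • hF) ≤ Submodule.span F17 (GF n) := by
  intro r hr
  have hr' : (r : R F2 sF) ∈ gr F2 sF (n • hh) := hr
  obtain ⟨g, hg, hg'⟩ := GF_span_aux n r (gr_le_span F2 sF _ hr') 1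
  rw [map_one, one_mul, (r.2.1 : sigR (r : R F2 sF) = r)] at hg'
  have h : r = (9 : F17) • g := by
    apply Subtype.ext
    rw [coe_smul, hg', map_ofNat]
    linear_combination (-(r : R F2 sF)) * char17
  rw [h]
  exact Submodule.smul_mem _ _ hg

theorem sV_fst (v : V) : (sV v).1 = v.1 := by revert v; decide

theorem fix1 (z : R F2 sF) : sigR (z * z + sigR z * sigR z) = z * z + sigR z * sigR z := by
  rw [map_add, map_mul, map_mul, sig_sig, add_comm]

theorem fix2 (z : R F2 sF) : sigR (4 * ((z * z) * (sigR z * sigR z))) =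
    4 * ((z * z) * (sigR z * sigR z)) := by
  rw [map_mul, map_mul, map_mul, map_mul, sig_sig, map_ofNat, mul_comm (z * z)]

theorem GF_quart (n : ℕ) (g : RF) (hg : g ∈ GF n) : ∃ p ∈ bimon F17 xF yF (4 * n),
    ∃ q ∈ bimon F17 xF yF (8 * n), (g * g - p) * (g * g - p) = q := by
  obtain ⟨a, m, hm, hg⟩ := hg
  have h1 := mono_sq_mem (k := F2) (xi F2 sF) xc yc xi_sq_mem_xc m (weight_row hm)
  have h2 := mono_sq_mem (k := F2) (fun v => xi F2 sF (sV v)) xc yc
    (fun v => by have := xi_sq_mem_xc (sV v); rwa [sV_fst] at this) m (weight_row hm)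
  have h3 : sigR (∏ v, xi F2 sF v ^ m v) = ∏ v, xi F2 sF (sV v) ^ m v := by
    rw [map_prod]
    refine Finset.prod_congr rfl fun v _ => ?_
    rw [map_pow, sig_xi]
  rw [← h3] at h2
  have h4 : sigR (algebraMap F2 (R F2 sF) a) = algebraMap F2 (R F2 sF) (starF a) :=
    conjR_algebraMap starF starF_sF a
  set μ : R F2 sF := ∏ v, xi F2 sF v ^ m v with hμ
  set z : R F2 sF := algebraMap F2 (R F2 sF) a * μ with hz
  have e1 : z * z ∈ bimon F2 xc yc (4 * n) := by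
    have := Submodule.smul_mem _ (a * a) h1
    rw [smulF2, map_mul] at this
    have e : z * z = algebraMap F2 (R F2 sF) a * algebraMap F2 (R F2 sF) a * (μ * μ) := by
      rw [hz]; ring
    rwa [e]
  have e2 : sigR z * sigR z ∈ bimon F2 xc yc (4 * n) := by
    have := Submodule.smul_mem _ (starF a * starF a) h2
    rw [smulF2, map_mul] at this
    have e : sigR z * sigR z = algebraMap F2 (R F2 sF) (starF a) *
        algebraMap F2 (R F2 sF) (starF a) * (sigR μ * sigR μ) := by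
      rw [hz, map_mul, h4]; ring
    rwa [e]
  obtain ⟨p, hp, hp'⟩ := bimon_fixed (Submodule.add_mem _ e1 e2) (fix1 z)
  have e3 : (4 : F2) • ((z * z) * (sigR z * sigR z)) ∈ bimon F2 xc yc (8 * n) :=
    Submodule.smul_mem _ _ (bimon_mul xc yc (by omega) e1 e2)
  rw [smulF2, map_ofNat] at e3
  obtain ⟨q, hq, hq'⟩ := bimon_fixed e3 (fix2 z)
  refine ⟨p, hp, q, hq, ?_⟩
  apply Subtype.ext
  rw [Subalgebra.coe_mul, Subalgebra.coe_sub, Subalgebra.coe_mul, ← hp', ← hq', hg]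
  ring

/-- The form over `ZMod 17`. -/
def chartDF : Chartable DF :=
  mkChart grF hF_inj (fun i => ⟨Fc i, Fc_mem i⟩) xF yF (fun i => xc_mem i) (fun i => yc_mem i)
    (Subtype.ext hh_eq) GF GF_mem GF_span GF_quart

end

end Pool.Agent.SSF.Dim

namespace Pool.Agent.SSF

theorem DF_dim (K : Type) [Field K] [Algebra F17 K] (l : LTSeries (DF.bc K).Pt) :
    l.length ≤ 4 := Dim.length_le_field (Dim.chartDF.bc K) l

theorem DF_dim_dvr (O : Type) [CommRing O] [IsDomain O] [IsDiscreteValuationRing O]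
    [Algebra F17 O] (l : LTSeries (DF.bc O).Pt) : l.length ≤ 5 :=
  Dim.length_le_dvr (Dim.chartDF.bc O) l

end Pool.Agent.SSF
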