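import Pool.Agent.SSF.XGood
import Pool.Agent.SSF.XDim
import Pool.Agent.SSF.Br.Dat

/-!
Project SSF (MP_5928ba): the geometric facts `Br.Geom` for the `F17`-form.
-/

set_option autoImplicit false

namespace Pool.Agent.SSF

section mk

variable {k R Γ : Type} [CommRing k] [CommRing R] [Algebra k R] [AddCommGroup Γ] [DecidableEq Γ]
  (gR : Γ → Submodule k R) [GradedAlgebra gR] (h : Γ)

/-- The Veronese subalgebra is generated by finitely many elements of degree one. -/
theorem ver_adjoin (hinj : ∀ n m : ℤ, n • h = m • h → n = m)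
    (fin : ∀ γ, Module.Finite k (gR γ))
    (h0 : gR 0 = LinearMap.range (Algebra.linearMap k R))
    (gen : ∀ n : ℕ, ∀ x ∈ gR ((n + 1) • h),
      x ∈ Submodule.span k {z | ∃ a ∈ gR h, ∃ b ∈ gR (n • h), z = a * b}) :
    ∃ s : Finset (ver gR h), (∀ a ∈ s, a ∈ verGr gR h 1) ∧
      Algebra.adjoin k (s : Set (ver gR h)) = ⊤ := by
  classical
  have hfg : (verGr gR h 1).FG := (mkCox gR hinj).gA_fg fin 1
  obtain ⟨G, hG⟩ := hfg
  let _ : GradedAlgebra (verGr gR h) := verGraded gR hinj
  have key : ∀ n : ℕ, ∀ x ∈ verGr gR h n, x ∈ Algebra.adjoin k (G : Set (ver gR h)) := by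
    intro n
    induction n with
    | zero =>
      intro x hx
      have hx' : (x : R) ∈ gR 0 := by
        have h1 : (x : R) ∈ gR (0 • h) := hx
        rwa [zero_nsmul] at h1
      rw [h0] at hx'
      obtain ⟨c, hc⟩ := hx'
      have e1 : algebraMap k (ver gR h) c = x := Subtype.ext hc
      rw [← e1]
      exact Subalgebra.algebraMap_mem _ c
    | succ n ih =>
      intro x hx
      have h1 := ver_gen gR h gen n x hx
      have h2 : Submodule.span k {z | ∃ a ∈ verGr gR h 1, ∃ b ∈ verGr gR h n, z = a * b} ≤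
          Subalgebra.toSubmodule (Algebra.adjoin k (G : Set (ver gR h))) := by
        rw [Submodule.span_le]
        rintro _ ⟨a, ha, b, hb, rfl⟩
        refine Subalgebra.mul_mem _ ?_ (ih b hb)
        have ha' : a ∈ Submodule.span k (G : Set (ver gR h)) := by
          rw [hG]
          exact ha
        exact Algebra.span_le_adjoin k _ ha'
      exact h2 h1
  refine ⟨G, fun a ha => ?_, ?_⟩
  · rw [← hG]
    exact Submodule.subset_span ha
  · rw [eq_top_iff]
    rintro x -
    rw [← DirectSum.sum_support_decompose (verGr gR h) x]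
    exact Subalgebra.sum_mem _ fun n _ => key n _ (SetLike.coe_mem _)

end mk

theorem DF_zero : Function.Surjective (algebraMap F17 (DF.gA 0)) := by
  rintro ⟨x, hx⟩
  let x' : ver grF hF := x
  have h1 : (x' : RF) ∈ grF (0 • hF) := hx
  rw [zero_nsmul, grF_zero] at h1
  obtain ⟨c, hc⟩ := h1
  exact ⟨c, Subtype.ext (Subtype.ext hc)⟩

theorem DF_gen : ∃ s : Finset DF.A, (∀ a ∈ s, a ∈ DF.gA 1) ∧
    Algebra.adjoin F17 (s : Set DF.A) = ⊤ :=
  ver_adjoin grF hF hF_inj grF_finite grF_zero gen_oneF

/-- The geometric facts for the example. -/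
theorem DF_geom : Br.Geom DF.gA where
  zero := DF_zero
  gen := DF_gen
  dim4 := fun K _ _ l _ => DF_dim K l
  dim5 := fun O _ _ _ _ l _ => DF_dim_dvr O l

end Pool.Agent.SSF
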