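import Pool.Agent.SSF.XHyp

/-!
# SSF, geometry: the charts of the multigraded ring are smooth

`R k s` localised at the product of the coordinates `ξ_ij`, `j ≠ J i`, is formally smooth over
`k`.
-/

set_option autoImplicit false

namespace Pool.Agent.SSF.GeoChart

open MvPolynomial

section lift

variable {B : Type*} [CommRing B] {I : Ideal B} (hI : I ^ 2 = ⊥)

include hI

theorem mul_eq_zero_of_mem {x y : B} (hx : x ∈ I) (hy : y ∈ I) : x * y = 0 := by
  have : x * y ∈ I ^ 2 := by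
    rw [pow_two]
    exact Ideal.mul_mem_mul hx hy
  rwa [hI, Ideal.mem_bot] at this

/-- A lift of a unit is a unit. -/
theorem exists_inv {y : B} (h : IsUnit (Ideal.Quotient.mk I y)) : ∃ w : B, y * w = 1 := by
  obtain ⟨z, hz⟩ := h.exists_right_inv
  obtain ⟨z0, rfl⟩ := Ideal.Quotient.mk_surjective z
  have h1 : y * z0 - 1 ∈ I := by
    rw [← Ideal.Quotient.eq_zero_iff_mem, map_sub, map_mul, hz, map_one, sub_self]
  have h2 := mul_eq_zero_of_mem hI h1 h1
  exact ⟨z0 * (2 - y * z0), by linear_combination -h2⟩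

theorem isUnit_of_isUnit_mk {y : B} (h : IsUnit (Ideal.Quotient.mk I y)) : IsUnit y := by
  obtain ⟨w, hw⟩ := exists_inv hI h
  exact IsUnit.of_mul_eq_one w hw

/-- A square root which is a unit modulo `I` can be lifted. -/
theorem sqrt_lift {h : B} (h2 : 2 * h = 1) {x : B ⧸ I} (hx : IsUnit x) {Q : B}
    (hQ : x ^ 2 = Ideal.Quotient.mk I Q) : ∃ y : B, Ideal.Quotient.mk I y = x ∧ y ^ 2 = Q := by
  obtain ⟨y0, rfl⟩ := Ideal.Quotient.mk_surjective x
  obtain ⟨w, hw⟩ := exists_inv hI hx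
  have hδ : y0 ^ 2 - Q ∈ I := by
    rw [← Ideal.Quotient.eq_zero_iff_mem, map_sub, map_pow, hQ, sub_self]
  have h3 := mul_eq_zero_of_mem hI hδ hδ
  refine ⟨y0 - (y0 ^ 2 - Q) * h * w, ?_, ?_⟩
  · rw [map_sub, mul_assoc, map_mul, Ideal.Quotient.eq_zero_iff_mem.2 hδ, zero_mul, sub_zero]
  · linear_combination h ^ 2 * w ^ 2 * h3 - (y0 ^ 2 - Q) * (2 * h) * hw - (y0 ^ 2 - Q) * h2

/-- Lifting of one row. -/
theorem row_lift {h : B} (h2 : 2 * h = 1) {a b c d t : B} (ht : (a * d - b * c) * t = 1)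
    (x : Fin 4 → B ⧸ I)
    (r2 : x 2 ^ 2 = Ideal.Quotient.mk I a * x 0 ^ 2 + Ideal.Quotient.mk I b * x 1 ^ 2)
    (r3 : x 3 ^ 2 = Ideal.Quotient.mk I c * x 0 ^ 2 + Ideal.Quotient.mk I d * x 1 ^ 2)
    (J : Fin 4) (hu : ∀ j, j ≠ J → IsUnit (x j)) :
    ∃ y : Fin 4 → B, (∀ j, Ideal.Quotient.mk I (y j) = x j) ∧
      y 2 ^ 2 = a * y 0 ^ 2 + b * y 1 ^ 2 ∧ y 3 ^ 2 = c * y 0 ^ 2 + d * y 1 ^ 2 := by
  by_cases hJ : J = 0 ∨ J = 1
  · obtain ⟨y0, hy0⟩ := Ideal.Quotient.mk_surjective (x 0)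
    obtain ⟨y1, hy1⟩ := Ideal.Quotient.mk_surjective (x 1)
    obtain ⟨y2, hy2, e2⟩ := sqrt_lift hI h2 (x := x 2) (Q := a * y0 ^ 2 + b * y1 ^ 2)
      (hu 2 (by rintro rfl; revert hJ; decide))
      (by rw [r2, map_add, map_mul, map_mul, map_pow, map_pow, hy0, hy1])
    obtain ⟨y3, hy3, e3⟩ := sqrt_lift hI h2 (x := x 3) (Q := c * y0 ^ 2 + d * y1 ^ 2)
      (hu 3 (by rintro rfl; revert hJ; decide))
      (by rw [r3, map_add, map_mul, map_mul, map_pow, map_pow, hy0, hy1])
    refine ⟨![y0, y1, y2, y3], ?_, e2, e3⟩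
    intro j
    fin_cases j
    exacts [hy0, hy1, hy2, hy3]
  · obtain ⟨y2, hy2⟩ := Ideal.Quotient.mk_surjective (x 2)
    obtain ⟨y3, hy3⟩ := Ideal.Quotient.mk_surjective (x 3)
    have ht' : (Ideal.Quotient.mk I a * Ideal.Quotient.mk I d -
        Ideal.Quotient.mk I b * Ideal.Quotient.mk I c) * Ideal.Quotient.mk I t = 1 := by
      rw [← map_mul, ← map_mul, ← map_sub, ← map_mul, ht, map_one]
    obtain ⟨y0, hy0, e0⟩ := sqrt_lift hI h2 (x := x 0) (Q := t * (d * y2 ^ 2 - b * y3 ^ 2))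
      (hu 0 (by rintro rfl; exact hJ (Or.inl rfl)))
      (by
        rw [map_mul, map_sub, map_mul, map_mul, map_pow, map_pow, hy2, hy3, r2, r3]
        linear_combination (-(x 0 ^ 2)) * ht')
    obtain ⟨y1, hy1, e1⟩ := sqrt_lift hI h2 (x := x 1) (Q := t * (a * y3 ^ 2 - c * y2 ^ 2))
      (hu 1 (by rintro rfl; exact hJ (Or.inr rfl)))
      (by
        rw [map_mul, map_sub, map_mul, map_mul, map_pow, map_pow, hy2, hy3, r2, r3]
        linear_combination (-(x 1 ^ 2)) * ht')
    refine ⟨![y0, y1, y2, y3], ?_, ?_, ?_⟩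
    · intro j
      fin_cases j
      exacts [hy0, hy1, hy2, hy3]
    · change y2 ^ 2 = a * y0 ^ 2 + b * y1 ^ 2
      linear_combination (-(y2 ^ 2)) * ht - a * e0 - b * e1
    · change y3 ^ 2 = c * y0 ^ 2 + d * y1 ^ 2
      linear_combination (-(y3 ^ 2)) * ht - c * e0 - d * e1

end lift

variable (k : Type) [CommRing k] (s : k)

/-- The product of the coordinates `ξ_ij`, `j ≠ J i`. -/
noncomputable def fch (J : Fin 4 → Fin 4) : R k s :=
  ∏ v ∈ Finset.univ.filter (fun v : V => v.2 ≠ J v.1), xi k s v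

variable {k s}

/-- `2` and the determinants are invertible. -/
theorem exists_det (h : Hyp k s) (i : Fin 4) :
    ∃ t : k, (ca s i * cd s i - cb s i * cc s i) * t = 1 := by
  obtain ⟨h17, hs⟩ := h
  fin_cases i
  · exact ⟨3 * s, by
      change (1 * s - (-s) * 1) * (3 * s) = 1
      linear_combination 6 * hs + h17⟩
  · exact ⟨7, by
      change ((1 + (s + s)) * (1 - (s + s)) - (-1) * (-1)) * 7 = 1
      linear_combination (-28) * hs - 5 * h17⟩
  · exact ⟨7, by
      change ((1 + (s + s)) * (1 - (s + s)) - (-1) * (-1)) * 7 = 1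
      linear_combination (-28) * hs - 5 * h17⟩
  · exact ⟨9, by
      change ((1 : k) * 1 - (-1) * 1) * 9 = 1
      linear_combination h17⟩

/-- The chart ring is formally smooth. -/
theorem formallySmooth (h : Hyp k s) (J : Fin 4 → Fin 4) (C : Type) [CommRing C] [Algebra k C]
    [Algebra (R k s) C] [IsScalarTower k (R k s) C] [IsLocalization.Away (fch k s J) C] :
    Algebra.FormallySmooth k C := by
  refine Algebra.FormallySmooth.of_comp_surjective ?_
  intro B _ _ I hI g
  let g' : R k s →ₐ[k] B ⧸ I := g.comp (IsScalarTower.toAlgHom k (R k s) C)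
  have hg' : ∀ x, g' x = g (algebraMap (R k s) C x) := fun _ => rfl
  have hunit : ∀ v : V, v.2 ≠ J v.1 → IsUnit (g' (xi k s v)) := by
    intro v hv
    have h1 : IsUnit (algebraMap (R k s) C (fch k s J)) :=
      IsLocalization.Away.algebraMap_isUnit _
    rw [hg']
    refine IsUnit.map g (isUnit_of_dvd_unit (map_dvd _ ?_) h1)
    exact Finset.dvd_prod_of_mem _ (by simpa using hv)
  have h2 : (2 : B) * algebraMap k B 9 = 1 := by
    have := congrArg (algebraMap k B) h.1
    rw [map_ofNat, map_zero] at this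
    rw [map_ofNat]
    linear_combination this
  have hmk : ∀ a : k, Ideal.Quotient.mk I (algebraMap k B a) = algebraMap k (B ⧸ I) a :=
    fun _ => rfl
  have hrow : ∀ i : Fin 4, ∃ y : Fin 4 → B,
      (∀ j, Ideal.Quotient.mk I (y j) = g' (xi k s (i, j))) ∧
      y 2 ^ 2 = algebraMap k B (ca s i) * y 0 ^ 2 + algebraMap k B (cb s i) * y 1 ^ 2 ∧
      y 3 ^ 2 = algebraMap k B (cc s i) * y 0 ^ 2 + algebraMap k B (cd s i) * y 1 ^ 2 := by
    intro i
    obtain ⟨t, ht⟩ := exists_det h i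
    refine row_lift hI h2 (t := algebraMap k B t) ?_ (fun j => g' (xi k s (i, j))) ?_ ?_ (J i) ?_
    · rw [← map_mul, ← map_mul, ← map_sub, ← map_mul, ht, map_one]
    · rw [← map_pow, xi2_sq, map_add, map_mul, map_mul, map_pow, map_pow, AlgHom.commutes,
        AlgHom.commutes, hmk, hmk]
    · rw [← map_pow, xi3_sq, map_add, map_mul, map_mul, map_pow, map_pow, AlgHom.commutes,
        AlgHom.commutes, hmk, hmk]
    · intro j hj
      exact hunit (i, j) hj
  choose y hy e2 e3 using hrow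
  let P : MvPolynomial V k →ₐ[k] B := aeval fun v => y v.1 v.2
  have hP : ∀ p ∈ relI k s, P p = 0 := by
    intro p hp
    have : relI k s ≤ RingHom.ker (P : MvPolynomial V k →+* B) := by
      rw [relI, Ideal.span_le]
      rintro _ (⟨i, rfl⟩ | ⟨i, rfl⟩)
      · change P (rel2 k s i) = 0
        simp only [P, rel2, map_sub, map_add, map_mul, map_pow, aeval_X, aeval_C]
        rw [e2 i, sub_self]
      · change P (rel3 k s i) = 0
        simp only [P, rel3, map_sub, map_add, map_mul, map_pow, aeval_X, aeval_C]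
        rw [e3 i, sub_self]
    exact this hp
  let Q : R k s →ₐ[k] B := Ideal.Quotient.liftₐ (relI k s) P hP
  have hQ : ∀ v, Q (xi k s v) = y v.1 v.2 := by
    intro v
    change P (X v) = _
    exact aeval_X _ _
  have hQm : ∀ x, Ideal.Quotient.mk I (Q x) = g' x := by
    have : (Ideal.Quotient.mkₐ k I).comp Q = g' := by
      refine Ideal.Quotient.algHom_ext _ (MvPolynomial.algHom_ext fun v => ?_)
      change Ideal.Quotient.mk I (Q (xi k s v)) = g' (xi k s v)
      rw [hQ, hy]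
    intro x
    exact DFunLike.congr_fun this x
  have hu : ∀ z : Submonoid.powers (fch k s J), IsUnit (Q z) := by
    rintro ⟨_, n, rfl⟩
    rw [map_pow]
    refine IsUnit.pow n (isUnit_of_isUnit_mk hI ?_)
    rw [hQm, hg']
    exact IsUnit.map g (IsLocalization.Away.algebraMap_isUnit _)
  refine ⟨IsLocalization.liftAlgHom (M := Submonoid.powers (fch k s J)) (f := Q) hu, ?_⟩
  refine IsLocalization.algHom_ext (Submonoid.powers (fch k s J)) ?_
  refine AlgHom.ext fun x => ?_
  change Ideal.Quotient.mk I (IsLocalization.liftAlgHom (M := Submonoid.powers (fch k s J))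
    (f := Q) hu (algebraMap (R k s) C x)) = g (algebraMap (R k s) C x)
  rw [IsLocalization.liftAlgHom_apply, IsLocalization.lift_eq]
  exact hQm x

end Pool.Agent.SSF.GeoChart
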