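import Mathlib

/-!
# SSF, geometry: the grading of a localization at a homogeneous element
-/

set_option autoImplicit false

namespace Pool.Agent.SSF.GeoLoc

open DirectSum

section

variable {k R Γ : Type*} [CommRing k] [CommRing R] [Algebra k R] [AddCommGroup Γ] [DecidableEq Γ]
  (gR : Γ → Submodule k R) [GradedAlgebra gR] {f : R} {δ : Γ} (hf : f ∈ gR δ)
  (C : Type*) [CommRing C] [Algebra k C] [Algebra R C] [IsScalarTower k R C]

/-- The elements of degree `γ` of a localization of `R` at the element `f` of degree `δ`. -/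
def locGr (f : R) (δ : Γ) (C : Type*) [CommRing C] [Algebra k C] [Algebra R C]
    [IsScalarTower k R C] (hf : f ∈ gR δ) (γ : Γ) : Submodule k C where
  carrier := {x | ∃ n : ℕ, ∃ a ∈ gR (γ + n • δ), x * algebraMap R C f ^ n = algebraMap R C a}
  zero_mem' := ⟨0, 0, Submodule.zero_mem _, by simp⟩
  add_mem' := by
    rintro x y ⟨n, a, ha, hx⟩ ⟨m, b, hb, hy⟩
    refine ⟨n + m, a * f ^ m + b * f ^ n, Submodule.add_mem _ ?_ ?_, ?_⟩
    · have := SetLike.mul_mem_graded ha (SetLike.pow_mem_graded m hf)
      rwa [add_assoc, ← add_smul] at this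
    · have := SetLike.mul_mem_graded hb (SetLike.pow_mem_graded n hf)
      rwa [add_assoc, ← add_smul, add_comm m n] at this
    · rw [map_add, map_mul, map_mul, ← hx, ← hy, map_pow, map_pow]
      ring
  smul_mem' := by
    rintro c x ⟨n, a, ha, hx⟩
    refine ⟨n, c • a, Submodule.smul_mem _ _ ha, ?_⟩
    rw [smul_mul_assoc, hx, Algebra.smul_def, Algebra.smul_def, map_mul,
      ← IsScalarTower.algebraMap_apply]

variable {gR}

theorem mem_locGr {γ : Γ} {x : C} : x ∈ locGr gR f δ C hf γ ↔
    ∃ n : ℕ, ∃ a ∈ gR (γ + n • δ), x * algebraMap R C f ^ n = algebraMap R C a := Iff.rfl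

theorem algebraMap_mem {γ : Γ} {a : R} (ha : a ∈ gR γ) :
    algebraMap R C a ∈ locGr gR f δ C hf γ :=
  ⟨0, a, by simpa using ha, by simp⟩

instance locGr_gradedMonoid : SetLike.GradedMonoid (locGr gR f δ C hf) where
  one_mem := ⟨0, 1, by simpa using SetLike.one_mem_graded gR, by simp⟩
  mul_mem := by
    rintro i j x y ⟨n, a, ha, hx⟩ ⟨m, b, hb, hy⟩
    refine ⟨n + m, a * b, ?_, ?_⟩
    · have := SetLike.mul_mem_graded ha hb
      have e : i + n • δ + (j + m • δ) = i + j + (n + m) • δ := by rw [add_smul]; abel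
      rwa [e] at this
    · rw [map_mul, ← hx, ← hy, pow_add]
      ring

/-- The inclusion of the homogeneous elements. -/
def incl (γ : Γ) : gR γ →ₗ[k] locGr gR f δ C hf γ where
  toFun x := ⟨algebraMap R C x, algebraMap_mem hf C x.2⟩
  map_add' x y := Subtype.ext (map_add _ _ _)
  map_smul' c x := Subtype.ext (by
    change algebraMap R C (c • (x : R)) = c • algebraMap R C x
    rw [Algebra.smul_def, Algebra.smul_def, map_mul, ← IsScalarTower.algebraMap_apply])

/-- The decomposition of the elements of `R`. -/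
noncomputable def decR : R →ₐ[k] ⨁ γ, locGr gR f δ C hf γ :=
  (DirectSum.toAlgebra k (fun γ => gR γ)
    (fun γ => (DirectSum.lof k Γ (fun γ => locGr gR f δ C hf γ) γ).comp (incl hf C γ))
    (by
      change DirectSum.of (fun γ => locGr gR f δ C hf γ) 0 _ = 1
      rw [DirectSum.one_def]
      congr 1
      exact Subtype.ext (map_one (algebraMap R C))) (by
      intro i j x y
      change DirectSum.of (fun γ => locGr gR f δ C hf γ) (i + j) _ =
        DirectSum.of (fun γ => locGr gR f δ C hf γ) i _ *
          DirectSum.of (fun γ => locGr gR f δ C hf γ) j _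
      rw [DirectSum.of_mul_of]
      congr 1
      exact Subtype.ext (map_mul (algebraMap R C) (x : R) (y : R)))).comp
    (DirectSum.decomposeAlgEquiv gR).toAlgHom

theorem decR_of_mem {γ : Γ} {a : R} (ha : a ∈ gR γ) :
    decR hf C a = DirectSum.of (fun γ => locGr gR f δ C hf γ) γ
      ⟨algebraMap R C a, algebraMap_mem hf C ha⟩ := by
  have h1 : (DirectSum.decomposeAlgEquiv gR).toAlgHom a =
      DirectSum.lof k Γ (fun γ => gR γ) γ ⟨a, ha⟩ := DirectSum.decompose_of_mem gR ha
  rw [decR, AlgHom.comp_apply, h1]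
  rw [DirectSum.toAlgebra_apply, DirectSum.lof_eq_of]
  exact DirectSum.toSemiring_of _ _ _ _ _

theorem decR_isUnit [IsLocalization.Away f C] : IsUnit (decR hf C f) := by
  obtain ⟨c, hc⟩ := (IsLocalization.Away.algebraMap_isUnit (S := C) f).exists_right_inv
  have hcm : c ∈ locGr gR f δ C hf (-δ) :=
    ⟨1, 1, by simpa using SetLike.one_mem_graded gR, by rw [pow_one, mul_comm, hc, map_one]⟩
  refine IsUnit.of_mul_eq_one (DirectSum.of (fun γ => locGr gR f δ C hf γ) (-δ) ⟨c, hcm⟩) ?_
  rw [decR_of_mem hf C hf, DirectSum.of_mul_of, DirectSum.one_def]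
  refine DirectSum.of_eq_of_gradedMonoid_eq (Sigma.subtype_ext ?_ ?_)
  · exact add_neg_cancel δ
  · exact hc

/-- The decomposition of the elements of the localization. -/
noncomputable def decC [IsLocalization.Away f C] : C →ₐ[k] ⨁ γ, locGr gR f δ C hf γ :=
  IsLocalization.liftAlgHom (M := Submonoid.powers f) (f := decR hf C) (by
    rintro ⟨_, n, rfl⟩
    rw [map_pow]
    exact (decR_isUnit hf C).pow n)

theorem decC_algebraMap [IsLocalization.Away f C] (a : R) :
    decC hf C (algebraMap R C a) = decR hf C a := by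
  rw [decC, IsLocalization.liftAlgHom_apply, IsLocalization.lift_eq]
  rfl

theorem decC_of_mem [IsLocalization.Away f C] {γ : Γ} {x : C}
    (hx : x ∈ locGr gR f δ C hf γ) :
    decC hf C x = DirectSum.of (fun γ => locGr gR f δ C hf γ) γ ⟨x, hx⟩ := by
  obtain ⟨n, a, ha, e⟩ := hx
  have h1 : decC hf C x * decR hf C f ^ n = decR hf C a := by
    rw [← decC_algebraMap, ← decC_algebraMap, ← map_pow, ← map_mul, e]
  have h2 : DirectSum.of (fun γ => locGr gR f δ C hf γ) γ ⟨x, ⟨n, a, ha, e⟩⟩ * decR hf C f ^ n =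
      decR hf C a := by
    rw [decR_of_mem hf C hf, DirectSum.ofPow, DirectSum.of_mul_of, decR_of_mem hf C ha]
    refine DirectSum.of_eq_of_gradedMonoid_eq (Sigma.subtype_ext rfl ?_)
    exact e
  exact ((decR_isUnit hf C).pow n).mul_right_cancel (h1.trans h2.symm)

/-- The localization is a graded algebra. -/
@[reducible] noncomputable def gradedAlgebra [IsLocalization.Away f C] :
    GradedAlgebra (locGr gR f δ C hf) :=
  GradedAlgebra.ofAlgHom _ (decC hf C) (by
    refine IsLocalization.algHom_ext (Submonoid.powers f) (AlgHom.ext fun a => ?_)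
    change DirectSum.coeAlgHom (locGr gR f δ C hf) (decC hf C (algebraMap R C a)) =
      algebraMap R C a
    rw [decC_algebraMap]
    induction a using DirectSum.Decomposition.inductionOn gR with
    | zero => simp
    | homogeneous x =>
      rw [decR_of_mem hf C x.2, DirectSum.coeAlgHom_of]
    | add a b ha hb => rw [map_add, map_add, ha, hb, map_add])
    (fun i x => decC_of_mem hf C x.2)

end

end Pool.Agent.SSF.GeoLoc
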