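import Pool.Agent.SSF.XEmb
import Pool.Agent.SSF.Geo.Iso
import Pool.Agent.SSF.Geo.Split

/-!
# SSF, geometry: `Proj` of the `F17`-form is smooth
-/

set_option autoImplicit false

namespace Pool.Agent.SSF.Geo

open CategoryTheory AlgebraicGeometry
open Pool.Agent.SSF Pool.Agent.SSF.Br

theorem hyp_closure (s : AlgebraicClosure F17) (hs : s ^ 2 = 3) :
    Hyp (AlgebraicClosure F17) s := by
  refine ⟨?_, hs⟩
  have h1 : (17 : F17) = 0 := by decide
  have h2 := congrArg (algebraMap F17 (AlgebraicClosure F17)) h1
  rwa [map_zero, map_ofNat] at h2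

/-- `Proj` of the form is smooth over the field with 17 elements. -/
theorem DF_smooth : Smooth (projOver DF.gA).hom := by
  obtain ⟨s, hs⟩ := IsAlgClosed.exists_pow_nat_eq (3 : AlgebraicClosure F17) (n := 2) (by norm_num)
  have h1 := smooth_split (AlgebraicClosure F17) s (hyp_closure s hs)
  let E := embS (AlgebraicClosure F17) s hs
  have h2 : Smooth (projOver (DF.bc (AlgebraicClosure F17)).gA).hom :=
    smooth_of_equiv E.α E.α_mem h1
  exact smooth_descent DF.gA (AlgebraicClosure F17) h2

end Pool.Agent.SSF.Geo
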