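import Pool.Agent.SSF.XGeom
import Pool.Agent.SSF.XDomF
import Pool.Agent.SSF.Geo.Closed
import Pool.Agent.SSF.Geo.Conn
import Pool.Agent.SSF.XSmooth

/-!
Project SSF (MP_5928ba): the example is a smooth projective geometrically connected variety over
the field with seventeen elements.
-/

set_option autoImplicit false

open scoped TensorProduct

namespace Pool.Agent.SSF

theorem DF_finite_one : Module.Finite F17 (DF.gA 1) :=
  Module.Finite.iff_fg.2 (Cox.gA_fg DF DF_good.fin 1)

theorem DF_adjoin_one : Algebra.adjoin F17 ((DF.gA 1 : Submodule F17 DF.A) : Set DF.A) = ⊤ := by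
  obtain ⟨s, hs, hs2⟩ := DF_gen
  exact top_le_iff.1 (hs2.symm.le.trans (Algebra.adjoin_mono hs))

theorem DF_projective : ∃ (n : ℕ) (i : Br.projOver DF.gA ⟶ projSpace F17 n),
    AlgebraicGeometry.IsClosedImmersion i.left :=
  Geo.exists_closed DF.gA DF_finite_one DF_adjoin_one

theorem xi_ne_zero (v : V) : xi F2 sF v ≠ 0 := by
  have h1 : mon F2 sF (Finsupp.single v 1) = xi F2 sF v := by
    rw [mon_single, pow_one]
  have hr : Red (Finsupp.single v 1) := by
    intro i
    constructor
    · rw [Finsupp.single_apply]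
      split_ifs <;> omega
    · rw [Finsupp.single_apply]
      split_ifs <;> omega
  have h2 := (monBasis F2 sF).ne_zero ⟨Finsupp.single v 1, hr⟩
  rw [monBasis_apply, h1] at h2
  exact h2

/-- The product of the squares of all generators. -/
noncomputable def allSq : R F2 sF := ∏ v : V, xi F2 sF v ^ 2

theorem allSq_mem : allSq ∈ gr F2 sF (2 • hh) := by
  have h1 : ∏ v : V, xi F2 sF v ^ 2 ∈ gr F2 sF (∑ v : V, 2 • e v) :=
    SetLike.prod_mem_graded (gr F2 sF) _ _ fun v _ => SetLike.pow_mem_graded 2 (xi_mem F2 sF v)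
  have h2 : ∑ v : V, 2 • e v = 2 • hh := by decide
  rw [h2] at h1
  exact h1

theorem sigR_allSq : sigR allSq = allSq := by
  rw [allSq, map_prod]
  have h1 : ∀ v : V, sigR (xi F2 sF v ^ 2) = xi F2 sF (sV v) ^ 2 := fun v => by
    rw [map_pow, sigR, conjR_xi]
  simp only [h1]
  exact Equiv.prod_comp (Function.Involutive.toPerm sV sV_sV) fun v => xi F2 sF v ^ 2

theorem allSq_ne_zero : allSq ≠ 0 := by
  have := RS_isDomain F2 sF hyp_F2
  exact Finset.prod_ne_zero_iff.2 fun v _ => pow_ne_zero 2 (xi_ne_zero v)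

theorem DF_nonzero : ∃ n, 0 < n ∧ ∃ x ∈ DF.gA n, x ≠ 0 := by
  have h0 : (2 • hh : Lam) ∈ Lsig := Lsig.nsmul_mem sL_hh 2
  let y : RF := ⟨allSq, XDesc.mem_RF_of h0 allSq_mem sigR_allSq⟩
  have hy : y ∈ grF (2 • hF) := allSq_mem
  refine ⟨2, by norm_num, (⟨y, mem_ver_of_mem grF hF hy⟩ : ver grF hF), hy, ?_⟩
  intro h
  have h1 : y = 0 := congrArg Subtype.val h
  have h2 : allSq = 0 := congrArg Subtype.val h1
  exact allSq_ne_zero h2

theorem DF_connected : AlgebraicGeometry.GeometricallyConnected (Br.projOver DF.gA).hom :=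
  Geo.geomConnected DF.gA (fun K _ _ => DF_bc_A_isDomain K) DF_nonzero

theorem DF_isNice_of (h : AlgebraicGeometry.Smooth (Br.projOver DF.gA).hom) :
    IsNice (Br.projOver DF.gA) :=
  ⟨h, DF_projective, DF_connected⟩

/-- The example is a smooth projective geometrically connected variety. -/
theorem DF_isNice : IsNice (Br.projOver DF.gA) := DF_isNice_of Geo.DF_smooth

end Pool.Agent.SSF
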