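import Pool.Agent.SSF.XPrDefs

/-!
Project SSF (MP_5928ba): points of the example over an algebraically closed field, and the
elements which define the rational functions.
-/

set_option autoImplicit false

namespace Pool.Agent.SSF

open MvPolynomial

namespace XNon

variable (L : Type) [Field L] (s : L)

/-- `m = ξ11⁴ ξ21⁴ ξ31² ξ43⁴`. -/
noncomputable def m : R L s :=
  xi L s (0, 0) ^ 4 * xi L s (1, 0) ^ 4 * xi L s (2, 0) ^ 2 * xi L s (3, 2) ^ 4

/-- `m' = ξ11⁴ ξ21⁴ ξ32⁴ ξ41²`. -/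
noncomputable def m' : R L s :=
  xi L s (0, 0) ^ 4 * xi L s (1, 0) ^ 4 * xi L s (2, 1) ^ 4 * xi L s (3, 0) ^ 2

/-- The degree of `m`. -/
def dm : Lam := hh - Fc 2

/-- The degree of `m'`. -/
def dm' : Lam := hh - Fc 3

theorem xi_pow_mem (v : V) (n : ℕ) : xi L s v ^ n ∈ gr L s (n • e v) :=
  SetLike.pow_mem_graded n (xi_mem L s v)

theorem xi_sq_mem (v : V) : xi L s v ^ 2 ∈ gr L s (Fc v.1) := by
  rw [← two_e]
  exact xi_pow_mem L s v 2

theorem m_mem : m L s ∈ gr L s dm := by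
  have h1 := SetLike.mul_mem_graded (SetLike.mul_mem_graded (SetLike.mul_mem_graded
    (xi_pow_mem L s (0, 0) 4) (xi_pow_mem L s (1, 0) 4)) (xi_pow_mem L s (2, 0) 2))
    (xi_pow_mem L s (3, 2) 4)
  have h2 : 4 • e (0, 0) + 4 • e (1, 0) + 2 • e (2, 0) + 4 • e (3, 2) = dm := by decide
  rw [h2] at h1
  exact h1

theorem m'_mem : m' L s ∈ gr L s dm' := by
  have h1 := SetLike.mul_mem_graded (SetLike.mul_mem_graded (SetLike.mul_mem_graded
    (xi_pow_mem L s (0, 0) 4) (xi_pow_mem L s (1, 0) 4)) (xi_pow_mem L s (2, 1) 4))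
    (xi_pow_mem L s (3, 0) 2)
  have h2 : 4 • e (0, 0) + 4 • e (1, 0) + 4 • e (2, 1) + 2 • e (3, 0) = dm' := by decide
  rw [h2] at h1
  exact h1

theorem lam3_mem : lam3 L s ∈ gr L s (Fc 2) :=
  Submodule.sub_mem _ (xi_sq_mem L s (2, 0)) (xi_sq_mem L s (2, 1))

theorem a_mem (c : L) : algebraMap L (R L s) c * lam3 L s * m L s ∈ gr L s (1 • hh) := by
  have h1 := SetLike.mul_mem_graded (SetLike.mul_mem_graded
    (SetLike.algebraMap_mem_graded (gr L s) c) (lam3_mem L s)) (m_mem L s)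
  have h2 : (0 : Lam) + Fc 2 + dm = 1 • hh := by decide
  rwa [h2] at h1

theorem b_mem : xi L s (2, 0) ^ 2 * m L s ∈ gr L s (1 • hh) := by
  have h1 := SetLike.mul_mem_graded (xi_sq_mem L s (2, 0)) (m_mem L s)
  have h2 : Fc 2 + dm = 1 • hh := by decide
  rwa [h2] at h1

theorem a'_mem : xi L s (3, 0) ^ 2 * m' L s ∈ gr L s (1 • hh) := by
  have h1 := SetLike.mul_mem_graded (xi_sq_mem L s (3, 0)) (m'_mem L s)
  have h2 : Fc 3 + dm' = 1 • hh := by decide
  rwa [h2] at h1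

theorem b'_mem : xi L s (3, 1) ^ 2 * m' L s ∈ gr L s (1 • hh) := by
  have h1 := SetLike.mul_mem_graded (xi_sq_mem L s (3, 1)) (m'_mem L s)
  have h2 : Fc 3 + dm' = 1 • hh := by decide
  rwa [h2] at h1

/-- Points with prescribed values of `ξ_i1`, `ξ_i2`. -/
theorem exists_eval [IsAlgClosed L] (α β : Fin 4 → L) : ∃ f : R L s →ₐ[L] L,
    (∀ i, f (xi L s (i, 0)) = α i) ∧ (∀ i, f (xi L s (i, 1)) = β i) ∧
    (∀ i, f (xi L s (i, 2)) ^ 2 = ca s i * α i ^ 2 + cb s i * β i ^ 2) ∧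
    (∀ i, f (xi L s (i, 3)) ^ 2 = cc s i * α i ^ 2 + cd s i * β i ^ 2) := by
  have h2 : ∀ i, ∃ z : L, z ^ 2 = ca s i * α i ^ 2 + cb s i * β i ^ 2 := fun i =>
    IsAlgClosed.exists_pow_nat_eq _ (by norm_num)
  have h3 : ∀ i, ∃ z : L, z ^ 2 = cc s i * α i ^ 2 + cd s i * β i ^ 2 := fun i =>
    IsAlgClosed.exists_pow_nat_eq _ (by norm_num)
  choose y hy using h2
  choose z hz using h3
  let val : V → L := fun v => ![α v.1, β v.1, y v.1, z v.1] v.2
  let g : MvPolynomial V L →ₐ[L] L := aeval val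
  have hX : ∀ v, g (X v) = val v := fun v => aeval_X _ _
  have hC : ∀ c, g (C c) = c := fun c => aeval_C _ _
  have hker : ∀ a ∈ relI L s, g a = 0 := by
    intro a ha
    have hle : relI L s ≤ RingHom.ker g.toRingHom := by
      unfold relI
      rw [Ideal.span_le]
      rintro _ (⟨i, rfl⟩ | ⟨i, rfl⟩)
      · change g (rel2 L s i) = 0
        unfold rel2
        rw [map_sub, map_add, map_mul, map_mul, map_pow, map_pow, map_pow, hX, hX, hX, hC, hC]
        change y i ^ 2 - (ca s i * α i ^ 2 + cb s i * β i ^ 2) = 0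
        rw [hy, sub_self]
      · change g (rel3 L s i) = 0
        unfold rel3
        rw [map_sub, map_add, map_mul, map_mul, map_pow, map_pow, map_pow, hX, hX, hX, hC, hC]
        change z i ^ 2 - (cc s i * α i ^ 2 + cd s i * β i ^ 2) = 0
        rw [hz, sub_self]
    exact hle ha
  let f : R L s →ₐ[L] L := Ideal.Quotient.liftₐ (relI L s) g hker
  have hf : ∀ v, f (xi L s v) = val v := fun v => (Ideal.Quotient.liftₐ_apply _ _ _ _).trans (hX v)
  refine ⟨f, fun i => ?_, fun i => ?_, fun i => ?_, fun i => ?_⟩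
  · rw [hf]; rfl
  · rw [hf]; rfl
  · rw [hf]; exact hy i
  · rw [hf]; exact hz i

theorem notMem_of_hom (f : R L s →ₐ[L] L) (J : Ideal (R L s)) (x : R L s)
    (hJ : J ≤ RingHom.ker f.toRingHom) (hx : f x ≠ 0) : x ∉ J := fun h => hx (hJ h)

/-- `c lam3 m` and `ξ31² m` are not in the ideals of `V_1`, `V_2`. -/
theorem ab_notMem [IsAlgClosed L] (a : Fin 2) (c : L) (hc : c ≠ 0) :
    algebraMap L (R L s) c * lam3 L s * m L s ∉ JV L s a ∧
      xi L s (2, 0) ^ 2 * m L s ∉ JV L s a := by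
  fin_cases a
  · obtain ⟨f, f0, f1, f2, f3⟩ := exists_eval L s ![1, 1, 1, 0] ![0, 0, 0, 1]
    have hJ : JV L s 0 ≤ RingHom.ker f.toRingHom := by
      unfold JV
      rw [Ideal.span_singleton_le_iff_mem]
      exact f0 3
    have e1 : f (xi L s (0, 0)) = 1 := f0 0
    have e2 : f (xi L s (1, 0)) = 1 := f0 1
    have e3 : f (xi L s (2, 0)) = 1 := f0 2
    have e4 : f (xi L s (2, 1)) = 0 := f1 2
    have e5 : f (xi L s (3, 2)) ^ 4 = 1 := by
      have h := f2 3
      have h' : f (xi L s (3, 2)) ^ 2 = -1 := by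
        rw [h]; simp [ca, cb]
      have : f (xi L s (3, 2)) ^ 4 = (f (xi L s (3, 2)) ^ 2) ^ 2 := by ring
      rw [this, h']; ring
    constructor
    · refine notMem_of_hom L s f _ _ hJ ?_
      simp [m, lam3, e1, e2, e3, e4, e5, hc]
    · refine notMem_of_hom L s f _ _ hJ ?_
      simp [m, e1, e2, e3, e5]
  · obtain ⟨f, f0, f1, f2, f3⟩ := exists_eval L s ![1, 1, 1, 1] ![0, 0, 0, 0]
    have hJ : JV L s 1 ≤ RingHom.ker f.toRingHom := by
      unfold JV
      rw [Ideal.span_singleton_le_iff_mem]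
      exact f1 3
    have e1 : f (xi L s (0, 0)) = 1 := f0 0
    have e2 : f (xi L s (1, 0)) = 1 := f0 1
    have e3 : f (xi L s (2, 0)) = 1 := f0 2
    have e4 : f (xi L s (2, 1)) = 0 := f1 2
    have e5 : f (xi L s (3, 2)) ^ 4 = 1 := by
      have h := f2 3
      have h' : f (xi L s (3, 2)) ^ 2 = 1 := by
        rw [h]; simp [ca, cb]
      have : f (xi L s (3, 2)) ^ 4 = (f (xi L s (3, 2)) ^ 2) ^ 2 := by ring
      rw [this, h']; ring
    constructor
    · refine notMem_of_hom L s f _ _ hJ ?_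
      simp [m, lam3, e1, e2, e3, e4, e5, hc]
    · refine notMem_of_hom L s f _ _ hJ ?_
      simp [m, e1, e2, e3, e5]

/-- `ξ41² m'` and `ξ42² m'` are not in the ideal of `U`. -/
theorem ab'_notMem [IsAlgClosed L] :
    xi L s (3, 0) ^ 2 * m' L s ∉ JU L s ∧ xi L s (3, 1) ^ 2 * m' L s ∉ JU L s := by
  obtain ⟨f, f0, f1, f2, f3⟩ := exists_eval L s ![1, 1, 0, 1] ![0, 0, 1, 1]
  have hJ : JU L s ≤ RingHom.ker f.toRingHom := by
    unfold JU
    rw [Ideal.span_singleton_le_iff_mem]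
    exact f0 2
  have e1 : f (xi L s (0, 0)) = 1 := f0 0
  have e2 : f (xi L s (1, 0)) = 1 := f0 1
  have e3 : f (xi L s (2, 1)) = 1 := f1 2
  have e4 : f (xi L s (3, 0)) = 1 := f0 3
  have e5 : f (xi L s (3, 1)) = 1 := f1 3
  constructor
  · refine notMem_of_hom L s f _ _ hJ ?_
    simp [m', e1, e2, e3, e4]
  · refine notMem_of_hom L s f _ _ hJ ?_
    simp [m', e1, e2, e3, e4, e5]

end XNon

end Pool.Agent.SSF
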