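import Mathlib

/-! # The kernel of `K^* / squares → L^* / squares` for `L = K(θ)`, `θ^4 = n` -/

set_option autoImplicit false

namespace Pool.Agent.SSF

section ker

variable {K L : Type*} [Field K] [Field L] [Algebra K L]

theorem ker_indep {n : K} {s : L} (hn : ¬ IsSquare n) (hs : s ^ 2 = algebraMap K L n) {x y : K}
    (h : algebraMap K L x + algebraMap K L y * s = 0) : x = 0 ∧ y = 0 := by
  have hy : y = 0 := by
    by_contra hy
    apply hn
    refine ⟨x / y, ?_⟩
    apply (algebraMap K L).injective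
    have hy' : algebraMap K L y ≠ 0 := by
      rwa [Ne, map_eq_zero]
    have h1 : s = -(algebraMap K L x / algebraMap K L y) := by
      field_simp
      linear_combination h
    rw [map_mul, map_div₀, ← hs, h1]
    ring
  subst hy
  rw [map_zero, zero_mul, add_zero, map_eq_zero] at h
  exact ⟨h, rfl⟩

theorem ker_inv {n : K} {s : L} (hn : ¬ IsSquare n) (hs : s ^ 2 = algebraMap K L n) {x y : K}
    (h : algebraMap K L x + algebraMap K L y * s ≠ 0) : ∃ z w : K,
      (algebraMap K L x + algebraMap K L y * s) * (algebraMap K L z + algebraMap K L w * s) = 1 := by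
  have hN : x ^ 2 - n * y ^ 2 ≠ 0 := by
    intro h0
    by_cases hy : y = 0
    · subst hy
      have hx : x = 0 := by
        have : x ^ 2 = 0 := by linear_combination h0
        exact pow_eq_zero_iff (two_ne_zero) |>.1 this
      subst hx
      simp at h
    · apply hn
      refine ⟨x / y, ?_⟩
      field_simp
      linear_combination -h0
  refine ⟨x / (x ^ 2 - n * y ^ 2), -y / (x ^ 2 - n * y ^ 2), ?_⟩
  have hN' : algebraMap K L (x ^ 2 - n * y ^ 2) ≠ 0 := (map_ne_zero (algebraMap K L)).2 hN
  have hN2 : algebraMap K L (x ^ 2 - n * y ^ 2) =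
      algebraMap K L x ^ 2 - s ^ 2 * algebraMap K L y ^ 2 := by
    rw [hs]; simp only [map_sub, map_mul, map_pow]
  rw [map_div₀, map_div₀, map_neg]
  calc _ = (algebraMap K L x ^ 2 - s ^ 2 * algebraMap K L y ^ 2) *
        (algebraMap K L (x ^ 2 - n * y ^ 2))⁻¹ := by
          rw [div_eq_mul_inv, div_eq_mul_inv]; ring
    _ = 1 := by rw [← hN2, mul_inv_cancel₀ hN']

/-- Let `L = K(θ)` with `θ^4 = n`, `n` not a square in `K`, `-1` a square in `K` and `2 ≠ 0`.
An element of `K` which is a square in `L` is `1` or `n` times a square of `K`. -/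
theorem ker_square (h2 : (2 : K) ≠ 0) {i n : K} (hi : i ^ 2 = -1) (hn : ¬ IsSquare n) {θ : L}
    (hθ : θ ^ 4 = algebraMap K L n)
    (hspan : ∀ b : L, ∃ c₀ c₁ c₂ c₃ : K, b = algebraMap K L c₀ + algebraMap K L c₁ * θ +
      algebraMap K L c₂ * θ ^ 2 + algebraMap K L c₃ * θ ^ 3) {a : K}
    (ha : IsSquare (algebraMap K L a)) : IsSquare a ∨ IsSquare (n * a) := by
  set s : L := θ ^ 2 with hs'
  have hs : s ^ 2 = algebraMap K L n := by rw [hs', ← hθ]; ring
  have hn0 : n ≠ 0 := fun h => hn (by rw [h]; exact ⟨0, by simp⟩)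
  -- `θ` is not in `K(s)`
  have hθs : ∀ x y : K, θ ≠ algebraMap K L x + algebraMap K L y * s := by
    intro x y h
    have h1 : algebraMap K L (x ^ 2 + n * y ^ 2) + algebraMap K L (2 * x * y - 1) * s = 0 := by
      simp only [map_add, map_mul, map_pow, map_sub, map_one, map_ofNat]
      rw [← hs]
      have : s = (algebraMap K L x + algebraMap K L y * s) ^ 2 := by rw [← h]
      linear_combination -this
    obtain ⟨h3, h4⟩ := ker_indep hn hs h1
    have hy : y ≠ 0 := by
      rintro rfl
      rw [mul_zero, zero_sub] at h4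
      exact one_ne_zero (neg_eq_zero.1 h4)
    apply hn
    refine ⟨i * (x / y), ?_⟩
    field_simp
    linear_combination h3 - x ^ 2 * hi
  obtain ⟨b, hb⟩ := ha
  obtain ⟨c₀, c₁, c₂, c₃, rfl⟩ := hspan b
  set u : L := algebraMap K L c₀ + algebraMap K L c₂ * s with hu
  set v : L := algebraMap K L c₁ + algebraMap K L c₃ * s with hv
  have hb' : algebraMap K L a = u ^ 2 + v ^ 2 * s + 2 * u * v * θ := by
    rw [hb, hu, hv, hs']; ring
  have huv : u * v = 0 := by
    by_contra huv
    -- `u v = x + y s`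
    have h1 : 2 * u * v = algebraMap K L (2 * (c₀ * c₁ + n * c₂ * c₃)) +
        algebraMap K L (2 * (c₀ * c₃ + c₂ * c₁)) * s := by
      simp only [map_add, map_mul, map_ofNat]
      rw [← hs, hu, hv]; ring
    have h20 : (2 : L) ≠ 0 := by
      rw [← map_ofNat (algebraMap K L) 2]
      exact (map_ne_zero (algebraMap K L)).2 h2
    have h3 : 2 * u * v ≠ 0 := by
      rw [mul_assoc]; exact mul_ne_zero h20 huv
    rw [h1] at h3
    obtain ⟨z, w, hzw⟩ := ker_inv hn hs h3
    rw [← h1] at hzw
    have h4 : θ = (algebraMap K L a - u ^ 2 - v ^ 2 * s) *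
        (algebraMap K L z + algebraMap K L w * s) := by
      have : 2 * u * v * θ = algebraMap K L a - u ^ 2 - v ^ 2 * s := by
        rw [hb']; ring
      rw [← this]
      calc θ = 1 * θ := (one_mul θ).symm
        _ = (2 * u * v * (algebraMap K L z + algebraMap K L w * s)) * θ := by rw [hzw]
        _ = _ := by ring
    -- the right hand side is in `K(s)`
    apply hθs ((a - c₀ ^ 2 - n * c₂ ^ 2 - 2 * n * c₁ * c₃) * z +
        n * (-(2 * c₀ * c₂) - c₁ ^ 2 - n * c₃ ^ 2) * w)
      ((a - c₀ ^ 2 - n * c₂ ^ 2 - 2 * n * c₁ * c₃) * w +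
        (-(2 * c₀ * c₂) - c₁ ^ 2 - n * c₃ ^ 2) * z)
    rw [h4, hu, hv]
    simp only [map_add, map_mul, map_sub, map_pow, map_neg, map_ofNat]
    rw [← hs]
    ring
  rcases mul_eq_zero.1 huv with h | h
  · -- `u = 0`
    have h0 := ker_indep hn hs (x := c₁ ^ 2 + n * c₃ ^ 2) (y := 0)
    have h1 : algebraMap K L (2 * n * c₁ * c₃ - a) +
        algebraMap K L (c₁ ^ 2 + n * c₃ ^ 2) * s = 0 := by
      have : algebraMap K L a = v ^ 2 * s := by rw [hb', h]; ring
      simp only [map_add, map_mul, map_sub, map_pow, map_ofNat]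
      rw [this, ← hs, hv]; ring
    obtain ⟨h3, h4⟩ := ker_indep hn hs h1
    by_cases hc : c₃ = 0
    · left
      refine ⟨0, ?_⟩
      rw [hc] at h3
      linear_combination -h3
    · exfalso
      apply hn
      refine ⟨i * (c₁ / c₃), ?_⟩
      field_simp
      linear_combination h4 - c₁ ^ 2 * hi
  · -- `v = 0`
    have h1 : algebraMap K L (c₀ ^ 2 + n * c₂ ^ 2 - a) +
        algebraMap K L (2 * c₀ * c₂) * s = 0 := by
      have : algebraMap K L a = u ^ 2 := by rw [hb', h]; ring
      simp only [map_add, map_mul, map_sub, map_pow, map_ofNat]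
      rw [this, ← hs, hu]; ring
    obtain ⟨h3, h4⟩ := ker_indep hn hs h1
    have h5 : c₀ * c₂ = 0 := by
      have : (2 : K) * (c₀ * c₂) = 0 := by linear_combination h4
      exact (mul_eq_zero.1 this).resolve_left h2
    rcases mul_eq_zero.1 h5 with h6 | h6
    · right
      refine ⟨n * c₂, ?_⟩
      rw [h6] at h3
      linear_combination -n * h3
    · left
      refine ⟨c₀, ?_⟩
      rw [h6] at h3
      linear_combination -h3

end ker

section exist

open Polynomial

universe u

variable {K : Type u} [Field K]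

theorem ker_irr (h2 : (2 : K) ≠ 0) {i n : K} (hi : i ^ 2 = -1) (hn : ¬ IsSquare n) :
    Irreducible (X ^ 4 - C n : K[X]) := by
  have hn' : ∀ b : K, b ^ 2 ≠ n := fun b hb => hn ⟨b, by rw [← hb]; ring⟩
  have h1 : Irreducible (X ^ 2 - C n : K[X]) := X_pow_sub_C_irreducible_of_prime Nat.prime_two hn'
  have h3 : Irreducible (X ^ (2 * 2) - C n : K[X]) := by
    apply X_pow_mul_sub_C_irreducible h1
    intro E _ _ x hx
    apply X_pow_sub_C_irreducible_of_prime Nat.prime_two
    intro b hb
    have hxi : IsIntegral K x := by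
      by_contra hx'
      rw [minpoly.eq_zero hx'] at hx
      exact h1.ne_zero hx.symm
    have hxx : x ^ 2 = algebraMap K E n := by
      have := minpoly.aeval K x
      rw [hx] at this
      simpa [sub_eq_zero] using this
    -- `b = c + d x`
    have hb2 : ((b : IntermediateField.adjoin K {x}) : E) ^ 2 = x := by
      have := congrArg (fun t : IntermediateField.adjoin K {x} => (t : E)) hb
      simpa using this
    obtain ⟨c, d, hcd⟩ : ∃ c d : K, (b : E) = algebraMap K E c + algebraMap K E d * x := by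
      have hbm : (b : E) ∈ Algebra.adjoin K {x} := by
        rw [← IntermediateField.adjoin_simple_toSubalgebra_of_isAlgebraic hxi.isAlgebraic]
        exact b.2
      rw [Algebra.adjoin_singleton_eq_range_aeval] at hbm
      obtain ⟨P, hP⟩ := hbm
      have hmon : (X ^ 2 - C n : K[X]).Monic := monic_X_pow_sub_C n two_ne_zero
      have hdeg : (P %ₘ (X ^ 2 - C n)).natDegree < 2 := by
        have := natDegree_modByMonic_lt P hmon (by
          intro h
          have h1 := congrArg natDegree h
          rw [natDegree_X_pow_sub_C, natDegree_one] at h1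
          omega)
        rwa [natDegree_X_pow_sub_C] at this
      have h4 : aeval x (P %ₘ (X ^ 2 - C n)) = (b : E) := by
        have h5 := congrArg (aeval x) (modByMonic_add_div P (X ^ 2 - C n))
        rw [map_add, map_mul, map_sub, map_pow, aeval_X, aeval_C, hxx, sub_self, zero_mul,
          add_zero] at h5
        rw [h5]
        exact hP
      rw [(P %ₘ (X ^ 2 - C n)).as_sum_range' 2 hdeg] at h4
      refine ⟨(P %ₘ (X ^ 2 - C n)).coeff 0, (P %ₘ (X ^ 2 - C n)).coeff 1, ?_⟩
      rw [← h4, map_sum]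
      simp only [Finset.sum_range_succ, Finset.sum_range_zero, aeval_monomial, pow_zero, pow_one]
      ring
    have h6 : algebraMap K E (c ^ 2 + n * d ^ 2) + algebraMap K E (2 * c * d - 1) * x = 0 := by
      simp only [map_add, map_mul, map_pow, map_sub, map_one, map_ofNat]
      rw [← hxx]
      rw [hcd] at hb2
      linear_combination hb2
    obtain ⟨h7, h8⟩ := ker_indep hn hxx h6
    have hd : d ≠ 0 := by
      rintro rfl
      rw [mul_zero, zero_sub] at h8
      exact one_ne_zero (neg_eq_zero.1 h8)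
    apply hn
    refine ⟨i * (c / d), ?_⟩
    field_simp
    linear_combination h7 - c ^ 2 * hi
  exact h3

/-- There is a field `L = K(θ)` with `θ^4 = n`. -/
theorem exists_ker_field (h2 : (2 : K) ≠ 0) {i n : K} (hi : i ^ 2 = -1) (hn : ¬ IsSquare n) :
    ∃ (L : Type u) (_ : Field L) (_ : Algebra K L) (θ : L), θ ^ 4 = algebraMap K L n ∧
      ∀ b : L, ∃ c₀ c₁ c₂ c₃ : K, b = algebraMap K L c₀ + algebraMap K L c₁ * θ +
        algebraMap K L c₂ * θ ^ 2 + algebraMap K L c₃ * θ ^ 3 := by
  have hirr := ker_irr h2 hi hn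
  have : Fact (Irreducible (X ^ 4 - C n : K[X])) := ⟨hirr⟩
  refine ⟨AdjoinRoot (X ^ 4 - C n : K[X]), inferInstance, inferInstance, AdjoinRoot.root _, ?_, ?_⟩
  · have := AdjoinRoot.eval₂_root (X ^ 4 - C n : K[X])
    simp only [eval₂_sub, eval₂_pow, eval₂_X, eval₂_C] at this
    exact sub_eq_zero.1 this
  · intro b
    obtain ⟨P, rfl⟩ := AdjoinRoot.mk_surjective b
    have hmon : (X ^ 4 - C n : K[X]).Monic := monic_X_pow_sub_C n (by norm_num)
    set Q := P %ₘ (X ^ 4 - C n) with hQ
    have hdeg : Q.natDegree < 4 := by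
      have := natDegree_modByMonic_lt P hmon (by
        intro h
        have h1 := congrArg natDegree h
        rw [natDegree_X_pow_sub_C, natDegree_one] at h1
        omega)
      rwa [natDegree_X_pow_sub_C] at this
    have h1 : AdjoinRoot.mk (X ^ 4 - C n) P = AdjoinRoot.mk (X ^ 4 - C n) Q := by
      rw [AdjoinRoot.mk_eq_mk]
      refine ⟨P /ₘ (X ^ 4 - C n), ?_⟩
      have := modByMonic_add_div P (X ^ 4 - C n)
      rw [← hQ] at this
      linear_combination -this
    refine ⟨Q.coeff 0, Q.coeff 1, Q.coeff 2, Q.coeff 3, ?_⟩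
    rw [h1]
    conv_lhs => rw [Q.as_sum_range' 4 hdeg]
    rw [map_sum]
    simp only [Finset.sum_range_succ, Finset.sum_range_zero, ← C_mul_X_pow_eq_monomial, map_mul,
      map_pow, AdjoinRoot.mk_X, AdjoinRoot.mk_C]
    simp only [AdjoinRoot.algebraMap_eq]
    ring

end exist

section dvr

open Polynomial

variable {O K κ : Type*} [CommRing O] [IsDomain O] [IsIntegrallyClosed O] [Field K] [Algebra O K]
  [IsFractionRing O K] [CommRing κ]

theorem isSquare_of_frac {a : O} (h : IsSquare (algebraMap O K a)) : IsSquare a := by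
  obtain ⟨b, hb⟩ := h
  have hint : IsIntegral O b := by
    refine ⟨X ^ 2 - C a, monic_X_pow_sub_C a two_ne_zero, ?_⟩
    simp only [eval₂_sub, eval₂_pow, eval₂_X, eval₂_C]
    rw [hb]; ring
  obtain ⟨c, hc⟩ := IsIntegrallyClosed.isIntegral_iff.1 hint
  refine ⟨c, ?_⟩
  apply IsFractionRing.injective O K
  rw [map_mul, hc, hb]

theorem isSquare_residue (f : O →+* κ) {a : O} (h : IsSquare (algebraMap O K a)) :
    IsSquare (f a) := by
  obtain ⟨c, hc⟩ := isSquare_of_frac h
  exact ⟨f c, by rw [hc, map_mul]⟩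

/-- If `n` is not a square in the residue field, it is not a square in the fraction field. -/
theorem not_isSquare_frac (f : O →+* κ) {n : O} (h : ¬ IsSquare (f n)) :
    ¬ IsSquare (algebraMap O K n) := fun h' => h (isSquare_residue f h')

end dvr

end Pool.Agent.SSF
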