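import Pool.Agent.SSF.XHyp
import Pool.Agent.SSF.Ker

/-!
Project SSF (MP_5928ba): the products of the quadratic forms `q v` are not squares.
-/

set_option autoImplicit false

namespace Pool.Agent.SSF

open MvPolynomial

section coef

variable {K : Type} [Field K] {s : K}

theorem Hyp.s_ne (h : Hyp K s) : s ≠ 0 := by
  intro hs
  have h1 := h.2
  rw [hs] at h1
  have h3 : (3 : K) = 0 := by rw [← h1]; ring
  have : (1 : K) = 0 := by linear_combination (6 : K) * h3 - h.1
  exact one_ne_zero this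

theorem Hyp.two_ne (h : Hyp K s) : (2 : K) ≠ 0 := by
  intro h2
  have : (1 : K) = 0 := by linear_combination h.1 - 8 * h2
  exact one_ne_zero this

theorem Hyp.ca_ne (h : Hyp K s) (i : Fin 4) : ca s i ≠ 0 := by
  have h1 : (1 : K) + (s + s) ≠ 0 := by
    intro h0
    have : (1 : K) = 0 := by
      linear_combination (3 : K) * (1 - (s + s)) * h0 + 12 * h.2 + 2 * h.1
    exact one_ne_zero this
  fin_cases i <;> simp [ca, h1]

theorem Hyp.cd_ne (h : Hyp K s) (i : Fin 4) : cd s i ≠ 0 := by
  have h1 : (1 : K) - (s + s) ≠ 0 := by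
    intro h0
    have : (1 : K) = 0 := by
      linear_combination (3 : K) * (1 + (s + s)) * h0 + 12 * h.2 + 2 * h.1
    exact one_ne_zero this
  fin_cases i <;> simp [cd, h1, h.s_ne]

theorem Hyp.cb_ne (h : Hyp K s) (i : Fin 4) : cb s i ≠ 0 := by
  fin_cases i <;> simp [cb, h.s_ne]

theorem Hyp.cc_ne (_h : Hyp K s) (i : Fin 4) : cc s i ≠ 0 := by
  fin_cases i <;> simp [cc]

theorem Hyp.det_ne (h : Hyp K s) (i : Fin 4) : ca s i * cd s i - cb s i * cc s i ≠ 0 := by
  have h1 : s + s ≠ 0 := by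
    intro h0
    have : 2 * s = 0 := by linear_combination h0
    rcases mul_eq_zero.1 this with h2 | h2
    · exact h.two_ne h2
    · exact h.s_ne h2
  fin_cases i
  · simpa [ca, cb, cc, cd] using h1
  · simp only [ca, cb, cc, cd]
    intro h0
    have h2 : (s + s) * (s + s) = 0 := by
      simp at h0
      linear_combination -h0
    exact h1 (mul_self_eq_zero.1 h2)
  · simp only [ca, cb, cc, cd]
    intro h0
    have h2 : (s + s) * (s + s) = 0 := by
      simp at h0
      linear_combination -h0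
    exact h1 (mul_self_eq_zero.1 h2)
  · simp only [ca, cb, cc, cd]
    intro h0
    apply h.two_ne
    simp at h0
    linear_combination h0

end coef

section nsq

variable (K : Type) [Field K] (s : K)

/-- The eight quadratic forms. -/
noncomputable def q (v : Fin 4 × Fin 2) : MvPolynomial (Fin 4 × Fin 2) K :=
  if v.2 = 0 then C (ca s v.1) * X (v.1, 0) ^ 2 + C (cb s v.1) * X (v.1, 1) ^ 2
  else C (cc s v.1) * X (v.1, 0) ^ 2 + C (cd s v.1) * X (v.1, 1) ^ 2

/-- Leading coefficients. -/
def qa (v : Fin 4 × Fin 2) : K := if v.2 = 0 then ca s v.1 else cc s v.1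
/-- Constant coefficients. -/
def qb (v : Fin 4 × Fin 2) : K := if v.2 = 0 then cb s v.1 else cd s v.1

theorem q_eq (v : Fin 4 × Fin 2) :
    q K s v = C (qa K s v) * X (v.1, 0) ^ 2 + C (qb K s v) * X (v.1, 1) ^ 2 := by
  unfold q qa qb
  split_ifs <;> rfl

variable {K s}

theorem qa_ne (h : Hyp K s) (v : Fin 4 × Fin 2) : qa K s v ≠ 0 := by
  unfold qa
  split_ifs
  · exact h.ca_ne _
  · exact h.cc_ne _

theorem qb_ne (h : Hyp K s) (v : Fin 4 × Fin 2) : qb K s v ≠ 0 := by
  unfold qb
  split_ifs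
  · exact h.cb_ne _
  · exact h.cd_ne _

/-- The specialisation to one variable in row `i`. -/
noncomputable def spec (K : Type) [Field K] (i : Fin 4) :
    MvPolynomial (Fin 4 × Fin 2) K →ₐ[K] Polynomial K :=
  aeval fun v => if v.1 = i then (if v.2 = 0 then Polynomial.X else 1)
    else (if v.2 = 0 then 1 else 0)

theorem spec_q (i : Fin 4) (v : Fin 4 × Fin 2) :
    spec K i (q K s v) = if v.1 = i then
      Polynomial.C (qa K s v) * Polynomial.X ^ 2 + Polynomial.C (qb K s v)
      else Polynomial.C (qa K s v) := by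
  rw [q_eq]
  have hC : ∀ c : K, spec K i (C c) = Polynomial.C c := fun c => by
    simp [spec, Polynomial.algebraMap_eq]
  rw [map_add, map_mul, map_mul, hC, hC, map_pow, map_pow]
  have h0 : spec K i (X (v.1, 0)) = if v.1 = i then Polynomial.X else 1 := by simp [spec]
  have h1 : spec K i (X (v.1, 1)) = if v.1 = i then 1 else 0 := by simp [spec]
  rw [h0, h1]
  split_ifs <;> simp

theorem q_ne_zero (h : Hyp K s) (v : Fin 4 × Fin 2) : q K s v ≠ 0 := by
  intro h0
  have h1 := spec_q (K := K) (s := s) (v.1 + 1) v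
  rw [h0, map_zero, if_neg (by
    intro h2
    have : ∀ i : Fin 4, i ≠ i + 1 := by decide
    exact this _ h2)] at h1
  exact qa_ne h v (Polynomial.C_eq_zero.1 h1.symm)

theorem sep_quad (h : Hyp K s) (v : Fin 4 × Fin 2) :
    (Polynomial.C (qa K s v) * Polynomial.X ^ 2 + Polynomial.C (qb K s v)).Separable := by
  have hb := qb_ne h v
  have h2 := h.two_ne
  refine ⟨Polynomial.C (qb K s v)⁻¹, -Polynomial.C ((2 * qb K s v)⁻¹) * Polynomial.X, ?_⟩
  have hd : Polynomial.derivative
      (Polynomial.C (qa K s v) * Polynomial.X ^ 2 + Polynomial.C (qb K s v)) =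
      Polynomial.C (2 * qa K s v) * Polynomial.X := by
    simp [Polynomial.derivative_pow, Polynomial.C_mul]
    ring
  rw [hd]
  have e1 : Polynomial.C (qb K s v)⁻¹ * Polynomial.C (qb K s v) = 1 := by
    rw [← Polynomial.C_mul, inv_mul_cancel₀ hb, Polynomial.C_1]
  have e2 : Polynomial.C ((2 * qb K s v)⁻¹) * Polynomial.C (2 * qa K s v) =
      Polynomial.C (qb K s v)⁻¹ * Polynomial.C (qa K s v) := by
    rw [← Polynomial.C_mul, ← Polynomial.C_mul]
    congr 1
    field_simp
  linear_combination e1 - Polynomial.X ^ 2 * e2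

theorem cop_quad (h : Hyp K s) (i : Fin 4) :
    IsCoprime (Polynomial.C (qa K s (i, 0)) * Polynomial.X ^ 2 + Polynomial.C (qb K s (i, 0)))
      (Polynomial.C (qa K s (i, 1)) * Polynomial.X ^ 2 + Polynomial.C (qb K s (i, 1))) := by
  have hd := h.det_ne i
  have e0 : qa K s (i, 0) = ca s i := by simp [qa]
  have e1 : qa K s (i, 1) = cc s i := by simp [qa]
  have e2 : qb K s (i, 0) = cb s i := by simp [qb]
  have e3 : qb K s (i, 1) = cd s i := by simp [qb]
  rw [e0, e1, e2, e3]
  refine ⟨-Polynomial.C (cc s i * (ca s i * cd s i - cb s i * cc s i)⁻¹),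
    Polynomial.C (ca s i * (ca s i * cd s i - cb s i * cc s i)⁻¹), ?_⟩
  have e4 : Polynomial.C ((ca s i * cd s i - cb s i * cc s i)⁻¹ *
      (ca s i * cd s i - cb s i * cc s i)) = 1 := by
    rw [inv_mul_cancel₀ hd, Polynomial.C_1]
  simp only [Polynomial.C_mul, Polynomial.C_sub] at e4 ⊢
  linear_combination e4

theorem q_nsq (h : Hyp K s) (S : Finset (Fin 4 × Fin 2)) (hS : S.Nonempty) :
    ¬ IsSquare (algebraMap (MvPolynomial (Fin 4 × Fin 2) K)
      (FractionRing (MvPolynomial (Fin 4 × Fin 2) K)) (∏ v ∈ S, q K s v)) := by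
  classical
  intro hsq
  obtain ⟨v0, hv0⟩ := hS
  have h1 := isSquare_residue (K := FractionRing (MvPolynomial (Fin 4 × Fin 2) K))
    (spec K v0.1).toRingHom hsq
  have h2 : (spec K v0.1).toRingHom (∏ v ∈ S, q K s v) =
      (∏ v ∈ S.filter (fun v => v.1 = v0.1),
        (Polynomial.C (qa K s v) * Polynomial.X ^ 2 + Polynomial.C (qb K s v))) *
      ∏ v ∈ S.filter (fun v => ¬ v.1 = v0.1), Polynomial.C (qa K s v) := by
    change spec K v0.1 (∏ v ∈ S, q K s v) = _
    rw [map_prod, ← Finset.prod_filter_mul_prod_filter_not S (fun v => v.1 = v0.1)]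
    congr 1
    · refine Finset.prod_congr rfl fun v hv => ?_
      rw [spec_q, if_pos (Finset.mem_filter.1 hv).2]
    · refine Finset.prod_congr rfl fun v hv => ?_
      rw [spec_q, if_neg (Finset.mem_filter.1 hv).2]
  rw [h2] at h1
  obtain ⟨g, hg⟩ := h1
  set G := ∏ v ∈ S.filter (fun v => v.1 = v0.1),
    (Polynomial.C (qa K s v) * Polynomial.X ^ 2 + Polynomial.C (qb K s v)) with hG
  set c := ∏ v ∈ S.filter (fun v => ¬ v.1 = v0.1), Polynomial.C (qa K s v) with hc
  have hcu : IsUnit c := by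
    rw [hc]
    refine IsUnit.prod_iff.2 fun v _ => ?_
    exact (isUnit_iff_ne_zero.2 (qa_ne h v)).map Polynomial.C
  have hsep : G.Separable := by
    rw [hG]
    refine Polynomial.separable_prod' ?_ fun v _ => sep_quad h v
    intro v hv w hw hvw
    have hv1 := (Finset.mem_filter.1 hv).2
    have hw1 := (Finset.mem_filter.1 hw).2
    obtain ⟨v1, v2⟩ := v
    obtain ⟨w1, w2⟩ := w
    simp only at hv1 hw1
    subst hv1
    subst hw1
    fin_cases v2 <;> fin_cases w2
    · exact absurd rfl hvw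
    · exact cop_quad h _
    · exact (cop_quad h _).symm
    · exact absurd rfl hvw
  have hgu : IsUnit g := by
    apply hsep.squarefree g
    have : g * g ∣ G * c := ⟨1, by rw [mul_one, hg]⟩
    exact (hcu.dvd_mul_right).1 this
  have hGu : IsUnit (G * c) := by
    rw [hg]
    exact hgu.mul hgu
  have hGu' : IsUnit G := isUnit_of_mul_isUnit_left hGu
  have hq0 : IsUnit (Polynomial.C (qa K s v0) * Polynomial.X ^ 2 + Polynomial.C (qb K s v0)) := by
    refine isUnit_of_dvd_unit ?_ hGu'
    rw [hG]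
    exact Finset.dvd_prod_of_mem
      (fun v => Polynomial.C (qa K s v) * Polynomial.X ^ 2 + Polynomial.C (qb K s v))
      (Finset.mem_filter.2 ⟨hv0, rfl⟩)
  have h5 := Polynomial.natDegree_eq_zero_of_isUnit hq0
  have h6 : (Polynomial.C (qa K s v0) * Polynomial.X ^ 2 +
      Polynomial.C (qb K s v0)).natDegree = 2 := by
    have := qa_ne h v0
    compute_degree!
  omega

end nsq

end Pool.Agent.SSF
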