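import Pool.Agent.SSF.XPrA
import Pool.Agent.SSF.AsmC
import Pool.Agent.SSF.EFin
import Pool.Agent.SSF.EReg
import Pool.Agent.SSF.XNon
import Pool.Agent.SSF.XNsq
import Pool.Agent.SSF.XGeom
import Pool.Agent.SSF.XDomF
import Pool.Agent.SSF.XNice
import Pool.Agent.SSF.XDat
import Pool.Agent.SSF.Br.OfCox

/-!
# SSF: the final assembly
-/

set_option autoImplicit false
open scoped TensorProduct

namespace Pool.Agent.SSF

open Cox Br

section general

/-- A point from a homogeneous prime ideal. -/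
theorem exists_pt {k : Type} [CommRing k] (D : Cox k) (I : Ideal D.A)
    (hI : I.IsHomogeneous D.gA) (hp : I.IsPrime) {n : ℕ} (hn : 0 < n) {a : D.A}
    (ha : a ∈ D.gA n) (haI : a ∉ I) : ∃ y : D.Pt, idl D.gA y = I :=
  ⟨⟨⟨I, hI⟩, hp, fun h => haI (h (HomogeneousIdeal.mem_irrelevant_of_mem _ hn ha))⟩, rfl⟩

theorem comap_homogeneous {k : Type} [CommRing k] (D : Cox k) {J : Ideal D.R}
    (hJ : J.IsHomogeneous D.gR) : (J.comap D.φ).IsHomogeneous D.gA := by
  classical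
  intro n a ha
  rw [Ideal.mem_comap] at ha ⊢
  have h1 : D.φ (DirectSum.decompose D.gA a n : D.A) =
      (DirectSum.decompose D.gR (D.φ a) (n • D.h) : D.R) := by
    clear ha
    induction a using DirectSum.Decomposition.inductionOn D.gA with
    | zero => simp
    | @homogeneous i m =>
      have hm := D.φ_mem i m m.2
      by_cases hi : i = n
      · subst hi
        rw [DirectSum.decompose_of_mem_same _ hm, DirectSum.decompose_of_mem_same _ m.2]
      · have hi' : i • D.h ≠ n • D.h := by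
          intro h
          apply hi
          have := D.h_inj (i : ℤ) (n : ℤ) (by rw [natCast_zsmul, natCast_zsmul]; exact h)
          exact_mod_cast this
        rw [DirectSum.decompose_of_mem_ne _ hm hi', DirectSum.decompose_of_mem_ne _ m.2 hi,
          map_zero]
    | add x y hx hy =>
      rw [DirectSum.decompose_add, map_add D.φ x y, DirectSum.decompose_add,
        DirectSum.add_apply, DirectSum.add_apply, Submodule.coe_add, Submodule.coe_add,
        map_add, hx, hy]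
  rw [h1]
  exact hJ _ ha

theorem span_homogeneous {k : Type} [CommRing k] (D : Cox k) (x : D.R) {γ : D.Γ}
    (hx : x ∈ D.gR γ) : (Ideal.span {x}).IsHomogeneous D.gR := by
  refine Ideal.homogeneous_span _ _ ?_
  rintro y rfl
  exact ⟨γ, hx⟩

end general

section maps

variable {k k' : Type} [CommRing k] [CommRing k'] {s : k} {s' : k'} (f : k →+* k') (h : f s = s')

theorem mapR_xi (v : V) : mapR f h (xi k s v) = xi k' s' v := by
  change Ideal.Quotient.mk _ (MvPolynomial.map f (MvPolynomial.X v)) = _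
  rw [MvPolynomial.map_X]
  rfl

theorem mapR_alg (c : k) : mapR f h (algebraMap k _ c) = algebraMap k' _ (f c) := by
  change Ideal.Quotient.mk _ (MvPolynomial.map f (MvPolynomial.C c)) = _
  rw [MvPolynomial.map_C]
  rfl

end maps

/-- The section `ξ41`. -/
noncomputable def sg1 : DF.R := Ev.fx 3 0 rfl
/-- The section `ξ42`. -/
noncomputable def sg2 : DF.R := Ev.fx 3 1 rfl
/-- The section `s (x_3 - x_3')`. -/
noncomputable def sgl : DF.R := Ev.fb3

theorem sg1_mem : sg1 ∈ DF.gR (⟨e (3, 0), Ev.Ls_e 3 0 rfl⟩ : Lsig) := Ev.xx_mem 3 0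
theorem sg2_mem : sg2 ∈ DF.gR (⟨e (3, 1), Ev.Ls_e 3 1 rfl⟩ : Lsig) := Ev.xx_mem 3 1
theorem Fc2_mem : Fc 2 ∈ Lsig := by
  change sL (Fc 2) = Fc 2
  decide
theorem sgl_mem : sgl ∈ DF.gR (⟨Fc 2, Fc2_mem⟩ : Lsig) := Ev.be_mem 2

theorem dim_one : DF.DimLE (Ideal.span {sg1, sgl}) 2 :=
  EDim.dimLE_two 0 (l := sgl) (v := sg1) Ev.fb3_coe rfl DF_good
    (EDim.dimLE_bot (fun c => DF_dim F17 c)) sgl_mem sg1_mem

theorem dim_two : DF.DimLE (Ideal.span {sg2, sgl}) 2 :=
  EDim.dimLE_two 1 (l := sgl) (v := sg2) Ev.fb3_coe rfl DF_good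
    (EDim.dimLE_bot (fun c => DF_dim F17 c)) sgl_mem sg2_mem

theorem pair_homogeneous {k : Type} [CommRing k] (D : Cox k) {x y : D.R} {γ δ : D.Γ}
    (hx : x ∈ D.gR γ) (hy : y ∈ D.gR δ) : (Ideal.span {x, y}).IsHomogeneous D.gR := by
  refine Ideal.homogeneous_span _ _ ?_
  rintro z (rfl | rfl)
  · exact ⟨γ, hx⟩
  · exact ⟨δ, hy⟩

/-- The value of the functional at the first cycle. -/
theorem val_one : DF_datum.φ F17 (inclI F17 F17 (contr DF {sg1, sgl})) = Br.sq n3 := by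
  have h1 := Asm.phi_self (W := WF) (ε := epsF) DF_good two_tauF (roots17 F17)
    (pair_homogeneous DF sg1_mem sgl_mem) dim_one
  exact h1.trans (Ev.DF_eval1 (EDim.dimLE_bot (fun c => DF_dim F17 c)) (g := sg1) (l := sgl) rfl
    Ev.fb3_coe (τ := tauF) (W := WF) (ε := epsF) rfl rfl rfl n3 rfl)

/-- The value of the functional at the second cycle. -/
theorem val_two : DF_datum.φ F17 (inclI F17 F17 (contr DF {sg2, sgl})) = 1 := by
  have h1 := Asm.phi_self (W := WF) (ε := epsF) DF_good two_tauF (roots17 F17)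
    (pair_homogeneous DF sg2_mem sgl_mem) dim_two
  exact h1.trans (Ev.DF_eval2 (EDim.dimLE_bot (fun c => DF_dim F17 c)) (g := sg2) (l := sgl) rfl
    Ev.fb3_coe (τ := tauF) (W := WF) (ε := epsF) rfl rfl rfl)

/-- The main theorem. -/
theorem main : Answer := by
  obtain ⟨s, hs⟩ : ∃ s : AlgebraicClosure F17, s ^ 2 = 3 :=
    IsAlgClosed.exists_pow_nat_eq (3 : AlgebraicClosure F17) (by norm_num)
  have hH : Hyp (AlgebraicClosure F17) s := ⟨seventeen_eq_zero _, hs⟩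
  have hs0 : s ≠ 0 := hH.s_ne
  have hgood := DS_good (AlgebraicClosure F17) s hH
  have hdom : IsDomain (DS (AlgebraicClosure F17) s).A := DS_A_isDomain _ s hH
  let L := AlgebraicClosure F17
  let E := embS L s hs
  have e1 : E.ψ (1 ⊗ₜ[F17] sg1) = xi L s (3, 0) :=
    (embS_ψ_one L s hs _).trans (mapR_xi _ _ _)
  have e2 : E.ψ (1 ⊗ₜ[F17] sg2) = xi L s (3, 1) :=
    (embS_ψ_one L s hs _).trans (mapR_xi _ _ _)
  have e3 : E.ψ (1 ⊗ₜ[F17] sgl) = algebraMap L (R L s) s * lam3 L s := by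
    have hf : (liftS L s hs : F2 →+* L) sF = s := liftS_sF L s hs
    have hx : E.ψ (1 ⊗ₜ[F17] sgl) = mapR (liftS L s hs : F2 →+* L) hf (Ev.fb3 : R F2 sF) :=
      embS_ψ_one L s hs _
    rw [hx, Ev.fb3_coe, map_mul, map_sub, map_pow, map_pow, mapR_xi, mapR_xi, mapR_alg, hf]
    rfl
  -- the four sections
  let a : (DS L s).A := ⟨algebraMap L (R L s) s * lam3 L s * XNon.m L s,
    mem_ver_of_mem _ _ (XNon.a_mem L s s)⟩
  let b : (DS L s).A := ⟨xi L s (2, 0) ^ 2 * XNon.m L s, mem_ver_of_mem _ _ (XNon.b_mem L s)⟩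
  let a' : (DS L s).A := ⟨xi L s (3, 0) ^ 2 * XNon.m' L s, mem_ver_of_mem _ _ (XNon.a'_mem L s)⟩
  let b' : (DS L s).A := ⟨xi L s (3, 1) ^ 2 * XNon.m' L s, mem_ver_of_mem _ _ (XNon.b'_mem L s)⟩
  have ha : a ∈ (DS L s).gA 1 := XNon.a_mem L s s
  have hb : b ∈ (DS L s).gA 1 := XNon.b_mem L s
  have ha' : a' ∈ (DS L s).gA 1 := XNon.a'_mem L s
  have hb' : b' ∈ (DS L s).gA 1 := XNon.b'_mem L s
  have n0 := XNon.ab_notMem L s 0 s hs0
  have n1 := XNon.ab_notMem L s 1 s hs0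
  have nu := XNon.ab'_notMem L s
  have c0 : contr (DS L s) {(xi L s (3, 0) : (DS L s).R)} = cA L s (JV L s 0) := rfl
  have c1 : contr (DS L s) {(xi L s (3, 1) : (DS L s).R)} = cA L s (JV L s 1) := rfl
  have cu : contr (DS L s) {(xi L s (2, 0) : (DS L s).R)} = cA L s (JU L s) := rfl
  obtain ⟨y₁, hy₁⟩ := exists_pt (DS L s) (contr (DS L s) {(xi L s (3, 0) : (DS L s).R)})
    (comap_homogeneous _ (span_homogeneous _ _ (xi_mem L s (3, 0)))) (c0 ▸ cA_JV_prime L s hH 0)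
    one_pos ha (fun h => n0.1 h)
  obtain ⟨y₂, hy₂⟩ := exists_pt (DS L s) (contr (DS L s) {(xi L s (3, 1) : (DS L s).R)})
    (comap_homogeneous _ (span_homogeneous _ _ (xi_mem L s (3, 1)))) (c1 ▸ cA_JV_prime L s hH 1)
    one_pos ha (fun h => n1.1 h)
  obtain ⟨yu, hyu⟩ := exists_pt (DS L s) (contr (DS L s) {(xi L s (2, 0) : (DS L s).R)})
    (comap_homogeneous _ (span_homogeneous _ _ (xi_mem L s (2, 0)))) (cu ▸ cA_JU_prime L s hH)
    one_pos ha' (fun h => nu.1 h)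
  refine answer_of_cox DF DF_isNice DF_geom n3 n3_not_isSquare DF_datum (DS L s) E hgood ?_
    (g₁ := sg1) (g₂ := sg2) (l := sgl) ⟨_, sg1_mem⟩ ⟨_, sg2_mem⟩ ⟨_, sgl_mem⟩
    (u := xi L s (2, 0)) (m := XNon.m L s) (m' := XNon.m' L s)
    ⟨_, xi_mem L s (2, 0)⟩ ⟨_, XNon.m_mem L s⟩ ⟨_, XNon.m'_mem L s⟩
    (i := 1) (j := 1) (a := a) (b := b) (a' := a') (b' := b') ha hb ha' hb' ?_ rfl ?_ ?_
    y₁ y₂ yu ?_ ?_ hyu ?_ ?_ ?_ ?_ ?_ ?_ val_one val_two
  · intro P
    obtain ⟨u, hu, hup⟩ := G2.exists_gen_notMem (DS L s) P ((DS L s).gA 1 : Set (DS L s).A)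
      hgood.gen1
    exact ⟨u, hu, hup⟩
  · rw [e3]; rfl
  · rw [e1]; rfl
  · rw [e2]; rfl
  · rw [e1]; exact hy₁
  · rw [e2]; exact hy₂
  · rw [hy₁]; exact fun h => n0.1 h
  · rw [hy₁]; exact fun h => n0.2 h
  · rw [hy₂]; exact fun h => n1.1 h
  · rw [hy₂]; exact fun h => n1.2 h
  · rw [hyu]; exact fun h => nu.1 h
  · rw [hyu]; exact fun h => nu.2 h

end Pool.Agent.SSF
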