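import Mathlib

/-!
# Noetherian induction on homogeneous ideals
-/

set_option autoImplicit false

namespace Pool.Agent.SSF.HomInd

section colon

variable {ι k A : Type*} [CommRing k] [CommRing A] [Algebra k A] [DecidableEq ι]
  [AddRightCancelMonoid ι] (𝒜 : ι → Submodule k A) [GradedAlgebra 𝒜]

theorem colon_homogeneous {I : Ideal A} (hI : I.IsHomogeneous 𝒜) {i : ι} {r : A} (hr : r ∈ 𝒜 i) :
    (I.colon (Ideal.span {r} : Set A)).IsHomogeneous 𝒜 := by
  intro j x hx
  rw [Submodule.mem_colon_span_singleton, smul_eq_mul] at hx ⊢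
  rw [← DirectSum.coe_decompose_mul_add_of_right_mem 𝒜 hr]
  exact hI (j + i) hx

theorem le_colon (I : Ideal A) (r : A) : I ≤ I.colon (Ideal.span {r} : Set A) := by
  intro x hx
  rw [Submodule.mem_colon_span_singleton, smul_eq_mul]
  exact I.mul_mem_right _ hx

end colon

variable {k A : Type*} [CommRing k] [CommRing A] [Algebra k A]
  (𝒜 : ℕ → Submodule k A) [GradedAlgebra 𝒜] [IsNoetherianRing A]

/-- Noetherian induction on homogeneous ideals of an `ℕ`-graded ring. -/
theorem induction {P : Ideal A → Prop}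
    (hprime : ∀ I : Ideal A, I.IsHomogeneous 𝒜 → I.IsPrime → P I) (htop : P ⊤)
    (hstep : ∀ I : Ideal A, I.IsHomogeneous 𝒜 → ∀ i, ∀ r ∈ 𝒜 i,
      P (I.colon (Ideal.span {r} : Set A)) → P (I ⊔ Ideal.span {r}) → P I) :
    ∀ I : Ideal A, I.IsHomogeneous 𝒜 → P I := by
  intro I
  induction I using IsNoetherian.induction with
  | hgt I ih =>
  intro hI
  by_cases htop' : I = ⊤
  · rw [htop']; exact htop
  by_cases hp : ∀ x y : A, SetLike.IsHomogeneousElem 𝒜 x → SetLike.IsHomogeneousElem 𝒜 y →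
      x * y ∈ I → x ∈ I ∨ y ∈ I
  · exact hprime I hI (hI.isPrime_of_homogeneous_mem_or_mem htop'
      (fun {x y} hx hy h => hp x y hx hy h))
  · push Not at hp
    obtain ⟨r, s, ⟨i, hr⟩, ⟨j, hs⟩, hrs, hrI, hsI⟩ := hp
    refine hstep I hI i r hr (ih _ ?_ (colon_homogeneous 𝒜 hI hr)) (ih _ ?_ ?_)
    · refine lt_of_le_of_ne (le_colon I r) fun h => hsI ?_
      rw [h, Submodule.mem_colon_span_singleton, smul_eq_mul, mul_comm]
      exact hrs
    · refine lt_of_le_of_ne le_sup_left fun h => hrI ?_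
      rw [h]
      exact Ideal.mem_sup_right (Ideal.mem_span_singleton_self r)
    · refine hI.sup (Ideal.homogeneous_span 𝒜 _ ?_)
      rintro x rfl
      exact ⟨i, hr⟩

end Pool.Agent.SSF.HomInd
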