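import Pool.Agent.SSF.EJ
import Pool.Agent.SSF.Germ

/-! # SSF: the torsion engine of `R / J` -/

set_option autoImplicit false

namespace Pool.Agent.SSF

open Pool.Agent.Helper88.SSF

namespace Cox

section Inst

variable {K : Type} [Field K] {D : Cox K}

theorem sys_D_perm (J : Ideal D.R) (fJ : D.FF J) {l l' : List D.Sec} (h : l.Perm l')
    (n : D.Γ) : (D.sys J fJ).D n l = (D.sys J fJ).D n l' := by
  by_cases hg : (D.sys J fJ).Good n l
  · exact ((D.sys J fJ).D_perm h n hg).symm
  · have hg' : ¬ (D.sys J fJ).Good n l' := fun h' => hg (((D.sys J fJ).good_perm h n).2 h')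
    have e1 : ¬ Nonempty (PC.Contr (((D.sys J fJ).cones l).A n)) := hg
    have e2 : ¬ Nonempty (PC.Contr (((D.sys J fJ).cones l').A n)) := hg'
    unfold GSys.D PC.tors
    rw [dif_neg e1, dif_neg e2]

/-- The torsion of `s :: l` if `l` is already contractible. -/
theorem sys_D_cone (J : Ideal D.R) (fJ : D.FF J) (s : D.Sec) (l : List D.Sec) (n : D.Γ)
    (h1 : (D.sys J fJ).Good n l) (h2 : (D.sys J fJ).Good (n - s.1) l) :
    (D.sys J fJ).D n (s :: l) = (D.sys J fJ).D n l / (D.sys J fJ).D (n - s.1) l := by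
  rw [sys_D_perm J fJ (List.perm_append_singleton s l).symm n]
  exact (D.sys J fJ).D_concat n l s h1 h2

/-- The torsion of a product. -/
theorem sys_D_mul (J : Ideal D.R) (fJ : D.FF J) (s t : D.Sec) (l : List D.Sec) (n : D.Γ)
    (h1 : (D.sys J fJ).Good n (s :: l)) (h2 : (D.sys J fJ).Good (n - s.1) (t :: l)) :
    (D.sys J fJ).D n (s * t :: l) =
      (D.sys J fJ).D n (s :: l) * (D.sys J fJ).D (n - s.1) (t :: l) := by
  have p : ∀ u : D.Sec, (u :: l).Perm (l ++ [u]) := fun u =>
    (List.perm_append_singleton u l).symm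
  rw [sys_D_perm J fJ (p _), sys_D_perm J fJ (p s), sys_D_perm J fJ (p t)]
  exact (D.sys J fJ).D_mul (sys_mulRel fJ s t) rfl n l
    (((D.sys J fJ).good_perm (p s) n).1 h1) (((D.sys J fJ).good_perm (p t) _).1 h2)

/-- The torsion engine of `R / J`. -/
noncomputable def tors (hD : D.Good) (J : Ideal D.R) (hJ : J.IsHomogeneous D.gR) :
    Eng D.Γ D.Sec (Germ D.Γ (Additive (Sg K)) D.h) where
  deg := fun s => s.1
  h := D.h
  D := fun l => Germ.mk D.h fun n => Additive.ofMul ((D.sys J (ff_field hD J)).D n l)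
  sm := fun j l => D.dm J j l
  deg_mul := fun _ _ => rfl
  sm_perm := fun _ _ _ h h1 => dm_perm h h1
  sm_cons := fun _ s _ h1 => dm_cons s h1
  sm_mul := fun _ _ _ _ h1 h2 => dm_mul hD h1 h2
  avoid := fun L hL χ => dm_avoid hD J L hL χ
  D_perm := by
    intro l l' h
    congr 1
    funext n
    rw [sys_D_perm J _ h n]
  D_mul := by
    intro s t l h1 h2
    rw [Germ.sh_mk, ← map_add, Germ.mk_eq_mk]
    have g1 := sys_good hD hJ (ff_field hD J) h1
    have g2 := sys_good hD hJ (ff_field hD J) h2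
    have g3 := HighP.and (high_iff.1 g1) (HighP.sub (high_iff.1 g2) s.1)
    intro χ
    obtain ⟨N, hN⟩ := g3 χ
    refine ⟨N, fun n hn => ?_⟩
    have h3 := sys_D_mul J (ff_field hD J) s t l _ (hN n hn).1 (hN n hn).2
    exact congrArg Additive.ofMul h3
  D_cone := by
    intro s l h1
    rw [Germ.sh_mk, ← map_sub, Germ.mk_eq_mk]
    have g1 := sys_good hD hJ (ff_field hD J) h1
    have g3 := HighP.and (high_iff.1 g1) (HighP.sub (high_iff.1 g1) s.1)
    intro χ
    obtain ⟨N, hN⟩ := g3 χ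
    refine ⟨N, fun n hn => ?_⟩
    have h3 := sys_D_cone J (ff_field hD J) s l _ (hN n hn).1 (hN n hn).2
    exact congrArg Additive.ofMul h3

variable (hD : D.Good) (J : Ideal D.R) (hJ : J.IsHomogeneous D.gR)

theorem tors_deg (s : D.Sec) : (tors hD J hJ).deg s = s.1 := rfl

theorem tors_h : (tors hD J hJ).h = D.h := rfl

theorem tors_sm (j : ℕ) (l : List D.Sec) : (tors hD J hJ).sm j l = D.dm J j l := rfl

theorem tors_D (l : List D.Sec) : (tors hD J hJ).D l =
    Germ.mk D.h fun n => Additive.ofMul ((D.sys J (ff_field hD J)).D n l) := rfl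

end Inst

end Cox
end Pool.Agent.SSF
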