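import Pool.Agent.SSF.Inst

/-!
# SSF: the torsion engine of `R / (J + r)`

If `r` is a nonzerodivisor on `R / J` in high degrees, the symbol of a list `l` for
`R / (J + r)` is the symbol of the list `r :: l` for `R / J`.
-/

set_option autoImplicit false

namespace Pool.Agent.SSF

open Pool.Agent.Helper88.SSF

namespace Cox

section Link

variable {K : Type} [Field K] {D : Cox K}

/-- Dimension conditions on `R / (J + r)`. -/
theorem tors_link_sm (hD : D.Good) {J : Ideal D.R} (hJ : J.IsHomogeneous D.gR) (r : D.Sec)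
    (hJ' : (J ⊔ Ideal.span {val r}).IsHomogeneous D.gR) (k : ℕ) (l : List D.Sec) :
    (D.tors hD J hJ).sm k (r :: l) ↔ (D.tors hD (J ⊔ Ideal.span {val r}) hJ').sm k l :=
  dm_cons_iff

/-- The difference of torsions of two lists of the same degrees. -/
theorem tors_link_D (hD : D.Good) {J : Ideal D.R} (hJ : J.IsHomogeneous D.gR) (r : D.Sec)
    (hJ' : (J ⊔ Ideal.span {val r}).IsHomogeneous D.gR)
    (hreg : D.High fun γ => ∀ x ∈ D.gR γ, x * val r ∈ J → x ∈ J) {l l' : List D.Sec}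
    (hll : (l.map fun s => s.1) = l'.map fun s => s.1)
    (hl : (D.tors hD (J ⊔ Ideal.span {val r}) hJ').sm 0 l)
    (hl' : (D.tors hD (J ⊔ Ideal.span {val r}) hJ').sm 0 l') :
    (D.tors hD (J ⊔ Ideal.span {val r}) hJ').D l - (D.tors hD (J ⊔ Ideal.span {val r}) hJ').D l' =
      (D.tors hD J hJ).D (r :: l) - (D.tors hD J hJ).D (r :: l') := by
  rw [tors_sm] at hl hl'
  obtain ⟨ρ, hρ⟩ := sys_nzd_all hJ r (ff_field hD J) (ff_field hD (J ⊔ Ideal.span {val r}))
  have g1 := high_iff.1 (sys_good hD hJ' (ff_field hD _) hl)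
  have g2 := high_iff.1 (sys_good hD hJ' (ff_field hD _) hl')
  have hU := HighP.sub (high_iff.1 hreg) r.1
  have a1 := hU.allSub (l.map fun s => s.1)
  have a2 := hU.allSub (l'.map fun s => s.1)
  have key := HighP.and (HighP.and (HighP.and a1 a2) g1) g2
  rw [tors_D, tors_D, tors_D, tors_D, ← map_sub, ← map_sub, Germ.mk_eq_mk]
  intro χ
  obtain ⟨N, hN⟩ := key χ
  refine ⟨N, fun n hn => ?_⟩
  obtain ⟨⟨⟨b1, b2⟩, b3⟩, b4⟩ := hN n hn
  have e1 := (hρ _ (fun γ hγ => hγ) _ _ b1).2 b3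
  have e2 := (hρ _ (fun γ hγ => hγ) _ _ b2).2 b4
  rw [Pi.sub_apply, Pi.sub_apply, e1, e2, hll, ofMul_mul, ofMul_mul, add_sub_add_right_eq_sub]

/-- The symbol of a list over `R / (J + r)`. -/
theorem tors_link_sy (hD : D.Good) {J : Ideal D.R} (hJ : J.IsHomogeneous D.gR) (r : D.Sec)
    (hJ' : (J ⊔ Ideal.span {val r}).IsHomogeneous D.gR)
    (hreg : D.High fun γ => ∀ x ∈ D.gR γ, x * val r ∈ J → x ∈ J) {l : List D.Sec}
    (hl : (D.tors hD J hJ).sm 1 (r :: l)) {f : D.Γ} (hf : f + f = 0) :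
    (D.tors hD (J ⊔ Ideal.span {val r}) hJ').sy l f = (D.tors hD J hJ).sy (r :: l) f := by
  have hl1 : (D.tors hD (J ⊔ Ideal.span {val r}) hJ').sm 1 l :=
    (tors_link_sm hD hJ r hJ' 1 l).1 hl
  obtain ⟨s, a, hd, hs, ha⟩ :=
    (D.tors hD (J ⊔ Ideal.span {val r}) hJ').avoid_pair [(0, l)] (by simpa using hl1) f
  have hs : (D.tors hD (J ⊔ Ideal.span {val r}) hJ').sm 0 (s :: l) := by simpa using hs
  have ha : (D.tors hD (J ⊔ Ideal.span {val r}) hJ').sm 0 (a :: l) := by simpa using ha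
  rw [tors_deg, tors_deg] at hd
  have ps : ∀ t : D.Sec, (r :: t :: l).Perm (t :: r :: l) := fun t => List.Perm.swap t r l
  have hs1 : (D.tors hD J hJ).sm 0 (s :: r :: l) :=
    (D.tors hD J hJ).sm_perm _ _ _ (ps s) ((tors_link_sm hD hJ r hJ' 0 (s :: l)).2 hs)
  have ha1 : (D.tors hD J hJ).sm 0 (a :: r :: l) :=
    (D.tors hD J hJ).sm_perm _ _ _ (ps a) ((tors_link_sm hD hJ r hJ' 0 (a :: l)).2 ha)
  have hsq : (s * s).1 = (a * a).1 := by
    show s.1 + s.1 = a.1 + a.1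
    rw [hd]
    have : f + a.1 + (f + a.1) = (f + f) + (a.1 + a.1) := by abel
    rw [this, hf, zero_add]
  have hll : ((s * s :: l).map fun s : D.Sec => s.1) = (a * a :: l).map fun s : D.Sec => s.1 := by
    rw [List.map_cons, List.map_cons, hsq]
  have hk := tors_link_D hD hJ r hJ' hreg hll
    ((D.tors hD (J ⊔ Ideal.span {val r}) hJ').sm_mul _ _ _ _ hs hs)
    ((D.tors hD (J ⊔ Ideal.span {val r}) hJ').sm_mul _ _ _ _ ha ha)
  rw [Eng.sy_eq _ hl1 hf hs ha hd, Eng.sy_eq _ hl hf hs1 ha1 hd, hk,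
    (D.tors hD J hJ).D_perm _ _ (ps (s * s)), (D.tors hD J hJ).D_perm _ _ (ps (a * a))]

end Link

end Cox

end Pool.Agent.SSF
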