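import Pool.Agent.SSF.SRat
import Pool.Agent.SSF.Link
import Pool.Agent.SSF.G1

/-!
# SSF: rational equivalence for the engines

Invariance of the symbol of `pt p + (φ a)` under `a ↦ b`, from the abstract form `Eng.sb_rat`.
-/

set_option autoImplicit false

namespace Pool.Agent.SSF

open Pool.Agent.Helper88.SSF

namespace Cox

section Rat

variable {K : Type} [Field K] {D : Cox K}

namespace Rat

theorem hom_sup (p : D.Pt) {i : ℕ} {c : D.A} (hc : c ∈ D.gA i) :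
    (D.pt p ⊔ Ideal.span {D.φ c}).IsHomogeneous D.gR :=
  sup_hom (D.ext_homogeneous _) (D.φ_mem i c hc)

theorem reg (hD : D.Good) (p : D.Pt) {i : ℕ} {c : D.A} (hc : c ∈ D.gA i)
    (hcp : c ∉ p.asHomogeneousIdeal.toIdeal) :
    D.High fun γ => ∀ x ∈ D.gR γ, x * D.φ c ∈ D.pt p → x ∈ D.pt p := by
  intro γ
  refine ⟨0, fun n _ x hx hxc => ?_⟩
  rcases D.pt_prime hD p hx (D.φ_mem i c hc) hxc with h | h
  · exact h
  · exact absurd ((G2.φ_mem_pt D hD p c).1 h) hcp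

theorem dim (hD : D.Good) (p : D.Pt) {d : ℕ} (hd : D.DimLE (D.pt p) (d + 1)) {i : ℕ} {c : D.A}
    (hc : c ∈ D.gA i) (hcp : c ∉ p.asHomogeneousIdeal.toIdeal) :
    D.dm (D.pt p) (d + 1) [mkSec (D.φ c) (D.φ_mem i c hc)] := by
  rw [dm_iff]
  intro l hl h2
  have h3 : D.φ c ∈ D.pt l.head := h2 _ (List.mem_singleton.2 rfl)
  have h4 : p ≤ l.head := (D.pt_le_pt hD p l.head).1 hl
  have h5 : p < l.head := by
    refine lt_of_le_of_ne h4 ?_
    rintro h6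
    rw [← h6, G2.φ_mem_pt D hD] at h3
    exact hcp h3
  have h7 := hd (l.cons p h5) (by
    rw [RelSeries.head_cons]
    exact le_refl (D.pt p))
  rw [RelSeries.cons_length] at h7
  omega

theorem dim_sup (hD : D.Good) (p : D.Pt) {d : ℕ} (hd : D.DimLE (D.pt p) (d + 1)) {i : ℕ}
    {c : D.A} (hc : c ∈ D.gA i) (hcp : c ∉ p.asHomogeneousIdeal.toIdeal) :
    D.DimLE (D.pt p ⊔ Ideal.span {D.φ c}) d := by
  have h1 := dim hD p hd hc hcp
  rw [dm_cons_iff, dm_nil_iff, dlt_iff] at h1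
  exact h1

/-- Rational equivalence for the engines. -/
theorem tors_rat (hD : D.Good) (p : D.Pt) (hd : D.DimLE (D.pt p) 3)
    {f : D.Γ} (hf : f + f = 0) (α β : D.Γ) {i : ℕ} {a b : D.A} (ha : a ∈ D.gA i)
    (hb : b ∈ D.gA i) (hap : a ∉ p.asHomogeneousIdeal.toIdeal)
    (hbp : b ∉ p.asHomogeneousIdeal.toIdeal) :
    (D.tors hD (D.pt p ⊔ Ideal.span {D.φ a}) (hom_sup p ha)).sb f α β =
      (D.tors hD (D.pt p ⊔ Ideal.span {D.φ b}) (hom_sup p hb)).sb f α β := by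
  have hJ : (D.pt p).IsHomogeneous D.gR := D.ext_homogeneous _
  have h4 : (D.tors hD (D.pt p) hJ).sm 4 [] := dm_nil_iff'.2 hd
  have key : ∀ {c : D.A} (hc : c ∈ D.gA i), c ∉ p.asHomogeneousIdeal.toIdeal →
      (D.tors hD (D.pt p) hJ).sm 3 [mkSec (D.φ c) (D.φ_mem i c hc)] ∧
      (∀ k l, (D.tors hD (D.pt p) hJ).sm k (mkSec (D.φ c) (D.φ_mem i c hc) :: l) →
        (D.tors hD (D.pt p ⊔ Ideal.span {D.φ c}) (hom_sup p hc)).sm k l) ∧
      (∀ X Y, (D.tors hD (D.pt p) hJ).sm 1 [mkSec (D.φ c) (D.φ_mem i c hc), Y, X] →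
        (D.tors hD (D.pt p ⊔ Ideal.span {D.φ c}) (hom_sup p hc)).sy [Y, X] f =
        (D.tors hD (D.pt p) hJ).sy [mkSec (D.φ c) (D.φ_mem i c hc), Y, X] f) := by
    intro c hc hcp
    refine ⟨dim hD p hd hc hcp, fun k l h => ?_, fun X Y h => ?_⟩
    · exact (tors_link_sm hD hJ (mkSec (D.φ c) (D.φ_mem i c hc)) (hom_sup p hc) k l).1 h
    · exact tors_link_sy hD hJ (mkSec (D.φ c) (D.φ_mem i c hc)) (hom_sup p hc)
        (reg hD p hc hcp) h hf
  obtain ⟨a1, a2, a3⟩ := key ha hap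
  obtain ⟨b1, b2, b3⟩ := key hb hbp
  have hab : (D.tors hD (D.pt p) hJ).deg (mkSec (D.φ a) (D.φ_mem i a ha)) =
      (D.tors hD (D.pt p) hJ).deg (mkSec (D.φ b) (D.φ_mem i b hb)) := by
    rw [tors_deg, tors_deg]
  have d1 : (D.tors hD (D.pt p ⊔ Ideal.span {D.φ a}) (hom_sup p ha)).deg =
      (D.tors hD (D.pt p) hJ).deg := by
    funext s
    rw [tors_deg, tors_deg]
  have d2 : (D.tors hD (D.pt p ⊔ Ideal.span {D.φ b}) (hom_sup p hb)).deg =
      (D.tors hD (D.pt p) hJ).deg := by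
    funext s
    rw [tors_deg, tors_deg]
  exact Eng.sb_rat h4 hab a1 b1 d1 d2 a2 b2 hf a3 b3 α β

end Rat

end Rat

end Cox

end Pool.Agent.SSF
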