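import Mathlib
import Pool.Agent.SSF.Germ

/-!
# SSF, team S: rational equivalence, abstract form

`E` is the engine of a module `N` of dimension at most three, `a`, `b` sections of the same degree,
`E₁`, `E₂` the engines of `N / a N` and `N / b N`: their symbols agree.
-/

namespace Pool.Agent.SSF

open Cocycle4 (two mem_two mk_eq add_self)

namespace Eng

variable {Γ S A : Type*} [AddCommGroup Γ] [CommMonoid S] [AddCommGroup A] [Shift Γ A]
variable {E E₁ E₂ : Eng Γ S A}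

/-- Two engines whose symbols agree on generic pairs of sections have the same symbol. `L`, `L2`
are constraints expressed by a third engine `E`. -/
theorem sb_ext (h3 : E₁.sm 3 []) (h3' : E₂.sm 3 []) {f : Γ} (hf : f + f = 0) (L : List (ℕ × List S))
    (hL : ∀ p ∈ L, E.sm (p.1 + 1) p.2) (L2 : S → List (ℕ × List S))
    (hL2 : ∀ X, (∀ p ∈ L, E.sm p.1 (X :: p.2)) → ∀ p ∈ L2 X, E.sm (p.1 + 1) p.2)
    (H : ∀ X, (∀ p ∈ L, E.sm p.1 (X :: p.2)) → ∀ Y, (∀ p ∈ L2 X, E.sm p.1 (Y :: p.2)) →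
      E₁.sb f (E.deg X) (E.deg Y) = E₂.sb f (E.deg X) (E.deg Y)) (x y : Γ) :
    E₁.sb f x y = E₂.sb f x y := by
  obtain ⟨X, X', hX, a1, a2⟩ := E.avoid_pair L hL x
  obtain ⟨Y, Y', hY, c1, c2⟩ := E.avoid_pair (L2 X ++ L2 X') (by
    intro p hp
    rcases List.mem_append.1 hp with hp | hp
    · exact hL2 X a1 p hp
    · exact hL2 X' a2 p hp) y
  have k1 := H X a1 Y (fun p hp => c1 p (List.mem_append_left _ hp))
  have k2 := H X a1 Y' (fun p hp => c2 p (List.mem_append_left _ hp))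
  have k3 := H X' a2 Y (fun p hp => c1 p (List.mem_append_right _ hp))
  have k4 := H X' a2 Y' (fun p hp => c2 p (List.mem_append_right _ hp))
  rw [hX, sb_add_left h3 hf, sb_add_left h3' hf] at k1 k2
  rw [k3] at k1
  rw [k4] at k2
  have k1' := add_right_cancel k1
  have k2' := add_right_cancel k2
  rw [hY, sb_add_right h3 hf, sb_add_right h3' hf, k2'] at k1'
  exact add_right_cancel k1'

/-- Rational equivalence. -/
theorem sb_rat (h4 : E.sm 4 []) {a b : S} (hab : E.deg a = E.deg b) (ha : E.sm 3 [a])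
    (hb : E.sm 3 [b]) (hdeg : E₁.deg = E.deg) (hdeg' : E₂.deg = E.deg)
    (s1 : ∀ k l, E.sm k (a :: l) → E₁.sm k l) (s2 : ∀ k l, E.sm k (b :: l) → E₂.sm k l) {f : Γ}
    (hf : f + f = 0) (L1 : ∀ X Y, E.sm 1 [a, Y, X] → E₁.sy [Y, X] f = E.sy [a, Y, X] f)
    (L2 : ∀ X Y, E.sm 1 [b, Y, X] → E₂.sy [Y, X] f = E.sy [b, Y, X] f) (x y : Γ) :
    E₁.sb f x y = E₂.sb f x y := by
  have h3 : E₁.sm 3 [] := s1 _ _ ha
  have h3' : E₂.sm 3 [] := s2 _ _ hb
  refine sb_ext (E := E) h3 h3' hf [(3, []), (2, [a]), (2, [b])]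
    (by simp [h4, ha, hb]) (fun X => [(2, [X]), (1, [X, a]), (1, [X, b])]) ?_ ?_ x y
  · intro X hX p hp
    have b1 : E.sm 3 [X] := hX (3, []) (by simp)
    have b2 : E.sm 2 [X, a] := hX (2, [a]) (by simp)
    have b3 : E.sm 2 [X, b] := hX (2, [b]) (by simp)
    simp only [List.mem_cons, List.not_mem_nil, or_false] at hp
    rcases hp with rfl | rfl | rfl
    exacts [b1, b2, b3]
  · intro X hX Y hY
    have b2 : E.sm 2 [X, a] := hX (2, [a]) (by simp)
    have b3 : E.sm 2 [X, b] := hX (2, [b]) (by simp)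
    have c1 : E.sm 2 [Y, X] := hY (2, [X]) (by simp)
    have c2 : E.sm 1 [Y, X, a] := hY (1, [X, a]) (by simp)
    have c3 : E.sm 1 [Y, X, b] := hY (1, [X, b]) (by simp)
    have pa : ∀ c : S, ([Y, X, c] : List S).Perm [c, Y, X] := fun c =>
      (List.Perm.cons Y (List.Perm.swap c X [])).trans (List.Perm.swap c Y [X])
    have pb : ∀ c : S, ([X, c] : List S).Perm [c, X] := fun c => List.Perm.swap c X []
    have d2 := E.sm_perm _ _ _ (pa a) c2
    have d3 := E.sm_perm _ _ _ (pa b) c3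
    have e2 := E.sm_perm _ _ _ (pb a) b2
    have e3 := E.sm_perm _ _ _ (pb b) b3
    have f1 := sb_deg h3 (s1 _ _ e2) (s1 _ _ d2) hf
    have f2 := sb_deg h3' (s2 _ _ e3) (s2 _ _ d3) hf
    rw [hdeg] at f1
    rw [hdeg'] at f2
    rw [f1, f2, L1 X Y d2, L2 X Y d3]
    exact E.sy_deg c1 d2 d3 hab hf

end Eng

end Pool.Agent.SSF
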