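import Mathlib
import Pool.Agent.SSF.Germ

/-!
# SSF, team S: comparison of the symbols of two engines

One theorem for base change of fields, specialisation over a discrete valuation ring, change of
the group of degrees, equality in high degrees.
-/

namespace Pool.Agent.SSF

open Cocycle4 (two mem_two mk_eq add_self)

namespace Eng

variable {Γ S V Γ' S' V' W : Type*} [AddCommGroup Γ] [CommMonoid S] [AddCommGroup V] {h : Γ}
variable [AddCommGroup Γ'] [CommMonoid S'] [AddCommGroup V'] {h' : Γ'} [AddCommGroup W]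

/-- `Lf s s'`: the section `s'` of the second engine is a lift of the section `s` of the first
one. `av`: simultaneous avoidance for both engines. `D`: the torsions of lists and of their lifts,
if both are good, come from `W` via `j : W → V`, `i : W → V'`, in high degrees `n h`. -/
structure Span (E : Eng Γ S (Germ Γ V h)) (E' : Eng Γ' S' (Germ Γ' V' h')) (γ : Γ →+ Γ')
    (j : W →+ V) (i : W →+ V') (Lf : S → S' → Prop) : Prop where
  mul : ∀ s s' t t', Lf s s' → Lf t t' → Lf (s * t) (s' * t')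
  deg : ∀ s s', Lf s s' → E'.deg s' = γ (E.deg s)
  av : ∀ (L : List (ℕ × List S)) (L' : List (ℕ × List S')), (∀ p ∈ L, E.sm (p.1 + 1) p.2) →
    (∀ p ∈ L', E'.sm (p.1 + 1) p.2) → ∀ χ : Γ, ∃ N : ℕ, ∀ m : ℕ, N ≤ m → ∃ s s', Lf s s' ∧
      E.deg s = χ + m • E.h ∧ (∀ p ∈ L, E.sm p.1 (s :: p.2)) ∧ ∀ p ∈ L', E'.sm p.1 (s' :: p.2)
  D : ∀ l l', List.Forall₂ Lf l l' → E.sm 0 l → E'.sm 0 l' → ∃ (δ : Γ → W) (δ' : Γ' → V'),
    E.D l = Germ.mk h (fun n => j (δ n)) ∧ E'.D l' = Germ.mk h' δ' ∧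
      ∃ N : ℕ, ∀ n : ℕ, N ≤ n → δ' (n • h') = i (δ (n • h))

variable {E : Eng Γ S (Germ Γ V h)} {E' : Eng Γ' S' (Germ Γ' V' h')} {γ : Γ →+ Γ'}
variable {j : W →+ V} {i : W →+ V'} {Lf : S → S' → Prop}

theorem Span.pair (H : Span E E' γ j i Lf) (L : List (ℕ × List S)) (L' : List (ℕ × List S'))
    (hL : ∀ p ∈ L, E.sm (p.1 + 1) p.2) (hL' : ∀ p ∈ L', E'.sm (p.1 + 1) p.2) (χ : Γ) :
    ∃ s s' t t', Lf s s' ∧ Lf t t' ∧ E.deg s = χ + E.deg t ∧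
      (∀ p ∈ L, E.sm p.1 (s :: p.2)) ∧ (∀ p ∈ L', E'.sm p.1 (s' :: p.2)) ∧
      (∀ p ∈ L, E.sm p.1 (t :: p.2)) ∧ ∀ p ∈ L', E'.sm p.1 (t' :: p.2) := by
  obtain ⟨N, hN⟩ := H.av L L' hL hL' χ
  obtain ⟨N', hN'⟩ := H.av L L' hL hL' 0
  obtain ⟨s, s', a1, a2, a3, a4⟩ := hN (max N N') (le_max_left _ _)
  obtain ⟨t, t', b1, b2, b3, b4⟩ := hN' (max N N') (le_max_right _ _)
  exact ⟨s, s', t, t', a1, b1, by rw [a2, b2, zero_add], a3, a4, b3, b4⟩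

theorem Span.good (H : Span E E' γ j i Lf) {f : Γ} (hf : f + f = 0) (h3 : E.sm 3 [])
    (h3' : E'.sm 3 []) {X Y : S} {X' Y' : S'} (lX : Lf X X') (lY : Lf Y Y')
    (hX : E.sm 2 [X]) (hX' : E'.sm 2 [X']) (hXY : E.sm 1 [Y, X]) (hXY' : E'.sm 1 [Y', X']) :
    ∃ w : W, E.vb f (E.deg X) (E.deg Y) = QuotientAddGroup.mk' (two V) (j w) ∧
      E'.vb (γ f) (γ (E.deg X)) (γ (E.deg Y)) = QuotientAddGroup.mk' (two V') (i w) := by
  obtain ⟨s, s', a, a', ls, la, hd, hs, hs', ha, ha'⟩ := H.pair [(0, [Y, X])] [(0, [Y', X'])]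
    (by simpa using hXY) (by simpa using hXY') f
  have hs : E.sm 0 [s, Y, X] := by simpa using hs
  have ha : E.sm 0 [a, Y, X] := by simpa using ha
  have hs' : E'.sm 0 [s', Y', X'] := by simpa using hs'
  have ha' : E'.sm 0 [a', Y', X'] := by simpa using ha'
  have q5 : List.Forall₂ Lf [s * s, Y, X] [s' * s', Y', X'] := by
    simp [lX, lY, H.mul _ _ _ _ ls ls]
  have q6 : List.Forall₂ Lf [a * a, Y, X] [a' * a', Y', X'] := by
    simp [lX, lY, H.mul _ _ _ _ la la]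
  have hf' : γ f + γ f = 0 := by rw [← map_add, hf, map_zero]
  have hd' : E'.deg s' = γ f + E'.deg a' := by
    rw [H.deg _ _ ls, H.deg _ _ la, hd, map_add]
  obtain ⟨v, hv, hv'⟩ := vb_val h3 hX hXY hf hs ha hd
  obtain ⟨v', hw, hw'⟩ := vb_val h3' hX' hXY' hf' hs' ha' hd'
  obtain ⟨δ₁, δ₁', a1, a2, a3⟩ := H.D _ _ q5 (E.sm_mul _ _ _ _ hs hs) (E'.sm_mul _ _ _ _ hs' hs')
  obtain ⟨δ₂, δ₂', b1, b2, b3⟩ := H.D _ _ q6 (E.sm_mul _ _ _ _ ha ha) (E'.sm_mul _ _ _ _ ha' ha')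
  rw [a1, b1, ← map_sub, Germ.const_apply, Germ.mk_eq_mk] at hv
  rw [a2, b2, ← map_sub, Germ.const_apply, Germ.mk_eq_mk] at hw
  obtain ⟨N₁, hN₁⟩ := hv 0
  obtain ⟨N₂, hN₂⟩ := hw 0
  obtain ⟨N₃, hN₃⟩ := a3
  obtain ⟨N₄, hN₄⟩ := b3
  have l1 : N₁ ≤ N₁ + N₂ + N₃ + N₄ := by omega
  have l2 : N₂ ≤ N₁ + N₂ + N₃ + N₄ := by omega
  have l3 : N₃ ≤ N₁ + N₂ + N₃ + N₄ := by omega
  have l4 : N₄ ≤ N₁ + N₂ + N₃ + N₄ := by omega
  generalize N₁ + N₂ + N₃ + N₄ = N at l1 l2 l3 l4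
  refine ⟨δ₁ (N • h) - δ₂ (N • h), ?_, ?_⟩
  · rw [hv']
    have e := hN₁ N l1
    rw [zero_add] at e
    rw [← e, map_sub]
    rfl
  · rw [← H.deg _ _ lX, ← H.deg _ _ lY, hw']
    have e := hN₂ N l2
    rw [zero_add] at e
    rw [← e, map_sub, ← hN₃ N l3, ← hN₄ N l4]
    rfl

/-- The comparison theorem. -/
theorem Span.vb (H : Span E E' γ j i Lf) {f : Γ} (hf : f + f = 0) (h3 : E.sm 3 [])
    (h3' : E'.sm 3 []) (x y : Γ) :
    ∃ w : W, E.vb f x y = QuotientAddGroup.mk' (two V) (j w) ∧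
      E'.vb (γ f) (γ x) (γ y) = QuotientAddGroup.mk' (two V') (i w) := by
  obtain ⟨X, X', U, U', lX, lU, hX, a1, a2, a3, a4⟩ := H.pair [(2, [])] [(2, [])]
    (by simp [h3]) (by simp [h3']) x
  have b1 : E.sm 2 [X] := a1 (2, []) (by simp)
  have b2 : E'.sm 2 [X'] := a2 (2, []) (by simp)
  have b3 : E.sm 2 [U] := a3 (2, []) (by simp)
  have b4 : E'.sm 2 [U'] := a4 (2, []) (by simp)
  obtain ⟨Y, Y', Z, Z', lY, lZ, hY, c1, c2, c3, c4⟩ := H.pair [(1, [X]), (1, [U])]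
    [(1, [X']), (1, [U'])] (by simp [b1, b3]) (by simp [b2, b4]) y
  obtain ⟨w1, p1, q1⟩ := H.good hf h3 h3' lX lY b1 b2 (c1 (1, [X]) (by simp))
    (c2 (1, [X']) (by simp))
  obtain ⟨w2, p2, q2⟩ := H.good hf h3 h3' lX lZ b1 b2 (c3 (1, [X]) (by simp))
    (c4 (1, [X']) (by simp))
  obtain ⟨w3, p3, q3⟩ := H.good hf h3 h3' lU lY b3 b4 (c1 (1, [U]) (by simp))
    (c2 (1, [U']) (by simp))
  obtain ⟨w4, p4, q4⟩ := H.good hf h3 h3' lU lZ b3 b4 (c3 (1, [U]) (by simp))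
    (c4 (1, [U']) (by simp))
  have hf' : γ f + γ f = 0 := by rw [← map_add, hf, map_zero]
  refine ⟨w1 - w2 - (w3 - w4), ?_, ?_⟩
  · rw [map_sub, map_sub, map_sub, map_sub, map_sub, map_sub, ← p1, ← p2, ← p3, ← p4, hX, hY,
      vb_add_left h3 hf, vb_add_left h3 hf, vb_add_right h3 hf, vb_add_right h3 hf]
    abel
  · rw [map_sub, map_sub, map_sub, map_sub, map_sub, map_sub, ← q1, ← q2, ← q3, ← q4, hX, hY,
      map_add, map_add,
      vb_add_left h3' hf', vb_add_left h3' hf', vb_add_right h3' hf', vb_add_right h3' hf']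
    abel

end Eng

end Pool.Agent.SSF
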