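import Mathlib

/-!
# SSF, layer V: the chain of symbol identities

A symbol `S f a b`, defined for degrees `a b` and a two-torsion degree `f`, with values in a group
of exponent two, vanishes on the triple `(τ; W, ε)` of the example.
-/

set_option autoImplicit false

namespace Pool.Agent.SSF.V

variable {Λ Q : Type*} [AddCommGroup Λ] [CommGroup Q]

/-- The formal properties of the symbol used for the vanishing. -/
structure SymAx (S : Λ → Λ → Λ → Q) : Prop where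
  sq : ∀ q : Q, q * q = 1
  add_left : ∀ f, 2 • f = 0 → ∀ a a' b, S f (a + a') b = S f a b * S f a' b
  comm : ∀ f, 2 • f = 0 → ∀ a b, S f a b = S f b a
  T2 : ∀ f g, 2 • f = 0 → 2 • g = 0 → ∀ b, S f g b = S g f b
  U : ∀ f g, 2 • f = 0 → 2 • g = 0 → S f g g = S g f f

namespace SymAx

variable {S : Λ → Λ → Λ → Q} (h : SymAx S) {f : Λ} (hf : 2 • f = 0)

include h hf

theorem add_right (a b b' : Λ) : S f a (b + b') = S f a b * S f a b' := by
  rw [h.comm f hf, h.add_left f hf, h.comm f hf b, h.comm f hf b']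

theorem zero_left (b : Λ) : S f 0 b = 1 := by
  have h1 := h.add_left f hf 0 0 b
  rw [add_zero, h.sq] at h1
  exact h1

theorem neg_left (a b : Λ) : S f (-a) b = S f a b := by
  have h1 := h.add_left f hf a (-a) b
  rw [add_neg_cancel, h.zero_left hf] at h1
  have h2 := h.sq (S f a b)
  have h3 : S f a b * S f (-a) b = S f a b * S f a b := h1.symm.trans h2.symm
  exact mul_left_cancel h3

theorem neg_right (a b : Λ) : S f a (-b) = S f a b := by
  rw [h.comm f hf, h.neg_left hf, h.comm f hf]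

theorem sub_left (a a' b : Λ) : S f (a - a') b = S f a b * S f a' b := by
  rw [sub_eq_add_neg, h.add_left f hf, h.neg_left hf]

theorem sub_right (a b b' : Λ) : S f a (b - b') = S f a b * S f a b' := by
  rw [sub_eq_add_neg, h.add_right hf, h.neg_right hf]

theorem two_left (a b : Λ) : S f (2 • a) b = 1 := by
  rw [two_nsmul, h.add_left f hf, h.sq]

theorem two_right (a b : Λ) : S f a (2 • b) = 1 := by
  rw [h.comm f hf, h.two_left hf]

/-- The diagonal symbol of a boundary class. -/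
theorem diag {x y z w ε s : Λ} (hs : x + y + z + w = 2 • s + ε)
    (hy : S f x y = 1) (hz : S f x z = 1) (hw : S f x w = 1) : S f x x = S f x ε := by
  have h1 : S f x (x + y + z + w) = S f x x := by
    rw [h.add_right hf, h.add_right hf, h.add_right hf, hy, hz, hw, mul_one, mul_one, mul_one]
  rw [← h1, hs, h.add_right hf, h.two_right hf, one_mul]

end SymAx

/-- The chain: `S (τ; W, ε₃ + ε₄) = 1` with `τ = e₄₁ - e₄₃`, `W = e₃₁ + e₃₃ + e₂₁`,
`ε₃ = e₂₁ - e₂₂`, `ε₄ = (e₁₃ - e₁₁) + (e₂₃ - e₂₁)`. -/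
theorem chain {S : Λ → Λ → Λ → Q} (h : SymAx S) (e : Fin 4 → Fin 4 → Λ)
    (h2 : ∀ i j k, 2 • e i j = 2 • e i k) {ε₃ ε₄ s₃ s₄ : Λ}
    (hε₃ : ε₃ = e 1 0 - e 1 1) (hε₄ : ε₄ = (e 0 2 - e 0 0) + (e 1 2 - e 1 0))
    (h3 : e 2 0 + e 2 1 + e 2 2 + e 2 3 = 2 • s₃ + ε₃)
    (h4 : e 3 0 + e 3 1 + e 3 2 + e 3 3 = 2 • s₄ + ε₄)
    (nb : ∀ f, 2 • f = 0 → ∀ i j k, j ≠ k → S f (e i j) (e i k) = 1)
    (hdiv : ∀ f, 2 • f = 0 → ∀ g, S f g (e 0 0 + e 0 2) = 1) :
    S (e 3 0 - e 3 2) (e 2 0 + e 2 2 + e 1 0) (ε₃ + ε₄) = 1 := by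
  set τ := e 3 0 - e 3 2 with hτ
  set ρ := e 2 0 - e 2 2 with hρ
  have hτ2 : 2 • τ = 0 := by rw [hτ, smul_sub, h2 3 0 2, sub_self]
  have hρ2 : 2 • ρ = 0 := by rw [hρ, smul_sub, h2 2 0 2, sub_self]
  -- the diagonal symbols
  have d3 : ∀ f, 2 • f = 0 → S f (e 2 0) (e 2 0) = S f (e 2 0) ε₃ ∧
      S f (e 2 2) (e 2 2) = S f (e 2 2) ε₃ := by
    intro f hf
    refine ⟨h.diag hf h3 (nb f hf _ _ _ (by decide)) (nb f hf _ _ _ (by decide))
      (nb f hf _ _ _ (by decide)), ?_⟩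
    have h3' : e 2 2 + e 2 0 + e 2 1 + e 2 3 = 2 • s₃ + ε₃ := by rw [← h3]; abel
    exact h.diag hf h3' (nb f hf _ _ _ (by decide)) (nb f hf _ _ _ (by decide))
      (nb f hf _ _ _ (by decide))
  have d4 : ∀ f, 2 • f = 0 → S f (e 3 0) (e 3 0) = S f (e 3 0) ε₄ ∧
      S f (e 3 2) (e 3 2) = S f (e 3 2) ε₄ := by
    intro f hf
    refine ⟨h.diag hf h4 (nb f hf _ _ _ (by decide)) (nb f hf _ _ _ (by decide))
      (nb f hf _ _ _ (by decide)), ?_⟩
    have h4' : e 3 2 + e 3 0 + e 3 1 + e 3 3 = 2 • s₄ + ε₄ := by rw [← h4]; abel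
    exact h.diag hf h4' (nb f hf _ _ _ (by decide)) (nb f hf _ _ _ (by decide))
      (nb f hf _ _ _ (by decide))
  -- `S (τ; ρ, ρ) = S (τ; ρ, ε₃)`
  have A : ∀ f, 2 • f = 0 → S f ρ ρ = S f ρ ε₃ := by
    intro f hf
    obtain ⟨h0, h1⟩ := d3 f hf
    rw [hρ, h.sub_left hf, h.sub_right hf, h.sub_right hf, h.sub_left hf, h0, h1,
      nb f hf 2 0 2 (by decide), nb f hf 2 2 0 (by decide), mul_one, one_mul]
  have B : ∀ f, 2 • f = 0 → S f τ τ = S f τ ε₄ := by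
    intro f hf
    obtain ⟨h0, h1⟩ := d4 f hf
    rw [hτ, h.sub_left hf, h.sub_right hf, h.sub_right hf, h.sub_left hf, h0, h1,
      nb f hf 3 0 2 (by decide), nb f hf 3 2 0 (by decide), mul_one, one_mul]
  have C : S τ ρ ε₃ = S τ ρ ε₄ := by
    rw [← A τ hτ2, h.U τ ρ hτ2 hρ2, B ρ hρ2, h.T2 ρ τ hρ2 hτ2]
  have D : S τ ρ (ε₃ + ε₄) = 1 := by
    rw [h.add_right hτ2, C, h.sq]
  have E : S τ (e 1 0) (ε₃ + ε₄) = 1 := by
    have he : ε₃ + ε₄ = (e 0 0 + e 0 2) + (e 1 2 - e 1 1) - 2 • e 0 0 := by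
      rw [hε₃, hε₄, two_nsmul]; abel
    rw [he, h.sub_right hτ2, h.add_right hτ2, h.sub_right hτ2, h.two_right hτ2,
      hdiv τ hτ2, nb τ hτ2 1 0 2 (by decide), nb τ hτ2 1 0 1 (by decide)]
    simp
  have hW : e 2 0 + e 2 2 + e 1 0 = ρ + 2 • e 2 2 + e 1 0 := by
    rw [hρ, two_nsmul]; abel
  rw [hW, h.add_left τ hτ2, h.add_left τ hτ2, D, E, h.two_left hτ2]
  simp

end Pool.Agent.SSF.V
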