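import Pool.Agent.SSF.SymbProps
import Pool.Agent.SSF.Div
import Pool.Agent.SSF.V2

/-!
# SSF, layer V: the symbol vanishes at the points of dimension two
-/

set_option autoImplicit false
open scoped TensorProduct

namespace Pool.Agent.SSF
namespace Cox

variable {K : Type} [Field K] {D : Cox K}

theorem sqCl_mul_self (q : SqCl K) : q * q = 1 := by
  induction q using QuotientGroup.induction_on with
  | H u =>
    rw [← QuotientGroup.mk_mul, QuotientGroup.eq_one_iff]
    exact ⟨u, by simp [pow_two]⟩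

/-- The formal properties of the symbol. -/
theorem symAx (hD : D.Good) (hK : Roots K) {J : Ideal D.R} (hJ : J.IsHomogeneous D.gR)
    (hd : D.DimLE J 2) : V.SymAx (D.symb J) where
  sq := sqCl_mul_self
  add_left := fun _ hf a a' b => symb_add_left hD hK hJ hd hf a a' b
  comm := fun _ hf a b => symb_comm hD hK hJ hd hf a b
  T2 := fun _ _ hf hg b => symb_T2 hD hK hJ hd hf hg b
  U := fun _ _ hf hg => symb_U hD hK hJ hd hf hg

/-- The data of the split form used for the vanishing: the sixteen sections, their degrees and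
the relations. -/
structure Split (D : Cox K) where
  /-- the sections -/
  X : Fin 4 → Fin 4 → D.R
  /-- their degrees -/
  e : Fin 4 → Fin 4 → D.Γ
  X_mem : ∀ i j, X i j ∈ D.gR (e i j)
  two : ∀ i j k, 2 • e i j = 2 • e i k
  /-- the twist of the third level -/
  ε₃ : D.Γ
  /-- the twist of the fourth level -/
  ε₄ : D.Γ
  /-- half of the degree of the product of the third level -/
  s₃ : D.Γ
  /-- half of the degree of the product of the fourth level -/
  s₄ : D.Γ
  hε₃ : ε₃ = e 1 0 - e 1 1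
  hε₄ : ε₄ = (e 0 2 - e 0 0) + (e 1 2 - e 1 0)
  h3 : e 2 0 + e 2 1 + e 2 2 + e 2 3 = 2 • s₃ + ε₃
  h4 : e 3 0 + e 3 1 + e 3 2 + e 3 3 = 2 • s₄ + ε₄
  /-- `e₁₁ + e₁₃ = e₁₂ + e₁₄` -/
  e0 : e 0 0 + e 0 2 = e 0 1 + e 0 3
  /-- a square root of `3` -/
  s : K
  /-- a fourth root of `3` -/
  θ : K
  h17 : (17 : K) = 0
  hs : s ^ 2 = 3
  hθ : θ ^ 2 = s
  r2 : X 0 2 ^ 2 = X 0 0 ^ 2 - algebraMap K D.R s * X 0 1 ^ 2
  r3 : X 0 3 ^ 2 = X 0 0 ^ 2 + algebraMap K D.R s * X 0 1 ^ 2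
  /-- no two of the four sections of one level vanish together -/
  nb : ∀ i j k, j ≠ k → ∀ p : D.Pt, X i j ∉ D.pt p ∨ X i k ∉ D.pt p

namespace Split

variable (A : Split D)

include A

theorem s_ne : A.s ≠ 0 := by
  intro h
  have h1 := A.hs
  rw [h] at h1
  have h2 : (1 : K) = 0 := by linear_combination (-6) * h1 - A.h17
  exact one_ne_zero h2

theorem two_ne : (2 : K) ≠ 0 := by
  intro h
  have h2 : (1 : K) = 0 := by linear_combination A.h17 - 8 * h
  exact one_ne_zero h2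

theorem three_ne : (3 : K) ≠ 0 := by
  intro h
  have h2 : (1 : K) = 0 := by linear_combination 6 * h - A.h17
  exact one_ne_zero h2

theorem five_ne : (5 : K) ≠ 0 := by
  intro h
  have h2 : (1 : K) = 0 := by linear_combination 7 * h - 2 * A.h17
  exact one_ne_zero h2

theorem θ_ne : A.θ ≠ 0 := by
  intro h
  apply A.s_ne
  rw [← A.hθ, h]
  ring

omit A in
/-- If a nonzero scalar multiple of `x` is in an ideal, then `x` is in the ideal. -/
theorem mem_of_smul {J : Ideal D.R} {c : K} (hc : c ≠ 0) {x : D.R}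
    (h : algebraMap K D.R c * x ∈ J) : x ∈ J := by
  have h1 := J.mul_mem_left (algebraMap K D.R c⁻¹) h
  rwa [← mul_assoc, ← map_mul, inv_mul_cancel₀ hc, map_one, one_mul] at h1

omit A in
theorem scal_mem {γ : D.Γ} {x : D.R} (c : K) (hx : x ∈ D.gR γ) :
    algebraMap K D.R c * x ∈ D.gR γ := by
  rw [← Algebra.smul_def]
  exact Submodule.smul_mem _ _ hx

theorem sq_mem (i j k : Fin 4) : A.X i j ^ 2 ∈ D.gR (2 • A.e i k) := by
  rw [A.two i k j]
  exact SetLike.pow_mem_graded 2 (A.X_mem i j)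

theorem mul02 : A.X 0 0 * A.X 0 2 ∈ D.gR (A.e 0 0 + A.e 0 2) :=
  SetLike.mul_mem_graded (A.X_mem 0 0) (A.X_mem 0 2)

theorem mul13 : A.X 0 1 * A.X 0 3 ∈ D.gR (A.e 0 0 + A.e 0 2) := by
  rw [A.e0]
  exact SetLike.mul_mem_graded (A.X_mem 0 1) (A.X_mem 0 3)

/-- The section `q± = ξ₁₁ ξ₁₃ ± c θ ξ₁₂ ξ₁₄`. -/
def q (c : K) : D.R := A.X 0 0 * A.X 0 2 + algebraMap K D.R c * (A.X 0 1 * A.X 0 3)

theorem q_mem (c : K) : A.q c ∈ D.gR (A.e 0 0 + A.e 0 2) :=
  Submodule.add_mem _ A.mul02 (scal_mem c A.mul13)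

/-- The form `l = x - c x'`. -/
def l (c : K) : D.R := A.X 0 0 ^ 2 - algebraMap K D.R c * A.X 0 1 ^ 2

theorem l_mem (c : K) : A.l c ∈ D.gR (2 • A.e 0 0) :=
  Submodule.sub_mem _ (A.sq_mem 0 0 0) (scal_mem c (A.sq_mem 0 1 0))

theorem q_mul (c d : K) (h1 : c ^ 2 + A.s = 2 * d) (h2 : c ^ 2 * A.s = -d ^ 2) :
    A.q c * A.q (-c) = A.l d * A.l d := by
  have h1' : algebraMap K D.R c ^ 2 + algebraMap K D.R A.s = 2 * algebraMap K D.R d := by
    have := congrArg (algebraMap K D.R) h1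
    rwa [map_add, map_pow, map_mul, map_ofNat] at this
  have h2' : algebraMap K D.R c ^ 2 * algebraMap K D.R A.s = -algebraMap K D.R d ^ 2 := by
    have := congrArg (algebraMap K D.R) h2
    simpa using this
  simp only [q, l, map_neg]
  linear_combination (A.X 0 0 ^ 2) * A.r2 - (algebraMap K D.R c ^ 2 * A.X 0 1 ^ 2) * A.r3
    - (A.X 0 0 ^ 2 * A.X 0 1 ^ 2) * h1' - A.X 0 1 ^ 4 * h2'

theorem q_zf (hD : D.Good) {c : K} (hc : c ≠ 0) (J : Ideal D.R) :
    D.ZF J [A.q c, A.q (-c)] := by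
  intro r _
  by_contra hcon
  push Not at hcon
  have h1 := hcon (A.q c) (by simp)
  have h2 := hcon (A.q (-c)) (by simp)
  have h3 : A.X 0 0 * A.X 0 2 ∈ D.pt r := by
    apply mem_of_smul A.two_ne
    have := (D.pt r).add_mem h1 h2
    have e : A.q c + A.q (-c) = algebraMap K D.R 2 * (A.X 0 0 * A.X 0 2) := by
      simp only [q, map_neg, map_ofNat]
      ring
    rwa [e] at this
  have h4 : A.X 0 1 * A.X 0 3 ∈ D.pt r := by
    apply mem_of_smul (mul_ne_zero A.two_ne hc)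
    have := (D.pt r).sub_mem h1 h2
    have e : A.q c - A.q (-c) = algebraMap K D.R (2 * c) * (A.X 0 1 * A.X 0 3) := by
      simp only [q, map_neg, map_mul, map_ofNat]
      ring
    rwa [e] at this
  rcases pt_prime D hD r (A.X_mem 0 0) (A.X_mem 0 2) h3 with h5 | h5 <;>
  rcases pt_prime D hD r (A.X_mem 0 1) (A.X_mem 0 3) h4 with h6 | h6
  · exact (A.nb 0 0 1 (by decide) r).elim (fun h => h h5) (fun h => h h6)
  · exact (A.nb 0 0 3 (by decide) r).elim (fun h => h h5) (fun h => h h6)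
  · exact (A.nb 0 2 1 (by decide) r).elim (fun h => h h5) (fun h => h h6)
  · exact (A.nb 0 2 3 (by decide) r).elim (fun h => h h5) (fun h => h h6)

theorem l_not_mem (hD : D.Good) (p : D.Pt) {c d : K} (hcd : d ≠ c) :
    A.l c ∉ D.pt p ∨ A.l d ∉ D.pt p := by
  by_contra hcon
  push Not at hcon
  obtain ⟨h1, h2⟩ := hcon
  have h3 : A.X 0 1 * A.X 0 1 ∈ D.pt p := by
    apply mem_of_smul (sub_ne_zero.2 hcd)
    have := (D.pt p).sub_mem h1 h2
    have e : A.l c - A.l d = algebraMap K D.R (d - c) * (A.X 0 1 * A.X 0 1) := by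
      simp only [l, map_sub]
      ring
    rwa [e] at this
  have h4 : A.X 0 0 * A.X 0 0 ∈ D.pt p := by
    have := (D.pt p).add_mem h1 ((D.pt p).mul_mem_left (algebraMap K D.R c) h3)
    have e : A.l c + algebraMap K D.R c * (A.X 0 1 * A.X 0 1) = A.X 0 0 * A.X 0 0 := by
      simp only [l]
      ring
    rwa [e] at this
  have h5 : A.X 0 1 ∈ D.pt p := (pt_prime D hD p (A.X_mem 0 1) (A.X_mem 0 1) h3).elim id id
  have h6 : A.X 0 0 ∈ D.pt p := (pt_prime D hD p (A.X_mem 0 0) (A.X_mem 0 0) h4).elim id id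
  exact (A.nb 0 0 1 (by decide) p).elim (fun h => h h6) (fun h => h h5)

/-- DIV for the class `e₁₁ + e₁₃`. -/
theorem div (hD : D.Good) (hK : Roots K) (p : D.Pt) (hd : D.DimLE (D.pt p) 2) {f : D.Γ}
    (hf : 2 • f = 0) (g : D.Γ) : D.symb (D.pt p) f g (A.e 0 0 + A.e 0 2) = 1 := by
  have hne : (10 : K) * A.s ≠ 5 * A.s := by
    intro h
    have : (5 : K) * A.s = 0 := by linear_combination h
    exact mul_ne_zero A.five_ne A.s_ne this
  rcases A.l_not_mem hD p hne with h | h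
  · refine symb_div hD hK p hd hf g (A.q_mem (3 * A.θ)) (A.q_mem (-(3 * A.θ)))
      (A.l_mem (5 * A.s)) (A.q_mul _ _ ?_ ?_)
      (A.q_zf hD (mul_ne_zero A.three_ne A.θ_ne) _) h
    · linear_combination 9 * A.hθ
    · linear_combination 9 * A.s * A.hθ + 34 * A.hs + 6 * A.h17
  · refine symb_div hD hK p hd hf g (A.q_mem (6 * A.θ)) (A.q_mem (-(6 * A.θ)))
      (A.l_mem (10 * A.s)) (A.q_mul _ _ ?_ ?_) (A.q_zf hD (mul_ne_zero ?_ A.θ_ne) _) h
    · linear_combination 36 * A.hθ + A.s * A.h17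
    · linear_combination 36 * A.s * A.hθ + 136 * A.hs + 24 * A.h17
    · intro h6
      apply mul_ne_zero A.two_ne A.three_ne
      linear_combination h6

/-- The vanishing of the symbol at the points of dimension two. -/
theorem van_pt (hD : D.Good) (hK : Roots K) (p : D.Pt) (hd : D.DimLE (D.pt p) 2) :
    D.symb (D.pt p) (A.e 3 0 - A.e 3 2) (A.e 2 0 + A.e 2 2 + A.e 1 0) (A.ε₃ + A.ε₄) = 1 := by
  refine V.chain (symAx hD hK (ext_homogeneous D _) hd) A.e A.two A.hε₃ A.hε₄ A.h3 A.h4 ?_ ?_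
  · intro f hf i j k hjk
    refine symb_NB hD hK p hd hf (A.X_mem i j) (A.X_mem i k) ?_
    intro r _
    rcases A.nb i j k hjk r with h | h
    · exact ⟨_, by simp, h⟩
    · exact ⟨_, by simp, h⟩
  · intro f hf g
    exact A.div hD hK p hd hf g

end Split

end Cox
end Pool.Agent.SSF
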