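import Pool.Agent.SSF.SymbBc
import Pool.Agent.SSF.Regrade
import Pool.Agent.SSF.G8
import Pool.Agent.SSF.Ker

/-!
# SSF, layer V: from the vanishing over the fields containing a fourth root of `n` to the values
over an arbitrary field
-/

set_option autoImplicit false

open scoped TensorProduct

namespace Pool.Agent.SSF
namespace Cox
namespace V4

section cls

variable {K : Type} [Field K]

theorem cls_eq_one_iff (u : Kˣ) : cls u = 1 ↔ IsSquare (u : K) := by
  unfold cls
  rw [QuotientGroup.eq_one_iff]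
  constructor
  · rintro ⟨v, hv⟩
    refine ⟨(v : K), ?_⟩
    rw [← hv]
    simp [pow_two]
  · rintro ⟨r, hr⟩
    have hr0 : r ≠ 0 := by
      rintro rfl
      exact u.ne_zero (by rw [hr]; ring)
    refine ⟨Units.mk0 r hr0, ?_⟩
    ext
    simp [pow_two, hr]

theorem cls_mul (u v : Kˣ) : cls (u * v) = cls u * cls v := rfl

theorem eq_of_mul_one {Q : Type*} [CommGroup Q] {x y : Q} (h : x * y = 1) (h' : x * x = 1) :
    y = x := mul_left_cancel (h.trans h'.symm)

theorem cls_mul_self (q : SqCl K) : q * q = 1 := by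
  induction q using QuotientGroup.induction_on with
  | H u =>
    rw [← QuotientGroup.mk_mul, QuotientGroup.eq_one_iff]
    exact ⟨u, by simp [pow_two]⟩

theorem cls_surj (q : SqCl K) : ∃ u : Kˣ, q = cls u := by
  induction q using QuotientGroup.induction_on with
  | H u => exact ⟨u, rfl⟩

theorem cls_eq_of_isSquare_mul (u v : Kˣ) (h : IsSquare ((v : K) * u)) : cls u = cls v := by
  have h1 : cls (v * u) = 1 := (cls_eq_one_iff _).2 (by simpa using h)
  rw [cls_mul] at h1
  exact eq_of_mul_one h1 (cls_mul_self _)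

end cls

section emb

variable {k : Type} [CommRing k] {D D' : Cox k}

/-- A change of the group of degrees is a morphism of Cox data. -/
noncomputable def toMor (E : Emb D D') : Mor D D' where
  α := (E.α : D.A →+* D'.A)
  α_mem := fun n a ha => (E.α_mem n a).1 ha
  γ := E.γ
  γ_inj := E.γ_inj
  γ_h := E.γ_h
  ψ := (E.ψ : D.R →+* D'.R)
  ψ_mem := E.ψ_mem
  comm := E.comm
  gen := fun g x hx => by
    obtain ⟨y, hy, rfl⟩ := E.ψ_surj g x hx
    exact AddSubgroup.subset_closure ⟨1, y, hy, by simp⟩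

theorem emb_map_map (E : Emb D D') (I : Ideal D.A) :
    (I.map D.φ).map (E.ψ : D.R →+* D'.R) = (I.map (E.α : D.A →+* D'.A)).map D'.φ := by
  have e : (E.ψ : D.R →+* D'.R).comp (D.φ : D.A →+* D.R) =
      (D'.φ : D'.A →+* D'.R).comp (E.α : D.A →+* D'.A) := RingHom.ext E.comm
  have h1 : (I.map D.φ) = I.map (D.φ : D.A →+* D.R) := rfl
  have h2 : (I.map (E.α : D.A →+* D'.A)).map D'.φ =
      (I.map (E.α : D.A →+* D'.A)).map (D'.φ : D'.A →+* D'.R) := rfl
  rw [h1, h2, Ideal.map_map, Ideal.map_map, e]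

theorem emb_dimLE (E : Emb D D') {I : Ideal D.A} {d : ℕ} (hd : D.DimLE (I.map D.φ) d) :
    D'.DimLE ((I.map (E.α : D.A →+* D'.A)).map D'.φ) d := by
  rw [← emb_map_map E]
  exact (toMor E).dim (RingHom.isIntegral_of_surjective _ E.α.surjective) hd

theorem emb_isHomogeneous (E : Emb D D') {I : Ideal D.A} (hI : I.IsHomogeneous D.gA) :
    (I.map (E.α : D.A →+* D'.A)).IsHomogeneous D'.gA := by
  rw [Ideal.IsHomogeneous.iff_exists] at hI
  obtain ⟨S, rfl⟩ := hI
  rw [Ideal.map_span]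
  refine Ideal.homogeneous_span _ _ ?_
  rintro _ ⟨_, ⟨⟨a, n, ha⟩, _, rfl⟩, rfl⟩
  exact ⟨n, (E.α_mem n a).1 ha⟩

end emb

section field

variable {K : Type} [Field K] {D D' : Cox K}

/-- The vanishing for the form with more degrees implies the vanishing. -/
theorem van_emb (E : Emb D D') (hD : D.Good) (hD' : D'.Good) (hK : Roots K) {f a b : D.Γ}
    (hf : 2 • f = 0)
    (hvan : ∀ I' : Ideal D'.A, I'.IsHomogeneous D'.gA → D'.DimLE (I'.map D'.φ) 2 →
      D'.symb (I'.map D'.φ) (E.γ f) (E.γ a) (E.γ b) = 1)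
    {I : Ideal D.A} (hI : I.IsHomogeneous D.gA) (hd : D.DimLE (I.map D.φ) 2) :
    D.symb (I.map D.φ) f a b = 1 := by
  rw [symb_regrade E hD hD' hK hI hd hf a b]
  exact hvan _ (emb_isHomogeneous E hI) (emb_dimLE E hd)

end field

section base

variable {F : Type} [Field F] {D : Cox F}

theorem mapR_comp_φ (D : Cox F) {B B' : Type} [CommRing B] [Algebra F B] [CommRing B']
    [Algebra F B'] (f : B →ₐ[F] B') (I : Ideal (D.bc B).A) :
    (I.map (D.bc B).φ).map (D.mapR f) = (I.map (D.mapA f)).map (D.bc B').φ := by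
  have e : (D.mapR f).comp ((D.bc B).φ : (D.bc B).A →+* (D.bc B).R) =
      ((D.bc B').φ : (D.bc B').A →+* (D.bc B').R).comp (D.mapA f) :=
    RingHom.ext (D.mapMor f).comm
  have h1 : (I.map (D.bc B).φ) = I.map ((D.bc B).φ : (D.bc B).A →+* (D.bc B).R) := rfl
  have h2 : (I.map (D.mapA f)).map (D.bc B').φ =
      (I.map (D.mapA f)).map ((D.bc B').φ : (D.bc B').A →+* (D.bc B').R) := rfl
  rw [h1, h2, Ideal.map_map, Ideal.map_map, e]

theorem mapA_isHomogeneous (D : Cox F) {B B' : Type} [CommRing B] [Algebra F B] [CommRing B']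
    [Algebra F B'] (f : B →ₐ[F] B') {I : Ideal (D.bc B).A}
    (hI : I.IsHomogeneous (D.bc B).gA) : (I.map (D.mapA f)).IsHomogeneous (D.bc B').gA := by
  rw [Ideal.IsHomogeneous.iff_exists] at hI
  obtain ⟨S, rfl⟩ := hI
  rw [Ideal.map_span]
  refine Ideal.homogeneous_span _ _ ?_
  rintro _ ⟨_, ⟨⟨a, n, ha⟩, _, rfl⟩, rfl⟩
  exact ⟨n, (D.mapMor f).α_mem n a ha⟩

theorem φ_isHomogeneous {k : Type} [CommRing k] (D : Cox k) {I : Ideal D.A}
    (hI : I.IsHomogeneous D.gA) : (I.map D.φ).IsHomogeneous D.gR := by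
  rw [Ideal.IsHomogeneous.iff_exists] at hI
  obtain ⟨S, rfl⟩ := hI
  rw [Ideal.map_span]
  refine Ideal.homogeneous_span _ _ ?_
  rintro _ ⟨_, ⟨⟨a, n, ha⟩, _, rfl⟩, rfl⟩
  exact ⟨n • D.h, D.φ_mem n a ha⟩

/-- The values of the symbol over an arbitrary field. -/
theorem van_ker (hD : D.Good) (hroots : ∀ (K : Type) [Field K] [Algebra F K], Roots K)
    (h2 : (2 : F) ≠ 0) {i : F} (hi : i ^ 2 = -1) (n : Fˣ) {f a b : D.Γ} (hf : 2 • f = 0)
    (hvan : ∀ (L : Type) [Field L] [Algebra F L] (θ : L), θ ^ 4 = algebraMap F L n →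
      ∀ I : Ideal (D.bc L).A, I.IsHomogeneous (D.bc L).gA →
        (D.bc L).DimLE (I.map (D.bc L).φ) 2 → (D.bc L).symb (I.map (D.bc L).φ) f a b = 1)
    (K : Type) [Field K] [Algebra F K] (hn : ¬ IsSquare (algebraMap F K n))
    (I : Ideal (D.bc K).A) (hI : I.IsHomogeneous (D.bc K).gA)
    (hd : (D.bc K).DimLE (I.map (D.bc K).φ) 2) :
    (D.bc K).symb (I.map (D.bc K).φ) f a b = 1 ∨
      (D.bc K).symb (I.map (D.bc K).φ) f a b =
        cls (Units.map (algebraMap F K).toMonoidHom n) := by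
  have h2K : (2 : K) ≠ 0 := by
    rw [← map_ofNat (algebraMap F K) 2]
    exact (map_ne_zero (algebraMap F K)).2 h2
  have hiK : (algebraMap F K i) ^ 2 = -1 := by rw [← map_pow, hi, map_neg, map_one]
  obtain ⟨L, fL, aL, θ, hθ, hspan⟩ := exists_ker_field h2K hiK hn
  let _ : Algebra F L := ((algebraMap K L).comp (algebraMap F K)).toAlgebra
  have _ : IsScalarTower F K L := IsScalarTower.of_algebraMap_eq fun _ => rfl
  let j : K →ₐ[F] L := IsScalarTower.toAlgHom F K L
  have hj : (j : K →+* L) = algebraMap K L := rfl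
  -- `L` is integral over `K`
  have hint : (j : K →+* L).IsIntegral := by
    have hθi : (algebraMap K L).IsIntegralElem θ := by
      refine ⟨Polynomial.X ^ 4 - Polynomial.C (algebraMap F K n),
        Polynomial.monic_X_pow_sub_C _ (by norm_num), ?_⟩
      rw [Polynomial.eval₂_sub, Polynomial.eval₂_pow, Polynomial.eval₂_X, Polynomial.eval₂_C, hθ,
        sub_self]
    intro b
    obtain ⟨c₀, c₁, c₂, c₃, rfl⟩ := hspan b
    rw [hj]
    have hc : ∀ c : K, (algebraMap K L).IsIntegralElem (algebraMap K L c) := fun c =>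
      RingHom.isIntegralElem_map _
    have hpow : ∀ m : ℕ, (algebraMap K L).IsIntegralElem (θ ^ m) := fun m =>
      IsIntegral.pow (R := K) hθi m
    exact ((((hc c₀).add _ ((hc c₁).mul _ hθi)).add _ ((hc c₂).mul _ (hpow 2))).add _
      ((hc c₃).mul _ (hpow 3)))
  obtain ⟨u, hu⟩ := cls_surj ((D.bc K).symb (I.map (D.bc K).φ) f a b)
  have hdL : (D.bc L).DimLE ((I.map (D.bc K).φ).map (D.mapR j)) 2 :=
    dim_mapR j hint hd
  have h1 := symb_bc hD K L j (hroots K) (hroots L) (φ_isHomogeneous _ hI) hd hdL hf a b u hu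
  rw [mapR_comp_φ] at h1 hdL
  rw [hvan L θ (by rw [hθ]; rfl) _ (mapA_isHomogeneous D j hI) hdL] at h1
  have h3 : IsSquare (algebraMap K L (u : K)) := by
    exact (cls_eq_one_iff _).1 h1.symm
  rw [hu]
  rcases ker_square h2K hiK hn hθ hspan h3 with h4 | h4
  · exact Or.inl ((cls_eq_one_iff _).2 h4)
  · exact Or.inr (cls_eq_of_isSquare_mul _ _ (by simpa using h4))

/-- The same, with the vanishing given for a form with more degrees. -/
theorem van_form (hD : D.Good) (hbc : ∀ (K : Type) [Field K] [Algebra F K], (D.bc K).Good)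
    (hroots : ∀ (K : Type) [Field K] [Algebra F K], Roots K)
    (h2 : (2 : F) ≠ 0) {i : F} (hi : i ^ 2 = -1) (n : Fˣ) {f a b : D.Γ} (hf : 2 • f = 0)
    (hform : ∀ (L : Type) [Field L] [Algebra F L] (θ : L), θ ^ 4 = algebraMap F L n →
      ∃ (D' : Cox L) (E : Emb (D.bc L) D'), D'.Good ∧
        ∀ I' : Ideal D'.A, I'.IsHomogeneous D'.gA → D'.DimLE (I'.map D'.φ) 2 →
          D'.symb (I'.map D'.φ) (E.γ f) (E.γ a) (E.γ b) = 1)
    (K : Type) [Field K] [Algebra F K] (hn : ¬ IsSquare (algebraMap F K n))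
    (I : Ideal (D.bc K).A) (hI : I.IsHomogeneous (D.bc K).gA)
    (hd : (D.bc K).DimLE (I.map (D.bc K).φ) 2) :
    (D.bc K).symb (I.map (D.bc K).φ) f a b = 1 ∨
      (D.bc K).symb (I.map (D.bc K).φ) f a b =
        cls (Units.map (algebraMap F K).toMonoidHom n) := by
  refine van_ker hD hroots h2 hi n hf ?_ K hn I hI hd
  intro L _ _ θ hθ I hI hd
  obtain ⟨D', E, hD', hvan⟩ := hform L θ hθ
  exact van_emb E (hbc L) hD' (hroots L) hf hvan hI hd

end base

end V4

end Cox
end Pool.Agent.SSF
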