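import Pool.Agent.SSF.V2b
import Pool.Agent.SSF.SymbCH
import Pool.Agent.SSF.G3
import Pool.Agent.SSF.HomInd

/-!
# SSF, layer V: the symbol vanishes for all ideals of dimension two of the split form
-/

set_option autoImplicit false

namespace Pool.Agent.SSF
namespace Cox

variable {K : Type} [Field K] {D : Cox K}

theorem DimLE.mono {J J' : Ideal D.R} {d : ℕ} (h : D.DimLE J d) (hJ : J ≤ J') : D.DimLE J' d :=
  fun l hl => h l (hJ.trans hl)

/-- A class of symbols which is trivial at the points of dimension two is trivial at all ideals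
of `A` of dimension two. -/
theorem symb_map_eq_one (hD : D.Good) (hK : Roots K) {f : D.Γ} (hf : 2 • f = 0) (a b : D.Γ)
    (hpt : ∀ p : D.Pt, D.DimLE (D.pt p) 2 → D.symb (D.pt p) f a b = 1) {I : Ideal D.A}
    (hI : I.IsHomogeneous D.gA) (hd : D.DimLE (I.map D.φ) 2) :
    D.symb (I.map D.φ) f a b = 1 := by
  have hA : IsNoetherianRing D.A := by
    have := hD.ftA
    exact Algebra.FiniteType.isNoetherianRing K D.A
  revert hd
  have hhom : ∀ I : Ideal D.A, I.IsHomogeneous D.gA → (I.map D.φ).IsHomogeneous D.gR := by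
    intro I hI
    obtain ⟨S, rfl⟩ := (Ideal.IsHomogeneous.iff_exists D.gA I).1 hI
    rw [Ideal.map_span]
    refine Ideal.homogeneous_span D.gR _ ?_
    rintro _ ⟨_, ⟨x, hx, rfl⟩, rfl⟩
    obtain ⟨n, hn⟩ := x.2
    exact ⟨n • D.h, D.φ_mem n _ hn⟩
  refine HomInd.induction D.gA (P := fun I => D.DimLE (I.map D.φ) 2 →
    D.symb (I.map D.φ) f a b = 1) ?_ ?_ ?_ I hI
  · intro I hI hp hd
    by_cases hirr : HomogeneousIdeal.irrelevant D.gA ≤ ⟨I, hI⟩
    · -- no points
      refine symb_one hD hK (hhom I hI) ?_ hf a b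
      intro l hl
      exfalso
      have h1 : I ≤ l.head.asHomogeneousIdeal.toIdeal := (map_le_pt D hD I l.head).1 hl
      exact l.head.not_irrelevant_le (hirr.trans h1)
    · let p : D.Pt := ⟨⟨I, hI⟩, hp, hirr⟩
      have h1 : D.pt p = D.ext I := rfl
      have h2 : I.map D.φ ≤ D.pt p := (map_le_pt D hD I p).2 le_rfl
      have h3 := symb_high hD hK (hhom I hI) (ext_homogeneous D _) hd
        (high_map_eq_ext D hD hI) hf a b
      rw [h3, ← h1]
      exact hpt p (hd.mono h2)
  · intro _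
    rw [Ideal.map_top]
    refine symb_one hD hK (Ideal.IsHomogeneous.top D.gR) ?_ hf a b
    intro l hl
    exfalso
    have h1 : (⊤ : Ideal D.A) ≤ l.head.asHomogeneousIdeal.toIdeal :=
      (map_le_pt D hD ⊤ l.head).1 (by rw [Ideal.map_top]; exact hl)
    exact l.head.isPrime.ne_top (top_le_iff.1 h1)
  · intro I hI i r hr h1 h2 hd
    have hr' := D.φ_mem i r hr
    rw [symb_colon hD hK (hhom I hI) hd hf a b hr']
    have e1 : D.symb ((I.map D.φ).colon (Ideal.span {D.φ r})) f a b = 1 := by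
      have h3 : D.DimLE ((I.colon (Ideal.span {r} : Set D.A)).map D.φ) 2 :=
        hd.mono (Ideal.map_mono (HomInd.le_colon I r))
      rw [← symb_high hD hK (hhom _ (HomInd.colon_homogeneous D.gA hI hr))
        (HomInd.colon_homogeneous D.gR (hhom I hI) hr') h3 ?_ hf a b]
      · exact h1 h3
      · intro γ
        obtain ⟨N, hN⟩ := high_colon D hD hI hr γ
        exact ⟨N, fun n hn x hx => (hN n hn x hx).symm⟩
    have e2 : D.symb (I.map D.φ ⊔ Ideal.span {D.φ r}) f a b = 1 := by
      have h4 : (I ⊔ Ideal.span {r}).map D.φ = I.map D.φ ⊔ Ideal.span {D.φ r} := by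
        rw [Ideal.map_sup, Ideal.map_span, Set.image_singleton]
      rw [← h4]
      exact h2 (by rw [h4]; exact hd.mono le_sup_left)
    rw [e1, e2]
    exact mul_one (1 : SqCl K)

/-- V4a: the vanishing for the split form. -/
theorem Split.van (A : Split D) (hD : D.Good) (hK : Roots K) {I : Ideal D.A}
    (hI : I.IsHomogeneous D.gA) (hd : D.DimLE (I.map D.φ) 2) :
    D.symb (I.map D.φ) (A.e 3 0 - A.e 3 2) (A.e 2 0 + A.e 2 2 + A.e 1 0) (A.ε₃ + A.ε₄) = 1 :=
  symb_map_eq_one hD hK (by rw [smul_sub, A.two 3 0 2, sub_self]) _ _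
    (fun p hp => A.van_pt hD hK p hp) hI hd

end Cox
end Pool.Agent.SSF
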