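import Pool.Agent.SSF.XPrCommon
import Pool.Agent.SSF.Emb

/-!
Project SSF (MP_5928ba), module X8 (helper60): the multigraded ring over a field is a domain.
-/

set_option autoImplicit false

open scoped TensorProduct

namespace Pool.Agent.SSF

open MvPolynomial

/-- Normal form of all elements of `R`. -/
theorem normal_form_univ (k : Type) [CommRing k] (s : k) (x : R k s) :
    ∃ b : Finset V → MvPolynomial (Fin 4 × Fin 2) k,
      x = ∑ S : Finset V, ιB k s (b S) * ∏ v ∈ S, xi k s v := by
  classical
  obtain ⟨p, rfl⟩ := Ideal.Quotient.mk_surjective x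
  induction p using MvPolynomial.induction_on' with
  | monomial m a =>
    refine ⟨fun S => if S = oddS m then C a * ∏ v : V, ell k s v ^ (m v / 2) else 0, ?_⟩
    rw [Finset.sum_eq_single (oddS m)]
    · simp only [if_true]
      rw [mk_monomial, mon_normal, map_mul, ιB_C, mul_assoc]
      exact Algebra.smul_def (R := k) (A := R k s) a _
    · intro S _ hS
      simp only [if_neg hS]
      rw [map_zero, zero_mul]
    · intro h
      exact absurd (Finset.mem_univ _) h
  | add p p' hp hp' =>
    obtain ⟨b, hb⟩ := hp
    obtain ⟨b', hb'⟩ := hp'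
    refine ⟨fun S => b S + b' S, ?_⟩
    rw [map_add, hb, hb', ← Finset.sum_add_distrib]
    refine Finset.sum_congr rfl fun S _ => ?_
    rw [map_add, add_mul]

theorem RS_isDomain (K : Type) [Field K] (s : K) (h : Hyp K s) : IsDomain (R K s) := by
  classical
  have h2 : (2 : MvPolynomial (Fin 4 × Fin 2) K) ≠ 0 := by
    intro h3
    apply two_ne (s := s) h
    have h4 : (C (2 : K) : MvPolynomial (Fin 4 × Fin 2) K) = C 0 := by
      rw [map_ofNat, h3, map_zero]
    exact C_injective _ _ h4
  obtain ⟨M, iM, Φ, -, -, hΦ⟩ := exists_hom K s (MvPolynomial (Fin 4 × Fin 2) K) h2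
    (RingHom.id _) ∅ (fun v hv => absurd hv (Finset.notMem_empty v))
    (fun v _ => ell_ne_zero h v) Finset.univ (Finset.mem_univ _)
    (fun _ _ _ _ => Finset.mem_univ _) (fun _ _ v hv => absurd hv (Finset.notMem_empty v))
    (fun S _ hS => ell_not_isSquare h S hS)
  have hinj : Function.Injective Φ := by
    rw [injective_iff_map_eq_zero]
    intro x hx
    obtain ⟨b, hb⟩ := normal_form_univ K s x
    rw [hb] at hx ⊢
    refine Finset.sum_eq_zero fun S hS => ?_
    have h5 : b S = 0 := hΦ b hx S hS
    rw [h5, map_zero, zero_mul]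
  exact hinj.isDomain Φ

/-- The split form over a field: `A` is a domain. -/
theorem DS_A_isDomain (K : Type) [Field K] (s : K) (h : Hyp K s) : IsDomain (DS K s).A := by
  have := RS_isDomain K s h
  exact Function.Injective.isDomain (algebraMap (ver (gr K s) hh) (R K s)) Subtype.val_injective

/-- A square root of `3` gives a homomorphism from `F2`. -/
noncomputable def homFt {L : Type} [Field L] [Algebra F17 L] (s : L) (hs : s * s = 3) :
    F2 →ₐ[F17] L :=
  QuadraticAlgebra.lift ⟨s, by
    rw [hs, zero_smul, add_zero, Algebra.smul_def, mul_one]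
    exact (map_ofNat (algebraMap F17 L) 3).symm⟩

theorem homFt_sF {L : Type} [Field L] [Algebra F17 L] (s : L) (hs : s * s = 3) :
    homFt s hs sF = s := by
  simp [homFt, sF]

theorem DF_bc_A_isDomain_of
    (E : ∀ (K : Type) [Field K] [Algebra F17 K] [Algebra F2 K] [IsScalarTower F17 F2 K],
      (DF.bc K).A ≃ₐ[K] (DS K (algebraMap F2 K sF)).A)
    (K : Type) [Field K] [Algebra F17 K] : IsDomain (DF.bc K).A := by
  obtain ⟨s, hs⟩ : ∃ s : AlgebraicClosure K, s * s = 3 := by
    obtain ⟨s, hs⟩ := IsAlgClosed.exists_pow_nat_eq (3 : AlgebraicClosure K) (n := 2) (by norm_num)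
    exact ⟨s, by rw [← hs]; ring⟩
  let _ : Algebra F2 (AlgebraicClosure K) := (homFt s hs).toRingHom.toAlgebra
  have _ : IsScalarTower F17 F2 (AlgebraicClosure K) :=
    IsScalarTower.of_algebraMap_eq fun x => ((homFt s hs).commutes x).symm
  have hsF : algebraMap F2 (AlgebraicClosure K) sF = s := homFt_sF s hs
  have h17 : (17 : AlgebraicClosure K) = 0 := by
    have h : (17 : F17) = 0 := by decide
    rw [← map_ofNat (algebraMap F17 (AlgebraicClosure K)) 17, h, map_zero]
  have hH : Hyp (AlgebraicClosure K) (algebraMap F2 (AlgebraicClosure K) sF) :=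
    ⟨h17, by rw [hsF, ← hs]; ring⟩
  have h1 := DS_A_isDomain _ _ hH
  have h2 : IsDomain (DF.bc (AlgebraicClosure K)).A :=
    Function.Injective.isDomain (E (AlgebraicClosure K)).toRingEquiv.toRingHom
      (E (AlgebraicClosure K)).injective
  let j : K →ₐ[F17] AlgebraicClosure K := IsScalarTower.toAlgHom F17 K (AlgebraicClosure K)
  have hj : Function.Injective j := (algebraMap K (AlgebraicClosure K)).injective
  refine Function.Injective.isDomain (DF.mapA j) ?_
  exact Module.Flat.rTensor_preserves_injective_linearMap (M := DF.A) j.toLinearMap hj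

end Pool.Agent.SSF
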