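import Pool.Agent.SSF.CoxOf

/-! # SSF, module X5: `Good` from finiteness, generation in degree one and base point freeness -/

set_option autoImplicit false

namespace Pool.Agent.SSF

open DirectSum

namespace Cox

section GoodOf

variable {k : Type} [CommRing k] (D : Cox k)

/-- The classes for which a chart element `u` has a trivialisation. -/
def chartGrp (u : D.A) : AddSubgroup D.Γ where
  carrier := {γ | ∃ (m c e : ℕ), ∃ x ∈ D.gR (γ + m • D.h), ∃ y ∈ D.gR (c • D.h - γ),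
      x * y = D.φ (u ^ e)}
  zero_mem' := ⟨0, 0, 0, 1, by simpa using SetLike.one_mem_graded D.gR, 1,
    by simpa using SetLike.one_mem_graded D.gR, by simp⟩
  add_mem' := by
    rintro γ δ ⟨m, c, e, x, hx, y, hy, h⟩ ⟨m', c', e', x', hx', y', hy', h'⟩
    refine ⟨m + m', c + c', e + e', x * x', ?_, y * y', ?_, ?_⟩
    · have := SetLike.mul_mem_graded hx hx'
      have e1 : γ + m • D.h + (δ + m' • D.h) = γ + δ + (m + m') • D.h := by
        rw [add_nsmul]; abel
      rwa [e1] at this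
    · have := SetLike.mul_mem_graded hy hy'
      have e1 : c • D.h - γ + (c' • D.h - δ) = (c + c') • D.h - (γ + δ) := by
        rw [add_nsmul]; abel
      rwa [e1] at this
    · rw [mul_mul_mul_comm, h, h', ← map_mul, pow_add]
  neg_mem' := by
    rintro γ ⟨m, c, e, x, hx, y, hy, h⟩
    refine ⟨c, m, e, y, ?_, x, ?_, by rw [mul_comm, h]⟩
    · have e1 : -γ + c • D.h = c • D.h - γ := by abel
      rwa [e1]
    · have e1 : m • D.h - -γ = γ + m • D.h := by abel
      rwa [e1]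

lemma chartGrp_mul {u z : D.A} {n : ℕ} (hz : z ∈ D.gA n) {γ : D.Γ} (h : γ ∈ D.chartGrp u) :
    γ ∈ D.chartGrp (u * z) := by
  obtain ⟨m, c, e, x, hx, y, hy, h⟩ := h
  refine ⟨m + e * n, c, e, x * D.φ (z ^ e), ?_, y, hy, ?_⟩
  · have h1 : D.φ (z ^ e) ∈ D.gR ((e * n) • D.h) := by
      apply D.φ_mem
      have := SetLike.pow_mem_graded e hz
      rwa [smul_eq_mul] at this
    have := SetLike.mul_mem_graded hx h1
    have e1 : γ + m • D.h + (e * n) • D.h = γ + (m + e * n) • D.h := by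
      rw [add_nsmul, add_assoc]
    rwa [e1] at this
  · rw [mul_right_comm, h, ← map_mul, mul_pow]

/-- Products of graded pieces. -/
lemma gen_add (gen : ∀ n, ∀ x ∈ D.gA (n + 1),
      x ∈ Submodule.span k {z | ∃ a ∈ D.gA 1, ∃ b ∈ D.gA n, z = a * b}) (m n : ℕ) :
    ∀ x ∈ D.gA (m + n), x ∈ Submodule.span k {z | ∃ a ∈ D.gA m, ∃ b ∈ D.gA n, z = a * b} := by
  induction m with
  | zero =>
    intro x hx
    rw [zero_add] at hx
    exact Submodule.subset_span ⟨1, SetLike.one_mem_graded D.gA, x, hx, by simp⟩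
  | succ m ih =>
    intro x hx
    have e1 : m + 1 + n = (m + n) + 1 := by omega
    rw [e1] at hx
    have h1 := gen _ x hx
    refine Submodule.span_le.2 ?_ h1
    rintro z ⟨a, ha, b, hb, rfl⟩
    have h2 := ih b hb
    clear hx h1 hb
    induction h2 using Submodule.span_induction with
    | mem b hb =>
      obtain ⟨c, hc, d, hd, rfl⟩ := hb
      refine Submodule.subset_span ⟨a * c, ?_, d, hd, by ring⟩
      rw [add_comm m 1]
      exact SetLike.mul_mem_graded ha hc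
    | zero => simp
    | add b b' _ _ h h' => rw [mul_add]; exact Submodule.add_mem _ h h'
    | smul r b _ h => rw [mul_smul_comm]; exact Submodule.smul_mem _ _ h

/-- Products of sections of opposite classes, as elements of `A`. -/
def prods (γ : D.Γ) (m : ℕ) : Set D.A :=
  {z | z ∈ D.gA (m + m) ∧ ∃ x ∈ D.gR (γ + m • D.h), ∃ y ∈ D.gR (m • D.h - γ), D.φ z = x * y}

lemma mem_chartGrp_of_mem_prods {γ : D.Γ} {m : ℕ} {z : D.A} (hz : z ∈ D.prods γ m) :
    γ ∈ D.chartGrp z := by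
  obtain ⟨-, x, hx, y, hy, e⟩ := hz
  exact ⟨m, m, 1, x, hx, y, hy, by rw [pow_one, e]⟩

lemma mem_span_prods (hneg0 : ∀ n : ℕ, 0 < n → D.gR (-(n • D.h)) = ⊥) (γ : D.Γ) (m : ℕ)
    {r : D.R} (hr : r ∈ Ideal.span {z | ∃ x ∈ D.gR (γ + m • D.h), ∃ y ∈ D.gR (m • D.h - γ),
      z = x * y}) (n : ℕ) :
    ∃ a ∈ Ideal.span (D.prods γ m), D.φ a = (decompose D.gR r (n • D.h) : D.R) := by
  refine Submodule.closure_induction (p := fun r _ => ∃ a ∈ Ideal.span (D.prods γ m),
    D.φ a = (decompose D.gR r (n • D.h) : D.R)) ?_ ?_ ?_ hr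
  · exact ⟨0, Ideal.zero_mem _, by simp⟩
  · rintro r s _ _ ⟨a, ha, h⟩ ⟨b, hb, h'⟩
    refine ⟨a + b, Ideal.add_mem _ ha hb, ?_⟩
    rw [map_add, h, h', decompose_add, DirectSum.add_apply, Submodule.coe_add]
  · rintro c s ⟨x, hx, y, hy, rfl⟩
    have hxy : x * y ∈ D.gR ((m + m) • D.h) := by
      have := SetLike.mul_mem_graded hx hy
      have e1 : γ + m • D.h + (m • D.h - γ) = (m + m) • D.h := by rw [add_nsmul]; abel
      rwa [e1] at this
    obtain ⟨z, hz, ez⟩ := D.φ_surj _ _ hxy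
    have hzp : z ∈ D.prods γ m := ⟨hz, x, hx, y, hy, ez⟩
    rcases le_or_gt (m + m) n with hn | hn
    · have e1 : n • D.h = (n - (m + m)) • D.h + (m + m) • D.h := by
        rw [← add_nsmul, Nat.sub_add_cancel hn]
      have e2 : (decompose D.gR (c • (x * y)) (n • D.h) : D.R) =
          (decompose D.gR c ((n - (m + m)) • D.h) : D.R) * (x * y) := by
        rw [smul_eq_mul, e1]
        exact coe_decompose_mul_add_of_right_mem D.gR hxy
      obtain ⟨b, -, eb⟩ := D.φ_surj _ _ (SetLike.coe_mem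
        (decompose D.gR c ((n - (m + m)) • D.h)))
      refine ⟨b * z, Ideal.mul_mem_left _ _ (Ideal.subset_span hzp), ?_⟩
      rw [e2, map_mul, eb, ez]
    · have e1 : n • D.h = -((m + m - n) • D.h) + (m + m) • D.h := by
        rw [sub_nsmul _ hn.le]; abel
      have e2 : (decompose D.gR (c • (x * y)) (n • D.h) : D.R) =
          (decompose D.gR c (-((m + m - n) • D.h)) : D.R) * (x * y) := by
        rw [smul_eq_mul, e1]
        exact coe_decompose_mul_add_of_right_mem D.gR hxy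
      have e3 : (decompose D.gR c (-((m + m - n) • D.h)) : D.R) = 0 := by
        have h1 := SetLike.coe_mem (decompose D.gR c (-((m + m - n) • D.h)))
        have h2 : ∀ w ∈ D.gR (-((m + m - n) • D.h)), w = 0 := by
          intro w hw
          rw [hneg0 _ (by omega), Submodule.mem_bot] at hw
          exact hw
        exact h2 _ h1
      exact ⟨0, Ideal.zero_mem _, by rw [e2, e3, zero_mul, map_zero]⟩

lemma gA_fg (fin : ∀ γ, Module.Finite k (D.gR γ)) (n : ℕ) : (D.gA n).FG := by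
  have h1 : (D.gA n).map D.φ.toLinearMap = D.gR (n • D.h) := by
    apply le_antisymm
    · rintro _ ⟨a, ha, rfl⟩
      exact D.φ_mem n a ha
    · intro x hx
      obtain ⟨a, ha, e⟩ := D.φ_surj n x hx
      exact ⟨a, ha, e⟩
  have hinj : Function.Injective D.φ.toLinearMap := fun a b h => by
    have h' : D.φ a = D.φ b := h
    rw [← D.ρφ a, ← D.ρφ b, h']
  refine Submodule.fg_of_fg_map_injective D.φ.toLinearMap hinj ?_
  rw [h1]
  exact Module.Finite.iff_fg.1 (fin _)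

/-- Finitely many elements of a set generate all high degree elements. -/
lemma exists_finset_span (fin : ∀ γ, Module.Finite k (D.gR γ))
    (gen : ∀ n, ∀ x ∈ D.gA (n + 1),
      x ∈ Submodule.span k {z | ∃ a ∈ D.gA 1, ∃ b ∈ D.gA n, z = a * b})
    (S : Set D.A) (N : ℕ) (hS : ∀ a ∈ D.gA N, a ∈ Ideal.span S) :
    ∃ Z : Finset D.A, (Z : Set D.A) ⊆ S ∧
      ∀ n : ℕ, N ≤ n → ∀ a ∈ D.gA n, a ∈ Ideal.span (Z : Set D.A) := by
  classical
  obtain ⟨G, hG⟩ := D.gA_fg fin N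
  have h1 : ∀ g ∈ G, ∃ T : Finset D.A, (T : Set D.A) ⊆ S ∧ g ∈ Ideal.span (T : Set D.A) := by
    intro g hg
    have hg' : g ∈ D.gA N := by
      rw [← hG]
      exact Submodule.subset_span hg
    exact Submodule.mem_span_finite_of_mem_span (hS g hg')
  choose! T hT hT' using h1
  refine ⟨G.biUnion T, ?_, ?_⟩
  · intro z hz
    rw [Finset.coe_biUnion, Set.mem_iUnion₂] at hz
    obtain ⟨g, hg, hz⟩ := hz
    exact hT g hg hz
  · have h2 : ∀ a ∈ D.gA N, a ∈ Ideal.span ((G.biUnion T : Finset D.A) : Set D.A) := by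
      intro a ha
      rw [← hG] at ha
      have h3 : Submodule.span k (G : Set D.A) ≤
          (Ideal.span ((G.biUnion T : Finset D.A) : Set D.A)).restrictScalars k := by
        rw [Submodule.span_le]
        intro g hg
        refine Ideal.span_mono ?_ (hT' g hg)
        intro z hz
        rw [Finset.coe_biUnion, Set.mem_iUnion₂]
        exact ⟨g, hg, hz⟩
      exact h3 ha
    intro n hn a ha
    obtain ⟨l, rfl⟩ := Nat.exists_eq_add_of_le hn
    have h3 := D.gen_add gen N l a ha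
    have h4 : Submodule.span k {z | ∃ a ∈ D.gA N, ∃ b ∈ D.gA l, z = a * b} ≤
        (Ideal.span ((G.biUnion T : Finset D.A) : Set D.A)).restrictScalars k := by
      rw [Submodule.span_le]
      rintro _ ⟨b, hb, c, -, rfl⟩
      exact Ideal.mul_mem_right _ _ (h2 b hb)
    exact h4 h3

/-- Charts for finitely many classes. -/
lemma exists_charts (hneg0 : ∀ n : ℕ, 0 < n → D.gR (-(n • D.h)) = ⊥)
    (fin : ∀ γ, Module.Finite k (D.gR γ))
    (gen : ∀ n, ∀ x ∈ D.gA (n + 1),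
      x ∈ Submodule.span k {z | ∃ a ∈ D.gA 1, ∃ b ∈ D.gA n, z = a * b})
    (bpf : ∀ γ : D.Γ, ∃ m N : ℕ, ∀ n : ℕ, N ≤ n → ∀ a ∈ D.gR (n • D.h),
      a ∈ Ideal.span {z | ∃ x ∈ D.gR (γ + m • D.h), ∃ y ∈ D.gR (m • D.h - γ), z = x * y})
    (T : Finset D.Γ) :
    ∃ U : Finset D.A, (∀ u ∈ U, (∃ n : ℕ, 0 < n ∧ u ∈ D.gA n) ∧ ∀ γ ∈ T, γ ∈ D.chartGrp u) ∧
      ∃ N : ℕ, ∀ n : ℕ, N ≤ n → ∀ a ∈ D.gA n, a ∈ Ideal.span (U : Set D.A) := by
  classical
  induction T using Finset.induction_on with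
  | empty =>
    obtain ⟨Z, hZ, h⟩ := D.exists_finset_span fin gen (D.gA 1 : Set D.A) 1
      (fun a ha => Ideal.subset_span ha)
    exact ⟨Z, fun u hu => ⟨⟨1, one_pos, hZ hu⟩, by simp⟩, 1, h⟩
  | insert γ T _ ih =>
    obtain ⟨U, hU, N, hN⟩ := ih
    obtain ⟨m, M, hM⟩ := bpf γ
    obtain ⟨Z, hZ, h⟩ := D.exists_finset_span fin gen (D.prods γ m) M (by
      intro a ha
      obtain ⟨b, hb, e⟩ := D.mem_span_prods hneg0 γ m (hM M le_rfl _ (D.φ_mem M a ha)) M
      rw [decompose_of_mem_same _ (D.φ_mem M a ha)] at e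
      have hba : b = a := by rw [← D.ρφ b, ← D.ρφ a, e]
      rwa [← hba])
    refine ⟨Finset.image₂ (· * ·) U Z, ?_, N + M, ?_⟩
    · intro w hw
      obtain ⟨u, hu, z, hz, rfl⟩ := Finset.mem_image₂.1 hw
      obtain ⟨⟨n, hn, hun⟩, huT⟩ := hU u hu
      have hzp := hZ hz
      refine ⟨⟨n + (m + m), by omega, SetLike.mul_mem_graded hun hzp.1⟩, ?_⟩
      intro δ hδ
      rw [Finset.mem_insert] at hδ
      rcases hδ with rfl | hδ
      · rw [mul_comm]
        exact D.chartGrp_mul hun (D.mem_chartGrp_of_mem_prods hzp)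
      · exact D.chartGrp_mul hzp.1 (huT δ hδ)
    · intro n hn a ha
      obtain ⟨l, rfl⟩ := Nat.exists_eq_add_of_le hn
      rw [add_assoc] at ha
      have h3 := D.gen_add gen N (M + l) a ha
      have h4 : Submodule.span k {z | ∃ a ∈ D.gA N, ∃ b ∈ D.gA (M + l), z = a * b} ≤
          (Ideal.span ((Finset.image₂ (· * ·) U Z : Finset D.A) : Set D.A)).restrictScalars k := by
        rw [Submodule.span_le]
        rintro _ ⟨b, hb, c, hc, rfl⟩
        have h5 : b * c ∈ Ideal.span (U : Set D.A) * Ideal.span (Z : Set D.A) :=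
          Ideal.mul_mem_mul (hN N le_rfl b hb) (h _ (by omega) c hc)
        rw [Ideal.span_mul_span'] at h5
        rw [Finset.coe_image₂]
        exact h5
      exact h4 h3

/-- The criterion for `Good`. -/
theorem good_of (ftR : Algebra.FiniteType k D.R) (ftA : Algebra.FiniteType k D.A)
    (fin : ∀ γ, Module.Finite k (D.gR γ))
    (neg : ∀ γ, ∃ N : ℕ, ∀ n : ℕ, N ≤ n → D.gR (γ - n • D.h) = ⊥)
    (neg0 : ∀ n : ℕ, 0 < n → D.gR (-(n • D.h)) = ⊥) (fg : AddGroup.FG D.Γ)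
    (gen : ∀ n, ∀ x ∈ D.gA (n + 1),
      x ∈ Submodule.span k {z | ∃ a ∈ D.gA 1, ∃ b ∈ D.gA n, z = a * b})
    (bpf : ∀ γ : D.Γ, ∃ m N : ℕ, ∀ n : ℕ, N ≤ n → ∀ a ∈ D.gR (n • D.h),
      a ∈ Ideal.span {z | ∃ x ∈ D.gR (γ + m • D.h), ∃ y ∈ D.gR (m • D.h - γ), z = x * y}) :
    D.Good := by
  obtain ⟨T, hT⟩ := fg.out
  obtain ⟨U, hU, N, hN⟩ := D.exists_charts neg0 fin gen bpf T
  refine ⟨ftR, ftA, fin, neg, neg0, ⟨1, fun n hn a ha => ?_⟩, U, fun u hu => (hU u hu).1,
    ⟨N, hN⟩, fun u hu γ => ?_⟩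
  · obtain ⟨l, rfl⟩ := Nat.exists_eq_add_of_le hn
    rw [add_comm] at ha
    have h4 : Submodule.span k {z | ∃ a ∈ D.gA 1, ∃ b ∈ D.gA l, z = a * b} ≤
        (Ideal.span (D.gA 1 : Set D.A)).restrictScalars k := by
      rw [Submodule.span_le]
      rintro _ ⟨b, hb, c, -, rfl⟩
      exact Ideal.mul_mem_right _ _ (Ideal.subset_span hb)
    exact h4 (gen l a ha)
  · have h1 : AddSubgroup.closure (T : Set D.Γ) ≤ D.chartGrp u := by
      rw [AddSubgroup.closure_le]
      intro γ hγ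
      exact (hU u hu).2 γ hγ
    rw [hT] at h1
    exact h1 (AddSubgroup.mem_top γ)

end GoodOf

end Cox

section mk

variable {k R Γ : Type} [CommRing k] [CommRing R] [Algebra k R] [AddCommGroup Γ] [DecidableEq Γ]
  (gR : Γ → Submodule k R) [GradedAlgebra gR] (h : Γ)

lemma ver_gen (gen : ∀ n : ℕ, ∀ x ∈ gR ((n + 1) • h),
      x ∈ Submodule.span k {z | ∃ a ∈ gR h, ∃ b ∈ gR (n • h), z = a * b}) (n : ℕ)
    (x : ver gR h) (hx : x ∈ verGr gR h (n + 1)) :
    x ∈ Submodule.span k {z | ∃ a ∈ verGr gR h 1, ∃ b ∈ verGr gR h n, z = a * b} := by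
  have h1 := gen n (x : R) hx
  have h2 : {z | ∃ a ∈ gR h, ∃ b ∈ gR (n • h), z = a * b} ⊆
      (ver gR h).val.toLinearMap '' {z | ∃ a ∈ verGr gR h 1, ∃ b ∈ verGr gR h n, z = a * b} := by
    rintro _ ⟨a, ha, b, hb, rfl⟩
    have ha1 : a ∈ gR (1 • h) := by rwa [one_nsmul]
    exact ⟨⟨a, mem_ver_of_mem gR h ha1⟩ * ⟨b, mem_ver_of_mem gR h hb⟩,
      ⟨⟨a, mem_ver_of_mem gR h ha1⟩, ha1, ⟨b, mem_ver_of_mem gR h hb⟩, hb, rfl⟩, rfl⟩
  have h3 := Submodule.span_mono (R := k) h2 h1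
  rw [← Submodule.map_span] at h3
  obtain ⟨y, hy, e⟩ := h3
  have e1 : y = x := Subtype.ext e
  rwa [← e1]

/-- Module X5. -/
theorem mkCox_good (hinj : ∀ n m : ℤ, n • h = m • h → n = m)
    (ftR : Algebra.FiniteType k R) (ftA : Algebra.FiniteType k (ver gR h))
    (fin : ∀ γ, Module.Finite k (gR γ))
    (neg : ∀ γ, ∃ N : ℕ, ∀ n : ℕ, N ≤ n → gR (γ - n • h) = ⊥)
    (neg0 : ∀ n : ℕ, 0 < n → gR (-(n • h)) = ⊥) (fg : AddGroup.FG Γ)
    (gen : ∀ n : ℕ, ∀ x ∈ gR ((n + 1) • h),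
      x ∈ Submodule.span k {z | ∃ a ∈ gR h, ∃ b ∈ gR (n • h), z = a * b})
    (bpf : ∀ γ : Γ, ∃ m N : ℕ, ∀ n : ℕ, N ≤ n → ∀ a ∈ gR (n • h),
      a ∈ Ideal.span {z | ∃ x ∈ gR (γ + m • h), ∃ y ∈ gR (m • h - γ), z = x * y}) :
    (mkCox gR hinj).Good :=
  (mkCox gR hinj).good_of ftR ftA fin neg neg0 fg (fun n x hx => ver_gen gR h gen n x hx) bpf

/-- The Veronese subalgebra is of finite type if it is generated in degree one. -/
theorem ver_finiteType (hinj : ∀ n m : ℤ, n • h = m • h → n = m)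
    (fin : ∀ γ, Module.Finite k (gR γ))
    (h0 : gR 0 = LinearMap.range (Algebra.linearMap k R))
    (gen : ∀ n : ℕ, ∀ x ∈ gR ((n + 1) • h),
      x ∈ Submodule.span k {z | ∃ a ∈ gR h, ∃ b ∈ gR (n • h), z = a * b}) :
    Algebra.FiniteType k (ver gR h) := by
  classical
  have hfg : (verGr gR h 1).FG := (mkCox gR hinj).gA_fg fin 1
  obtain ⟨G, hG⟩ := hfg
  let _ : GradedAlgebra (verGr gR h) := verGraded gR hinj
  have key : ∀ n : ℕ, ∀ x ∈ verGr gR h n, x ∈ Algebra.adjoin k (G : Set (ver gR h)) := by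
    intro n
    induction n with
    | zero =>
      intro x hx
      have hx' : (x : R) ∈ gR 0 := by
        have h1 : (x : R) ∈ gR (0 • h) := hx
        rwa [zero_nsmul] at h1
      rw [h0] at hx'
      obtain ⟨c, hc⟩ := hx'
      have e1 : algebraMap k (ver gR h) c = x := Subtype.ext hc
      rw [← e1]
      exact Subalgebra.algebraMap_mem _ c
    | succ n ih =>
      intro x hx
      have h1 := ver_gen gR h gen n x hx
      have h2 : Submodule.span k {z | ∃ a ∈ verGr gR h 1, ∃ b ∈ verGr gR h n, z = a * b} ≤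
          Subalgebra.toSubmodule (Algebra.adjoin k (G : Set (ver gR h))) := by
        rw [Submodule.span_le]
        rintro _ ⟨a, ha, b, hb, rfl⟩
        refine Subalgebra.mul_mem _ ?_ (ih b hb)
        have ha' : a ∈ Submodule.span k (G : Set (ver gR h)) := by
          rw [hG]
          exact ha
        exact Algebra.span_le_adjoin k _ ha'
      exact h2 h1
  refine ⟨G, ?_⟩
  rw [eq_top_iff]
  rintro x -
  rw [← DirectSum.sum_support_decompose (verGr gR h) x]
  exact Subalgebra.sum_mem _ fun n _ => key n _ (SetLike.coe_mem _)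

end mk

end Pool.Agent.SSF
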