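import Pool.Agent.SSF.XCox

/-!
Project SSF (MP_5928ba): the hypotheses on the base ring.
-/

set_option autoImplicit false

namespace Pool.Agent.SSF

/-- The hypotheses on `(k, s)`. -/
def Hyp (k : Type*) [CommRing k] (s : k) : Prop := (17 : k) = 0 ∧ s ^ 2 = 3

end Pool.Agent.SSF
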