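import Mathlib

/-!
Project SSF (MP_5928ba), X12e: lengths in a local ring.
-/

set_option autoImplicit false

namespace Pool.Agent.SSF

/-- length of `O / I` -/
noncomputable abbrev ln {O : Type} [CommRing O] (I : Ideal O) : ℕ∞ := Module.length O (O ⧸ I)

namespace XLen

theorem ln_top {O : Type} [CommRing O] : ln (⊤ : Ideal O) = 0 := by
  have : Subsingleton (O ⧸ (⊤ : Ideal O)) := Ideal.Quotient.subsingleton_iff.2 rfl
  exact Module.length_eq_zero

theorem ln_of_eq_top {O : Type} [CommRing O] {I : Ideal O} (h : I = ⊤) : ln I = 0 := by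
  subst h; exact ln_top

end XLen

/-- `O / I` a domain of dimension at most one (or zero), `f ∉ I`: finite length. -/
theorem ln_ne_top {O : Type} [CommRing O] [IsNoetherianRing O] [IsLocalRing O] (I : Ideal O)
    (hI : I = ⊤ ∨ I.IsPrime) (hd : Ring.KrullDimLE 1 (O ⧸ I)) (f : O) (hf : I = ⊤ ∨ f ∉ I) :
    ln (I ⊔ Ideal.span {f}) ≠ ⊤ := by
  by_cases hT : I = ⊤
  · rw [XLen.ln_of_eq_top (by rw [hT]; simp)]
    exact ENat.zero_ne_top
  have hp : I.IsPrime := hI.resolve_left hT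
  have hfI : f ∉ I := hf.resolve_left hT
  set J : Ideal O := I ⊔ Ideal.span {f} with hJ
  have : IsDomain (O ⧸ I) := Ideal.Quotient.isDomain I
  rw [Ring.krullDimLE_one_iff_of_noZeroDivisors] at hd
  have h0 : Ring.KrullDimLE 0 (O ⧸ J) := by
    rw [Ring.krullDimLE_zero_iff]
    intro Q hQ
    have hQ1 : (Q.comap (Ideal.Quotient.mk J)).IsPrime := Ideal.comap_isPrime _ _
    have hIJ : I ≤ Q.comap (Ideal.Quotient.mk J) := by
      intro x hx
      rw [Ideal.mem_comap, Ideal.Quotient.eq_zero_iff_mem.2 (le_sup_left (a := I) hx)]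
      exact Q.zero_mem
    have hfJ : f ∈ Q.comap (Ideal.Quotient.mk J) := by
      rw [Ideal.mem_comap, Ideal.Quotient.eq_zero_iff_mem.2
        (le_sup_right (a := I) (Ideal.mem_span_singleton_self f))]
      exact Q.zero_mem
    set Q1 := Q.comap (Ideal.Quotient.mk J) with hQ1def
    have hker : RingHom.ker (Ideal.Quotient.mk I) ≤ Q1 := by rwa [Ideal.mk_ker]
    have hQ2 : (Q1.map (Ideal.Quotient.mk I)).IsPrime :=
      Ideal.map_isPrime_of_surjective Ideal.Quotient.mk_surjective hker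
    have hne : Q1.map (Ideal.Quotient.mk I) ≠ ⊥ := by
      intro hb
      have : Ideal.Quotient.mk I f ∈ Q1.map (Ideal.Quotient.mk I) := Ideal.mem_map_of_mem _ hfJ
      rw [hb, Ideal.mem_bot] at this
      exact hfI (Ideal.Quotient.eq_zero_iff_mem.1 this)
    have hmax := hd _ hne hQ2
    have hQ1max : Q1.IsMaximal := by
      have := Ideal.comap_isMaximal_of_surjective (Ideal.Quotient.mk I)
        Ideal.Quotient.mk_surjective (K := Q1.map (Ideal.Quotient.mk I))
      rwa [Ideal.comap_map_of_surjective' _ Ideal.Quotient.mk_surjective,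
        sup_eq_left.2 hker] at this
    have hQ3 : Q = Q1.map (Ideal.Quotient.mk J) :=
      (Ideal.map_comap_of_surjective _ Ideal.Quotient.mk_surjective Q).symm
    rw [hQ3]
    refine Ideal.IsMaximal.map_of_surjective_of_ker_le Ideal.Quotient.mk_surjective ?_
    rw [Ideal.mk_ker]
    intro x hx
    rw [hQ1def, Ideal.mem_comap, Ideal.Quotient.eq_zero_iff_mem.2 hx]
    exact Q.zero_mem
  have : IsArtinianRing (O ⧸ J) := isArtinianRing_iff_krullDimLE_zero.2 h0
  have : IsArtinian (O ⧸ J) (O ⧸ J) := inferInstance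
  have : IsArtinian O (O ⧸ J) :=
    isArtinian_of_surjective_algebraMap (R := O ⧸ J) (S := O) Ideal.Quotient.mk_surjective
  exact Module.length_ne_top

theorem ln_mul {O : Type} [CommRing O] (I : Ideal O)
    (hI : I = ⊤ ∨ I.IsPrime) (f g : O) (hf : I = ⊤ ∨ f ∉ I) (hg : I = ⊤ ∨ g ∉ I) :
    ln (I ⊔ Ideal.span {f * g}) = ln (I ⊔ Ideal.span {f}) + ln (I ⊔ Ideal.span {g}) := by
  by_cases hT : I = ⊤
  · subst hT
    rw [XLen.ln_of_eq_top (by simp), XLen.ln_of_eq_top (by simp), XLen.ln_of_eq_top (by simp)]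
    rfl
  have hp : I.IsPrime := hI.resolve_left hT
  have hfI : f ∉ I := hf.resolve_left hT
  -- multiplication by `f`
  let μ : (O ⧸ (I ⊔ Ideal.span {g})) →ₗ[O] (O ⧸ (I ⊔ Ideal.span {f * g})) :=
    Submodule.liftQ _ ((Submodule.mkQ (I ⊔ Ideal.span {f * g})).comp (LinearMap.mulLeft O f)) (by
      intro x hx
      rw [LinearMap.mem_ker, LinearMap.comp_apply, Submodule.mkQ_apply,
        Submodule.Quotient.mk_eq_zero, LinearMap.mulLeft_apply]
      obtain ⟨i, hi, y, hy, rfl⟩ := Submodule.mem_sup.1 hx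
      obtain ⟨z, rfl⟩ := Ideal.mem_span_singleton'.1 hy
      rw [mul_add]
      refine add_mem (Submodule.mem_sup_left (I.mul_mem_left _ hi)) (Submodule.mem_sup_right ?_)
      exact Ideal.mem_span_singleton'.2 ⟨z, by ring⟩)
  let π : (O ⧸ (I ⊔ Ideal.span {f * g})) →ₗ[O] (O ⧸ (I ⊔ Ideal.span {f})) :=
    Submodule.mapQ _ _ LinearMap.id (by
      intro x hx
      rw [Submodule.comap_id]
      refine (sup_le_sup_left ?_ I) hx
      rw [Ideal.span_singleton_le_span_singleton]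
      exact Dvd.intro _ rfl)
  have hμ : Function.Injective μ := by
    rw [← LinearMap.ker_eq_bot]
    apply Submodule.ker_liftQ_eq_bot
    intro x hx
    rw [LinearMap.mem_ker, LinearMap.comp_apply, Submodule.mkQ_apply,
      Submodule.Quotient.mk_eq_zero, LinearMap.mulLeft_apply] at hx
    obtain ⟨i, hi, y, hy, hxy⟩ := Submodule.mem_sup.1 hx
    obtain ⟨z, rfl⟩ := Ideal.mem_span_singleton'.1 hy
    have h1 : f * (x - z * g) ∈ I := by
      have : f * (x - z * g) = i := by rw [mul_sub, ← hxy]; ring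
      rw [this]; exact hi
    have h2 : x - z * g ∈ I := (hp.mem_or_mem h1).resolve_left hfI
    have h3 : x = (x - z * g) + z * g := by ring
    rw [h3]
    exact add_mem (Submodule.mem_sup_left h2)
      (Submodule.mem_sup_right (Ideal.mem_span_singleton'.2 ⟨z, rfl⟩))
  have hπ : Function.Surjective π := by
    intro y
    obtain ⟨x, rfl⟩ := Submodule.Quotient.mk_surjective _ y
    exact ⟨Submodule.Quotient.mk x, by simp [π]⟩
  have hex : Function.Exact μ π := by
    rw [LinearMap.exact_iff]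
    apply le_antisymm
    · intro y hy
      obtain ⟨x, rfl⟩ := Submodule.Quotient.mk_surjective _ y
      rw [LinearMap.mem_ker] at hy
      have hy' : (Submodule.Quotient.mk x : O ⧸ (I ⊔ Ideal.span {f})) = 0 := by
        simpa [π] using hy
      rw [Submodule.Quotient.mk_eq_zero] at hy'
      obtain ⟨i, hi, w, hw, hxw⟩ := Submodule.mem_sup.1 hy'
      obtain ⟨z, rfl⟩ := Ideal.mem_span_singleton'.1 hw
      refine ⟨Submodule.Quotient.mk z, ?_⟩
      have : μ (Submodule.Quotient.mk z) = Submodule.Quotient.mk (f * z) := rfl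
      rw [this, Submodule.Quotient.eq]
      have h4 : f * z - x = -i := by rw [← hxw]; ring
      rw [h4]
      exact neg_mem (Submodule.mem_sup_left hi)
    · rintro _ ⟨y, rfl⟩
      obtain ⟨x, rfl⟩ := Submodule.Quotient.mk_surjective _ y
      rw [LinearMap.mem_ker]
      have : μ (Submodule.Quotient.mk x) = Submodule.Quotient.mk (f * x) := rfl
      rw [this]
      have h5 : π (Submodule.Quotient.mk (f * x)) = Submodule.Quotient.mk (f * x) := by
        simp [π]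
      rw [h5, Submodule.Quotient.mk_eq_zero]
      exact Submodule.mem_sup_right (Ideal.mem_span_singleton'.2 ⟨x, by ring⟩)
  have := Module.length_eq_add_of_exact μ π hμ hπ hex
  rw [ln, ln, ln, this, add_comm]

namespace XLen

/-- additivity of the finite lengths -/
theorem toNat_mul {O : Type} [CommRing O] [IsNoetherianRing O] [IsLocalRing O] (I : Ideal O)
    (hI : I = ⊤ ∨ I.IsPrime) (hd : Ring.KrullDimLE 1 (O ⧸ I)) (f g : O)
    (hf : I = ⊤ ∨ f ∉ I) (hg : I = ⊤ ∨ g ∉ I) :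
    (ln (I ⊔ Ideal.span {f * g})).toNat =
      (ln (I ⊔ Ideal.span {f})).toNat + (ln (I ⊔ Ideal.span {g})).toNat := by
  rw [ln_mul I hI f g hf hg,
    ENat.toNat_add (ln_ne_top I hI hd f hf) (ln_ne_top I hI hd g hg)]

theorem notMem_mul {O : Type} [CommRing O] (I : Ideal O)
    (hI : I = ⊤ ∨ I.IsPrime) (f g : O) (hf : I = ⊤ ∨ f ∉ I) (hg : I = ⊤ ∨ g ∉ I) :
    I = ⊤ ∨ f * g ∉ I := by
  by_cases hT : I = ⊤
  · exact Or.inl hT
  · refine Or.inr fun h => ?_
    exact ((hI.resolve_left hT).mem_or_mem h).elim (hf.resolve_left hT) (hg.resolve_left hT)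

end XLen

/-- The identity behind the rational triviality of the cycle. -/
theorem ln_identity {O : Type} [CommRing O] [IsNoetherianRing O] [IsLocalRing O]
    (v₁ v₂ u w m m₁ m₂ : O)
    (h1 : Ideal.span {v₁} = ⊤ ∨ (Ideal.span {v₁}).IsPrime)
    (h2 : Ideal.span {v₂} = ⊤ ∨ (Ideal.span {v₂}).IsPrime)
    (h3 : Ideal.span {u} = ⊤ ∨ (Ideal.span {u}).IsPrime)
    (d1 : Ring.KrullDimLE 1 (O ⧸ Ideal.span {v₁})) (d2 : Ring.KrullDimLE 1 (O ⧸ Ideal.span {v₂}))
    (d3 : Ring.KrullDimLE 1 (O ⧸ Ideal.span {u}))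
    (w1 : Ideal.span {v₁} = ⊤ ∨ w ∉ Ideal.span {v₁}) (w2 : Ideal.span {v₂} = ⊤ ∨ w ∉ Ideal.span {v₂})
    (u1 : Ideal.span {v₁} = ⊤ ∨ u ∉ Ideal.span {v₁}) (u2 : Ideal.span {v₂} = ⊤ ∨ u ∉ Ideal.span {v₂})
    (v1 : Ideal.span {u} = ⊤ ∨ v₁ ∉ Ideal.span {u}) (v2 : Ideal.span {u} = ⊤ ∨ v₂ ∉ Ideal.span {u})
    (n1 : Ideal.span {v₁} = ⊤ ∨ m₁ ∉ Ideal.span {v₁}) (n2 : Ideal.span {v₂} = ⊤ ∨ m₂ ∉ Ideal.span {v₂})
    (n3 : Ideal.span {u} = ⊤ ∨ m ∉ Ideal.span {u}) :
    ((ln (Ideal.span {v₁, w})).toNat : ℤ) - (ln (Ideal.span {v₂, w})).toNat =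
      ((ln (Ideal.span {v₁, w * m₁})).toNat - (ln (Ideal.span {v₁, u ^ 2 * m₁})).toNat) -
      ((ln (Ideal.span {v₂, w * m₂})).toNat - (ln (Ideal.span {v₂, u ^ 2 * m₂})).toNat) +
      ((ln (Ideal.span {u, v₁ ^ 2 * m})).toNat - (ln (Ideal.span {u, v₂ ^ 2 * m})).toNat) := by
  simp only [Ideal.span_insert]
  have q : ∀ (I : Ideal O) (_ : I = ⊤ ∨ I.IsPrime) (_ : Ring.KrullDimLE 1 (O ⧸ I)) (x y : O)
      (_ : I = ⊤ ∨ x ∉ I) (_ : I = ⊤ ∨ y ∉ I), (ln (I ⊔ Ideal.span {x ^ 2 * y})).toNat =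
        2 * (ln (I ⊔ Ideal.span {x})).toNat + (ln (I ⊔ Ideal.span {y})).toNat := by
    intro I hI hd x y hx hy
    have e : x ^ 2 * y = x * (x * y) := by ring
    rw [e, XLen.toNat_mul I hI hd x (x * y) hx (XLen.notMem_mul I hI x y hx hy),
      XLen.toNat_mul I hI hd x y hx hy]
    ring
  rw [XLen.toNat_mul _ h1 d1 w m₁ w1 n1, XLen.toNat_mul _ h2 d2 w m₂ w2 n2,
    q _ h1 d1 u m₁ u1 n1, q _ h2 d2 u m₂ u2 n2, q _ h3 d3 v₁ m v1 n3, q _ h3 d3 v₂ m v2 n3,
    sup_comm (Ideal.span {v₁}) (Ideal.span {u}), sup_comm (Ideal.span {v₂}) (Ideal.span {u})]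
  push_cast
  ring

end Pool.Agent.SSF
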