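import Pool.Agent.SSF.G2
import Pool.Agent.SSF.Br.Gr

/-!
# SSF, module XLoc (X12d): local generators

For a point `p` of `X = Proj A` and a class `γ` choose `g ∈ R_(m h - γ)` outside `pt p`, and
`v ∈ A_1` outside `p`.  The local trivialisation is `x ↦ (x g) / v^m`.
-/

set_option autoImplicit false

open scoped TensorProduct

namespace Pool.Agent.SSF

namespace XLoc

open HomogeneousLocalization

variable {k : Type} [CommRing k] (D : Cox k)

/-- The element `x g` of `A`. -/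
noncomputable def al {γ : D.Γ} {m : ℕ} (g : D.gR (m • D.h - γ)) : D.gR γ →+ D.gA m where
  toFun x := ⟨D.ρ ((x : D.R) * g), by
    have h1 : (x : D.R) * g ∈ D.gR (m • D.h) := by
      have := SetLike.mul_mem_graded x.2 g.2
      rwa [add_sub_cancel] at this
    obtain ⟨a, ha, e⟩ := D.φ_surj m _ h1
    rw [← e, D.ρφ]
    exact ha⟩
  map_zero' := by
    apply Subtype.ext
    simp
  map_add' x y := by
    apply Subtype.ext
    simp [add_mul]

theorem φ_al {γ : D.Γ} {m : ℕ} (g : D.gR (m • D.h - γ)) (x : D.gR γ) :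
    D.φ (al D g x : D.A) = (x : D.R) * g := by
  have h1 : (x : D.R) * g ∈ D.gR (m • D.h) := by
    have := SetLike.mul_mem_graded x.2 g.2
    rwa [add_sub_cancel] at this
  obtain ⟨a, ha, e⟩ := D.φ_surj m _ h1
  change D.φ (D.ρ ((x : D.R) * g)) = _
  rw [← e, D.ρφ]

variable (p : D.Pt)

/-- `a / v ^ m`. -/
noncomputable def fr (v : D.A) (hv : v ∈ D.gA 1) (hvp : v ∉ Br.idl D.gA p) (m : ℕ) (a : D.gA m) :
    Br.LR D.gA p :=
  HomogeneousLocalization.mk ⟨m, a, ⟨v ^ m, by
    have := SetLike.pow_mem_graded m hv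
    rwa [smul_eq_mul, mul_one] at this⟩, (Br.idl D.gA p).primeCompl.pow_mem hvp m⟩

variable {D p} {v : D.A} (hv : v ∈ D.gA 1) (hvp : v ∉ Br.idl D.gA p)

theorem val_fr (m : ℕ) (a : D.gA m) : (fr D p v hv hvp m a).val =
    Localization.mk (a : D.A) ⟨v ^ m, (Br.idl D.gA p).primeCompl.pow_mem hvp m⟩ := rfl

theorem fr_add (m : ℕ) (a b : D.gA m) :
    fr D p v hv hvp m (a + b) = fr D p v hv hvp m a + fr D p v hv hvp m b := by
  apply HomogeneousLocalization.val_injective
  rw [HomogeneousLocalization.val_add, val_fr, val_fr, val_fr, Localization.add_mk_self]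
  rfl

theorem fr_zero (m : ℕ) : fr D p v hv hvp m 0 = 0 := by
  apply HomogeneousLocalization.val_injective
  rw [val_fr, HomogeneousLocalization.val_zero]
  exact Localization.mk_zero _

theorem fr_mul (m n : ℕ) (a : D.gA m) (b : D.gA n) (c : D.gA (m + n)) (hc : (c : D.A) = a * b) :
    fr D p v hv hvp (m + n) c = fr D p v hv hvp m a * fr D p v hv hvp n b := by
  apply HomogeneousLocalization.val_injective
  rw [HomogeneousLocalization.val_mul, val_fr, val_fr, val_fr, Localization.mk_mul, hc]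
  congr 1
  apply Subtype.ext
  simp [pow_add]

theorem isUnit_fr (m : ℕ) (a : D.gA m) :
    IsUnit (fr D p v hv hvp m a) ↔ (a : D.A) ∉ Br.idl D.gA p := by
  rw [← HomogeneousLocalization.isUnit_iff_isUnit_val, val_fr, Localization.mk_eq_mk',
    IsLocalization.AtPrime.isUnit_mk'_iff (Localization.AtPrime (Br.idl D.gA p))
      (Br.idl D.gA p)]
  exact Iff.rfl

theorem fr_eq_iff (m n : ℕ) (a : D.gA m) (b : D.gA n) (h : (a : D.A) * v ^ n = b * v ^ m) :
    fr D p v hv hvp m a = fr D p v hv hvp n b := by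
  apply HomogeneousLocalization.val_injective
  rw [val_fr, val_fr, Localization.mk_eq_mk_iff, Localization.r_iff_exists]
  refine ⟨1, ?_⟩
  simp only [OneMemClass.coe_one, one_mul]
  rw [mul_comm, h, mul_comm]

/-- The local trivialisation by `g`. -/
noncomputable def lo {γ : D.Γ} {m : ℕ} (g : D.gR (m • D.h - γ)) : D.gR γ →+ Br.LR D.gA p where
  toFun x := fr D p v hv hvp m (al D g x)
  map_zero' := by rw [map_zero, fr_zero]
  map_add' x y := by rw [map_add, fr_add]

theorem lo_apply {γ : D.Γ} {m : ℕ} (g : D.gR (m • D.h - γ)) (x : D.gR γ) :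
    lo hv hvp g x = fr D p v hv hvp m (al D g x) := rfl

/-- `x y ∈ pt p` iff `x ∈ pt p` or `y ∈ pt p`. -/
theorem mul_notMem (hD : D.Good) {γ δ : D.Γ} (x : D.gR γ) (y : D.gR δ) :
    (x : D.R) * y ∉ D.pt p ↔ (x : D.R) ∉ D.pt p ∧ (y : D.R) ∉ D.pt p := by
  constructor
  · intro h
    exact ⟨fun h1 => h (Ideal.mul_mem_right _ _ h1), fun h1 => h (Ideal.mul_mem_left _ _ h1)⟩
  · rintro ⟨h1, h2⟩ h
    rcases D.pt_prime hD p x.2 y.2 h with h | h
    · exact h1 h
    · exact h2 h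

theorem isUnit_lo (hD : D.Good) {γ : D.Γ} {m : ℕ} (g : D.gR (m • D.h - γ)) (x : D.gR γ) :
    IsUnit (lo hv hvp g x) ↔ (x : D.R) ∉ D.pt p ∧ (g : D.R) ∉ D.pt p := by
  rw [lo_apply, isUnit_fr, ← mul_notMem hD, ← φ_al, Cox.G2.φ_mem_pt D hD]

/-- Change of the trivialisation. -/
theorem change (hD : D.Good) {γ : D.Γ} {m m' : ℕ} (g : D.gR (m • D.h - γ))
    (g' : D.gR (m' • D.h - γ)) (hg : (g : D.R) ∉ D.pt p) :
    ∃ c : Br.LR D.gA p, (IsUnit c ↔ (g' : D.R) ∉ D.pt p) ∧
      ∀ x : D.gR γ, lo hv hvp g' x = c * lo hv hvp g x := by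
  obtain ⟨n, y, a, hy, ha, hap, hya⟩ := Cox.G2.partner D hD p g.2 hg
  have hvm : v ^ m ∈ D.gA m := by
    have := SetLike.pow_mem_graded m hv
    rwa [smul_eq_mul, mul_one] at this
  have hb : (g' : D.R) * (y * D.φ (v ^ m)) ∈ D.gR ((m' + n) • D.h) := by
    have h1 := SetLike.mul_mem_graded g'.2 (SetLike.mul_mem_graded hy (D.φ_mem _ _ hvm))
    have e : m' • D.h - γ + (n • D.h - (m • D.h - γ) + m • D.h) = (m' + n) • D.h := by
      rw [add_smul]; abel
    rwa [e] at h1
  obtain ⟨b, hbA, hbe⟩ := D.φ_surj _ _ hb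
  have hav : a * v ^ m ∈ D.gA (n + m) := SetLike.mul_mem_graded ha hvm
  have hu : IsUnit (fr D p v hv hvp (n + m) ⟨a * v ^ m, hav⟩) := by
    rw [isUnit_fr]
    intro h
    rcases p.isPrime.mem_or_mem h with h | h
    · exact hap h
    · exact hvp (p.isPrime.mem_of_pow_mem _ h)
  obtain ⟨w, hw⟩ := hu
  refine ⟨fr D p v hv hvp (m' + n) ⟨b, hbA⟩ * ↑w⁻¹, ?_, ?_⟩
  · rw [Units.isUnit_mul_units, isUnit_fr]
    change b ∉ _ ↔ _
    rw [← Cox.G2.φ_mem_pt D hD, hbe]
    constructor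
    · intro h h1
      exact h (Ideal.mul_mem_right _ _ h1)
    · intro h h1
      have h2 : y * D.φ (v ^ m) ∈ D.gR (n • D.h - (m • D.h - γ) + m • D.h) :=
        SetLike.mul_mem_graded hy (D.φ_mem _ _ hvm)
      rcases D.pt_prime hD p g'.2 h2 h1 with h3 | h3
      · exact h h3
      · rcases D.pt_prime hD p hy (D.φ_mem _ _ hvm) h3 with h4 | h4
        · apply hap
          rw [← Cox.G2.φ_mem_pt D hD, hya]
          exact Ideal.mul_mem_left _ _ h4
        · rw [Cox.G2.φ_mem_pt D hD] at h4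
          exact hvp (p.isPrime.mem_of_pow_mem _ h4)
  · intro x
    have h1 : lo hv hvp g' x * ↑w = fr D p v hv hvp (m' + n) ⟨b, hbA⟩ * lo hv hvp g x := by
      rw [hw, lo_apply, lo_apply,
        ← fr_mul hv hvp m' (n + m) (al D g' x) ⟨a * v ^ m, hav⟩
          ⟨(al D g' x : D.A) * (a * v ^ m), SetLike.mul_mem_graded (al D g' x).2 hav⟩ rfl,
        ← fr_mul hv hvp (m' + n) m ⟨b, hbA⟩ (al D g x)
          ⟨b * (al D g x : D.A), SetLike.mul_mem_graded hbA (al D g x).2⟩ rfl]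
      apply fr_eq_iff
      change ((al D g' x : D.A) * (a * v ^ m)) * v ^ (m' + n + m) =
        b * (al D g x : D.A) * v ^ (m' + (n + m))
      rw [add_assoc]
      congr 1
      apply D.φ_inj
      rw [map_mul, map_mul, map_mul, φ_al, φ_al, hbe, hya]
      ring
    calc lo hv hvp g' x = lo hv hvp g' x * ↑w * ↑w⁻¹ := by
          rw [mul_assoc, Units.mul_inv, mul_one]
      _ = _ := by rw [h1]; ring

theorem fr_mem_locIdeal (I : Ideal D.A) (n : ℕ) (a : D.gA n) (ha : (a : D.A) ∈ I) :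
    fr D p v hv hvp n a ∈ Br.locIdeal D.gA I p := by
  change (fr D p v hv hvp n a).val ∈ I.map (algebraMap D.A (Localization.AtPrime (Br.idl D.gA p)))
  rw [val_fr, Localization.mk_eq_mk']
  rw [IsLocalization.mk'_mem_map_algebraMap_iff]
  exact ⟨1, one_mem _, by simpa using ha⟩

/-- Every element of the ideal `locIdeal I` is a unit times `a / v ^ n`, `a ∈ I` homogeneous of
degree `n`. -/
theorem exists_of_mem (I : Ideal D.A) (hI : I.IsHomogeneous D.gA) (f : Br.LR D.gA p)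
    (hf : f ∈ Br.locIdeal D.gA I p) :
    ∃ (n : ℕ) (a : D.gA n) (w : Br.LR D.gA p), (a : D.A) ∈ I ∧ f = w * fr D p v hv hvp n a := by
  obtain ⟨c, rfl⟩ := HomogeneousLocalization.mk_surjective f
  change (HomogeneousLocalization.mk c).val ∈
    I.map (algebraMap D.A (Localization.AtPrime (Br.idl D.gA p))) at hf
  rw [HomogeneousLocalization.val_mk, Localization.mk_eq_mk',
    IsLocalization.mk'_mem_map_algebraMap_iff] at hf
  obtain ⟨t, ht, hta⟩ := hf
  classical
  obtain ⟨j, hj⟩ : ∃ j : ℕ, (DirectSum.decompose D.gA t j : D.A) ∉ Br.idl D.gA p := by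
    by_contra hcon
    push Not at hcon
    apply ht
    have hdec := DirectSum.sum_support_decompose D.gA t
    rw [← hdec]
    exact Ideal.sum_mem _ fun n _ => hcon n
  have h1 : (DirectSum.decompose D.gA t j : D.A) * (c.num : D.A) ∈ I := by
    have h2 := hI (j + c.deg) hta
    rwa [DirectSum.coe_decompose_mul_add_of_right_mem D.gA c.num.2] at h2
  have h3 : (DirectSum.decompose D.gA t j : D.A) * (c.den : D.A) ∈ D.gA (j + c.deg) :=
    SetLike.mul_mem_graded (SetLike.coe_mem _) c.den.2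
  have hu : IsUnit (fr D p v hv hvp (j + c.deg) ⟨_, h3⟩) := by
    rw [isUnit_fr]
    intro h
    rcases p.isPrime.mem_or_mem h with h | h
    · exact hj h
    · exact c.den_mem h
  obtain ⟨w, hw⟩ := hu
  refine ⟨j + c.deg, ⟨(DirectSum.decompose D.gA t j : D.A) * (c.num : D.A),
    SetLike.mul_mem_graded (SetLike.coe_mem _) c.num.2⟩, ↑w⁻¹, h1, ?_⟩
  have h4 : HomogeneousLocalization.mk c * ↑w = fr D p v hv hvp (j + c.deg)
      ⟨(DirectSum.decompose D.gA t j : D.A) * (c.num : D.A),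
        SetLike.mul_mem_graded (SetLike.coe_mem _) c.num.2⟩ := by
    rw [hw]
    apply HomogeneousLocalization.val_injective
    rw [HomogeneousLocalization.val_mul, val_fr, val_fr, HomogeneousLocalization.val_mk,
      Localization.mk_mul, Localization.mk_eq_mk_iff, Localization.r_iff_exists]
    refine ⟨1, ?_⟩
    simp only [OneMemClass.coe_one, one_mul, Submonoid.coe_mul]
    ring
  rw [← h4]
  calc HomogeneousLocalization.mk c = HomogeneousLocalization.mk c * (↑w * ↑w⁻¹) := by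
        rw [Units.mul_inv, mul_one]
    _ = _ := by ring

/-- The ideal generated by a finite family of homogeneous elements of `R`. -/
theorem locIdeal_comap (hD : D.Good) (ι : Type) [Finite ι] (γ : ι → D.Γ) (m : ι → ℕ)
    (g : ∀ i, D.gR (m i • D.h - γ i)) (hg : ∀ i, (g i : D.R) ∉ D.pt p) (x : ∀ i, D.gR (γ i)) :
    Br.locIdeal D.gA ((Ideal.span (Set.range fun i => ((x i : D.R)))).comap D.φ) p =
      Ideal.span (Set.range fun i => lo hv hvp (g i) (x i)) := by
  classical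
  have := Fintype.ofFinite ι
  have hJ : (Ideal.span (Set.range fun i => ((x i : D.R)))).IsHomogeneous D.gR := by
    apply Ideal.homogeneous_span
    rintro _ ⟨i, rfl⟩
    exact ⟨γ i, (x i).2⟩
  have hI : ((Ideal.span (Set.range fun i => ((x i : D.R)))).comap D.φ).IsHomogeneous D.gA := by
    intro n a ha
    rw [Ideal.mem_comap] at ha ⊢
    rw [← D.decompose_φ]
    exact hJ _ ha
  apply le_antisymm
  · intro f hf
    obtain ⟨N, a, w, ha, rfl⟩ := exists_of_mem hv hvp _ hI f hf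
    apply Ideal.mul_mem_left
    rw [Ideal.mem_comap, Ideal.mem_span_range_iff_exists_fun] at ha
    obtain ⟨c, hc⟩ := ha
    have hmem : ∀ i, (DirectSum.decompose D.gR (c i) (N • D.h - γ i) : D.R) ∈
        D.gR (N • D.h - γ i) := fun i => SetLike.coe_mem _
    have h1 : D.φ (a : D.A) = ∑ i, (x i : D.R) *
        (DirectSum.decompose D.gR (c i) (N • D.h - γ i) : D.R) := by
      have h2 : (DirectSum.decompose D.gR (D.φ (a : D.A)) (N • D.h) : D.R) = D.φ (a : D.A) :=
        DirectSum.decompose_of_mem_same _ (D.φ_mem N _ a.2)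
      rw [← h2, ← hc, DirectSum.decompose_sum, DFinsupp.finsetSum_apply,
        AddSubmonoidClass.coe_finsetSum]
      refine Finset.sum_congr rfl fun i _ => ?_
      have h3 := DirectSum.coe_decompose_mul_add_of_right_mem D.gR (i := N • D.h - γ i)
        (a := c i) (x i).2
      rw [sub_add_cancel] at h3
      rw [h3, mul_comm]
    have h4 : a = ∑ i, al D ⟨_, hmem i⟩ (x i) := by
      apply Subtype.ext
      apply D.φ_inj
      rw [h1, AddSubmonoidClass.coe_finsetSum, map_sum]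
      refine Finset.sum_congr rfl fun i _ => ?_
      rw [φ_al]
    have h5 : fr D p v hv hvp N a = ∑ i, lo hv hvp ⟨_, hmem i⟩ (x i) := by
      have h6 : ∀ (s : Finset ι), fr D p v hv hvp N (∑ i ∈ s, al D ⟨_, hmem i⟩ (x i)) =
          ∑ i ∈ s, lo hv hvp ⟨_, hmem i⟩ (x i) := by
        intro s
        induction s using Finset.induction_on with
        | empty => rw [Finset.sum_empty, Finset.sum_empty, fr_zero]
        | insert i s hi ih => rw [Finset.sum_insert hi, Finset.sum_insert hi, fr_add, ih]; rfl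
      rw [h4]
      exact h6 _
    rw [h5]
    refine Ideal.sum_mem _ fun i _ => ?_
    obtain ⟨d, -, hd⟩ := change hv hvp hD (g i) ⟨_, hmem i⟩ (hg i)
    rw [hd]
    exact Ideal.mul_mem_left _ _ (Ideal.subset_span ⟨i, rfl⟩)
  · rw [Ideal.span_le]
    rintro _ ⟨i, rfl⟩
    refine fr_mem_locIdeal hv hvp _ _ _ ?_
    rw [Ideal.mem_comap]
    rw [φ_al]
    exact Ideal.mul_mem_right _ _ (Ideal.subset_span ⟨i, rfl⟩)

/-- The ideal generated by a homogeneous element of `A`. -/
theorem locIdeal_span (n : ℕ) (a : D.A) (ha : a ∈ D.gA n) :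
    Br.locIdeal D.gA (Ideal.span {a}) p = Ideal.span {fr D p v hv hvp n ⟨a, ha⟩} := by
  have hI : (Ideal.span {a}).IsHomogeneous D.gA := by
    apply Ideal.homogeneous_span
    rintro _ rfl
    exact ⟨n, ha⟩
  apply le_antisymm
  · intro f hf
    obtain ⟨N, b, w, hb, rfl⟩ := exists_of_mem hv hvp _ hI f hf
    apply Ideal.mul_mem_left
    obtain ⟨c, hc⟩ := Ideal.mem_span_singleton'.1 hb
    have h2 : (DirectSum.decompose D.gA (b : D.A) N : D.A) = b :=
      DirectSum.decompose_of_mem_same _ b.2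
    rcases le_or_gt n N with h | h
    · obtain ⟨j, rfl⟩ := Nat.exists_eq_add_of_le' h
      have h3 : (b : D.A) = (DirectSum.decompose D.gA c j : D.A) * a := by
        have h4 := DirectSum.coe_decompose_mul_add_of_right_mem D.gA (i := j) (a := c) ha
        rw [← h4, hc, h2]
      rw [fr_mul hv hvp j n (DirectSum.decompose D.gA c j) ⟨a, ha⟩ b h3]
      exact Ideal.mul_mem_left _ _ (Ideal.subset_span rfl)
    · have h3 : b = 0 := by
        apply Subtype.ext
        have h4 := DirectSum.coe_decompose_mul_of_right_mem_of_not_le D.gA (a := c) (n := N)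
          ha (not_le.2 h)
        rw [hc, h2] at h4
        exact h4
      rw [h3, fr_zero]
      exact Ideal.zero_mem _
  · rw [Ideal.span_singleton_le_iff_mem]
    exact fr_mem_locIdeal hv hvp _ _ _ (Ideal.subset_span rfl)

end XLoc

/-- Local trivialisation of all homogeneous elements of `R` at a point: `loc γ x` is
`(x g) / u` with `g ∈ R_(m h - γ)`, `g ∉ pt p`, and `u ∈ A_m`, `u ∉ p`. -/
theorem Cox.exists_loc {k : Type} [CommRing k] (D : Cox k) (hD : D.Good) (p : D.Pt) :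
    ∃ loc : ∀ γ : D.Γ, D.gR γ →+ Br.LR D.gA p,
      (∀ γ (x : D.gR γ), IsUnit (loc γ x) ↔ (x : D.R) ∉ D.pt p) ∧
      (∀ γ δ (x : D.gR γ) (y : D.gR δ) (z : D.gR (γ + δ)), (z : D.R) = x * y →
        Associated (loc (γ + δ) z) (loc γ x * loc δ y)) ∧
      (∀ (ι : Type) [Finite ι] (γ : ι → D.Γ) (x : ∀ i, D.gR (γ i)),
        Br.locIdeal D.gA ((Ideal.span (Set.range fun i => ((x i : D.R)))).comap D.φ) p =
          Ideal.span (Set.range fun i => loc (γ i) (x i))) ∧
      (∀ (n : ℕ) (a : D.A) (ha : a ∈ D.gA n), Br.locIdeal D.gA (Ideal.span {a}) p =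
          Ideal.span {loc (n • D.h) ⟨D.φ a, D.φ_mem n a ha⟩}) := by
  obtain ⟨v, hv, hvp⟩ := Cox.G2.exists_gen_notMem D p (D.gA 1 : Set D.A) hD.gen1
  have h1 : ∀ γ : D.Γ, ∃ (m : ℕ) (g : D.gR (m • D.h - γ)), (g : D.R) ∉ D.pt p := by
    intro γ
    obtain ⟨n, -, x, hx, hxp⟩ := D.pt_ne_top hD p (-γ) 0
    exact ⟨n, ⟨x, by rwa [neg_add_eq_sub] at hx⟩, hxp⟩
  choose m g hg using h1
  have hone : (1 : D.R) ∉ D.pt p := by
    intro h
    have h2 : D.φ 1 ∈ D.pt p := by rwa [map_one]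
    rw [Cox.G2.φ_mem_pt D hD] at h2
    exact p.isPrime.ne_top ((Ideal.eq_top_iff_one _).2 h2)
  refine ⟨fun γ => XLoc.lo hv hvp (g γ), ?_, ?_, ?_, ?_⟩
  · intro γ x
    rw [XLoc.isUnit_lo hv hvp hD]
    exact ⟨fun h => h.1, fun h => ⟨h, hg γ⟩⟩
  · intro γ δ x y z hz
    have h2 : (g γ : D.R) * (g δ : D.R) ∈ D.gR ((m γ + m δ) • D.h - (γ + δ)) := by
      have := SetLike.mul_mem_graded (g γ).2 (g δ).2
      have e : m γ • D.h - γ + (m δ • D.h - δ) = (m γ + m δ) • D.h - (γ + δ) := by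
        rw [add_smul]; abel
      rwa [e] at this
    have h3 : (g γ : D.R) * (g δ : D.R) ∉ D.pt p := (XLoc.mul_notMem hD _ _).2 ⟨hg γ, hg δ⟩
    obtain ⟨c, hc, hcx⟩ := XLoc.change hv hvp hD (g (γ + δ)) ⟨_, h2⟩ (hg _)
    obtain ⟨c, rfl⟩ := hc.2 h3
    refine ⟨c, ?_⟩
    refine Eq.trans (mul_comm _ _) (Eq.trans (hcx z).symm ?_)
    rw [XLoc.lo_apply, XLoc.lo_apply, XLoc.lo_apply]
    apply XLoc.fr_mul
    apply D.φ_inj
    rw [map_mul, XLoc.φ_al, XLoc.φ_al, XLoc.φ_al, hz]
    ring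
  · intro ι _ γ x
    exact XLoc.locIdeal_comap hv hvp hD ι γ (fun i => m (γ i)) (fun i => g (γ i))
      (fun i => hg (γ i)) x
  · intro n a ha
    rw [XLoc.locIdeal_span hv hvp n a ha]
    have h2 : (1 : D.R) ∈ D.gR (n • D.h - n • D.h) := by
      rw [sub_self]; exact SetLike.one_mem_graded D.gR
    obtain ⟨c, hc, hcx⟩ := XLoc.change hv hvp hD (g (n • D.h)) ⟨1, h2⟩ (hg _)
    obtain ⟨c, rfl⟩ := hc.2 hone
    have h3 := hcx ⟨D.φ a, D.φ_mem n a ha⟩
    have h4 : XLoc.lo hv hvp (⟨1, h2⟩ : D.gR (n • D.h - n • D.h)) ⟨D.φ a, D.φ_mem n a ha⟩ =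
        XLoc.fr D p v hv hvp n ⟨a, ha⟩ := by
      rw [XLoc.lo_apply]
      congr 1
      apply Subtype.ext
      apply D.φ_inj
      rw [XLoc.φ_al]
      exact mul_one _
    rw [← h4, h3]
    exact Ideal.span_singleton_mul_left_unit c.isUnit _

end Pool.Agent.SSF
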