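import Pool.Agent.SSF.XSpan

/-!
Project SSF (MP_5928ba), module X12n: normal form of the elements of `A`.
-/

set_option autoImplicit false

open scoped TensorProduct symmDiff

namespace Pool.Agent.SSF

open MvPolynomial DirectSum

/-- The four sets `S_1, ..., S_4`. -/
def Sg : Fin 4 → Finset V :=
  ![{(0, 0), (0, 1), (0, 2), (0, 3)},
    {(1, 0), (1, 1), (1, 2), (1, 3), (0, 0), (0, 1)},
    {(2, 0), (2, 1), (2, 2), (2, 3), (1, 0), (1, 1)},
    {(3, 0), (3, 1), (3, 2), (3, 3), (0, 0), (0, 2), (1, 0), (1, 2)}]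

/-- The combination of the four sets with coefficients `t`. -/
def Sgt (t : Fin 4 → Bool) : Finset V :=
  symmDiff (symmDiff (if t 0 then Sg 0 else ∅) (if t 1 then Sg 1 else ∅))
    (symmDiff (if t 2 then Sg 2 else ∅) (if t 3 then Sg 3 else ∅))

/-- The group generated by `S_1, ..., S_4`: the sets `S` with `deg ξ^S ∈ ⟨F_1, ..., F_4⟩`. -/
def XiS : Finset (Finset V) := Finset.univ.image fun t : Fin 4 → Bool =>
  symmDiff (symmDiff (if t 0 then Sg 0 else ∅) (if t 1 then Sg 1 else ∅))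
    (symmDiff (if t 2 then Sg 2 else ∅) (if t 3 then Sg 3 else ∅))

theorem Sgt_mem_XiS (t : Fin 4 → Bool) : Sgt t ∈ XiS :=
  Finset.mem_image.2 ⟨t, Finset.mem_univ _, rfl⟩

theorem mem_XiS {S : Finset V} : S ∈ XiS ↔ ∃ t, Sgt t = S := by
  unfold XiS
  rw [Finset.mem_image]
  constructor
  · rintro ⟨t, _, h⟩
    exact ⟨t, h⟩
  · rintro ⟨t, h⟩
    exact ⟨t, Finset.mem_univ _, h⟩

theorem ite_symmDiff (p q : Bool) (S : Finset V) :
    symmDiff (if p then S else ∅) (if q then S else ∅) = if xor p q then S else ∅ := by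
  have h1 : symmDiff S (∅ : Finset V) = S := symmDiff_bot S
  have h2 : symmDiff (∅ : Finset V) S = S := bot_symmDiff S
  have h3 : symmDiff S S = (∅ : Finset V) := symmDiff_self S
  have h4 : symmDiff (∅ : Finset V) ∅ = (∅ : Finset V) := symmDiff_self _
  rcases p with _ | _ <;> rcases q with _ | _
  · exact h4
  · exact h2
  · exact h1
  · exact h3

theorem symmDiff8 (a b c d a' b' c' d' : Finset V) :
    symmDiff (symmDiff (symmDiff a b) (symmDiff c d)) (symmDiff (symmDiff a' b') (symmDiff c' d')) =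
      symmDiff (symmDiff (symmDiff a a') (symmDiff b b'))
        (symmDiff (symmDiff c c') (symmDiff d d')) := by
  rw [symmDiff_symmDiff_symmDiff_comm (symmDiff a b), symmDiff_symmDiff_symmDiff_comm a b,
    symmDiff_symmDiff_symmDiff_comm c d]

theorem Sgt_symmDiff (t t' : Fin 4 → Bool) :
    symmDiff (Sgt t) (Sgt t') = Sgt fun i => xor (t i) (t' i) := by
  unfold Sgt
  rw [symmDiff8, ite_symmDiff, ite_symmDiff, ite_symmDiff, ite_symmDiff]

theorem XiS_symmDiff : ∀ S ∈ XiS, ∀ T ∈ XiS, symmDiff S T ∈ XiS := by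
  intro S hS T hT
  obtain ⟨t, rfl⟩ := mem_XiS.1 hS
  obtain ⟨t', rfl⟩ := mem_XiS.1 hT
  rw [Sgt_symmDiff]
  exact Sgt_mem_XiS _

theorem empty_mem_XiS : ∅ ∈ XiS := by
  have h := Sgt_mem_XiS fun _ => false
  have h2 : Sgt (fun _ => false) = ∅ := by decide
  rwa [h2] at h

/-- The indicator function of `Sgt t` by rows. -/
def Gt (t0 t1 t2 t3 : ZMod 2) : Fin 4 → Fin 4 → ZMod 2 :=
  ![![t0 + t1 + t3, t0 + t1, t0 + t3, t0],
    ![t1 + t2 + t3, t1 + t2, t1 + t3, t1],
    ![t2, t2, t2, t2],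
    ![t3, t3, t3, t3]]

theorem mem_Sgt (t0 t1 t2 t3 : ZMod 2) : ∀ v : V,
    (v ∈ Sgt ![decide (t0 = 1), decide (t1 = 1), decide (t2 = 1), decide (t3 = 1)] ↔
      Gt t0 t1 t2 t3 v.1 v.2 = 1) := by
  revert t0 t1 t2 t3
  decide +kernel

theorem weight_snd (m : V →₀ ℕ) (l : Fin 8) :
    (Finsupp.weight e m).2 l = ∑ i : Fin 4, ∑ j : Fin 4, (m (i, j) : ZMod 2) * tt i j l := by
  rw [Finsupp.weight_apply, Finsupp.sum_fintype m (fun v c => c • e v) (fun v => zero_smul ℕ _),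
    Prod.snd_sum, Finset.sum_apply, Fintype.sum_prod_type]
  refine Finset.sum_congr rfl fun i _ => Finset.sum_congr rfl fun j _ => ?_
  simp [e]

/-- The parity conditions on the exponents of monomials of degree `n hh`. -/
theorem parity (a : Fin 4 → Fin 4 → ZMod 2) (h1 : ∀ i, a i 0 + a i 1 + a i 2 + a i 3 = 0)
    (h2 : ∀ l : Fin 8, ∑ i : Fin 4, ∑ j : Fin 4, a i j * tt i j l = 0) (i j : Fin 4) :
    a i j = Gt (a 0 3) (a 1 3) (a 2 3) (a 3 3) i j := by
  have e2 : ∀ x y : ZMod 2, x + y = 0 → x = y := by decide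
  have e3 : ∀ x y z : ZMod 2, x + y + z = 0 → x = y + z := by decide
  have e4 : ∀ x y z w : ZMod 2, x + y + z + w = 0 → x = y + z + w := by decide
  have g0 := h2 0
  have g1 := h2 1
  have g2 := h2 2
  have g3 := h2 3
  have g4 := h2 4
  have g5 := h2 5
  have g6 := h2 6
  have g7 := h2 7
  simp [Fin.sum_univ_four, tt, u] at g0 g1 g2 g3 g4 g5 g6 g7
  have k01 := e3 _ _ _ g0
  have k02 := e3 _ _ _ g1
  have k11 := e3 _ _ _ g2
  have k12 := e3 _ _ _ g3
  have k21 := e2 _ _ g4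
  have k22 := e2 _ _ g5
  have k31 := e2 _ _ g6
  have k32 := e2 _ _ g7
  have k00 := e4 _ _ _ _ (h1 0)
  have k10 := e4 _ _ _ _ (h1 1)
  have k20 := e4 _ _ _ _ (h1 2)
  have k30 := e4 _ _ _ _ (h1 3)
  rw [k01, k02] at k00
  rw [k11, k12] at k10
  rw [k21, k22] at k20
  rw [k31, k32] at k30
  have f0 : ∀ x y z : ZMod 2, x + y + (x + z) + x = x + y + z := by decide
  have f1 : ∀ x : ZMod 2, x + x + x = x := by decide
  rw [f0] at k00 k10
  rw [f1] at k20 k30
  fin_cases i <;> fin_cases j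
  · exact k00
  · exact k01
  · exact k02
  · rfl
  · exact k10
  · exact k11
  · exact k12
  · rfl
  · exact k20
  · exact k21
  · exact k22
  · rfl
  · exact k30
  · exact k31
  · exact k32
  · rfl

/-- The odd support of an exponent. -/
noncomputable def oddS (m : V →₀ ℕ) : Finset V := Finset.univ.filter fun v => (m v : ZMod 2) = 1

theorem mem_oddS (m : V →₀ ℕ) (v : V) : v ∈ oddS m ↔ (m v : ZMod 2) = 1 := by
  unfold oddS
  rw [Finset.mem_filter]
  exact ⟨fun h => h.2, fun h => ⟨Finset.mem_univ _, h⟩⟩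

theorem oddS_mem_XiS (m : V →₀ ℕ) (n : ℕ) (h : Finsupp.weight e m = n • hh) : oddS m ∈ XiS := by
  have h1 : ∀ i, ((m (i, 0) : ZMod 2)) + m (i, 1) + m (i, 2) + m (i, 3) = 0 := by
    intro i
    have h2 := weight_fst m i
    rw [h, Fin.sum_univ_four] at h2
    have h3 : (n • hh).1 i = n * 4 := by simp [hh]
    rw [h3] at h2
    have h4 := congrArg (fun z : ℤ => (z : ZMod 2)) h2
    have h5 : (4 : ZMod 2) = 0 := by decide
    simp only [Int.cast_mul, Int.cast_natCast, Int.cast_ofNat, Int.cast_add, h5, mul_zero] at h4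
    exact h4.symm
  have h2 : ∀ l : Fin 8, ∑ i : Fin 4, ∑ j : Fin 4, ((m (i, j) : ZMod 2)) * tt i j l = 0 := by
    intro l
    rw [← weight_snd, h]
    simp [hh]
  have h3 := parity (fun i j => (m (i, j) : ZMod 2)) h1 h2
  have h4 : oddS m = Sgt ![decide ((m (0, 3) : ZMod 2) = 1), decide ((m (1, 3) : ZMod 2) = 1),
      decide ((m (2, 3) : ZMod 2) = 1), decide ((m (3, 3) : ZMod 2) = 1)] := by
    ext v
    rw [mem_oddS, mem_Sgt, ← h3 v.1 v.2]
  rw [h4]
  exact Sgt_mem_XiS _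

section ring

variable (k : Type) [CommRing k] (s : k)

/-- The polynomial ring `B = k[x_i, x_i']` and its map to `R`. -/
noncomputable def ιB : MvPolynomial (Fin 4 × Fin 2) k →ₐ[k] R k s :=
  aeval fun p => xi k s (p.1, p.2.castLE (by norm_num)) ^ 2

/-- The linear form `ℓ_v` in `B`. -/
noncomputable def ell (v : V) : MvPolynomial (Fin 4 × Fin 2) k :=
  ![X (v.1, 0), X (v.1, 1), C (ca s v.1) * X (v.1, 0) + C (cb s v.1) * X (v.1, 1),
    C (cc s v.1) * X (v.1, 0) + C (cd s v.1) * X (v.1, 1)] v.2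

theorem ιB_X0 (i : Fin 4) : ιB k s (X (i, 0)) = xi k s (i, 0) ^ 2 := by
  rw [ιB, aeval_X]
  rfl

theorem ιB_X1 (i : Fin 4) : ιB k s (X (i, 1)) = xi k s (i, 1) ^ 2 := by
  rw [ιB, aeval_X]
  rfl

theorem ιB_C (a : k) : ιB k s (C a) = algebraMap k (R k s) a := by
  rw [ιB, aeval_C]

theorem xi_sq (v : V) : xi k s v ^ 2 = ιB k s (ell k s v) := by
  obtain ⟨i, j⟩ := v
  fin_cases j
  · exact (ιB_X0 k s i).symm
  · exact (ιB_X1 k s i).symm
  · change xi k s (i, 2) ^ 2 =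
      ιB k s (C (ca s i) * X (i, 0) + C (cb s i) * X (i, 1))
    rw [map_add, map_mul, map_mul, ιB_C, ιB_C, ιB_X0, ιB_X1, xi2_sq]
  · change xi k s (i, 3) ^ 2 =
      ιB k s (C (cc s i) * X (i, 0) + C (cd s i) * X (i, 1))
    rw [map_add, map_mul, map_mul, ιB_C, ιB_C, ιB_X0, ιB_X1, xi3_sq]

/-- Normal form of a monomial. -/
theorem mon_normal (m : V →₀ ℕ) :
    mon k s m = ιB k s (∏ v : V, ell k s v ^ (m v / 2)) * ∏ v ∈ oddS m, xi k s v := by
  have h1 : mon k s m = ∏ v : V, xi k s v ^ m v := by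
    unfold mon
    exact Finsupp.prod_fintype _ _ fun v => pow_zero _
  have h2 : ∏ v ∈ oddS m, xi k s v = ∏ v : V, if (m v : ZMod 2) = 1 then xi k s v else 1 := by
    unfold oddS
    rw [Finset.prod_filter]
  rw [h1, h2, map_prod, ← Finset.prod_mul_distrib]
  refine Finset.prod_congr rfl fun v _ => ?_
  rw [map_pow, ← xi_sq, ← pow_mul]
  rcases Nat.even_or_odd' (m v) with ⟨c, hc | hc⟩
  · have h3 : ¬ ((m v : ZMod 2) = 1) := by
      have h5 : (2 : ZMod 2) = 0 := by decide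
      rw [hc, Nat.cast_mul, Nat.cast_ofNat, h5, zero_mul]
      decide
    rw [if_neg h3, mul_one]
    congr 1
    omega
  · have h3 : (m v : ZMod 2) = 1 := by
      have h5 : (2 : ZMod 2) = 0 := by decide
      rw [hc, Nat.cast_add, Nat.cast_mul, Nat.cast_ofNat, h5, zero_mul, Nat.cast_one, zero_add]
    rw [if_pos h3, ← pow_succ]
    congr 1
    omega

/-- The elements in normal form. -/
def NF : Submodule k (R k s) where
  carrier := {x | ∃ b : Finset V → MvPolynomial (Fin 4 × Fin 2) k,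
      x = ∑ S ∈ XiS, ιB k s (b S) * ∏ v ∈ S, xi k s v}
  zero_mem' := ⟨fun _ => 0, by simp⟩
  add_mem' := by
    rintro _ _ ⟨b, rfl⟩ ⟨b', rfl⟩
    refine ⟨fun S => b S + b' S, ?_⟩
    rw [← Finset.sum_add_distrib]
    refine Finset.sum_congr rfl fun S _ => ?_
    rw [map_add, add_mul]
  smul_mem' := by
    rintro c _ ⟨b, rfl⟩
    refine ⟨fun S => c • b S, ?_⟩
    rw [Finset.smul_sum]
    refine Finset.sum_congr rfl fun S _ => ?_
    rw [map_smul, smul_mul_assoc]

theorem mem_NF {x : R k s} : x ∈ NF k s ↔ ∃ b : Finset V → MvPolynomial (Fin 4 × Fin 2) k,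
      x = ∑ S ∈ XiS, ιB k s (b S) * ∏ v ∈ S, xi k s v := Iff.rfl

theorem gr_le_NF (n : ℕ) : gr k s (n • hh) ≤ NF k s := by
  rw [gr_eq_span, Submodule.span_le]
  rintro _ ⟨m, hm, rfl⟩
  classical
  refine ⟨fun S => if S = oddS m then ∏ v : V, ell k s v ^ (m v / 2) else 0, ?_⟩
  rw [Finset.sum_eq_single (oddS m)]
  · beta_reduce
    rw [if_pos rfl]
    exact mon_normal k s m
  · intro S _ hS
    beta_reduce
    rw [if_neg hS, map_zero, zero_mul]
  · intro h
    exact absurd (oddS_mem_XiS m n hm) h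

/-- Normal form. -/
theorem normal_form (n : ℕ) (x : R k s) (hx : x ∈ gr k s (n • hh)) :
    ∃ b : Finset V → MvPolynomial (Fin 4 × Fin 2) k,
      x = ∑ S ∈ XiS, ιB k s (b S) * ∏ v ∈ S, xi k s v := gr_le_NF k s n hx

theorem normal_form' (x : R k s) (hx : x ∈ ver (gr k s) hh) :
    ∃ b : Finset V → MvPolynomial (Fin 4 × Fin 2) k,
      x = ∑ S ∈ XiS, ιB k s (b S) * ∏ v ∈ S, xi k s v := by
  classical
  change x ∈ NF k s
  rw [← DirectSum.sum_support_decompose (gr k s) x]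
  refine Submodule.sum_mem _ fun γ _ => ?_
  by_cases hγ : γ ∈ Set.range (mulH hh)
  · obtain ⟨n, rfl⟩ := hγ
    exact gr_le_NF k s n (DirectSum.decompose (gr k s) x (mulH hh n)).2
  · rw [hx γ hγ]
    exact Submodule.zero_mem _

end ring

end Pool.Agent.SSF
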