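import Pool.Agent.SSF.XPrCommon

/-!
Project SSF (MP_5928ba), X12a: the ideals of `V_a` and `U`.
-/

set_option autoImplicit false

namespace Pool.Agent.SSF

open MvPolynomial DirectSum

/-! ### Normal form of all elements of `R` -/

section nf

variable (k : Type) [CommRing k] (s : k)

/-- `x` is a `B`-linear combination of the square free monomials. -/
def NFa (x : R k s) : Prop := ∃ b : Finset V → MvPolynomial (Fin 4 × Fin 2) k,
  x = ∑ S, ιB k s (b S) * ∏ v ∈ S, xi k s v

variable {k s}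

theorem NFa_zero : NFa k s 0 := ⟨fun _ => 0, by simp⟩

theorem NFa_add {x y : R k s} (hx : NFa k s x) (hy : NFa k s y) : NFa k s (x + y) := by
  obtain ⟨b, rfl⟩ := hx
  obtain ⟨c, rfl⟩ := hy
  refine ⟨fun S => b S + c S, ?_⟩
  rw [← Finset.sum_add_distrib]
  refine Finset.sum_congr rfl fun S _ => ?_
  rw [map_add, add_mul]

theorem NFa_single (q : MvPolynomial (Fin 4 × Fin 2) k) (S : Finset V) :
    NFa k s (ιB k s q * ∏ v ∈ S, xi k s v) := by
  refine ⟨fun T => if T = S then q else 0, ?_⟩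
  rw [Finset.sum_eq_single S]
  · simp only [if_true]
  · intro T _ hT
    simp only [if_neg hT, map_zero, zero_mul]
  · intro h
    exact absurd (Finset.mem_univ S) h

theorem NFa_sum {ι : Type} (t : Finset ι) (f : ι → R k s) (h : ∀ i ∈ t, NFa k s (f i)) :
    NFa k s (∑ i ∈ t, f i) := by
  classical
  induction t using Finset.induction_on with
  | empty => exact NFa_zero
  | insert i t hi ih =>
    rw [Finset.sum_insert hi]
    exact NFa_add (h i (Finset.mem_insert_self _ _))
      (ih fun j hj => h j (Finset.mem_insert_of_mem hj))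

/-- Product of a square free monomial and a coordinate. -/
theorem prod_mul_xi (S : Finset V) (v : V) : (∏ w ∈ S, xi k s w) * xi k s v =
    ιB k s (if v ∈ S then ell k s v else 1) * ∏ w ∈ symmDiff S {v}, xi k s w := by
  by_cases hv : v ∈ S
  · have h1 : symmDiff S {v} = S.erase v := by
      ext w
      rw [Finset.mem_symmDiff, Finset.mem_singleton, Finset.mem_erase]
      constructor
      · rintro (h | h)
        · exact ⟨h.2, h.1⟩
        · exact absurd (h.1 ▸ hv) h.2
      · exact fun h => Or.inl ⟨h.2, h.1⟩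
    rw [if_pos hv, h1, ← Finset.mul_prod_erase _ _ hv, ← xi_sq]
    ring
  · have h1 : symmDiff S {v} = insert v S := by
      ext w
      rw [Finset.mem_symmDiff, Finset.mem_singleton, Finset.mem_insert]
      constructor
      · rintro (h | h)
        · exact Or.inr h.1
        · exact Or.inl h.1
      · rintro (rfl | h)
        · exact Or.inr ⟨rfl, hv⟩
        · exact Or.inl ⟨h, fun h2 => hv (h2 ▸ h)⟩
    rw [if_neg hv, h1, Finset.prod_insert hv, map_one, one_mul, mul_comm]

/-- The coefficients of `x ξ_v`. -/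
theorem nf_mul_xi (b : Finset V → MvPolynomial (Fin 4 × Fin 2) k) (v : V) :
    (∑ S, ιB k s (b S) * ∏ w ∈ S, xi k s w) * xi k s v =
      ∑ S, ιB k s (b (symmDiff S {v}) * if v ∈ S then 1 else ell k s v) *
        ∏ w ∈ S, xi k s w := by
  rw [Finset.sum_mul]
  refine Fintype.sum_equiv
    ⟨fun S => symmDiff S {v}, fun S => symmDiff S {v}, fun S => symmDiff_symmDiff_cancel_right _ _,
      fun S => symmDiff_symmDiff_cancel_right _ _⟩ _ _ fun S => ?_
  change _ = ιB k s (b (symmDiff (symmDiff S {v}) {v}) *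
    if v ∈ symmDiff S {v} then 1 else ell k s v) * ∏ w ∈ symmDiff S {v}, xi k s w
  rw [symmDiff_symmDiff_cancel_right, mul_assoc, prod_mul_xi, map_mul, mul_assoc]
  congr 3
  have h1 : v ∈ symmDiff S {v} ↔ v ∉ S := by
    rw [Finset.mem_symmDiff, Finset.mem_singleton]
    tauto
  by_cases hv : v ∈ S
  · rw [if_pos hv, if_neg (fun h => h1.1 h hv)]
  · rw [if_neg hv, if_pos (h1.2 hv)]

theorem NFa_mul_xi {x : R k s} (hx : NFa k s x) (v : V) : NFa k s (x * xi k s v) := by
  obtain ⟨b, rfl⟩ := hx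
  exact ⟨_, nf_mul_xi b v⟩

/-- Every element of `R` is a `B`-linear combination of the square free monomials. -/
theorem nf_all (x : R k s) : NFa k s x := by
  obtain ⟨p, rfl⟩ := Ideal.Quotient.mk_surjective x
  induction p using MvPolynomial.induction_on with
  | C a =>
    have h1 : (Ideal.Quotient.mk (relI k s) (C a) : R k s) =
        ιB k s (C a) * ∏ v ∈ (∅ : Finset V), xi k s v := by
      rw [Finset.prod_empty, mul_one, ← MvPolynomial.algebraMap_eq, ← MvPolynomial.algebraMap_eq,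
        AlgHom.commutes]
      rfl
    rw [h1]
    exact NFa_single _ _
  | add p q hp hq => rw [map_add]; exact NFa_add hp hq
  | mul_X p v hp => rw [map_mul]; exact NFa_mul_xi hp v

end nf

section field

variable (K : Type) [Field K] (s : K)

/-- The square free monomials are linearly independent over `B`. -/
theorem nf_unique (h : Hyp K s) (b : Finset V → MvPolynomial (Fin 4 × Fin 2) K)
    (hb : ∑ S, ιB K s (b S) * ∏ v ∈ S, xi K s v = 0) (S : Finset V) : b S = 0 := by
  obtain ⟨M, _, Φ, _, _, hΦ⟩ := exists_hom K s (MvPolynomial (Fin 4 × Fin 2) K)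
    (by
      intro h2
      apply two_ne h
      apply C_injective (Fin 4 × Fin 2) K
      rw [map_ofNat, h2, map_zero])
    (RingHom.id _) ∅ (fun v hv => absurd hv (Finset.notMem_empty v))
    (fun v _ => ell_ne_zero h v) Finset.univ (Finset.mem_univ _) (fun _ _ _ _ => Finset.mem_univ _)
    (fun _ _ v hv => absurd hv (Finset.notMem_empty v))
    (fun S _ hS => ell_not_isSquare h S hS)
  exact hΦ b (by rw [hb, map_zero]) S (Finset.mem_univ S)

theorem nf_unique' (h : Hyp K s) (b c : Finset V → MvPolynomial (Fin 4 × Fin 2) K)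
    (hb : ∑ S, ιB K s (b S) * ∏ v ∈ S, xi K s v = ∑ S, ιB K s (c S) * ∏ v ∈ S, xi K s v)
    (S : Finset V) : b S = c S := by
  refine sub_eq_zero.1 (nf_unique K s h (fun S => b S - c S) ?_ S)
  rw [← sub_eq_zero, ← Finset.sum_sub_distrib] at hb
  rw [← hb]
  refine Finset.sum_congr rfl fun S _ => ?_
  rw [map_sub, sub_mul]

/-! ### Contractions of the ideals generated by one coordinate -/

theorem pt1_zero (i : Fin 4) (a : Fin 2) : pt1 s (i, a.castLE (by norm_num)) (i, a) = 0 := by
  simp only [pt1, if_true]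
  fin_cases a
  · change -(0 : K) = 0
    exact neg_zero
  · rfl

/-- The substitution `X p0 ↦ 0`. -/
noncomputable def sub0 (p0 : Fin 4 × Fin 2) :
    MvPolynomial (Fin 4 × Fin 2) K →ₐ[K] MvPolynomial (Fin 4 × Fin 2) K :=
  aeval fun p => if p = p0 then 0 else X p

theorem eval_sub0 (P : Fin 4 × Fin 2 → K) (p0 : Fin 4 × Fin 2) (hP : P p0 = 0)
    (q : MvPolynomial (Fin 4 × Fin 2) K) : eval P (sub0 K p0 q) = eval P q := by
  have h : (eval P).comp (sub0 K p0).toRingHom = eval P := by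
    apply MvPolynomial.ringHom_ext
    · intro a
      change eval P (sub0 K p0 (C a)) = eval P (C a)
      rw [sub0, ← MvPolynomial.algebraMap_eq, AlgHom.commutes]
    · intro p
      change eval P (sub0 K p0 (X p)) = eval P (X p)
      rw [sub0, aeval_X]
      by_cases hp : p = p0
      · rw [if_pos hp, map_zero, eval_X, hp, hP]
      · rw [if_neg hp]
  exact congrArg (fun f => f q) h

theorem sub0_ell (p0 : Fin 4 × Fin 2) (v : V) (hv : v.1 ≠ p0.1) :
    sub0 K p0 (ell K s v) = ell K s v := by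
  have h0 : (v.1, (0 : Fin 2)) ≠ p0 := fun h => hv (by rw [← h])
  have h1 : (v.1, (1 : Fin 2)) ≠ p0 := fun h => hv (by rw [← h])
  rw [ell_eq, sub0, map_add, map_mul, map_mul, aeval_X, aeval_X, if_neg h0, if_neg h1,
    ← MvPolynomial.algebraMap_eq, AlgHom.commutes, AlgHom.commutes]

theorem two_poly_ne (h : Hyp K s) : (2 : MvPolynomial (Fin 4 × Fin 2) K) ≠ 0 := by
  intro h2
  apply two_ne h
  apply C_injective (Fin 4 × Fin 2) K
  rw [map_ofNat, h2, map_zero]

/-- The contraction to `A` of the ideal generated by a coordinate `v0` (column `0` or `1`) is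
prime, if every `S ∈ XiS` without `v0` does not meet the row of `v0`. -/
theorem cA_coord_prime (h : Hyp K s) (i : Fin 4) (a : Fin 2)
    (hS : ∀ S ∈ XiS, (i, a.castLE (by norm_num)) ∉ S → ∀ v ∈ S, v.1 ≠ i) :
    (cA K s (Ideal.span {xi K s (i, a.castLE (by norm_num))})).IsPrime := by
  have hv0 : ∀ v ∈ ({(i, a.castLE (by norm_num))} : Finset V), v = (i, a.castLE (by norm_num)) :=
    fun v hv => Finset.mem_singleton.1 hv
  refine cA_prime K s (MvPolynomial (Fin 4 × Fin 2) K) (two_poly_ne K s h)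
    (sub0 K (i, a)).toRingHom {(i, a.castLE (by norm_num))} ?_ ?_ ?_ _ ?_ ?_ ?_
  · intro v hv
    rw [hv0 v hv]
    change sub0 K (i, a) (ell K s ((i, a).1, (i, a).2.castLE (by norm_num))) = 0
    rw [ell_castLE, sub0, aeval_X, if_pos rfl]
  · intro v hv hc
    have h1 : v ≠ (i, a.castLE (by norm_num)) := fun h2 => hv (Finset.mem_singleton.2 h2)
    apply eval_pt1_ne h (i, a.castLE (by norm_num)) v h1
    rw [← eval_sub0 K _ (i, a) (pt1_zero K s i a)]
    have hc' : sub0 K (i, a) (ell K s v) = 0 := hc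
    rw [hc', map_zero]
  · intro S hSX hSv hS0
    have h1 : (i, a.castLE (by norm_num)) ∉ S := hSv _ (Finset.mem_singleton_self _)
    have h2 : ∏ v ∈ S, (sub0 K (i, a)).toRingHom (ell K s v) = ∏ v ∈ S, ell K s v :=
      Finset.prod_congr rfl fun v hv => sub0_ell K s (i, a) v (hS S hSX h1 v hv)
    rw [h2]
    exact ell_not_isSquare h S hS0
  · intro v hv
    rw [hv0 v hv]
    exact Ideal.subset_span rfl
  · intro b hb
    have h1 : b ∈ Ideal.span {(X (i, a) : MvPolynomial (Fin 4 × Fin 2) K)} := by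
      refine mem_of_aeval_eq_zero K (fun p => if p = (i, a) then 0 else X p) _ (fun p => ?_) b hb
      by_cases hp : p = (i, a)
      · rw [if_pos hp, sub_zero, hp]
        exact Ideal.subset_span rfl
      · rw [if_neg hp, sub_self]
        exact zero_mem _
    obtain ⟨c, rfl⟩ := Ideal.mem_span_singleton'.1 h1
    rw [map_mul]
    refine Ideal.mul_mem_left _ _ ?_
    rw [ιB, aeval_X, sq]
    exact Ideal.mul_mem_left _ _ (Ideal.subset_span rfl)
  · refine le_trans ?_ le_sup_right
    rw [Finset.coe_singleton, Set.image_singleton]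

theorem row3_Sg : ∀ v : V, v.1 = 3 → v ∉ Sg 0 ∧ v ∉ Sg 1 ∧ v ∉ Sg 2 ∧ v ∈ Sg 3 := by decide

theorem row2_Sg : ∀ v : V, v.1 = 2 → v ∉ Sg 0 ∧ v ∉ Sg 1 ∧ v ∈ Sg 2 ∧ v ∉ Sg 3 := by decide

theorem XiS_row3 (S : Finset V) (hS : S ∈ XiS) (a : Fin 4) (ha : ((3, a) : V) ∉ S) :
    ∀ v ∈ S, v.1 ≠ 3 := by
  obtain ⟨t, _, rfl⟩ := Finset.mem_image.1 hS
  have key : ∀ v : V, v.1 = 3 → (v ∈ symmDiff (symmDiff (if t 0 then Sg 0 else ∅)
      (if t 1 then Sg 1 else ∅)) (symmDiff (if t 2 then Sg 2 else ∅) (if t 3 then Sg 3 else ∅)) ↔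
      t 3 = true) := by
    intro v hv
    obtain ⟨h0, h1, h2, h3⟩ := row3_Sg v hv
    have e0 : v ∉ (if t 0 = true then Sg 0 else ∅) := by split_ifs <;> simp [h0]
    have e1 : v ∉ (if t 1 = true then Sg 1 else ∅) := by split_ifs <;> simp [h1]
    have e2 : v ∉ (if t 2 = true then Sg 2 else ∅) := by split_ifs <;> simp [h2]
    have e3 : v ∈ (if t 3 = true then Sg 3 else ∅) ↔ t 3 = true := by split_ifs with h <;> simp [h3, h]
    rw [Finset.mem_symmDiff, Finset.mem_symmDiff, Finset.mem_symmDiff, e3]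
    tauto
  intro v hv h1
  exact ha ((key (3, a) rfl).2 ((key v h1).1 hv))

theorem XiS_row2 (S : Finset V) (hS : S ∈ XiS) (a : Fin 4) (ha : ((2, a) : V) ∉ S) :
    ∀ v ∈ S, v.1 ≠ 2 := by
  obtain ⟨t, _, rfl⟩ := Finset.mem_image.1 hS
  have key : ∀ v : V, v.1 = 2 → (v ∈ symmDiff (symmDiff (if t 0 then Sg 0 else ∅)
      (if t 1 then Sg 1 else ∅)) (symmDiff (if t 2 then Sg 2 else ∅) (if t 3 then Sg 3 else ∅)) ↔
      t 2 = true) := by
    intro v hv
    obtain ⟨h0, h1, h2, h3⟩ := row2_Sg v hv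
    have e0 : v ∉ (if t 0 = true then Sg 0 else ∅) := by split_ifs <;> simp [h0]
    have e1 : v ∉ (if t 1 = true then Sg 1 else ∅) := by split_ifs <;> simp [h1]
    have e2 : v ∈ (if t 2 = true then Sg 2 else ∅) ↔ t 2 = true := by split_ifs with h <;> simp [h2, h]
    have e3 : v ∉ (if t 3 = true then Sg 3 else ∅) := by split_ifs <;> simp [h3]
    rw [Finset.mem_symmDiff, Finset.mem_symmDiff, Finset.mem_symmDiff, e2]
    tauto
  intro v hv h1
  exact ha ((key (2, a) rfl).2 ((key v h1).1 hv))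

theorem cA_JV_prime (h : Hyp K s) (a : Fin 2) : (cA K s (JV K s a)).IsPrime :=
  cA_coord_prime K s h 3 a fun S hS h1 => XiS_row3 S hS _ h1

theorem cA_JU_prime (h : Hyp K s) : (cA K s (JU K s)).IsPrime :=
  cA_coord_prime K s h 2 0 fun S hS h1 => XiS_row2 S hS _ h1

/-! ### The form `x_3 - x_3'` is a nonzerodivisor modulo `ξ_4a` -/

theorem not_X_dvd (a : Fin 2) : ¬ (X (3, a) : MvPolynomial (Fin 4 × Fin 2) K) ∣
    X (2, 0) - X (2, 1) := by
  rintro ⟨q, hq⟩
  have h1 := congrArg (eval (fun p : Fin 4 × Fin 2 => if p = (2, 0) then (1 : K) else 0)) hq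
  have h2 : ((3, a) : Fin 4 × Fin 2) ≠ (2, 0) := by
    intro h
    have h3 : (3 : Fin 4) = 2 := congrArg Prod.fst h
    exact absurd h3 (by decide)
  have h3 : ((2, 1) : Fin 4 × Fin 2) ≠ (2, 0) := by decide
  rw [map_sub, map_mul, eval_X, eval_X, eval_X, if_pos rfl, if_neg h2, if_neg h3, sub_zero,
    zero_mul] at h1
  exact one_ne_zero h1

theorem lam3_notMem_JV' (h : Hyp K s) (a : Fin 2) (m : R K s)
    (h0 : lam3 K s * m ∈ JV K s a) : m ∈ JV K s a := by
  obtain ⟨c, hc⟩ := nf_all (k := K) (s := s) m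
  obtain ⟨m', hm'⟩ := Ideal.mem_span_singleton'.1 h0
  obtain ⟨b, hb⟩ := nf_all (k := K) (s := s) m'
  have hlam : lam3 K s = ιB K s (X (2, 0) - X (2, 1)) := by
    rw [lam3, ιB, map_sub, aeval_X, aeval_X]
    rfl
  have h1 : lam3 K s * m = ∑ S, ιB K s ((X (2, 0) - X (2, 1)) * c S) * ∏ v ∈ S, xi K s v := by
    rw [hlam, hc, Finset.mul_sum]
    refine Finset.sum_congr rfl fun S _ => ?_
    rw [map_mul, mul_assoc]
  have h2 := nf_mul_xi b ((3, a.castLE (by norm_num)) : V) (s := s)
  rw [← hb, hm', h1] at h2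
  have h3 := nf_unique' K s h _ _ h2
  have hsq : ιB K s (X (3, a)) ∈ JV K s a := by
    rw [ιB, aeval_X, sq]
    exact Ideal.mul_mem_left _ _ (Ideal.subset_span rfl)
  rw [hc]
  refine Ideal.sum_mem _ fun S _ => ?_
  by_cases hv : ((3, a.castLE (by norm_num)) : V) ∈ S
  · refine Ideal.mul_mem_left _ _ ?_
    rw [← Finset.mul_prod_erase _ _ hv]
    exact Ideal.mul_mem_right _ _ (Ideal.subset_span rfl)
  · refine Ideal.mul_mem_right _ _ ?_
    have h4 := h3 S
    rw [if_neg hv] at h4
    have h5 : ell K s ((3, a).1, (3, a).2.castLE (by norm_num)) = X (3, a) := ell_castLE K s (3, a)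
    have h6 : (X (3, a) : MvPolynomial (Fin 4 × Fin 2) K) ∣ (X (2, 0) - X (2, 1)) * c S := by
      rw [h4]
      exact Dvd.intro_left _ (congrArg (fun z => _ * z) h5.symm)
    rcases (X_prime (R := K) (i := ((3, a) : Fin 4 × Fin 2))).dvd_or_dvd h6 with h7 | h7
    · exact absurd h7 (not_X_dvd K a)
    · obtain ⟨q, hq⟩ := h7
      rw [hq, map_mul]
      exact Ideal.mul_mem_right _ _ hsq

/-- strictness: `V_a ≠ P_a`, and the elements used for the rational functions. -/
theorem lam3_notMem_JV (h : Hyp K s) (a : Fin 2) (m : R K s) (n : ℕ)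
    (_ : lam3 K s * m ∈ gr K s (n • hh)) (h0 : lam3 K s * m ∈ JV K s a) : m ∈ JV K s a :=
  lam3_notMem_JV' K s h a m h0

end field

end Pool.Agent.SSF
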