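import Mathlib

/-!
Project SSF (MP_5928ba), module X12g (helper60): products of square roots are linearly independent.
-/

set_option autoImplicit false

namespace Pool.Agent.SSF

namespace XTwX

open Polynomial

/-- An automorphism which changes the sign of a square root. -/
theorem exists_sigma {L M : Type} [Field L] [Field M] [Algebra L M] [Normal L M]
    (h2 : (2 : L) ≠ 0) {x : M} {d : L} (hx : x ^ 2 = algebraMap L M d)
    (hn : ∀ r : L, algebraMap L M r ≠ x) : ∃ σ : M ≃ₐ[L] M, σ x = -x := by
  have hx0 : x ≠ 0 := by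
    intro h
    exact hn 0 (by rw [map_zero, h])
  have hd : d ≠ 0 := by
    rintro rfl
    rw [map_zero] at hx
    exact hx0 (pow_eq_zero_iff (by norm_num) |>.1 hx)
  have haev : aeval x (X ^ 2 - C d : L[X]) = 0 := by
    rw [map_sub, map_pow, aeval_X, aeval_C, hx, sub_self]
  have hdvd : minpoly L x ∣ (X ^ 2 - C d : L[X]) := minpoly.dvd L x haev
  have hsep : IsSeparable L x :=
    (separable_X_pow_sub_C d (by exact_mod_cast h2) hd).of_dvd hdvd
  have hbot : x ∉ (⊥ : Subalgebra L M) := by
    rintro h
    obtain ⟨r, hr⟩ := Algebra.mem_bot.1 h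
    exact hn r hr
  obtain ⟨y, hxy, hc⟩ := (notMem_iff_exists_ne_and_isConjRoot hsep (Normal.splits inferInstance x)).1
    hbot
  obtain ⟨σ, hσ⟩ := hc.symm.exists_algEquiv
  refine ⟨σ, ?_⟩
  rw [hσ]
  have h1 : y ^ 2 = algebraMap L M d := by
    rw [← hσ, ← map_pow, hx, AlgEquiv.commutes]
  rw [← hx, sq_eq_sq_iff_eq_or_eq_neg] at h1
  rcases h1 with h1 | h1
  · exact absurd h1.symm hxy
  · exact h1

open Classical in
/-- Independence of the classes: shortest relation. -/
theorem tw_aux {L M ι : Type} [Field L] [Field M] [Algebra L M] [Normal L M] [DecidableEq ι]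
    (h2 : (2 : L) ≠ 0) (W : Finset (Finset ι)) (hW : ∀ S ∈ W, ∀ T ∈ W, symmDiff S T ∈ W)
    (Y : Finset ι → M) (hY0 : ∀ S, Y S ≠ 0) (hsq : ∀ S, ∃ d : L, Y S ^ 2 = algebraMap L M d)
    (hmul : ∀ S T, ∃ d : L, Y S * Y T = algebraMap L M d * Y (symmDiff S T))
    (hns : ∀ S ∈ W, S ≠ ∅ → ∀ r : L, algebraMap L M r ≠ Y S) :
    ∀ (n : ℕ) (a : Finset ι → L), (W.filter fun S => a S ≠ 0).card ≤ n →
      ∑ S ∈ W, algebraMap L M (a S) * Y S = 0 → ∀ S ∈ W, a S = 0 := by
  classical
  have h2M : (2 : M) ≠ 0 := by
    intro h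
    apply h2
    apply (algebraMap L M).injective
    rw [map_ofNat, map_zero, h]
  intro n
  induction n with
  | zero =>
    intro a ha _ S hS
    by_contra hne
    have : S ∈ W.filter fun S => a S ≠ 0 := Finset.mem_filter.2 ⟨hS, hne⟩
    rw [Nat.le_zero, Finset.card_eq_zero] at ha
    rw [ha] at this
    exact absurd this (Finset.notMem_empty _)
  | succ n ih =>
    intro a ha hsum S₀ hS₀
    by_contra hne
    -- a second element of the support
    by_cases hT : ∃ T ∈ W, T ≠ S₀ ∧ a T ≠ 0
    · obtain ⟨T, hTW, hTS, haT⟩ := hT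
      have hD : symmDiff S₀ T ≠ ∅ := by
        intro h
        apply hTS
        have h1 : symmDiff S₀ T = ⊥ := h
        exact (symmDiff_eq_bot.1 h1).symm
      obtain ⟨d, hd⟩ := hsq (symmDiff S₀ T)
      obtain ⟨σ, hσ⟩ := exists_sigma h2 hd (hns _ (hW _ hS₀ _ hTW) hD)
      have hsgn : ∀ S, σ (Y S) = Y S ∨ σ (Y S) = -Y S := by
        intro S
        obtain ⟨d', hd'⟩ := hsq S
        have h1 : σ (Y S) ^ 2 = Y S ^ 2 := by
          rw [← map_pow, hd', AlgEquiv.commutes]
        exact sq_eq_sq_iff_eq_or_eq_neg.1 h1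
      obtain ⟨ε, hε, hε2⟩ : ∃ ε : M, σ (Y S₀) = ε * Y S₀ ∧ (ε = 1 ∨ ε = -1) := by
        rcases hsgn S₀ with h | h
        · exact ⟨1, by rw [h, one_mul], Or.inl rfl⟩
        · exact ⟨-1, by rw [h, neg_one_mul], Or.inr rfl⟩
      have hεsq : ε * ε = 1 := by rcases hε2 with h | h <;> rw [h] <;> ring
      have hε0 : ε ≠ 0 := by
        rintro rfl
        rw [zero_mul] at hεsq
        exact zero_ne_one hεsq
      have hsgn' : ∀ S, σ (Y S) = ε * Y S ∨ σ (Y S) = -(ε * Y S) := by
        intro S
        rcases hsgn S with h | h <;> rcases hε2 with h' | h' <;> rw [h, h'] <;> simp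
      have hσT : σ (Y T) = -(ε * Y T) := by
        rcases hsgn' T with h | h
        · exfalso
          obtain ⟨d', hd'⟩ := hmul S₀ T
          have h1 : σ (Y S₀) * σ (Y T) = -(Y S₀ * Y T) := by
            rw [← map_mul, hd', map_mul, hσ, AlgEquiv.commutes, mul_neg]
          rw [hε, h] at h1
          have h3 : ε * Y S₀ * (ε * Y T) = Y S₀ * Y T := by
            calc ε * Y S₀ * (ε * Y T) = (ε * ε) * (Y S₀ * Y T) := by ring
              _ = Y S₀ * Y T := by rw [hεsq, one_mul]
          rw [h3] at h1
          have h4 : (2 : M) * (Y S₀ * Y T) = 0 := by linear_combination h1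
          rcases mul_eq_zero.1 h4 with h5 | h5
          · exact h2M h5
          · exact (mul_ne_zero (hY0 _) (hY0 _)) h5
        · exact h
      set b : Finset ι → L := fun S => if σ (Y S) = ε * Y S then 0 else a S with hb
      have hbsum : ∑ S ∈ W, algebraMap L M (b S) * Y S = 0 := by
        have h1 : ∑ S ∈ W, algebraMap L M (a S) * σ (Y S) = 0 := by
          have := congrArg σ hsum
          rw [map_sum, map_zero] at this
          rw [← this]
          refine Finset.sum_congr rfl fun S _ => ?_
          rw [map_mul, AlgEquiv.commutes]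
        have h3 : ∀ S, algebraMap L M (b S) * Y S =
            (algebraMap L M (a S) * (ε * Y S) - algebraMap L M (a S) * σ (Y S)) *
              (ε * (2 : M)⁻¹) := by
          intro S
          by_cases h : σ (Y S) = ε * Y S
          · simp only [hb, if_pos h]
            rw [h, map_zero, sub_self, zero_mul, zero_mul]
          · simp only [hb, if_neg h]
            rcases hsgn' S with h' | h'
            · exact absurd h' h
            · rw [h']
              have h6 : (2 : M) * (2 : M)⁻¹ = 1 := mul_inv_cancel₀ h2M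
              linear_combination (-(algebraMap L M (a S)) * Y S) * hεsq -
                (algebraMap L M (a S) * Y S * (ε * ε)) * h6
        rw [Finset.sum_congr rfl fun S _ => h3 S, ← Finset.sum_mul, Finset.sum_sub_distrib, h1,
          sub_zero]
        have h4 : ∑ S ∈ W, algebraMap L M (a S) * (ε * Y S) =
            ε * ∑ S ∈ W, algebraMap L M (a S) * Y S := by
          rw [Finset.mul_sum]
          exact Finset.sum_congr rfl fun S _ => by ring
        rw [h4, hsum, mul_zero, zero_mul]
      have hcard : (W.filter fun S => b S ≠ 0).card ≤ n := by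
        have h1 : (W.filter fun S => b S ≠ 0) ⊂ (W.filter fun S => a S ≠ 0) := by
          refine Finset.ssubset_iff_subset_ne.2 ⟨?_, ?_⟩
          · intro S hS
            rw [Finset.mem_filter] at hS ⊢
            refine ⟨hS.1, fun h => hS.2 ?_⟩
            simp only [hb]
            split_ifs
            · rfl
            · exact h
          · intro h
            have h3 : S₀ ∈ W.filter fun S => a S ≠ 0 := Finset.mem_filter.2 ⟨hS₀, hne⟩
            rw [← h, Finset.mem_filter] at h3
            apply h3.2
            simp only [hb, if_pos hε]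
        have := Finset.card_lt_card h1
        omega
      have h5 := ih b hcard hbsum T hTW
      apply haT
      have h6 : σ (Y T) ≠ ε * Y T := by
        rw [hσT]
        intro h
        have h7 : (2 : M) * (ε * Y T) = 0 := by linear_combination -h
        rcases mul_eq_zero.1 h7 with h8 | h8
        · exact h2M h8
        · exact (mul_ne_zero hε0 (hY0 _)) h8
      simpa only [hb, if_neg h6] using h5
    · push Not at hT
      have h1 : ∑ S ∈ W, algebraMap L M (a S) * Y S = algebraMap L M (a S₀) * Y S₀ := by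
        refine Finset.sum_eq_single S₀ (fun T hTW hTS => ?_) (fun h => absurd hS₀ h)
        rw [hT T hTW hTS, map_zero, zero_mul]
      rw [h1] at hsum
      rcases mul_eq_zero.1 hsum with h | h
      · exact hne ((map_eq_zero _).1 h)
      · exact hY0 _ h

end XTwX

open XTwX in
/-- `B` a domain of characteristic not two, `c v ∈ B` nonzero, `W` a set of subsets of the index
set closed under symmetric difference, such that no product `∏_{v ∈ S} c v`, `∅ ≠ S ∈ W`, is a
square in the fraction field.  Then the products `∏_{v ∈ S} √(c v)`, `S ∈ W`, are linearly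
independent over `B` in an algebraic closure of the fraction field. -/
theorem exists_field (ι : Type) [Fintype ι] [DecidableEq ι] (B : Type) [CommRing B] [IsDomain B]
    (h2 : (2 : B) ≠ 0) (c : ι → B) (hc : ∀ v, c v ≠ 0) (W : Finset (Finset ι))
    (h0 : ∅ ∈ W) (hW : ∀ S ∈ W, ∀ T ∈ W, symmDiff S T ∈ W)
    (hsq : ∀ S ∈ W, S ≠ ∅ → ¬ IsSquare (algebraMap B (FractionRing B) (∏ v ∈ S, c v))) :
    ∃ (M : Type) (_ : Field M) (f : B →+* M) (y : ι → M), Function.Injective f ∧
      (∀ v, y v ^ 2 = f (c v)) ∧
      ∀ b : Finset ι → B, ∑ S ∈ W, f (b S) * ∏ v ∈ S, y v = 0 → ∀ S ∈ W, b S = 0 := by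
  classical
  set L := FractionRing B
  set M := AlgebraicClosure L
  have hBL : Function.Injective (algebraMap B L) := IsFractionRing.injective B L
  have hLM : Function.Injective (algebraMap L M) := (algebraMap L M).injective
  have hy : ∀ v, ∃ y : M, y ^ 2 = algebraMap L M (algebraMap B L (c v)) := fun v => by
    obtain ⟨z, hz⟩ := IsAlgClosed.exists_pow_nat_eq (algebraMap L M (algebraMap B L (c v)))
      (n := 2) (by norm_num)
    exact ⟨z, hz⟩
  choose y hy using hy
  have h2L : (2 : L) ≠ 0 := by
    intro h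
    apply h2
    apply hBL
    rw [map_ofNat, map_zero, h]
  have hy0 : ∀ v, y v ≠ 0 := by
    intro v h
    have h1 := hy v
    rw [h, zero_pow (by norm_num)] at h1
    exact hc v (hBL (by rw [map_zero]; exact hLM (by rw [map_zero]; exact h1.symm)))
  have hprod : ∀ S : Finset ι, (∏ v ∈ S, y v) ^ 2 =
      algebraMap L M (algebraMap B L (∏ v ∈ S, c v)) := by
    intro S
    rw [← Finset.prod_pow, map_prod, map_prod]
    exact Finset.prod_congr rfl fun v _ => hy v
  refine ⟨M, inferInstance, (algebraMap L M).comp (algebraMap B L), y, hLM.comp hBL, hy, ?_⟩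
  intro b hb S hS
  have key := tw_aux (L := L) (M := M) h2L W hW (fun S => ∏ v ∈ S, y v)
    (fun S => Finset.prod_ne_zero_iff.2 fun v _ => hy0 v) (fun S => ⟨_, hprod S⟩) ?_ ?_
    _ (fun S => algebraMap B L (b S)) le_rfl
    (by simpa using hb) S hS
  · exact hBL (by rw [map_zero]; exact key)
  · intro S T
    refine ⟨algebraMap B L (∏ v ∈ S ∩ T, c v), ?_⟩
    rw [← hprod, sq]
    have e1 : symmDiff S T = (S \ T) ∪ (T \ S) := rfl
    have e2 : Disjoint (S \ T) (T \ S) := by
      rw [Finset.disjoint_left]
      intro v h3 h4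
      rw [Finset.mem_sdiff] at h3 h4
      exact h4.2 h3.1
    have e3 : ∏ v ∈ S, y v = (∏ v ∈ S \ T, y v) * ∏ v ∈ S ∩ T, y v := by
      rw [← Finset.prod_union (Finset.disjoint_sdiff_inter S T), Finset.sdiff_union_inter]
    have e4 : ∏ v ∈ T, y v = (∏ v ∈ T \ S, y v) * ∏ v ∈ S ∩ T, y v := by
      rw [Finset.inter_comm, ← Finset.prod_union (Finset.disjoint_sdiff_inter T S),
        Finset.sdiff_union_inter]
    rw [e1, Finset.prod_union e2, e3, e4]
    ring
  · intro S hSW hSne r hr
    apply hsq S hSW hSne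
    refine ⟨r, hLM ?_⟩
    rw [map_mul, hr, ← sq, hprod]

end Pool.Agent.SSF
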