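import Pool.Agent.SSF.XPrDefs
import Pool.Agent.SSF.XNorm
import Pool.Agent.SSF.XTw

/-!
Project SSF (MP_5928ba), XPrCommon: contractions to `A` of ideals of `R` as kernels of
homomorphisms to fields.
-/

set_option autoImplicit false

namespace Pool.Agent.SSF

open MvPolynomial DirectSum

/-! ### Nonsquares -/

/-- A polynomial which vanishes at a point, but not to second order, is not a square. -/
theorem not_isSquare_of_point {σ K : Type} [Field K] (m : MvPolynomial σ K) (P : σ → K) (p : σ)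
    (h0 : eval P m = 0) (h1 : eval P (pderiv p m) ≠ 0) :
    ¬ IsSquare (algebraMap (MvPolynomial σ K) (FractionRing (MvPolynomial σ K)) m) := by
  rintro ⟨q, hq⟩
  have hint : IsIntegral (MvPolynomial σ K) q := by
    refine ⟨Polynomial.X ^ 2 - Polynomial.C m, Polynomial.monic_X_pow_sub_C m two_ne_zero, ?_⟩
    rw [Polynomial.eval₂_sub, Polynomial.eval₂_pow, Polynomial.eval₂_X, Polynomial.eval₂_C, hq, sq,
      sub_self]
  obtain ⟨r, hr⟩ := IsIntegrallyClosed.isIntegral_iff.1 hint
  have h2 : m = r * r := by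
    apply IsFractionRing.injective (MvPolynomial σ K) (FractionRing (MvPolynomial σ K))
    rw [map_mul, hr, hq]
  have h3 : eval P r = 0 := by
    rw [h2, map_mul] at h0
    exact mul_self_eq_zero.1 h0
  apply h1
  rw [h2, Derivation.leibniz, smul_eq_mul, map_add, map_mul, h3, zero_mul, add_zero]

/-- A product in which exactly one factor vanishes at a point, to first order, is not a square. -/
theorem not_isSquare_prod {σ ι K : Type} [Field K] [DecidableEq ι] (S : Finset ι)
    (c : ι → MvPolynomial σ K) (v1 : ι) (hv1 : v1 ∈ S) (P : σ → K) (p : σ)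
    (h0 : eval P (c v1) = 0) (h1 : eval P (pderiv p (c v1)) ≠ 0)
    (h2 : ∀ v ∈ S, v ≠ v1 → eval P (c v) ≠ 0) :
    ¬ IsSquare (algebraMap (MvPolynomial σ K) (FractionRing (MvPolynomial σ K))
      (∏ v ∈ S, c v)) := by
  refine not_isSquare_of_point _ P p ?_ ?_
  · rw [map_prod]
    exact Finset.prod_eq_zero hv1 h0
  · rw [← Finset.mul_prod_erase _ _ hv1, Derivation.leibniz, smul_eq_mul, smul_eq_mul, map_add,
      map_mul, map_mul, h0, zero_mul, zero_add, map_prod]
    refine mul_ne_zero (Finset.prod_ne_zero_iff.2 fun v hv => ?_) h1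
    exact h2 v (Finset.mem_of_mem_erase hv) (Finset.ne_of_mem_erase hv)

/-! ### The homomorphism -/

section hom

variable (K : Type) [Field K] (s : K)

theorem ell_zero (i : Fin 4) : ell K s (i, 0) = X (i, 0) := rfl

theorem ell_one (i : Fin 4) : ell K s (i, 1) = X (i, 1) := rfl

theorem ell_two (i : Fin 4) :
    ell K s (i, 2) = C (ca s i) * X (i, 0) + C (cb s i) * X (i, 1) := rfl

theorem ell_three (i : Fin 4) :
    ell K s (i, 3) = C (cc s i) * X (i, 0) + C (cd s i) * X (i, 1) := rfl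

theorem ell_castLE (p : Fin 4 × Fin 2) :
    ell K s (p.1, p.2.castLE (by norm_num)) = X p := by
  obtain ⟨i, j⟩ := p
  fin_cases j <;> rfl

/-- Homomorphism from the values `Y v` with `Y v ^ 2 = g (ell v)`. -/
noncomputable def homR {M : Type} [CommRing M] (g : MvPolynomial (Fin 4 × Fin 2) K →+* M)
    (Y : V → M) (hY : ∀ v, Y v ^ 2 = g (ell K s v)) : R K s →+* M :=
  Ideal.Quotient.lift (relI K s) (eval₂Hom (g.comp C) Y) (by
    intro a ha
    have hle : relI K s ≤ RingHom.ker (eval₂Hom (g.comp C) Y) := by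
      unfold relI
      rw [Ideal.span_le]
      rintro _ (⟨i, rfl⟩ | ⟨i, rfl⟩)
      · change eval₂Hom (g.comp C) Y (rel2 K s i) = 0
        simp only [rel2, map_sub, map_add, map_mul, map_pow, eval₂Hom_X', eval₂Hom_C,
          RingHom.comp_apply]
        rw [hY, hY, hY, ell_zero, ell_one, ell_two, map_add, map_mul, map_mul, sub_self]
      · change eval₂Hom (g.comp C) Y (rel3 K s i) = 0
        simp only [rel3, map_sub, map_add, map_mul, map_pow, eval₂Hom_X', eval₂Hom_C,
          RingHom.comp_apply]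
        rw [hY, hY, hY, ell_zero, ell_one, ell_three, map_add, map_mul, map_mul, sub_self]
    exact hle ha)

variable {M : Type} [CommRing M] (g : MvPolynomial (Fin 4 × Fin 2) K →+* M) (Y : V → M)
  (hY : ∀ v, Y v ^ 2 = g (ell K s v))

theorem homR_xi (v : V) : homR K s g Y hY (xi K s v) = Y v := by
  change eval₂Hom (g.comp C) Y (X v) = Y v
  exact eval₂Hom_X' _ _ _

theorem homR_algebraMap (a : K) : homR K s g Y hY (algebraMap K (R K s) a) = g (C a) := by
  change eval₂Hom (g.comp C) Y (C a) = g (C a)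
  rw [eval₂Hom_C, RingHom.comp_apply]

theorem homR_ιB (b : MvPolynomial (Fin 4 × Fin 2) K) : homR K s g Y hY (ιB K s b) = g b := by
  have h : ((homR K s g Y hY).comp (ιB K s).toRingHom) = g := by
    apply MvPolynomial.ringHom_ext
    · intro a
      change homR K s g Y hY (ιB K s (C a)) = g (C a)
      rw [← MvPolynomial.algebraMap_eq, AlgHom.commutes, homR_algebraMap,
        MvPolynomial.algebraMap_eq]
    · intro p
      change homR K s g Y hY (ιB K s (X p)) = g (X p)
      rw [ιB, aeval_X, map_pow, homR_xi, hY, ell_castLE]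
  exact congrArg (fun f => f b) h

end hom

/-! ### Existence of homomorphisms with controlled kernel -/

section main

variable (K : Type) [Field K] (s : K)

/-- Homomorphism from `R` to a field, with zero coordinates `Z`, injective on the sums over `W` up
to the kernel of `τ`. -/
theorem exists_hom (B : Type) [CommRing B] [IsDomain B] (h2 : (2 : B) ≠ 0)
    (τ : MvPolynomial (Fin 4 × Fin 2) K →+* B) (Z : Finset V)
    (hZ : ∀ v ∈ Z, τ (ell K s v) = 0) (hne : ∀ v, v ∉ Z → τ (ell K s v) ≠ 0)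
    (W : Finset (Finset V)) (hW0 : ∅ ∈ W) (hW : ∀ S ∈ W, ∀ T ∈ W, symmDiff S T ∈ W)
    (hWZ : ∀ S ∈ W, ∀ v ∈ Z, v ∉ S)
    (hsq : ∀ S ∈ W, S ≠ ∅ → ¬ IsSquare (algebraMap B (FractionRing B)
      (∏ v ∈ S, τ (ell K s v)))) :
    ∃ (M : Type) (_ : Field M) (Φ : R K s →+* M), (∀ v ∈ Z, Φ (xi K s v) = 0) ∧
      (∀ b, τ b = 0 → Φ (ιB K s b) = 0) ∧
      ∀ b : Finset V → MvPolynomial (Fin 4 × Fin 2) K,
        Φ (∑ S ∈ W, ιB K s (b S) * ∏ v ∈ S, xi K s v) = 0 → ∀ S ∈ W, τ (b S) = 0 := by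
  classical
  have hcS : ∀ S ∈ W, (∏ v ∈ S, if v ∈ Z then 1 else τ (ell K s v)) =
      ∏ v ∈ S, τ (ell K s v) := by
    intro S hS
    refine Finset.prod_congr rfl fun v hv => ?_
    rw [if_neg fun hz => hWZ S hS v hz hv]
  obtain ⟨M, _, f, y, hf, hy, hlin⟩ := exists_field V B h2
    (fun v => if v ∈ Z then 1 else τ (ell K s v))
    (by
      intro v
      by_cases hv : v ∈ Z
      · simp only [if_pos hv]
        exact one_ne_zero
      · simp only [if_neg hv]
        exact hne v hv) W hW0 hW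
    (by
      intro S hS hS0
      rw [hcS S hS]
      exact hsq S hS hS0)
  have hY : ∀ v, (if v ∈ Z then 0 else y v) ^ 2 = (f.comp τ) (ell K s v) := by
    intro v
    by_cases hv : v ∈ Z
    · rw [if_pos hv, RingHom.comp_apply, hZ v hv, map_zero]
      exact zero_pow two_ne_zero
    · rw [if_neg hv, hy v, if_neg hv, RingHom.comp_apply]
  refine ⟨M, inferInstance, homR K s (f.comp τ) (fun v => if v ∈ Z then 0 else y v) hY,
    fun v hv => ?_, fun b hb => ?_, fun b hb S hS => ?_⟩
  · rw [homR_xi, if_pos hv]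
  · rw [homR_ιB, RingHom.comp_apply, hb, map_zero]
  · refine hlin (fun S => τ (b S)) ?_ S hS
    rw [map_sum] at hb
    rw [← hb]
    refine Finset.sum_congr rfl fun T hT => ?_
    rw [map_mul, homR_ιB, RingHom.comp_apply, map_prod]
    congr 1
    refine Finset.prod_congr rfl fun v hv => ?_
    rw [homR_xi, if_neg fun hz => hWZ T hT v hz hv]

/-- An ideal which is, on `A`, the kernel of a homomorphism to a field contracts to a prime. -/
theorem cA_prime_of_hom (J : Ideal (R K s)) {M : Type} [Field M] (Φ : R K s →+* M)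
    (h1 : ∀ x ∈ J, Φ x = 0) (h2 : ∀ x ∈ ver (gr K s) hh, Φ x = 0 → x ∈ J) :
    (cA K s J).IsPrime := by
  have h3 : cA K s J = RingHom.ker (Φ.comp (DS K s).φ.toRingHom) := by
    apply Ideal.ext
    intro x
    change (DS K s).φ x ∈ J ↔ Φ ((DS K s).φ x) = 0
    have hx : (DS K s).φ x ∈ ver (gr K s) hh := Subtype.property (p := fun y => y ∈ ver (gr K s) hh) x
    exact ⟨fun h => h1 _ h, fun h => h2 _ hx h⟩
  rw [h3]
  exact RingHom.ker_isPrime _

/-- The main tool: contractions to `A` of the ideals generated by some coordinates and the image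
of the kernel of `τ` are prime. -/
theorem cA_prime (B : Type) [CommRing B] [IsDomain B] (h2 : (2 : B) ≠ 0)
    (τ : MvPolynomial (Fin 4 × Fin 2) K →+* B) (Z : Finset V)
    (hZ : ∀ v ∈ Z, τ (ell K s v) = 0) (hne : ∀ v, v ∉ Z → τ (ell K s v) ≠ 0)
    (hsq : ∀ S ∈ XiS, (∀ v ∈ Z, v ∉ S) → S ≠ ∅ → ¬ IsSquare (algebraMap B (FractionRing B)
      (∏ v ∈ S, τ (ell K s v)))) (J : Ideal (R K s)) (hJZ : ∀ v ∈ Z, xi K s v ∈ J)
    (hJτ : ∀ b, τ b = 0 → ιB K s b ∈ J)
    (hJ : J ≤ Ideal.map (ιB K s) (RingHom.ker τ) ⊔ Ideal.span (xi K s '' Z)) :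
    (cA K s J).IsPrime := by
  classical
  obtain ⟨M, _, Φ, hΦZ, hΦτ, hΦ⟩ := exists_hom K s B h2 τ Z hZ hne
    (XiS.filter fun S => ∀ v ∈ Z, v ∉ S)
    (by
      rw [Finset.mem_filter]
      exact ⟨empty_mem_XiS, fun v _ => Finset.notMem_empty v⟩)
    (by
      intro S hS T hT
      rw [Finset.mem_filter] at hS hT ⊢
      refine ⟨XiS_symmDiff S hS.1 T hT.1, fun v hv h => ?_⟩
      rw [Finset.mem_symmDiff] at h
      rcases h with h | h
      · exact hS.2 v hv h.1
      · exact hT.2 v hv h.1)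
    (fun S hS => (Finset.mem_filter.1 hS).2)
    (fun S hS => hsq S (Finset.mem_filter.1 hS).1 (Finset.mem_filter.1 hS).2)
  refine cA_prime_of_hom K s J Φ (fun x hx => ?_) (fun x hx hx0 => ?_)
  · have hle : Ideal.map (ιB K s) (RingHom.ker τ) ⊔ Ideal.span (xi K s '' Z) ≤ RingHom.ker Φ := by
      refine sup_le (Ideal.map_le_iff_le_comap.2 fun b hb => ?_) (Ideal.span_le.2 ?_)
      · exact hΦτ b hb
      · rintro _ ⟨v, hv, rfl⟩
        exact hΦZ v hv
    exact hle (hJ hx)
  · obtain ⟨b, rfl⟩ := normal_form' K s x hx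
    have h3 : ∀ S, ¬ (∀ v ∈ Z, v ∉ S) → ∏ v ∈ S, xi K s v ∈ J := by
      intro S hS
      push Not at hS
      obtain ⟨v, hv, hvS⟩ := hS
      rw [← Finset.mul_prod_erase _ _ hvS]
      exact Ideal.mul_mem_right _ _ (hJZ v hv)
    have h3' : ∀ S, ¬ (∀ v ∈ Z, v ∉ S) → Φ (∏ v ∈ S, xi K s v) = 0 := by
      intro S hS
      push Not at hS
      obtain ⟨v, hv, hvS⟩ := hS
      rw [← Finset.mul_prod_erase _ _ hvS, map_mul, hΦZ v hv, zero_mul]
    have h4 : ∑ S ∈ XiS, ιB K s (b S) * ∏ v ∈ S, xi K s v =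
        ∑ S ∈ XiS.filter (fun S => ∀ v ∈ Z, v ∉ S), ιB K s (b S) * ∏ v ∈ S, xi K s v +
        ∑ S ∈ XiS.filter (fun S => ¬ ∀ v ∈ Z, v ∉ S), ιB K s (b S) * ∏ v ∈ S, xi K s v :=
      (Finset.sum_filter_add_sum_filter_not _ _ _).symm
    have h5 : Φ (∑ S ∈ XiS.filter (fun S => ∀ v ∈ Z, v ∉ S),
        ιB K s (b S) * ∏ v ∈ S, xi K s v) = 0 := by
      rw [h4, map_add] at hx0
      have h6 : Φ (∑ S ∈ XiS.filter (fun S => ¬ ∀ v ∈ Z, v ∉ S),
          ιB K s (b S) * ∏ v ∈ S, xi K s v) = 0 := by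
        rw [map_sum]
        refine Finset.sum_eq_zero fun S hS => ?_
        rw [map_mul, h3' S (Finset.mem_filter.1 hS).2, mul_zero]
      rwa [h6, add_zero] at hx0
    rw [h4]
    refine Ideal.add_mem _ (Ideal.sum_mem _ fun S hS => ?_) (Ideal.sum_mem _ fun S hS => ?_)
    · exact Ideal.mul_mem_right _ _ (hJτ _ (hΦ b h5 S hS))
    · exact Ideal.mul_mem_left _ _ (h3 S (Finset.mem_filter.1 hS).2)

/-- The kernel of a substitution. -/
theorem mem_of_aeval_eq_zero {σ : Type} (t : σ → MvPolynomial σ K)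
    (I : Ideal (MvPolynomial σ K)) (hI : ∀ p, X p - t p ∈ I) (q : MvPolynomial σ K)
    (hq : aeval t q = 0) : q ∈ I := by
  have h : (Ideal.Quotient.mkₐ K I).comp (aeval t) = Ideal.Quotient.mkₐ K I := by
    apply MvPolynomial.algHom_ext
    intro p
    rw [AlgHom.comp_apply, aeval_X]
    exact ((Ideal.Quotient.mk_eq_mk_iff_sub_mem _ _).2 (hI p)).symm
  have h1 := congrArg (fun f => f q) h
  simp only [AlgHom.comp_apply, hq, map_zero] at h1
  exact Ideal.Quotient.eq_zero_iff_mem.1 h1.symm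

end main

/-! ### The linear forms -/

section forms

variable {K : Type} [Field K] {s : K}

theorem ne_of_mul_eq_one {x y : K} (h : x * y = 1) : x ≠ 0 :=
  left_ne_zero_of_mul (h ▸ one_ne_zero)

/-- Coefficient of `x_i` in `ell`. -/
def al (s : K) (v : V) : K := ![1, 0, ca s v.1, cc s v.1] v.2

/-- Coefficient of `x_i'` in `ell`. -/
def be (s : K) (v : V) : K := ![0, 1, cb s v.1, cd s v.1] v.2

theorem ell_eq (v : V) : ell K s v = C (al s v) * X (v.1, 0) + C (be s v) * X (v.1, 1) := by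
  obtain ⟨i, j⟩ := v
  fin_cases j
  · change X (i, 0) = C (1 : K) * X (i, 0) + C (0 : K) * X (i, 1)
    rw [C_1, C_0, one_mul, zero_mul, add_zero]
  · change X (i, 1) = C (0 : K) * X (i, 0) + C (1 : K) * X (i, 1)
    rw [C_1, C_0, one_mul, zero_mul, zero_add]
  · rfl
  · rfl

theorem eval_ell (P : Fin 4 × Fin 2 → K) (v : V) :
    eval P (ell K s v) = al s v * P (v.1, 0) + be s v * P (v.1, 1) := by
  rw [ell_eq]
  simp

theorem two_ne (h : Hyp K s) : (2 : K) ≠ 0 := by
  obtain ⟨h17, hs⟩ := h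
  exact ne_of_mul_eq_one (y := 9) (by linear_combination h17)

theorem s_ne (h : Hyp K s) : s ≠ 0 := by
  obtain ⟨h17, hs⟩ := h
  exact ne_of_mul_eq_one (y := 6 * s) (by linear_combination 6 * hs + h17)

/-- The four forms of a row are pairwise not proportional. -/
theorem det_ne (h : Hyp K s) (i j j' : Fin 4) (hj : j ≠ j') :
    al s (i, j) * be s (i, j') - be s (i, j) * al s (i, j') ≠ 0 := by
  obtain ⟨h17, hs⟩ := h
  have e1 : (1 : K) + (s + s) ≠ 0 :=
    ne_of_mul_eq_one (y := 3 * (1 - 2 * s)) (by linear_combination -12 * hs - 2 * h17)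
  have e2 : (1 : K) - (s + s) ≠ 0 :=
    ne_of_mul_eq_one (y := 3 * (1 + 2 * s)) (by linear_combination -12 * hs - 2 * h17)
  have e3 : s ≠ 0 := ne_of_mul_eq_one (y := 6 * s) (by linear_combination 6 * hs + h17)
  have e4 : s + s ≠ 0 := ne_of_mul_eq_one (y := 3 * s) (by linear_combination 6 * hs + h17)
  have e5 : (2 : K) ≠ 0 := ne_of_mul_eq_one (y := 9) (by linear_combination h17)
  have e6 : (1 + (s + s)) * (1 - (s + s)) - (-1) * (-1) ≠ 0 :=
    ne_of_mul_eq_one (y := -10) (by linear_combination 40 * hs + 7 * h17)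
  have key : ∀ j j' : Fin 4, j < j' →
      al s (i, j) * be s (i, j') - be s (i, j) * al s (i, j') ≠ 0 := by
    intro j j' hlt
    have hcase : (j = 0 ∧ j' = 1) ∨ (j = 0 ∧ j' = 2) ∨ (j = 0 ∧ j' = 3) ∨ (j = 1 ∧ j' = 2) ∨
        (j = 1 ∧ j' = 3) ∨ (j = 2 ∧ j' = 3) := by
      revert j j'
      decide
    rcases hcase with ⟨rfl, rfl⟩ | ⟨rfl, rfl⟩ | ⟨rfl, rfl⟩ | ⟨rfl, rfl⟩ | ⟨rfl, rfl⟩ | ⟨rfl, rfl⟩
    · change (1 : K) * 1 - 0 * 0 ≠ 0
      simp
    · change (1 : K) * cb s i - 0 * ca s i ≠ 0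
      rw [one_mul, zero_mul, sub_zero]
      fin_cases i
      · change -s ≠ 0
        exact neg_ne_zero.2 e3
      · change (-1 : K) ≠ 0
        exact neg_ne_zero.2 one_ne_zero
      · change (-1 : K) ≠ 0
        exact neg_ne_zero.2 one_ne_zero
      · change (-1 : K) ≠ 0
        exact neg_ne_zero.2 one_ne_zero
    · change (1 : K) * cd s i - 0 * cc s i ≠ 0
      rw [one_mul, zero_mul, sub_zero]
      fin_cases i
      · exact e3
      · exact e2
      · exact e2
      · exact one_ne_zero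
    · change (0 : K) * cb s i - 1 * ca s i ≠ 0
      rw [one_mul, zero_mul, zero_sub]
      refine neg_ne_zero.2 ?_
      fin_cases i
      · exact one_ne_zero
      · exact e1
      · exact e1
      · exact one_ne_zero
    · change (0 : K) * cd s i - 1 * cc s i ≠ 0
      rw [one_mul, zero_mul, zero_sub]
      refine neg_ne_zero.2 ?_
      fin_cases i
      · exact one_ne_zero
      · exact neg_ne_zero.2 one_ne_zero
      · exact neg_ne_zero.2 one_ne_zero
      · exact one_ne_zero
    · change ca s i * cd s i - cb s i * cc s i ≠ 0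
      fin_cases i
      · change (1 : K) * s - -s * 1 ≠ 0
        rw [one_mul, mul_one, sub_neg_eq_add]
        exact e4
      · exact e6
      · exact e6
      · change (1 : K) * 1 - -1 * 1 ≠ 0
        rw [one_mul, mul_one, sub_neg_eq_add, one_add_one_eq_two]
        exact e5
  rcases lt_or_gt_of_ne hj with h1 | h1
  · exact key j j' h1
  · have h2 := key j' j h1
    intro h3
    apply h2
    linear_combination -h3

/-- A point where no form of the row `i` vanishes. -/
def gp (i : Fin 4) : K := if i = 3 then 2 else 1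

theorem gp_ne (h : Hyp K s) (v : V) : al s v + be s v * gp v.1 ≠ 0 := by
  obtain ⟨h17, hs⟩ := h
  have e1 : (1 : K) + -s ≠ 0 :=
    ne_of_mul_eq_one (y := 8 * (1 + s)) (by linear_combination -8 * hs - h17)
  have e2 : (1 : K) + s ≠ 0 :=
    ne_of_mul_eq_one (y := 8 * (1 - s)) (by linear_combination -8 * hs - h17)
  have e4 : s + s ≠ 0 := ne_of_mul_eq_one (y := 3 * s) (by linear_combination 6 * hs + h17)
  have e5 : (2 : K) ≠ 0 := ne_of_mul_eq_one (y := 9) (by linear_combination h17)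
  have e3 : (3 : K) ≠ 0 := ne_of_mul_eq_one (y := 6) (by linear_combination h17)
  obtain ⟨i, j⟩ := v
  fin_cases j
  · change (1 : K) + 0 * gp i ≠ 0
    simp
  · change (0 : K) + 1 * gp i ≠ 0
    rw [zero_add, one_mul, gp]
    split_ifs
    · exact e5
    · exact one_ne_zero
  · change ca s i + cb s i * gp i ≠ 0
    fin_cases i
    · change (1 : K) + -s * (if (0 : Fin 4) = 3 then 2 else 1) ≠ 0
      rw [if_neg (by decide), mul_one]
      exact e1
    · change (1 : K) + (s + s) + -1 * (if (1 : Fin 4) = 3 then 2 else 1) ≠ 0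
      rw [if_neg (by decide), mul_one, add_comm (1 : K), add_neg_cancel_right]
      exact e4
    · change (1 : K) + (s + s) + -1 * (if (2 : Fin 4) = 3 then 2 else 1) ≠ 0
      rw [if_neg (by decide), mul_one, add_comm (1 : K), add_neg_cancel_right]
      exact e4
    · change (1 : K) + -1 * (if (3 : Fin 4) = 3 then 2 else 1) ≠ 0
      rw [if_pos rfl]
      have : (1 : K) + -1 * 2 = -1 := by ring
      rw [this]
      exact neg_ne_zero.2 one_ne_zero
  · change cc s i + cd s i * gp i ≠ 0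
    fin_cases i
    · change (1 : K) + s * (if (0 : Fin 4) = 3 then 2 else 1) ≠ 0
      rw [if_neg (by decide), mul_one]
      exact e2
    · change (-1 : K) + (1 - (s + s)) * (if (1 : Fin 4) = 3 then 2 else 1) ≠ 0
      rw [if_neg (by decide), mul_one]
      have : (-1 : K) + (1 - (s + s)) = -(s + s) := by ring
      rw [this]
      exact neg_ne_zero.2 e4
    · change (-1 : K) + (1 - (s + s)) * (if (2 : Fin 4) = 3 then 2 else 1) ≠ 0
      rw [if_neg (by decide), mul_one]
      have : (-1 : K) + (1 - (s + s)) = -(s + s) := by ring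
      rw [this]
      exact neg_ne_zero.2 e4
    · change (1 : K) + 1 * (if (3 : Fin 4) = 3 then 2 else 1) ≠ 0
      rw [if_pos rfl]
      have : (1 : K) + 1 * 2 = 3 := by norm_num
      rw [this]
      exact e3

/-- The point where `ell v1` vanishes and no other form. -/
def pt1 (s : K) (v1 : V) : Fin 4 × Fin 2 → K := fun p =>
  if p.1 = v1.1 then ![-be s v1, al s v1] p.2 else ![1, gp p.1] p.2

theorem eval_pt1_self (v1 : V) : eval (pt1 s v1) (ell K s v1) = 0 := by
  rw [eval_ell]
  simp only [pt1, if_true]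
  change al s v1 * -be s v1 + be s v1 * al s v1 = 0
  ring

theorem eval_pt1_ne (h : Hyp K s) (v1 v : V) (hv : v ≠ v1) :
    eval (pt1 s v1) (ell K s v) ≠ 0 := by
  rw [eval_ell]
  by_cases h1 : v.1 = v1.1
  · simp only [pt1, h1, if_true]
    change al s v * -be s v1 + be s v * al s v1 ≠ 0
    obtain ⟨i, j⟩ := v
    obtain ⟨i', j'⟩ := v1
    obtain rfl : i = i' := h1
    have h2 := det_ne h i j j' (fun h3 => hv (by rw [h3]))
    intro h3
    apply h2
    linear_combination -h3
  · simp only [pt1, h1, if_false]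
    change al s v * 1 + be s v * gp v.1 ≠ 0
    rw [mul_one]
    exact gp_ne h v

/-- Some partial derivative of `ell v` is not zero. -/
theorem exists_pderiv_ell (h : Hyp K s) (v : V) :
    ∃ p : Fin 4 × Fin 2, ∀ P : Fin 4 × Fin 2 → K, eval P (pderiv p (ell K s v)) ≠ 0 := by
  have h0 : al s v ≠ 0 ∨ be s v ≠ 0 := by
    by_contra hc
    push Not at hc
    apply gp_ne h v
    rw [hc.1, hc.2]
    ring
  rcases h0 with h0 | h0
  · refine ⟨(v.1, 0), fun P => ?_⟩
    rw [ell_eq]
    simp [pderiv_X, h0]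
  · refine ⟨(v.1, 1), fun P => ?_⟩
    rw [ell_eq]
    simp [pderiv_X, h0]

/-- Products of different forms are not squares. -/
theorem ell_not_isSquare (h : Hyp K s) (S : Finset V) (hS : S ≠ ∅) :
    ¬ IsSquare (algebraMap (MvPolynomial (Fin 4 × Fin 2) K)
      (FractionRing (MvPolynomial (Fin 4 × Fin 2) K)) (∏ v ∈ S, ell K s v)) := by
  obtain ⟨v1, hv1⟩ := Finset.nonempty_iff_ne_empty.2 hS
  obtain ⟨p, hp⟩ := exists_pderiv_ell h v1
  exact not_isSquare_prod S (ell K s) v1 hv1 (pt1 s v1) p (eval_pt1_self v1) (hp _)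
    fun v _ hv => eval_pt1_ne h v1 v hv

theorem ell_ne_zero (h : Hyp K s) (v : V) : ell K s v ≠ 0 := by
  intro h0
  obtain ⟨p, hp⟩ := exists_pderiv_ell h v
  apply hp 0
  rw [h0, map_zero, map_zero]

end forms

end Pool.Agent.SSF
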