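import Pool.Agent.SSF.XHyp

/-!
Project SSF (MP_5928ba): the ideals of the surfaces and threefolds of the example.
-/

set_option autoImplicit false

namespace Pool.Agent.SSF

variable (K : Type) [Field K] (s : K)

/-- The ideal of `V_a = {ξ_4a = 0}`, `a = 0, 1`. -/
noncomputable def JV (a : Fin 2) : Ideal (R K s) := Ideal.span {xi K s (3, a.castLE (by norm_num))}

/-- The ideal of `U = {ξ_31 = 0}`. -/
noncomputable def JU : Ideal (R K s) := Ideal.span {xi K s (2, 0)}

/-- The linear form `x_3 - x_3'`. -/
noncomputable def lam3 : R K s := xi K s (2, 0) ^ 2 - xi K s (2, 1) ^ 2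

/-- The ideal of `P_a = {x_3 = x_3', ξ_4a = 0}`. -/
noncomputable def JP (a : Fin 2) : Ideal (R K s) :=
  Ideal.span {lam3 K s, xi K s (3, a.castLE (by norm_num))}

/-- Contraction to `A`. -/
noncomputable def cA (J : Ideal (R K s)) : Ideal (DS K s).A := J.comap (DS K s).φ

end Pool.Agent.SSF
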