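import Pool.Agent.SSF.XPrA
import Pool.Agent.SSF.XNon
import Pool.Agent.SSF.Br.CxD
import Pool.Agent.SSF.Br.Gr

/-!
Project SSF (MP_5928ba): the points of `Proj A` of the two threefolds and of the surface
of the example.
-/

set_option autoImplicit false

namespace Pool.Agent.SSF

namespace XPt

section general

variable {k : Type} [CommRing k] (D : Cox k)

theorem coe_decompose (a : D.A) (n : ℕ) : D.φ (DirectSum.decompose D.gA a n : D.A) =
    (DirectSum.decompose D.gR (D.φ a) (n • D.h) : D.R) := by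
  classical
  have h1 : D.φ a = ∑ i ∈ (DirectSum.decompose D.gA a).support,
      D.φ (DirectSum.decompose D.gA a i : D.A) := by
    rw [← map_sum, DirectSum.sum_support_decompose]
  have h2 : ∀ i j : ℕ, i • D.h = j • D.h → i = j := by
    intro i j hij
    have := D.h_inj i j (by rw [natCast_zsmul, natCast_zsmul]; exact hij)
    exact_mod_cast this
  have h3 : ∀ i : ℕ, (DirectSum.decompose D.gR (D.φ (DirectSum.decompose D.gA a i : D.A))
      (n • D.h) : D.R) = if i = n then D.φ (DirectSum.decompose D.gA a i : D.A) else 0 := by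
    intro i
    have hm := D.φ_mem i _ (SetLike.coe_mem (DirectSum.decompose D.gA a i))
    split_ifs with h
    · subst h
      exact DirectSum.decompose_of_mem_same _ hm
    · exact DirectSum.decompose_of_mem_ne _ hm (fun h' => h (h2 _ _ h'))
  conv_rhs => rw [h1]
  rw [DirectSum.decompose_sum, DFinsupp.finsetSum_apply, AddSubmonoidClass.coe_finsetSum]
  simp_rw [h3]
  rw [Finset.sum_ite_eq']
  split_ifs with h
  · rfl
  · rw [DFinsupp.notMem_support_iff] at h
    rw [h]
    simp

/-- The contraction to `A` of an ideal generated by homogeneous elements is homogeneous. -/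
theorem contr_hom (s : Set D.R) (hs : ∀ x ∈ s, ∃ γ, x ∈ D.gR γ) :
    (Br.contr D s).IsHomogeneous D.gA := by
  intro n a ha
  have h1 : (Ideal.span s).IsHomogeneous D.gR := Ideal.homogeneous_span D.gR s hs
  change D.φ _ ∈ Ideal.span s
  rw [coe_decompose]
  exact h1 _ ha

/-- A relevant prime contraction is the ideal of a point. -/
theorem exists_pt (s : Set D.R) (hs : ∀ x ∈ s, ∃ γ, x ∈ D.gR γ) (hp : (Br.contr D s).IsPrime)
    (a : D.A) (ha : a ∈ D.gA 1) (has : a ∉ Br.contr D s) :
    ∃ y : D.Pt, Br.idl D.gA y = Br.contr D s := by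
  refine ⟨⟨⟨Br.contr D s, contr_hom D s hs⟩, hp, fun hle => has (hle ?_)⟩, rfl⟩
  exact HomogeneousIdeal.mem_irrelevant_of_mem D.gA one_pos ha

end general

end XPt

variable (L : Type) [Field L] [IsAlgClosed L] (s : L)

/-- The point `V_a`. -/
theorem exists_yV (h : Hyp L s) (a : Fin 2) : ∃ y : (DS L s).Pt,
    Br.idl (DS L s).gA y = Br.contr (DS L s) {xi L s (3, a.castLE (by norm_num))} := by
  obtain ⟨z, hz, hz'⟩ := (DS L s).φ_surj 1 _ (XNon.b_mem L s)
  refine XPt.exists_pt (DS L s) _ ?_ (cA_JV_prime L s h a) z hz ?_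
  · intro x hx
    rw [Set.mem_singleton_iff.1 hx]
    exact ⟨_, xi_mem L s _⟩
  · intro h1
    have h2 : (DS L s).φ z ∈ JV L s a := h1
    rw [hz'] at h2
    exact (XNon.ab_notMem L s a 1 one_ne_zero).2 h2

/-- The point `U`. -/
theorem exists_yU (h : Hyp L s) : ∃ y : (DS L s).Pt,
    Br.idl (DS L s).gA y = Br.contr (DS L s) {xi L s (2, 0)} := by
  obtain ⟨z, hz, hz'⟩ := (DS L s).φ_surj 1 _ (XNon.a'_mem L s)
  refine XPt.exists_pt (DS L s) _ ?_ (cA_JU_prime L s h) z hz ?_
  · intro x hx
    rw [Set.mem_singleton_iff.1 hx]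
    exact ⟨_, xi_mem L s _⟩
  · intro h1
    have h2 : (DS L s).φ z ∈ JU L s := h1
    rw [hz'] at h2
    exact (XNon.ab'_notMem L s).1 h2

end Pool.Agent.SSF
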